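import Pool.Agent.Lib.MP_4c5e24_al.Defs

set_option autoImplicit false

/-!
RIG-A1: exponent sums and the laws of abelian groups.
-/

namespace Pool.Agent.Lib.MP_4c5e24_al

open scoped commutatorElement

/-- The exponent sum of the generator `i`, as a homomorphism. -/
def es (i : ℕ) : F →* Multiplicative ℤ :=
  FreeGroup.lift (fun j => if j = i then Multiplicative.ofAdd 1 else 1)

/-- The exponent sum of the generator `i`. -/
def ex (i : ℕ) (w : F) : ℤ := Multiplicative.toAdd (es i w)

theorem ex_one (i : ℕ) : ex i 1 = 0 := by simp [ex]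

theorem ex_mul (i : ℕ) (a b : F) : ex i (a * b) = ex i a + ex i b := by simp [ex]

theorem ex_inv (i : ℕ) (a : F) : ex i a⁻¹ = - ex i a := by simp [ex]

theorem ex_pow (i : ℕ) (a : F) (n : ℕ) : ex i (a ^ n) = n * ex i a := by
  simp [ex]

theorem ex_zpow (i : ℕ) (a : F) (n : ℤ) : ex i (a ^ n) = n * ex i a := by
  simp [ex]

theorem ex_x (i j : ℕ) : ex i (x j) = if j = i then 1 else 0 := by
  unfold ex es x
  rw [FreeGroup.lift_apply_of]
  split <;> simp

theorem ex_comm (i : ℕ) (a b : F) : ex i ⁅a, b⁆ = 0 := by
  rw [commutatorElement_def, ex_mul, ex_mul, ex_mul, ex_inv, ex_inv]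
  ring

/-- Only finitely many exponent sums of a word are nonzero.

Proof: `FreeGroup.induction_on`; the set of the words with this property contains the generators
and is closed under products and inverses (`ex_mul`, `ex_inv`, `ex_x`). -/
theorem ex_finite (w : F) : {i | ex i w ≠ 0}.Finite := by
  refine FreeGroup.induction_on (C := fun w => {i | ex i w ≠ 0}.Finite) w ?_ ?_ ?_ ?_
  · simp [ex_one]
  · intro j
    refine (Set.finite_singleton j).subset ?_
    intro i hi
    change ex i (x j) ≠ 0 at hi
    rw [ex_x] at hi
    by_contra h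
    exact hi (if_neg fun h' => h h'.symm)
  · intro j hj
    refine hj.subset ?_
    intro i hi
    change ex i (x j)⁻¹ ≠ 0 at hi
    rw [ex_inv] at hi
    exact neg_ne_zero.1 hi
  · intro a b ha hb
    refine (ha.union hb).subset ?_
    intro i hi
    change ex i (a * b) ≠ 0 at hi
    rw [ex_mul] at hi
    by_contra h
    simp only [Set.mem_union, Set.mem_setOf_eq, not_or, not_not] at h
    exact hi (by rw [h.1, h.2, add_zero])

private lemma hom_prod {A : Type*} [CommGroup A] (f : F →* A) (w : F) :
    ∃ s : Finset ℕ, ∀ t : Finset ℕ, s ⊆ t → f w = ∏ i ∈ t, f (x i) ^ ex i w := by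
  classical
  refine FreeGroup.induction_on (C := fun w => ∃ s : Finset ℕ, ∀ t : Finset ℕ, s ⊆ t →
    f w = ∏ i ∈ t, f (x i) ^ ex i w) w ?_ ?_ ?_ ?_
  · exact ⟨∅, fun t _ => by simp [ex_one]⟩
  · intro j
    refine ⟨{j}, fun t ht => ?_⟩
    have hj : j ∈ t := ht (Finset.mem_singleton_self j)
    change f (x j) = ∏ i ∈ t, f (x i) ^ ex i (x j)
    rw [Finset.prod_eq_single j]
    · rw [ex_x, if_pos rfl, zpow_one]
    · intro i _ hi
      rw [ex_x, if_neg fun h => hi h.symm, zpow_zero]
    · exact fun h => absurd hj h
  · rintro j ⟨s, hs⟩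
    refine ⟨s, fun t ht => ?_⟩
    have h := hs t ht
    change f (x j)⁻¹ = ∏ i ∈ t, f (x i) ^ ex i (x j)⁻¹
    change f (x j) = ∏ i ∈ t, f (x i) ^ ex i (x j) at h
    rw [map_inv, h, ← Finset.prod_inv_distrib]
    refine Finset.prod_congr rfl fun i _ => ?_
    rw [ex_inv, zpow_neg]
  · rintro a b ⟨s, hs⟩ ⟨s', hs'⟩
    refine ⟨s ∪ s', fun t ht => ?_⟩
    rw [map_mul, hs t (Finset.union_subset_left ht), hs' t (Finset.union_subset_right ht),
      ← Finset.prod_mul_distrib]
    refine Finset.prod_congr rfl fun i _ => ?_
    rw [ex_mul, zpow_add]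

/-- The endomorphism which fixes `x i` and kills the other generators. -/
def only (i : ℕ) : F →* F := FreeGroup.lift (fun j => if j = i then x i else 1)

/-- `only i w = x i ^ ex i w`.

Proof: the homomorphisms `only i` and `(zpowersHom F (x i)).comp (es i)` agree on the
generators (`FreeGroup.ext_hom`). -/
theorem only_apply (i : ℕ) (w : F) : only i w = x i ^ ex i w := by
  have h : only i = (zpowersHom F (x i)).comp (es i) := by
    apply FreeGroup.ext_hom
    intro j
    rw [MonoidHom.comp_apply]
    unfold only es
    rw [FreeGroup.lift_apply_of, FreeGroup.lift_apply_of]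
    split
    · simp [zpowersHom_apply]
    · simp
  rw [h, MonoidHom.comp_apply, zpowersHom_apply]
  rfl

/-- The laws of the cyclic group of order `n` (infinite for `n = 0`).

Proof. If `w` is a law of `Multiplicative (ZMod n)`, apply it to the homomorphism
`F → Multiplicative (ZMod n)`, `x i ↦ ofAdd 1`, `x j ↦ 1` for `j ≠ i`; this homomorphism is the
composition of `es i` with the reduction `Multiplicative ℤ → Multiplicative (ZMod n)`
(they agree on the generators), so `(ex i w : ZMod n) = 0`, that is `(n : ℤ) ∣ ex i w`
(`ZMod.intCast_zmod_eq_zero_iff_dvd` or `(ZMod.intCast_zmod_eq_zero_iff_dvd _ _)`;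
also true for `n = 0`).

Conversely let `f : F →* Multiplicative (ZMod n)`. For every word `w`,
`toAdd (f w) = ∑ i ∈ s, (ex i w : ZMod n) * toAdd (f (x i))` for every finite set `s` which
contains all generators of `w`; to avoid the finite sets one can argue as follows: let `K` be the
kernel of `f`. By `FreeGroup.induction_on` one shows for every `w` that there is a finite set `s`
with: for all finite `t ⊇ s`, `toAdd (f w) = ∑ i ∈ t, (ex i w : ZMod n) * toAdd (f (x i))`. If all
`(ex i w : ZMod n)` are zero the sum is zero. -/
theorem mem_Ab (n : ℕ) (w : F) : w ∈ (Ab n).1 ↔ ∀ i, (n : ℤ) ∣ ex i w := by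
  constructor
  · intro h i
    have h1 := h ((AddMonoidHom.toMultiplicative (Int.castAddHom (ZMod n))).comp (es i))
    rw [MonoidHom.comp_apply] at h1
    have h2 : ((ex i w : ℤ) : ZMod n) = 0 := by
      have h3 := congrArg Multiplicative.toAdd h1
      simpa [ex] using h3
    exact (CharP.intCast_eq_zero_iff (ZMod n) n _).1 h2
  · intro h f
    obtain ⟨s, hs⟩ := hom_prod f w
    rw [hs s (Finset.Subset.refl s)]
    refine Finset.prod_eq_one fun i _ => ?_
    obtain ⟨k, hk⟩ := h i
    rw [hk]
    apply Multiplicative.toAdd.injective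
    rw [toAdd_zpow, toAdd_one, zsmul_eq_mul, Int.cast_mul, Int.cast_natCast, ZMod.natCast_self,
      zero_mul, zero_mul]

/-- The laws of all abelian groups are the commutator words.

Proof. `commutator F ≤ Ab 0`: the quotient is abelian, a commutator has all exponent sums `0`
(`ex_comm`, `mem_Ab`; or directly because `Multiplicative (ZMod 0)` is commutative:
`Abelianization.commutator_subset_ker`). Conversely let all exponent sums of `w` be `0`. The
group `Abelianization F` is commutative; as in `mem_Ab`, for every `w` there is a finite set `s`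
such that for all finite `t ⊇ s` the image of `w` in `Abelianization F` is
`∏ i ∈ t, (Abelianization.of (x i)) ^ ex i w` (`FreeGroup.induction_on`); hence the image is `1`
and `w ∈ commutator F` (`Abelianization.ker_of` or `QuotientGroup.eq_one_iff`). -/
theorem Ab0_eq : (Ab 0).1 = commutator F := by
  apply le_antisymm
  · intro w hw
    have h0 : ∀ i, ex i w = 0 := by
      intro i
      have h := (mem_Ab 0 w).1 hw i
      simpa using h
    obtain ⟨s, hs⟩ := hom_prod (Abelianization.of : F →* Abelianization F) w
    have h1 := hs s (Finset.Subset.refl s)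
    have h2 : (Abelianization.of : F →* Abelianization F) w = 1 := by
      rw [h1]
      exact Finset.prod_eq_one fun i _ => by rw [h0 i, zpow_zero]
    rw [← Abelianization.ker_of]
    exact h2
  · rw [commutator_def, Subgroup.commutator_le]
    intro a _ b _
    exact (mem_Ab 0 _).2 fun i => by rw [ex_comm]; exact dvd_zero _

/-- A fully invariant subgroup which contains the commutator subgroup is determined by the powers
of the generators which it contains.

Proof. From left to right: apply the endomorphism `only i` (`FI.map_mem`, `only_apply`). From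
right to left: the quotient `F ⧸ H.1` is commutative (`Ab0_eq` and `h0`), and as in `mem_Ab` the
image of `w` is the product of the images of `x i ^ ex i w` over a finite set. -/
theorem mem_iff_ex {H : FI} (h0 : Ab 0 ≤ H) (w : F) : w ∈ H.1 ↔ ∀ i, x i ^ ex i w ∈ H.1 := by
  constructor
  · intro hw i
    rw [← only_apply]
    exact H.map_mem (only i) hw
  · intro h
    letI : CommGroup (F ⧸ H.1) :=
      { (inferInstance : Group (F ⧸ H.1)) with
        mul_comm := by
          intro a b
          induction a using QuotientGroup.induction_on with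
          | H a =>
          induction b using QuotientGroup.induction_on with
          | H b =>
          rw [← QuotientGroup.mk_mul, ← QuotientGroup.mk_mul, QuotientGroup.eq]
          apply h0
          rw [Ab0_eq]
          have e : (a * b)⁻¹ * (b * a) = ⁅b⁻¹, a⁻¹⁆ := by
            rw [commutatorElement_def]
            group
          rw [e, commutator_def]
          exact Subgroup.commutator_mem_commutator (Subgroup.mem_top _) (Subgroup.mem_top _) }
    obtain ⟨s, hs⟩ := hom_prod (QuotientGroup.mk' H.1) w
    have h1 := hs s (Finset.Subset.refl s)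
    have h2 : QuotientGroup.mk' H.1 w = 1 := by
      rw [h1]
      refine Finset.prod_eq_one fun i _ => ?_
      rw [← map_zpow]
      exact (QuotientGroup.eq_one_iff _).2 (h i)
    exact (QuotientGroup.eq_one_iff _).1 h2

/-- Renaming of a generator.

Proof: apply `FI.map_mem` with the endomorphism which maps every generator to `x j`. -/
theorem x_pow_mem {H : FI} {i : ℕ} {k : ℤ} (h : x i ^ k ∈ H.1) (g : F) : g ^ k ∈ H.1 := by
  have h1 := H.map_mem (FreeGroup.lift (fun _ => g)) h
  rw [map_zpow, FreeGroup.lift_apply_of] at h1
  exact h1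

end Pool.Agent.Lib.MP_4c5e24_al
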