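import Pool.Agent.Lib.MP_4c5e24_al.Defs

set_option autoImplicit false

/-!
The semidirect product of a left module over a ring and a group which acts through units of the
ring.
-/

namespace Pool.Agent.Lib.MP_4c5e24_al

open scoped commutatorElement

universe u v w

/-- The semidirect product of a `Λ`-module `M` and a group `Q` which acts on `M` through
`ρ : Q →* Λˣ`. -/
@[ext] structure Sd {Q : Type u} {Λ : Type v} [Group Q] [Ring Λ] (ρ : Q →* Λˣ) (M : Type w) where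
  /-- the module part -/
  m : M
  /-- the group part -/
  f : Q

namespace Sd

variable {Q : Type u} {Λ : Type v} [Group Q] [Ring Λ] {ρ : Q →* Λˣ} {M : Type w} [AddCommGroup M]
  [Module Λ M]

set_option linter.unusedSectionVars false

instance : Mul (Sd ρ M) := ⟨fun a b => ⟨a.m + (ρ a.f : Λ) • b.m, a.f * b.f⟩⟩
instance : One (Sd ρ M) := ⟨⟨0, 1⟩⟩
instance : Inv (Sd ρ M) := ⟨fun a => ⟨-((ρ a.f⁻¹ : Λˣ) : Λ) • a.m, a.f⁻¹⟩⟩

@[simp] theorem mul_m (a b : Sd ρ M) : (a * b).m = a.m + (ρ a.f : Λ) • b.m := rfl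
@[simp] theorem mul_f (a b : Sd ρ M) : (a * b).f = a.f * b.f := rfl
@[simp] theorem one_m : (1 : Sd ρ M).m = 0 := rfl
@[simp] theorem one_f : (1 : Sd ρ M).f = 1 := rfl
@[simp] theorem inv_m (a : Sd ρ M) : (a⁻¹).m = -((ρ a.f⁻¹ : Λˣ) : Λ) • a.m := rfl
@[simp] theorem inv_f (a : Sd ρ M) : (a⁻¹).f = a.f⁻¹ := rfl

instance : Group (Sd ρ M) :=
  Group.ofLeftAxioms
    (fun a b c => by
      ext
      · simp [mul_smul, add_assoc]
      · simp [mul_assoc])
    (fun a => by ext <;> simp)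
    (fun a => by
      ext
      · simp
      · simp)

theorem mk_mul (a b : M) (g h : Q) :
    (⟨a, g⟩ * ⟨b, h⟩ : Sd ρ M) = ⟨a + (ρ g : Λ) • b, g * h⟩ := rfl

theorem one_def : (1 : Sd ρ M) = ⟨0, 1⟩ := rfl

/-- The projection to the group part. -/
def proj : Sd ρ M →* Q where
  toFun := f
  map_one' := rfl
  map_mul' _ _ := rfl

@[simp] theorem proj_apply (a : Sd ρ M) : proj a = a.f := rfl

/-- Powers. -/
theorem mk_pow (a : M) (g : Q) (n : ℕ) :
    (⟨a, g⟩ : Sd ρ M) ^ n = ⟨(∑ k ∈ Finset.range n, (ρ g : Λ) ^ k) • a, g ^ n⟩ := by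
  induction n with
  | zero => simp [one_def]
  | succ n ih =>
    rw [pow_succ', ih, mk_mul]
    ext
    · simp only
      rw [Finset.sum_range_succ', smul_smul, Finset.mul_sum, add_smul, pow_zero, one_smul, add_comm]
      simp only [pow_succ']
    · simp only [pow_succ']

/-- Commutators of elements with commuting group parts. -/
theorem comm_mk (a b : M) (g h : Q) (hgh : g * h = h * g) :
    (⁅(⟨a, g⟩ : Sd ρ M), ⟨b, h⟩⁆ : Sd ρ M) =
      ⟨((ρ g : Λ) - 1) • b - ((ρ h : Λ) - 1) • a, 1⟩ := by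
  have h1 : (⟨a, g⟩ : Sd ρ M) * ⟨b, h⟩ =
      ⟨((ρ g : Λ) - 1) • b - ((ρ h : Λ) - 1) • a, 1⟩ * (⟨b, h⟩ * ⟨a, g⟩) := by
    simp only [mk_mul]
    ext
    · simp only [map_one, Units.val_one, one_smul, sub_smul]
      abel
    · simp only [one_mul, hgh]
  rw [commutatorElement_def]
  rw [h1]
  group

/-- The commutator of an element of the module with any element. -/
theorem comm_inl (a b : M) (h : Q) :
    (⁅(⟨a, 1⟩ : Sd ρ M), ⟨b, h⟩⁆ : Sd ρ M) = ⟨-(((ρ h : Λ) - 1) • a), 1⟩ := by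
  rw [comm_mk a b 1 h (by simp)]
  simp

/-- Functoriality. -/
def map {Q' : Type*} {Λ' : Type*} [Group Q'] [Ring Λ'] {ρ' : Q' →* Λ'ˣ} {M' : Type*}
    [AddCommGroup M'] [Module Λ' M'] (α : Q →* Q') (ψ : M →+ M')
    (h : ∀ (g : Q) (a : M), ψ ((ρ g : Λ) • a) = (ρ' (α g) : Λ') • ψ a) : Sd ρ M →* Sd ρ' M' where
  toFun a := ⟨ψ a.m, α a.f⟩
  map_one' := by ext <;> simp
  map_mul' a b := by
    ext
    · simp [h]
    · simp

@[simp] theorem map_m {Q' : Type*} {Λ' : Type*} [Group Q'] [Ring Λ'] {ρ' : Q' →* Λ'ˣ} {M' : Type*}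
    [AddCommGroup M'] [Module Λ' M'] (α : Q →* Q') (ψ : M →+ M')
    (h : ∀ (g : Q) (a : M), ψ ((ρ g : Λ) • a) = (ρ' (α g) : Λ') • ψ a) (a : Sd ρ M) :
    (map (ρ' := ρ') α ψ h a).m = ψ a.m := rfl

@[simp] theorem map_f {Q' : Type*} {Λ' : Type*} [Group Q'] [Ring Λ'] {ρ' : Q' →* Λ'ˣ} {M' : Type*}
    [AddCommGroup M'] [Module Λ' M'] (α : Q →* Q') (ψ : M →+ M')
    (h : ∀ (g : Q) (a : M), ψ ((ρ g : Λ) • a) = (ρ' (α g) : Λ') • ψ a) (a : Sd ρ M) :
    (map (ρ' := ρ') α ψ h a).f = α a.f := rfl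

end Sd

/-- An extension of an abelian group of exponent dividing `m` by a group in `X` satisfies the laws
`AP m X`. -/
theorem AP_le_Laws {G Q : Type*} [Group G] [Group Q] {X : FI} {m : ℕ} (π : G →* Q)
    (hX : X ≤ Laws Q) (hc : ∀ a b : G, π a = 1 → π b = 1 → a * b = b * a)
    (hm : ∀ a : G, π a = 1 → a ^ m = 1) : AP m X ≤ Laws G := by
  rw [AP_le]
  constructor
  · intro h hh f
    rw [map_pow]
    exact hm _ (hX hh (π.comp f))
  · intro h hh k hk f
    rw [map_commutatorElement, commutatorElement_eq_one_iff_mul_comm]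
    exact hc _ _ (hX hh (π.comp f)) (hX hk (π.comp f))

/-- The semidirect product satisfies the laws `AP m X` if `Q` is in `X` and `m M = 0`. -/
theorem AP_le_Laws_Sd {Q : Type u} {Λ : Type v} [Group Q] [Ring Λ] {ρ : Q →* Λˣ} {M : Type w}
    [AddCommGroup M] [Module Λ M] {X : FI} {m : ℕ} (hX : X ≤ Laws Q)
    (hm : ∀ a : M, m • a = 0) : AP m X ≤ Laws (Sd ρ M) := by
  refine AP_le_Laws Sd.proj hX ?_ ?_
  · rintro ⟨a, g⟩ ⟨b, h⟩ hg hh
    simp only [Sd.proj_apply] at hg hh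
    subst hg hh
    ext
    · simp [add_comm]
    · simp
  · rintro ⟨a, g⟩ hg
    simp only [Sd.proj_apply] at hg
    subst hg
    rw [Sd.mk_pow]
    ext
    · simp only [map_one, Units.val_one, one_pow, Finset.sum_const, Finset.card_range, Sd.one_m]
      have h := Nat.cast_smul_eq_nsmul Λ m a
      rw [hm a] at h
      simpa using h
    · simp

end Pool.Agent.Lib.MP_4c5e24_al
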