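import Pool.Agent.Lib.MP_4c5e24_al.A1
import Pool.Agent.Lib.MP_4c5e24_al.Sd

section

set_option autoImplicit false

/-!
RIG-A2: the abelian varieties and the Burnside varieties.
-/

namespace Pool.Agent.Lib.MP_4c5e24_al

open scoped commutatorElement

/-- Proof. If `n ∣ m` use `mem_Ab`: `(m : ℤ) ∣ ex i w` implies `(n : ℤ) ∣ ex i w`. Conversely
`x 0 ^ m ∈ Ab m` (`mem_Ab`, `ex_pow`, `ex_x`), so `x 0 ^ m ∈ Ab n` and `(n : ℤ) ∣ m`. -/
theorem Ab_le_Ab {m n : ℕ} : Ab m ≤ Ab n ↔ n ∣ m := by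
  constructor
  · intro h
    have h1 : x 0 ^ m ∈ (Ab m).1 := by
      rw [mem_Ab]
      intro i
      rw [ex_pow]
      exact dvd_mul_right _ _
    have h2 := (mem_Ab n _).1 (h h1) 0
    rw [ex_pow, ex_x, if_pos rfl, mul_one] at h2
    exact Int.natCast_dvd_natCast.1 h2
  · intro h w hw
    rw [mem_Ab] at hw ⊢
    exact fun i => (Int.natCast_dvd_natCast.2 h).trans (hw i)

theorem Ab_inj {m n : ℕ} (h : Ab m = Ab n) : m = n :=
  Nat.dvd_antisymm (Ab_le_Ab.1 h.ge) (Ab_le_Ab.1 h.le)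

theorem Ab_one : Ab 1 = ⊤ := by
  apply le_antisymm le_top
  intro w _
  rw [mem_Ab]
  intro i
  simp

/-- Every fully invariant subgroup which contains the commutator subgroup is one of the `Ab n`.

Proof. The set of the integers `k` with `x 0 ^ k ∈ H` is a subgroup of `ℤ`
(`AddSubgroup`), so it is the set of the multiples of some `n : ℕ` (`Int.subgroup_cyclic` and
`Int.natAbs`). Then by `mem_iff_ex` (and `x_pow_mem`, which replaces `x i` by `x 0` and
conversely) `w ∈ H ↔ ∀ i, (n : ℤ) ∣ ex i w ↔ w ∈ Ab n` (`mem_Ab`). -/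
theorem exists_Ab {H : FI} (h : Ab 0 ≤ H) : ∃ n, H = Ab n := by
  let A : AddSubgroup ℤ :=
    { carrier := {k | x 0 ^ k ∈ H.1}
      zero_mem' := by
        change x 0 ^ (0 : ℤ) ∈ H.1
        rw [zpow_zero]
        exact one_mem _
      add_mem' := fun {a b} ha hb => by
        change x 0 ^ (a + b) ∈ H.1
        rw [zpow_add]
        exact mul_mem ha hb
      neg_mem' := fun {a} ha => by
        change x 0 ^ (-a) ∈ H.1
        rw [zpow_neg]
        exact inv_mem ha }
  have hA : ∀ k : ℤ, k ∈ A ↔ x 0 ^ k ∈ H.1 := fun k => Iff.rfl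
  obtain ⟨g, hg⟩ := Int.subgroup_cyclic A
  refine ⟨g.natAbs, ?_⟩
  have key : ∀ k : ℤ, x 0 ^ k ∈ H.1 ↔ (g.natAbs : ℤ) ∣ k := by
    intro k
    rw [← hA, hg, Int.natAbs_dvd, AddSubgroup.mem_closure_singleton]
    constructor
    · rintro ⟨c, rfl⟩
      exact ⟨c, by rw [smul_eq_mul, mul_comm]⟩
    · rintro ⟨c, rfl⟩
      exact ⟨c, by rw [smul_eq_mul, mul_comm]⟩
  apply Subtype.ext
  ext w
  rw [mem_iff_ex h, mem_Ab]
  refine forall_congr' fun i => ?_
  rw [← key]
  exact ⟨fun h1 => x_pow_mem h1 _, fun h1 => x_pow_mem h1 _⟩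

theorem Ab0_le_Ab (n : ℕ) : Ab 0 ≤ Ab n := Ab_le_Ab.2 (dvd_zero n)

/-- Proof: `Bn_le`, `mem_Ab`, `ex_pow`. -/
theorem Bn_le_Ab (n : ℕ) : Bn n ≤ Ab n := by
  rw [Bn_le, mem_Ab]
  intro i
  rw [ex_pow]
  exact dvd_mul_right _ _

/-- Proof. `≤`: `Bn_le_Ab`, `Ab0_le_Ab`. `≥`: let `w ∈ Ab n`. By `mem_iff_ex` for
`H = Bn n ⊔ Ab 0` it suffices that `x i ^ ex i w ∈ Bn n ⊔ Ab 0`; this holds because
`(n : ℤ) ∣ ex i w` (`mem_Ab`) and `x i ^ n ∈ Bn n` (`pow_mem_Bn`). -/
theorem Bn_sup_Ab (n : ℕ) : Bn n ⊔ Ab 0 = Ab n := by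
  apply le_antisymm (sup_le (Bn_le_Ab n) (Ab0_le_Ab n))
  intro w hw
  refine (mem_iff_ex le_sup_right w).2 fun i => ?_
  obtain ⟨c, hc⟩ := (mem_Ab n w).1 hw i
  rw [hc, zpow_mul, zpow_natCast]
  have h1 : x i ^ n ∈ (Bn n).1 := pow_mem_Bn n (x i)
  have h2 : (x i ^ n) ^ c ∈ (Bn n).1 := Subgroup.zpow_mem _ h1 c
  exact (le_sup_left : Bn n ≤ Bn n ⊔ Ab 0) h2

/-- `Bn n` is the least `H` such that `H ⊔ Ab 0` contains `Ab n`.

Proof. If `Bn n ≤ H`, then `Ab n = Bn n ⊔ Ab 0 ≤ H ⊔ Ab 0`. Conversely let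
`Ab n ≤ H ⊔ Ab 0`. The word `x 0 ^ n` is in `Ab n`, so `x 0 ^ n = h * c` with `h ∈ H`,
`c ∈ Ab 0` (`mem_sup`). Apply the endomorphism `only 0`: `only 0 (x 0 ^ n) = x 0 ^ n`,
`only 0 c = x 0 ^ ex 0 c = 1` because `ex 0 c = 0` (`mem_Ab` for `n = 0`: `0 ∣ ex 0 c`), and
`only 0 h ∈ H`. So `x 0 ^ n ∈ H`, and `Bn_le`. -/
theorem Bn_le_iff {n : ℕ} {H : FI} : Bn n ≤ H ↔ Ab n ≤ H ⊔ Ab 0 := by
  constructor
  · intro h
    rw [← Bn_sup_Ab]
    exact sup_le_sup_right h _
  · intro h
    rw [Bn_le]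
    have h1 : x 0 ^ n ∈ (Ab n).1 := Bn_le_Ab n (pow_mem_Bn n (x 0))
    obtain ⟨a, ha, c, hc, hac⟩ := mem_sup.1 (h h1)
    have h2 : only 0 (x 0 ^ n) = x 0 ^ n := by
      rw [only_apply, ex_pow, ex_x, if_pos rfl, mul_one, zpow_natCast]
    have h3 : only 0 c = 1 := by
      have h4 := (mem_Ab 0 c).1 hc 0
      rw [Nat.cast_zero, zero_dvd_iff] at h4
      rw [only_apply, h4, zpow_zero]
    have h5 : only 0 a = x 0 ^ n := by
      rw [← h2, ← hac, map_mul, h3, mul_one]
    rw [← h5]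
    exact H.map_mem (only 0) ha

/-- Proof: if `x 0 ^ m ∈ Bn n ≤ Ab n` then `n ∣ m`; conversely `x 0 ^ m` is a power of
`x 0 ^ n`. -/
theorem Bn_le_Bn {m n : ℕ} : Bn m ≤ Bn n ↔ n ∣ m := by
  constructor
  · intro h
    have h1 : x 0 ^ m ∈ (Ab n).1 := Bn_le_Ab n (h (pow_mem_Bn m (x 0)))
    have h2 := (mem_Ab n _).1 h1 0
    rw [ex_pow, ex_x, if_pos rfl, mul_one] at h2
    exact Int.natCast_dvd_natCast.1 h2
  · rintro ⟨c, rfl⟩
    rw [Bn_le, pow_mul]
    exact Subgroup.pow_mem _ (pow_mem_Bn n (x 0)) c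

end Pool.Agent.Lib.MP_4c5e24_al
end

section

set_option autoImplicit false

/-!
RIG-M: the Magnus embedding with coefficients in `ZMod m`.
-/

namespace Pool.Agent.Lib.MP_4c5e24_al

open scoped commutatorElement

/-- A group as a group of units of its group ring. -/
noncomputable def grU (R Q : Type) [CommRing R] [Group Q] : Q →* (MonoidAlgebra R Q)ˣ :=
  (MonoidAlgebra.of R Q).toHomUnits

@[simp] theorem coe_grU (R Q : Type) [CommRing R] [Group Q] (g : Q) :
    ((grU R Q g : (MonoidAlgebra R Q)ˣ) : MonoidAlgebra R Q) = MonoidAlgebra.of R Q g := rfl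

/-- The Magnus representation: `x i ↦ (e_i, x i mod N)`. -/
noncomputable def mag (m : ℕ) (N : Subgroup F) [N.Normal] :
    F →* Sd (grU (ZMod m) (F ⧸ N)) (ℕ →₀ MonoidAlgebra (ZMod m) (F ⧸ N)) :=
  FreeGroup.lift (fun i => ⟨Finsupp.single i 1, QuotientGroup.mk (x i)⟩)

theorem mag_x (m : ℕ) (N : Subgroup F) [N.Normal] (i : ℕ) :
    mag m N (x i) = ⟨Finsupp.single i 1, QuotientGroup.mk (x i)⟩ := by
  unfold mag x
  rw [FreeGroup.lift_apply_of]

theorem mag_f (m : ℕ) (N : Subgroup F) [N.Normal] (w : F) :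
    (mag m N w).f = QuotientGroup.mk w := by
  have h : (Sd.proj).comp (mag m N) = QuotientGroup.mk' N := by
    apply FreeGroup.ext_hom
    intro i
    simp only [MonoidHom.comp_apply]
    rw [show FreeGroup.of i = x i from rfl, mag_x]
    rfl
  exact DFunLike.congr_fun h w

/-- The easy direction.

Proof. `(mag m N w).f = 1` for `w ∈ N` (`mag_f`, `QuotientGroup.eq_one_iff`), so the elements of
`N` are mapped to elements `(v, 1)`, which commute and satisfy `(v, 1) ^ m = (m v, 1) = 1`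
(`Sd.mk_pow`; `m v = 0` because `(m : ZMod m) = 0`). So the generators of `apow m N` are mapped to
`1` (`apow_le` with `K = (mag m N).ker`). -/
theorem mag_of_mem (m : ℕ) (N : Subgroup F) [N.Normal] {w : F} (h : w ∈ apow m N) :
    mag m N w = 1 := by
  have key : apow m N ≤ (mag m N).ker := by
    rw [apow_le]
    have hf : ∀ u ∈ N, (mag m N u).f = 1 := fun u hu => by
      rw [mag_f]
      exact (QuotientGroup.eq_one_iff u).2 hu
    constructor
    · intro u hu
      rw [MonoidHom.mem_ker, map_pow]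
      have h1 : mag m N u = ⟨(mag m N u).m, 1⟩ := by
        ext1
        · rfl
        · exact hf u hu
      have h2 : ((m : ℕ) : MonoidAlgebra (ZMod m) (F ⧸ N)) = 0 := by
        rw [← map_natCast (algebraMap (ZMod m) (MonoidAlgebra (ZMod m) (F ⧸ N))) m,
          ZMod.natCast_self, map_zero]
      rw [h1, Sd.mk_pow]
      ext1
      · simp only [map_one, Units.val_one, one_pow, Finset.sum_const, Finset.card_range,
          Sd.one_m, nsmul_eq_mul, mul_one, h2, zero_smul]
      · simp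
    · intro u hu v hv
      rw [MonoidHom.mem_ker, map_commutatorElement, commutatorElement_eq_one_iff_mul_comm]
      ext1
      · rw [Sd.mul_m, Sd.mul_m, hf u hu, hf v hv, map_one, Units.val_one, one_smul, one_smul,
          add_comm]
      · rw [Sd.mul_f, Sd.mul_f, hf u hu, hf v hv]
  exact key h

/-- `apow m N` is normal if `N` is. -/
theorem apow_normal (m : ℕ) (N : Subgroup F) [hN : N.Normal] : (apow m N).Normal := by
  constructor
  intro a ha g
  have h : apow m N ≤ (apow m N).comap (MulAut.conj g).toMonoidHom := by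
    rw [apow_le]
    refine ⟨fun u hu => ?_, fun u hu v hv => ?_⟩
    · rw [Subgroup.mem_comap, map_pow]
      exact pow_mem_apow (hN.conj_mem u hu g)
    · rw [Subgroup.mem_comap, map_commutatorElement]
      exact comm_mem_apow (hN.conj_mem u hu g) (hN.conj_mem v hv g)
  exact h ha

/-- The quotient of `N` by `apow m N`, as a module over `ZMod m`. -/
theorem exists_quot (m : ℕ) (N : Subgroup F) [N.Normal] :
    ∃ (B : Type) (_ : AddCommGroup B) (_ : Module (ZMod m) B) (τ : N → B),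
      (∀ a b, τ (a * b) = τ a + τ b) ∧ ∀ a, τ a = 0 → (a : F) ∈ apow m N := by
  have := apow_normal m N
  have hn : ((apow m N).subgroupOf N).Normal := inferInstance
  let G := N ⧸ (apow m N).subgroupOf N
  have hcomm : ∀ a b : G, a * b = b * a := by
    intro a b
    induction a using QuotientGroup.induction_on with
    | H a =>
      induction b using QuotientGroup.induction_on with
      | H b =>
        rw [← QuotientGroup.mk_mul, ← QuotientGroup.mk_mul, QuotientGroup.eq,
          Subgroup.mem_subgroupOf]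
        have h1 := comm_mem_apow (m := m) (N := N) (inv_mem b.2) (inv_mem a.2)
        have h2 : (((a * b)⁻¹ * (b * a) : N) : F) = ⁅((b : F))⁻¹, ((a : F))⁻¹⁆ := by
          push_cast
          rw [commutatorElement_def]
          group
        rw [h2]
        exact h1
  let cg : CommGroup G := { (inferInstance : Group G) with mul_comm := hcomm }
  let acg : AddCommGroup (Additive G) := @Additive.addCommGroup G cg
  have hm : ∀ a : Additive G, m • a = 0 := by
    intro a
    change Additive.ofMul ((Additive.toMul a) ^ m) = 0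
    rw [ofMul_eq_zero]
    generalize Additive.toMul a = a
    induction a using QuotientGroup.induction_on with
    | H a =>
      rw [← QuotientGroup.mk_pow, QuotientGroup.eq_one_iff, Subgroup.mem_subgroupOf]
      exact pow_mem_apow a.2
  refine ⟨Additive G, acg, AddCommGroup.zmodModule hm, fun a => Additive.ofMul (QuotientGroup.mk a),
    fun a b => rfl, fun a ha => ?_⟩
  have h1 : (QuotientGroup.mk a : G) = 1 := ha
  rw [QuotientGroup.eq_one_iff, Subgroup.mem_subgroupOf] at h1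
  exact h1

/-- The theorem of Magnus.

Proof (Magnus, in the form of Kaloujnine and Krasner). Let `A = apow m N`; it is normal (`N` is
normal, so the generating set is invariant under conjugation) and `A ≤ N`. Put `E = F ⧸ A`,
`Q = F ⧸ N`, `p : E →* Q` the projection (`QuotientGroup.map`), `B = p.ker`; the elements of `B`
are the classes of the elements of `N`, so `B` is abelian and `b ^ m = 1` for `b ∈ B`. Hence
`Additive B` is a commutative group on which `ZMod m` acts (`AddCommGroup.zmodModule`, or avoid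
modules and use `(r : ZMod m).val`-multiples, or use `Finsupp.liftAddHom`). Choose a section
`s : Q → E`, `p (s v) = v` (not a homomorphism) and put `θ i v = s v * x̄ i * (s (v * x̄ i))⁻¹`,
an element of `B` (here `x̄ i` is the class of `x i` in `E` and, in the argument of `s`, in `Q`).
Let `Ψ : (ℕ →₀ MonoidAlgebra (ZMod m) Q) →+ (Q → Additive B)` be the additive map with
`Ψ (single i (single g r)) v = r • θ i (v * g)`. For `h : Q` it satisfies
`Ψ (of h • a) v = Ψ a (v * h)` (check on `single i (single g r)`).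

Claim: for every word `w` and every `v : Q`
  `s v * w̄ * (s (v * w̄))⁻¹ = Ψ ((mag m N w).m) v`   (as elements of `Additive B`).
For a generator this is the definition of `θ`. If it holds for `w` and `w'`, it holds for `w * w'`:
`s v * w̄ * w̄' * (s (v w̄ w̄'))⁻¹ = (s v * w̄ * (s (v w̄))⁻¹) * (s (v w̄) * w̄' * (s (v w̄ w̄'))⁻¹)`,
and `(mag (w * w')).m = (mag w).m + of w̄ • (mag w').m` (`Sd.mul_m`, `mag_f`). It holds for `1`,
and for `w⁻¹` if it holds for `w` (apply the product formula to `w⁻¹ * w = 1`: the value of both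
sides at `w⁻¹` and `v` is minus the value at `w` and `v * w̄⁻¹`). Use `FreeGroup.induction_on`.

Now let `mag m N w = 1`. Then `w̄ = 1` in `Q` (`mag_f`), that is `w ∈ N`, and the claim for
`v = 1` gives `s 1 * w̄ * (s 1)⁻¹ = 1` in `E`, so `w̄ = 1` in `E`, that is `w ∈ apow m N`. -/
theorem mem_of_mag (m : ℕ) (N : Subgroup F) [N.Normal] {w : F} (h : mag m N w = 1) :
    w ∈ apow m N := by
  classical
  obtain ⟨B, _, _, τ, hτ, hτ0⟩ := exists_quot m N
  have hτ1 : τ 1 = 0 := by
    have h1 := hτ 1 1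
    rw [mul_one] at h1
    exact left_eq_add.1 h1
  -- the section
  let s : F ⧸ N → F := fun v => v.out
  have hs : ∀ v : F ⧸ N, (QuotientGroup.mk (s v) : F ⧸ N) = v := fun v => QuotientGroup.out_eq' v
  have hc : ∀ (w : F) (v : F ⧸ N), s v * w * (s (v * QuotientGroup.mk w))⁻¹ ∈ N := by
    intro w v
    rw [← QuotientGroup.eq_one_iff, QuotientGroup.mk_mul, QuotientGroup.mk_mul,
      QuotientGroup.mk_inv, hs, hs, mul_inv_cancel]
  let c : F → F ⧸ N → N := fun w v => ⟨s v * w * (s (v * QuotientGroup.mk w))⁻¹, hc w v⟩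
  have hcmul : ∀ (w w' : F) (v : F ⧸ N), c (w * w') v = c w v * c w' (v * QuotientGroup.mk w) := by
    intro w w' v
    apply Subtype.ext
    change s v * (w * w') * (s (v * QuotientGroup.mk (w * w')))⁻¹ =
      s v * w * (s (v * QuotientGroup.mk w))⁻¹ *
        (s (v * QuotientGroup.mk w) * w' * (s (v * QuotientGroup.mk w * QuotientGroup.mk w'))⁻¹)
    rw [QuotientGroup.mk_mul, mul_assoc v]
    group
  -- the additive maps
  let L : ℕ → (F ⧸ N) → (MonoidAlgebra (ZMod m) (F ⧸ N) →+ B) := fun i v =>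
    (Finsupp.liftAddHom (fun g : F ⧸ N =>
      (smulAddHom (ZMod m) B).flip (τ (c (x i) (v * g))))).comp
        MonoidAlgebra.coeffAddEquiv.toAddMonoidHom
  have hL : ∀ i v g r, L i v (MonoidAlgebra.single g r) = r • τ (c (x i) (v * g)) := by
    intro i v g r
    exact Finsupp.liftAddHom_apply_single _ _ _
  let Ψ : (F ⧸ N) → ((ℕ →₀ MonoidAlgebra (ZMod m) (F ⧸ N)) →+ B) := fun v =>
    Finsupp.liftAddHom (fun i => L i v)
  have hΨ : ∀ v i a, Ψ v (Finsupp.single i a) = L i v a := by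
    intro v i a
    exact Finsupp.liftAddHom_apply_single _ _ _
  have hLm : ∀ i v (h : F ⧸ N) a, L i v (MonoidAlgebra.of (ZMod m) (F ⧸ N) h * a) =
      L i (v * h) a := by
    intro i v h a
    induction a using MonoidAlgebra.induction_linear with
    | zero => simp
    | add a b ha hb => rw [mul_add, map_add, map_add, ha, hb]
    | single g r =>
      rw [MonoidAlgebra.of_apply, MonoidAlgebra.single_mul_single, one_mul, hL, hL, mul_assoc]
  have hΨm : ∀ v (h : F ⧸ N) a, Ψ v (MonoidAlgebra.of (ZMod m) (F ⧸ N) h • a) =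
      Ψ (v * h) a := by
    intro v h a
    induction a using Finsupp.induction_linear with
    | zero => simp
    | add a b ha hb => rw [smul_add, map_add, map_add, ha, hb]
    | single i r =>
      rw [Finsupp.smul_single, hΨ, hΨ, smul_eq_mul, hLm]
  have hmul : ∀ (w w' : F) v, Ψ v ((mag m N (w * w')).m) =
      Ψ v ((mag m N w).m) + Ψ (v * QuotientGroup.mk w) ((mag m N w').m) := by
    intro w w' v
    rw [map_mul, Sd.mul_m, map_add, mag_f, coe_grU, hΨm]
  have claim : ∀ (w : F) (v : F ⧸ N), τ (c w v) = Ψ v ((mag m N w).m) := by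
    have h1 : ∀ v : F ⧸ N, τ (c 1 v) = Ψ v ((mag m N 1).m) := by
      intro v
      have h2 : c 1 v = 1 := by
        apply Subtype.ext
        change s v * 1 * (s (v * QuotientGroup.mk 1))⁻¹ = 1
        rw [QuotientGroup.mk_one, mul_one, mul_one, mul_inv_cancel]
      rw [h2, hτ1, map_one, Sd.one_m, map_zero]
    have hinv : ∀ w : F, (∀ v, τ (c w v) = Ψ v ((mag m N w).m)) →
        ∀ v, τ (c w⁻¹ v) = Ψ v ((mag m N w⁻¹).m) := by
      intro w hw v
      have h2 := h1 v
      have h3 := hmul w⁻¹ w v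
      have h4 := hcmul w⁻¹ w v
      rw [inv_mul_cancel] at h3 h4
      rw [h3, h4, hτ, hw] at h2
      exact add_right_cancel h2
    intro w
    induction w using FreeGroup.induction_on with
    | C1 => exact h1
    | of i =>
      intro v
      change τ (c (x i) v) = Ψ v ((mag m N (x i)).m)
      rw [mag_x, hΨ, MonoidAlgebra.one_def, hL, one_smul, mul_one]
    | inv_of i hi => exact hinv _ hi
    | mul a b ha hb =>
      intro v
      rw [hcmul, hτ, hmul, ha, hb]
  have hw1 : (QuotientGroup.mk w : F ⧸ N) = 1 := by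
    rw [← mag_f m N w, h, Sd.one_f]
  have h2 := claim w 1
  rw [h, Sd.one_m, map_zero] at h2
  have h3 := hτ0 _ h2
  have h4 : ((c w 1 : N) : F) = s 1 * w * (s 1)⁻¹ := by
    change s 1 * w * (s (1 * QuotientGroup.mk w))⁻¹ = _
    rw [hw1, mul_one]
  rw [h4] at h3
  have h5 := (apow_normal m N).conj_mem _ h3 (s 1)⁻¹
  have h6 : (s 1)⁻¹ * (s 1 * w * (s 1)⁻¹) * ((s 1)⁻¹)⁻¹ = w := by group
  rwa [h6] at h5

end Pool.Agent.Lib.MP_4c5e24_al
end

section

section

set_option autoImplicit false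

/-!
RIG-TG: the test groups `M ⋊ (1 + J)` for a nilpotent ideal `J`.
-/

namespace Pool.Agent.Lib.MP_4c5e24_al

open scoped commutatorElement

/-- The units which are congruent to `1` modulo an ideal. -/
def UJ {Λ : Type} [CommRing Λ] (J : Ideal Λ) : Subgroup Λˣ where
  carrier := {u | (u : Λ) - 1 ∈ J}
  mul_mem' := by
    intro a b ha hb
    have h : ((a * b : Λˣ) : Λ) - 1 = a * ((b : Λ) - 1) + ((a : Λ) - 1) := by
      rw [Units.val_mul]
      ring
    change ((a * b : Λˣ) : Λ) - 1 ∈ J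
    rw [h]
    exact J.add_mem (J.mul_mem_left _ hb) ha
  one_mem' := by simp
  inv_mem' := by
    intro a ha
    have h : ((a⁻¹ : Λˣ) : Λ) - 1 = -((a⁻¹ : Λˣ) : Λ) * ((a : Λ) - 1) := by
      have := a.inv_mul
      linear_combination this
    change ((a⁻¹ : Λˣ) : Λ) - 1 ∈ J
    rw [h]
    exact J.mul_mem_left _ ha

theorem mem_UJ {Λ : Type} [CommRing Λ] {J : Ideal Λ} (u : UJ J) : ((u : Λˣ) : Λ) - 1 ∈ J := u.2

/-- The test group. -/
abbrev TG {Λ : Type} [CommRing Λ] (J : Ideal Λ) (M : Type) := Sd (UJ J).subtype M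

/-- The elements of the module part in `J ^ n • ⊤`. -/
private def tgS {Λ : Type} [CommRing Λ] (J : Ideal Λ) (M : Type) [AddCommGroup M] [Module Λ M] (n : ℕ) :
    Subgroup (TG J M) where
  carrier := {a | a.m ∈ (J ^ n • ⊤ : Submodule Λ M) ∧ a.f = 1}
  mul_mem' := by
    rintro ⟨a, g⟩ ⟨b, h⟩ ⟨h1, h2⟩ ⟨h3, h4⟩
    simp only at h1 h2 h3 h4
    subst h2 h4
    refine ⟨?_, ?_⟩
    · simp only [Sd.mul_m, map_one, Units.val_one, one_smul]
      exact add_mem h1 h3
    · simp
  one_mem' := ⟨by simp, rfl⟩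
  inv_mem' := by
    rintro ⟨a, g⟩ ⟨h1, h2⟩
    simp only at h1 h2
    subst h2
    refine ⟨?_, ?_⟩
    · simp only [Sd.inv_m, inv_one, map_one, Units.val_one, neg_smul, one_smul]
      exact neg_mem h1
    · simp

private theorem tg_lcs {Λ : Type} [CommRing Λ] (J : Ideal Λ) (M : Type) [AddCommGroup M]
    [Module Λ M] (n : ℕ) : (⊤ : Subgroup (TG J M)).lowerCentralSeries (n + 1) ≤ tgS J M (n + 1) := by
  induction n with
  | zero =>
    rw [Subgroup.lowerCentralSeries_succ, Subgroup.lowerCentralSeries_zero, Subgroup.commutator_le]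
    rintro ⟨a, g⟩ - ⟨b, h⟩ -
    rw [Sd.comm_mk a b g h (mul_comm g h)]
    refine ⟨?_, rfl⟩
    rw [zero_add, pow_one]
    exact sub_mem (Submodule.smul_mem_smul (mem_UJ g) trivial)
      (Submodule.smul_mem_smul (mem_UJ h) trivial)
  | succ n ih =>
    rw [Subgroup.lowerCentralSeries_succ, Subgroup.commutator_le]
    rintro ⟨a, g⟩ ha ⟨b, h⟩ -
    obtain ⟨h1, h2⟩ := ih ha
    simp only at h1 h2
    subst h2
    rw [Sd.comm_inl]
    refine ⟨?_, rfl⟩
    refine neg_mem ?_
    rw [pow_succ', Submodule.mul_smul]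
    exact Submodule.smul_mem_smul (mem_UJ h) h1

private theorem tg_der {Λ : Type} [CommRing Λ] (J : Ideal Λ) (M : Type) [AddCommGroup M]
    [Module Λ M] : derivedSeries (TG J M) 2 = ⊥ := by
  have h1 : derivedSeries (TG J M) 1 ≤ tgS J M 1 := by
    rw [derivedSeries_succ, derivedSeries_zero]
    exact tg_lcs J M 0
  rw [eq_bot_iff, derivedSeries_succ, Subgroup.commutator_le]
  rintro ⟨a, g⟩ ha ⟨b, h⟩ hb
  obtain ⟨-, h2⟩ := h1 ha
  obtain ⟨-, h4⟩ := h1 hb
  simp only at h2 h4
  subst h2 h4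
  rw [Sd.comm_inl, Subgroup.mem_bot]
  ext
  · simp
  · rfl

private theorem tg_sum {p : ℕ} (hp : p.Prime) {Λ : Type} [CommRing Λ] (hpΛ : (p : Λ) = 0) (s : Λ) :
    ∑ k ∈ Finset.range p, (1 + s) ^ k = s ^ (p - 1) ∧ (1 + s) ^ p = 1 + s ^ p := by
  cases subsingleton_or_nontrivial Λ
  · exact ⟨Subsingleton.elim _ _, Subsingleton.elim _ _⟩
  have : Fact p.Prime := ⟨hp⟩
  have hchar : CharP Λ p := (CharP.charP_iff_prime_eq_zero hp).2 hpΛ
  refine ⟨?_, by rw [add_pow_char, one_pow]⟩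
  let iA : Algebra (ZMod p) Λ := ZMod.algebra Λ p
  have key : ∑ k ∈ Finset.range p, ((1 : Polynomial (ZMod p)) + Polynomial.X) ^ k =
      Polynomial.X ^ (p - 1) := by
    apply mul_right_cancel₀ (Polynomial.X_ne_zero (R := ZMod p))
    have h1 := geom_sum_mul ((1 : Polynomial (ZMod p)) + Polynomial.X) p
    rw [add_sub_cancel_left] at h1
    rw [h1, add_pow_char, one_pow, add_sub_cancel_left, ← pow_succ,
      Nat.sub_add_cancel hp.one_le]
  have h2 := congrArg (Polynomial.aeval s) key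
  simpa using h2

/-- The test group is metabelian and nilpotent of class at most `c` if `J ^ c = 0`.

Proof. Let `G = TG J M`. The group part is commutative, so by `Sd.comm_mk` every commutator of
elements of `G` has the form `(m, 1)` with `m ∈ J • ⊤` (a submodule of `M`), and elements
`(m, 1)` commute; hence `derivedSeries G 2 = ⊥`. By `Sd.comm_inl`, `⁅(m, 1), (b, v)⁆ =
(- (v - 1) m, 1)`. So by induction on `n`,
`(⊤ : Subgroup G).lowerCentralSeries (n + 1)` is contained in the subgroup of the `(m, 1)` with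
`m ∈ J ^ (n + 1) • ⊤`. For `n + 1 = c` this is trivial. Finally, for `f : F →* G`, `f` maps
`lowerCentralSeries c` of `F` into that of `G` (`Subgroup.map_lowerCentralSeries`,
`Subgroup.lowerCentralSeries_mono`), the same for `derivedSeries`
(`map_derivedSeries_le_derivedSeries`). -/
theorem TG_class {Λ : Type} [CommRing Λ] {J : Ideal Λ} {c : ℕ} (hc : 1 ≤ c) (hJ : J ^ c = ⊥)
    {M : Type} [AddCommGroup M] [Module Λ M] : MN c ≤ Laws (TG J M) := by
  have hbot : (⊤ : Subgroup (TG J M)).lowerCentralSeries c = ⊥ := by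
    obtain ⟨n, rfl⟩ := Nat.exists_eq_add_of_le' hc
    rw [eq_bot_iff]
    rintro ⟨a, g⟩ ha
    obtain ⟨h1, h2⟩ := tg_lcs J M n ha
    simp only at h1 h2
    rw [hJ, Submodule.bot_smul, Submodule.mem_bot] at h1
    rw [Subgroup.mem_bot, h1, h2]
    rfl
  refine sup_le ?_ ?_
  · intro w hw f
    have h1 : f w ∈ ((⊤ : Subgroup F).lowerCentralSeries c).map f := ⟨w, hw, rfl⟩
    rw [Subgroup.map_lowerCentralSeries] at h1
    have h2 : f w ∈ (⊤ : Subgroup (TG J M)).lowerCentralSeries c :=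
      Subgroup.lowerCentralSeries_mono c (le_top : (⊤ : Subgroup F).map f ≤ ⊤) h1
    rw [hbot] at h2
    exact h2
  · intro w hw f
    have h1 : f w ∈ derivedSeries (TG J M) 2 := map_derivedSeries_le_derivedSeries f 2 ⟨w, hw, rfl⟩
    rw [tg_der] at h1
    exact h1

/-- The test group has exponent `p` if `p = 0` in `Λ` and `J ^ c = 0` with `c < p`.

Proof. By `Sd.mk_pow`, `(a, u) ^ p = ((∑ k < p, u ^ k) a, u ^ p)`. Put `u = 1 + s`, `s ∈ J`. In
characteristic `p` we have `u ^ p = 1 + s ^ p` and `∑ k < p, u ^ k = s ^ (p - 1)` (the polynomial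
identities `(X + 1) ^ p = X ^ p + 1` and `∑ k < p, (X + 1) ^ k = X ^ (p - 1)` in `(ZMod p)[X]`: multiply
the second by `X` and use `geom_sum_mul`; then map to `Λ`, which is a `ZMod p`-algebra: if `Λ` is
trivial there is nothing to prove, otherwise `CharP Λ p`). Since `p - 1 ≥ c`, `s ^ (p - 1) ∈ J ^ c = ⊥`
and `s ^ p = 0`. -/
theorem TG_exp {Λ : Type} [CommRing Λ] {J : Ideal Λ} {c p : ℕ} (hp : p.Prime)
    (hpΛ : (p : Λ) = 0) (hJ : J ^ c = ⊥) (hcp : c < p)
    {M : Type} [AddCommGroup M] [Module Λ M] : Bn p ≤ Laws (TG J M) := by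
  rw [Bn_le']
  intro w f
  rw [map_pow]
  obtain ⟨a, u⟩ := f w
  obtain ⟨s, hs⟩ : ∃ s : Λ, s = ((u : Λˣ) : Λ) - 1 := ⟨_, rfl⟩
  have hsJ : s ∈ J := by rw [hs]; exact mem_UJ u
  have hu : ((u : Λˣ) : Λ) = 1 + s := by rw [hs]; ring
  obtain ⟨h1, h2⟩ := tg_sum hp hpΛ s
  have hpow : ∀ n, c ≤ n → s ^ n = 0 := by
    intro n hn
    have h3 : s ^ n ∈ J ^ c := Ideal.pow_le_pow_right hn (Ideal.pow_mem_pow hsJ n)
    rw [hJ] at h3
    exact h3
  rw [Sd.mk_pow]
  ext
  · simp only [Subgroup.subtype_apply, Sd.one_m]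
    rw [hu, h1, hpow _ (by omega), zero_smul]
  · simp only [Sd.one_f]
    rw [Subgroup.coe_pow, Units.val_pow_eq_pow_val, hu, h2, hpow _ hcp.le, add_zero]
    simp

end Pool.Agent.Lib.MP_4c5e24_al
end

section

set_option autoImplicit false

/-!
RIG-LC: left-normed commutators.
-/

namespace Pool.Agent.Lib.MP_4c5e24_al

open scoped commutatorElement

/-- The left-normed commutator of `g 0, …, g n`. -/
def lc {G : Type*} [Group G] (g : ℕ → G) : ℕ → G
  | 0 => g 0
  | n + 1 => ⁅lc g n, g (n + 1)⁆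

theorem map_lc {G G' : Type*} [Group G] [Group G'] (f : G →* G') (g : ℕ → G) (n : ℕ) :
    f (lc g n) = lc (fun i => f (g i)) n := by
  induction n with
  | zero => rfl
  | succ n ih => simp only [lc, map_commutatorElement, ih]

theorem lc_mem {G : Type*} [Group G] (g : ℕ → G) (n : ℕ) :
    lc g n ∈ (⊤ : Subgroup G).lowerCentralSeries n := by
  induction n with
  | zero => simp [lc]
  | succ n ih =>
    rw [Subgroup.lowerCentralSeries_succ]
    exact Subgroup.commutator_mem_commutator ih (Subgroup.mem_top _)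

/-- The value of a left-normed commutator in a semidirect product with a commutative group part.

Proof: induction on `n`; `Sd.comm_mk` for `n = 0`, `Sd.comm_inl` for the step. -/
theorem lc_Sd {Q Λ M : Type} [CommGroup Q] [CommRing Λ] {ρ : Q →* Λˣ} [AddCommGroup M]
    [Module Λ M] (a : ℕ → M) (u : ℕ → Q) (n : ℕ) :
    lc (fun i => (⟨a i, u i⟩ : Sd ρ M)) (n + 1) =
      ⟨((-1) ^ n * ∏ i ∈ Finset.range n, ((ρ (u (i + 2)) : Λ) - 1)) •
        (((ρ (u 0) : Λ) - 1) • a 1 - ((ρ (u 1) : Λ) - 1) • a 0), 1⟩ := by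
  induction n with
  | zero =>
    simp only [lc, pow_zero, Finset.range_zero, Finset.prod_empty, mul_one, one_smul]
    exact Sd.comm_mk _ _ _ _ (mul_comm _ _)
  | succ n ih =>
    rw [lc, ih]
    change ⁅_, (⟨a (n + 2), u (n + 2)⟩ : Sd ρ M)⁆ = _
    rw [Sd.comm_inl, smul_smul, ← neg_smul, Finset.prod_range_succ]
    congr 2
    ring

private theorem lc_congr {G : Type*} [Group G] {g g' : ℕ → G} {n : ℕ}
    (h : ∀ i ≤ n, g i = g' i) : lc g n = lc g' n := by
  induction n with
  | zero => exact h 0 le_rfl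
  | succ n ih =>
    rw [lc, lc, ih (fun i hi => h i (Nat.le_succ_of_le hi)), h (n + 1) le_rfl]

private theorem lc_cm {G : Type*} [Group G] (a b h : G) :
    ⁅a * b, h⁆ = (a * ⁅b, h⁆ * a⁻¹) * ⁅a, h⁆ := by
  simp only [commutatorElement_def]
  group

private def lcC (K : FI) : Subgroup F where
  carrier := {g | ∀ h : F, ⁅g, h⁆ ∈ K.1}
  mul_mem' := by
    intro a b ha hb h
    rw [lc_cm]
    exact K.1.mul_mem ((FI.normal K).conj_mem _ (hb h) a) (ha h)
  one_mem' := by
    intro h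
    rw [commutatorElement_one_left]
    exact K.1.one_mem
  inv_mem' := by
    intro a ha h
    have h1 : ⁅a⁻¹, h⁆ = a⁻¹ * ⁅a, h⁆⁻¹ * a⁻¹⁻¹ := by
      simp only [commutatorElement_def]
      group
    rw [h1]
    exact (FI.normal K).conj_mem _ (K.1.inv_mem (ha h)) a⁻¹

private theorem lc_gam {n : ℕ} : ∀ K : FI, lc x n ∈ K.1 → gam n ≤ K := by
  induction n with
  | zero =>
    intro K hK w _
    have h1 := K.map_mem (FreeGroup.lift (fun _ => w)) hK
    rwa [lc, x, FreeGroup.lift_apply_of] at h1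
  | succ n ih =>
    intro K hK
    have h1 : (verb {lc x n}).1 ≤ lcC K := by
      change Subgroup.closure _ ≤ _
      rw [Subgroup.closure_le]
      rintro _ ⟨w, hw, φ, rfl⟩ h
      rw [Set.mem_singleton_iff] at hw
      subst hw
      have h2 := K.map_mem (FreeGroup.lift (fun i => if i ≤ n then φ (x i) else h)) hK
      rw [map_lc, lc] at h2
      have h3 : lc (fun i => (FreeGroup.lift (fun i => if i ≤ n then φ (x i) else h) : F →* F)
          (x i)) n = φ (lc x n) := by
        rw [map_lc]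
        apply lc_congr
        intro i hi
        rw [x, FreeGroup.lift_apply_of, if_pos hi]
      rw [h3] at h2
      simp only [x] at h2
      rw [FreeGroup.lift_apply_of, if_neg (by omega)] at h2
      exact h2
    have h4 : lc x n ∈ (verb {lc x n}).1 := by
      have := map_mem_verb (S := {lc x n}) rfl (MonoidHom.id F)
      exact this
    have h5 := ih _ h4
    change (⊤ : Subgroup F).lowerCentralSeries (n + 1) ≤ K.1
    rw [Subgroup.lowerCentralSeries_succ, Subgroup.commutator_le]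
    intro a ha h _
    exact h1 (h5 ha) h

private theorem lc_mem_MN (c : ℕ) : lc x c ∈ (MN c).1 :=
  (le_sup_left : gam c ≤ MN c) (lc_mem x c)

/-- `γ_(c+1)` is generated as a fully invariant subgroup by the left-normed commutator of
`c + 1` generators.

Proof. `→`: `lc_mem`. `←`: `der 2 ≤ H` is given, so it suffices that
`(⊤ : Subgroup F).lowerCentralSeries c ≤ H.1` if `lc x c ∈ H`. Show more generally by induction
on `n`: for every fully invariant `K : FI` with `lc x n ∈ K.1`,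
`(⊤ : Subgroup F).lowerCentralSeries n ≤ K.1`. For `n = 0`: `x 0 ∈ K`, so `K` is everything (apply
`FI.map_mem` with the endomorphism which maps every generator to `g`). Step: let `lc x (n + 1) ∈ K`.
The set `C` of the `g : F` such that `⁅g, h⁆ ∈ K` for all `h : F` is a subgroup (the preimage of the
centre of `F ⧸ K.1`), it is invariant under all endomorphisms `φ` which
are needed: we need `K' : FI` with `lc x n ∈ K'` and `K'.1 ≤ C`. Take `K' = verb {lc x n}`: its
generators are `φ (lc x n) = lc (φ ∘ x) n` (`map_lc`), and for `h : F` let `ψ : F →* F` be the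
endomorphism with `ψ (x i) = φ (x i)` for `i ≤ n` and `ψ (x (n + 1)) = h`; then
`⁅φ (lc x n), h⁆ = ψ (lc x (n + 1)) ∈ K`. So the generators of `K'` are in `C`. By the induction
hypothesis `lowerCentralSeries n ≤ K'.1 ≤ C`, so `⁅lowerCentralSeries n, ⊤⁆ ≤ K.1`
(`Subgroup.commutator_le`). -/
theorem MN_le_iff {H : FI} (hH : der 2 ≤ H) {c : ℕ} : MN c ≤ H ↔ lc x c ∈ H.1 := by
  constructor
  · intro h
    exact h (lc_mem_MN c)
  · intro h
    exact sup_le (lc_gam H h) hH

/-- A consequence of nilpotency.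

Proof. Let `γ n = (⊤ : Subgroup F).lowerCentralSeries n`. The hypotheses give `γ d ≤ K`,
`derivedSeries F 2 ≤ K` and `γ c ≤ K ⊔ γ (c + 1)`. By induction on `n`,
`γ (c + n) ≤ K ⊔ γ (c + n + 1)`: `⁅K ⊔ γ (c + n + 1), ⊤⁆ ≤ K ⊔ γ (c + n + 2)` (modulo the normal
subgroup `K`; `Subgroup.commutator_le`, and a commutator `⁅k * a, h⁆` is congruent to `⁅a, h⁆`
modulo `K`). So `γ c ≤ K ⊔ γ (c + n)` for all `n`; take `n = d`
(`Subgroup.lowerCentralSeries_antitone`). -/
theorem MN_le_of_step {K : FI} {c d : ℕ} (hd : MN d ≤ K) (h : MN c ≤ K ⊔ MN (c + 1)) :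
    MN c ≤ K := by
  have hdK : gam d ≤ K := le_sup_left.trans hd
  have hderK : der 2 ≤ K := le_sup_right.trans hd
  have h0 : gam c ≤ K ⊔ gam (c + 1) := by
    refine le_trans (le_sup_left.trans h) ?_
    refine sup_le le_sup_left ?_
    exact sup_le le_sup_right (hderK.trans le_sup_left)
  have step : ∀ m, gam m ≤ K ⊔ gam (m + 1) → gam (m + 1) ≤ K ⊔ gam (m + 2) := by
    intro m hm
    change (⊤ : Subgroup F).lowerCentralSeries (m + 1) ≤ (K ⊔ gam (m + 2)).1
    rw [Subgroup.lowerCentralSeries_succ, Subgroup.commutator_le]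
    intro a ha h _
    obtain ⟨k, hk, b, hb, hkb⟩ := mem_sup.mp (hm ha)
    rw [← hkb, lc_cm]
    apply (K ⊔ gam (m + 2)).1.mul_mem
    · have h1 : ⁅b, h⁆ ∈ (gam (m + 2)).1 := by
        change _ ∈ (⊤ : Subgroup F).lowerCentralSeries (m + 1 + 1)
        rw [Subgroup.lowerCentralSeries_succ]
        exact Subgroup.commutator_mem_commutator hb (Subgroup.mem_top _)
      have h2 : ⁅b, h⁆ ∈ (K ⊔ gam (m + 2)).1 := (le_sup_right : gam (m + 2) ≤ K ⊔ gam (m + 2)) h1
      exact (FI.normal (K ⊔ gam (m + 2))).conj_mem _ h2 k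
    · have h1 : ⁅k, h⁆ ∈ K.1 := by
        rw [commutatorElement_def, mul_assoc, mul_assoc, ← mul_assoc h]
        exact K.1.mul_mem hk ((FI.normal K).conj_mem _ (K.1.inv_mem hk) h)
      exact (le_sup_left : K ≤ K ⊔ gam (m + 2)) h1
  have all : ∀ n, gam (c + n) ≤ K ⊔ gam (c + n + 1) := by
    intro n
    induction n with
    | zero => exact h0
    | succ n ih => exact step _ ih
  have all' : ∀ n, gam c ≤ K ⊔ gam (c + n) := by
    intro n
    induction n with
    | zero => exact le_sup_right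
    | succ n ih => exact ih.trans (sup_le le_sup_left (all n))
  have hanti : gam (c + d) ≤ gam d :=
    (Subgroup.lowerCentralSeries_antitone (⊤ : Subgroup F)) (Nat.le_add_left d c)
  exact sup_le ((all' d).trans (sup_le le_rfl (hanti.trans hdK))) hderK

private theorem lc_not_law {Λ : Type} [CommRing Λ] (t : Λ) {N : ℕ} (hN : t ^ N = 0) {c : ℕ}
    (hc : 1 ≤ c) (htc : t ^ c ≠ 0) : lc x c ∉ (Laws (TG (Ideal.span {t}) Λ)).1 := by
  intro hlaw
  have hu : IsUnit (1 + t) := IsNilpotent.isUnit_one_add ⟨N, hN⟩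
  obtain ⟨v, hv⟩ := hu
  have hvJ : (v : Λ) - 1 ∈ Ideal.span {t} := by
    rw [hv, add_sub_cancel_left]
    exact Ideal.mem_span_singleton_self t
  let u : UJ (Ideal.span {t}) := ⟨v, hvJ⟩
  have hu1 : (((UJ (Ideal.span {t})).subtype u : Λˣ) : Λ) - 1 = t := by
    change (v : Λ) - 1 = t
    rw [hv, add_sub_cancel_left]
  obtain ⟨n, rfl⟩ : ∃ n, c = n + 1 := ⟨c - 1, by omega⟩
  let a : ℕ → Λ := fun i => if i = 0 then 1 else 0
  let U : ℕ → UJ (Ideal.span {t}) := fun i => if i = 0 then 1 else u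
  have h1 : (FreeGroup.lift (fun i => (⟨a i, U i⟩ : TG (Ideal.span {t}) Λ))) (lc x (n + 1)) = 1 :=
    hlaw _
  rw [map_lc] at h1
  simp only [x, FreeGroup.lift_apply_of] at h1
  rw [lc_Sd] at h1
  have h2 := congrArg Sd.m h1
  simp only [Sd.one_m] at h2
  have h3 : ∀ i ∈ Finset.range n,
      (((UJ (Ideal.span {t})).subtype (U (i + 2)) : Λˣ) : Λ) - 1 = t := fun i _ => hu1
  rw [Finset.prod_congr rfl h3, Finset.prod_const, Finset.card_range] at h2
  have h4 : (((UJ (Ideal.span {t})).subtype (U 1) : Λˣ) : Λ) - 1 = t := hu1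
  have h5 : a 1 = 0 := rfl
  have h6 : a 0 = 1 := rfl
  rw [h4, h5, h6, smul_zero, zero_sub, smul_neg, neg_eq_zero, smul_eq_mul, smul_eq_mul,
    mul_one, mul_assoc, ← pow_succ] at h2
  apply htc
  rcases neg_one_pow_eq_or Λ n with h7 | h7
  · rwa [h7, one_mul] at h2
  · rwa [h7, neg_one_mul, neg_eq_zero] at h2

private theorem lc_ring (R : Type) [CommRing R] [IsDomain R] (N c : ℕ) (hcN : c < N) :
    ∃ t : Polynomial R ⧸ Ideal.span {(Polynomial.X : Polynomial R) ^ N},
      t ^ N = 0 ∧ t ^ c ≠ 0 := by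
  refine ⟨Ideal.Quotient.mk _ Polynomial.X, ?_, ?_⟩
  · rw [← map_pow, Ideal.Quotient.eq_zero_iff_mem]
    exact Ideal.mem_span_singleton_self _
  · rw [← map_pow, Ne, Ideal.Quotient.eq_zero_iff_mem, Ideal.mem_span_singleton,
      pow_dvd_pow_iff Polynomial.X_ne_zero Polynomial.not_isUnit_X]
    omega

/-- The varieties of metabelian groups of class at most `c` are different.

Proof. Use the test group `TG J M` with `Λ = M = ℤ[X] ⧸ (X ^ (c + 1))` (or any commutative ring with
an element `t` with `t ^ (c + 1) = 0`, `t ^ c ≠ 0`), `J = (t)`, `J ^ (c + 1) = ⊥`. It satisfies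
`MN (c + 1)` (`TG_class`). If `MN c ≤ MN (c + 1)` then `lc x c ∈ MN (c + 1)` (`lc_mem`) would
be a law of it; but at `x 0 ↦ (1, 1)`, `x i ↦ (0, 1 + t)` (`i ≥ 1`) the value of `lc x c` is
`(± t ^ c, 1)` (`map_lc`, `lc_Sd`, for `c ≥ 1`). -/
theorem MN_strict {c : ℕ} (hc : 1 ≤ c) : ¬ MN c ≤ MN (c + 1) := by
  intro h
  obtain ⟨t, ht, htc⟩ := lc_ring ℤ (c + 1) c (Nat.lt_succ_self c)
  have hJ : (Ideal.span {t}) ^ (c + 1) = ⊥ := by
    rw [Ideal.span_singleton_pow, ht]
    simp
  refine lc_not_law t ht hc htc ?_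
  exact (h.trans (TG_class (by omega) hJ)) (lc_mem_MN c)

/-- A lower bound for the class of the metabelian groups of exponent `p`.

Proof. Let `Λ = M = (ZMod p)[X] ⧸ (X ^ (p - 1))`, `t` the class of `X`, `J = (t)`. By `TG_class`
(metabelian, so `der 2 ≤ MN (p - 1) ≤ Laws`) and `TG_exp` (with `c := p - 1`) the
test group satisfies `der 2 ⊔ Bn p`. But `lc x c ∈ MN c` (`lc_mem`) has the value `(± t ^ c, 1) ≠ 1` at
`x 0 ↦ (1, 1)`, `x i ↦ (0, 1 + t)` for `i ≥ 1` (`map_lc`, `lc_Sd`), because `c < p - 1`. -/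
theorem not_MN_le {p c : ℕ} (hp : p.Prime) (hc : 1 ≤ c) (hcp : c + 2 ≤ p) :
    ¬ MN c ≤ der 2 ⊔ Bn p := by
  intro h
  have := Fact.mk hp
  obtain ⟨t, ht, htc⟩ := lc_ring (ZMod p) (p - 1) c (by omega)
  have hJ : (Ideal.span {t}) ^ (p - 1) = ⊥ := by
    rw [Ideal.span_singleton_pow, ht]
    simp
  have hp0 : ((p : ℕ) :
      Polynomial (ZMod p) ⧸ Ideal.span {(Polynomial.X : Polynomial (ZMod p)) ^ (p - 1)}) = 0 := by
    rw [← map_natCast (Ideal.Quotient.mk
      (Ideal.span {(Polynomial.X : Polynomial (ZMod p)) ^ (p - 1)})) p,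
      CharP.cast_eq_zero, map_zero]
  refine lc_not_law t ht hc htc ?_
  refine (h.trans (sup_le ?_ ?_)) (lc_mem_MN c)
  · exact (le_sup_right : der 2 ≤ MN (p - 1)).trans (TG_class (by omega) hJ)
  · exact TG_exp hp hp0 hJ (by omega)

end Pool.Agent.Lib.MP_4c5e24_al
end
end
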