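import Mathlib
import Pool.Agent.Lib.MP_4c5e24_al.Lc
import Pool.Agent.Lib.MP_4c5e24_al.A1
import Pool.Agent.Lib.MP_4c5e24_al.Sd

section

set_option autoImplicit false

/-!
RIG-MI: intersections of product varieties.
-/

namespace Pool.Agent.Lib.MP_4c5e24_al

open scoped commutatorElement

/-- The map of the group rings induced by the projection and by the reduction of the
coefficients. -/
noncomputable def ringMap {m m' : ℕ} (hm : m' ∣ m) {Q Q' : Type} [Group Q] [Group Q']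
    (α : Q →* Q') : MonoidAlgebra (ZMod m) Q →+* MonoidAlgebra (ZMod m') Q' :=
  (MonoidAlgebra.mapRingHom Q' (ZMod.castHom hm (ZMod m'))).comp
    (MonoidAlgebra.mapDomainRingHom (ZMod m) α)

theorem ringMap_of {m m' : ℕ} (hm : m' ∣ m) {Q Q' : Type} [Group Q] [Group Q']
    (α : Q →* Q') (g : Q) :
    ringMap hm α (MonoidAlgebra.of (ZMod m) Q g) = MonoidAlgebra.of (ZMod m') Q' (α g) := by
  unfold ringMap
  rw [RingHom.comp_apply, MonoidAlgebra.of_apply, MonoidAlgebra.of_apply]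
  change MonoidAlgebra.mapRingHom Q' (ZMod.castHom hm (ZMod m'))
    (MonoidAlgebra.mapDomain α (MonoidAlgebra.single g 1)) = _
  rw [MonoidAlgebra.mapDomain_single, MonoidAlgebra.mapRingHom_single, map_one]

theorem ringMap_coeff {m m' : ℕ} (hm : m' ∣ m) {Q Q' : Type} [Group Q] [Group Q']
    (α : Q →* Q') (D : MonoidAlgebra (ZMod m) Q) (hD : Set.InjOn α D.coeff.support)
    {g : Q} (hg : g ∈ D.coeff.support) :
    (ringMap hm α D).coeff (α g) = ZMod.castHom hm (ZMod m') (D.coeff g) := by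
  unfold ringMap
  rw [RingHom.comp_apply, MonoidAlgebra.coeff_mapRingHom]
  congr 1
  exact Finsupp.mapDomain_apply' _ _ (le_refl _) hD hg

/-- Let the normal subgroups `Ns i ≥ N` separate the finite subsets of the complement of `N`, and
let the moduli `ms j ∣ m` be jointly faithful. Then the intersection of all
`(Ns i) ^ (ms j) [Ns i, Ns i]` is contained in `N ^ m [N, N]`.

Proof. Let `w` be in the intersection. First `w ∈ N`: otherwise `hsep` for `T = {w}` gives an `i`
with `w ∉ Ns i`, but `w ∈ apow (ms j) (Ns i) ≤ Ns i` for any `j`. By `mem_of_mag` it suffices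
that `mag m N w = 1`. Suppose not. Since `(mag m N w).f = 1` (`mag_f`), `v = (mag m N w).m ≠ 0`.
Choose `l : ℕ` with `D = v l ≠ 0` in `MonoidAlgebra (ZMod m) (F ⧸ N)` and `g₀` with
`D g₀ ≠ 0`. Choose `j` such that the image of `D g₀` under the ring homomorphism
`ZMod.castHom (hm j) (ZMod (ms j))` is nonzero: otherwise an integer `a` which represents `D g₀`
(`ZMod.intCast_surjective`) is divisible by all `ms j` (`ZMod.intCast_zmod_eq_zero_iff_dvd`), so by
`m` (`hms`), so `D g₀ = 0`. Choose representatives in `F` of all elements of the (finite)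
support of `D` (for instance with `Quotient.out`), and let `T` be the finite set of the elements
`a⁻¹ * b` where `a ≠ b` are representatives of different elements of the support; they are not in
`N`. Let `i` be the index given by `hsep`. Then the projection `F ⧸ N → F ⧸ Ns i` is injective on
the support of `D`. There is a homomorphism (`Sd.map`)
`Sd (grU (ZMod m) (F ⧸ N)) (ℕ →₀ MonoidAlgebra (ZMod m) (F ⧸ N)) →*
 Sd (grU (ZMod (ms j)) (F ⧸ Ns i)) (ℕ →₀ MonoidAlgebra (ZMod (ms j)) (F ⧸ Ns i))`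
induced by the projection of the groups and by the reduction of the coefficients (the map of the
group rings is `MonoidAlgebra.mapRangeRingHom` after `MonoidAlgebra.mapDomainRingHom`, or
`Finsupp.mapRange` and `Finsupp.mapDomain`); composed with `mag m N` it is `mag (ms j) (Ns i)`
(both homomorphisms agree on the generators, `mag_x`). Because `w ∈ apow (ms j) (Ns i)`, the
image of `w` under it is `1` (`mag_of_mem`). But its component number `l` is the image of `D`, whose
coefficient at the image of `g₀` is the image of `D g₀` (by the injectivity on the support), which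
is not zero. Contradiction. -/
theorem mag_inf {ι κ : Type} [Nonempty κ] (m : ℕ) (N : Subgroup F) [N.Normal]
    (Ns : ι → Subgroup F) [∀ i, (Ns i).Normal] (ms : κ → ℕ) (hN : ∀ i, N ≤ Ns i)
    (hsep : ∀ T : Finset F, (∀ t ∈ T, t ∉ N) → ∃ i, ∀ t ∈ T, t ∉ Ns i)
    (hm : ∀ j, ms j ∣ m) (hms : ∀ a : ℤ, (∀ j, (ms j : ℤ) ∣ a) → (m : ℤ) ∣ a)
    (w : F) (hw : ∀ i j, w ∈ apow (ms j) (Ns i)) : w ∈ apow m N := by
  classical
  have hwN : w ∈ N := by
    by_contra hwN
    obtain ⟨i, hi⟩ := hsep {w} (by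
      intro t ht
      rw [Finset.mem_singleton] at ht
      rwa [ht])
    obtain ⟨j⟩ := ‹Nonempty κ›
    have h1 : apow (ms j) (Ns i) ≤ Ns i := by
      rw [apow_le]
      refine ⟨fun u hu => pow_mem hu _, fun u hu v hv => ?_⟩
      rw [commutatorElement_def]
      exact mul_mem (mul_mem (mul_mem hu hv) (inv_mem hu)) (inv_mem hv)
    exact hi w (Finset.mem_singleton_self w) (h1 (hw i j))
  apply mem_of_mag
  ext1
  swap
  · rw [mag_f, Sd.one_f]
    exact (QuotientGroup.eq_one_iff w).2 hwN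
  rw [Sd.one_m]
  by_contra hv
  obtain ⟨l, hl⟩ := Finsupp.ne_iff.1 hv
  rw [Finsupp.zero_apply] at hl
  obtain ⟨D, hDdef⟩ : ∃ D, D = (mag m N w).m l := ⟨_, rfl⟩
  rw [← hDdef] at hl
  obtain ⟨g₀, hg₀⟩ : ∃ g, D.coeff g ≠ 0 := by
    by_contra hall
    push Not at hall
    apply hl
    ext g
    rw [hall g]
    rfl
  -- the index `j`
  obtain ⟨j, hj⟩ : ∃ j, ZMod.castHom (hm j) (ZMod (ms j)) (D.coeff g₀) ≠ 0 := by
    by_contra hall
    push Not at hall
    obtain ⟨a, ha⟩ := ZMod.intCast_surjective (D.coeff g₀)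
    apply hg₀
    rw [← ha, ZMod.intCast_zmod_eq_zero_iff_dvd]
    apply hms
    intro j
    have h1 := hall j
    rw [← ha, map_intCast, ZMod.intCast_zmod_eq_zero_iff_dvd] at h1
    exact h1
  -- the index `i`
  have hout : ∀ a : F ⧸ N, (QuotientGroup.mk a.out : F ⧸ N) = a := fun a =>
    QuotientGroup.out_eq' a
  obtain ⟨i, hi⟩ := hsep
    (((D.coeff.support ×ˢ D.coeff.support).filter (fun p => p.1 ≠ p.2)).image
      (fun p => (p.1.out)⁻¹ * p.2.out)) (by
    intro t ht htN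
    obtain ⟨p, hp, rfl⟩ := Finset.mem_image.1 ht
    rw [Finset.mem_filter] at hp
    apply hp.2
    rw [← hout p.1, ← hout p.2]
    exact QuotientGroup.eq.2 htN)
  let α : F ⧸ N →* F ⧸ Ns i := QuotientGroup.map N (Ns i) (MonoidHom.id F) (hN i)
  have hα : ∀ u : F, α (QuotientGroup.mk u) = QuotientGroup.mk u := fun u => rfl
  have hinj : Set.InjOn α D.coeff.support := by
    intro a ha b hb hab
    by_contra hne
    apply hi ((a.out)⁻¹ * b.out)
    · rw [Finset.mem_image]
      refine ⟨(a, b), ?_, rfl⟩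
      rw [Finset.mem_filter, Finset.mem_product]
      exact ⟨⟨ha, hb⟩, hne⟩
    · rw [← QuotientGroup.eq, ← hα, ← hα, hout, hout]
      exact hab
  let Φ := ringMap (hm j) α
  let ψ : (ℕ →₀ MonoidAlgebra (ZMod m) (F ⧸ N)) →+
      (ℕ →₀ MonoidAlgebra (ZMod (ms j)) (F ⧸ Ns i)) :=
    Finsupp.mapRange.addMonoidHom Φ.toAddMonoidHom
  have hψ : ∀ a l, ψ a l = Φ (a l) := fun a l => rfl
  have heq : ∀ (g : F ⧸ N) (a : ℕ →₀ MonoidAlgebra (ZMod m) (F ⧸ N)),
      ψ ((grU (ZMod m) (F ⧸ N) g : MonoidAlgebra (ZMod m) (F ⧸ N)) • a) =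
        (grU (ZMod (ms j)) (F ⧸ Ns i) (α g) : MonoidAlgebra (ZMod (ms j)) (F ⧸ Ns i)) • ψ a := by
    intro g a
    ext1 l
    rw [hψ, Finsupp.smul_apply, Finsupp.smul_apply, hψ, smul_eq_mul, smul_eq_mul, map_mul,
      coe_grU, coe_grU, ringMap_of]
  have hcomp : (Sd.map (ρ' := grU (ZMod (ms j)) (F ⧸ Ns i)) α ψ heq).comp (mag m N) =
      mag (ms j) (Ns i) := by
    apply FreeGroup.ext_hom
    intro k
    rw [MonoidHom.comp_apply]
    change Sd.map α ψ heq (mag m N (x k)) = mag (ms j) (Ns i) (x k)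
    rw [mag_x, mag_x]
    ext1
    · rw [Sd.map_m]
      change Finsupp.mapRange.addMonoidHom Φ.toAddMonoidHom (Finsupp.single k 1) = _
      rw [Finsupp.mapRange.addMonoidHom_apply, Finsupp.mapRange_single]
      congr 1
      exact map_one Φ
    · rw [Sd.map_f, hα]
  have h1 : Sd.map (ρ' := grU (ZMod (ms j)) (F ⧸ Ns i)) α ψ heq (mag m N w) = 1 := by
    rw [← MonoidHom.comp_apply, hcomp]
    exact mag_of_mem _ _ (hw i j)
  have h2 : ψ (mag m N w).m l = 0 := by
    have h3 := congrArg Sd.m h1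
    have h4 := DFunLike.congr_fun h3 l
    exact h4
  rw [hψ, ← hDdef] at h2
  apply hj
  rw [← ringMap_coeff (hm j) α D hinj (Finsupp.mem_support_iff.2 hg₀)]
  change (Φ D).coeff (α g₀) = 0
  rw [h2]
  rfl

/-- Proof: `w ∈ apow m N` is monotone in `N` and antitone in `m` for divisibility: use
`apow_le`, `pow_mem_apow`, `comm_mem_apow` and `h ^ n = (h ^ m) ^ (n / m)`. -/
theorem apow_mono {m n : ℕ} {N K : Subgroup F} (hmn : m ∣ n) (hNK : N ≤ K) :
    apow n N ≤ apow m K := by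
  obtain ⟨k, rfl⟩ := hmn
  rw [apow_le]
  refine ⟨fun u hu => ?_, fun u hu v hv => comm_mem_apow (hNK hu) (hNK hv)⟩
  rw [pow_mul]
  exact pow_mem (pow_mem_apow (hNK hu)) k

end Pool.Agent.Lib.MP_4c5e24_al
end

section

section

set_option autoImplicit false

/-!
RIG-H1: an ideal of polynomials over a prime field and a root of unity.
-/

namespace Pool.Agent.Lib.MP_4c5e24_al

open Polynomial

/-- Let `I` be an ideal of `(ZMod p)[X]` which contains `X ^ q - 1` but not `X - 1`. Then there is a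
field extension of `ZMod p` with a primitive `q`-th root of unity `ζ` such that no element of `I`
has value different from zero at `ζ`.

Proof. Let `J = {P | P * (X - 1) ∈ I}` (an ideal; it contains `I`, it does not contain `1`, and it
contains `Φ = 1 + X + ⋯ + X ^ (q - 1)` because `Φ * (X - 1) = X ^ q - 1`, `geom_sum_mul`). Let
`𝔪` be a maximal ideal which contains `J` (`Ideal.exists_le_maximal`) and `K = (ZMod p)[X] ⧸ 𝔪`
(a field, `Ideal.Quotient.field`), `ζ` the class of `X`. Then `ζ ^ q = 1` because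
`X ^ q - 1 ∈ I ≤ J ≤ 𝔪`. If `ζ = 1`, then `Φ ∈ 𝔪` gives `q = Φ(ζ) = 0` in `K`, but `q ≠ 0` in
`ZMod p`, hence in `K`, because `p ≠ q` are primes. So `ζ` is a primitive `q`-th root of
unity (`IsPrimitiveRoot.mk...`: the order of `ζ` divides the prime `q` and is not `1`,
`orderOf_eq_prime`, `IsPrimitiveRoot.orderOf`). Finally `aeval ζ P` is the class of `P`, which is
`0` for `P ∈ I ≤ 𝔪`. -/
theorem exists_root {p q : ℕ} [Fact p.Prime] (hq : q.Prime) (hpq : p ≠ q)
    (I : Ideal (ZMod p)[X]) (h1 : X ^ q - 1 ∈ I) (h2 : X - 1 ∉ I) :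
    ∃ (K : Type) (_ : Field K) (_ : Algebra (ZMod p) K) (ζ : K), IsPrimitiveRoot ζ q ∧
      ∀ P ∈ I, aeval ζ P = 0 := by
  classical
  have hp : p.Prime := Fact.out
  let J : Ideal (ZMod p)[X] :=
    { carrier := {P | P * (X - 1) ∈ I}
      add_mem' := fun {a b} ha hb => by
        change (a + b) * (X - 1) ∈ I
        rw [add_mul]
        exact I.add_mem ha hb
      zero_mem' := by
        change (0 : (ZMod p)[X]) * (X - 1) ∈ I
        rw [zero_mul]
        exact I.zero_mem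
      smul_mem' := fun c a ha => by
        change (c • a) * (X - 1) ∈ I
        rw [smul_eq_mul, mul_assoc]
        exact I.mul_mem_left c ha }
  have hJ : ∀ P, P ∈ J ↔ P * (X - 1) ∈ I := fun P => Iff.rfl
  have hIJ : I ≤ J := fun P hP => (hJ P).2 (I.mul_mem_right _ hP)
  have hJ1 : J ≠ ⊤ := by
    rw [Ne, Ideal.eq_top_iff_one, hJ, one_mul]
    exact h2
  obtain ⟨𝔪, h𝔪, hJm⟩ := Ideal.exists_le_maximal J hJ1
  have hΦ : (∑ i ∈ Finset.range q, (X : (ZMod p)[X]) ^ i) ∈ 𝔪 := by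
    apply hJm
    rw [hJ, geom_sum_mul]
    exact h1
  let _ : Field ((ZMod p)[X] ⧸ 𝔪) := Ideal.Quotient.field 𝔪
  refine ⟨(ZMod p)[X] ⧸ 𝔪, inferInstance, inferInstance, Ideal.Quotient.mk 𝔪 X, ?_, ?_⟩
  · have hq1 : (Ideal.Quotient.mk 𝔪 X) ^ q = 1 := by
      have h3 : Ideal.Quotient.mk 𝔪 (X ^ q - 1) = 0 :=
        Ideal.Quotient.eq_zero_iff_mem.2 (hJm (hIJ h1))
      rw [map_sub, map_pow, map_one, sub_eq_zero] at h3
      exact h3
    have hne : Ideal.Quotient.mk 𝔪 X ≠ 1 := by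
      intro h3
      have h4 : Ideal.Quotient.mk 𝔪 (∑ i ∈ Finset.range q, (X : (ZMod p)[X]) ^ i) = 0 :=
        Ideal.Quotient.eq_zero_iff_mem.2 hΦ
      rw [map_sum] at h4
      simp only [map_pow, h3, one_pow, Finset.sum_const, Finset.card_range, nsmul_eq_mul,
        mul_one] at h4
      have h5 : algebraMap (ZMod p) ((ZMod p)[X] ⧸ 𝔪) (q : ZMod p) = 0 := by
        rw [map_natCast]
        exact h4
      have h6 : (q : ZMod p) = 0 := by
        apply (algebraMap (ZMod p) ((ZMod p)[X] ⧸ 𝔪)).injective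
        rw [h5, map_zero]
      rw [ZMod.natCast_eq_zero_iff] at h6
      exact hpq ((Nat.prime_dvd_prime_iff_eq hp hq).1 h6)
    have : Fact q.Prime := ⟨hq⟩
    have h3 : orderOf (Ideal.Quotient.mk 𝔪 X) = q := orderOf_eq_prime hq1 hne
    have h4 := IsPrimitiveRoot.orderOf (Ideal.Quotient.mk 𝔪 X)
    rw [h3] at h4
    exact h4
  · intro P hP
    have h3 : aeval (Ideal.Quotient.mk 𝔪 X) P = Ideal.Quotient.mk 𝔪 P := by
      have h4 := aeval_algHom_apply (Ideal.Quotient.mkₐ (ZMod p) 𝔪) X P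
      rw [aeval_X_left_apply] at h4
      exact h4
    rw [h3]
    exact Ideal.Quotient.eq_zero_iff_mem.2 (hJm (hIJ hP))

end Pool.Agent.Lib.MP_4c5e24_al
end

section

set_option autoImplicit false

/-!
RIG-N: the automorphisms of the divisibility order of the natural numbers.
-/

namespace Pool.Agent.Lib.MP_4c5e24_al

/-- `π` is an automorphism of the divisibility order. -/
structure DvdAut (π : ℕ ≃ ℕ) : Prop where
  dvd : ∀ m n, π m ∣ π n ↔ m ∣ n

namespace DvdAut

variable {π : ℕ ≃ ℕ}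

/-- Proof: apply `dvd` to `π.symm m`, `π.symm n`. -/
theorem symm (h : DvdAut π) : DvdAut π.symm := by
  constructor
  intro m n
  have h1 := h.dvd (π.symm m) (π.symm n)
  rw [Equiv.apply_symm_apply, Equiv.apply_symm_apply] at h1
  exact h1.symm

/-- Proof: `0` is the only number which is divisible by all numbers: every `n` has the form
`π (π.symm n)` and `π (π.symm n) ∣ π 0`. -/
theorem zero (h : DvdAut π) : π 0 = 0 := by
  have h1 := (h.dvd (π.symm 0) 0).2 (dvd_zero _)
  rw [Equiv.apply_symm_apply] at h1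
  exact Nat.eq_zero_of_zero_dvd h1

/-- Proof: `1` divides everything, so `π 1` divides `π (π.symm 1) = 1`. -/
theorem one (h : DvdAut π) : π 1 = 1 := by
  have h1 := (h.dvd 1 (π.symm 1)).2 (one_dvd _)
  rw [Equiv.apply_symm_apply] at h1
  exact Nat.dvd_one.1 h1

private theorem prime_aux (h : DvdAut π) {p : ℕ} (hp : p.Prime) : (π p).Prime := by
  rw [Nat.prime_def]
  constructor
  · have h0 : π p ≠ 0 := fun h0 => hp.ne_zero (π.injective (h0.trans h.zero.symm))
    have h1 : π p ≠ 1 := fun h1 => hp.ne_one (π.injective (h1.trans h.one.symm))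
    omega
  · intro m hm
    have h1 : π.symm m ∣ p := by
      rw [← h.dvd, Equiv.apply_symm_apply]
      exact hm
    rcases (Nat.dvd_prime hp).1 h1 with h2 | h2
    · left
      have h3 := congrArg π h2
      rw [Equiv.apply_symm_apply, h.one] at h3
      exact h3
    · right
      have h3 := congrArg π h2
      rw [Equiv.apply_symm_apply] at h3
      exact h3

/-- Proof: `p` is prime iff `p ≠ 0`, `p ≠ 1` and the divisors of `p` are `1` and `p`; all this is
preserved (use `h.symm` for the converse direction). -/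
theorem prime (h : DvdAut π) {p : ℕ} : (π p).Prime ↔ p.Prime := by
  constructor
  · intro hp
    have h1 := prime_aux h.symm hp
    rwa [Equiv.symm_apply_apply] at h1
  · exact prime_aux h

/-- Proof: `lcm` is characterised by divisibility: `Nat.lcm_dvd_iff`; use `Nat.dvd_antisymm` and
surjectivity of `π`. -/
theorem lcm (h : DvdAut π) (m n : ℕ) : π (Nat.lcm m n) = Nat.lcm (π m) (π n) := by
  apply Nat.dvd_antisymm
  · have h1 : Nat.lcm m n ∣ π.symm (Nat.lcm (π m) (π n)) := by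
      apply Nat.lcm_dvd
      · rw [← h.dvd, Equiv.apply_symm_apply]
        exact Nat.dvd_lcm_left _ _
      · rw [← h.dvd, Equiv.apply_symm_apply]
        exact Nat.dvd_lcm_right _ _
    rw [← h.dvd, Equiv.apply_symm_apply] at h1
    exact h1
  · exact Nat.lcm_dvd ((h.dvd _ _).2 (Nat.dvd_lcm_left _ _))
      ((h.dvd _ _).2 (Nat.dvd_lcm_right _ _))

private theorem coprime_aux (h : DvdAut π) {m n : ℕ} (hmn : Nat.Coprime m n) :
    Nat.Coprime (π m) (π n) := by
  apply Nat.Coprime.symm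
  apply Nat.coprime_of_dvd'
  intro k hk h1 h2
  have h3 : π.symm k ∣ n := by
    rw [← h.dvd, Equiv.apply_symm_apply]
    exact h1
  have h4 : π.symm k ∣ m := by
    rw [← h.dvd, Equiv.apply_symm_apply]
    exact h2
  have h5 := Nat.dvd_gcd h4 h3
  rw [hmn] at h5
  have h6 := congrArg π (Nat.dvd_one.1 h5)
  rw [Equiv.apply_symm_apply, h.one] at h6
  rw [h6]

/-- Proof: `m`, `n` are coprime iff every common divisor is `1`. -/
theorem coprime (h : DvdAut π) {m n : ℕ} : Nat.Coprime (π m) (π n) ↔ Nat.Coprime m n := by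
  constructor
  · intro h1
    have h2 := coprime_aux h.symm h1
    rwa [Equiv.symm_apply_apply, Equiv.symm_apply_apply] at h2
  · exact coprime_aux h

/-- Proof: for coprime numbers the product is the `lcm` (`Nat.Coprime.lcm_eq_mul`). -/
theorem mul (h : DvdAut π) {m n : ℕ} (hmn : Nat.Coprime m n) : π (m * n) = π m * π n := by
  rw [← hmn.lcm_eq_mul, h.lcm, (h.coprime.2 hmn).lcm_eq_mul]

/-- Proof. Induction on `k` is possible, but here is a direct argument. `π (p ^ k) ≠ 0`, and its only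
possible prime divisor is `π p`: if `r` is a prime with `r ∣ π (p ^ k)`, then `π.symm r` is a
prime divisor of `p ^ k`, so it is `p`. Hence `π (p ^ k) = (π p) ^ j` for some `j`
(`Nat.eq_prime_pow_of_unique_prime_dvd`). Since `π` gives a bijection of the divisors of
`p ^ k` onto the divisors of `π (p ^ k)`, the numbers of the divisors are equal:
`k + 1 = j + 1` (`Nat.divisors_prime_pow`, `Finset.card_bij` or `Finset.card_map`). -/
theorem prime_pow (h : DvdAut π) {p : ℕ} (hp : p.Prime) (k : ℕ) : π (p ^ k) = (π p) ^ k := by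
  have hq : (π p).Prime := h.prime.2 hp
  have h0 : π (p ^ k) ≠ 0 := fun h0 =>
    (pow_pos hp.pos k).ne' (π.injective (h0.trans h.zero.symm))
  have h1 : π (p ^ k) = (π p) ^ (π (p ^ k)).primeFactorsList.length := by
    apply Nat.eq_prime_pow_of_unique_prime_dvd h0
    intro r hr hrd
    have h2 : π.symm r ∣ p ^ k := by
      rw [← h.dvd, Equiv.apply_symm_apply]
      exact hrd
    have h3 : (π.symm r).Prime := h.symm.prime.2 hr
    have h4 : π.symm r = p := (Nat.prime_dvd_prime_iff_eq h3 hp).1 (h3.dvd_of_dvd_pow h2)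
    rw [← h4, Equiv.apply_symm_apply]
  generalize (π (p ^ k)).primeFactorsList.length = j at h1
  have hcard : (p ^ k).divisors.card = (π (p ^ k)).divisors.card := by
    apply Finset.card_bij (fun a _ => π a)
    · intro a ha
      rw [Nat.mem_divisors] at ha ⊢
      exact ⟨(h.dvd _ _).2 ha.1, h0⟩
    · intro a _ b _ hab
      exact π.injective hab
    · intro b hb
      rw [Nat.mem_divisors] at hb
      refine ⟨π.symm b, ?_, Equiv.apply_symm_apply _ _⟩
      rw [Nat.mem_divisors]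
      refine ⟨?_, (pow_pos hp.pos k).ne'⟩
      rw [← h.dvd, Equiv.apply_symm_apply]
      exact hb.1
  rw [h1, Nat.divisors_prime_pow hp, Nat.divisors_prime_pow hq, Finset.card_map,
    Finset.card_map, Finset.card_range, Finset.card_range] at hcard
  have hjk : j = k := by omega
  rw [h1, hjk]

/-- Proof: a number is determined by the prime powers which divide it; for `n ≠ 0` use
`Nat.dvd_antisymm` and `Nat.dvd_of_forall_prime_pow_dvd`-like lemmas
(`Nat.eq_of_dvd_iff...`, or `Nat.dvd_iff_prime_pow_dvd_dvd`). -/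
theorem eq_id (h : DvdAut π) (hp : ∀ p : ℕ, p.Prime → π p = p) (n : ℕ) : π n = n := by
  apply Nat.dvd_antisymm
  · rw [Nat.dvd_iff_prime_pow_dvd_dvd]
    intro p k hpp hpk
    have h1 : π (p ^ k) = p ^ k := by rw [h.prime_pow hpp, hp p hpp]
    rw [← h1] at hpk
    exact (h.dvd _ _).1 hpk
  · rw [Nat.dvd_iff_prime_pow_dvd_dvd]
    intro p k hpp hpk
    have h1 : π (p ^ k) = p ^ k := by rw [h.prime_pow hpp, hp p hpp]
    rw [← h1]
    exact (h.dvd _ _).2 hpk

section two

variable (h2 : π 2 = 2)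

include h2

theorem two_pow (h : DvdAut π) (k : ℕ) : π (2 ^ k) = 2 ^ k := by
  rw [h.prime_pow Nat.prime_two, h2]

/-- Proof: `m` is odd iff `2` does not divide `m`. -/
theorem odd (h : DvdAut π) {m : ℕ} : Odd (π m) ↔ Odd m := by
  have h1 := h.dvd 2 m
  rw [h2] at h1
  rw [← Nat.not_even_iff_odd, ← Nat.not_even_iff_odd, even_iff_two_dvd, even_iff_two_dvd, h1]

/-- Proof: `mul`, `two_pow`. -/
theorem two_pow_mul (h : DvdAut π) (k : ℕ) {m : ℕ} (hm : Odd m) :
    π (2 ^ k * m) = 2 ^ k * π m := by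
  have h1 : Nat.Coprime (2 ^ k) m := Nat.Coprime.pow_left k (Nat.coprime_two_left.2 hm)
  rw [h.mul h1, two_pow h2 h]

theorem two_mul (h : DvdAut π) {m : ℕ} (hm : Odd m) : π (2 * m) = 2 * π m := by
  simpa using h.two_pow_mul h2 1 hm

end two

end DvdAut

end Pool.Agent.Lib.MP_4c5e24_al
end

section

set_option autoImplicit false

/-!
RIG-H2: characters of an elementary abelian group of infinite rank.
-/

namespace Pool.Agent.Lib.MP_4c5e24_al

private theorem exists_char_aux {q : ℕ} {K : Type} [Field K] {ζ : K} (hζ : IsPrimitiveRoot ζ q)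
    (hq0 : q ≠ 0) (g h : F ⧸ (Ab q).1) (hgh : g ≠ h) : ∃ χ : (F ⧸ (Ab q).1) →* K, χ g ≠ χ h := by
  obtain ⟨a, rfl⟩ := QuotientGroup.mk_surjective g
  obtain ⟨b, rfl⟩ := QuotientGroup.mk_surjective h
  have hab : a⁻¹ * b ∉ (Ab q).1 := fun hc => hgh (QuotientGroup.eq.2 hc)
  rw [mem_Ab] at hab
  push Not at hab
  obtain ⟨i, hi⟩ := hab
  have hu : IsUnit ζ := hζ.isUnit hq0
  obtain ⟨u, rfl⟩ := hu
  have hu' : IsPrimitiveRoot u q := IsPrimitiveRoot.coe_units_iff.1 hζ
  have hval : ∀ w : F, ((zpowersHom Kˣ u).comp (es i)) w = u ^ ex i w := fun w => rfl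
  have hker : ∀ w ∈ (Ab q).1, ((zpowersHom Kˣ u).comp (es i)) w = 1 := by
    intro w hw
    rw [hval, hu'.zpow_eq_one_iff_dvd]
    exact (mem_Ab q w).1 hw i
  refine ⟨(Units.coeHom K).comp (QuotientGroup.lift (Ab q).1 ((zpowersHom Kˣ u).comp (es i)) hker), ?_⟩
  intro hc
  apply hi
  have h1 : u ^ ex i a = u ^ ex i b := Units.ext hc
  rw [← hu'.zpow_eq_one_iff_dvd, ex_mul, ex_inv, zpow_add, zpow_neg, h1]
  simp

/-- A nonzero element of the group algebra of `F ⧸ Ab q` over `ZMod p` has a nonzero image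
under a character with values in the powers of `ζ`.

Proof. For `c : ℕ → ZMod q` let `χ c : F ⧸ (Ab q).1 →* K` be the homomorphism
`w ↦ ∏ i ∈ range n, ζ ^ ((c i * ex i w : ZMod q)).val` for a fixed large `n` (it is trivial on `Ab q`
by `mem_Ab`, multiplicative by `ex_mul` and because `ζ ^ (a + b).val = ζ ^ a.val * ζ ^ b.val`,
`ζ ^ q = 1`; construct it with `QuotientGroup.lift` from a homomorphism `F →* Kˣ` or `F →* K`, for
instance `FreeGroup.lift (fun i => ζ' ^ (c i).val)` where `ζ'` is the unit `ζ` and `c i = 0` for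
`i ≥ n`). Let `g₀` be in the support of `D`. Choose
`n` such that for all `g ≠ g₀` in the support there is an `i < n` with `q` not dividing
`ex i (g₀⁻¹ g)` (representatives; exists by `mem_Ab` because `g₀⁻¹ g ≠ 1` in `F ⧸ Ab q`, and
the support is finite). Sum over all `c : Fin n → ZMod q`:
`∑ c, χ c (g₀⁻¹) * χ c (D) = ∑ g ∈ supp D, D g * ∑ c, χ c (g₀⁻¹ g)`, and
`∑ c, χ c (g) = ∏ i < n, ∑ a : ZMod q, ζ ^ (a * ex i g).val` (`Finset.prod_univ_sum` or
`Fintype.piFinset`), where the inner sum is `q` if `q ∣ ex i g` and `0` otherwise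
(`IsPrimitiveRoot.geom_sum_eq_zero`; `ζ ^ (ex i g)` is a primitive root as well because `q` is
prime). So the sum is `q ^ n * D g₀ ≠ 0` in `K` (`q ≠ 0` in `ZMod p`, the map `ZMod p → K` is
injective). Hence `χ c (D) ≠ 0` for some `c`. (Another way: a polynomial of degree `< q` in every
variable which vanishes on all tuples of `q`-th roots of unity is zero,
`MvPolynomial.eq_zero_of_eval_zero_at_prod_finset`.) -/
theorem exists_char {p q : ℕ} [Fact p.Prime] (hq : q.Prime) (hpq : p ≠ q) {K : Type} [Field K]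
    [Algebra (ZMod p) K] {ζ : K} (hζ : IsPrimitiveRoot ζ q)
    (D : MonoidAlgebra (ZMod p) (F ⧸ (Ab q).1)) (hD : D ≠ 0) :
    ∃ χ : (F ⧸ (Ab q).1) →* K, MonoidAlgebra.lift (ZMod p) K (F ⧸ (Ab q).1) χ D ≠ 0 ∧
      ∀ g, ∃ k : ℕ, χ g = ζ ^ k := by
  have hq0 : q ≠ 0 := hq.ne_zero
  have : NeZero q := ⟨hq0⟩
  have hpow : ∀ (χ : (F ⧸ (Ab q).1) →* K) (g : F ⧸ (Ab q).1), ∃ k : ℕ, χ g = ζ ^ k := by
    intro χ g
    obtain ⟨w, rfl⟩ := QuotientGroup.mk_surjective g
    have h1 : ((w : F ⧸ (Ab q).1)) ^ q = 1 := by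
      rw [← QuotientGroup.mk_pow, QuotientGroup.eq_one_iff, mem_Ab]
      intro i
      rw [ex_pow]
      exact dvd_mul_right _ _
    have h2 : (χ w) ^ q = 1 := by rw [← map_pow, h1, map_one]
    obtain ⟨k, _, hk⟩ := hζ.eq_pow_of_pow_eq_one h2
    exact ⟨k, hk.symm⟩
  by_contra hcon
  push Not at hcon
  have hz : ∀ χ : (F ⧸ (Ab q).1) →* K, MonoidAlgebra.lift (ZMod p) K (F ⧸ (Ab q).1) χ D = 0 := by
    intro χ
    by_contra hne
    obtain ⟨g, hg⟩ := hcon χ hne
    obtain ⟨k, hk⟩ := hpow χ g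
    exact hg k hk
  -- the evaluation characters
  let ev : (F ⧸ (Ab q).1) → (((F ⧸ (Ab q).1) →* K) →* K) := fun g =>
    { toFun := fun χ => χ g
      map_one' := rfl
      map_mul' := fun _ _ => rfl }
  have hev : Function.Injective ev := by
    intro g h hgh
    by_contra hne
    obtain ⟨χ, hχ⟩ := exists_char_aux hζ hq0 g h hne
    exact hχ (DFunLike.congr_fun hgh χ)
  have hli := (linearIndependent_monoidHom ((F ⧸ (Ab q).1) →* K) K).comp ev hev
  rw [linearIndependent_iff'] at hli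
  obtain ⟨g, hg⟩ : ∃ g, D.coeff g ≠ 0 := by
    by_contra hn
    push Not at hn
    exact hD (MonoidAlgebra.coeff_eq_zero.1 (Finsupp.ext hn))
  have h0 := hli D.coeff.support (fun g => algebraMap (ZMod p) K (D.coeff g)) (by
    funext χ
    have := hz χ
    rw [MonoidAlgebra.lift_apply, Finsupp.sum] at this
    simp only [Function.comp, Finset.sum_apply, Pi.smul_apply, Pi.zero_apply, smul_eq_mul]
    simpa [Algebra.smul_def, ev] using this) g (Finsupp.mem_support_iff.2 hg)
  exact hg ((map_eq_zero _).1 h0)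

end Pool.Agent.Lib.MP_4c5e24_al
end

section

set_option autoImplicit false

/-!
RIG-A3: the coatoms and the action on the abelian varieties.
-/

namespace Pool.Agent.Lib.MP_4c5e24_al

open scoped commutatorElement

/-- Every proper fully invariant subgroup is contained in some `Ab p`, `p` prime.

Proof. By `exists_Ab` applied to `H ⊔ Ab 0` we have `H ⊔ Ab 0 = Ab n`. If `n = 1`, then
`Ab 1 ≤ H ⊔ Ab 0`, so `Bn 1 ≤ H` by `Bn_le_iff`, so `g = g ^ 1 ∈ H` for all `g` and `H = ⊤`. So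
`n ≠ 1` and there is a prime `p ∣ n` (`Nat.exists_prime_and_dvd`), and `Ab n ≤ Ab p`. -/
theorem exists_prime_le {H : FI} (h : H ≠ ⊤) : ∃ p : ℕ, p.Prime ∧ H ≤ Ab p := by
  obtain ⟨n, hn⟩ := exists_Ab (H := H ⊔ Ab 0) le_sup_right
  have hn1 : n ≠ 1 := by
    rintro rfl
    apply h
    have h1 : Bn 1 ≤ H := Bn_le_iff.2 hn.ge
    apply le_antisymm le_top
    intro w _
    have h2 := Bn_le'.1 h1 w
    rwa [pow_one] at h2
  obtain ⟨p, hp, hpn⟩ := Nat.exists_prime_and_dvd hn1
  exact ⟨p, hp, le_sup_left.trans (hn.le.trans (Ab_le_Ab.2 hpn))⟩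

private theorem Ab_prime_ne_top {p : ℕ} (hp : p.Prime) : Ab p ≠ ⊤ := by
  intro h
  rw [← Ab_one] at h
  exact hp.one_lt.ne' (Ab_inj h)

/-- The coatoms are the `Ab p`, `p` prime.

Proof. If `p` is prime, `Ab p ≠ ⊤ = Ab 1`, and if `Ab p < H` then `H = Ab n` (`exists_Ab`),
`n ∣ p`, `n ≠ p`, so `n = 1` and `H = ⊤`. If `H` is a coatom, then `H ≤ Ab p` for some prime `p`
(`exists_prime_le`), and `Ab p ≠ ⊤`, so `H = Ab p`. -/
theorem isCoatom_iff (H : FI) : IsCoatom H ↔ ∃ p : ℕ, p.Prime ∧ H = Ab p := by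
  constructor
  · rintro ⟨h1, h2⟩
    obtain ⟨p, hp, hle⟩ := exists_prime_le h1
    refine ⟨p, hp, ?_⟩
    by_contra hne
    exact Ab_prime_ne_top hp (h2 _ (lt_of_le_of_ne hle hne))
  · rintro ⟨p, hp, rfl⟩
    refine ⟨Ab_prime_ne_top hp, fun K hK => ?_⟩
    obtain ⟨n, rfl⟩ := exists_Ab ((Ab0_le_Ab p).trans hK.le)
    have hd : n ∣ p := Ab_le_Ab.1 hK.le
    rcases (Nat.dvd_prime hp).1 hd with h | h
    · rw [h, Ab_one]
    · exact absurd hK (by rw [h]; exact lt_irrefl _)

/-- Proof. `≤`: `Ab 0 ≤ Ab p`. `≥`: if `w ∈ Ab p` for all primes `p`, then every exponent sum of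
`w` is divisible by all primes (`mem_Ab`, `mem_sInf`, `isCoatom_iff`), so it is `0` (a nonzero
integer is not divisible by a prime which is larger than its absolute value,
`Nat.exists_infinite_primes`). -/
theorem Ab0_eq_sInf : Ab 0 = sInf {H | IsCoatom H} := by
  apply le_antisymm
  · refine le_sInf fun H hH => ?_
    obtain ⟨p, _, rfl⟩ := (isCoatom_iff H).1 hH
    exact Ab0_le_Ab p
  · intro w hw
    have hw' : w ∈ (sInf {H : FI | IsCoatom H}).1 := hw
    rw [mem_sInf] at hw'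
    rw [mem_Ab]
    intro i
    have hz : ex i w = 0 := by
      obtain ⟨p, hp1, hp2⟩ := Nat.exists_infinite_primes ((ex i w).natAbs + 1)
      have h3 : w ∈ (Ab p).1 := hw' _ ((isCoatom_iff _).2 ⟨p, hp2, rfl⟩)
      have h4 : (p : ℤ) ∣ ex i w := (mem_Ab p w).1 h3 i
      refine Int.eq_zero_of_abs_lt_dvd h4 ?_
      rw [Int.abs_eq_natAbs]
      exact_mod_cast hp1
    rw [hz]
    exact dvd_zero _

/-- Every automorphism fixes `Ab 0`.

Proof. `Ab0_eq_sInf`, `OrderIso.map_sInf_eq_sInf_symm_preimage` (or argue with `IsGLB`), and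
`e H` is a coatom iff `H` is (`OrderIso.isCoatom_iff`). -/
theorem map_Ab0 (e : FI ≃o FI) : e (Ab 0) = Ab 0 := by
  have key : ∀ e : FI ≃o FI, e (Ab 0) ≤ Ab 0 := by
    intro e
    conv_rhs => rw [Ab0_eq_sInf]
    refine le_sInf fun H hH => ?_
    have h1 : IsCoatom (e.symm H) := (OrderIso.isCoatom_iff e.symm H).2 hH
    obtain ⟨p, _, hp⟩ := (isCoatom_iff _).1 h1
    have h2 : Ab 0 ≤ e.symm H := by
      rw [hp]
      exact Ab0_le_Ab p
    have h3 := e.monotone h2
    rwa [OrderIso.apply_symm_apply] at h3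
  apply le_antisymm (key e)
  have h := e.monotone (key e.symm)
  rwa [OrderIso.apply_symm_apply] at h

/-- Proof. For every `n` we have `Ab 0 = e (Ab 0) ≤ e (Ab n)`, so `e (Ab n) = Ab (f n)` for some
`f n` (`exists_Ab`), and in the same way `e.symm (Ab n) = Ab (g n)`. By `Ab_inj`, `f` and `g` are
inverse to each other. And `π m ∣ π n ↔ Ab (π n) ≤ Ab (π m) ↔ e (Ab n) ≤ e (Ab m) ↔
Ab n ≤ Ab m ↔ m ∣ n`. -/
theorem exists_pi (e : FI ≃o FI) : ∃ π : ℕ ≃ ℕ, (∀ m n, π m ∣ π n ↔ m ∣ n) ∧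
    ∀ n, e (Ab n) = Ab (π n) := by
  have h1 : ∀ (e : FI ≃o FI) (n : ℕ), ∃ m, e (Ab n) = Ab m := by
    intro e n
    apply exists_Ab
    have h := e.monotone (Ab0_le_Ab n)
    rwa [map_Ab0] at h
  choose f hf using h1 e
  choose g hg using h1 e.symm
  refine ⟨⟨f, g, ?_, ?_⟩, ?_, ?_⟩
  · intro n
    apply Ab_inj
    rw [← hg, ← hf, OrderIso.symm_apply_apply]
  · intro n
    apply Ab_inj
    rw [← hf, ← hg, OrderIso.apply_symm_apply]
  · intro m n
    change f m ∣ f n ↔ m ∣ n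
    rw [← Ab_le_Ab, ← hf, ← hf, OrderIso.le_iff_le, Ab_le_Ab]
  · intro n
    exact hf n

end Pool.Agent.Lib.MP_4c5e24_al
end

section

set_option autoImplicit false

/-!
RIG-B: the action of an automorphism on the abelian varieties and on the Burnside varieties.
-/

namespace Pool.Agent.Lib.MP_4c5e24_al

open scoped commutatorElement

/-- `e` acts on the abelian varieties and on the Burnside varieties through the permutation `π`. -/
structure Adm (e : FI ≃o FI) (π : ℕ ≃ ℕ) : Prop where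
  dvd : DvdAut π
  ab : ∀ n, e (Ab n) = Ab (π n)
  bn : ∀ n, e (Bn n) = Bn (π n)
  two : π 2 = 2

/-- Proof. For every `H`: `Bn (π n) ≤ e H ↔ Ab (π n) ≤ e H ⊔ Ab 0` (`Bn_le_iff`)
`↔ e (Ab n) ≤ e (H ⊔ Ab 0)` (`map_Ab0`, `OrderIso.map_sup`) `↔ Ab n ≤ H ⊔ Ab 0 ↔ Bn n ≤ H ↔
e (Bn n) ≤ e H`. Take `H = Bn n` and `H = e.symm (Bn (π n))`. -/
theorem map_Bn {e : FI ≃o FI} {π : ℕ ≃ ℕ} (h : ∀ n, e (Ab n) = Ab (π n)) (n : ℕ) :
    e (Bn n) = Bn (π n) := by
  have key : ∀ H : FI, Bn (π n) ≤ e H ↔ Bn n ≤ H := by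
    intro H
    have h1 : e (H ⊔ Ab 0) = e H ⊔ Ab 0 := by
      rw [OrderIso.map_sup, map_Ab0]
    rw [Bn_le_iff, Bn_le_iff, ← h, ← h1, OrderIso.le_iff_le]
  apply le_antisymm
  · have h1 := (key (e.symm (Bn (π n)))).1 (by rw [OrderIso.apply_symm_apply])
    have h2 := e.monotone h1
    rwa [OrderIso.apply_symm_apply] at h2
  · exact (key (Bn n)).2 le_rfl

/-- Proof: a group of exponent `2` is abelian. Since `Bn 2 ⊔ Ab 0 = Ab 2` it suffices that
`Ab 0 ≤ Bn 2`; `Ab 0 = commutator F` (`Ab0_eq`) and modulo `Bn 2` all squares are trivial, so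
`a * b = (a * b)⁻¹ = b⁻¹ * a⁻¹ = b * a`. -/
theorem Bn_two : Bn 2 = Ab 2 := by
  have h0 : Ab 0 ≤ Bn 2 := by
    have h1 : commutator F ≤ (Bn 2).1 := by
      rw [commutator_def, Subgroup.commutator_le]
      intro a _ b _
      have e1 : ⁅a, b⁆ = (a * b) ^ 2 * ((b⁻¹ * a⁻¹ * b) ^ 2 * (b⁻¹) ^ 2) := by
        rw [commutatorElement_def, pow_two, pow_two, pow_two]
        group
      rw [e1]
      exact mul_mem (pow_mem_Bn 2 _) (mul_mem (pow_mem_Bn 2 _) (pow_mem_Bn 2 _))
    rw [← Ab0_eq] at h1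
    exact h1
  rw [← Bn_sup_Ab 2, sup_eq_left.2 h0]

/-- The Heisenberg group with coefficients in `ZMod p`. -/
@[ext] structure Heis (p : ℕ) where
  /-- the first coordinate -/
  a : ZMod p
  /-- the second coordinate -/
  b : ZMod p
  /-- the third coordinate -/
  c : ZMod p

namespace Heis

variable {p : ℕ}

instance : Mul (Heis p) := ⟨fun u v => ⟨u.a + v.a, u.b + v.b, u.c + v.c + u.a * v.b⟩⟩
instance : One (Heis p) := ⟨⟨0, 0, 0⟩⟩
instance : Inv (Heis p) := ⟨fun u => ⟨-u.a, -u.b, -u.c + u.a * u.b⟩⟩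

@[simp] theorem mul_a (u v : Heis p) : (u * v).a = u.a + v.a := rfl
@[simp] theorem mul_b (u v : Heis p) : (u * v).b = u.b + v.b := rfl
@[simp] theorem mul_c (u v : Heis p) : (u * v).c = u.c + v.c + u.a * v.b := rfl
@[simp] theorem one_a : (1 : Heis p).a = 0 := rfl
@[simp] theorem one_b : (1 : Heis p).b = 0 := rfl
@[simp] theorem one_c : (1 : Heis p).c = 0 := rfl
@[simp] theorem inv_a (u : Heis p) : (u⁻¹).a = -u.a := rfl
@[simp] theorem inv_b (u : Heis p) : (u⁻¹).b = -u.b := rfl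
@[simp] theorem inv_c (u : Heis p) : (u⁻¹).c = -u.c + u.a * u.b := rfl

instance : Group (Heis p) :=
  Group.ofLeftAxioms
    (fun u v w => by
      ext
      · simp [add_assoc]
      · simp [add_assoc]
      · simp only [mul_a, mul_b, mul_c]
        ring)
    (fun u => by ext <;> simp)
    (fun u => by ext <;> simp)

theorem pow_eq (u : Heis p) (n : ℕ) :
    u ^ n = ⟨n * u.a, n * u.b, n * u.c + (n.choose 2 : ℕ) * (u.a * u.b)⟩ := by
  induction n with
  | zero => ext <;> simp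
  | succ n ih =>
    rw [pow_succ, ih]
    have h : (n + 1).choose 2 = n + n.choose 2 := by
      rw [Nat.choose_succ_succ' n 1, Nat.choose_one_right]
    ext
    · simp only [mul_a, Nat.cast_add, Nat.cast_one]
      ring
    · simp only [mul_b, Nat.cast_add, Nat.cast_one]
      ring
    · simp only [mul_c, h, Nat.cast_add, Nat.cast_one]
      ring

theorem pow_prime (hp : p.Prime) (h2 : p ≠ 2) (u : Heis p) : u ^ p = 1 := by
  have h3 : 2 < p := lt_of_le_of_ne hp.two_le (Ne.symm h2)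
  have h4 : ((p.choose 2 : ℕ) : ZMod p) = 0 :=
    (ZMod.natCast_eq_zero_iff _ _).2 (hp.dvd_choose_self two_ne_zero h3)
  rw [pow_eq, h4, ZMod.natCast_self]
  ext <;> simp

end Heis

/-- For an odd prime `p` there is a nonabelian group of exponent `p`.

Proof. The Heisenberg group: on `ZMod p × ZMod p × ZMod p` put
`(a, b, c) * (a', b', c') = (a + a', b + b', c + c' + a * b')`; then
`(a, b, c) ^ n = (n a, n b, n c + (n (n - 1) / 2) a b)`, which is trivial for `n = p` odd. (One can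
also use the group `Sd` of the file `Sd`.) The group satisfies `Bn p` but not `Ab 0`
(the commutator `⁅x 0, x 1⁆` is in `Ab 0`). So `Bn p = Ab p ≥ Ab 0` is impossible. -/
theorem Bn_ne_Ab {p : ℕ} (hp : p.Prime) (h2 : p ≠ 2) : Bn p ≠ Ab p := by
  intro h
  have h3 : Bn p ≤ Laws (Heis p) := by
    rw [Bn_le']
    intro g f
    rw [map_pow]
    exact Heis.pow_prime hp h2 _
  have h4 : ⁅x 0, x 1⁆ ∈ (Ab 0).1 := by
    rw [Ab0_eq]
    exact Subgroup.commutator_mem_commutator (Subgroup.mem_top _) (Subgroup.mem_top _)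
  have h5 : ⁅x 0, x 1⁆ ∈ (Laws (Heis p)).1 := h3 (h ▸ Ab0_le_Ab p h4)
  have h6 := h5 (FreeGroup.lift (fun i => if i = 0 then ⟨1, 0, 0⟩ else ⟨0, 1, 0⟩))
  rw [map_commutatorElement, commutatorElement_eq_one_iff_mul_comm, FreeGroup.lift_apply_of,
    FreeGroup.lift_apply_of, if_pos rfl, if_neg one_ne_zero] at h6
  have h7 := congrArg Heis.c h6
  have : Fact (1 < p) := ⟨hp.one_lt⟩
  simp at h7

/-- Proof: `π 2` is a prime and `Bn (π 2) = e (Bn 2) = e (Ab 2) = Ab (π 2)`, so `π 2 = 2` by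
`Bn_ne_Ab`. -/
theorem exists_adm (e : FI ≃o FI) : ∃ π, Adm e π := by
  obtain ⟨π, hd, hab⟩ := exists_pi e
  have hD : DvdAut π := ⟨hd⟩
  have hB : ∀ n, e (Bn n) = Bn (π n) := map_Bn hab
  refine ⟨π, hD, hab, hB, ?_⟩
  by_contra h2
  apply Bn_ne_Ab (hD.prime.2 Nat.prime_two) h2
  rw [← hB, Bn_two, hab]

theorem Adm.symm {e : FI ≃o FI} {π : ℕ ≃ ℕ} (h : Adm e π) : Adm e.symm π.symm where
  dvd := h.dvd.symm
  ab := fun n => by
    rw [OrderIso.symm_apply_eq, h.ab, Equiv.apply_symm_apply]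
  bn := fun n => by
    rw [OrderIso.symm_apply_eq, h.bn, Equiv.apply_symm_apply]
  two := by
    rw [Equiv.symm_apply_eq, h.two]

/-- An odd prime goes to an odd prime. -/
theorem Adm.oddPrime {e : FI ≃o FI} {π : ℕ ≃ ℕ} (h : Adm e π) {q : ℕ} (hq : q.Prime)
    (h2 : q ≠ 2) : (π q).Prime ∧ π q ≠ 2 :=
  ⟨h.dvd.prime.2 hq, fun h3 => h2 (π.injective (h3.trans h.two.symm))⟩

end Pool.Agent.Lib.MP_4c5e24_al
end

section

set_option autoImplicit false

/-!
RIG-D1: the laws of the product varieties `A_p A_q`.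
-/

namespace Pool.Agent.Lib.MP_4c5e24_al

open scoped commutatorElement

/-- `w` is in a join if two coprime powers of `w` are.

Proof: Bezout. -/
theorem mem_of_pow {H : FI} {w : F} {m n : ℕ} (hmn : Nat.Coprime m n) (hm : w ^ m ∈ H.1)
    (hn : w ^ n ∈ H.1) : w ∈ H.1 := by
  have h1 := Nat.gcd_eq_gcd_ab m n
  rw [hmn.gcd_eq_one] at h1
  have h2 : w = (w ^ m) ^ (m.gcdA n) * (w ^ n) ^ (m.gcdB n) := by
    rw [← zpow_natCast, ← zpow_natCast, ← zpow_mul, ← zpow_mul, ← zpow_add, ← h1]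
    simp
  rw [h2]
  exact H.1.mul_mem (H.1.zpow_mem hm _) (H.1.zpow_mem hn _)

/-- Proof. `≤`: the generators of `AP m (Ab n)` have exponent sums divisible by `m * n`
(`mem_Ab`, `ex_pow`, `ex_comm`). `≥`: `Ab (m * n) = Bn (m * n) ⊔ Ab 0` (`Bn_sup_Ab`) and
`x 0 ^ (m * n) = (x 0 ^ n) ^ m ∈ AP m (Ab n)`. -/
theorem AP_Ab_sup_Ab0 (m n : ℕ) : AP m (Ab n) ⊔ Ab 0 = Ab (m * n) := by
  refine le_antisymm (sup_le (AP_le.2 ⟨fun h hh => ?_, fun h _ k _ => ?_⟩) (Ab0_le_Ab _)) ?_
  · rw [mem_Ab] at hh ⊢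
    intro i
    rw [ex_pow]
    push_cast
    exact mul_dvd_mul_left _ (hh i)
  · rw [mem_Ab]
    intro i
    rw [ex_comm]
    exact dvd_zero _
  · rw [← Bn_sup_Ab (m * n)]
    refine sup_le_sup_right (Bn_le.2 ?_) _
    rw [mul_comm, pow_mul]
    exact pow_mem_AP (Bn_le_Ab n (pow_mem_Bn n (x 0)))

/-- For coprime `m`, `n`: the groups of exponent `n` in `A_m A_n` are abelian.

Proof. `≤`: `AP m (Ab n) ≤ Ab n`, `Bn_le_Ab`. `≥`: `Ab n = Bn n ⊔ Ab 0`, and
`Ab 0 = commutator F` (`Ab0_eq`) is generated by commutators `c`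
(`Subgroup.commutator_le`); `c ∈ Ab n`, so `c ^ m ∈ AP m (Ab n)`, and `c ^ n ∈ Bn n`;
`mem_of_pow`. -/
theorem AP_Ab_sup_Bn {m n : ℕ} (hmn : Nat.Coprime m n) : AP m (Ab n) ⊔ Bn n = Ab n := by
  refine le_antisymm (sup_le (AP_le.2 ⟨fun h hh => (Ab n).1.pow_mem hh m, fun h _ k _ => ?_⟩)
    (Bn_le_Ab n)) ?_
  · rw [mem_Ab]
    intro i
    rw [ex_comm]
    exact dvd_zero _
  · rw [← Bn_sup_Ab n]
    refine sup_le le_sup_right ?_
    show (Ab 0).1 ≤ (AP m (Bn n ⊔ Ab 0) ⊔ Bn n).1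
    rw [Ab0_eq, _root_.commutator_def, Subgroup.commutator_le]
    intro a _ b _
    refine mem_of_pow hmn ?_ ?_
    · refine (le_sup_left : AP m (Bn n ⊔ Ab 0) ≤ AP m (Bn n ⊔ Ab 0) ⊔ Bn n) (pow_mem_AP ?_)
      rw [Bn_sup_Ab, mem_Ab]
      intro i
      rw [ex_comm]
      exact dvd_zero _
    · exact (le_sup_right : Bn n ≤ AP m (Bn n ⊔ Ab 0) ⊔ Bn n) (pow_mem_Bn n _)

/-- For coprime `m`, `n`: the groups of exponent `m` in `A_m X` are abelian if `Bn n ≤ X`.

Proof. `≤`: let `h ∈ X`; `h ^ m ∈ Ab m` and commutators are in `Ab m`; `Bn_le_Ab`. `≥`: as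
`Ab m = Bn m ⊔ Ab 0` it suffices that `⁅a, b⁆ ∈ AP m X ⊔ Bn m` for all `a b : F`. In the quotient
of `F` by `AP m X ⊔ Bn m` the class of `a` is a power of the class of `a ^ n` (because
`a ^ m = 1` there and `m`, `n` are coprime), the same for `b`, and the classes of `a ^ n` and
`b ^ n` commute because `a ^ n, b ^ n ∈ Bn n ≤ X`. -/
theorem AP_sup_Bn {m n : ℕ} (hmn : Nat.Coprime m n) {X : FI} (hX : Bn n ≤ X) :
    AP m X ⊔ Bn m = Ab m := by
  refine le_antisymm (sup_le (AP_le.2 ⟨fun h _ => Bn_le_Ab m (pow_mem_Bn m h),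
    fun h _ k _ => ?_⟩) (Bn_le_Ab m)) ?_
  · rw [mem_Ab]
    intro i
    rw [ex_comm]
    exact dvd_zero _
  · conv_lhs => rw [← Bn_sup_Ab m]
    refine sup_le le_sup_right ?_
    show (Ab 0).1 ≤ (AP m X ⊔ Bn m).1
    rw [Ab0_eq, _root_.commutator_def, Subgroup.commutator_le]
    intro a _ b _
    have hq : ∀ y : F, y ∈ (AP m X ⊔ Bn m).1 ↔ (QuotientGroup.mk' (AP m X ⊔ Bn m).1) y = 1 :=
      fun y => (QuotientGroup.eq_one_iff y).symm
    have hpow : ∀ c : F, (QuotientGroup.mk' (AP m X ⊔ Bn m).1) c =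
        ((QuotientGroup.mk' (AP m X ⊔ Bn m).1) (c ^ n)) ^ (m.gcdB n) := by
      intro c
      have h1 := Nat.gcd_eq_gcd_ab m n
      rw [hmn.gcd_eq_one] at h1
      have h3 : (QuotientGroup.mk' (AP m X ⊔ Bn m).1) c ^ m = 1 := by
        rw [← map_pow, ← hq]
        exact (le_sup_right : Bn m ≤ AP m X ⊔ Bn m) (pow_mem_Bn m c)
      have h2 : (QuotientGroup.mk' (AP m X ⊔ Bn m).1) c =
          ((QuotientGroup.mk' (AP m X ⊔ Bn m).1) c ^ m) ^ (m.gcdA n) *
          ((QuotientGroup.mk' (AP m X ⊔ Bn m).1) c ^ n) ^ (m.gcdB n) := by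
        rw [← zpow_natCast, ← zpow_natCast, ← zpow_mul, ← zpow_mul, ← zpow_add, ← h1]
        simp
      rw [h3, one_zpow, one_mul] at h2
      rw [map_pow]
      exact h2
    have hcom : Commute ((QuotientGroup.mk' (AP m X ⊔ Bn m).1) (a ^ n))
        ((QuotientGroup.mk' (AP m X ⊔ Bn m).1) (b ^ n)) := by
      rw [← commutatorElement_eq_one_iff_commute, ← map_commutatorElement, ← hq]
      exact (le_sup_left : AP m X ≤ AP m X ⊔ Bn m)
        (comm_mem_AP (hX (pow_mem_Bn n a)) (hX (pow_mem_Bn n b)))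
    rw [hq, map_commutatorElement, commutatorElement_eq_one_iff_commute, hpow a, hpow b]
    exact hcom.zpow_zpow _ _

/-- For coprime `m`, `n`: the groups of exponent `n` in `A_m X` are in `X`.

Proof. Let `w ∈ X`; then `w ^ m ∈ AP m X` and `w ^ n ∈ Bn n`; `mem_of_pow`. -/
theorem le_AP_sup_Bn {m n : ℕ} (hmn : Nat.Coprime m n) {X : FI} : X ≤ AP m X ⊔ Bn n := by
  intro w hw
  exact mem_of_pow hmn ((le_sup_left : AP m X ≤ AP m X ⊔ Bn n) (pow_mem_AP hw))
    ((le_sup_right : Bn n ≤ AP m X ⊔ Bn n) (pow_mem_Bn n w))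

/-- Proof: `g ^ (m * n) = (g ^ n) ^ m`. -/
theorem Bn_le_AP {m n : ℕ} {X : FI} (hX : Bn n ≤ X) : Bn (m * n) ≤ AP m X := by
  refine Bn_le.2 ?_
  rw [mul_comm, pow_mul]
  exact pow_mem_AP (hX (pow_mem_Bn n (x 0)))

end Pool.Agent.Lib.MP_4c5e24_al
end

section

set_option autoImplicit false

/-!
RIG-H3: a nonabelian split extension of an elementary abelian `p`-group by a group of order `q`
generates the product variety `A_p A_q`.
-/

namespace Pool.Agent.Lib.MP_4c5e24_al

open scoped commutatorElement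

private theorem hig_Ab {q : ℕ} (hq : q.Prime) {G : Type*} [Group G] (y : G) (hy : y ^ q = 1)
    (hy1 : y ≠ 1) {w : F} (hw : w ∈ (Laws G).1) : w ∈ (Ab q).1 := by
  have := Fact.mk hq
  have ho : orderOf y = q := orderOf_eq_prime hy hy1
  rw [mem_Ab]
  intro i
  have h1 : ((FreeGroup.lift (fun _ : ℕ => y)).comp (only i)) w = 1 := hw _
  rw [MonoidHom.comp_apply, only_apply, map_zpow, x, FreeGroup.lift_apply_of] at h1
  rw [← ho]
  exact orderOf_dvd_iff_zpow_eq_one.mpr h1

private theorem hig_aux {p q : ℕ} [Fact p.Prime] (hq : q.Prime) (hpq : p ≠ q) {G : Type*}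
    [Group G] {M : Type*} [AddCommGroup M] [Module (ZMod p) M] (ι : Multiplicative M →* G)
    (hι : ∀ a : M, ι (Multiplicative.ofAdd a) = 1 → a = 0) (Y : M →ₗ[ZMod p] M) (y : G)
    (hYy : ∀ a : M, ι (Multiplicative.ofAdd (Y a)) = y * ι (Multiplicative.ofAdd a) * y⁻¹)
    (hy : y ^ q = 1) (hY : Y ^ q = 1) (a : M) (hne : Y a ≠ a) : Laws G ≤ AP p (Ab q) := by
  intro w hw
  have hq0 : 0 < q := hq.pos
  have hy1 : y ≠ 1 := by
    rintro rfl
    apply hne
    have h1 := hYy a
    rw [one_mul, inv_one, mul_one] at h1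
    have h2 : ι (Multiplicative.ofAdd (Y a - a)) = 1 := by
      rw [ofAdd_sub, map_div, h1, div_self']
    exact sub_eq_zero.mp (hι _ h2)
  have hwA : w ∈ (Ab q).1 := hig_Ab hq y hy hy1 hw
  change w ∈ apow p (Ab q).1
  apply mem_of_mag
  have hf : (mag p (Ab q).1 w).f = 1 := by
    rw [mag_f]
    exact (QuotientGroup.eq_one_iff w).mpr hwA
  refine Sd.ext ?_ hf
  change (mag p (Ab q).1 w).m = 0
  by_contra hv
  obtain ⟨i, hi⟩ : ∃ i, (mag p (Ab q).1 w).m i ≠ 0 := by
    by_contra hcon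
    push Not at hcon
    exact hv (Finsupp.ext hcon)
  -- the ideal
  let I : Ideal (Polynomial (ZMod p)) := RingHom.ker (Polynomial.aeval Y)
  have h1 : (Polynomial.X ^ q - 1 : Polynomial (ZMod p)) ∈ I := by
    change Polynomial.aeval Y (Polynomial.X ^ q - 1 : Polynomial (ZMod p)) = 0
    rw [map_sub, map_pow, Polynomial.aeval_X, map_one, hY, sub_self]
  have h2 : (Polynomial.X - 1 : Polynomial (ZMod p)) ∉ I := by
    intro hcon
    have h3 : Polynomial.aeval Y (Polynomial.X - 1 : Polynomial (ZMod p)) = 0 := hcon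
    rw [map_sub, Polynomial.aeval_X, map_one, sub_eq_zero] at h3
    apply hne
    rw [h3]
    rfl
  obtain ⟨K, _, _, ζ, hζ, hI⟩ := exists_root hq hpq I h1 h2
  obtain ⟨χ, hχ, hk⟩ := exists_char hq hpq hζ _ hi
  -- the exponents
  have hk' : ∀ g, ∃ k : ℕ, k < q ∧ χ g = ζ ^ k := by
    intro g
    obtain ⟨k, hk⟩ := hk g
    refine ⟨k % q, Nat.mod_lt _ hq0, ?_⟩
    rw [hk]
    conv_lhs => rw [← Nat.div_add_mod k q]
    rw [pow_add, pow_mul, hζ.pow_eq_one, one_pow, one_mul]
  choose k hkq hkχ using hk'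
  have hk1 : k 1 = 0 := by
    apply hζ.pow_inj (hkq 1) hq0
    rw [← hkχ, map_one, pow_zero]
  have hkmul : ∀ g h, k (g * h) = (k g + k h) % q := by
    intro g h
    apply hζ.pow_inj (hkq _) (Nat.mod_lt _ hq0)
    rw [← hkχ, map_mul, hkχ, hkχ, ← pow_add]
    conv_lhs => rw [← Nat.div_add_mod (k g + k h) q]
    rw [pow_add, pow_mul, hζ.pow_eq_one, one_pow, one_mul]
  have hmodY : ∀ g h, Y ^ k (g * h) = Y ^ k g * Y ^ k h := by
    intro g h
    rw [hkmul, ← pow_add]
    conv_rhs => rw [← Nat.div_add_mod (k g + k h) q]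
    rw [pow_add, pow_mul, hY, one_pow, one_mul]
  have hmody : ∀ g h, y ^ k (g * h) = y ^ k g * y ^ k h := by
    intro g h
    rw [hkmul, ← pow_add]
    conv_rhs => rw [← Nat.div_add_mod (k g + k h) q]
    rw [pow_add, pow_mul, hy, one_pow, one_mul]
  -- the representation
  let κ : (F ⧸ (Ab q).1) →* Module.End (ZMod p) M :=
    { toFun := fun g => Y ^ k g
      map_one' := by rw [hk1, pow_zero]
      map_mul' := fun g h => hmodY g h }
  let Ψ : MonoidAlgebra (ZMod p) (F ⧸ (Ab q).1) →ₐ[ZMod p] Module.End (ZMod p) M :=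
    MonoidAlgebra.lift (ZMod p) (Module.End (ZMod p) M) (F ⧸ (Ab q).1) κ
  have hΨ0 : Ψ ((mag p (Ab q).1 w).m i) ≠ 0 := by
    intro hcon
    apply hχ
    set D := (mag p (Ab q).1 w).m i with hD
    have h3 : (Polynomial.aeval Y)
        (D.coeff.sum fun g b => b • (Polynomial.X ^ k g : Polynomial (ZMod p))) = 0 := by
      have h4 : Ψ D = D.coeff.sum fun g b => b • κ g := MonoidAlgebra.lift_apply _ _
      rw [hcon] at h4
      rw [h4, map_finsuppSum]
      refine Finsupp.sum_congr fun g _ => ?_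
      rw [map_smul, map_pow, Polynomial.aeval_X]
      rfl
    have h5 := hI _ h3
    rw [MonoidAlgebra.lift_apply]
    rw [map_finsuppSum] at h5
    rw [← h5]
    refine Finsupp.sum_congr fun g _ => ?_
    rw [map_smul, map_pow, Polynomial.aeval_X, hkχ]
  obtain ⟨a', ha'⟩ : ∃ a', Ψ ((mag p (Ab q).1 w).m i) a' ≠ 0 := by
    by_contra hcon
    push Not at hcon
    exact hΨ0 (LinearMap.ext hcon)
  have hYk : ∀ (n : ℕ) (b : M), ι (Multiplicative.ofAdd ((Y ^ n) b)) =
      y ^ n * ι (Multiplicative.ofAdd b) * (y ^ n)⁻¹ := by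
    intro n
    induction n with
    | zero => intro b; simp
    | succ n ih =>
      intro b
      rw [pow_succ', Module.End.mul_apply, hYy, ih]
      group
  let Φ : Sd (grU (ZMod p) (F ⧸ (Ab q).1))
      (ℕ →₀ MonoidAlgebra (ZMod p) (F ⧸ (Ab q).1)) →* G :=
    { toFun := fun u => ι (Multiplicative.ofAdd (Ψ (u.m i) a')) * y ^ k u.f
      map_one' := by
        rw [Sd.one_m, Sd.one_f, hk1]
        simp
      map_mul' := fun u v => by
        rw [Sd.mul_m, Sd.mul_f, coe_grU, Finsupp.add_apply, Finsupp.smul_apply, smul_eq_mul,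
          map_add, map_mul, LinearMap.add_apply, Module.End.mul_apply]
        have h6 : Ψ (MonoidAlgebra.of (ZMod p) (F ⧸ (Ab q).1) u.f) = Y ^ k u.f :=
          MonoidAlgebra.lift_of _ _
        rw [h6, ofAdd_add, map_mul, hYk, hmody]
        group }
  have h7 : (Φ.comp (mag p (Ab q).1)) w = 1 := hw _
  have h8 : ι (Multiplicative.ofAdd (Ψ ((mag p (Ab q).1 w).m i) a')) *
      y ^ k (mag p (Ab q).1 w).f = 1 := h7
  rw [hf, hk1, pow_zero, mul_one] at h8
  exact ha' (hι _ h8)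

private theorem hig_aux3 {p q : ℕ} [Fact p.Prime] (hq : q.Prime) (hpq : p ≠ q) {G : Type*}
    [Group G] {M : Type*} [AddCommGroup M] (hMp : ∀ a : M, p • a = 0) (ι : Multiplicative M →* G)
    (hι : ∀ a : M, ι (Multiplicative.ofAdd a) = 1 → a = 0) (cj : M →+ M) (y : G)
    (hYy : ∀ a : M, ι (Multiplicative.ofAdd (cj a)) = y * ι (Multiplicative.ofAdd a) * y⁻¹)
    (hy : y ^ q = 1) (a : M) (hne : cj a ≠ a) : Laws G ≤ AP p (Ab q) := by
  let instM : Module (ZMod p) M := AddCommGroup.zmodModule (n := p) hMp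
  let Y : M →ₗ[ZMod p] M := cj.toZModLinearMap p
  have hιY : ∀ b : M, ι (Multiplicative.ofAdd (Y b)) =
      y * ι (Multiplicative.ofAdd b) * y⁻¹ := fun b => hYy b
  have hYk : ∀ (n : ℕ) (b : M), ι (Multiplicative.ofAdd ((Y ^ n) b)) =
      y ^ n * ι (Multiplicative.ofAdd b) * (y ^ n)⁻¹ := by
    intro n
    induction n with
    | zero => intro b; simp
    | succ n ih =>
      intro b
      rw [pow_succ', Module.End.mul_apply, hιY, ih]
      group
  have hYq : Y ^ q = 1 := by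
    refine LinearMap.ext fun b => ?_
    have h1 := hYk q b
    rw [hy, one_mul, inv_one, mul_one] at h1
    have h2 : ι (Multiplicative.ofAdd ((Y ^ q) b - b)) = 1 := by
      rw [ofAdd_sub, map_div, h1, div_self']
    exact sub_eq_zero.mp (hι _ h2)
  exact hig_aux hq hpq ι hι Y y hιY hy hYq a hne

private theorem hig_aux2 {p q : ℕ} [Fact p.Prime] (hq : q.Prime) (hpq : p ≠ q) {G : Type*}
    [Group G] {A : Type*} [CommGroup A] (hAp : ∀ a : A, a ^ p = 1) (ι : A →* G)
    (hι : Function.Injective ι) (cj : A →* A) (y : G)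
    (hYy : ∀ a : A, ι (cj a) = y * ι a * y⁻¹)
    (hy : y ^ q = 1) (a : A) (hne : cj a ≠ a) : Laws G ≤ AP p (Ab q) := by
  refine hig_aux3 (M := Additive A) hq hpq (fun b => hAp (Additive.toMul b))
    { toFun := fun b => ι (Additive.toMul (Multiplicative.toAdd b))
      map_one' := ι.map_one
      map_mul' := fun b c => ι.map_mul _ _ } ?_ (MonoidHom.toAdditive cj) y
    (fun b => hYy (Additive.toMul b)) hy (Additive.ofMul a) hne
  intro b hb
  have h1 : ι (Additive.toMul b) = ι 1 := by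
    rw [map_one]
    exact hb
  exact hι h1

/-- Let `p ≠ q` be primes, `E` an abelian subgroup of exponent `p` of a group `G`, and let `y` be an
element with `y ^ q = 1` which normalises but does not centralise `E`. Then all laws of `G` are
laws of the product variety `A_p A_q`.

Proof. Let `w` be a law of `G`.

(1) `w ∈ Ab q`: we have `y ≠ 1`, so `y` has order `q` and `Subgroup.zpowers y` is a cyclic
group of order `q`; let `f : F →* G` map `x i` to `y` and the other generators to `1`; then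
`f w = y ^ ex i w` (compose with `only i`, or compare with `es i`), so `q ∣ ex i w`
(`orderOf_dvd_iff_zpow_eq_one`), `mem_Ab`.

(2) By `mem_of_mag` for `m = p`, `N = (Ab q).1` it suffices that `mag p (Ab q).1 w = 1`. The group
part is `1` by (1) and `mag_f`. Suppose that the module part `v` is not zero and choose `i` with
`D = v i ≠ 0` in `Λ = MonoidAlgebra (ZMod p) (F ⧸ Ab q)`.

(3) Let `M = Additive E`, a module over `ZMod p` (`E` is commutative by `hE`;
`AddCommGroup.zmodModule` with `hEp`), and `Y : M →ₗ[ZMod p] M` the conjugation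
`a ↦ y * a * y⁻¹`; `Y ^ q = 1`. Let `I` be the ideal of all `P : (ZMod p)[X]` with
`aeval Y P = 0` (the kernel of `aeval Y`). Then `X ^ q - 1 ∈ I` and `X - 1 ∉ I`
because of `hne`. Let `K`, `ζ` be as in `exists_root`, and `χ` as in `exists_char` for `D`. For
`g : F ⧸ Ab q` choose `k g : ℕ` with `χ g = ζ ^ (k g)`. Then `k (g * h) ≡ k g + k h` modulo `q`
(`IsPrimitiveRoot.pow_inj...`: `ζ ^ a = ζ ^ b ↔ a ≡ b [MOD q]`), so `Y ^ k (g * h) = Y ^ k g * Y ^ k h`
and `y ^ k (g * h) = y ^ k g * y ^ k h`. Let `P = ∑ g, D g • X ^ (k g)` (sum over the support);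
`aeval ζ P = lift χ D ≠ 0`, so `P ∉ I` and there is `a' : M` with `aeval Y P a' ≠ 0`.

(4) The map `Φ : Sd (grU (ZMod p) (F ⧸ Ab q)) (ℕ →₀ Λ) → G`,
`Φ (v, g) = (∑ h, (v i) h • Y ^ (k h) a') * y ^ (k g)` (the sum over the support of `v i` is an
element of `M = Additive E`, considered as an element of `G`) is a homomorphism:
`Φ ((v, g) * (v', g'))`: the first factor is `ψ (v i + of g * v' i)` with the additive map
`ψ : Λ →+ M`, `ψ (single h r) = r • Y ^ (k h) a'`, and
`ψ (of g * D') = Y ^ (k g) (ψ D')` (check on `single`), which is the conjugate of `ψ D'` by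
`y ^ (k g)`. Hence the homomorphism `f = Φ ∘ mag : F →* G` satisfies
`f w = Φ (v, 1) = ψ D * y ^ (k 1) = ψ D = aeval Y P a' ≠ 1` (`y ^ (k 1) = 1` since `χ 1 = 1`), so
`w` is not a law of `G`, a contradiction. -/
theorem hig {p q : ℕ} (hp : p.Prime) (hq : q.Prime) (hpq : p ≠ q) {G : Type*} [Group G]
    (E : Subgroup G) (hE : ∀ a ∈ E, ∀ b ∈ E, a * b = b * a) (hEp : ∀ a ∈ E, a ^ p = 1)
    (y : G) (hyE : ∀ a ∈ E, y * a * y⁻¹ ∈ E) (hy : y ^ q = 1) (a : G) (ha : a ∈ E)
    (hne : y * a ≠ a * y) : Laws G ≤ AP p (Ab q) := by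
  have := Fact.mk hp
  let instE : CommGroup E :=
    { (inferInstance : Group E) with mul_comm := fun a b => Subtype.ext (hE a a.2 b b.2) }
  refine hig_aux2 hq hpq (fun b => Subtype.ext (hEp b b.2)) E.subtype E.subtype_injective
    { toFun := fun b => ⟨y * b * y⁻¹, hyE b b.2⟩
      map_one' := Subtype.ext (by simp)
      map_mul' := fun b c => Subtype.ext (by
        change y * (b * c : G) * y⁻¹ = y * b * y⁻¹ * (y * c * y⁻¹)
        group) } y (fun b => rfl) hy ⟨a, ha⟩ ?_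
  intro hcon
  apply hne
  have h2 : y * a * y⁻¹ = a := congrArg (fun b : E => (b : G)) hcon
  calc y * a = y * a * y⁻¹ * y := by group
    _ = a * y := by rw [h2]

end Pool.Agent.Lib.MP_4c5e24_al
end

section

set_option autoImplicit false

/-!
RIG-D1b: test groups.
-/

namespace Pool.Agent.Lib.MP_4c5e24_al

open scoped commutatorElement

/-- The abelian groups of exponent `n` satisfy `Ab n`. -/
theorem Ab_le_Laws_comm {A : Type*} [CommGroup A] {n : ℕ} (h : ∀ a : A, a ^ n = 1) :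
    Ab n ≤ Laws A := by
  rw [← Bn_sup_Ab n]
  refine sup_le (Bn_le.2 fun f => ?_) ?_
  · rw [map_pow, h]
  · show (Ab 0).1 ≤ (Laws A).1
    rw [Ab0_eq, _root_.commutator_def, Subgroup.commutator_le]
    intro a _ b _ f
    rw [map_commutatorElement, commutatorElement_eq_one_iff_mul_comm, mul_comm]

/-- The dihedral test: if two reflections do not satisfy the law `w`, then `w` is not a law of
`A_q A_2`.

For an odd prime `q` consider the group `G = Sd ρ (ZMod q)` where `Q = Multiplicative (ZMod 2)` (or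
`ℤˣ`) acts on `ZMod q` by `± 1` (`ρ : Q →* (ZMod q)ˣ` injective, the image of the
nontrivial element is `-1`). It satisfies `AP q (Ab 2)` (`AP_le_Laws_Sd`; `Ab 2 ≤ Laws Q`
because `Q` is an abelian group of exponent `2`). The reflections `s = (0, -1)`,
`t = (1, -1)` satisfy `s * s = t * t = 1` and `s * t ≠ t * s` because `-1 ≠ 1` in `ZMod q`
(`s t = (-1, 1)`, `t s = (1, 1)`). The homomorphism `f` maps `x 0` to `s` and the other generators
to `t`. -/
theorem dihedral_test {q : ℕ} (hq : q.Prime) (h2 : q ≠ 2) :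
    ∃ (G : Type) (_ : Group G) (s t : G), AP q (Ab 2) ≤ Laws G ∧ s * s = 1 ∧ t * t = 1 ∧
      s * t ≠ t * s := by
  obtain ⟨ρ, hρ⟩ : ∃ ρ : ℤˣ →* (ZMod q)ˣ, ((ρ (-1) : (ZMod q)ˣ) : ZMod q) = -1 := by
    refine ⟨Units.map (Int.castRingHom (ZMod q)).toMonoidHom, ?_⟩
    simp
  have e1 : (-1 : ℤˣ) * -1 = 1 := by decide
  refine ⟨Sd ρ (ZMod q), inferInstance, ⟨0, -1⟩, ⟨1, -1⟩, ?_, ?_, ?_, ?_⟩
  · refine AP_le_Laws_Sd (Ab_le_Laws_comm fun a => ?_) fun a => ?_
    · exact Int.units_pow_two a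
    · rw [nsmul_eq_mul, ZMod.natCast_self, zero_mul]
  · rw [Sd.mk_mul, e1, hρ, smul_zero, add_zero]
    rfl
  · rw [Sd.mk_mul, e1, hρ, smul_eq_mul, mul_one, add_neg_cancel]
    rfl
  · intro h
    rw [Sd.mk_mul, Sd.mk_mul, e1, hρ] at h
    have h3 := congrArg Sd.m h
    simp only [smul_eq_mul, mul_one, mul_zero, zero_add, add_zero] at h3
    have h4 : ((2 : ℕ) : ZMod q) = 0 := by
      have h5 : (1 : ZMod q) + 1 = 0 := by
        nth_rewrite 1 [← h3]
        exact neg_add_cancel 1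
      push_cast
      rw [← h5]
      norm_num
    rw [ZMod.natCast_eq_zero_iff] at h4
    exact h2 ((Nat.prime_dvd_prime_iff_eq hq Nat.prime_two).1 h4)

/-- If `X` is a variety of odd exponent `m`, then `A_n X` is not contained in `A_q A_2`'s
opposite order: the laws `AP n X` do not hold in the dihedral groups of order `2 q`.

Proof. By `dihedral_test` there is a group `G` which satisfies `AP q (Ab 2)` with two
noncommuting involutions `s`, `t`. The word `⁅x 0 ^ m, x 1 ^ m⁆` is in `AP n X` (`comm_mem_AP`,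
`x i ^ m ∈ Bn m ≤ X`). If `AP n X ≤ AP q (Ab 2)`, it would be a law of `G`; but at
`x 0 ↦ s`, `x 1 ↦ t` its value is `⁅s ^ m, t ^ m⁆ = ⁅s, t⁆ ≠ 1` (`m` is odd). -/
theorem not_AP_le_D {q m n : ℕ} (hq : q.Prime) (h2 : q ≠ 2) (hm : Odd m) {X : FI}
    (hX : Bn m ≤ X) : ¬ AP n X ≤ AP q (Ab 2) := by
  intro hle
  obtain ⟨G, _, s, t, h1, hs, ht, hst⟩ := dihedral_test hq h2
  have hw : ⁅x 0 ^ m, x 1 ^ m⁆ ∈ (AP n X).1 :=
    comm_mem_AP (hX (pow_mem_Bn m _)) (hX (pow_mem_Bn m _))
  have h3 := h1 (hle hw) (FreeGroup.lift fun i => if i = 0 then s else t)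
  rw [map_commutatorElement, map_pow, map_pow, FreeGroup.lift_apply_of, FreeGroup.lift_apply_of,
    if_pos rfl, if_neg (by norm_num), commutatorElement_eq_one_iff_mul_comm] at h3
  obtain ⟨k, rfl⟩ := hm
  have hs' : s ^ (2 * k + 1) = s := by rw [pow_succ, pow_mul, pow_two, hs, one_pow, one_mul]
  have ht' : t ^ (2 * k + 1) = t := by rw [pow_succ, pow_mul, pow_two, ht, one_pow, one_mul]
  rw [hs', ht'] at h3
  exact hst h3

/-- The law of commuting squares does not hold in `A_2 A_q`.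

Proof. The wreath product of a group of order `2` and a group of order `q`: let
`Q = Multiplicative (ZMod q)`, `Λ = MonoidAlgebra (ZMod 2) Q` and `G = Sd (grU..) Λ` (the group
`Q` acts on `Λ` by multiplication; take `ρ = (MonoidAlgebra.of (ZMod 2) Q).toHomUnits`). It
satisfies `AP 2 (Ab q)` (`AP_le_Laws_Sd`, `Laws Q = Ab q` by definition, `2 • a = 0`). Let `g` be
the generator `ofAdd 1` of `Q`, and `a = (1, g)`, `b = (0, g)` in `G`. By `Sd.mk_pow`
`a ^ 2 = (1 + g, g ^ 2)`, `b ^ 2 = (0, g ^ 2)` and (`Sd.comm_mk`) the commutator of `a ^ 2` and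
`b ^ 2` is `(- (g ^ 2 - 1) * (1 + g), 1)`; here `(g ^ 2 - 1) * (1 + g) = g ^ 3 + g ^ 2 - g - 1` is
not `0` in the group ring: if `q > 3` the elements `1, g, g ^ 2, g ^ 3` are different, and for
`q = 3` it is `g ^ 2 - g ≠ 0`. The word `⁅x 0 ^ 2, x 1 ^ 2⁆` is in `AP 0 (Ab 2)`. -/
theorem not_AP0_le_U {q : ℕ} (hq : q.Prime) (h2 : q ≠ 2) : ¬ AP 0 (Ab 2) ≤ AP 2 (Ab q) := by
  intro hle
  have : NeZero q := ⟨hq.ne_zero⟩
  obtain ⟨g, hg⟩ : ∃ g : Multiplicative (ZMod q), g = Multiplicative.ofAdd 1 := ⟨_, rfl⟩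
  have hgk : ∀ k : ℕ, g ^ k = 1 ↔ q ∣ k := by
    intro k
    rw [hg, ← ofAdd_nsmul, ofAdd_eq_one, nsmul_eq_mul, mul_one, ZMod.natCast_eq_zero_iff]
  have hle2 : AP 2 (Ab q) ≤
      Laws (Sd (grU (ZMod 2) (Multiplicative (ZMod q))) (MonoidAlgebra (ZMod 2) (Multiplicative (ZMod q)))) := by
    refine AP_le_Laws_Sd le_rfl fun a => ?_
    ext y
    have h3 : (2 • a : MonoidAlgebra (ZMod 2) (Multiplicative (ZMod q))) = a + a := two_nsmul a
    rw [h3, MonoidAlgebra.coeff_add, Finsupp.add_apply, MonoidAlgebra.coeff_zero,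
      Finsupp.zero_apply]
    exact CharTwo.add_self_eq_zero _
  have hw : ⁅x 0 ^ 2, x 1 ^ 2⁆ ∈ (AP 0 (Ab 2)).1 :=
    comm_mem_AP (Bn_le_Ab 2 (pow_mem_Bn 2 _)) (Bn_le_Ab 2 (pow_mem_Bn 2 _))
  have h3 := hle2 (hle hw) (FreeGroup.lift fun i => if i = 0 then ⟨0, g⟩ else ⟨1, g⟩)
  rw [map_commutatorElement, map_pow, map_pow, FreeGroup.lift_apply_of, FreeGroup.lift_apply_of,
    if_pos rfl, if_neg (by norm_num), Sd.mk_pow, Sd.mk_pow, Sd.comm_mk _ _ _ _ rfl] at h3
  have h4 := congrArg Sd.m h3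
  simp only [smul_zero, sub_zero, Sd.one_m, coe_grU] at h4
  have h5 : (MonoidAlgebra.of (ZMod 2) (Multiplicative (ZMod q)) (g ^ 2) - 1) •
      ((∑ k ∈ Finset.range 2, MonoidAlgebra.of (ZMod 2) (Multiplicative (ZMod q)) g ^ k) •
        (1 : MonoidAlgebra (ZMod 2) (Multiplicative (ZMod q)))) =
      MonoidAlgebra.single (g ^ 2) 1 + MonoidAlgebra.single (g ^ 3) 1 - MonoidAlgebra.single 1 1 -
        MonoidAlgebra.single g 1 := by
    rw [Finset.sum_range_succ, Finset.sum_range_one, pow_zero, pow_one, smul_eq_mul, smul_eq_mul,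
      mul_one, MonoidAlgebra.of_apply, MonoidAlgebra.of_apply, MonoidAlgebra.one_def, sub_mul,
      mul_add, mul_add, MonoidAlgebra.single_mul_single, MonoidAlgebra.single_mul_single,
      MonoidAlgebra.single_mul_single, MonoidAlgebra.single_mul_single]
    simp only [mul_one, one_mul]
    rw [← pow_succ]
    abel
  rw [h5] at h4
  have h6 := congrArg (fun a : MonoidAlgebra (ZMod 2) (Multiplicative (ZMod q)) => a.coeff g) h4
  simp only [MonoidAlgebra.coeff_sub, MonoidAlgebra.coeff_add, MonoidAlgebra.coeff_single,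
    Finsupp.sub_apply, Finsupp.add_apply, Finsupp.single_apply, MonoidAlgebra.coeff_zero,
    Finsupp.zero_apply] at h6
  have n1 : g ≠ 1 := by
    intro h
    have := (hgk 1).1 (by rw [pow_one, h])
    exact hq.one_lt.ne' (Nat.dvd_one.1 this)
  have n2 : g ^ 2 ≠ g := by
    intro h
    apply n1
    rw [pow_two] at h
    exact mul_eq_right.1 h
  have n3 : g ^ 3 ≠ g := by
    intro h
    have h7 : g ^ 2 = 1 := by
      rw [pow_succ] at h
      exact mul_eq_right.1 h
    exact h2 ((Nat.prime_dvd_prime_iff_eq hq Nat.prime_two).1 ((hgk 2).1 h7))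
  rw [if_neg n2, if_neg n3, if_neg (Ne.symm n1), if_pos trivial] at h6
  revert h6
  decide

end Pool.Agent.Lib.MP_4c5e24_al
end

section

set_option autoImplicit false

/-!
RIG-D2: the minimal nonabelian varieties of exponent `2 q` whose groups of exponent `q` are
abelian.
-/

namespace Pool.Agent.Lib.MP_4c5e24_al

open scoped commutatorElement

/-- The laws of a quotient of the free group by a fully invariant subgroup.

Proof. `≤`: a law of `F ⧸ H.1` is killed by the projection `F →* F ⧸ H.1`. `≥`: let `w ∈ H` and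
`f : F →* F ⧸ H.1`; choose `φ : F →* F` with `f = mk ∘ φ` (`FreeGroup.lift` of representatives of
`f (x i)`); `φ w ∈ H`. -/
theorem Laws_quot (H : FI) : Laws (F ⧸ H.1) = H := by
  apply le_antisymm
  · intro w hw
    have h1 : QuotientGroup.mk' H.1 w = 1 := hw (QuotientGroup.mk' H.1)
    exact (QuotientGroup.eq_one_iff w).1 h1
  · intro w hw f
    let φ : F →* F := FreeGroup.lift fun i => (f (x i)).out
    have h1 : (QuotientGroup.mk' H.1).comp φ = f := by
      apply FreeGroup.ext_hom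
      intro i
      rw [MonoidHom.comp_apply, FreeGroup.lift_apply_of, QuotientGroup.mk'_apply]
      exact QuotientGroup.out_eq' _
    rw [← h1, MonoidHom.comp_apply]
    exact (QuotientGroup.eq_one_iff _).2 (H.map_mem φ hw)

/-- Two noncommuting involutions in a group of exponent `2 q`, `q` an odd prime.

Proof. Let `z = s * t`. Then `s * z * s⁻¹ = t * s = z⁻¹`. Put `r = z ^ 2`. We have `r ≠ 1` because
`z * z = 1` means `s * t = t * s` (`z⁻¹ = t * s`), `r ^ q = 1`, `s * r * s⁻¹ = r⁻¹`. Apply `hig`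
(with `p := q`, `q := 2`) to `E = Subgroup.zpowers r`, `y = s`, `a = r`: `s r = r s` would
give `r⁻¹ = r`, `r ^ 2 = 1`, and with `r ^ q = 1`, `q` odd, `r = 1`. -/
theorem laws_le_D {q : ℕ} (hq : q.Prime) (h2 : q ≠ 2) {G : Type*} [Group G]
    (hexp : ∀ g : G, g ^ (2 * q) = 1) (s t : G) (hs : s * s = 1) (ht : t * t = 1)
    (hst : s * t ≠ t * s) : Laws G ≤ AP q (Ab 2) := by
  have hsi : s⁻¹ = s := inv_eq_of_mul_eq_one_left hs
  have hti : t⁻¹ = t := inv_eq_of_mul_eq_one_left ht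
  have hz : s * (s * t) * s⁻¹ = (s * t)⁻¹ := by
    rw [mul_inv_rev, hsi, hti, ← mul_assoc, hs, one_mul]
  have hr : (((s * t) ^ 2) ^ q) = 1 := by rw [← pow_mul]; exact hexp _
  have hsr : s * (s * t) ^ 2 * s⁻¹ = ((s * t) ^ 2)⁻¹ := by
    rw [← conj_pow, hz, inv_pow]
  have hz2 : (s * t) ^ 2 ≠ 1 := by
    intro h
    apply hst
    rw [pow_two] at h
    have := eq_inv_of_mul_eq_one_left h
    rw [this, mul_inv_rev, hsi, hti]
  generalize hrd : (s * t) ^ 2 = r at *
  refine hig hq Nat.prime_two h2 (Subgroup.zpowers r) ?_ ?_ s ?_ (by rw [pow_two]; exact hs) r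
    (Subgroup.mem_zpowers r) ?_
  · rintro _ ⟨i, rfl⟩ _ ⟨j, rfl⟩
    simp only
    rw [← zpow_add, ← zpow_add, add_comm]
  · rintro _ ⟨i, rfl⟩
    simp only
    rw [← zpow_natCast, ← zpow_mul, mul_comm, zpow_mul, zpow_natCast, hr, one_zpow]
  · rintro _ ⟨i, rfl⟩
    simp only
    rw [← conj_zpow, hsr, inv_zpow]
    exact inv_mem (Subgroup.zpow_mem_zpowers r i)
  · intro h
    apply hz2
    have h1 : r = r⁻¹ := by rw [← hsr, h, mul_inv_cancel_right]
    have h3 : r ^ 2 = 1 := by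
      rw [pow_two]
      nth_rewrite 2 [h1]
      exact mul_inv_cancel r
    have h4 := pow_gcd_eq_one.2 ⟨hr, h3⟩
    have h5 : Nat.gcd q 2 = 1 := (Nat.coprime_primes hq Nat.prime_two).2 h2
    rwa [h5, pow_one] at h4

/-- A nonabelian group of exponent `2 q`, `q` an odd prime, in which involutions commute and whose
quotients of exponent `q` are abelian.

Proof. `E = {a | a * a = 1}` is a subgroup (by `hinv`), normal, abelian of exponent `2`. For every
`g`, `g ^ q ∈ E`, so `G ⧸ E` has exponent `q` and is commutative by `hab`. Claim: there are `y`, `a`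
with `y ^ q = 1`, `a ∈ E`, `y * a ≠ a * y`. Suppose not: all elements `y` with `y ^ q = 1`
centralise `E`. Every `g` is the product of `g ^ (q + 1)`, whose `q`-th power is `1`
(`(q + 1) * q` is divisible by `2 q`), and of `g ^ (- q) ∈ E`; so `E` is central (it is abelian). Let
`g`, `h` be elements; we show `g h = h g`. Since `E` is central, it suffices to show it for
`g' = g ^ (q + 1)`, `h' = h ^ (q + 1)`. The commutator `c = ⁅g', h'⁆` is in `E` (the quotient is
commutative), so it is central, hence `⁅g' ^ q, h'⁆ = c ^ q`; but `g' ^ q = 1`, so `c ^ q = 1`,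
and `c ^ 2 = 1`, so `c = 1` as `q` is odd. So `G` is commutative, a contradiction. Now apply
`hig` with `p = 2`, `q`, `E`, `y`, `a`. -/
theorem laws_le_U {q : ℕ} (hq : q.Prime) (h2 : q ≠ 2) {G : Type*} [Group G]
    (hexp : ∀ g : G, g ^ (2 * q) = 1)
    (hinv : ∀ s t : G, s * s = 1 → t * t = 1 → s * t = t * s)
    (hab : ∀ (N : Subgroup G) [N.Normal], (∀ g : G, g ^ q ∈ N) → ∀ g h : G, ⁅g, h⁆ ∈ N)
    (hne : ∃ g h : G, g * h ≠ h * g) : Laws G ≤ AP 2 (Ab q) := by
  let E : Subgroup G :=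
    { carrier := {a | a * a = 1}
      mul_mem' := by
        intro a b ha hb
        change a * a = 1 at ha
        change b * b = 1 at hb
        change a * b * (a * b) = 1
        have h1 : a * b * (a * b) = a * (b * a) * b := by group
        have h3 : a * (a * b) * b = (a * a) * (b * b) := by group
        rw [h1, ← hinv a b ha hb, h3, ha, hb, one_mul]
      one_mem' := one_mul 1
      inv_mem' := by
        intro a ha
        change a * a = 1 at ha
        change a⁻¹ * a⁻¹ = 1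
        rw [← mul_inv_rev, ha, inv_one] }
  have hE : ∀ a, a ∈ E ↔ a * a = 1 := fun a => Iff.rfl
  have hEn : E.Normal := by
    constructor
    intro a ha g
    rw [hE] at ha ⊢
    have h1 : g * a * g⁻¹ * (g * a * g⁻¹) = g * (a * a) * g⁻¹ := by group
    rw [h1, ha, mul_one, mul_inv_cancel]
  have hgq : ∀ g : G, g ^ q ∈ E := by
    intro g
    rw [hE, ← pow_add, ← two_mul]
    exact hexp g
  have hcommE := hab E hgq
  by_cases hcl : ∃ y a : G, y ^ q = 1 ∧ a ∈ E ∧ y * a ≠ a * y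
  · obtain ⟨y, a, hy, ha, hya⟩ := hcl
    exact hig Nat.prime_two hq h2.symm E (fun a ha b hb => hinv a b ha hb)
      (fun a ha => by rw [pow_two]; exact ha) y (fun a ha => hEn.conj_mem a ha y) hy a ha hya
  · exfalso
    push Not at hcl
    have hodd : Odd q := hq.odd_of_ne_two h2
    have hg' : ∀ g : G, (g ^ (q + 1)) ^ q = 1 := by
      intro g
      obtain ⟨k, hk⟩ := hodd
      have h1 : (q + 1) * q = 2 * q * (k + 1) := by
        have h4 : q + 1 = 2 * (k + 1) := by omega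
        rw [h4]; ring
      rw [← pow_mul, h1, pow_mul, hexp, one_pow]
    have hdec : ∀ g : G, g = g ^ (q + 1) * (g ^ q)⁻¹ := by
      intro g
      rw [pow_succ']
      group
    have hcen : ∀ a ∈ E, ∀ g : G, Commute g a := by
      intro a ha g
      rw [hdec g]
      exact Commute.mul_left (hcl _ a (hg' g) ha) (hinv _ _ (inv_mem (hgq g)) ha)
    obtain ⟨g, h, hgh⟩ := hne
    apply hgh
    have hc : Commute (g ^ (q + 1)) (h ^ (q + 1)) := by
      have hcE := hcommE (g ^ (q + 1)) (h ^ (q + 1))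
      have h1 : h ^ (q + 1) * (g ^ (q + 1))⁻¹ * (h ^ (q + 1))⁻¹ =
          (g ^ (q + 1))⁻¹ * ⁅g ^ (q + 1), h ^ (q + 1)⁆ := by
        rw [commutatorElement_def]; group
      have h3 : ⁅g ^ (q + 1), h ^ (q + 1)⁆ ^ q = 1 := by
        have h4 := congrArg (fun z => z ^ q) h1
        rw [conj_pow, inv_pow, hg' g, (hcen _ hcE _).mul_pow, inv_pow, hg' g, inv_one, mul_one,
          one_mul, mul_inv_cancel] at h4
        exact h4.symm
      have h5 : ⁅g ^ (q + 1), h ^ (q + 1)⁆ ^ 2 = 1 := by rw [pow_two]; exact hcE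
      have h6 := pow_gcd_eq_one.2 ⟨h3, h5⟩
      have h7 : Nat.gcd q 2 = 1 := (Nat.coprime_primes hq Nat.prime_two).2 h2
      rw [h7, pow_one, commutatorElement_eq_one_iff_mul_comm] at h6
      exact h6
    have hg2 := hcen _ (inv_mem (hgq g))
    have hh2 := hcen _ (inv_mem (hgq h))
    have hfin : Commute (g ^ (q + 1) * (g ^ q)⁻¹) (h ^ (q + 1) * (h ^ q)⁻¹) :=
      Commute.mul_left (hc.mul_right (hh2 _)) ((hg2 _).symm)
    rw [← hdec g, ← hdec h] at hfin
    exact hfin

end Pool.Agent.Lib.MP_4c5e24_al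
end
end
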