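import Pool.Agent.Lib.MP_4c5e24_al.Dq2
import Pool.Agent.Lib.MP_4c5e24_al.Lc

set_option autoImplicit false

/-!
RIG-MC: applications of the theorem on intersections.
-/

namespace Pool.Agent.Lib.MP_4c5e24_al

open scoped commutatorElement

theorem AP_mono {m n : ℕ} {X Y : FI} (hmn : m ∣ n) (h : X ≤ Y) : AP n X ≤ AP m Y :=
  apow_mono hmn h

/-- Proof. `≤`: let `w` be in all `AP q (Ab 2)`. Apply `mag_inf` with `m = 0`, `ι = Unit`,
`N = Ns = (Ab 2).1`, `κ = S`, `ms q = q`; an integer which is divisible by infinitely many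
natural numbers is `0`. `≥`: `AP_mono` (`q ∣ 0`). -/
theorem iInf_D {S : Set ℕ} (hS : S.Infinite) : ⨅ q : S, AP (q : ℕ) (Ab 2) = AP 0 (Ab 2) := by
  apply le_antisymm
  · intro w hw
    change w ∈ (⨅ q : S, AP (q : ℕ) (Ab 2)).1 at hw
    rw [mem_iInf] at hw
    obtain ⟨q0, hq0⟩ := hS.nonempty
    have : Nonempty S := ⟨⟨q0, hq0⟩⟩
    refine mag_inf (ι := Unit) (κ := S) 0 (Ab 2).1 (fun _ => (Ab 2).1) (fun q => (q : ℕ))
      (fun _ => le_refl _) (fun T hT => ⟨(), hT⟩) (fun j => dvd_zero _) ?_ w (fun _ q => hw q)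
    intro a ha
    have h0 : a = 0 := by
      by_contra hne
      obtain ⟨q, hq, hlt⟩ := hS.exists_gt a.natAbs
      have h1 : ((q : ℕ) : ℤ) ∣ a := ha ⟨q, hq⟩
      have h2 : q ∣ a.natAbs := Int.natCast_dvd.1 h1
      have h3 := Nat.le_of_dvd (Int.natAbs_pos.2 hne) h2
      omega
    rw [h0]
    exact dvd_zero _
  · refine le_iInf fun q => AP_mono (dvd_zero _) (le_refl _)

/-- Proof. `≤`: let `w` be in all `AP 2 (Ab q)`, `q ∈ S`. Apply `mag_inf` with `m = 2`,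
`κ = Unit`, `ms = 2`, `N = (Ab 0).1`, `ι = S`, `Ns q = (Ab q).1`. Separation: let `T` be a
finite set of words which are not in `Ab 0`; for `t ∈ T` there is an `i` with `ex i t ≠ 0`
(`mem_Ab`). Since `S` is infinite there is a `q ∈ S` larger than all the `|ex i t|` chosen; then
`q` does not divide `ex i t` and `t ∉ Ab q`. `≥`: `AP_mono`, `Ab0_le_Ab`. -/
theorem iInf_U {S : Set ℕ} (hS : S.Infinite) : ⨅ q : S, AP 2 (Ab (q : ℕ)) = AP 2 (Ab 0) := by
  classical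
  apply le_antisymm
  · intro w hw
    change w ∈ (⨅ q : S, AP 2 (Ab (q : ℕ))).1 at hw
    rw [mem_iInf] at hw
    refine mag_inf (ι := S) (κ := Unit) 2 (Ab 0).1 (fun q => (Ab (q : ℕ)).1) (fun _ => 2)
      (fun q => Ab0_le_Ab _) ?_ (fun _ => dvd_rfl) (fun a ha => ha ()) w (fun q _ => hw q)
    intro T hT
    have h1 : ∀ t : F, ∃ i : ℕ, t ∈ T → ex i t ≠ 0 := by
      intro t
      by_cases ht : t ∈ T
      · have h2 := hT t ht
        rw [mem_Ab] at h2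
        push Not at h2
        obtain ⟨i, hi⟩ := h2
        refine ⟨i, fun _ h3 => hi ?_⟩
        rw [h3]
        exact dvd_zero _
      · exact ⟨0, fun h => absurd h ht⟩
    choose i hi using h1
    obtain ⟨q, hq, hlt⟩ := hS.exists_gt (∑ t ∈ T, (ex (i t) t).natAbs)
    refine ⟨⟨q, hq⟩, fun t ht hmem => ?_⟩
    have h2 := (mem_Ab q t).1 hmem (i t)
    have h3 : q ∣ (ex (i t) t).natAbs := Int.natCast_dvd.1 h2
    have h4 := Nat.le_of_dvd (Int.natAbs_pos.2 (hi t ht)) h3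
    have h5 : (ex (i t) t).natAbs ≤ ∑ t ∈ T, (ex (i t) t).natAbs :=
      Finset.single_le_sum (f := fun t => (ex (i t) t).natAbs) (fun _ _ => Nat.zero_le _) ht
    omega
  · refine le_iInf fun q => AP_mono dvd_rfl (Ab0_le_Ab _)

/-- `X` is an intersection of `X ⊔ Bn m`, `m` odd: the relatively free groups of the variety are
residually of odd exponent. -/
def Res (X : FI) : Prop := ∀ w : F, (∀ m : ℕ, Odd m → w ∈ (X ⊔ Bn m).1) → w ∈ X.1

/-- For `X` with `Res X` the finite subsets of the complement are separated.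

Proof: for `t ∈ T` choose an odd `m t` with `t ∉ X ⊔ Bn (m t)`; the product `m` of the `m t` is
odd and `Bn m ≤ Bn (m t)` (`Bn_le_Bn`). -/
theorem Res.sep {X : FI} (h : Res X) (T : Finset F) (hT : ∀ t ∈ T, t ∉ X.1) :
    ∃ m : ℕ, Odd m ∧ ∀ t ∈ T, t ∉ (X ⊔ Bn m).1 := by
  classical
  have h1 : ∀ t : F, ∃ m : ℕ, Odd m ∧ (t ∈ T → t ∉ (X ⊔ Bn m).1) := by
    intro t
    by_cases ht : t ∈ T
    · by_contra hall
      push Not at hall
      exact hT t ht (h t fun m hm => (hall m hm).2)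
    · exact ⟨1, odd_one, fun h => absurd h ht⟩
  choose m hm hmt using h1
  refine ⟨∏ t ∈ T, m t, ?_, fun t ht hmem => hmt t ht ?_⟩
  · exact Finset.prod_induction _ Odd (fun _ _ => Odd.mul) odd_one (fun t _ => hm t)
  · exact (sup_le_sup_left (Bn_le_Bn.2 (Finset.dvd_prod_of_mem m ht)) X :
      X ⊔ Bn (∏ t ∈ T, m t) ≤ X ⊔ Bn (m t)) hmem

/-- Proof: `mag_inf` with `m = 0`, `κ = ℕ`, `ms k = 2 ^ k`, `N = X.1`, `ι` the odd numbers,
`Ns n = (X ⊔ Bn n).1` (`Res.sep`). An integer which is divisible by all `2 ^ k` is `0`. -/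
theorem Res.mem_AP0 {X : FI} (h : Res X) {w : F}
    (hw : ∀ k m : ℕ, Odd m → w ∈ (AP (2 ^ k) (X ⊔ Bn m)).1) : w ∈ (AP 0 X).1 := by
  refine mag_inf (ι := {n : ℕ // Odd n}) (κ := ℕ) 0 X.1 (fun n => (X ⊔ Bn n.1).1)
    (fun k => 2 ^ k) (fun n => (le_sup_left : X ≤ X ⊔ Bn n.1)) ?_ (fun _ => dvd_zero _) ?_ w
    (fun n k => hw k n.1 n.2)
  · intro T hT
    obtain ⟨m, hm, hmT⟩ := h.sep T hT
    exact ⟨⟨m, hm⟩, hmT⟩
  · intro a ha
    have h0 : a = 0 := by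
      by_contra hne
      have h1 : (((2 ^ a.natAbs : ℕ) : ℕ) : ℤ) ∣ a := ha a.natAbs
      have h2 : 2 ^ a.natAbs ∣ a.natAbs := Int.natCast_dvd.1 h1
      have h3 := Nat.le_of_dvd (Int.natAbs_pos.2 hne) h2
      have h4 : a.natAbs < 2 ^ a.natAbs := Nat.lt_two_pow_self
      omega
    rw [h0]
    exact dvd_zero _

/-- Proof: let `w ∈ AP 0 X ⊔ Bn m` for all odd `m`. For odd `m`, `n` we have
`AP 0 X ⊔ Bn (n * m) ≤ AP m (X ⊔ Bn n)`: `AP 0 X ≤ AP m (X ⊔ Bn n)` by `AP_mono`, and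
`g ^ (n * m) = (g ^ n) ^ m` with `g ^ n ∈ X ⊔ Bn n`. So `w ∈ AP m (X ⊔ Bn n)` for all odd `m`,
`n`. Apply `mag_inf` with `m = 0`, `κ = ι` the odd numbers, `ms m = m`, `Ns n = (X ⊔ Bn n).1`
(`Res.sep`). -/
theorem Res.AP0 {X : FI} (h : Res X) : Res (AP 0 X) := by
  intro w hw
  have key : ∀ m n : ℕ, AP 0 X ⊔ Bn (n * m) ≤ AP m (X ⊔ Bn n) := by
    intro m n
    refine sup_le (AP_mono (dvd_zero _) le_sup_left) ?_
    rw [Bn_le']
    intro g
    rw [pow_mul]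
    exact pow_mem_AP ((le_sup_right : Bn n ≤ X ⊔ Bn n) (pow_mem_Bn n g))
  have : Nonempty {n : ℕ // Odd n} := ⟨⟨1, odd_one⟩⟩
  refine mag_inf (ι := {n : ℕ // Odd n}) (κ := {n : ℕ // Odd n}) 0 X.1
    (fun n => (X ⊔ Bn n.1).1) (fun m => m.1) (fun n => (le_sup_left : X ≤ X ⊔ Bn n.1)) ?_
    (fun _ => dvd_zero _) ?_ w
    (fun n m => key m.1 n.1 (hw _ (n.2.mul m.2)))
  · intro T hT
    obtain ⟨m, hm, hmT⟩ := h.sep T hT
    exact ⟨⟨m, hm⟩, hmT⟩
  · intro a ha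
    have h0 : a = 0 := by
      by_contra hne
      have h1 : ((2 * a.natAbs + 1 : ℕ) : ℤ) ∣ a := ha ⟨2 * a.natAbs + 1, ⟨a.natAbs, rfl⟩⟩
      have h2 : 2 * a.natAbs + 1 ∣ a.natAbs := Int.natCast_dvd.1 h1
      have h3 := Nat.le_of_dvd (Int.natAbs_pos.2 hne) h2
      omega
    rw [h0]
    exact dvd_zero _

/-- Proof: for odd `m`, `Ab 0 ⊔ Bn m = Ab m` (`Bn_sup_Ab`); if `w` is in all `Ab m`, `m` odd, then
its exponent sums are divisible by all odd numbers and vanish (`mem_Ab`). -/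
theorem Res_Ab0 : Res (Ab 0) := by
  intro w hw
  rw [mem_Ab]
  intro i
  have h0 : ex i w = 0 := by
    by_contra hne
    have h1 := hw (2 * (ex i w).natAbs + 1) ⟨_, rfl⟩
    rw [sup_comm, Bn_sup_Ab, mem_Ab] at h1
    have h2 : 2 * (ex i w).natAbs + 1 ∣ (ex i w).natAbs := Int.natCast_dvd.1 (h1 i)
    have h3 := Nat.le_of_dvd (Int.natAbs_pos.2 hne) h2
    omega
  rw [h0]
  exact dvd_zero _

end Pool.Agent.Lib.MP_4c5e24_al
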