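import Pool.Agent.Lib.MP_4c5e24_al.Lin2
import Pool.Agent.Lib.MP_4c5e24_al.Dq2
import Pool.Agent.Lib.MP_4c5e24_al.MagCor

section

set_option autoImplicit false

/-!
RIG-RED: reduction modulo infinitely many primes.
-/

namespace Pool.Agent.Lib.MP_4c5e24_al

open scoped commutatorElement
open MvPolynomial

/-- A truncated integral polynomial which vanishes modulo infinitely many primes is zero.

The ring homomorphism `Tr ℤ c →+* Tr (ZMod p) c` is
`ev (R := ℤ) (Jd_pow (ZMod p) c) (tv (ZMod p) c) (tv_mem (ZMod p) c)`.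

Proof. Let `P : MvPolynomial ℕ ℤ` represent `a`. By `mem_idv_pow` it suffices that the
coefficients of `P` at the monomials `μ` of degree less than `c` vanish. The image of `a` is the
class of the reduction of `P` modulo `p` (`ev_mk`; `aeval (tv ..)` of `P` is the class of
`MvPolynomial.map (Int.castRingHom (ZMod p)) P`; check on `C` and `X`), so the reduction is in
`(idv (ZMod p)) ^ c` and by `coeff_idv_pow` the coefficient of `P` at `μ` is divisible by `p`, for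
infinitely many `p`; so it is `0`. -/
theorem tr_red {c : ℕ} {S : Set ℕ} (hS : S.Infinite) (a : Tr ℤ c)
    (h : ∀ p ∈ S, ev (R := ℤ) (Jd_pow (ZMod p) c) (tv (ZMod p) c) (tv_mem (ZMod p) c) a = 0) :
    a = 0 := by
  obtain ⟨P, rfl⟩ := Ideal.Quotient.mk_surjective a
  rw [Ideal.Quotient.eq_zero_iff_mem]
  apply mem_idv_pow
  intro μ hμ
  have h1 : ∀ p ∈ S, (p : ℤ) ∣ P.coeff μ := by
    intro p hp
    have h2 := h p hp
    rw [ev_mk] at h2
    have h3 : (aeval (tv (ZMod p) c) P : Tr (ZMod p) c) =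
        Ideal.Quotient.mk ((idv (ZMod p)) ^ c)
          (MvPolynomial.map (Int.castRingHom (ZMod p)) P) := by
      have h4 : (aeval (tv (ZMod p) c) : MvPolynomial ℕ ℤ →ₐ[ℤ] Tr (ZMod p) c).toRingHom =
          (Ideal.Quotient.mk ((idv (ZMod p)) ^ c)).comp
            (MvPolynomial.map (Int.castRingHom (ZMod p))) := by
        apply MvPolynomial.ringHom_ext
        · intro r
          simp
        · intro i
          simp [tv]
      exact congrArg (fun f : MvPolynomial ℕ ℤ →+* Tr (ZMod p) c => f P) h4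
    rw [h3, Ideal.Quotient.eq_zero_iff_mem] at h2
    have h4 := coeff_idv_pow h2 hμ
    rw [coeff_map] at h4
    exact (ZMod.intCast_zmod_eq_zero_iff_dvd _ _).1 h4
  by_contra hne
  obtain ⟨p, hp, hlt⟩ := hS.exists_gt (P.coeff μ).natAbs
  apply hne
  apply Int.eq_zero_of_abs_lt_dvd (h1 p hp)
  rw [Int.abs_eq_natAbs]
  exact_mod_cast hlt

/-- Proof. By `th_univ` with `R = ℤ`, `Λ = Tr (ZMod p) c`, `M = (ℕ →₀ Tr (ZMod p) c)`,
`s = tv (ZMod p) c`, `E j = Finsupp.single j 1`, `f = th (ZMod p) c`, the components of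
`(th (ZMod p) c w).m` are the images of the components of `(th ℤ c w).m`, and the group part is the
image of the group part. Apply `tr_red` to the components of the module part and to the
group part minus `1` (`ev` maps `1` to `1`). -/
theorem th_red {c : ℕ} {S : Set ℕ} (hS : S.Infinite) {w : F}
    (h : ∀ p ∈ S, th (ZMod p) c w = 1) : th ℤ c w = 1 := by
  have key : ∀ p ∈ S,
      (∀ j, ev (R := ℤ) (Jd_pow (ZMod p) c) (tv (ZMod p) c) (tv_mem (ZMod p) c)
        ((th ℤ c w).m j) = 0) ∧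
      ev (R := ℤ) (Jd_pow (ZMod p) c) (tv (ZMod p) c) (tv_mem (ZMod p) c)
        ((((th ℤ c w).f : (Tr ℤ c)ˣ) : Tr ℤ c) - 1) = 0 := by
    intro p hp
    obtain ⟨h1, h2⟩ := th_univ (R := ℤ) (Λ := Tr (ZMod p) c) (M := ℕ →₀ Tr (ZMod p) c)
      (J := Jd (ZMod p) c) (Jd_pow (ZMod p) c) (tv (ZMod p) c) (tv_mem (ZMod p) c)
      (fun j => Finsupp.single j 1) (th (ZMod p) c)
      (fun j => by rw [th_x]) (fun j => by rw [th_x]; rfl) w
    rw [h p hp] at h1 h2
    constructor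
    · intro j
      have h3 := congrArg (fun v : ℕ →₀ Tr (ZMod p) c => v j) h1
      simp only [Sd.one_m, Finsupp.sum, Finsupp.coe_zero, Pi.zero_apply, Finsupp.finsetSum_apply,
        Finsupp.smul_apply, smul_eq_mul] at h3
      rw [Finset.sum_eq_single j] at h3
      · rw [Finsupp.single_eq_same, mul_one] at h3
        exact h3.symm
      · intro b _ hb
        rw [Finsupp.single_eq_of_ne (Ne.symm hb), mul_zero]
      · intro hj
        rw [Finsupp.notMem_support_iff.1 hj, map_zero, zero_mul]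
    · rw [map_sub, map_one, ← h2]
      simp
  apply Sd.ext
  · ext1 j
    exact tr_red hS _ (fun p hp => (key p hp).1 j)
  · apply Subtype.ext
    apply Units.ext
    have := tr_red hS _ (fun p hp => (key p hp).2)
    simpa using sub_eq_zero.1 this

/-- The free metabelian groups of class `c` are residually of exponent `p`, for infinitely many
primes `p`.

Proof. Let `S' = {p ∈ S | c < p}`, an infinite set. For `p ∈ S'` the group
`TG (Jd (ZMod p) c) (ℕ →₀ Tr (ZMod p) c)` satisfies `MN c ⊔ Bn p` (`TG_class`, `TG_exp`,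
`Jd_pow`; `(p : Tr (ZMod p) c) = 0`), so `th (ZMod p) c w = 1`. By `th_red` and `th_inj`,
`w ∈ MN c`. -/
theorem MN_res {c : ℕ} (hc : 1 ≤ c) {S : Set ℕ} (hS : S.Infinite) (hp : ∀ p ∈ S, p.Prime)
    {w : F} (h : ∀ p ∈ S, w ∈ (MN c ⊔ Bn p).1) : w ∈ (MN c).1 := by
  have hS' : {p ∈ S | c < p}.Infinite := by
    have h1 := hS.sdiff (Set.finite_Iic c)
    refine h1.mono ?_
    rintro p ⟨hp1, hp2⟩
    exact ⟨hp1, by simpa using hp2⟩
  apply th_inj hc
  apply th_red hS'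
  rintro p ⟨hpS, hcp⟩
  have hpΛ : (p : Tr (ZMod p) c) = 0 := by
    rw [← map_natCast (algebraMap (ZMod p) (Tr (ZMod p) c)) p, ZMod.natCast_self, map_zero]
  have h1 : MN c ⊔ Bn p ≤ Laws (TG (Jd (ZMod p) c) (ℕ →₀ Tr (ZMod p) c)) :=
    sup_le (TG_class hc (Jd_pow (ZMod p) c))
      (TG_exp (hp p hpS) hpΛ (Jd_pow (ZMod p) c) hcp)
  exact (h1 (h p hpS)) (th (ZMod p) c)

end Pool.Agent.Lib.MP_4c5e24_al
end

section

set_option autoImplicit false

/-!
RIG-BETA: a fully invariant subgroup between `MN (c + 1)` and `MN c`.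
-/

namespace Pool.Agent.Lib.MP_4c5e24_al

open scoped commutatorElement
open MvPolynomial

/-- Proof. Let `K` be the additive subgroup of all `L` such that `IsLead c L w` for some `w ∈ H`
(`IsLead.mul`, `IsLead.inv`, and `IsLead c 0 1`). Let `w ∈ H`, `w ∉ MN (c + 1)`; it has a leading
term `L` (`exists_lead`, `h1`), and `L ≠ 0` by `IsLead.mem`. The hypotheses of `lin2` hold
(`IsLead.subE`, `FI.map_mem`), so `N • ml c β ∈ K` with `N ≠ 0`: there is `w' ∈ H` with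
`IsLead c (N • ml c β) w'`. By `lead_lc` and `IsLead.mul` (induction on `N`),
`IsLead c ((-1) ^ (c - 1) • N • ml c β) ((lc x c) ^ N)`. So one of `w' * (lc x c) ^ N` and
`w'⁻¹ * (lc x c) ^ N` has leading term `0`, and it is in `MN (c + 1)` (`IsLead.mem`). Hence
`(lc x c) ^ N ∈ H ⊔ MN (c + 1)`. -/
theorem beta {c : ℕ} (hc : 1 ≤ c) {H : FI} (h1 : H ≤ MN c) (h2 : ¬ H ≤ MN (c + 1)) :
    ∃ N : ℕ, N ≠ 0 ∧ (lc x c) ^ N ∈ (H ⊔ MN (c + 1)).1 := by
  have hone : IsLead c 0 (1 : F) := by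
    obtain ⟨L, hL⟩ := exists_lead hc (MN c).1.one_mem
    have h := hL.mul hL.inv
    rwa [add_neg_cancel, mul_inv_cancel] at h
  let K : AddSubgroup (ℕ →₀ MvPolynomial ℕ ℤ) :=
    { carrier := {L | ∃ w ∈ H.1, IsLead c L w}
      zero_mem' := ⟨1, H.1.one_mem, hone⟩
      add_mem' := by
        rintro L L' ⟨w, hw, hL⟩ ⟨w', hw', hL'⟩
        exact ⟨w * w', H.1.mul_mem hw hw', hL.mul hL'⟩
      neg_mem' := by
        rintro L ⟨w, hw, hL⟩
        exact ⟨w⁻¹, H.1.inv_mem hw, hL.inv⟩ }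
  have hK : ∀ L, L ∈ K ↔ ∃ w ∈ H.1, IsLead c L w := fun L => Iff.rfl
  rw [le_def] at h2
  push Not at h2
  obtain ⟨w, hw, hw'⟩ := h2
  obtain ⟨L, hL⟩ := exists_lead hc (h1 hw)
  have hL0 : L ≠ 0 := by
    rintro rfl
    exact hw' hL.mem
  obtain ⟨N, hN, hNK⟩ := lin2 hc K (fun v hv => by
      obtain ⟨w, _, h⟩ := (hK v).1 hv
      exact h.1) (fun v hv => by
      obtain ⟨w, _, h⟩ := (hK v).1 hv
      exact h.2.1) (fun v hv B => by
      obtain ⟨w, hw, h⟩ := (hK v).1 hv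
      exact (hK _).2 ⟨subE B w, H.map_mem _ hw, h.subE B⟩) ((hK L).2 ⟨w, hw, hL⟩) hL0
  obtain ⟨w', hw'H, hw'L⟩ := (hK _).1 hNK
  refine ⟨N, hN, ?_⟩
  have hpow : ∀ (n : ℕ) (L : ℕ →₀ MvPolynomial ℕ ℤ) (g : F), IsLead c L g → IsLead c (n • L) (g ^ n) := by
    intro n L g h
    induction n with
    | zero =>
      rw [zero_nsmul, pow_zero]
      exact hone
    | succ n ih =>
      rw [succ_nsmul, pow_succ]
      exact ih.mul h
  have hl := hpow N _ _ (lead_lc hc)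
  rw [mem_sup]
  rcases neg_one_pow_eq_or ℤ (c - 1) with h0 | h0
  · rw [h0, one_smul] at hl
    have h3 := hw'L.inv.mul hl
    rw [neg_add_cancel] at h3
    exact ⟨w', hw'H, _, h3.mem, mul_inv_cancel_left _ _⟩
  · rw [h0, neg_one_smul, smul_neg] at hl
    have h3 := hw'L.mul hl
    rw [add_neg_cancel] at h3
    exact ⟨w'⁻¹, H.1.inv_mem hw'H, _, h3.mem, inv_mul_cancel_left _ _⟩

end Pool.Agent.Lib.MP_4c5e24_al
end

section

set_option autoImplicit false

/-!
RIG-D2b: the minimal nonabelian varieties of exponent `2 q` whose groups of exponent `q` are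
abelian.
-/

namespace Pool.Agent.Lib.MP_4c5e24_al

open scoped commutatorElement

/-- `H` is the set of the laws of a nonabelian variety whose abelian groups are those of exponent
`2 q` and whose groups of exponent `q` are abelian. -/
def Sq (q : ℕ) (H : FI) : Prop := H ⊔ Ab 0 = Ab (2 * q) ∧ H ⊔ Bn q = Ab q ∧ H ≠ Ab (2 * q)

/-- Proof: `AP_Ab_sup_Ab0`, `AP_sup_Bn` (with `m = q`, `n = 2`, `Bn 2 ≤ Ab 2`), and
`AP q (Ab 2) ≠ Ab (2 * q)` because otherwise `Ab 0 ≤ AP q (Ab 2)`, so the noncommuting elements of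
`dihedral_test` would commute (`⁅x 0, x 1⁆ ∈ Ab 0`). -/
theorem Sq_D {q : ℕ} (hq : q.Prime) (h2 : q ≠ 2) : Sq q (AP q (Ab 2)) := by
  refine ⟨?_, AP_sup_Bn ((Nat.coprime_primes hq Nat.prime_two).2 h2) (Bn_le_Ab 2), fun h => ?_⟩
  · rw [AP_Ab_sup_Ab0, mul_comm]
  · obtain ⟨G, _, s, t, h1, -, -, hst⟩ := dihedral_test hq h2
    have hw : ⁅x 0, x 1⁆ ∈ (Ab 0).1 := by
      rw [mem_Ab]
      intro i
      rw [ex_comm]
      exact dvd_zero _
    have h4 : Ab 0 ≤ AP q (Ab 2) := by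
      rw [h]
      exact Ab0_le_Ab _
    have h3 := h1 (h4 hw) (FreeGroup.lift fun i => if i = 0 then s else t)
    rw [map_commutatorElement, FreeGroup.lift_apply_of, FreeGroup.lift_apply_of, if_pos rfl,
      if_neg (by norm_num), commutatorElement_eq_one_iff_mul_comm] at h3
    exact hst h3

/-- Proof: `AP_Ab_sup_Ab0`, `AP_Ab_sup_Bn`, and `AP 2 (Ab q) ≠ Ab (2 * q)` because otherwise
`AP 0 (Ab 2) ≤ Ab 0 ≤ AP 2 (Ab q)`, against `not_AP0_le_U`. -/
theorem Sq_U {q : ℕ} (hq : q.Prime) (h2 : q ≠ 2) : Sq q (AP 2 (Ab q)) := by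
  refine ⟨AP_Ab_sup_Ab0 2 q, AP_Ab_sup_Bn ((Nat.coprime_primes Nat.prime_two hq).2 h2.symm),
    fun h => ?_⟩
  have h4 : Ab 0 ≤ AP 2 (Ab q) := by
    rw [h]
    exact Ab0_le_Ab _
  refine not_AP0_le_U hq h2 (le_trans ?_ h4)
  refine AP_le.2 ⟨fun h _ => ?_, fun h _ k _ => ?_⟩
  · rw [pow_zero]
    exact one_mem _
  · rw [mem_Ab]
    intro i
    rw [ex_comm]
    exact dvd_zero _

/-- The laws of a group are laws of its quotients. -/
private theorem dq2b_quot {G : Type*} [Group G] (N : Subgroup G) [N.Normal] :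
    Laws G ≤ Laws (G ⧸ N) := by
  intro w hw f
  let φ : F →* G := FreeGroup.lift fun i => (f (x i)).out
  have h1 : (QuotientGroup.mk' N).comp φ = f := by
    apply FreeGroup.ext_hom
    intro i
    rw [MonoidHom.comp_apply, FreeGroup.lift_apply_of, QuotientGroup.mk'_apply]
    exact QuotientGroup.out_eq' _
  rw [← h1, MonoidHom.comp_apply, hw φ, map_one]

/-- Proof. Let `G = F ⧸ H.1`, `Laws G = H` (`Laws_quot`). `Bn (2 * q) ≤ H` by `Bn_le_iff`, so `G`
has exponent `2 q`. If there are `s`, `t` with `s * s = t * t = 1`, `s * t ≠ t * s`, use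
`laws_le_D`. Otherwise use `laws_le_U`: if `N` is a normal subgroup of `G` which contains all
`g ^ q`, then `G ⧸ N` satisfies `H` and `Bn q`, hence `H ⊔ Bn q = Ab q ≥ Ab 0 ∋ ⁅x 0, x 1⁆`, so all
commutators are in `N` (compose with the homomorphism `F → G → G ⧸ N`, `x 0 ↦ g`, `x 1 ↦ h`); `G` is
not commutative: otherwise `Ab 0 ≤ H` (`Ab0_eq`, `Subgroup.commutator_le`) and
`H = H ⊔ Ab 0 = Ab (2 * q)`. -/
theorem Sq_le {q : ℕ} (hq : q.Prime) (h2 : q ≠ 2) {H : FI} (h : Sq q H) :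
    H ≤ AP q (Ab 2) ∨ H ≤ AP 2 (Ab q) := by
  obtain ⟨s1, s2, s3⟩ := h
  have hexp : ∀ g : F ⧸ H.1, g ^ (2 * q) = 1 := by
    intro g
    obtain ⟨w, rfl⟩ := QuotientGroup.mk'_surjective H.1 g
    rw [← map_pow]
    exact (QuotientGroup.eq_one_iff _).2 (Bn_le'.1 (Bn_le_iff.2 s1.ge) w)
  by_cases hcase : ∃ s t : F ⧸ H.1, s * s = 1 ∧ t * t = 1 ∧ s * t ≠ t * s
  · obtain ⟨s, t, hs, ht, hst⟩ := hcase
    left
    rw [← Laws_quot H]
    exact laws_le_D hq h2 hexp s t hs ht hst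
  · push Not at hcase
    right
    rw [← Laws_quot H]
    refine laws_le_U hq h2 hexp hcase ?_ ?_
    · intro N _ hN g h
      have hw : ⁅x 0, x 1⁆ ∈ (H ⊔ Bn q).1 := by
        rw [s2, mem_Ab]
        intro i
        rw [ex_comm]
        exact dvd_zero _
      have hle : H ⊔ Bn q ≤ Laws ((F ⧸ H.1) ⧸ N) := by
        refine sup_le ?_ (Bn_le.2 fun f => ?_)
        · have h3 := dq2b_quot N
          rw [Laws_quot H] at h3
          exact h3
        · rw [map_pow]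
          obtain ⟨y, hy⟩ := QuotientGroup.mk'_surjective N (f (x 0))
          rw [← hy, ← map_pow]
          exact (QuotientGroup.eq_one_iff _).2 (hN y)
      have h3 := hle hw ((QuotientGroup.mk' N).comp (FreeGroup.lift fun i => if i = 0 then g else h))
      rw [MonoidHom.comp_apply, map_commutatorElement, FreeGroup.lift_apply_of,
        FreeGroup.lift_apply_of, if_pos rfl, if_neg (by norm_num)] at h3
      exact (QuotientGroup.eq_one_iff _).1 h3
    · by_contra hcon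
      push Not at hcon
      apply s3
      have h0 : Ab 0 ≤ H := by
        show (Ab 0).1 ≤ H.1
        rw [Ab0_eq, _root_.commutator_def, Subgroup.commutator_le]
        intro a _ b _
        rw [← QuotientGroup.eq_one_iff]
        have h5 : (QuotientGroup.mk' H.1) ⁅a, b⁆ = 1 := by
          rw [map_commutatorElement, commutatorElement_eq_one_iff_mul_comm]
          exact hcon _ _
        exact h5
      rw [← s1]
      exact (sup_eq_left.2 h0).symm

/-- Proof: `e` is an order isomorphism, so it preserves joins; `map_Ab0`, `Adm.ab`, `Adm.bn` and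
`π (2 * q) = 2 * π q` (`DvdAut.two_mul`, `q` odd). -/
theorem Sq_map {e : FI ≃o FI} {π : ℕ ≃ ℕ} (h : Adm e π) {q : ℕ} (hq : q.Prime) (h2 : q ≠ 2)
    {H : FI} : Sq (π q) (e H) ↔ Sq q H := by
  unfold Sq
  have h3 : 2 * π q = π (2 * q) := (h.dvd.two_mul h.two (hq.odd_of_ne_two h2)).symm
  rw [h3, ← h.ab, ← h.ab, ← h.bn, ← e.map_sup]
  have h4 : e H ⊔ Ab 0 = e (H ⊔ Ab 0) := by
    rw [e.map_sup, map_Ab0]
  rw [h4]
  simp only [EmbeddingLike.apply_eq_iff_eq, ne_eq]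

/-- Proof. Write `D = AP q (Ab 2)`, `U = AP 2 (Ab q)`, `q' = π q` (an odd prime,
`Adm.oddPrime`), `D'`, `U'` the same for `q'`. `e D` satisfies `Sq q'` (`Sq_map`), so `e D ≤ D'` or
`e D ≤ U'` (`Sq_le`). Let `T` be this one of `D'`, `U'`. `e.symm T` satisfies `Sq q`, so
`e.symm T ≤ D` or `e.symm T ≤ U`. We have `D ≤ e.symm T`. In the first case `e.symm T = D`,
`e D = T`. In the second case `D ≤ U`; impossible since `AP 0 (Ab 2) ≤ D` (`apow_mono` or
`AP_le`) and `not_AP0_le_U`. -/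
theorem map_D_or {e : FI ≃o FI} {π : ℕ ≃ ℕ} (h : Adm e π) {q : ℕ} (hq : q.Prime) (h2 : q ≠ 2) :
    e (AP q (Ab 2)) = AP (π q) (Ab 2) ∨ e (AP q (Ab 2)) = AP 2 (Ab (π q)) := by
  obtain ⟨hp, hp2⟩ := h.oddPrime hq h2
  have key : ∀ T : FI, Sq (π q) T → e (AP q (Ab 2)) ≤ T → e (AP q (Ab 2)) = T := by
    intro T hT hle
    have h3 : AP q (Ab 2) ≤ e.symm T := by
      rw [← e.le_iff_le, OrderIso.apply_symm_apply]
      exact hle
    have h4 : Sq q (e.symm T) := by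
      rw [← Sq_map h hq h2, OrderIso.apply_symm_apply]
      exact hT
    rcases Sq_le hq h2 h4 with h5 | h5
    · rw [le_antisymm h3 h5, OrderIso.apply_symm_apply]
    · exfalso
      refine not_AP0_le_U hq h2 (le_trans ?_ (h3.trans h5))
      refine AP_le.2 ⟨fun w _ => ?_, fun w hw k hk => comm_mem_AP hw hk⟩
      rw [pow_zero]
      exact one_mem _
  have h6 : Sq (π q) (e (AP q (Ab 2))) := (Sq_map h hq h2).2 (Sq_D hq h2)
  rcases Sq_le hp hp2 h6 with h7 | h7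
  · exact Or.inl (key _ (Sq_D hp hp2) h7)
  · exact Or.inr (key _ (Sq_U hp hp2) h7)

end Pool.Agent.Lib.MP_4c5e24_al
end

section

set_option autoImplicit false

/-!
RIG-D3: the varieties `A_q A_2` and `A_2 A_q` are distinguished by the lattice.
-/

namespace Pool.Agent.Lib.MP_4c5e24_al

open scoped commutatorElement

/-- The property which distinguishes `A A_2` and `A_2 A`. -/
def PW (W : FI) : Prop := ∀ q r : ℕ, q.Prime → r.Prime → q ≠ 2 → r ≠ 2 → q ≠ r →
  (W ⊔ Bn (2 * q)) ⊓ (W ⊔ Bn (2 * r)) ≤ W ⊔ Bn (2 * (q * r))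

theorem dq3_comm {b c : F} (hb : b ∈ (Ab 2).1) (hc : c ∈ (Ab 2).1) :
    Commute (QuotientGroup.mk' (AP 0 (Ab 2)).1 b) (QuotientGroup.mk' (AP 0 (Ab 2)).1 c) := by
  have h := comm_mem_AP (m := 0) hb hc
  have h1 : ⁅QuotientGroup.mk' (AP 0 (Ab 2)).1 b, QuotientGroup.mk' (AP 0 (Ab 2)).1 c⁆ = 1 := by
    rw [← map_commutatorElement, QuotientGroup.mk'_apply, QuotientGroup.eq_one_iff]
    exact h
  exact commutatorElement_eq_one_iff_commute.1 h1

theorem dq3_iff {a b : F} : QuotientGroup.mk' (AP 0 (Ab 2)).1 a = QuotientGroup.mk' (AP 0 (Ab 2)).1 b ↔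
    a⁻¹ * b ∈ (AP 0 (Ab 2)).1 := by
  rw [QuotientGroup.mk'_apply, QuotientGroup.mk'_apply, QuotientGroup.eq]

/-- the classes of the `q`-th powers of the elements of `Ab 2` -/
def dq3K (q : ℕ) : FI :=
  ⟨{ carrier := {w | ∃ b ∈ (Ab 2).1, QuotientGroup.mk' (AP 0 (Ab 2)).1 w =
        QuotientGroup.mk' (AP 0 (Ab 2)).1 (b ^ q)}
     mul_mem' := by
      rintro w w' ⟨b, hb, hw⟩ ⟨b', hb', hw'⟩
      refine ⟨b * b', mul_mem hb hb', ?_⟩
      rw [map_mul, hw, hw', map_pow, map_pow, map_pow, map_mul, (dq3_comm hb hb').mul_pow]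
     one_mem' := ⟨1, one_mem _, by rw [one_pow]⟩
     inv_mem' := by
      rintro w ⟨b, hb, hw⟩
      refine ⟨b⁻¹, inv_mem hb, ?_⟩
      rw [map_inv, hw, inv_pow, map_inv] }, fi_of fun φ w hw => by
      obtain ⟨b, hb, hw⟩ := hw
      refine ⟨φ b, (Ab 2).map_mem φ hb, ?_⟩
      rw [dq3_iff] at hw ⊢
      have h1 := (AP 0 (Ab 2)).map_mem φ hw
      rwa [map_mul, map_inv, map_pow] at h1⟩

theorem dq3_sq (g : F) : g ^ 2 ∈ (Ab 2).1 := Bn_le_Ab 2 (pow_mem_Bn 2 g)

theorem dq3_le (q : ℕ) : AP 0 (Ab 2) ⊔ Bn (2 * q) ≤ dq3K q := by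
  refine sup_le ?_ ?_
  · intro w hw
    refine ⟨1, one_mem _, ?_⟩
    rw [one_pow, dq3_iff, mul_one]
    exact inv_mem hw
  · rw [Bn_le']
    intro g
    exact ⟨g ^ 2, dq3_sq g, by rw [← pow_mul]⟩

/-- the elements of `Ab 2` whose `n`-th powers are in the join -/
def dq3L (n : ℕ) : FI :=
  ⟨{ carrier := {b | b ∈ (Ab 2).1 ∧ b ^ n ∈ (AP 0 (Ab 2) ⊔ Bn (2 * n)).1}
     mul_mem' := by
      rintro b b' ⟨hb, h⟩ ⟨hb', h'⟩
      refine ⟨mul_mem hb hb', ?_⟩
      have h1 : QuotientGroup.mk' (AP 0 (Ab 2)).1 ((b * b') ^ n) =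
          QuotientGroup.mk' (AP 0 (Ab 2)).1 (b ^ n * b' ^ n) := by
        rw [map_mul, map_pow, map_pow, map_pow, map_mul, (dq3_comm hb hb').mul_pow]
      have h2 := inv_mem (dq3_iff.1 h1)
      have h3 : (AP 0 (Ab 2)).1 ≤ (AP 0 (Ab 2) ⊔ Bn (2 * n)).1 :=
        (le_sup_left : AP 0 (Ab 2) ≤ AP 0 (Ab 2) ⊔ Bn (2 * n))
      have h4 := mul_mem (mul_mem h h') (h3 h2)
      have h5 : b ^ n * b' ^ n * (((b * b') ^ n)⁻¹ * (b ^ n * b' ^ n))⁻¹ = (b * b') ^ n := by group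
      rwa [h5] at h4
     one_mem' := ⟨one_mem _, by rw [one_pow]; exact one_mem _⟩
     inv_mem' := by
      rintro w ⟨hw, hw'⟩
      exact ⟨inv_mem hw, by rw [inv_pow]; exact inv_mem hw'⟩ }, fi_of fun φ w hw =>
      ⟨(Ab 2).map_mem φ hw.1, by
        have h1 := (AP 0 (Ab 2) ⊔ Bn (2 * n)).map_mem φ hw.2
        rwa [map_pow] at h1⟩⟩

theorem dq3_pow (n : ℕ) {b : F} (hb : b ∈ (Ab 2).1) : b ^ n ∈ (AP 0 (Ab 2) ⊔ Bn (2 * n)).1 := by
  have h1 : Bn 2 ≤ dq3L n := by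
    rw [Bn_le']
    intro g
    refine ⟨dq3_sq g, ?_⟩
    rw [← pow_mul]
    exact (le_sup_right : Bn (2 * n) ≤ AP 0 (Ab 2) ⊔ Bn (2 * n)) (pow_mem_Bn (2 * n) g)
  rw [← Bn_two] at hb
  exact (h1 hb).2

/-- Proof. Work in `G = F ⧸ W.1`, `W = AP 0 (Ab 2)`. The image `A` of `Ab 2` in `G` is abelian
(`comm_mem_AP`). Claim 1: an element `w` of `W ⊔ Bn (2 * q)` is congruent modulo `W` to `b ^ q` for
some `b ∈ Ab 2`. Indeed the set of the classes of `b ^ q`, `b ∈ Ab 2`, is a subgroup of `G` (as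
`A` is abelian), its preimage contains `W` and `g ^ (2 * q) = (g ^ 2) ^ q` for all `g : F`
(`g ^ 2 ∈ Ab 2`) and it is fully invariant (`verb_le` or `Subgroup.closure_le` with the
description of `Bn`). Claim 2: for `b ∈ Ab 2` the element `b ^ n` is in `W ⊔ Bn (2 * n)`: the set of
the `b` in `Ab 2` with this property contains all squares `g ^ 2` (since `(g ^ 2) ^ n = g ^ (2 * n)`)
and is closed under products and inverses (`A` is abelian), and `Ab 2 = Bn 2` is generated by squares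
(`Bn_two`). Now let `w` be in both joins: in the abelian group `A` we have `w = b ^ q = c ^ r`.
With `u * q + v * r = 1` (Bezout, `Int`): `w = w ^ (u * q) * w ^ (v * r) =
(c ^ r) ^ (u * q) * (b ^ q) ^ (v * r) = (c ^ u * b ^ v) ^ (q * r)`, so
`w ∈ W ⊔ Bn (2 * (q * r))` by Claim 2. -/
theorem PW_AP0_Ab2 : PW (AP 0 (Ab 2)) := by
  intro q r hq hr _ _ hqr w hw
  obtain ⟨hw1, hw2⟩ := hw
  obtain ⟨b, hb, hwb⟩ := dq3_le q hw1
  obtain ⟨c, hc, hwc⟩ := dq3_le r hw2
  obtain ⟨u, v, huv⟩ : ∃ u v : ℤ, (q : ℤ) * u + (r : ℤ) * v = 1 := by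
    refine ⟨Nat.gcdA q r, Nat.gcdB q r, ?_⟩
    have := Nat.gcd_eq_gcd_ab q r
    rw [(Nat.coprime_primes hq hr).2 hqr] at this
    exact_mod_cast this.symm
  have hcb := dq3_comm hc hb
  have hd : c ^ u * b ^ v ∈ (Ab 2).1 := mul_mem (zpow_mem hc u) (zpow_mem hb v)
  have h1 : QuotientGroup.mk' (AP 0 (Ab 2)).1 w =
      QuotientGroup.mk' (AP 0 (Ab 2)).1 ((c ^ u * b ^ v) ^ (q * r)) := by
    have e1 : QuotientGroup.mk' (AP 0 (Ab 2)).1 w =
        (QuotientGroup.mk' (AP 0 (Ab 2)).1 w) ^ ((q : ℤ) * u) *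
          (QuotientGroup.mk' (AP 0 (Ab 2)).1 w) ^ ((r : ℤ) * v) := by
      rw [← zpow_add, huv, zpow_one]
    have e2 : (QuotientGroup.mk' (AP 0 (Ab 2)).1 w) ^ ((q : ℤ) * u) =
        (QuotientGroup.mk' (AP 0 (Ab 2)).1 c) ^ (u * (q * r : ℕ)) := by
      rw [hwc, map_pow, ← zpow_natCast, ← zpow_mul]
      congr 1
      push_cast
      ring
    have e3 : (QuotientGroup.mk' (AP 0 (Ab 2)).1 w) ^ ((r : ℤ) * v) =
        (QuotientGroup.mk' (AP 0 (Ab 2)).1 b) ^ (v * (q * r : ℕ)) := by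
      rw [hwb, map_pow, ← zpow_natCast, ← zpow_mul]
      congr 1
      push_cast
      ring
    rw [e1, e2, e3, map_pow, map_mul, map_zpow, map_zpow,
      ((hcb.zpow_left u).zpow_right v).mul_pow, zpow_mul, zpow_mul, zpow_natCast, zpow_natCast]
  have h2 := dq3_pow (q * r) hd
  have h3 : (AP 0 (Ab 2)).1 ≤ (AP 0 (Ab 2) ⊔ Bn (2 * (q * r))).1 :=
    (le_sup_left : AP 0 (Ab 2) ≤ AP 0 (Ab 2) ⊔ Bn (2 * (q * r)))
  have h4 := mul_mem h2 (inv_mem (h3 (dq3_iff.1 h1)))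
  have h5 : (c ^ u * b ^ v) ^ (q * r) * (w⁻¹ * (c ^ u * b ^ v) ^ (q * r))⁻¹ = w := by group
  rwa [h5] at h4

end Pool.Agent.Lib.MP_4c5e24_al
end

section

set_option autoImplicit false

/-!
RIG-D3b: the property `PW` fails for `A_2 A`.
-/

namespace Pool.Agent.Lib.MP_4c5e24_al

open scoped commutatorElement

/-- Step (1). -/
private theorem dq3b_one {n : ℕ} (hn : Odd n) {a g : F} (ha : a ∈ (Ab 0).1) :
    ⁅a, g ^ n⁆ ∈ (AP 2 (Ab 0) ⊔ Bn (2 * n)).1 := by
  obtain ⟨K, hK⟩ : ∃ K : FI, K = AP 2 (Ab 0) ⊔ Bn (2 * n) := ⟨_, rfl⟩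
  rw [← hK]
  have k1 : AP 2 (Ab 0) ≤ K := by rw [hK]; exact le_sup_left
  have k2 : Bn (2 * n) ≤ K := by rw [hK]; exact le_sup_right
  have hmem : ∀ w : F, (QuotientGroup.mk' K.1) w = 1 ↔ w ∈ K.1 := fun w =>
    QuotientGroup.eq_one_iff w
  have hsq : ∀ w ∈ (Ab 0).1, (QuotientGroup.mk' K.1) w * (QuotientGroup.mk' K.1) w = 1 := by
    intro w hw
    rw [← map_mul, hmem, ← pow_two]
    exact k1 (pow_mem_AP hw)
  obtain ⟨A, hA⟩ : ∃ A, A = (QuotientGroup.mk' K.1) a := ⟨_, rfl⟩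
  obtain ⟨t, ht⟩ : ∃ t, t = (QuotientGroup.mk' K.1) (g ^ n) := ⟨_, rfl⟩
  have ht2 : t * t = 1 := by
    rw [ht, ← map_mul, hmem, ← pow_add, ← two_mul]
    exact k2 (pow_mem_Bn _ g)
  have hA2 : A * A = 1 := by rw [hA]; exact hsq a ha
  have hp : A * (t * A * t⁻¹) * (A * (t * A * t⁻¹)) = 1 := by
    have h1 := hsq (a * (g ^ n * a * (g ^ n)⁻¹))
      ((Ab 0).1.mul_mem ha ((FI.normal (Ab 0)).conj_mem a ha (g ^ n)))
    rw [map_mul, map_mul, map_mul, map_inv, ← hA, ← ht] at h1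
    exact h1
  have hAt : (A * t) * (A * t) = A * (t * A * t⁻¹) := by
    have h1 : t = t⁻¹ := eq_inv_of_mul_eq_one_left ht2
    rw [← h1]
    group
  have hAtn : (A * t) ^ (2 * n) = 1 := by
    rw [hA, ht, ← map_mul, ← map_pow, hmem]
    exact k2 (pow_mem_Bn _ _)
  have hp1 : A * (t * A * t⁻¹) = 1 := by
    rw [pow_mul, pow_two, hAt] at hAtn
    obtain ⟨k, rfl⟩ := hn
    rw [pow_succ, pow_mul, pow_two, hp, one_pow, one_mul] at hAtn
    exact hAtn
  rw [← hmem, map_commutatorElement, ← hA, ← ht, commutatorElement_eq_one_iff_mul_comm]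
  have h3 : t * A * t⁻¹ = A := by
    have h4 : A = A⁻¹ := eq_inv_of_mul_eq_one_left hA2
    rw [h4]
    have h5 : t * A * t⁻¹ = A⁻¹ := (inv_eq_of_mul_eq_one_right hp1).symm
    rw [← h4]
    rw [h5]
    exact h4.symm
  exact (mul_inv_eq_iff_eq_mul.1 h3).symm

/-- Proof. Let `W = AP 2 (Ab 0)` and `q = 3`, `r = 5`. Consider
`u = ⁅⁅⁅x 0, x 1⁆, x 0 ^ 3⁆, x 0 ^ 5⁆`.

(1) If `n` is odd, `a ∈ Ab 0` and `g : F`, then `⁅a, g ^ n⁆ ∈ W ⊔ Bn (2 * n)`. Indeed in the
quotient `G` of `F` by `W ⊔ Bn (2 * n)` the image of `Ab 0` is an elementary abelian `2`-group; let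
`t` be the image of `g ^ n`, `t ^ 2 = 1`. Then `(a t) ^ 2 = a * (t * a * t⁻¹)` is in the
image of `Ab 0`, so its square is `1`, and `(a t) ^ (2 * n) = 1` with `n` odd gives
`a * (t * a * t⁻¹) = 1`, so `t * a * t⁻¹ = a⁻¹ = a`. Hence `a` and `t` commute. So
`⁅⁅x 0, x 1⁆, x 0 ^ 3⁆ ∈ W ⊔ Bn 6`, hence `u ∈ W ⊔ Bn 6` (normality); and
`⁅⁅x 0, x 1⁆, x 0 ^ 3⁆ ∈ Ab 0`, so `u ∈ W ⊔ Bn 10`.

(2) `u` is not in `W ⊔ Bn 30`. Test group: `Q = Multiplicative (ZMod 15)`,
`Λ = MonoidAlgebra (ZMod 2) Q`, `G = Sd (MonoidAlgebra.of (ZMod 2) Q).toHomUnits Λ`. It satisfies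
`AP 2 (Ab 0)` (`AP_le_Laws_Sd`) and `Bn 30`: `(v, g) ^ 15 = (v', 1)` and `(v', 1) ^ 2 = (2 v', 1) = 1`
(`Sd.mk_pow`). Let `g = ofAdd 1`, `x 0 ↦ (0, g)`, `x 1 ↦ (1, 1)`. By `Sd.comm_mk` the image of
`⁅x 0, x 1⁆` is `(g - 1, 1)`, and by `Sd.comm_inl` the image of `u` is
`((g ^ 5 - 1) * (g ^ 3 - 1) * (g - 1), 1)` (signs do not matter modulo `2`), and
`(g ^ 5 - 1) * (g ^ 3 - 1) * (g - 1)` has degree `9 < 15` and leading coefficient `1`, so it is not
zero (for instance its coefficient at `g ^ 9` is `1`). -/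
theorem not_PW_AP2_Ab0 : ¬ PW (AP 2 (Ab 0)) := by
  intro hPW
  have h30 := hPW 3 5 (by norm_num) (by norm_num) (by norm_num) (by norm_num) (by norm_num)
  have e30 : 2 * (3 * 5) = 30 := by norm_num
  rw [e30] at h30
  have hc : ⁅x 0, x 1⁆ ∈ (Ab 0).1 := by
    rw [mem_Ab]
    intro i
    rw [ex_comm]
    exact dvd_zero _
  have hc3 : ⁅⁅x 0, x 1⁆, x 0 ^ 3⁆ ∈ (Ab 0).1 := by
    rw [mem_Ab]
    intro i
    rw [ex_comm]
    exact dvd_zero _
  have hu : ⁅⁅⁅x 0, x 1⁆, x 0 ^ 3⁆, x 0 ^ 5⁆ ∈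
      ((AP 2 (Ab 0) ⊔ Bn (2 * 3)) ⊓ (AP 2 (Ab 0) ⊔ Bn (2 * 5))).1 := by
    rw [mem_inf]
    refine ⟨?_, dq3b_one (by decide) hc3⟩
    have h1 : ⁅⁅x 0, x 1⁆, x 0 ^ 3⁆ ∈ (AP 2 (Ab 0) ⊔ Bn (2 * 3)).1 := dq3b_one (by decide) hc
    rw [commutatorElement_def ⁅⁅x 0, x 1⁆, x 0 ^ 3⁆, mul_assoc, mul_assoc]
    refine mul_mem h1 ?_
    rw [← mul_assoc]
    exact (FI.normal _).conj_mem _ (inv_mem h1) _
  have hu30 := h30 hu
  -- the test group
  obtain ⟨g, hg⟩ : ∃ g : Multiplicative (ZMod 15), g = Multiplicative.ofAdd 1 := ⟨_, rfl⟩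
  have htwo : ∀ a : MonoidAlgebra (ZMod 2) (Multiplicative (ZMod 15)), 2 • a = 0 := by
    intro a
    ext y
    have h3 : (2 • a : MonoidAlgebra (ZMod 2) (Multiplicative (ZMod 15))) = a + a := two_nsmul a
    rw [h3, MonoidAlgebra.coeff_add, Finsupp.add_apply, MonoidAlgebra.coeff_zero,
      Finsupp.zero_apply]
    exact CharTwo.add_self_eq_zero _
  have hle : AP 2 (Ab 0) ⊔ Bn 30 ≤ Laws (Sd (grU (ZMod 2) (Multiplicative (ZMod 15)))
      (MonoidAlgebra (ZMod 2) (Multiplicative (ZMod 15)))) := by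
    refine sup_le (AP_le_Laws_Sd ?_ htwo) (Bn_le.2 fun f => ?_)
    · refine (Ab0_le_Ab 15).trans (Ab_le_Laws_comm fun a => ?_)
      rw [← ofAdd_toAdd a, ← ofAdd_nsmul, ofAdd_eq_one, nsmul_eq_mul, ZMod.natCast_self, zero_mul]
    · rw [map_pow]
      obtain ⟨⟨v, y⟩, hvy⟩ : ∃ z, z = f (x 0) := ⟨_, rfl⟩
      rw [← hvy]
      have h15 : y ^ 15 = 1 := by
        rw [← ofAdd_toAdd y, ← ofAdd_nsmul, ofAdd_eq_one, nsmul_eq_mul, ZMod.natCast_self, zero_mul]
      rw [show (30 : ℕ) = 15 * 2 by norm_num, pow_mul, Sd.mk_pow v y 15, h15, Sd.mk_pow]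
      ext1
      · simp only [map_one, Units.val_one, one_pow, Finset.sum_const, Finset.card_range, Sd.one_m]
        rw [smul_assoc, one_smul]
        exact htwo _
      · simp
  have h3 := hle hu30 (FreeGroup.lift fun i => if i = 0 then ⟨0, g⟩ else ⟨1, 1⟩)
  have c1 : ⁅(⟨0, g⟩ : Sd (grU (ZMod 2) (Multiplicative (ZMod 15)))
      (MonoidAlgebra (ZMod 2) (Multiplicative (ZMod 15)))),
      (⟨1, 1⟩ : Sd (grU (ZMod 2) (Multiplicative (ZMod 15)))
      (MonoidAlgebra (ZMod 2) (Multiplicative (ZMod 15))))⁆ =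
      (⟨MonoidAlgebra.of _ _ g - 1, 1⟩ : Sd (grU (ZMod 2) (Multiplicative (ZMod 15)))
      (MonoidAlgebra (ZMod 2) (Multiplicative (ZMod 15)))) := by
    rw [Sd.comm_mk _ _ _ _ (by rw [mul_one, one_mul]), smul_zero, sub_zero, smul_eq_mul, mul_one,
      coe_grU]
  have c2 : ∀ n : ℕ, (⟨0, g⟩ : Sd (grU (ZMod 2) (Multiplicative (ZMod 15)))
      (MonoidAlgebra (ZMod 2) (Multiplicative (ZMod 15)))) ^ n = ⟨0, g ^ n⟩ := by
    intro n
    rw [Sd.mk_pow, smul_zero]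
  rw [map_commutatorElement, map_commutatorElement, map_commutatorElement, map_pow, map_pow,
    FreeGroup.lift_apply_of, FreeGroup.lift_apply_of, if_pos rfl, if_neg (by norm_num), c1, c2, c2,
    Sd.comm_inl, Sd.comm_inl] at h3
  have h4 := congrArg Sd.m h3
  simp only [Sd.one_m, coe_grU, smul_eq_mul] at h4
  rw [mul_neg, neg_neg] at h4
  have h5 : (MonoidAlgebra.of (ZMod 2) (Multiplicative (ZMod 15)) (g ^ 5) - 1) *
      ((MonoidAlgebra.of (ZMod 2) (Multiplicative (ZMod 15)) (g ^ 3) - 1) *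
        (MonoidAlgebra.of (ZMod 2) (Multiplicative (ZMod 15)) g - 1)) =
      MonoidAlgebra.single (g ^ 9) 1 - MonoidAlgebra.single (g ^ 8) 1 -
        MonoidAlgebra.single (g ^ 6) 1 + MonoidAlgebra.single (g ^ 5) 1 -
        MonoidAlgebra.single (g ^ 4) 1 + MonoidAlgebra.single (g ^ 3) 1 +
        MonoidAlgebra.single g 1 - MonoidAlgebra.single 1 1 := by
    simp only [MonoidAlgebra.of_apply, MonoidAlgebra.one_def, sub_mul, mul_sub,
      MonoidAlgebra.single_mul_single, mul_one, one_mul]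
    rw [← pow_succ, ← pow_add, ← pow_succ, ← pow_add]
    abel
  rw [h5] at h4
  have h6 := congrArg (fun a : MonoidAlgebra (ZMod 2) (Multiplicative (ZMod 15)) => a.coeff (g ^ 9)) h4
  have hne : ∀ k : ℕ, k < 9 → ¬ g ^ k = g ^ 9 := by
    intro k hk h
    rw [hg, ← ofAdd_nsmul, ← ofAdd_nsmul, Multiplicative.ofAdd.apply_eq_iff_eq, nsmul_eq_mul,
      nsmul_eq_mul, mul_one, mul_one] at h
    revert h
    interval_cases k <;> decide
  simp only [MonoidAlgebra.coeff_sub, MonoidAlgebra.coeff_add, MonoidAlgebra.coeff_single,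
    Finsupp.sub_apply, Finsupp.add_apply, Finsupp.single_apply, MonoidAlgebra.coeff_zero,
    Finsupp.zero_apply] at h6
  have n0 := hne 0 (by norm_num)
  have n1 := hne 1 (by norm_num)
  rw [pow_zero] at n0
  rw [pow_one] at n1
  rw [if_pos trivial, if_neg (hne 8 (by norm_num)), if_neg (hne 6 (by norm_num)),
    if_neg (hne 5 (by norm_num)), if_neg (hne 4 (by norm_num)), if_neg (hne 3 (by norm_num)),
    if_neg n1, if_neg n0] at h6
  revert h6
  decide

end Pool.Agent.Lib.MP_4c5e24_al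
end

section

set_option autoImplicit false

/-!
RIG-D3c: every automorphism maps `A_q A_2` to `A_q' A_2`.
-/

namespace Pool.Agent.Lib.MP_4c5e24_al

open scoped commutatorElement

theorem dq3c_map {e : FI ≃o FI} {π : ℕ ≃ ℕ} (h : Adm e π) {W : FI} (hW : PW W) : PW (e W) := by
  intro q' r' hq' hr' hq2' hr2' hqr'
  obtain ⟨hq, hq2⟩ := h.symm.oddPrime hq' hq2'
  obtain ⟨hr, hr2⟩ := h.symm.oddPrime hr' hr2'
  have hqr : π.symm q' ≠ π.symm r' := fun h1 => hqr' (π.symm.injective h1)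
  have h1 := hW _ _ hq hr hq2 hr2 hqr
  have h2 := (e.le_iff_le).2 h1
  have hqo := hq.odd_of_ne_two hq2
  have hro := hr.odd_of_ne_two hr2
  rw [map_inf, map_sup, map_sup, map_sup, h.bn, h.bn, h.bn, h.dvd.two_mul h.two hqo,
    h.dvd.two_mul h.two hro, h.dvd.two_mul h.two (hqo.mul hro),
    h.dvd.mul ((Nat.coprime_primes hq hr).2 hqr), Equiv.apply_symm_apply,
    Equiv.apply_symm_apply] at h2
  exact h2

/-- Proof: `e` preserves joins and meets; `Adm.bn`; `π (2 * q) = 2 * π q`,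
`π (2 * (q * r)) = 2 * (π q * π r)` for different odd primes `q`, `r` (`DvdAut.two_mul`,
`DvdAut.mul`); `π` is a bijection of the set of the odd primes. -/
theorem PW_map {e : FI ≃o FI} {π : ℕ ≃ ℕ} (h : Adm e π) {W : FI} : PW (e W) ↔ PW W := by
  constructor
  · intro h1
    have h2 := dq3c_map h.symm h1
    rwa [OrderIso.symm_apply_apply] at h2
  · exact dq3c_map h

theorem dq3c_D {e : FI ≃o FI} {π : ℕ ≃ ℕ} {S : Set ℕ} (hS : S.Infinite)
    (h : ∀ q ∈ S, e (AP q (Ab 2)) = AP (π q) (Ab 2)) : e (AP 0 (Ab 2)) = AP 0 (Ab 2) := by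
  have h1 : (π '' S).Infinite := hS.image π.injective.injOn
  have h2 : e (AP 0 (Ab 2)) = ⨅ q : S, e (AP q (Ab 2)) := by
    rw [← iInf_D hS, OrderIso.map_iInf]
  rw [h2, ← iInf_D h1]
  refine Equiv.iInf_congr (Equiv.Set.image π S π.injective) fun q => ?_
  rw [h q q.2]
  rfl

theorem dq3c_U {e : FI ≃o FI} {π : ℕ ≃ ℕ} {S : Set ℕ} (hS : S.Infinite)
    (h : ∀ q ∈ S, e (AP q (Ab 2)) = AP 2 (Ab (π q))) : e (AP 0 (Ab 2)) = AP 2 (Ab 0) := by
  have h1 : (π '' S).Infinite := hS.image π.injective.injOn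
  rw [← iInf_D hS, OrderIso.map_iInf, ← iInf_U h1]
  refine Equiv.iInf_congr (Equiv.Set.image π S π.injective) fun q => ?_
  rw [h q q.2]
  rfl

/-- Proof. Let `S` be the set of the odd primes `q` with `e (AP q (Ab 2)) = AP (π q) (Ab 2)` and `S'`
the set of the odd primes with `e (AP q (Ab 2)) = AP 2 (Ab (π q))`; `S ∪ S'` is the set of all odd
primes (`map_D_or`), which is infinite (`Nat.infinite_setOf_prime`). If `S'` is infinite, then
by `iInf_D` and `OrderIso.map_iInf`, `e (AP 0 (Ab 2)) = ⨅ q : S', AP 2 (Ab (π q)) =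
AP 2 (Ab 0)` (`iInf_U` for the infinite set `π '' S'`), against `PW_AP0_Ab2`, `not_PW_AP2_Ab0`,
`PW_map`. So `S` is infinite and in the same way `e (AP 0 (Ab 2)) = AP 0 (Ab 2)`. If `q ∈ S'`,
then `AP 0 (Ab 2) ≤ AP q (Ab 2)` (`AP_mono`) gives `AP 0 (Ab 2) = e (AP 0 (Ab 2)) ≤
AP 2 (Ab (π q))`, against `not_AP0_le_U`. So `S'` is empty. -/
theorem map_D {e : FI ≃o FI} {π : ℕ ≃ ℕ} (h : Adm e π) {q : ℕ} (hq : q.Prime) (h2 : q ≠ 2) :
    e (AP q (Ab 2)) = AP (π q) (Ab 2) := by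
  have hS' : ¬ {q : ℕ | (q.Prime ∧ q ≠ 2) ∧ e (AP q (Ab 2)) = AP 2 (Ab (π q))}.Infinite := by
    intro hinf
    have h1 := dq3c_U hinf fun q hq => hq.2
    have h2 := dq3c_map h PW_AP0_Ab2
    rw [h1] at h2
    exact not_PW_AP2_Ab0 h2
  have hS : {q : ℕ | (q.Prime ∧ q ≠ 2) ∧ e (AP q (Ab 2)) = AP (π q) (Ab 2)}.Infinite := by
    intro hfin
    rw [Set.not_infinite] at hS'
    apply Nat.infinite_setOfPred_prime
    refine ((hfin.union hS').union (Set.finite_singleton 2)).subset ?_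
    intro q hq
    by_cases h3 : q = 2
    · exact Or.inr h3
    · left
      rcases map_D_or h hq h3 with h4 | h4
      · exact Or.inl ⟨⟨hq, h3⟩, h4⟩
      · exact Or.inr ⟨⟨hq, h3⟩, h4⟩
  have h0 := dq3c_D hS fun q hq => hq.2
  rcases map_D_or h hq h2 with h4 | h4
  · exact h4
  · exfalso
    obtain ⟨h5, h6⟩ := h.oddPrime hq h2
    apply not_AP0_le_U h5 h6
    rw [← h4, ← h0, e.le_iff_le]
    exact AP_mono (dvd_zero q) le_rfl

end Pool.Agent.Lib.MP_4c5e24_al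
end

section

set_option autoImplicit false

/-!
RIG-K: the product varieties `A_(2^k) X`, `X` of odd exponent.
-/

namespace Pool.Agent.Lib.MP_4c5e24_al

open scoped commutatorElement

/-- The conditions of which `AP (2 ^ k) X` is the least solution. -/
structure KeyC (k m : ℕ) (X H : FI) : Prop where
  a : Bn (2 ^ k * m) ≤ H
  b : Ab (2 ^ k) ≤ H ⊔ Bn (2 ^ k)
  c : X ≤ H ⊔ Bn m
  d : ∀ q : ℕ, q.Prime → q ∣ m → ¬ H ≤ AP q (Ab 2)

/-- Proof: `Bn_le_AP`, `AP_sup_Bn`, `le_AP_sup_Bn`, `not_AP_le_D` (`2 ^ k` and `m` are coprime; a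
prime divisor of an odd number is odd). -/
theorem key_AP {k m : ℕ} (hm : Odd m) {X : FI} (hX : Bn m ≤ X) : KeyC k m X (AP (2 ^ k) X) := by
  have hco : Nat.Coprime (2 ^ k) m := Nat.Coprime.pow_left k (Nat.coprime_two_left.2 hm)
  refine ⟨Bn_le_AP hX, (AP_sup_Bn hco hX).ge, le_AP_sup_Bn hco, ?_⟩
  intro q hq hqm
  have h2 : q ≠ 2 := by
    rintro rfl
    have h1 := (Nat.odd_iff).1 hm
    omega
  exact not_AP_le_D hq h2 hm hX

private theorem key_law {n : ℕ} {G : Type*} [Group G] (h : Bn n ≤ Laws G) (g : G) : g ^ n = 1 := by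
  have h1 := (Bn_le.1 h) (FreeGroup.lift (fun _ => g))
  rw [map_pow, FreeGroup.lift_apply_of] at h1
  exact h1

/-- Involutions commute.

Let `G` be a group which satisfies the laws of `H`. Proof. If `k = 0`, then `s ^ m = 1` with `m`
odd and `s * s = 1`, so `s = 1`, in the same way `t = 1`. Let `k ≥ 1`, `z = s * t`,
`s * z * s⁻¹ = t * s = z⁻¹`; `z ^ (2 ^ k * m) = 1` by condition (a). Put `z' = z ^ (2 ^ k)`,
`z' ^ m = 1`. If `z' ≠ 1`, there is a prime `q ∣ m` and a power `r` of `z'` with `r ≠ 1`,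
`r ^ q = 1` (`orderOf z'` divides `m`; `r = z' ^ (orderOf z' / q)`); then `s * r * s⁻¹ = r⁻¹`,
and `s r = r s` would give `r ^ 2 = 1`, `r = 1` as `q` is odd; so `hig` (with `p := q`, `q := 2`,
`E = Subgroup.zpowers r`, `y = s`, `a = r`) gives `Laws G ≤ AP q (Ab 2)`, and `H ≤ Laws G`, against
condition (d). So `z ^ (2 ^ k) = 1`. Then all elements of the subgroup `S` generated by `s` and `z` have
the form `z ^ i` or `z ^ i * s` (`i : ℤ`; closure induction, `s * z ^ i = z ^ (- i) * s`), and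
`(z ^ i * s) ^ 2 = 1`, so `g ^ (2 ^ k) = 1` for all `g ∈ S` (`k ≥ 1`). So the group `S`
satisfies `H ⊔ Bn (2 ^ k) ≥ Ab (2 ^ k) ≥ Ab 0 ∋ ⁅x 0, x 1⁆`, it is commutative, and `s`,
`t = s⁻¹ * z` commute. -/
theorem key_invol {k m : ℕ} (hm : Odd m) {X H : FI} (h : KeyC k m X H) {G : Type*} [Group G]
    (hG : H ≤ Laws G) (s t : G) (hs : s * s = 1) (ht : t * t = 1) : s * t = t * s := by
  have hsi : s⁻¹ = s := inv_eq_of_mul_eq_one_right hs
  have hti : t⁻¹ = t := inv_eq_of_mul_eq_one_right ht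
  obtain ⟨z, hz⟩ : ∃ z, z = s * t := ⟨_, rfl⟩
  have hzi : z⁻¹ = t * s := by rw [hz, mul_inv_rev, hsi, hti]
  have hsz : s * z * s⁻¹ = z⁻¹ := by
    rw [hzi, hz, ← mul_assoc, hs, one_mul, hsi]
  have hszn : ∀ n : ℕ, s * z ^ n * s⁻¹ = (z ^ n)⁻¹ := by
    intro n
    rw [← conj_pow, hsz, inv_pow]
  have hm0 : 0 < m := hm.pos
  have hz2 : z ^ 2 ^ k = 1 := by
    by_contra hz'
    have h1 : (z ^ 2 ^ k) ^ m = 1 := by
      rw [← pow_mul]
      exact key_law (h.a.trans hG) z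
    have h2 : orderOf (z ^ 2 ^ k) ∣ m := orderOf_dvd_of_pow_eq_one h1
    have h3 : orderOf (z ^ 2 ^ k) ≠ 1 := fun h4 => hz' (orderOf_eq_one_iff.1 h4)
    obtain ⟨q, hq, hqo⟩ := Nat.exists_prime_and_dvd h3
    have h4 : orderOf (z ^ 2 ^ k) ≠ 0 := by
      intro h5
      rw [h5, zero_dvd_iff] at h2
      omega
    have hqm : q ∣ m := hqo.trans h2
    have hq2 : q ≠ 2 := by
      rintro rfl
      have h1 := (Nat.odd_iff).1 hm
      omega
    obtain ⟨l, hl⟩ : ∃ l, l = orderOf (z ^ 2 ^ k) / q := ⟨_, rfl⟩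
    obtain ⟨r, hr⟩ : ∃ r, r = (z ^ 2 ^ k) ^ l := ⟨_, rfl⟩
    have hro : orderOf r = q := by
      rw [hr, hl]
      exact orderOf_pow_orderOf_div h4 hqo
    have hrz : r = z ^ (2 ^ k * l) := by rw [hr, pow_mul]
    have hsr : s * r * s⁻¹ = r⁻¹ := by rw [hrz, hszn]
    have hrq : r ^ q = 1 := by rw [← hro]; exact pow_orderOf_eq_one r
    have h5 : Laws G ≤ AP q (Ab 2) := by
      refine hig hq Nat.prime_two hq2 (Subgroup.zpowers r) ?_ ?_ s ?_ ?_ r
        (Subgroup.mem_zpowers r) ?_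
      · rintro _ ⟨i, rfl⟩ _ ⟨j, rfl⟩
        show r ^ i * r ^ j = r ^ j * r ^ i
        rw [← zpow_add, ← zpow_add, add_comm]
      · rintro _ ⟨i, rfl⟩
        show (r ^ i) ^ q = 1
        rw [← zpow_natCast, ← zpow_mul, mul_comm, zpow_mul, zpow_natCast, hrq, one_zpow]
      · rintro _ ⟨i, rfl⟩
        show s * r ^ i * s⁻¹ ∈ _
        rw [← conj_zpow, hsr, inv_zpow]
        exact inv_mem (Subgroup.zpow_mem _ (Subgroup.mem_zpowers r) i)
      · rw [pow_two, hs]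
      · intro h6
        have h7 : r = r⁻¹ := by
          rw [← hsr, h6, mul_assoc, mul_inv_cancel, mul_one]
        have h8 : r ^ 2 = 1 := by
          rw [pow_two]
          nth_rewrite 1 [h7]
          exact inv_mul_cancel r
        have h9 : orderOf r ∣ 2 := orderOf_dvd_of_pow_eq_one h8
        rw [hro] at h9
        exact hq2 ((Nat.prime_dvd_prime_iff_eq hq Nat.prime_two).1 h9)
    exact h.d q hq hqm (hG.trans h5)
  rcases Nat.eq_zero_or_pos k with rfl | hk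
  · rw [pow_zero, pow_one, hz] at hz2
    have h1 : t = s := by
      rw [← hsi]
      exact eq_inv_of_mul_eq_one_right hz2
    rw [h1]
  · have hszz : ∀ i : ℤ, s * z ^ i = z ^ (-i) * s := by
      intro i
      have h1 : s * z ^ i * s⁻¹ = z ^ (-i) := by rw [← conj_zpow, hsz, inv_zpow']
      rw [← h1, inv_mul_cancel_right]
    let S : Subgroup G :=
      { carrier := {g | ∃ i : ℤ, g = z ^ i ∨ g = z ^ i * s}
        one_mem' := ⟨0, Or.inl (zpow_zero z).symm⟩
        mul_mem' := by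
          rintro _ _ ⟨i, rfl | rfl⟩ ⟨j, rfl | rfl⟩
          · exact ⟨i + j, Or.inl (zpow_add z i j).symm⟩
          · exact ⟨i + j, Or.inr (by rw [zpow_add, mul_assoc])⟩
          · refine ⟨i + -j, Or.inr ?_⟩
            rw [mul_assoc, hszz, zpow_add, mul_assoc]
          · refine ⟨i + -j, Or.inl ?_⟩
            rw [mul_assoc, ← mul_assoc s, hszz, mul_assoc (z ^ (-j)), hs, mul_one, zpow_add]
        inv_mem' := by
          rintro _ ⟨i, rfl | rfl⟩
          · exact ⟨-i, Or.inl (zpow_neg z i).symm⟩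
          · refine ⟨i, Or.inr ?_⟩
            rw [mul_inv_rev, hsi, ← zpow_neg, hszz, neg_neg] }
    have hsS : s ∈ S := ⟨0, Or.inr (by rw [zpow_zero, one_mul])⟩
    have htS : t ∈ S := by
      refine ⟨-1, Or.inr ?_⟩
      rw [zpow_neg_one, hzi, mul_assoc, hs, mul_one]
    have hS : ∀ g : S, g ^ 2 ^ k = 1 := by
      rintro ⟨_, i, rfl | rfl⟩
      · apply Subtype.ext
        show (z ^ i) ^ 2 ^ k = 1
        rw [← zpow_natCast, ← zpow_mul, mul_comm, zpow_mul, zpow_natCast, hz2, one_zpow]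
      · apply Subtype.ext
        show (z ^ i * s) ^ 2 ^ k = 1
        obtain ⟨k', rfl⟩ : ∃ k', k = k' + 1 := ⟨k - 1, by omega⟩
        have h1 : (z ^ i * s) ^ 2 = 1 := by
          rw [pow_two, mul_assoc, ← mul_assoc s, hszz, mul_assoc (z ^ (-i)), hs, mul_one,
            ← zpow_add, add_neg_cancel, zpow_zero]
        rw [pow_succ', pow_mul, h1, one_pow]
    have h1 : H ⊔ Bn (2 ^ k) ≤ Laws S := by
      apply sup_le
      · intro w hw f
        have h2 := hG hw (S.subtype.comp f)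
        exact Subtype.ext h2
      · rw [Bn_le]
        intro f
        rw [map_pow]
        exact hS _
    have h2 : (⁅x 0, x 1⁆ : F) ∈ (Ab (2 ^ k)).1 := by
      intro f
      rw [map_commutatorElement, commutatorElement_eq_one_iff_mul_comm]
      exact mul_comm _ _
    have h3 := (h.b.trans h1) h2
      (FreeGroup.lift (fun i => if i = 0 then (⟨s, hsS⟩ : S) else ⟨t, htS⟩))
    rw [map_commutatorElement, commutatorElement_eq_one_iff_mul_comm, FreeGroup.lift_apply_of,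
      FreeGroup.lift_apply_of, if_pos rfl, if_neg one_ne_zero] at h3
    exact congrArg Subtype.val h3

end Pool.Agent.Lib.MP_4c5e24_al
end

section

set_option autoImplicit false

/-!
RIG-K2: `AP (2 ^ k) X` is the least solution.
-/

namespace Pool.Agent.Lib.MP_4c5e24_al

open scoped commutatorElement

theorem key2_quot {H : FI} {G : Type*} [Group G] (hG : H ≤ Laws G) (N : Subgroup G) [N.Normal] :
    H ≤ Laws (G ⧸ N) := by
  intro w hw f
  have h1 : f = (QuotientGroup.mk' N).comp (FreeGroup.lift fun i => (f (x i)).out) := by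
    apply FreeGroup.ext_hom
    intro i
    rw [MonoidHom.comp_apply, FreeGroup.lift_apply_of, QuotientGroup.mk'_apply]
    exact (QuotientGroup.out_eq' _).symm
  rw [h1, MonoidHom.comp_apply, hG hw, map_one]

/-- The elements whose order divides `2 ^ j` form a subgroup.

Proof. Induction on `j`, simultaneously for all groups `G` which satisfy `H` (in the universe of
`G`). `j = 0` is trivial. Step from `j` to `j + 1`: let `N` be the subgroup of the elements with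
`g ^ (2 ^ j) = 1` of `G` (induction hypothesis; closed under inverses trivially), it is normal. In
`G ⧸ N` (which satisfies `H`: every homomorphism `F →* G ⧸ N` lifts to `F →* G`, or
`Laws G ≤ Laws (G ⧸ N)`) the classes of `a` and `b` satisfy `a * a = 1`, `b * b = 1`, because
`(a ^ 2) ^ (2 ^ j) = 1`. By `key_invol` they commute, so the class of `a * b` has square `1`, so
`((a * b) ^ 2) ^ (2 ^ j) = 1`. -/
theorem key_mul {k m : ℕ} (hm : Odd m) {X H : FI} (h : KeyC k m X H) (j : ℕ) {G : Type*}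
    [Group G] (hG : H ≤ Laws G) (a b : G) (ha : a ^ (2 ^ j) = 1) (hb : b ^ (2 ^ j) = 1) :
    (a * b) ^ (2 ^ j) = 1 := by
  induction j generalizing G with
  | zero =>
    rw [pow_zero, pow_one] at ha hb ⊢
    rw [ha, hb, one_mul]
  | succ j ih =>
    obtain ⟨N, hN⟩ : ∃ N : Subgroup G, ∀ g, g ∈ N ↔ g ^ (2 ^ j) = 1 :=
      ⟨{ carrier := {g | g ^ (2 ^ j) = 1}
         mul_mem' := fun {g g'} hg hg' => ih hG g g' hg hg'
         one_mem' := one_pow _
         inv_mem' := fun {g} hg => by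
          have hg' : g ^ (2 ^ j) = 1 := hg
          change g⁻¹ ^ (2 ^ j) = 1
          rw [inv_pow, hg', inv_one] }, fun _ => Iff.rfl⟩
    have hNn : N.Normal := ⟨fun g hg t => by
      rw [hN] at hg ⊢
      rw [conj_pow, hg, mul_one, mul_inv_cancel]⟩
    have hsq : ∀ g : G, g ^ (2 ^ (j + 1)) = 1 →
        QuotientGroup.mk' N g * QuotientGroup.mk' N g = 1 := fun g hg => by
      rw [← map_mul, QuotientGroup.mk'_apply, QuotientGroup.eq_one_iff, hN, ← pow_two, ← pow_mul,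
        ← pow_succ']
      exact hg
    have hc := key_invol hm h (key2_quot hG N) _ _ (hsq a ha) (hsq b hb)
    have h1 : (a * b) ^ 2 ∈ N := by
      have h2 : QuotientGroup.mk' N ((a * b) ^ 2) = 1 := by
        rw [map_pow, map_mul, (show Commute (QuotientGroup.mk' N a) (QuotientGroup.mk' N b) from
          hc).mul_pow, pow_two, pow_two, hsq a ha, hsq b hb, one_mul]
      rwa [QuotientGroup.mk'_apply, QuotientGroup.eq_one_iff] at h2
    rw [hN, ← pow_mul, ← pow_succ'] at h1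
    exact h1

/-- Proof. Let `G = F ⧸ H.1`, `Laws G = H` (`Laws_quot`). By `key_mul` the elements with
`g ^ (2 ^ k) = 1` form a normal subgroup `T` of `G`. As a group it satisfies
`H ⊔ Bn (2 ^ k) ≥ Ab (2 ^ k)`, so it is commutative. `G ⧸ T` satisfies `H` and `Bn m`
(`(g ^ m) ^ (2 ^ k) = 1` by (a)), so it satisfies `X` by (c). By `AP_le_Laws` for the projection
`G →* G ⧸ T`, `AP (2 ^ k) X ≤ Laws G = H`. -/
theorem key_le {k m : ℕ} (hm : Odd m) {X H : FI} (h : KeyC k m X H) : AP (2 ^ k) X ≤ H := by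
  have hL : Laws (F ⧸ H.1) = H := Laws_quot H
  have hG : H ≤ Laws (F ⧸ H.1) := hL.ge
  obtain ⟨T, hT⟩ : ∃ T : Subgroup (F ⧸ H.1), ∀ g, g ∈ T ↔ g ^ (2 ^ k) = 1 :=
    ⟨{ carrier := {g | g ^ (2 ^ k) = 1}
       mul_mem' := fun {g g'} hg hg' => key_mul hm h k hG g g' hg hg'
       one_mem' := one_pow _
       inv_mem' := fun {g} hg => by
        have hg' : g ^ (2 ^ k) = 1 := hg
        change g⁻¹ ^ (2 ^ k) = 1
        rw [inv_pow, hg', inv_one] }, fun _ => Iff.rfl⟩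
  have hTn : T.Normal := ⟨fun g hg t => by
    rw [hT] at hg ⊢
    rw [conj_pow, hg, mul_one, mul_inv_cancel]⟩
  -- `T` is commutative
  have hTl : H ⊔ Bn (2 ^ k) ≤ Laws T := by
    refine sup_le ?_ ?_
    · intro w hw f
      have h1 := hG hw (T.subtype.comp f)
      rw [MonoidHom.comp_apply] at h1
      exact T.subtype_injective (h1.trans (map_one _).symm)
    · rw [Bn_le]
      intro f
      rw [map_pow]
      apply Subtype.ext
      rw [Subgroup.coe_pow, (hT _).1 (f (x 0)).2, Subgroup.coe_one]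
  have hcT : ∀ a b : F ⧸ H.1, a ∈ T → b ∈ T → a * b = b * a := by
    intro a b ha hb
    have h1 : ⁅x 0, x 1⁆ ∈ (Ab 0).1 := by
      rw [Ab0_eq]
      exact Subgroup.commutator_mem_commutator trivial trivial
    have h2 : ⁅x 0, x 1⁆ ∈ (Laws T).1 := (h.b.trans hTl) (Ab0_le_Ab _ h1)
    have h3 := h2 (FreeGroup.lift fun i => if i = 0 then ⟨a, ha⟩ else ⟨b, hb⟩)
    rw [map_commutatorElement, FreeGroup.lift_apply_of, FreeGroup.lift_apply_of, if_pos rfl,
      if_neg one_ne_zero, commutatorElement_eq_one_iff_mul_comm] at h3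
    exact congrArg Subtype.val h3
  -- `G ⧸ T` satisfies `X`
  have hX : X ≤ Laws ((F ⧸ H.1) ⧸ T) := by
    refine h.c.trans (sup_le (key2_quot hG T) ?_)
    rw [Bn_le]
    intro f
    rw [map_pow]
    obtain ⟨g, hg⟩ := QuotientGroup.mk'_surjective T (f (x 0))
    rw [← hg, ← map_pow, QuotientGroup.mk'_apply, QuotientGroup.eq_one_iff, hT, ← pow_mul, mul_comm]
    have h1 := (h.a.trans hG) (pow_mem_Bn (2 ^ k * m) (x 0)) (FreeGroup.lift fun _ => g)
    rwa [map_pow, FreeGroup.lift_apply_of] at h1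
  have hfin := AP_le_Laws (m := 2 ^ k) (QuotientGroup.mk' T) hX
    (fun a b ha hb => hcT a b ((QuotientGroup.eq_one_iff a).1 ha) ((QuotientGroup.eq_one_iff b).1 hb))
    (fun a ha => (hT a).1 ((QuotientGroup.eq_one_iff a).1 ha))
  rwa [hL] at hfin

end Pool.Agent.Lib.MP_4c5e24_al
end

section

set_option autoImplicit false

/-!
RIG-K3: automorphisms commute with the product `A_(2^k) X`.
-/

namespace Pool.Agent.Lib.MP_4c5e24_al

open scoped commutatorElement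

/-- Proof: `Adm.bn`, `Adm.ab`, `map_D`, `DvdAut.two_pow_mul`, `DvdAut.two_pow`; the primes which divide
`π m` are the `π q` for the primes `q` which divide `m` (use `h.symm` for the surjectivity); they
are odd because `m` is odd. -/
theorem key_map {e : FI ≃o FI} {π : ℕ ≃ ℕ} (h : Adm e π) {k m : ℕ} (hm : Odd m) {X H : FI} :
    KeyC k (π m) (e X) (e H) ↔ KeyC k m X H := by
  have hodd : Odd (π m) := (h.dvd.odd h.two).2 hm
  have ne_two : ∀ {n q : ℕ}, Odd n → q ∣ n → q ≠ 2 := by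
    rintro n q hn hq rfl
    exact (Nat.not_even_iff_odd.2 hn) (even_iff_two_dvd.2 hq)
  have ha : Bn (2 ^ k * π m) ≤ e H ↔ Bn (2 ^ k * m) ≤ H := by
    rw [← h.dvd.two_pow_mul h.two k hm, ← h.bn, e.le_iff_le]
  have hb : Ab (2 ^ k) ≤ e H ⊔ Bn (2 ^ k) ↔ Ab (2 ^ k) ≤ H ⊔ Bn (2 ^ k) := by
    have h1 : e (Ab (2 ^ k)) = Ab (2 ^ k) := by rw [h.ab, h.dvd.two_pow h.two]
    have h2 : e (Bn (2 ^ k)) = Bn (2 ^ k) := by rw [h.bn, h.dvd.two_pow h.two]
    have h3 : e (H ⊔ Bn (2 ^ k)) = e H ⊔ Bn (2 ^ k) := by rw [OrderIso.map_sup, h2]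
    rw [← h3]
    conv_lhs => rw [← h1]
    rw [e.le_iff_le]
  have hc : e X ≤ e H ⊔ Bn (π m) ↔ X ≤ H ⊔ Bn m := by
    rw [← h.bn, ← OrderIso.map_sup, e.le_iff_le]
  have hd : ∀ q : ℕ, q.Prime → q ≠ 2 → (e H ≤ AP (π q) (Ab 2) ↔ H ≤ AP q (Ab 2)) := by
    intro q hq h2
    rw [← map_D h hq h2, e.le_iff_le]
  constructor
  · intro K
    refine ⟨ha.1 K.a, hb.1 K.b, hc.1 K.c, fun q hq hqm hle => ?_⟩
    have h2 := ne_two hm hqm
    exact K.d (π q) (h.oddPrime hq h2).1 ((h.dvd.dvd q m).2 hqm) ((hd q hq h2).2 hle)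
  · intro K
    refine ⟨ha.2 K.a, hb.2 K.b, hc.2 K.c, fun q hq hqm hle => ?_⟩
    obtain ⟨r, rfl⟩ := π.surjective q
    have hr : r.Prime := h.dvd.prime.1 hq
    have hrm : r ∣ m := (h.dvd.dvd r m).1 hqm
    exact K.d r hr hrm ((hd r hr (ne_two hm hrm)).1 hle)

/-- Proof. `AP (2 ^ k) X` is the least `H` with `KeyC k m X H` (`key_AP`, `key_le`), and
`AP (2 ^ k) (e X)` is the least `H'` with `KeyC k (π m) (e X) H'` (`Bn (π m) = e (Bn m) ≤ e X`,
`π m` is odd: `DvdAut.odd`). By `key_map`, `e` maps the solutions of the first onto the solutions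
of the second problem. -/
theorem map_AP {e : FI ≃o FI} {π : ℕ ≃ ℕ} (h : Adm e π) (k : ℕ) {m : ℕ} (hm : Odd m) {X : FI}
    (hX : Bn m ≤ X) : e (AP (2 ^ k) X) = AP (2 ^ k) (e X) := by
  have hodd : Odd (π m) := (h.dvd.odd h.two).2 hm
  have hX' : Bn (π m) ≤ e X := by
    rw [← h.bn, e.le_iff_le]
    exact hX
  apply le_antisymm
  · rw [← e.apply_symm_apply (AP (2 ^ k) (e X)), e.le_iff_le]
    apply key_le hm
    rw [← key_map h hm, e.apply_symm_apply]
    exact key_AP hodd hX'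
  · apply key_le hodd
    rw [key_map h hm]
    exact key_AP hm hX

end Pool.Agent.Lib.MP_4c5e24_al
end

section

set_option autoImplicit false

/-!
RIG-K4: automorphisms commute with the product `A X`.
-/

namespace Pool.Agent.Lib.MP_4c5e24_al

open scoped commutatorElement

private theorem Res_iff {X : FI} :
    Res X ↔ (⨅ m : {m : ℕ // Odd m}, (X ⊔ Bn (m : ℕ))) ≤ X := by
  unfold Res
  rw [le_def]
  refine forall_congr' fun w => ?_
  rw [mem_iInf]
  constructor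
  · exact fun h hw => h fun m hm => hw ⟨m, hm⟩
  · exact fun h hw => h fun m => hw m m.2

private theorem AP0_eq {X : FI} (hX : Res X) :
    AP 0 X = ⨅ k : ℕ, ⨅ m : {m : ℕ // Odd m}, AP (2 ^ k) (X ⊔ Bn (m : ℕ)) := by
  apply le_antisymm
  · exact le_iInf fun k => le_iInf fun m => AP_mono (dvd_zero _) le_sup_left
  · rw [le_def]
    intro w hw
    refine hX.mem_AP0 fun k m hm => ?_
    exact mem_iInf.1 (mem_iInf.1 hw k) ⟨m, hm⟩

/-- Proof: `π` permutes the odd numbers (`DvdAut.odd`) and `e (X ⊔ Bn m) = e X ⊔ Bn (π m)`; for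
`w` argue with fully invariant subgroups: `Res X` means that
`⨅ m : {m // Odd m}, (X ⊔ Bn m) ≤ X` (`mem_iInf`), and `OrderIso.map_iInf`. -/
theorem Res.map {e : FI ≃o FI} {π : ℕ ≃ ℕ} (h : Adm e π) {X : FI} (hX : Res X) : Res (e X) := by
  rw [Res_iff] at hX ⊢
  refine le_trans ?_ (e.monotone hX)
  rw [e.map_iInf]
  refine le_iInf fun m => ?_
  rw [map_sup, h.bn]
  exact iInf_le (fun m : {m : ℕ // Odd m} => e X ⊔ Bn (m : ℕ)) ⟨π m, (h.dvd.odd h.two).2 m.2⟩

/-- Proof. `AP 0 X = ⨅ (k : ℕ) (m : {m // Odd m}), AP (2 ^ k) (X ⊔ Bn m)` by `Res.mem_AP0` and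
`AP_mono`. By `OrderIso.map_iInf` and `map_AP`, `e (AP 0 X)` is the infimum of
`AP (2 ^ k) (e X ⊔ Bn (π m))`, which is `AP 0 (e X)` for the same reason (`Res.map`; `π` permutes
the odd numbers). -/
theorem map_AP0 {e : FI ≃o FI} {π : ℕ ≃ ℕ} (h : Adm e π) {X : FI} (hX : Res X) :
    e (AP 0 X) = AP 0 (e X) := by
  have key : ∀ (k : ℕ) (m : {m : ℕ // Odd m}), e (AP (2 ^ k) (X ⊔ Bn (m : ℕ))) =
      AP (2 ^ k) (e X ⊔ Bn (π m)) := by
    intro k m
    rw [map_AP h k m.2 le_sup_right, map_sup, h.bn]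
  rw [AP0_eq hX, AP0_eq (hX.map h), e.map_iInf]
  refine iInf_congr fun k => ?_
  rw [e.map_iInf]
  apply le_antisymm
  · refine le_iInf fun m' => ?_
    have hm : Odd (π.symm m') := by
      rw [← h.dvd.odd h.two, Equiv.apply_symm_apply]
      exact m'.2
    refine (iInf_le (fun m : {m : ℕ // Odd m} => e (AP (2 ^ k) (X ⊔ Bn (m : ℕ))))
      ⟨π.symm m', hm⟩).trans ?_
    rw [key, Equiv.apply_symm_apply]
  · refine le_iInf fun m => ?_
    rw [key]
    exact iInf_le (fun m : {m : ℕ // Odd m} => AP (2 ^ k) (e X ⊔ Bn (m : ℕ)))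
      ⟨π m, (h.dvd.odd h.two).2 m.2⟩

/-- Proof: `(der 1).1 = commutator F = (Ab 0).1` (`Ab0_eq`), and `der (c + 1) = AP 0 (der c)`
(`apow_zero`). -/
theorem der_one : der 1 = Ab 0 := by
  apply Subtype.ext
  rw [Ab0_eq]
  exact derivedSeries_one F

theorem der_succ (c : ℕ) : der (c + 1) = AP 0 (der c) := by
  apply Subtype.ext
  change derivedSeries F (c + 1) = apow 0 (derivedSeries F c)
  rw [apow_zero, derivedSeries_succ]

/-- Proof: induction, `Res_Ab0`, `Res.AP0`, `map_AP0`, `map_Ab0`. -/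
theorem Res_der (c : ℕ) : Res (der (c + 1)) := by
  induction c with
  | zero =>
    rw [zero_add, der_one]
    exact Res_Ab0
  | succ c ih =>
    rw [der_succ]
    exact ih.AP0

theorem map_der {e : FI ≃o FI} (c : ℕ) : e (der c) = der c := by
  obtain ⟨π, h⟩ := exists_adm e
  induction c with
  | zero =>
    have h0 : der 0 = ⊤ := rfl
    rw [h0, map_top]
  | succ c ih =>
    rcases c with _ | c
    · rw [zero_add, der_one]
      exact map_Ab0 e
    · rw [der_succ (c + 1), map_AP0 h (Res_der c), ih]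

end Pool.Agent.Lib.MP_4c5e24_al
end

section

set_option autoImplicit false

/-!
RIG-CC: every automorphism fixes the varieties of metabelian groups of class at most `c`, and `π`
is the identity.
-/

namespace Pool.Agent.Lib.MP_4c5e24_al

open scoped commutatorElement

/-- The class of the metabelian varieties which are determined by their groups of prime exponent
`p ∈ S`, for every infinite set `S` of primes. -/
def CC (H : FI) : Prop := der 2 ≤ H ∧ ∀ S : Set ℕ, S.Infinite → (∀ p ∈ S, p.Prime) →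
  ∀ w : F, (∀ p ∈ S, w ∈ (H ⊔ Bn p).1) → w ∈ H.1

/-- Proof: `MN_res`. -/
theorem CC_MN {c : ℕ} (hc : 1 ≤ c) : CC (MN c) := by
  exact ⟨le_sup_right, fun S hS hp w h => MN_res hc hS hp h⟩

/-- Proof. `der 2 = e (der 2) ≤ e H` (`map_der`). Let `S` be an infinite set of primes and `w` in all
`e H ⊔ Bn p`, `p ∈ S`. Use fully invariant subgroups: the condition on `S` says
`⨅ p : S, (H ⊔ Bn p) ≤ H` (`mem_iInf`); apply the hypothesis to the infinite set
`π.symm '' S` of primes, `e (H ⊔ Bn (π.symm p)) = e H ⊔ Bn p` and `OrderIso.map_iInf`. -/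
theorem CC_map {e : FI ≃o FI} {π : ℕ ≃ ℕ} (h : Adm e π) {H : FI} (hH : CC H) : CC (e H) := by
  refine ⟨?_, fun S hS hp w hw => ?_⟩
  · rw [← map_der (e := e) 2]
    exact e.monotone hH.1
  · have h1 : (⨅ p : (π.symm '' S : Set ℕ), (H ⊔ Bn (p : ℕ))) ≤ H := by
      rw [le_def]
      intro v hv
      rw [mem_iInf] at hv
      refine hH.2 (π.symm '' S) (hS.image π.symm.injective.injOn) ?_ v fun p hp => hv ⟨p, hp⟩
      rintro _ ⟨p, hpS, rfl⟩
      exact h.symm.dvd.prime.2 (hp p hpS)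
    have h2 := e.monotone h1
    rw [e.map_iInf] at h2
    refine h2 (mem_iInf.2 ?_)
    rintro ⟨_, p, hpS, rfl⟩
    rw [map_sup, h.bn, Equiv.apply_symm_apply]
    exact hw p hpS

/-- Proof. By `beta` there is `N ≠ 0` with `(lc x c) ^ N ∈ H ⊔ MN (c + 1)`. Let `S` be the set of the
primes which do not divide `N` (infinite: the prime divisors of `N` are finitely many). For `p ∈ S`,
`(lc x c) ^ p ∈ Bn p`, so `lc x c ∈ H ⊔ MN (c + 1) ⊔ Bn p` (`mem_of_pow`), and
`MN c ≤ (H ⊔ Bn p) ⊔ MN (c + 1)` (`MN_le_iff`, `der 2 ≤ H`). By `MN_le_exp`, `MN p ≤ H ⊔ Bn p`, so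
`MN c ≤ H ⊔ Bn p` by `MN_le_of_step`. Since `CC H`, `MN c ≤ H`. -/
theorem CC_step {c : ℕ} (hc : 1 ≤ c) {H : FI} (hH : CC H) (h1 : H ≤ MN c)
    (h2 : ¬ H ≤ MN (c + 1)) : MN c ≤ H := by
  obtain ⟨N, hN, hlc⟩ := beta hc h1 h2
  have hS : ({p : ℕ | p.Prime} \ {p : ℕ | p ∣ N}).Infinite := by
    refine Nat.infinite_setOfPred_prime.sdiff ?_
    refine (Nat.divisors N).finite_toSet.subset fun p hp => ?_
    rw [Finset.mem_coe, Nat.mem_divisors]
    exact ⟨hp, hN⟩
  rw [le_def]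
  intro w hw
  refine hH.2 _ hS (fun p hp => hp.1) w fun p hp => ?_
  have hp1 : p.Prime := hp.1
  have hp2 : ¬ p ∣ N := hp.2
  have hder : der 2 ≤ H ⊔ Bn p := hH.1.trans le_sup_left
  have h3 : MN c ≤ (H ⊔ Bn p) ⊔ MN (c + 1) := by
    rw [MN_le_iff (hder.trans le_sup_left)]
    refine mem_of_pow (m := N) (n := p) ((Nat.Prime.coprime_iff_not_dvd hp1).2 hp2).symm ?_ ?_
    · have h4 : H ⊔ MN (c + 1) ≤ (H ⊔ Bn p) ⊔ MN (c + 1) := sup_le_sup_right le_sup_left _
      exact h4 hlc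
    · have h4 : Bn p ≤ (H ⊔ Bn p) ⊔ MN (c + 1) := le_sup_right.trans le_sup_left
      exact h4 (pow_mem_Bn p _)
  have h5 : MN p ≤ H ⊔ Bn p := (MN_le_exp hp1).trans (sup_le hder le_sup_right)
  exact MN_le_of_step h5 h3 hw

/-- Proof: `(gam 1).1 = commutator F = (Ab 0).1` and `der 2 ≤ der 1`. -/
theorem MN_one : MN 1 = Ab 0 := by
  apply Subtype.ext
  rw [Ab0_eq, MN_coe]
  have h1 : (⊤ : Subgroup F).lowerCentralSeries 1 = commutator F := by
    rw [Subgroup.lowerCentralSeries_succ, Subgroup.lowerCentralSeries_zero]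
    rfl
  have h2 : derivedSeries F 2 ≤ commutator F := by
    rw [← derivedSeries_one F]
    exact derivedSeries_antitone F (by norm_num)
  rw [h1]
  exact sup_eq_left.2 h2

/-- Proof. Induction on `c` (for all `e`, `π` with `Adm e π` simultaneously). `c = 1`: `MN_one`,
`map_Ab0`. Step: let `e (MN c) = MN c`, `c ≥ 1`, for all `e`. `H = e (MN (c + 1))` satisfies `CC`
(`CC_MN`, `CC_map`), `H ≤ e (MN c) = MN c`. If `H` is not contained in `MN (c + 1)`, then
`MN c ≤ H` by `CC_step`, so `e (MN c) = MN c ≤ e (MN (c + 1))` and `MN c ≤ MN (c + 1)`, against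
`MN_strict`. So `e (MN (c + 1)) ≤ MN (c + 1)`. The same for `e.symm` (`Adm.symm`) gives the other
inclusion. -/
theorem map_MN {e : FI ≃o FI} {π : ℕ ≃ ℕ} (h : Adm e π) {c : ℕ} (hc : 1 ≤ c) :
    e (MN c) = MN c := by
  induction c, hc using Nat.le_induction generalizing e π with
  | base => rw [MN_one, map_Ab0]
  | succ c hc ih =>
    have key : ∀ {e : FI ≃o FI} {π : ℕ ≃ ℕ}, Adm e π → e (MN (c + 1)) ≤ MN (c + 1) := by
      intro e π h
      by_contra hcon
      have hle : MN (c + 1) ≤ MN c :=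
        sup_le_sup_right (Subgroup.lowerCentralSeries_antitone _ (Nat.le_succ c)) _
      have h1 : e (MN (c + 1)) ≤ MN c := by
        have h2 := e.monotone hle
        rwa [ih h] at h2
      have h3 := CC_step hc (CC_map h (CC_MN (Nat.le_add_left 1 c))) h1 hcon
      rw [← ih h, e.le_iff_le] at h3
      exact MN_strict hc h3
    apply le_antisymm (key h)
    have h4 := e.monotone (key h.symm)
    rwa [OrderIso.apply_symm_apply] at h4

/-- Proof. By `DvdAut.eq_id` it suffices to show `π p = p` for every prime `p`. `π 2 = 2`. Let `p` be an odd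
prime; `q = π p` is an odd prime (`Adm.oddPrime`). By `map_MN` and `map_der`,
`MN c ≤ der 2 ⊔ Bn p ↔ MN c ≤ der 2 ⊔ Bn q` for all `c ≥ 1`. By `MN_le_exp`, `MN p ≤ der 2 ⊔ Bn p`, so
`MN p ≤ der 2 ⊔ Bn q`, and `not_MN_le` gives `q < p + 2`. In the same way (`MN q ≤ der 2 ⊔ Bn q`) we get
`p < q + 2`. Both are odd, so `p = q`. -/
theorem pi_id {e : FI ≃o FI} {π : ℕ ≃ ℕ} (h : Adm e π) (n : ℕ) : π n = n := by
  have hmap : ∀ {e : FI ≃o FI} {π : ℕ ≃ ℕ}, Adm e π → ∀ {c : ℕ}, 1 ≤ c → ∀ p : ℕ,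
      MN c ≤ der 2 ⊔ Bn p → MN c ≤ der 2 ⊔ Bn (π p) := by
    intro e π h c hc p hle
    have h1 := e.monotone hle
    rwa [map_MN h hc, map_sup, map_der, h.bn] at h1
  refine h.dvd.eq_id (fun p hp => ?_) n
  by_cases h2 : p = 2
  · rw [h2, h.two]
  obtain ⟨hq, hq2⟩ := h.oddPrime hp h2
  have h3 := hmap h hp.one_lt.le p (MN_le_exp hp)
  have h4 : π p < p + 2 := by
    by_contra h5
    exact not_MN_le hq hp.one_lt.le (by omega) h3
  have h5 := hmap h.symm hq.one_lt.le (π p) (MN_le_exp hq)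
  rw [Equiv.symm_apply_apply] at h5
  have h6 : p < π p + 2 := by
    by_contra h7
    exact not_MN_le hp hq.one_lt.le (by omega) h5
  have h7 := hp.odd_of_ne_two h2
  have h8 := hq.odd_of_ne_two hq2
  obtain ⟨a, ha⟩ := h7
  obtain ⟨b, hb⟩ := h8
  omega

end Pool.Agent.Lib.MP_4c5e24_al
end
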