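import Mathlib

set_option autoImplicit false

/-!
Automorphisms of the lattice of group varieties: the definitions.
-/

namespace Pool.Agent.Lib.MP_4c5e24_al

open scoped commutatorElement

/-- The free group of countable rank. -/
abbrev F := FreeGroup ℕ

/-- The generators. -/
abbrev x (i : ℕ) : F := FreeGroup.of i

/-- The poset of the fully invariant subgroups of the free group of countable rank. It is dual to
the lattice of group varieties. -/
abbrev FI := {H : Subgroup (FreeGroup ℕ) // ∀ φ : FreeGroup ℕ →* FreeGroup ℕ, H.map φ ≤ H}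

theorem FI.map_mem (H : FI) (φ : F →* F) {w : F} (hw : w ∈ H.1) : φ w ∈ H.1 :=
  H.2 φ ⟨w, hw, rfl⟩

theorem fi_of {H : Subgroup F} (h : ∀ (φ : F →* F), ∀ w ∈ H, φ w ∈ H) :
    ∀ φ : F →* F, H.map φ ≤ H := by
  rintro φ _ ⟨w, hw, rfl⟩
  exact h φ w hw

instance FI.normal (H : FI) : H.1.Normal := by
  constructor
  intro w hw g
  have := H.map_mem (MulAut.conj g).toMonoidHom hw
  simpa using this

noncomputable instance instCompleteLatticeFI : CompleteLattice FI :=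
  { (inferInstance : PartialOrder FI) with
    sup := fun H K => ⟨H.1 ⊔ K.1, fun φ => by
      rw [Subgroup.map_sup]
      exact sup_le_sup (H.2 φ) (K.2 φ)⟩
    inf := fun H K => ⟨H.1 ⊓ K.1, fun φ =>
      le_inf ((Subgroup.map_mono inf_le_left).trans (H.2 φ))
        ((Subgroup.map_mono inf_le_right).trans (K.2 φ))⟩
    sSup := fun s => ⟨⨆ H ∈ s, (H : FI).1, fun φ => by
      rw [Subgroup.map_iSup]
      refine iSup_mono fun H => ?_
      rw [Subgroup.map_iSup]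
      exact iSup_mono fun _ => H.2 φ⟩
    sInf := fun s => ⟨⨅ H ∈ s, (H : FI).1, fun φ =>
      le_iInf fun H => le_iInf fun hH =>
        (Subgroup.map_mono (iInf_le_of_le H (iInf_le _ hH))).trans (H.2 φ)⟩
    top := ⟨⊤, fun _ => le_top⟩
    bot := ⟨⊥, fun φ => by rw [Subgroup.map_bot]⟩
    le_sup_left := fun H K => (le_sup_left : H.1 ≤ H.1 ⊔ K.1)
    le_sup_right := fun H K => (le_sup_right : K.1 ≤ H.1 ⊔ K.1)
    sup_le := fun H K L h1 h2 => (sup_le h1 h2 : H.1 ⊔ K.1 ≤ L.1)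
    inf_le_left := fun H K => (inf_le_left : H.1 ⊓ K.1 ≤ H.1)
    inf_le_right := fun H K => (inf_le_right : H.1 ⊓ K.1 ≤ K.1)
    le_inf := fun H K L h1 h2 => (le_inf h1 h2 : H.1 ≤ K.1 ⊓ L.1)
    isLUB_sSup := fun s => ⟨fun H hH => le_iSup_of_le (f := fun H : FI => ⨆ (_ : H ∈ s), H.1) H
        (le_iSup (f := fun _ : H ∈ s => H.1) hH),
      fun K hK => (iSup_le fun H => iSup_le fun hH => hK hH :
        ⨆ (H : FI) (_ : H ∈ s), H.1 ≤ K.1)⟩
    isGLB_sInf := fun s => ⟨fun H hH => iInf_le_of_le (f := fun H : FI => ⨅ (_ : H ∈ s), H.1) H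
        (iInf_le (f := fun _ : H ∈ s => H.1) hH),
      fun K hK => (le_iInf fun H => le_iInf fun hH => hK hH :
        K.1 ≤ ⨅ (H : FI) (_ : H ∈ s), H.1)⟩
    le_top := fun H => (le_top : H.1 ≤ ⊤)
    bot_le := fun H => (bot_le : ⊥ ≤ H.1) }

theorem coe_sup (H K : FI) : (H ⊔ K).1 = H.1 ⊔ K.1 := rfl
theorem coe_inf (H K : FI) : (H ⊓ K).1 = H.1 ⊓ K.1 := rfl
theorem coe_top : (⊤ : FI).1 = ⊤ := rfl
theorem coe_bot : (⊥ : FI).1 = ⊥ := rfl

theorem mem_inf {H K : FI} {w : F} : w ∈ (H ⊓ K).1 ↔ w ∈ H.1 ∧ w ∈ K.1 := Iff.rfl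

theorem mem_sInf {s : Set FI} {w : F} : w ∈ (sInf s).1 ↔ ∀ H ∈ s, w ∈ H.1 := by
  change w ∈ (⨅ H ∈ s, (H : FI).1 : Subgroup F) ↔ _
  simp only [Subgroup.mem_iInf]

theorem mem_iInf {ι : Sort*} {f : ι → FI} {w : F} : w ∈ (⨅ i, f i).1 ↔ ∀ i, w ∈ (f i).1 := by
  unfold iInf
  rw [mem_sInf]
  simp

theorem le_def {H K : FI} : H ≤ K ↔ ∀ w ∈ H.1, w ∈ K.1 := Iff.rfl

theorem mem_sup {H K : FI} {w : F} : w ∈ (H ⊔ K).1 ↔ ∃ h ∈ H.1, ∃ k ∈ K.1, h * k = w := by
  have h := Subgroup.mul_normal H.1 K.1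
  rw [coe_sup, ← SetLike.mem_coe, h, Set.mem_mul]
  rfl

/-- The laws of a group. -/
def laws (G : Type*) [Group G] : Subgroup F where
  carrier := {w | ∀ f : F →* G, f w = 1}
  mul_mem' := fun {a b} ha hb f => by rw [map_mul, ha f, hb f, mul_one]
  one_mem' := fun f => map_one f
  inv_mem' := fun {a} ha f => by rw [map_inv, ha f, inv_one]

theorem mem_laws {G : Type*} [Group G] {w : F} : w ∈ laws G ↔ ∀ f : F →* G, f w = 1 := Iff.rfl

/-- The laws of a group, as a fully invariant subgroup. -/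
def Laws (G : Type*) [Group G] : FI :=
  ⟨laws G, fi_of fun φ _ hw f => hw (f.comp φ)⟩

/-- The fully invariant subgroup generated by a set. -/
def verb (S : Set F) : FI :=
  ⟨Subgroup.closure {y | ∃ w ∈ S, ∃ φ : F →* F, y = φ w}, fun ψ => by
    rw [MonoidHom.map_closure, Subgroup.closure_le]
    rintro _ ⟨_, ⟨w, hw, φ, rfl⟩, rfl⟩
    exact Subgroup.subset_closure ⟨w, hw, ψ.comp φ, rfl⟩⟩

theorem verb_le {S : Set F} {H : FI} : verb S ≤ H ↔ S ⊆ H.1 := by
  constructor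
  · intro h w hw
    exact h (Subgroup.subset_closure ⟨w, hw, MonoidHom.id F, rfl⟩)
  · intro h
    refine (Subgroup.closure_le _).2 ?_
    rintro _ ⟨w, hw, φ, rfl⟩
    exact H.map_mem φ (h hw)

theorem map_mem_verb {S : Set F} {w : F} (hw : w ∈ S) (φ : F →* F) : φ w ∈ (verb S).1 :=
  Subgroup.subset_closure ⟨w, hw, φ, rfl⟩

/-- The laws of the groups whose exponent divides `n` (all groups for `n = 0`). -/
def Bn (n : ℕ) : FI := verb {x 0 ^ n}

theorem pow_mem_Bn (n : ℕ) (g : F) : g ^ n ∈ (Bn n).1 := by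
  have := map_mem_verb (S := {x 0 ^ n}) rfl (FreeGroup.lift (fun _ => g))
  rw [map_pow, FreeGroup.lift_apply_of] at this
  exact this

theorem Bn_le {n : ℕ} {H : FI} : Bn n ≤ H ↔ x 0 ^ n ∈ H.1 := by
  rw [Bn, verb_le, Set.singleton_subset_iff]
  rfl

theorem Bn_le' {n : ℕ} {H : FI} : Bn n ≤ H ↔ ∀ g : F, g ^ n ∈ H.1 :=
  ⟨fun h g => h (pow_mem_Bn n g), fun h => Bn_le.2 (h _)⟩

/-- The laws of the abelian groups whose exponent divides `n` (all abelian groups for `n = 0`). -/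
def Ab (n : ℕ) : FI := Laws (Multiplicative (ZMod n))

/-- The subgroup generated by the `m`-th powers and the commutators of the elements of `N`. -/
def apow (m : ℕ) (N : Subgroup F) : Subgroup F :=
  Subgroup.closure ({y | ∃ h ∈ N, y = h ^ m} ∪ {y | ∃ h ∈ N, ∃ k ∈ N, y = ⁅h, k⁆})

theorem apow_le {m : ℕ} {N K : Subgroup F} :
    apow m N ≤ K ↔ (∀ h ∈ N, h ^ m ∈ K) ∧ (∀ h ∈ N, ∀ k ∈ N, ⁅h, k⁆ ∈ K) := by
  unfold apow
  rw [Subgroup.closure_le]
  constructor
  · intro h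
    exact ⟨fun a ha => h (Or.inl ⟨a, ha, rfl⟩), fun a ha b hb => h (Or.inr ⟨a, ha, b, hb, rfl⟩)⟩
  · rintro ⟨h1, h2⟩ _ (⟨a, ha, rfl⟩ | ⟨a, ha, b, hb, rfl⟩)
    · exact h1 a ha
    · exact h2 a ha b hb

theorem pow_mem_apow {m : ℕ} {N : Subgroup F} {h : F} (hh : h ∈ N) : h ^ m ∈ apow m N :=
  Subgroup.subset_closure (Or.inl ⟨h, hh, rfl⟩)

theorem comm_mem_apow {m : ℕ} {N : Subgroup F} {h k : F} (hh : h ∈ N) (hk : k ∈ N) :
    ⁅h, k⁆ ∈ apow m N :=
  Subgroup.subset_closure (Or.inr ⟨h, hh, k, hk, rfl⟩)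

theorem apow_zero (N : Subgroup F) : apow 0 N = ⁅N, N⁆ := by
  apply le_antisymm
  · rw [apow_le]
    exact ⟨fun h _ => by simp, fun h hh k hk => Subgroup.commutator_mem_commutator hh hk⟩
  · rw [Subgroup.commutator_le]
    exact fun h hh k hk => comm_mem_apow hh hk

/-- The laws of the product variety `A_m X` (an abelian normal subgroup whose exponent divides `m`
with quotient in `X`), where `H` is the group of the laws of `X`; `m = 0` gives `A X`. -/
def AP (m : ℕ) (H : FI) : FI :=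
  ⟨apow m H.1, fi_of fun φ w hw => by
    have h : apow m H.1 ≤ (apow m H.1).comap φ := by
      rw [apow_le]
      refine ⟨fun h hh => ?_, fun h hh k hk => ?_⟩
      · rw [Subgroup.mem_comap, map_pow]
        exact pow_mem_apow (H.map_mem φ hh)
      · rw [Subgroup.mem_comap, map_commutatorElement]
        exact comm_mem_apow (H.map_mem φ hh) (H.map_mem φ hk)
    exact h hw⟩

theorem AP_le {m : ℕ} {H K : FI} :
    AP m H ≤ K ↔ (∀ h ∈ H.1, h ^ m ∈ K.1) ∧ (∀ h ∈ H.1, ∀ k ∈ H.1, ⁅h, k⁆ ∈ K.1) := apow_le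

theorem pow_mem_AP {m : ℕ} {H : FI} {h : F} (hh : h ∈ H.1) : h ^ m ∈ (AP m H).1 :=
  pow_mem_apow hh

theorem comm_mem_AP {m : ℕ} {H : FI} {h k : F} (hh : h ∈ H.1) (hk : k ∈ H.1) :
    ⁅h, k⁆ ∈ (AP m H).1 := comm_mem_apow hh hk

/-- The laws of the groups of nilpotency class at most `c`. -/
def gam (c : ℕ) : FI :=
  ⟨(⊤ : Subgroup F).lowerCentralSeries c, fun φ => by
    rw [Subgroup.map_lowerCentralSeries]
    exact Subgroup.lowerCentralSeries_mono c le_top⟩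

/-- The laws of the solvable groups of derived length at most `c`. -/
def der (c : ℕ) : FI :=
  ⟨derivedSeries F c, fun φ => map_derivedSeries_le_derivedSeries φ c⟩

/-- The laws of the metabelian groups of nilpotency class at most `c`. -/
noncomputable def MN (c : ℕ) : FI := gam c ⊔ der 2

theorem MN_coe (c : ℕ) :
    (MN c).1 = (⊤ : Subgroup F).lowerCentralSeries c ⊔ derivedSeries F 2 := rfl

end Pool.Agent.Lib.MP_4c5e24_al
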