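import Pool.Agent.Lib.MP_4c5e24_al.CC
import Pool.Agent.Lib.MP_4c5e24_al.Lc

section

set_option autoImplicit false

/-!
RIG2-Ps1: the product varieties `A_p A_q`: test groups, infinite intersections.
-/

namespace Pool.Agent.Lib.MP_4c5e24_al

open scoped commutatorElement

/-- The part of the rigidity theorem which is used below. -/
structure Fx (e : FI ≃o FI) : Prop where
  ab : ∀ n, e (Ab n) = Ab n
  bn : ∀ n, e (Bn n) = Bn n
  der : ∀ c, e (der c) = der c

theorem fx (e : FI ≃o FI) : Fx e := by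
  obtain ⟨π, h⟩ := exists_adm e
  exact ⟨fun n => by rw [h.ab, pi_id h], fun n => by rw [h.bn, pi_id h], fun c => map_der c⟩

/-- Test fields.

Proof: `K = AlgebraicClosure (ZMod p)`; since `n ≠ 0` in `K` there is a primitive `n`-th root of unity
(`HasEnoughRootsOfUnity`, or `IsAlgClosed` and the separable cyclotomic polynomial). -/
theorem exists_field {p n : ℕ} (hp : p.Prime) (hn : 0 < n) (hpn : Nat.Coprime p n) :
    ∃ (K : Type) (_ : Field K) (ζ : K), CharP K p ∧ IsPrimitiveRoot ζ n := by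
  have : Fact p.Prime := ⟨hp⟩
  have hch : CharP (AlgebraicClosure (ZMod p)) p :=
    charP_of_injective_algebraMap (algebraMap (ZMod p) (AlgebraicClosure (ZMod p))).injective p
  have hn0 : ((n : ℕ) : AlgebraicClosure (ZMod p)) ≠ 0 := by
    rw [Ne, CharP.cast_eq_zero_iff (AlgebraicClosure (ZMod p)) p]
    exact (Nat.Prime.coprime_iff_not_dvd hp).1 hpn
  have : NeZero ((n : ℕ) : AlgebraicClosure (ZMod p)) := ⟨hn0⟩
  have : NeZero n := ⟨hn.ne'⟩
  obtain ⟨ζ, hζ⟩ := HasEnoughRootsOfUnity.exists_primitiveRoot (AlgebraicClosure (ZMod p)) n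
  exact ⟨AlgebraicClosure (ZMod p), inferInstance, ζ, hch, hζ⟩

/-- Test groups: the affine maps `z ↦ ζ ^ k z + b` of a field of characteristic `p`, where `ζ` is a
primitive `n`-th root of unity.

The group is `Sd (Subgroup.zpowers u).subtype K` where `u : Kˣ` is the unit `ζ`; it has an element
`g` of the group part with `ρ g = ζ`. Proof: `AP_le_Laws_Sd`; the cyclic group
`Subgroup.zpowers u` is commutative and `g ^ n = 1` for all its elements, so it satisfies
`Ab n` (`Ab_le_Laws_comm` in `Dq1b`), `p • a = 0` in `K`. -/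
theorem test_laws {p n : ℕ} {K : Type} [Field K] [CharP K p] {u : Kˣ} (hu : u ^ n = 1) :
    AP p (Ab n) ≤ Laws (Sd (Subgroup.zpowers u).subtype K) := by
  refine AP_le_Laws_Sd (Ab_le_Laws_comm ?_) ?_
  · rintro ⟨a, ha⟩
    obtain ⟨k, rfl⟩ := Subgroup.mem_zpowers_iff.1 ha
    apply Subtype.ext
    rw [Subgroup.coe_pow, Subgroup.coe_one]
    change (u ^ k) ^ n = 1
    rw [← zpow_natCast, ← zpow_mul, mul_comm, zpow_mul, zpow_natCast, hu, one_zpow]
  · intro a
    rw [nsmul_eq_mul, CharP.cast_eq_zero, zero_mul]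

/-- Proof. Let `K`, `ζ` be as in `exists_field` for `p` and `n = q`, `u` the unit `ζ`,
`G = Sd (Subgroup.zpowers u).subtype K`, `g = ⟨u, _⟩`. The word `⁅x 0 ^ p, x 1 ^ p⁆` is in
`AP 0 (Ab p)`. At `x 0 ↦ (1, g)`, `x 1 ↦ (0, g)` its value is
`((ζ ^ p - 1) • 0 - (ζ ^ p - 1) • ∑ k < p, ζ ^ k, 1)` by `Sd.mk_pow` and `Sd.comm_mk`, and
`(ζ - 1) * ∑ k < p, ζ ^ k = ζ ^ p - 1 ≠ 0` because `q` does not divide `p`. So it is not a law of `G`,
but `AP p (Ab q) ≤ Laws G` (`test_laws`). -/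
theorem not_AP0_le {p q : ℕ} (hp : p.Prime) (hq : q.Prime) (hpq : p ≠ q) :
    ¬ AP 0 (Ab p) ≤ AP p (Ab q) := by
  intro hle
  obtain ⟨K, _, ζ, _, hζ⟩ := exists_field hp hq.pos ((Nat.coprime_primes hp hq).2 hpq)
  obtain ⟨u, hu⟩ := hζ.isUnit hq.ne_zero
  have hun : u ^ q = 1 := by
    apply Units.ext
    rw [Units.val_pow_eq_pow_val, hu, Units.val_one, hζ.pow_eq_one]
  have hw : ⁅x 0 ^ p, x 1 ^ p⁆ ∈ (AP 0 (Ab p)).1 := by
    have h1 : Bn p ≤ Ab p := by
      rw [← Bn_sup_Ab p]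
      exact le_sup_left
    exact comm_mem_AP (h1 (pow_mem_Bn p _)) (h1 (pow_mem_Bn p _))
  obtain ⟨g, hg⟩ : ∃ g : Subgroup.zpowers u, g = ⟨u, Subgroup.mem_zpowers u⟩ := ⟨_, rfl⟩
  have h2 := test_laws (p := p) (K := K) hun (hle hw)
    (FreeGroup.lift fun i => if i = 0 then ⟨1, g⟩ else ⟨0, g⟩)
  rw [map_commutatorElement, map_pow, map_pow, FreeGroup.lift_apply_of, FreeGroup.lift_apply_of,
    if_pos rfl, if_neg one_ne_zero, Sd.mk_pow, Sd.mk_pow, Sd.comm_mk _ _ _ _ rfl] at h2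
  have h3 := congrArg Sd.m h2
  have h4 : ((Subgroup.zpowers u).subtype (g ^ p) : K) = ζ ^ p := by
    rw [map_pow, Units.val_pow_eq_pow_val, hg]
    change (u : K) ^ p = ζ ^ p
    rw [hu]
  have h5 : ((Subgroup.zpowers u).subtype g : K) = ζ := by
    rw [hg]
    exact hu
  simp only [mul_zero, zero_sub, Sd.one_m, smul_eq_mul, mul_one, h4, h5, neg_eq_zero] at h3
  have h6 : ζ ^ p ≠ 1 := by
    intro h
    have h7 := (hζ.pow_eq_one_iff_dvd p).1 h
    exact hpq ((Nat.prime_dvd_prime_iff_eq hq hp).1 h7).symm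
  have h7 : ζ ^ p - 1 ≠ 0 := sub_ne_zero.2 h6
  have h8 : (∑ k ∈ Finset.range p, ζ ^ k) = 0 := by
    rcases mul_eq_zero.1 h3 with h | h
    · exact absurd h h7
    · exact h
  apply h7
  rw [← geom_sum_mul, h8, zero_mul]

/-- Proof: as `iInf_D` in `MagCor` (`mag_inf` with `m = 0`, `κ = S`, `ι = Unit`). -/
theorem iInf_D' {S : Set ℕ} (hS : S.Infinite) (X : FI) : ⨅ p : S, AP (p : ℕ) X = AP 0 X := by
  apply le_antisymm
  · intro w hw
    change w ∈ (⨅ q : S, AP (q : ℕ) X).1 at hw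
    rw [mem_iInf] at hw
    obtain ⟨q0, hq0⟩ := hS.nonempty
    have : Nonempty S := ⟨⟨q0, hq0⟩⟩
    refine mag_inf (ι := Unit) (κ := S) 0 X.1 (fun _ => X.1) (fun q => (q : ℕ))
      (fun _ => le_refl _) (fun T hT => ⟨(), hT⟩) (fun j => dvd_zero _) ?_ w (fun _ q => hw q)
    intro a ha
    have h0 : a = 0 := by
      by_contra hne
      obtain ⟨q, hq, hlt⟩ := hS.exists_gt a.natAbs
      have h1 : ((q : ℕ) : ℤ) ∣ a := ha ⟨q, hq⟩
      have h2 : q ∣ a.natAbs := Int.natCast_dvd.1 h1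
      have h3 := Nat.le_of_dvd (Int.natAbs_pos.2 hne) h2
      omega
    rw [h0]
    exact dvd_zero _
  · refine le_iInf fun q => AP_mono (dvd_zero _) (le_refl _)

/-- Proof: as `iInf_U` in `MagCor` (`mag_inf` with `m = n`, `κ = Unit`, `ι = S`). -/
theorem iInf_U' {S : Set ℕ} (hS : S.Infinite) (n : ℕ) :
    ⨅ p : S, AP n (Ab (p : ℕ)) = AP n (Ab 0) := by
  classical
  apply le_antisymm
  · intro w hw
    change w ∈ (⨅ q : S, AP n (Ab (q : ℕ))).1 at hw
    rw [mem_iInf] at hw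
    refine mag_inf (ι := S) (κ := Unit) n (Ab 0).1 (fun q => (Ab (q : ℕ)).1) (fun _ => n)
      (fun q => Ab0_le_Ab _) ?_ (fun _ => dvd_rfl) (fun a ha => ha ()) w (fun q _ => hw q)
    intro T hT
    have h1 : ∀ t : F, ∃ i : ℕ, t ∈ T → ex i t ≠ 0 := by
      intro t
      by_cases ht : t ∈ T
      · have h2 := hT t ht
        rw [mem_Ab] at h2
        push Not at h2
        obtain ⟨i, hi⟩ := h2
        refine ⟨i, fun _ h3 => hi ?_⟩
        rw [h3]
        exact dvd_zero _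
      · exact ⟨0, fun h => absurd h ht⟩
    choose i hi using h1
    obtain ⟨q, hq, hlt⟩ := hS.exists_gt (∑ t ∈ T, (ex (i t) t).natAbs)
    refine ⟨⟨q, hq⟩, fun t ht hmem => ?_⟩
    have h2 := (mem_Ab q t).1 hmem (i t)
    have h3 : q ∣ (ex (i t) t).natAbs := Int.natCast_dvd.1 h2
    have h4 := Nat.le_of_dvd (Int.natAbs_pos.2 (hi t ht)) h3
    have h5 : (ex (i t) t).natAbs ≤ ∑ t ∈ T, (ex (i t) t).natAbs :=
      Finset.single_le_sum (f := fun t => (ex (i t) t).natAbs) (fun _ _ => Nat.zero_le _) ht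
    omega
  · refine le_iInf fun q => AP_mono dvd_rfl (Ab0_le_Ab _)

end Pool.Agent.Lib.MP_4c5e24_al
end

section

section

set_option autoImplicit false

/-!
RIG-CL2: the varieties of class at most two.
-/

namespace Pool.Agent.Lib.MP_4c5e24_al

open scoped commutatorElement

/-- `MN 2` is the set of the laws of class two.

Proof: `der 2 ≤ gam 2` (indeed `⁅γ₂, γ₂⁆ ≤ ⁅γ₂, γ₁⁆`). -/
theorem MN_two : MN 2 = gam 2 := by
  have h : der 2 ≤ gam 2 := Subgroup.derived_le_lower_central (G := F) 2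
  exact sup_eq_left.2 h

section c2

variable {G : Type*} [Group G]

private lemma c2_mul_left (hG : ∀ a b c : G, ⁅a, b⁆ * c = c * ⁅a, b⁆) (a b c : G) :
    ⁅a * b, c⁆ = ⁅a, c⁆ * ⁅b, c⁆ := by
  calc ⁅a * b, c⁆ = (a * ⁅b, c⁆) * (c * a⁻¹ * c⁻¹) := by
        simp only [commutatorElement_def]; group
    _ = (⁅b, c⁆ * a) * (c * a⁻¹ * c⁻¹) := by rw [hG]
    _ = ⁅b, c⁆ * ⁅a, c⁆ := by simp only [commutatorElement_def]; group
    _ = ⁅a, c⁆ * ⁅b, c⁆ := hG _ _ _

private lemma c2_mul_right (hG : ∀ a b c : G, ⁅a, b⁆ * c = c * ⁅a, b⁆) (a b c : G) :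
    ⁅a, b * c⁆ = ⁅a, b⁆ * ⁅a, c⁆ := by
  calc ⁅a, b * c⁆ = ⁅a, b⁆ * (b * ⁅a, c⁆) * b⁻¹ := by
        simp only [commutatorElement_def]; group
    _ = ⁅a, b⁆ * (⁅a, c⁆ * b) * b⁻¹ := by rw [hG a c b]
    _ = ⁅a, b⁆ * ⁅a, c⁆ := by group

private lemma c2_inv_left (hG : ∀ a b c : G, ⁅a, b⁆ * c = c * ⁅a, b⁆) (a c : G) :
    ⁅a⁻¹, c⁆ = ⁅a, c⁆⁻¹ := by
  have h := c2_mul_left hG a⁻¹ a c
  rw [inv_mul_cancel, commutatorElement_one_left] at h
  exact eq_inv_of_mul_eq_one_left h.symm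

private lemma c2_inv_right (hG : ∀ a b c : G, ⁅a, b⁆ * c = c * ⁅a, b⁆) (a c : G) :
    ⁅a, c⁻¹⁆ = ⁅a, c⁆⁻¹ := by
  have h := c2_mul_right hG a c⁻¹ c
  rw [inv_mul_cancel, commutatorElement_one_right] at h
  exact eq_inv_of_mul_eq_one_left h.symm

private lemma c2_pow {a b z : G} (hz : b * a = z * (a * b)) (h1 : z * a = a * z)
    (h2 : z * b = b * z) (m : ℕ) : (a * b) ^ m = a ^ m * b ^ m * z ^ (m.choose 2) := by
  have hza : ∀ n : ℕ, z ^ n * a = a * z ^ n := fun n =>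
    (show Commute (z ^ n) a from (show Commute z a from h1).pow_left n)
  have hzb : ∀ n : ℕ, z ^ n * b = b * z ^ n := fun n =>
    (show Commute (z ^ n) b from (show Commute z b from h2).pow_left n)
  have hba : ∀ n : ℕ, b ^ n * a = z ^ n * (a * b ^ n) := by
    intro n
    induction n with
    | zero => simp
    | succ n ih =>
      calc b ^ (n + 1) * a = b * (b ^ n * a) := by rw [pow_succ', mul_assoc]
        _ = (b * z ^ n) * (a * b ^ n) := by rw [ih, mul_assoc]
        _ = z ^ n * (b * a) * b ^ n := by rw [← hzb]; simp only [mul_assoc]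
        _ = z ^ n * (z * (a * b)) * b ^ n := by rw [hz]
        _ = z ^ (n + 1) * (a * b ^ (n + 1)) := by
          rw [pow_succ z, pow_succ' b]; simp only [mul_assoc]
  have hzA : ∀ n k : ℕ, z ^ n * a ^ k = a ^ k * z ^ n := fun n k =>
    (show Commute (z ^ n) (a ^ k) from (show Commute (z ^ n) a from hza n).pow_right k)
  have hzB : ∀ n k : ℕ, z ^ n * b ^ k = b ^ k * z ^ n := fun n k =>
    (show Commute (z ^ n) (b ^ k) from (show Commute (z ^ n) b from hzb n).pow_right k)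
  induction m with
  | zero => simp
  | succ m ih =>
    have hc : (m + 1).choose 2 = m + m.choose 2 := by
      rw [Nat.choose_succ_succ' m 1, Nat.choose_one_right]
    calc (a * b) ^ (m + 1) = a ^ m * b ^ m * (z ^ (m.choose 2) * (a * b)) := by
          rw [pow_succ, ih]; simp only [mul_assoc]
      _ = a ^ m * b ^ m * (a * b * z ^ (m.choose 2)) := by
          congr 1
          calc z ^ (m.choose 2) * (a * b) = (z ^ (m.choose 2) * a) * b := (mul_assoc _ _ _).symm
            _ = a * (z ^ (m.choose 2) * b) := by rw [hza, mul_assoc]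
            _ = a * b * z ^ (m.choose 2) := by rw [hzb, mul_assoc]
      _ = a ^ m * (b ^ m * a) * b * z ^ (m.choose 2) := by simp only [mul_assoc]
      _ = (a ^ m * z ^ m) * (a * b ^ m) * b * z ^ (m.choose 2) := by
          rw [hba]; simp only [mul_assoc]
      _ = z ^ m * (a ^ (m + 1) * b ^ (m + 1)) * z ^ (m.choose 2) := by
          rw [← hzA, pow_succ a, pow_succ b]; simp only [mul_assoc]
      _ = a ^ (m + 1) * b ^ (m + 1) * (z ^ m * z ^ (m.choose 2)) := by
          have e : z ^ m * (a ^ (m + 1) * b ^ (m + 1)) = a ^ (m + 1) * b ^ (m + 1) * z ^ m := by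
            rw [← mul_assoc (z ^ m), hzA, mul_assoc, hzB, ← mul_assoc]
          rw [e, mul_assoc]
      _ = a ^ (m + 1) * b ^ (m + 1) * z ^ ((m + 1).choose 2) := by rw [← pow_add, hc]

end c2

private lemma c2_comm (a b : F) : ⁅a, b⁆ ∈ (⊤ : Subgroup F).lowerCentralSeries 1 :=
  Subgroup.commutator_mem_commutator (Subgroup.mem_top a) (Subgroup.mem_top b)

private lemma c2_quot {K : FI} (hK : gam 2 ≤ K) (a b c : F ⧸ K.1) : ⁅a, b⁆ * c = c * ⁅a, b⁆ := by
  obtain ⟨a, rfl⟩ := QuotientGroup.mk'_surjective _ a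
  obtain ⟨b, rfl⟩ := QuotientGroup.mk'_surjective _ b
  obtain ⟨c, rfl⟩ := QuotientGroup.mk'_surjective _ c
  have h1 : ⁅⁅a, b⁆, c⁆ ∈ K.1 :=
    hK (Subgroup.commutator_mem_commutator (c2_comm a b) (Subgroup.mem_top c))
  have h2 : QuotientGroup.mk' K.1 ⁅⁅a, b⁆, c⁆ = 1 := (QuotientGroup.eq_one_iff _).2 h1
  rw [map_commutatorElement, map_commutatorElement, commutatorElement_eq_one_iff_mul_comm] at h2
  exact h2

private lemma c2_mem {K : FI} (hK : gam 2 ≤ K) {u v : F}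
    (h : QuotientGroup.mk' (gam 2).1 u = QuotientGroup.mk' (gam 2).1 v) (hu : u ∈ K.1) :
    v ∈ K.1 := by
  have h1 : u⁻¹ * v ∈ (gam 2).1 := QuotientGroup.eq.1 h
  have h2 := mul_mem hu (hK h1)
  rwa [mul_inv_cancel_left] at h2

open scoped IsMulCommutative

/-- The description of the commutator words modulo class two. -/
private lemma c2_desc (w : F) (hw : w ∈ commutator F) :
    ∃ (s : Finset {p : ℕ × ℕ // p.1 < p.2}) (k : {p : ℕ × ℕ // p.1 < p.2} → ℤ)
      (z : {p : ℕ × ℕ // p.1 < p.2} → Subgroup.center (F ⧸ (gam 2).1)),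
      (∀ p, (z p : F ⧸ (gam 2).1) = QuotientGroup.mk' (gam 2).1 ⁅x p.1.1, x p.1.2⁆) ∧
      QuotientGroup.mk' (gam 2).1 w = ((∏ p ∈ s, z p ^ k p : Subgroup.center (F ⧸ (gam 2).1)) :
        F ⧸ (gam 2).1) := by
  obtain ⟨π, hπ⟩ : ∃ π : F →* F ⧸ (gam 2).1, π = QuotientGroup.mk' (gam 2).1 := ⟨_, rfl⟩
  have hG := c2_quot (le_refl (gam 2))
  have hc : ∀ a b : F ⧸ (gam 2).1, ⁅a, b⁆ ∈ Subgroup.center (F ⧸ (gam 2).1) := fun a b =>
    Subgroup.mem_center_iff.2 fun c => (hG a b c).symm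
  obtain ⟨cz, hcz⟩ : ∃ cz : F → F → Subgroup.center (F ⧸ (gam 2).1),
      ∀ a b, (cz a b : F ⧸ (gam 2).1) = ⁅π a, π b⁆ := ⟨fun a b => ⟨⁅π a, π b⁆, hc _ _⟩, fun a b => rfl⟩
  obtain ⟨P, hP⟩ : ∃ P : Subgroup (Subgroup.center (F ⧸ (gam 2).1)),
      P = Subgroup.closure (Set.range fun p : {p : ℕ × ℕ // p.1 < p.2} =>
        cz (x p.1.1) (x p.1.2)) := ⟨_, rfl⟩
  have s1 : ∀ i j, cz (x i) (x j) ∈ P := by
    intro i j
    rcases lt_trichotomy i j with h | h | h
    · rw [hP]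
      exact Subgroup.subset_closure ⟨⟨(i, j), h⟩, rfl⟩
    · subst h
      have e : cz (x i) (x i) = 1 := Subtype.ext (by
        rw [hcz, commutatorElement_self]; rfl)
      rw [e]
      exact one_mem _
    · have e : cz (x i) (x j) = (cz (x j) (x i))⁻¹ := Subtype.ext (by
        rw [hcz, Subgroup.coe_inv, hcz, commutatorElement_inv])
      rw [e]
      apply inv_mem
      rw [hP]
      exact Subgroup.subset_closure ⟨⟨(j, i), h⟩, rfl⟩
  have s2 : ∀ (j : ℕ) (a : F), cz a (x j) ∈ P := by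
    intro j a
    refine FreeGroup.induction_on (C := fun a => cz a (x j) ∈ P) a ?_ ?_ ?_ ?_
    · have e : cz 1 (x j) = 1 := Subtype.ext (by
        rw [hcz, map_one, commutatorElement_one_left]; rfl)
      rw [e]
      exact one_mem _
    · intro i
      exact s1 i j
    · intro i hi
      have e : cz (x i)⁻¹ (x j) = (cz (x i) (x j))⁻¹ := Subtype.ext (by
        rw [hcz, Subgroup.coe_inv, hcz, map_inv, c2_inv_left hG])
      show cz (x i)⁻¹ (x j) ∈ P
      rw [e]
      exact inv_mem hi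
    · intro a b ha hb
      have e : cz (a * b) (x j) = cz a (x j) * cz b (x j) := Subtype.ext (by
        rw [hcz, Subgroup.coe_mul, hcz, hcz, map_mul, c2_mul_left hG])
      rw [e]
      exact mul_mem ha hb
  have s3 : ∀ a b : F, cz a b ∈ P := by
    intro a b
    refine FreeGroup.induction_on (C := fun b => cz a b ∈ P) b ?_ ?_ ?_ ?_
    · have e : cz a 1 = 1 := Subtype.ext (by
        rw [hcz, map_one, commutatorElement_one_right]; rfl)
      rw [e]
      exact one_mem _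
    · intro i
      exact s2 i a
    · intro i hi
      have e : cz a (x i)⁻¹ = (cz a (x i))⁻¹ := Subtype.ext (by
        rw [hcz, Subgroup.coe_inv, hcz, map_inv, c2_inv_right hG])
      show cz a (x i)⁻¹ ∈ P
      rw [e]
      exact inv_mem hi
    · intro b c hb hc
      have e : cz a (b * c) = cz a b * cz a c := Subtype.ext (by
        rw [hcz, Subgroup.coe_mul, hcz, hcz, map_mul, c2_mul_right hG])
      rw [e]
      exact mul_mem hb hc
  have s4 : commutator F ≤ (P.map (Subgroup.center (F ⧸ (gam 2).1)).subtype).comap π := by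
    rw [commutator_def, Subgroup.commutator_le]
    intro a _ b _
    rw [Subgroup.mem_comap, map_commutatorElement]
    exact ⟨cz a b, s3 a b, hcz a b⟩
  obtain ⟨z, hz, hzw⟩ := s4 hw
  rw [hP] at hz
  obtain ⟨k, rfl⟩ := Subgroup.exists_finsupp_of_mem_closure_range _ _ hz
  refine ⟨k.support, k, fun p => cz (x p.1.1) (x p.1.2), ?_, ?_⟩
  · intro p
    rw [hcz, ← hπ, map_commutatorElement]
  · rw [← hπ, ← hzw]
    rfl

private lemma c2_rename {K : FI} (i j i' j' : ℕ) (hij : i ≠ j) {k : ℤ}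
    (h : ⁅x i, x j⁆ ^ k ∈ K.1) : ⁅x i', x j'⁆ ^ k ∈ K.1 := by
  have h1 := K.map_mem (FreeGroup.lift (fun l => if l = i then x i' else x j')) h
  rw [map_zpow, map_commutatorElement, FreeGroup.lift_apply_of, FreeGroup.lift_apply_of,
    if_pos rfl, if_neg hij.symm] at h1
  exact h1

/-- One pair of generators. -/
private lemma c2_pair {w : F} {s : Finset {p : ℕ × ℕ // p.1 < p.2}}
    {k : {p : ℕ × ℕ // p.1 < p.2} → ℤ}
    {z : {p : ℕ × ℕ // p.1 < p.2} → Subgroup.center (F ⧸ (gam 2).1)}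
    (hz : ∀ p, (z p : F ⧸ (gam 2).1) = QuotientGroup.mk' (gam 2).1 ⁅x p.1.1, x p.1.2⁆)
    (hw : QuotientGroup.mk' (gam 2).1 w =
      ((∏ p ∈ s, z p ^ k p : Subgroup.center (F ⧸ (gam 2).1)) : F ⧸ (gam 2).1))
    {K : FI} (hK : gam 2 ≤ K) (hwK : w ∈ K.1) {p : {p : ℕ × ℕ // p.1 < p.2}} (hp : p ∈ s) :
    ⁅x p.1.1, x p.1.2⁆ ^ k p ∈ K.1 := by
  classical
  obtain ⟨π, hπ⟩ : ∃ π : F →* F ⧸ (gam 2).1, π = QuotientGroup.mk' (gam 2).1 := ⟨_, rfl⟩
  obtain ⟨φ, hφ⟩ : ∃ φ : F →* F, ∀ l, φ (x l) = if l = p.1.1 ∨ l = p.1.2 then x l else 1 :=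
    ⟨FreeGroup.lift (fun l => if l = p.1.1 ∨ l = p.1.2 then x l else 1),
      fun l => FreeGroup.lift_apply_of⟩
  obtain ⟨ψ, hψ⟩ : ∃ ψ : (F ⧸ (gam 2).1) →* (F ⧸ (gam 2).1), ∀ u, ψ (π u) = π (φ u) := by
    refine ⟨QuotientGroup.map (gam 2).1 (gam 2).1 φ (fun u hu => (gam 2).map_mem φ hu), fun u => ?_⟩
    rw [hπ]
    rfl
  have hψz : ∀ q : {p : ℕ × ℕ // p.1 < p.2}, ψ (z q : F ⧸ (gam 2).1) =
      if q = p then (z p : F ⧸ (gam 2).1) else 1 := by
    intro q
    rw [hz, ← hπ, hψ, map_commutatorElement, hφ, hφ]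
    by_cases hq : q = p
    · subst hq
      rw [if_pos (Or.inl rfl), if_pos (Or.inr rfl), if_pos rfl, hz, hπ]
    · rw [if_neg hq]
      have hne : ¬ ((q.1.1 = p.1.1 ∨ q.1.1 = p.1.2) ∧ (q.1.2 = p.1.1 ∨ q.1.2 = p.1.2)) := by
        rintro ⟨h1, h2⟩
        apply hq
        have h3 := q.2
        have h4 := p.2
        apply Subtype.ext
        apply Prod.ext
        · omega
        · omega
      by_cases h1 : q.1.1 = p.1.1 ∨ q.1.1 = p.1.2
      · rw [if_neg (fun h2 => hne ⟨h1, h2⟩), commutatorElement_one_right, map_one]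
      · rw [if_neg h1, commutatorElement_one_left, map_one]
  have key : ∀ t : Finset {p : ℕ × ℕ // p.1 < p.2},
      ψ ((∏ q ∈ t, z q ^ k q : Subgroup.center (F ⧸ (gam 2).1)) : F ⧸ (gam 2).1) =
        if p ∈ t then (z p : F ⧸ (gam 2).1) ^ k p else 1 := by
    intro t
    induction t using Finset.induction_on with
    | empty => simp
    | insert q t hq ih =>
      rw [Finset.prod_insert hq, Subgroup.coe_mul, map_mul, ih, Subgroup.coe_zpow, map_zpow, hψz]
      by_cases h1 : q = p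
      · subst h1
        rw [if_pos rfl, if_neg hq, if_pos (Finset.mem_insert_self _ _), mul_one]
      · rw [if_neg h1, one_zpow, one_mul]
        by_cases h2 : p ∈ t
        · rw [if_pos h2, if_pos (Finset.mem_insert_of_mem h2)]
        · rw [if_neg h2, if_neg]
          rw [Finset.mem_insert]
          rintro (h3 | h3)
          · exact h1 h3.symm
          · exact h2 h3
  have h1 : π (φ w) = π (⁅x p.1.1, x p.1.2⁆ ^ k p) := by
    rw [← hψ, hπ, hw, key, if_pos hp, hz, map_zpow]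
  rw [hπ] at h1
  exact c2_mem hK h1 (K.map_mem φ hwK)

/-- The commutator words modulo class two.

Proof. `→`: apply the endomorphism which fixes `x 0`, `x 1` after renaming: let `w ∈ H` be a
commutator word. In `G = F ⧸ (gam 2).1` the commutator map is bilinear with central values, so
`⁅a, b⁆` for words `a`, `b` is the product of the `⁅x i, x j⁆ ^ (ex i a * ex j b)`. Define for
`i < j` the integer `f i j w` such that the image of `w` in `G` under the endomorphism which fixes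
`x i`, `x j` and kills the other generators is `⁅x i, x j⁆ ^ (f i j w)`; every commutator word is
modulo `gam 2` the product of the `⁅x i, x j⁆ ^ (f i j w)`, `i < j`. To keep the statement simple, we
only claim the following form: if `K`, `H` contain `gam 2` and for all integers `k`,
`⁅x 0, x 1⁆ ^ k ∈ K → ⁅x 0, x 1⁆ ^ k ∈ H`, then every commutator word in `K` is in `H`.
Proof of this: let `w ∈ K` be a commutator word. Modulo `gam 2`, `w` is a finite product of
`⁅x i, x j⁆ ^ k_ij` with `i < j` (the commutator subgroup is generated modulo `gam 2` by the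
commutators of the generators, which are central: `Subgroup.closure_induction` on the description of
the commutator subgroup, bilinearity, `⁅x j, x i⁆ = ⁅x i, x j⁆⁻¹`). For fixed `i < j` apply the
endomorphism `φ` which fixes `x i`, `x j` and kills the other generators:
`φ w ≡ ⁅x i, x j⁆ ^ k_ij` modulo `gam 2` and `φ w ∈ K`. So `⁅x i, x j⁆ ^ k_ij ∈ K`, and by
renaming (an endomorphism with `x i ↦ x 0`, `x j ↦ x 1`) `⁅x 0, x 1⁆ ^ k_ij ∈ K`, so it is in `H`,
and by renaming `⁅x i, x j⁆ ^ k_ij ∈ H`. Hence `w ∈ H`. -/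
theorem comm_mem_of {K H : FI} (hK : gam 2 ≤ K) (hH : gam 2 ≤ H)
    (h : ∀ k : ℤ, ⁅x 0, x 1⁆ ^ k ∈ K.1 → ⁅x 0, x 1⁆ ^ k ∈ H.1) {w : F} (hw : w ∈ K.1)
    (hc : w ∈ (Ab 0).1) : w ∈ H.1 := by
  rw [Ab0_eq] at hc
  obtain ⟨s, k, z, hz, hws⟩ := c2_desc w hc
  have h1 : ∀ p ∈ s, ⁅x p.1.1, x p.1.2⁆ ^ k p ∈ H.1 := by
    intro p hp
    have h2 := c2_pair hz hws hK hw hp
    have h3 := h _ (c2_rename _ _ 0 1 (ne_of_lt p.2) h2)
    exact c2_rename 0 1 _ _ zero_ne_one h3
  have h2 : (∏ p ∈ s, z p ^ k p : Subgroup.center (F ⧸ (gam 2).1)) ∈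
      (H.1.map (QuotientGroup.mk' (gam 2).1)).comap
        (Subgroup.center (F ⧸ (gam 2).1)).subtype := by
    refine Subgroup.prod_mem _ fun p hp => ?_
    refine ⟨_, h1 p hp, ?_⟩
    rw [map_zpow, ← hz]
    rfl
  obtain ⟨u, hu, huw⟩ := h2
  refine c2_mem hH ?_ hu
  rw [huw, hws]
  rfl

/-- The Heisenberg group over `ZMod n`. -/
private structure Hei (n : ℕ) where
  a : ZMod n
  b : ZMod n
  c : ZMod n

private theorem Hei.ext' {n : ℕ} {u v : Hei n} (h1 : u.a = v.a) (h2 : u.b = v.b)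
    (h3 : u.c = v.c) : u = v := by
  cases u
  cases v
  simp only at h1 h2 h3
  subst h1 h2 h3
  rfl

private instance Hei.group (n : ℕ) : Group (Hei n) where
  mul u v := ⟨u.a + v.a, u.b + v.b, u.c + v.c + u.a * v.b⟩
  one := ⟨0, 0, 0⟩
  inv u := ⟨-u.a, -u.b, -u.c + u.a * u.b⟩
  mul_assoc u v w := Hei.ext' (add_assoc _ _ _) (add_assoc _ _ _) (by
    show u.c + v.c + u.a * v.b + w.c + (u.a + v.a) * w.b =
      u.c + (v.c + w.c + v.a * w.b) + u.a * (v.b + w.b)
    ring)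
  one_mul u := Hei.ext' (zero_add _) (zero_add _) (by
    show 0 + u.c + 0 * u.b = u.c
    ring)
  mul_one u := Hei.ext' (add_zero _) (add_zero _) (by
    show u.c + 0 + u.a * 0 = u.c
    ring)
  inv_mul_cancel u := Hei.ext' (neg_add_cancel _) (neg_add_cancel _) (by
    show -u.c + u.a * u.b + u.c + -u.a * u.b = 0
    ring)

private lemma Hei.mul_def {n : ℕ} (u v : Hei n) :
    u * v = ⟨u.a + v.a, u.b + v.b, u.c + v.c + u.a * v.b⟩ := rfl

private lemma Hei.one_def {n : ℕ} : (1 : Hei n) = ⟨0, 0, 0⟩ := rfl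

private lemma Hei.inv_def {n : ℕ} (u : Hei n) : u⁻¹ = ⟨-u.a, -u.b, -u.c + u.a * u.b⟩ := rfl

private lemma Hei.comm_def {n : ℕ} (u v : Hei n) : ⁅u, v⁆ = ⟨0, 0, u.a * v.b - v.a * u.b⟩ := by
  rw [commutatorElement_def]
  simp only [Hei.mul_def, Hei.inv_def]
  refine Hei.ext' ?_ ?_ ?_
  · simp only
    ring
  · simp only
    ring
  · simp only
    ring

private lemma Hei.pow_def {n : ℕ} (u : Hei n) (m : ℕ) :
    u ^ m = ⟨m * u.a, m * u.b, m * u.c + (m.choose 2 : ℕ) * (u.a * u.b)⟩ := by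
  induction m with
  | zero =>
    rw [pow_zero, Hei.one_def]
    refine Hei.ext' ?_ ?_ ?_ <;> simp
  | succ m ih =>
    have hc : (m + 1).choose 2 = m + m.choose 2 := by
      rw [Nat.choose_succ_succ' m 1, Nat.choose_one_right]
    rw [pow_succ, ih, Hei.mul_def, hc]
    refine Hei.ext' ?_ ?_ ?_
    · simp only
      push_cast
      ring
    · simp only
      push_cast
      ring
    · simp only
      push_cast
      ring

private lemma Hei.z_zpow {n : ℕ} (k : ℤ) : (⟨0, 0, 1⟩ : Hei n) ^ k = ⟨0, 0, (k : ZMod n)⟩ := by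
  have hn : ∀ m : ℕ, (⟨0, 0, 1⟩ : Hei n) ^ m = ⟨0, 0, (m : ZMod n)⟩ := by
    intro m
    rw [Hei.pow_def]
    refine Hei.ext' ?_ ?_ ?_ <;> simp
  obtain ⟨m, rfl | rfl⟩ := k.eq_nat_or_neg
  · rw [zpow_natCast, hn, Int.cast_natCast]
  · rw [zpow_neg, zpow_natCast, hn, Hei.inv_def]
    refine Hei.ext' ?_ ?_ ?_ <;> simp

private lemma Hei.gam (n : ℕ) : gam 2 ≤ Laws (Hei n) := by
  intro w hw f
  have h1 : f w ∈ (⊤ : Subgroup (Hei n)).lowerCentralSeries 2 := by
    have h2 : f w ∈ ((⊤ : Subgroup F).lowerCentralSeries 2).map f := ⟨w, hw, rfl⟩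
    rw [Subgroup.map_lowerCentralSeries] at h2
    exact Subgroup.lowerCentralSeries_mono 2 le_top h2
  have h2 : (⊤ : Subgroup (Hei n)).lowerCentralSeries 1 ≤ Subgroup.center (Hei n) := by
    rw [Subgroup.lowerCentralSeries_succ, Subgroup.lowerCentralSeries_zero,
      Subgroup.commutator_le]
    intro u _ v _
    rw [Subgroup.mem_center_iff]
    intro t
    rw [Hei.comm_def, Hei.mul_def, Hei.mul_def]
    refine Hei.ext' ?_ ?_ ?_
    · simp only
      ring
    · simp only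
      ring
    · simp only
      ring
  have h3 : (⊤ : Subgroup (Hei n)).lowerCentralSeries 2 ≤ ⊥ := by
    rw [Subgroup.lowerCentralSeries_succ, Subgroup.commutator_le]
    intro u hu v _
    rw [Subgroup.mem_bot, commutatorElement_eq_one_iff_mul_comm]
    exact ((Subgroup.mem_center_iff.1 (h2 hu)) v).symm
  exact Subgroup.mem_bot.1 (h3 h1)

private lemma Hei.bn (n : ℕ) : Bn (if Odd n then n else 2 * n) ≤ Laws (Hei n) := by
  rw [Bn_le]
  intro f
  rw [map_pow, Hei.pow_def, Hei.one_def]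
  have h1 : ((if Odd n then n else 2 * n : ℕ) : ZMod n) = 0 := by
    split_ifs
    · exact ZMod.natCast_self n
    · rw [Nat.cast_mul, ZMod.natCast_self, mul_zero]
  have h2 : (((if Odd n then n else 2 * n).choose 2 : ℕ) : ZMod n) = 0 := by
    rw [ZMod.natCast_eq_zero_iff]
    split_ifs with h
    · obtain ⟨l, hl⟩ := h
      have e : n.choose 2 = n * l := by
        rw [Nat.choose_two_right, hl, Nat.add_sub_cancel, mul_comm 2 l, ← mul_assoc,
          Nat.mul_div_cancel _ (by norm_num)]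
      rw [e]
      exact dvd_mul_right _ _
    · have e : (2 * n).choose 2 = n * (2 * n - 1) := by
        rw [Nat.choose_two_right, mul_assoc, Nat.mul_div_cancel_left _ (by norm_num)]
      rw [e]
      exact dvd_mul_right _ _
  refine Hei.ext' ?_ ?_ ?_
  · simp only [h1, zero_mul]
  · simp only [h1, zero_mul]
  · simp only [h1, h2, zero_mul, add_zero]

/-- The commutators in the laws of class two and exponent `n'`.

Let `n' = n` for odd `n` and `n' = 2 n` for even `n` (for `n = 0` also `n' = 0`). Proof. `←`: it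
suffices that `⁅x 0, x 1⁆ ^ n ∈ gam 2 ⊔ Bn n'`. For odd `n` this is clear (`pow_mem_Bn`). Let `n` be
even, `n' = 2 n`. In class two `(a * b) ^ m = a ^ m * b ^ m * ⁅b, a⁆ ^ (m (m - 1) / 2)`; for `m = 2 n` this
gives `⁅b, a⁆ ^ (n (2 n - 1)) ∈ gam 2 ⊔ Bn (2 n)`, and `⁅b, a⁆ ^ (2 n)` is in it as well; the
greatest common divisor of `n (2 n - 1)` and `2 n` is `n`. `→`: the Heisenberg group over
`ZMod n`: on `ZMod n × ZMod n × ZMod n` put
`(a, b, c) * (a', b', c') = (a + a', b + b', c + c' + a * b')`. It has class two, the `m`-th power of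
`(a, b, c)` is `(m a, m b, m c + (m (m - 1) / 2) a b)`, so its exponent divides `n'`, and the
commutator of `(1, 0, 0)` and `(0, 1, 0)` is `(0, 0, 1)`, of order exactly `n` (infinite for
`n = 0`). -/
theorem comm_pow_mem_iff (n : ℕ) (k : ℤ) :
    ⁅x 0, x 1⁆ ^ k ∈ (gam 2 ⊔ Bn (if Odd n then n else 2 * n)).1 ↔ (n : ℤ) ∣ k := by
  constructor
  · intro h
    have hle : gam 2 ⊔ Bn (if Odd n then n else 2 * n) ≤ Laws (Hei n) :=
      sup_le (Hei.gam n) (Hei.bn n)
    have h1 := hle h (FreeGroup.lift (fun i => if i = 0 then (⟨1, 0, 0⟩ : Hei n) else ⟨0, 1, 0⟩))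
    rw [map_zpow, map_commutatorElement, FreeGroup.lift_apply_of, FreeGroup.lift_apply_of,
      if_pos rfl, if_neg one_ne_zero, Hei.comm_def] at h1
    have h2 : (⟨0, 0, (1 : ZMod n) * 1 - 0 * 0⟩ : Hei n) = ⟨0, 0, 1⟩ := by
      refine Hei.ext' rfl rfl ?_
      simp
    simp only at h1
    rw [h2, Hei.z_zpow, Hei.one_def] at h1
    have h3 := congrArg Hei.c h1
    simp only at h3
    exact (CharP.intCast_eq_zero_iff (ZMod n) n _).1 h3
  · rintro ⟨l, rfl⟩
    rw [zpow_mul, zpow_natCast]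
    apply Subgroup.zpow_mem
    have hgam : gam 2 ≤ gam 2 ⊔ Bn (if Odd n then n else 2 * n) := le_sup_left
    have hBn : Bn (if Odd n then n else 2 * n) ≤ gam 2 ⊔ Bn (if Odd n then n else 2 * n) :=
      le_sup_right
    by_cases hn : Odd n
    · apply hBn
      rw [if_pos hn]
      exact pow_mem_Bn n _
    · rw [if_neg hn] at hgam hBn ⊢
      obtain ⟨L, hL⟩ : ∃ L : FI, L = gam 2 ⊔ Bn (2 * n) := ⟨_, rfl⟩
      rw [← hL] at hgam hBn ⊢
      rcases Nat.eq_zero_or_pos n with hn0 | hn0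
      · rw [hn0, pow_zero]
        exact one_mem _
      obtain ⟨π, hπ⟩ : ∃ π : F →* F ⧸ L.1, π = QuotientGroup.mk' L.1 := ⟨_, rfl⟩
      have hπ1 : ∀ u : F, π u = 1 ↔ u ∈ L.1 := fun u => by
        rw [hπ]
        exact QuotientGroup.eq_one_iff u
      have hpow : ∀ u : F, π u ^ (2 * n) = 1 := by
        intro u
        rw [← map_pow, hπ1]
        exact hBn (pow_mem_Bn (2 * n) u)
      have hG := c2_quot hgam
      have hz : π (x 1) * π (x 0) = ⁅π (x 1), π (x 0)⁆ * (π (x 0) * π (x 1)) := by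
        rw [commutatorElement_def]
        group
      have h1 := c2_pow hz (hG _ _ _) (hG _ _ _) (2 * n)
      rw [← map_mul, hpow, hpow, hpow, one_mul, one_mul] at h1
      have h2 : ⁅π (x 1), π (x 0)⁆ ^ (2 * n) = 1 := by
        rw [← map_commutatorElement]
        exact hpow _
      have e : (2 * n).choose 2 = n * (2 * n - 1) := by
        rw [Nat.choose_two_right, mul_assoc, Nat.mul_div_cancel_left _ (by norm_num)]
      have e2 : n * (2 * n - 1) + n = 2 * n * n := by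
        obtain ⟨q, rfl⟩ : ∃ q, n = q + 1 := ⟨n - 1, by omega⟩
        have : 2 * (q + 1) - 1 = 2 * q + 1 := by omega
        rw [this]
        ring
      have h3 : ⁅π (x 1), π (x 0)⁆ ^ n = 1 := by
        have h4 : ⁅π (x 1), π (x 0)⁆ ^ (n * (2 * n - 1) + n) = 1 := by
          rw [e2, pow_mul, h2, one_pow]
        rw [pow_add, ← e, ← h1, one_mul] at h4
        exact h4
      rw [← hπ1, map_pow, map_commutatorElement, ← commutatorElement_inv, inv_pow, h3, inv_one]

/-- The classification of the varieties of class at most two.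

Proof. Let `gam 2 ≤ H`. By `exists_Ab`-like argument (`Bn_le_iff`, `exists_Ab` for `H ⊔ Ab 0`)
`H ⊔ Ab 0 = Ab m` for some `m`; `Bn m ≤ H`. The integers `k` with `⁅x 0, x 1⁆ ^ k ∈ H` are the
multiples of some `n : ℕ` (`Int.subgroup_cyclic`). Let `n' = n` if `n` is odd and `n' = 2 n`
otherwise. Claim 1: `n' ∣ m`. In `F ⧸ H`, `⁅x 0, x 1⁆ ^ m = ⁅x 0 ^ m, x 1⁆ = 1` and
`⁅x 1, x 0⁆ ^ (m (m - 1) / 2) = 1` (from `(x 0 * x 1) ^ m = 1`), so `n ∣ m` and
`n ∣ m (m - 1) / 2`; if `n` is even, then `m` is even, `m - 1` is odd and coprime to ..: from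
`n ∣ m` write `m = n l`; `n ∣ m (m - 1) / 2` means `2 n ∣ n l (m - 1)`, `2 ∣ l (m - 1)`, `m - 1` odd
(if `m ≠ 0`), so `2 ∣ l` and `2 n ∣ m` (if `m = 0` nothing is to be shown; if `n = 0` then `m = 0`).
Claim 2: `H = Ab m ⊓ (gam 2 ⊔ Bn n')`. Let `w : F` and let `y` be the product of the
`x i ^ ex i w` over the finite set of the `i` with `ex i w ≠ 0` in increasing order; `w = y * v` with
`v ∈ Ab 0` (`mem_Ab`). If `w ∈ H` or if `w ∈ Ab m`, then `m ∣ ex i w` for all `i` (`H ≤ Ab m`), so `y ∈ Bn m`,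
`Bn m ≤ H` and `Bn m ≤ Bn n'` (`Bn_le_Bn`). So it suffices to show for commutator words `v`:
`v ∈ H ↔ v ∈ gam 2 ⊔ Bn n'`; this follows from `comm_mem_of` (in both directions) and
`comm_pow_mem_iff`. -/
theorem class2 {H : FI} (h : gam 2 ≤ H) : ∃ m n : ℕ, H = Ab m ⊓ (gam 2 ⊔ Bn n) := by
  obtain ⟨m, hm⟩ := exists_Ab (H := H ⊔ Ab 0) le_sup_right
  have hBm : Bn m ≤ H := Bn_le_iff.2 hm.ge
  let D : AddSubgroup ℤ :=
    { carrier := {k | ⁅x 0, x 1⁆ ^ k ∈ H.1}
      zero_mem' := by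
        change ⁅x 0, x 1⁆ ^ (0 : ℤ) ∈ H.1
        rw [zpow_zero]
        exact one_mem _
      add_mem' := fun {a b} ha hb => by
        change ⁅x 0, x 1⁆ ^ (a + b) ∈ H.1
        rw [zpow_add]
        exact mul_mem ha hb
      neg_mem' := fun {a} ha => by
        change ⁅x 0, x 1⁆ ^ (-a) ∈ H.1
        rw [zpow_neg]
        exact inv_mem ha }
  have hD : ∀ k : ℤ, k ∈ D ↔ ⁅x 0, x 1⁆ ^ k ∈ H.1 := fun k => Iff.rfl
  obtain ⟨g, hg⟩ := Int.subgroup_cyclic D
  obtain ⟨n, hn⟩ : ∃ n : ℕ, n = g.natAbs := ⟨_, rfl⟩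
  have key : ∀ k : ℤ, ⁅x 0, x 1⁆ ^ k ∈ H.1 ↔ (n : ℤ) ∣ k := by
    intro k
    rw [← hD, hg, hn, Int.natAbs_dvd, AddSubgroup.mem_closure_singleton]
    constructor
    · rintro ⟨c, rfl⟩
      exact ⟨c, by rw [smul_eq_mul, mul_comm]⟩
    · rintro ⟨c, rfl⟩
      exact ⟨c, by rw [smul_eq_mul, mul_comm]⟩
  have hpow : ∀ u : F, u ^ m ∈ H.1 := Bn_le'.1 hBm
  have hnm : n ∣ m := by
    have h1 : ⁅x 0, x 1⁆ ^ (m : ℤ) ∈ H.1 := by
      rw [zpow_natCast]
      exact hpow _
    exact Int.natCast_dvd_natCast.1 ((key _).1 h1)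
  have hn' : (if Odd n then n else 2 * n) ∣ m := by
    split_ifs with hodd
    · exact hnm
    · rw [Nat.not_odd_iff_even] at hodd
      have h1 : n ∣ m.choose 2 := by
        have hG := c2_quot h
        obtain ⟨π, hπ⟩ : ∃ π : F →* F ⧸ H.1, π = QuotientGroup.mk' H.1 := ⟨_, rfl⟩
        have hπ1 : ∀ u : F, π u = 1 ↔ u ∈ H.1 := fun u => by
          rw [hπ]
          exact QuotientGroup.eq_one_iff u
        have hz : π (x 1) * π (x 0) = ⁅π (x 1), π (x 0)⁆ * (π (x 0) * π (x 1)) := by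
          rw [commutatorElement_def]
          group
        have h1 := c2_pow hz (hG _ _ _) (hG _ _ _) m
        rw [← map_mul, ← map_pow, ← map_pow, ← map_pow, (hπ1 _).2 (hpow _), (hπ1 _).2 (hpow _),
          (hπ1 _).2 (hpow _), one_mul, one_mul] at h1
        have h2 : ⁅x 0, x 1⁆ ^ ((m.choose 2 : ℕ) : ℤ) ∈ H.1 := by
          rw [zpow_natCast, ← hπ1, map_pow, map_commutatorElement, ← commutatorElement_inv,
            inv_pow, ← h1, inv_one]
        exact Int.natCast_dvd_natCast.1 ((key _).1 h2)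
      obtain ⟨l, rfl⟩ := hnm
      rcases Nat.eq_zero_or_pos n with hn0 | hn0
      · rw [hn0]
        simp
      rcases Nat.eq_zero_or_pos (n * l) with hm0 | hm0
      · rw [hm0]
        exact dvd_zero _
      obtain ⟨e, he⟩ := h1
      have h2 : n * l * (n * l - 1) = n * (2 * e) := by
        have h3 := Nat.choose_two_right (n * l)
        have h4 : Even (n * l * (n * l - 1)) := Nat.even_mul_pred_self _
        obtain ⟨f, hf⟩ := h4
        rw [hf] at h3 ⊢
        have h5 : (f + f) / 2 = f := by omega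
        rw [h5, he] at h3
        rw [← h3]
        ring
      have h3 : l * (n * l - 1) = 2 * e := by
        apply Nat.eq_of_mul_eq_mul_left hn0
        rw [← h2]
        ring
      have h4 : Even l := by
        by_contra hl
        rw [Nat.not_even_iff_odd] at hl
        have h5 : Even (n * l) := hodd.mul_right l
        have h6 : Odd (n * l - 1) := Nat.Even.sub_odd (by omega) h5 odd_one
        have h7 : Odd (l * (n * l - 1)) := hl.mul h6
        rw [h3] at h7
        exact (Nat.not_odd_iff_even.2 (even_two_mul e)) h7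
      obtain ⟨q, hq⟩ := h4
      exact ⟨q, by rw [hq]; ring⟩
  refine ⟨m, if Odd n then n else 2 * n, ?_⟩
  obtain ⟨L, hL⟩ : ∃ L : FI, L = gam 2 ⊔ Bn (if Odd n then n else 2 * n) := ⟨_, rfl⟩
  have hkey : ∀ k : ℤ, ⁅x 0, x 1⁆ ^ k ∈ H.1 ↔ ⁅x 0, x 1⁆ ^ k ∈ L.1 := by
    intro k
    rw [key, hL, comm_pow_mem_iff]
  have hgL : gam 2 ≤ L := by rw [hL]; exact le_sup_left
  have hBL : Bn m ≤ L := by
    rw [hL]
    exact (Bn_le_Bn.2 hn').trans le_sup_right
  rw [← hL]
  have hdec : ∀ w ∈ (Ab m).1, ∃ y ∈ (Bn m).1, ∃ c ∈ (Ab 0).1, y * c = w := by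
    intro w hw
    rw [← Bn_sup_Ab] at hw
    exact mem_sup.1 hw
  have hHA : H ≤ Ab m := by
    rw [← hm]
    exact le_sup_left
  apply le_antisymm
  · refine le_inf hHA ?_
    intro w hw
    obtain ⟨y, hy, c, hc, rfl⟩ := hdec w (hHA hw)
    have hcH : c ∈ H.1 := by
      have h1 := mul_mem (inv_mem (hBm hy)) hw
      rwa [inv_mul_cancel_left] at h1
    exact mul_mem (hBL hy) (comm_mem_of h hgL (fun k hk => (hkey k).1 hk) hcH hc)
  · intro w hw
    obtain ⟨hw1, hw2⟩ := mem_inf.1 hw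
    obtain ⟨y, hy, c, hc, rfl⟩ := hdec w hw1
    have hcL : c ∈ L.1 := by
      have h1 := mul_mem (inv_mem (hBL hy)) hw2
      rwa [inv_mul_cancel_left] at h1
    exact mul_mem (hBm hy) (comm_mem_of hgL h (fun k hk => (hkey k).2 hk) hcL hc)

end Pool.Agent.Lib.MP_4c5e24_al
end

section

set_option autoImplicit false

/-!
Rigidity theorem: assembly.
-/

namespace Pool.Agent.Lib.MP_4c5e24_al

open scoped commutatorElement

/-- Varieties of odd exponent are residually of odd exponent. -/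
theorem Res_of_Bn {X : FI} {m : ℕ} (hm : Odd m) (hX : Bn m ≤ X) : Res X := by
  intro w hw
  have h := hw m hm
  rwa [sup_eq_left.2 hX] at h

/-- The product `A_(2^k) X` for `X` residually of odd exponent, as an intersection. -/
theorem Res.mem_AP_two {X : FI} (h : Res X) (k : ℕ) {w : F}
    (hw : ∀ m : ℕ, Odd m → w ∈ (AP (2 ^ k) (X ⊔ Bn m)).1) : w ∈ (AP (2 ^ k) X).1 := by
  have : Nonempty {m : ℕ // Odd m} := ⟨⟨1, odd_one⟩⟩
  refine mag_inf (ι := {m : ℕ // Odd m}) (κ := Unit) (2 ^ k) X.1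
    (fun m => (X ⊔ Bn (m : ℕ)).1) (fun _ => 2 ^ k) (fun m => (le_sup_left : X ≤ X ⊔ Bn (m : ℕ)))
    ?_ (fun _ => dvd_rfl) (fun a ha => ha ()) w (fun m _ => hw m m.2)
  intro T hT
  obtain ⟨m, hm, hmT⟩ := h.sep T hT
  exact ⟨⟨m, hm⟩, hmT⟩

theorem AP_two_eq_iInf {X : FI} (h : Res X) (k : ℕ) :
    AP (2 ^ k) X = ⨅ m : {m : ℕ // Odd m}, AP (2 ^ k) (X ⊔ Bn (m : ℕ)) := by
  apply le_antisymm
  · exact le_iInf fun m => AP_mono dvd_rfl le_sup_left
  · intro w hw
    rw [mem_iInf] at hw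
    exact h.mem_AP_two k (fun m hm => hw ⟨m, hm⟩)

/-- Automorphisms commute with the products `A_(2^k) X`, `X` residually of odd exponent. -/
theorem map_AP_two {e : FI ≃o FI} {π : ℕ ≃ ℕ} (h : Adm e π) {X : FI} (hX : Res X) (k : ℕ) :
    e (AP (2 ^ k) X) = AP (2 ^ k) (e X) := by
  rw [AP_two_eq_iInf hX, AP_two_eq_iInf (hX.map h), OrderIso.map_iInf]
  apply le_antisymm
  · refine le_iInf fun m => ?_
    have hm : Odd (π.symm m) := by
      have := h.dvd.odd h.two (m := π.symm m)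
      rw [Equiv.apply_symm_apply] at this
      exact this.1 m.2
    refine (iInf_le _ ⟨π.symm m, hm⟩).trans ?_
    rw [map_AP h k hm le_sup_right, OrderIso.map_sup, h.bn, Equiv.apply_symm_apply]
  · refine le_iInf fun m => ?_
    rw [map_AP h k m.2 le_sup_right, OrderIso.map_sup, h.bn]
    exact iInf_le (fun m : {m : ℕ // Odd m} => AP (2 ^ k) (e X ⊔ Bn (m : ℕ)))
      ⟨π m, (h.dvd.odd h.two).2 m.2⟩

/-- Automorphisms commute with the products `A_n X`, for `n = 0` (all abelian groups) or a power of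
two, and `X` residually of odd exponent. -/
theorem products (e : FI ≃o FI) (n : ℕ) (hn : n = 0 ∨ ∃ k : ℕ, n = 2 ^ k) (X : FI)
    (hX : Res X) : e (AP n X) = AP n (e X) := by
  obtain ⟨π, h⟩ := exists_adm e
  rcases hn with rfl | ⟨k, rfl⟩
  · exact map_AP0 h hX
  · exact map_AP_two h hX k

/-- The class of the varieties for which we prove rigidity, in terms of their laws. -/
inductive Good : FI → Prop
  | class2 (H : FI) (h : gam 2 ≤ H) : Good H
  | burnside (n : ℕ) : Good (Bn n)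
  | nil (c : ℕ) : Good (MN c)
  | split (q : ℕ) (hq : q.Prime) (h2 : q ≠ 2) : Good (AP q (Ab 2))
  | inf (S : Set FI) (h : ∀ H ∈ S, Good H) : Good (sInf S)
  | sup (S : Set FI) (h : ∀ H ∈ S, Good H) : Good (sSup S)
  | prod (n : ℕ) (hn : n = 0 ∨ ∃ k : ℕ, n = 2 ^ k) (X : FI) (hX : Res X) (h : Good X) :
      Good (AP n X)

theorem rigid (e : FI ≃o FI) {H : FI} (hH : Good H) : e H = H := by
  obtain ⟨π, h⟩ := exists_adm e
  have hπ := pi_id h
  have hMN : ∀ c, e (MN c) = MN c := by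
    intro c
    rcases Nat.eq_zero_or_pos c with rfl | hc
    · have : MN 0 = ⊤ := by
        rw [eq_top_iff]
        intro w _
        exact (le_sup_left : gam 0 ≤ MN 0) (Subgroup.mem_top w)
      rw [this, map_top]
    · exact map_MN h hc
  have hBn : ∀ n, e (Bn n) = Bn n := fun n => by rw [h.bn, hπ]
  have hAb : ∀ n, e (Ab n) = Ab n := fun n => by rw [h.ab, hπ]
  induction hH with
  | class2 H hH =>
    obtain ⟨m, n, rfl⟩ := class2 hH
    rw [← MN_two, OrderIso.map_inf, OrderIso.map_sup, hAb, hMN, hBn]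
  | burnside n => exact hBn n
  | nil c => exact hMN c
  | split q hq h2 => rw [map_D h hq h2, hπ]
  | inf S _ ih =>
    rw [OrderIso.map_sInf, sInf_eq_iInf]
    exact iInf_congr fun H => iInf_congr fun hH => ih H hH
  | sup S _ ih =>
    rw [OrderIso.map_sSup, sSup_eq_iSup]
    exact iSup_congr fun H => iSup_congr fun hH => ih H hH
  | prod n hn X hX _ ih => rw [products e n hn X hX, ih]

end Pool.Agent.Lib.MP_4c5e24_al
end
end
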