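import Pool.Agent.Lib.MP_4c5e24_al.Z1
import Pool.Agent.Lib.MP_4c5e24_al.Fin

set_option autoImplicit false

/-!
Rigidity theorem, second form: assembly.
-/

namespace Pool.Agent.Lib.MP_4c5e24_al

open scoped commutatorElement

/-- The condition on `n` and `X` under which we prove that automorphisms commute with the product
`A_n X`: `X` is the join of its solvable subvarieties of finite exponent prime to `n` (for `n = 0`:
prime to some fixed prime), or `n` is `0` or a power of two and `X` is the join of its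
subvarieties of odd exponent. -/
def PrOK (n : ℕ) (X : FI) : Prop :=
  (1 ≤ n ∧ Rs n X) ∨ (n = 0 ∧ ∃ p : ℕ, p.Prime ∧ Rs p X) ∨
    ((n = 0 ∨ ∃ k : ℕ, n = 2 ^ k) ∧ Res X)

/-- Automorphisms commute with the products `A_n X`. -/
theorem map_AP_all (e : FI ≃o FI) {n : ℕ} {X : FI} (h : PrOK n X) : e (AP n X) = AP n (e X) := by
  rcases h with ⟨hn, hX⟩ | ⟨rfl, p, hp, hX⟩ | ⟨hn, hX⟩
  · exact map_AP_Rs e hn hX
  · exact map_AP0_Rs e hp hX
  · exact products e n hn X hX

/-- The class of the varieties for which we prove rigidity, in terms of their laws. -/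
inductive Fixed : FI → Prop
  | class2 (H : FI) (h : gam 2 ≤ H) : Fixed H
  | burnside (n : ℕ) : Fixed (Bn n)
  | nil (c : ℕ) : Fixed (gam c)
  | inf (S : Set FI) (h : ∀ H ∈ S, Fixed H) : Fixed (sInf S)
  | sup (S : Set FI) (h : ∀ H ∈ S, Fixed H) : Fixed (sSup S)
  | mul (n m : ℕ) (U X : FI) (hnm : Nat.Coprime n m) (hn : 0 < n) (hm : 0 < m)
      (hU : Bn n ≤ U) (hX : Bn m ≤ X) (hs : ∃ s, der s ≤ U) (ht : ∃ t, der t ≤ X)
      (h1 : Fixed U) (h2 : Fixed X) : Fixed (prd U X)
  | prod (n : ℕ) (X : FI) (hX : PrOK n X) (h : Fixed X) : Fixed (AP n X)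

theorem fixed (e : FI ≃o FI) {H : FI} (hH : Fixed H) : e H = H := by
  induction hH with
  | class2 H hH => exact rigid e (Good.class2 H hH)
  | burnside n => exact rigid e (Good.burnside n)
  | nil c => exact map_gam e c
  | inf S _ ih =>
    rw [OrderIso.map_sInf, sInf_eq_iInf]
    exact iInf_congr fun H => iInf_congr fun hH => ih H hH
  | sup S _ ih =>
    rw [OrderIso.map_sSup, sSup_eq_iSup]
    exact iSup_congr fun H => iSup_congr fun hH => ih H hH
  | mul n m U X hnm hn hm hU hX hs ht _ _ ih1 ih2 =>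
    rw [map_prd e hnm hn hm hU hX hs ht, ih1, ih2]
  | prod n X hX _ ih => rw [map_AP_all e hX, ih]

/-- The old class is contained in the new one. -/
theorem Good.fixed {H : FI} (hH : Good H) : Fixed H := by
  induction hH with
  | class2 H hH => exact Fixed.class2 H hH
  | burnside n => exact Fixed.burnside n
  | nil c =>
    have h1 : Fixed (der 2) := by
      rw [der_succ, der_one]
      exact Fixed.prod 0 (Ab 0) (Or.inr (Or.inr ⟨Or.inl rfl, Res_Ab0⟩))
        (Fixed.class2 _ (by
          have h := MN_two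
          rw [← h]
          have h2 : MN 2 ≤ MN 1 := sup_le_sup
            (Subgroup.lowerCentralSeries_antitone (⊤ : Subgroup F) (by norm_num)) le_rfl
          exact h2.trans MN_one.le))
    have h2 : MN c = sSup {gam c, der 2} := by
      rw [sSup_pair]
      rfl
    rw [h2]
    refine Fixed.sup _ ?_
    rintro H (rfl | rfl)
    · exact Fixed.nil c
    · exact h1
  | split q hq h2 =>
    rw [← prd_Ab]
    refine Fixed.mul q 2 _ _ ?_ hq.pos two_pos (Bn_le_Ab q) (Bn_le_Ab 2) ⟨1, ?_⟩ ⟨1, ?_⟩ ?_ ?_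
    · exact (Nat.coprime_primes hq Nat.prime_two).2 h2
    · rw [der_one]; exact Ab0_le_Ab q
    · rw [der_one]; exact Ab0_le_Ab 2
    all_goals
      refine Fixed.class2 _ ?_
      have h := MN_two
      rw [← h]
      have h2 : MN 2 ≤ MN 1 := sup_le_sup
        (Subgroup.lowerCentralSeries_antitone (⊤ : Subgroup F) (by norm_num)) le_rfl
      exact (h2.trans MN_one.le).trans (Ab0_le_Ab _)
  | inf S _ ih => exact Fixed.inf S ih
  | sup S _ ih => exact Fixed.sup S ih
  | prod n hn X hX _ ih => exact Fixed.prod n X (Or.inr (Or.inr ⟨hn, hX⟩)) ih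

end Pool.Agent.Lib.MP_4c5e24_al
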