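import Mathlib
import Pool.Agent.Lib.MP_4c5e24_al.Lc
import Pool.Agent.Lib.MP_4c5e24_al.A1

section

set_option autoImplicit false

/-!
RIG3-T1: tensors of degree `n` and their multilinear part.
-/

namespace Pool.Agent.Lib.MP_4c5e24_al

/-- The tensors of degree `n` over the space with basis `ℕ`. -/
abbrev Tn (k : Type) [Field k] (n : ℕ) := (Fin n → ℕ) →₀ k

/-- The action of a matrix with finite rows on the tensors:
`e_l ↦ ∑ l', (∏ i, g (l i) (l' i)) e_l'`. -/
noncomputable def actT {k : Type} [Field k] {n : ℕ} (g : ℕ → (ℕ →₀ k)) : Tn k n →ₗ[k] Tn k n :=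
  Finsupp.lift (Tn k n) k (Fin n → ℕ)
    (fun l => ∑ l' ∈ Fintype.piFinset (fun i => (g (l i)).support),
      Finsupp.single l' (∏ i, g (l i) (l' i)))

/-- A subspace which is invariant under all matrices. -/
def InvT {k : Type} [Field k] {n : ℕ} (K : Submodule k (Tn k n)) : Prop :=
  ∀ (g : ℕ → (ℕ →₀ k)), ∀ a ∈ K, actT g a ∈ K

/-- The index tuples without repetition and with entries less than `n`. -/
def IsPm {n : ℕ} (l : Fin n → ℕ) : Prop := Function.Injective l ∧ ∀ i, l i < n

open Classical in
/-- The multilinear part in the first `n` variables. -/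
noncomputable def mlT {k : Type} [Field k] {n : ℕ} : Tn k n →ₗ[k] Tn k n :=
  Finsupp.lift (Tn k n) k (Fin n → ℕ) (fun l => if IsPm l then Finsupp.single l 1 else 0)

private theorem actT_single {k : Type} [Field k] {n : ℕ} (g : ℕ → (ℕ →₀ k)) (l : Fin n → ℕ) (c : k) :
    actT g (Finsupp.single l c) = c • ∑ l' ∈ Fintype.piFinset (fun i => (g (l i)).support),
      Finsupp.single l' (∏ i, g (l i) (l' i)) := by
  unfold actT
  rw [Finsupp.lift_apply, Finsupp.sum_single_index]
  exact zero_smul _ _

private theorem actT_single_apply {k : Type} [Field k] {n : ℕ} (g : ℕ → (ℕ →₀ k))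
    (l l' : Fin n → ℕ) (c : k) :
    (actT g (Finsupp.single l c)) l' = c * ∏ i, g (l i) (l' i) := by
  classical
  rw [actT_single, Finsupp.smul_apply, smul_eq_mul, Finsupp.finsetSum_apply]
  congr 1
  simp only [Finsupp.single_apply]
  rw [Finset.sum_ite_eq']
  split_ifs with h
  · rfl
  · rw [Fintype.mem_piFinset] at h
    push Not at h
    obtain ⟨i, hi⟩ := h
    symm
    apply Finset.prod_eq_zero (Finset.mem_univ i)
    exact Finsupp.notMem_support_iff.mp hi

private theorem mlT_single_pos {k : Type} [Field k] {n : ℕ} {l : Fin n → ℕ} (hl : IsPm l) (c : k) :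
    mlT (Finsupp.single l c) = Finsupp.single l c := by
  unfold mlT
  rw [Finsupp.lift_apply, Finsupp.sum_single_index]
  · rw [if_pos hl, Finsupp.smul_single, smul_eq_mul, mul_one]
  · exact zero_smul _ _

private theorem mlT_single_neg {k : Type} [Field k] {n : ℕ} {l : Fin n → ℕ} (hl : ¬ IsPm l) (c : k) :
    mlT (Finsupp.single l c) = 0 := by
  unfold mlT
  rw [Finsupp.lift_apply, Finsupp.sum_single_index]
  · rw [if_neg hl, smul_zero]
  · exact zero_smul _ _

/-- The restriction matrix. -/
private noncomputable def rS (k : Type) [Field k] (S : Finset ℕ) : ℕ → (ℕ →₀ k) :=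
  fun i => if i ∈ S then Finsupp.single i 1 else 0

private theorem actT_rS {k : Type} [Field k] {n : ℕ} (S : Finset ℕ) (l : Fin n → ℕ) (c : k) :
    actT (rS k S) (Finsupp.single l c) = if (∀ i, l i ∈ S) then Finsupp.single l c else 0 := by
  classical
  ext l'
  rw [actT_single_apply]
  by_cases h : ∀ i, l i ∈ S
  · rw [if_pos h, Finsupp.single_apply]
    by_cases hl : l = l'
    · subst hl
      rw [if_pos rfl]
      have : ∏ i, (rS k S (l i)) (l i) = 1 := by
        apply Finset.prod_eq_one
        intro i _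
        simp only [rS]
        rw [if_pos (h i), Finsupp.single_eq_same]
      rw [this, mul_one]
    · rw [if_neg hl]
      have : ∃ i, l i ≠ l' i := by
        by_contra hc
        push Not at hc
        exact hl (funext hc)
      obtain ⟨i, hi⟩ := this
      have h0 : ∏ i, (rS k S (l i)) (l' i) = 0 := by
        apply Finset.prod_eq_zero (Finset.mem_univ i)
        simp only [rS]
        rw [if_pos (h i), Finsupp.single_apply, if_neg hi]
      rw [h0, mul_zero]
  · rw [if_neg h]
    push Not at h
    obtain ⟨i, hi⟩ := h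
    have h0 : ∏ i, (rS k S (l i)) (l' i) = 0 := by
      apply Finset.prod_eq_zero (Finset.mem_univ i)
      simp only [rS]
      rw [if_neg hi, Finsupp.zero_apply]
    rw [h0, mul_zero, Finsupp.zero_apply]

private theorem isPm_iff {n : ℕ} (l : Fin n → ℕ) (hl : ∀ i, l i < n) :
    IsPm l ↔ Finset.range n ⊆ Finset.univ.image l := by
  classical
  constructor
  · rintro ⟨hi, -⟩
    have hsub : Finset.univ.image l ⊆ Finset.range n := by
      intro x hx
      rw [Finset.mem_image] at hx
      obtain ⟨i, -, rfl⟩ := hx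
      exact Finset.mem_range.mpr (hl i)
    have hcard : (Finset.range n).card ≤ (Finset.univ.image l).card := by
      rw [Finset.card_image_of_injective _ hi, Finset.card_range, Finset.card_univ, Fintype.card_fin]
    rw [Finset.eq_of_subset_of_card_le hsub hcard]
  · intro h
    refine ⟨?_, hl⟩
    have hcard : n ≤ (Finset.univ.image l).card := by
      have := Finset.card_le_card h
      rwa [Finset.card_range] at this
    have h2 : (Finset.univ.image l).card = (Finset.univ : Finset (Fin n)).card := by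
      apply le_antisymm Finset.card_image_le
      rw [Finset.card_univ, Fintype.card_fin]
      exact hcard
    have h3 := Finset.card_image_iff.mp h2
    intro a b hab
    exact h3 (Finset.mem_coe.mpr (Finset.mem_univ a)) (Finset.mem_coe.mpr (Finset.mem_univ b)) hab

private theorem mlT_eq_sum {k : Type} [Field k] {n : ℕ} (a : Tn k n) :
    mlT a = ∑ S ∈ (Finset.range n).powerset,
      (∏ _i ∈ Finset.range n \ S, (-1 : k)) • actT (rS k S) a := by
  classical
  induction a using Finsupp.induction_linear with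
  | zero => simp
  | add f g hf hg =>
    rw [map_add, hf, hg, ← Finset.sum_add_distrib]
    apply Finset.sum_congr rfl
    intro S _
    rw [map_add, smul_add]
  | single l c =>
    simp only [actT_rS]
    by_cases hl : ∀ i, l i < n
    · have hkey : ∀ S ∈ (Finset.range n).powerset,
          (∏ _i ∈ Finset.range n \ S, (-1 : k)) •
            (if (∀ i, l i ∈ S) then (Finsupp.single l c : Tn k n) else 0) =
          (∏ i ∈ Finset.range n \ S, (if i ∈ Finset.univ.image l then (0 : k) else -1)) •
            (Finsupp.single l c : Tn k n) := by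
        intro S hS
        by_cases h : ∀ i, l i ∈ S
        · rw [if_pos h]
          congr 1
          apply Finset.prod_congr rfl
          intro i hi
          rw [if_neg]
          intro hc
          rw [Finset.mem_image] at hc
          obtain ⟨j, -, rfl⟩ := hc
          exact (Finset.mem_sdiff.mp hi).2 (h j)
        · rw [if_neg h, smul_zero]
          push Not at h
          obtain ⟨i, hi⟩ := h
          have : (∏ i ∈ Finset.range n \ S, (if i ∈ Finset.univ.image l then (0 : k) else -1)) = 0 := by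
            apply Finset.prod_eq_zero (i := l i)
            · rw [Finset.mem_sdiff]
              exact ⟨Finset.mem_range.mpr (hl i), hi⟩
            · rw [if_pos (Finset.mem_image.mpr ⟨i, Finset.mem_univ i, rfl⟩)]
          rw [this, zero_smul]
      rw [Finset.sum_congr rfl hkey, ← Finset.sum_smul]
      have hprod := Finset.prod_add (fun _ => (1 : k))
        (fun i => if i ∈ Finset.univ.image l then (0 : k) else -1) (Finset.range n)
      simp only [Finset.prod_const_one, one_mul] at hprod
      rw [← hprod]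
      by_cases hp : IsPm l
      · rw [mlT_single_pos hp]
        have : ∏ i ∈ Finset.range n, ((1 : k) + if i ∈ Finset.univ.image l then 0 else -1) = 1 := by
          apply Finset.prod_eq_one
          intro i hi
          rw [if_pos ((isPm_iff l hl).mp hp hi), add_zero]
        rw [this, one_smul]
      · rw [mlT_single_neg hp]
        have hns : ¬ Finset.range n ⊆ Finset.univ.image l := fun hc => hp ((isPm_iff l hl).mpr hc)
        rw [Finset.not_subset] at hns
        obtain ⟨i, hi, hni⟩ := hns
        have : ∏ i ∈ Finset.range n, ((1 : k) + if i ∈ Finset.univ.image l then 0 else -1) = 0 := by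
          apply Finset.prod_eq_zero hi
          rw [if_neg hni]
          ring
        rw [this, zero_smul]
    · have hp : ¬ IsPm l := fun hc => hl hc.2
      rw [mlT_single_neg hp]
      symm
      apply Finset.sum_eq_zero
      intro S hS
      rw [if_neg, smul_zero]
      intro hc
      apply hl
      intro i
      exact Finset.mem_range.mp (Finset.mem_powerset.mp hS (hc i))

/-- Proof: for a set `S ⊆ {0, …, n - 1}` let `r_S` be the matrix `r_S i = single i 1` for `i ∈ S` and `0`
otherwise. `actT r_S` maps `e_l` to itself if all entries of `l` are in `S` and to `0` otherwise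
(`n ≥ 0`; for the empty tuple `n = 0` everything is trivial). So
`∑ S, (-1) ^ (n - |S|) • actT r_S e_l` is `∑ (-1) ^ (n - |S|)` over the sets `S` which contain all
entries of `l`: this is `1` if the entries of `l` are exactly `0, …, n - 1` (then `l` is a
bijection onto them, `IsPm l`) and `0` otherwise (also `0` if `l` has an entry `≥ n`). So
`mlT` is this combination of the `actT r_S`. -/
theorem mlT_mem {k : Type} [Field k] {n : ℕ} {K : Submodule k (Tn k n)} (hK : InvT K)
    {a : Tn k n} (ha : a ∈ K) : mlT a ∈ K := by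
  rw [mlT_eq_sum]
  apply Submodule.sum_mem
  intro S _
  exact K.smul_mem _ (hK _ a ha)

/-- The composition of the actions: `actT h (actT g a) = actT (g h) a` with
`(g h) i = ∑ j, g i j • h j`.

Proof: check on the basis vectors; `Finset.prod_univ_sum`. -/
theorem actT_comp {k : Type} [Field k] {n : ℕ} (g h : ℕ → (ℕ →₀ k)) (a : Tn k n) :
    actT h (actT g a) = actT (fun i => (g i).sum (fun j r => r • h j)) a := by
  classical
  induction a using Finsupp.induction_linear with
  | zero => simp
  | add f f' hf hf' => rw [map_add, map_add, map_add, hf, hf']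
  | single l c =>
    ext m
    rw [actT_single_apply, actT_single, map_smul, map_sum, Finsupp.smul_apply, smul_eq_mul,
      Finsupp.finsetSum_apply]
    congr 1
    have h1 : ∀ i : Fin n, ((g (l i)).sum (fun j r => r • h j)) (m i) =
        ∑ j ∈ (g (l i)).support, g (l i) j * h j (m i) := by
      intro i
      rw [Finsupp.sum, Finsupp.finsetSum_apply]
      apply Finset.sum_congr rfl
      intro j _
      rw [Finsupp.smul_apply, smul_eq_mul]
    simp only [h1]
    rw [Finset.prod_univ_sum]
    apply Finset.sum_congr rfl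
    intro l' _
    rw [actT_single_apply, Finset.prod_mul_distrib]

private theorem mlT_apply {k : Type} [Field k] {n : ℕ} (a : Tn k n) (l : Fin n → ℕ) :
    mlT a l = open Classical in if IsPm l then a l else 0 := by
  classical
  induction a using Finsupp.induction_linear with
  | zero => simp
  | add f f' hf hf' =>
    rw [map_add, Finsupp.add_apply, hf, hf', Finsupp.add_apply]
    split_ifs
    · rfl
    · rw [add_zero]
  | single m c =>
    by_cases hm : IsPm m
    · rw [mlT_single_pos hm]
      split_ifs with h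
      · rfl
      · rw [Finsupp.single_apply, if_neg]
        rintro rfl
        exact h hm
    · rw [mlT_single_neg hm]
      split_ifs with h
      · rw [Finsupp.single_apply, if_neg]
        · rfl
        · rintro rfl
          exact hm h
      · rfl

/-- The polarisation matrix of a tuple. -/
private noncomputable def gT (k : Type) [Field k] {n : ℕ} (t : Fin n → ℕ) : ℕ → (ℕ →₀ k) :=
  fun i => ∑ j : Fin n, if t j = i then Finsupp.single (j : ℕ) (1 : k) else 0

/-- The restitution matrix of a tuple. -/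
private noncomputable def hT (k : Type) [Field k] {n : ℕ} (t : Fin n → ℕ) : ℕ → (ℕ →₀ k) :=
  fun j => if hj : j < n then Finsupp.single (t ⟨j, hj⟩) (1 : k) else 0

private theorem gT_apply (k : Type) [Field k] {n : ℕ} (t : Fin n → ℕ) (i : ℕ) (j : Fin n) :
    gT k t i (j : ℕ) = if t j = i then 1 else 0 := by
  classical
  unfold gT
  rw [Finsupp.finsetSum_apply, Finset.sum_eq_single j]
  · split_ifs with h
    · rw [Finsupp.single_eq_same]
    · rfl
  · intro b _ hb
    split_ifs with h
    · rw [Finsupp.single_apply, if_neg]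
      intro hc
      exact hb (Fin.ext hc)
    · rfl
  · intro hc
    exact absurd (Finset.mem_univ j) hc

private theorem isPm_perm {n : ℕ} {l : Fin n → ℕ} (hl : IsPm l) :
    ∃ σ : Equiv.Perm (Fin n), l = fun i => ((σ i : Fin n) : ℕ) := by
  have hinj : Function.Injective (fun i : Fin n => (⟨l i, hl.2 i⟩ : Fin n)) := by
    intro a b hab
    exact hl.1 (by simpa using hab)
  refine ⟨Equiv.ofBijective _ (Finite.injective_iff_bijective.mp hinj), ?_⟩
  funext i
  rfl

private theorem perm_isPm {n : ℕ} (σ : Equiv.Perm (Fin n)) :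
    IsPm (fun i => ((σ i : Fin n) : ℕ)) := by
  refine ⟨?_, fun i => (σ i).2⟩
  intro a b hab
  exact σ.injective (Fin.ext hab)

private theorem mlT_gT {k : Type} [Field k] {n : ℕ} (t l : Fin n → ℕ) :
    mlT (actT (gT k t) (Finsupp.single l (1 : k))) =
      ∑ σ : Equiv.Perm (Fin n), if t ∘ σ = l then
        (Finsupp.single (fun i => ((σ i : Fin n) : ℕ)) (1 : k) : Tn k n) else 0 := by
  classical
  ext m
  rw [mlT_apply, Finsupp.finsetSum_apply]
  split_ifs with hm
  · obtain ⟨τ, rfl⟩ := isPm_perm hm
    rw [Finset.sum_eq_single τ, actT_single_apply, one_mul]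
    · simp only [gT_apply]
      split_ifs with h
      · rw [Finsupp.single_eq_same]
        apply Finset.prod_eq_one
        intro i _
        rw [if_pos]
        exact congrFun h i
      · have : ∃ i, t (τ i) ≠ l i := by
          by_contra hc
          push Not at hc
          exact h (funext hc)
        obtain ⟨i, hi⟩ := this
        rw [Finset.prod_eq_zero (Finset.mem_univ i)]
        · rfl
        · rw [if_neg hi]
    · intro σ _ hσ
      split_ifs with h
      · rw [Finsupp.single_apply, if_neg]
        intro hc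
        apply hσ
        ext i
        exact congrFun hc i
      · rfl
    · intro hc
      exact absurd (Finset.mem_univ τ) hc
  · symm
    apply Finset.sum_eq_zero
    intro σ _
    split_ifs with h
    · rw [Finsupp.single_apply, if_neg]
      rintro rfl
      exact hm (perm_isPm σ)
    · rfl

private theorem actT_hT {k : Type} [Field k] {n : ℕ} (t : Fin n → ℕ) (σ : Equiv.Perm (Fin n)) :
    actT (hT k t) (Finsupp.single (fun i => ((σ i : Fin n) : ℕ)) (1 : k)) =
      Finsupp.single (t ∘ σ) 1 := by
  classical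
  ext m
  rw [actT_single_apply, one_mul, Finsupp.single_apply]
  have h1 : ∀ i : Fin n, hT k t ((σ i : Fin n) : ℕ) = Finsupp.single (t (σ i)) 1 := by
    intro i
    unfold hT
    rw [dif_pos (σ i).2]
  simp only [h1]
  split_ifs with h
  · apply Finset.prod_eq_one
    intro i _
    rw [← h]
    exact Finsupp.single_eq_same
  · have : ∃ i, t (σ i) ≠ m i := by
      by_contra hc
      push Not at hc
      exact h (funext hc)
    obtain ⟨i, hi⟩ := this
    apply Finset.prod_eq_zero (Finset.mem_univ i)
    rw [Finsupp.single_apply, if_neg hi]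

/-- The stabiliser of a tuple. -/
private def stT {n : ℕ} (t : Fin n → ℕ) : Subgroup (Equiv.Perm (Fin n)) where
  carrier := {τ | t ∘ τ = t}
  mul_mem' := by
    intro a b ha hb
    show t ∘ (a * b : Equiv.Perm (Fin n)) = t
    have ha' : t ∘ a = t := ha
    have hb' : t ∘ b = t := hb
    rw [Equiv.Perm.coe_mul, ← Function.comp_assoc, ha', hb']
  one_mem' := by
    show t ∘ (1 : Equiv.Perm (Fin n)) = t
    rfl
  inv_mem' := by
    intro a ha
    show t ∘ (a⁻¹ : Equiv.Perm (Fin n)) = t
    have ha' : t ∘ a = t := ha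
    funext i
    have := congrFun ha' (a⁻¹ i)
    simpa using this.symm

private theorem card_fibre {n : ℕ} (t : Fin n → ℕ) (σ₀ : Equiv.Perm (Fin n)) :
    (Finset.univ.filter (fun σ : Equiv.Perm (Fin n) => t ∘ σ = t ∘ σ₀)).card =
      Nat.card (stT t) := by
  classical
  have h1 : Nat.card (stT t) =
      (Finset.univ.filter (fun σ : Equiv.Perm (Fin n) => t ∘ σ = t)).card := by
    apply Nat.subtype_card
    intro σ
    rw [Finset.mem_filter]
    constructor
    · intro h
      exact h.2
    · intro h
      exact ⟨Finset.mem_univ _, h⟩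
  rw [h1]
  apply Finset.card_bij (fun σ _ => σ * σ₀⁻¹)
  · intro σ hσ
    rw [Finset.mem_filter] at hσ ⊢
    refine ⟨Finset.mem_univ _, ?_⟩
    funext i
    have := congrFun hσ.2 (σ₀⁻¹ i)
    simpa using this
  · intro a _ b _ hab
    exact mul_right_cancel hab
  · intro b hb
    rw [Finset.mem_filter] at hb
    refine ⟨b * σ₀, ?_, by group⟩
    rw [Finset.mem_filter]
    refine ⟨Finset.mem_univ _, ?_⟩
    rw [Equiv.Perm.coe_mul, ← Function.comp_assoc, hb.2]

/-- The part of `a` with the content of `t`. -/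
private noncomputable def partT {k : Type} [Field k] {n : ℕ} (t : Fin n → ℕ) (a : Tn k n) : Tn k n :=
  open Classical in a.filter (fun l => ∃ σ : Equiv.Perm (Fin n), t ∘ σ = l)

private theorem restitution {k : Type} [Field k] {n : ℕ} (t : Fin n → ℕ) (a : Tn k n) :
    actT (hT k t) (mlT (actT (gT k t) a)) = ((Nat.card (stT t) : ℕ) : k) • partT t a := by
  classical
  unfold partT
  induction a using Finsupp.induction_linear with
  | zero => rw [map_zero, map_zero, map_zero, Finsupp.filter_zero, smul_zero]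
  | add f f' hf hf' => rw [map_add, map_add, map_add, hf, hf', Finsupp.filter_add, smul_add]
  | single l c =>
    have hc : (Finsupp.single l c : Tn k n) = c • Finsupp.single l 1 := by
      rw [Finsupp.smul_single, smul_eq_mul, mul_one]
    rw [hc, map_smul, map_smul, map_smul, Finsupp.filter_smul, smul_comm]
    congr 1
    rw [mlT_gT, map_sum]
    have h1 : ∀ σ : Equiv.Perm (Fin n), actT (hT k t) (if t ∘ σ = l then
        (Finsupp.single (fun i => ((σ i : Fin n) : ℕ)) (1 : k) : Tn k n) else 0) =
        if t ∘ σ = l then (Finsupp.single l 1 : Tn k n) else 0 := by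
      intro σ
      split_ifs with h
      · rw [actT_hT, h]
      · exact map_zero _
    simp only [h1]
    rw [← Finset.sum_filter, Finset.sum_const]
    by_cases hex : ∃ σ : Equiv.Perm (Fin n), t ∘ σ = l
    · rw [Finsupp.filter_single_of_pos (fun l => ∃ σ : Equiv.Perm (Fin n), t ∘ σ = l) hex]
      obtain ⟨σ₀, rfl⟩ := hex
      rw [card_fibre, Nat.cast_smul_eq_nsmul]
    · rw [Finsupp.filter_single_of_neg (fun l => ∃ σ : Equiv.Perm (Fin n), t ∘ σ = l) hex, smul_zero]
      rw [Finset.filter_eq_empty_iff.mpr]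
      · simp
      · intro σ _ hσ
        exact hex ⟨σ, hσ⟩

private theorem partT_mem {k : Type} [Field k] {n : ℕ} (hn : ((n.factorial : ℕ) : k) ≠ 0)
    {K : Submodule k (Tn k n)} (hK : InvT K) {a : Tn k n}
    (h : ∀ g : ℕ → (ℕ →₀ k), mlT (actT g a) ∈ K) (t : Fin n → ℕ) : partT t a ∈ K := by
  have h1 := hK (hT k t) _ (h (gT k t))
  rw [restitution] at h1
  have h2 : ((Nat.card (stT t) : ℕ) : k) ≠ 0 := by
    intro hc
    apply hn
    have hd : Nat.card (stT t) ∣ n.factorial := by
      have := Subgroup.card_subgroup_dvd_card (stT t)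
      rwa [Nat.card_eq_fintype_card (α := Equiv.Perm (Fin n)), Fintype.card_perm,
        Fintype.card_fin] at this
    obtain ⟨m, hm⟩ := hd
    rw [hm, Nat.cast_mul, hc, zero_mul]
  have h3 := K.smul_mem (((Nat.card (stT t) : ℕ) : k))⁻¹ h1
  rwa [smul_smul, inv_mul_cancel₀ h2, one_smul] at h3

/-- Polarisation and restitution.

Proof. Let `a` be a tensor such that `mlT (actT g a) ∈ K` for all `g`. For a multiset `d` of size `n`
of natural numbers let `a_d` be the restriction of `a` to the tuples with content `d`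
(`Finset.univ.val.map l = d`); `a` is the sum of the `a_d` over the finitely many contents which occur, so it
suffices that `a_d ∈ K`. Choose a tuple `t : Fin n → ℕ` with content `d`. Let
`g i = ∑ j : Fin n with t j = i, single j 1` and `h j = single (t j) 1` for `j < n` (`0` otherwise).
For a tuple `l`, `actT g e_l` is the sum of the `e_l'` over all `l' : Fin n → {0, …, n - 1}` with
`t ∘ l' = l`; its multilinear part is the sum over the bijective ones, and `actT h` maps each of
them to `e_l`. So `actT h (mlT (actT g e_l)) = N_l • e_l`, where `N_l` is the number of the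
permutations `σ` of `Fin n` with `t ∘ σ = l`: it is `0` if the content of `l` is not `d`, and otherwise
it is the order of the stabiliser of `t` in the group of the permutations, which divides `n!` and does
not depend on `l`; denote it by `N`. So `actT h (mlT (actT g a)) = N • a_d` is in `K`, and `N` is
invertible in `k` because it divides `n!`. -/
theorem polT {k : Type} [Field k] {n : ℕ} (hn : ((n.factorial : ℕ) : k) ≠ 0)
    {K : Submodule k (Tn k n)} (hK : InvT K) {a : Tn k n}
    (h : ∀ g : ℕ → (ℕ →₀ k), mlT (actT g a) ∈ K) : a ∈ K := by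
  classical
  generalize hm : a.support.card = m
  induction m using Nat.strong_induction_on generalizing a with
  | _ m ih =>
    subst hm
    by_cases ha : a = 0
    · rw [ha]
      exact K.zero_mem
    · obtain ⟨t, ht⟩ := Finsupp.support_nonempty_iff.mpr ha
      have h1 := partT_mem hn hK h t
      have hlt : (a - partT t a).support.card < a.support.card := by
        apply Finset.card_lt_card
        rw [Finset.ssubset_iff_of_subset]
        · refine ⟨t, ht, ?_⟩
          rw [Finsupp.notMem_support_iff, Finsupp.sub_apply]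
          unfold partT
          rw [Finsupp.filter_apply_pos _ _ ⟨1, rfl⟩, sub_self]
        · intro l hl
          rw [Finsupp.mem_support_iff] at hl ⊢
          intro hc
          apply hl
          rw [Finsupp.sub_apply, hc]
          unfold partT
          rw [Finsupp.filter_apply]
          split_ifs
          · rw [hc, sub_zero]
          · rw [sub_zero]
      have h2 : a - partT t a ∈ K := by
        refine ih _ hlt ?_ rfl
        intro g
        rw [map_sub, map_sub]
        exact K.sub_mem (h g) (mlT_mem hK (hK g _ h1))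
      have h3 := K.add_mem h2 h1
      rwa [sub_add_cancel] at h3

end Pool.Agent.Lib.MP_4c5e24_al
end

section

set_option autoImplicit false

/-!
RIG3-T2: the multilinear part is a semisimple module for the symmetric group.
-/

namespace Pool.Agent.Lib.MP_4c5e24_al

/-- The multilinear tensors. -/
noncomputable def ML (k : Type) [Field k] (n : ℕ) : Submodule k (Tn k n) := LinearMap.range mlT

/-- The action of a permutation of the variables. -/
noncomputable def pmT {k : Type} [Field k] {n : ℕ} (σ : Equiv.Perm (Fin n)) :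
    Tn k n →ₗ[k] Tn k n :=
  actT (fun i => if h : i < n then Finsupp.single ((σ ⟨i, h⟩ : Fin n) : ℕ) 1 else 0)

/-- A subspace of the multilinear tensors which is invariant under the permutations. -/
def InvP {k : Type} [Field k] {n : ℕ} (N : Submodule k (Tn k n)) : Prop :=
  N ≤ ML k n ∧ ∀ σ : Equiv.Perm (Fin n), ∀ a ∈ N, pmT σ a ∈ N

/-! ### auxiliary lemmas -/

private theorem t2_actT_single {k : Type} [Field k] {n : ℕ} (g : ℕ → (ℕ →₀ k)) (l : Fin n → ℕ)
    (c : k) : actT g (Finsupp.single l c) =
      c • ∑ l' ∈ Fintype.piFinset (fun i => (g (l i)).support),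
        Finsupp.single l' (∏ i, g (l i) (l' i)) := by
  unfold actT
  rw [Finsupp.lift_apply, Finsupp.sum_single_index]
  rw [zero_smul]

private theorem t2_mono {k : Type} [Field k] {n : ℕ} (f : Fin n → ℕ) (l : Fin n → ℕ)
    (hl : ∀ i, l i < n) (c : k) :
    actT (fun i => if h : i < n then Finsupp.single (f ⟨i, h⟩) (1 : k) else 0)
      (Finsupp.single l c) = Finsupp.single (fun i => f ⟨l i, hl i⟩) c := by
  classical
  rw [t2_actT_single]
  have h1 : (fun i => (if h : l i < n then Finsupp.single (f ⟨l i, h⟩) (1 : k) else 0 :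
      ℕ →₀ k).support) = fun i => {f ⟨l i, hl i⟩} := by
    funext i
    rw [dif_pos (hl i), Finsupp.support_single _ one_ne_zero]
  rw [h1, Fintype.piFinset_singleton, Finset.sum_singleton]
  have h2 : (∏ i, (if h : l i < n then Finsupp.single (f ⟨l i, h⟩) (1 : k) else 0 : ℕ →₀ k)
      (f ⟨l i, hl i⟩)) = 1 := by
    refine Finset.prod_eq_one fun i _ => ?_
    rw [dif_pos (hl i), Finsupp.single_eq_same]
  rw [h2, Finsupp.smul_single, smul_eq_mul, mul_one]

open Classical in
private theorem t2_mlT_single {k : Type} [Field k] {n : ℕ} (l : Fin n → ℕ) (c : k) :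
    mlT (Finsupp.single l c) = if IsPm l then Finsupp.single l c else 0 := by
  unfold mlT
  rw [Finsupp.lift_apply, Finsupp.sum_single_index (by rw [zero_smul])]
  split_ifs
  · rw [Finsupp.smul_single, smul_eq_mul, mul_one]
  · rw [smul_zero]

/-- the permutation of an index tuple -/
private noncomputable def t2_pm {n : ℕ} (l : Fin n → ℕ) (hl : IsPm l) : Equiv.Perm (Fin n) :=
  Equiv.ofBijective (fun i => (⟨l i, hl.2 i⟩ : Fin n)) (by
    rw [← Finite.injective_iff_bijective]
    intro i j hij
    exact hl.1 (congrArg Fin.val hij))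

private theorem t2_pm_apply {n : ℕ} (l : Fin n → ℕ) (hl : IsPm l) (i : Fin n) :
    ((t2_pm l hl i : Fin n) : ℕ) = l i := rfl

private theorem t2_isPm {n : ℕ} (τ : Equiv.Perm (Fin n)) : IsPm (fun i => ((τ i : Fin n) : ℕ)) :=
  ⟨fun _ _ h => τ.injective (Fin.ext h), fun i => (τ i).2⟩

private theorem t2_pmT_single {k : Type} [Field k] {n : ℕ} (σ : Equiv.Perm (Fin n))
    (τ : Equiv.Perm (Fin n)) (c : k) :
    pmT σ (Finsupp.single (fun i => ((τ i : Fin n) : ℕ)) c) =
      Finsupp.single (fun i => (((σ * τ) i : Fin n) : ℕ)) c := by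
  unfold pmT
  rw [t2_mono (fun j : Fin n => ((σ j : Fin n) : ℕ)) (fun i => ((τ i : Fin n) : ℕ)) fun i => (τ i).2]
  rfl

/-- the multilinear tensors are spanned by the basis vectors of the permutations -/
private theorem t2_ML {k : Type} [Field k] {n : ℕ} {a : Tn k n} (ha : a ∈ ML k n)
    {P : Tn k n → Prop} (h0 : P 0) (hadd : ∀ x y, P x → P y → P (x + y))
    (hs : ∀ (τ : Equiv.Perm (Fin n)) (c : k), P (Finsupp.single (fun i => ((τ i : Fin n) : ℕ)) c)) :
    P a := by
  classical
  obtain ⟨b, rfl⟩ := ha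
  induction b using Finsupp.induction_linear with
  | zero => rw [map_zero]; exact h0
  | add x y hx hy => rw [map_add]; exact hadd _ _ hx hy
  | single l c =>
    rw [t2_mlT_single]
    split_ifs with hl
    · have := hs (t2_pm l hl) c
      exact this
    · exact h0

private theorem t2_single_mem {k : Type} [Field k] {n : ℕ} (τ : Equiv.Perm (Fin n)) (c : k) :
    Finsupp.single (fun i => ((τ i : Fin n) : ℕ)) c ∈ ML k n := by
  classical
  refine ⟨Finsupp.single (fun i => ((τ i : Fin n) : ℕ)) c, ?_⟩
  rw [t2_mlT_single, if_pos (t2_isPm τ)]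

private theorem t2_pmT_mem {k : Type} [Field k] {n : ℕ} (σ : Equiv.Perm (Fin n)) {a : Tn k n}
    (ha : a ∈ ML k n) : pmT σ a ∈ ML k n := by
  refine t2_ML ha (P := fun a => pmT σ a ∈ ML k n) ?_ ?_ ?_
  · show pmT σ 0 ∈ ML k n
    rw [map_zero]; exact Submodule.zero_mem _
  · intro x y hx hy
    show pmT σ (x + y) ∈ ML k n
    rw [map_add]; exact Submodule.add_mem _ hx hy
  · intro τ c
    show pmT σ _ ∈ ML k n
    rw [t2_pmT_single]
    exact t2_single_mem _ _

private theorem t2_pmT_mul {k : Type} [Field k] {n : ℕ} (σ τ : Equiv.Perm (Fin n)) {a : Tn k n}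
    (ha : a ∈ ML k n) : pmT σ (pmT τ a) = pmT (σ * τ) a := by
  refine t2_ML ha (P := fun a => pmT σ (pmT τ a) = pmT (σ * τ) a) ?_ ?_ ?_
  · simp
  · intro x y hx hy
    rw [map_add, map_add, map_add, hx, hy]
  · intro ρ c
    rw [t2_pmT_single, t2_pmT_single, t2_pmT_single, mul_assoc]

private theorem t2_pmT_one {k : Type} [Field k] {n : ℕ} {a : Tn k n}
    (ha : a ∈ ML k n) : pmT (1 : Equiv.Perm (Fin n)) a = a := by
  refine t2_ML ha (P := fun a => pmT (1 : Equiv.Perm (Fin n)) a = a) ?_ ?_ ?_
  · simp
  · intro x y hx hy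
    rw [map_add, hx, hy]
  · intro ρ c
    rw [t2_pmT_single, one_mul]

private theorem t2_mlact {k : Type} [Field k] {n : ℕ} (g : ℕ → (ℕ →₀ k)) {a : Tn k n}
    (ha : a ∈ ML k n) : mlT (actT g a) =
      ∑ σ : Equiv.Perm (Fin n), (∏ j : Fin n, g j ((σ j : Fin n) : ℕ)) • pmT σ a := by
  classical
  refine t2_ML ha (P := fun a => mlT (actT g a) =
      ∑ σ : Equiv.Perm (Fin n), (∏ j : Fin n, g j ((σ j : Fin n) : ℕ)) • pmT σ a) ?_ ?_ ?_
  · simp
  · intro x y hx hy
    rw [map_add, map_add, hx, hy, ← Finset.sum_add_distrib]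
    exact Finset.sum_congr rfl fun σ _ => by rw [map_add, smul_add]
  · intro τ c
    rw [t2_actT_single, map_smul, map_sum]
    have e1 : ∀ σ : Equiv.Perm (Fin n), (∏ j : Fin n, g j ((σ j : Fin n) : ℕ)) •
        pmT σ (Finsupp.single (fun i => ((τ i : Fin n) : ℕ)) c) =
        c • Finsupp.single (fun i => (((σ * τ) i : Fin n) : ℕ))
          (∏ i : Fin n, g ((τ i : Fin n) : ℕ) (((σ * τ) i : Fin n) : ℕ)) := by
      intro σ
      rw [t2_pmT_single, Finsupp.smul_single, Finsupp.smul_single, smul_eq_mul, smul_eq_mul, mul_comm]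
      congr 2
      exact (Equiv.prod_comp τ fun j : Fin n => g j ((σ j : Fin n) : ℕ)).symm
    rw [Finset.sum_congr rfl fun σ _ => e1 σ, ← Finset.smul_sum]
    congr 1
    refine Eq.trans ?_ (Equiv.sum_comp (Equiv.mulRight τ) fun ρ : Equiv.Perm (Fin n) =>
      (Finsupp.single (fun i => ((ρ i : Fin n) : ℕ))
        (∏ i : Fin n, g ((τ i : Fin n) : ℕ) ((ρ i : Fin n) : ℕ)) : Tn k n)).symm
    ext l
    rw [Finsupp.finsetSum_apply, Finsupp.finsetSum_apply]
    by_cases hl : IsPm l
    · have e2 : ∀ l' ∈ Fintype.piFinset (fun i => (g ((τ i : Fin n) : ℕ)).support),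
          (mlT (Finsupp.single l' (∏ i, g ((τ i : Fin n) : ℕ) (l' i))) : Tn k n) l =
          if l' = l then ∏ i, g ((τ i : Fin n) : ℕ) (l i) else 0 := by
        intro l' _
        rw [t2_mlT_single]
        by_cases h : l' = l
        · rw [h, if_pos hl, Finsupp.single_eq_same, if_pos rfl]
        · rw [if_neg h]
          split_ifs
          · rw [Finsupp.single_apply, if_neg h]
          · rfl
      rw [Finset.sum_congr rfl e2, Finset.sum_ite_eq']
      have e3 : ∀ ρ ∈ (Finset.univ : Finset (Equiv.Perm (Fin n))),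
          (Finsupp.single (fun i => ((ρ i : Fin n) : ℕ))
            (∏ i : Fin n, g ((τ i : Fin n) : ℕ) ((ρ i : Fin n) : ℕ)) : Tn k n) l =
          if ρ = t2_pm l hl then ∏ i, g ((τ i : Fin n) : ℕ) (l i) else 0 := by
        intro ρ _
        by_cases h : ρ = t2_pm l hl
        · rw [if_pos h, h]
          have : (fun i => ((t2_pm l hl i : Fin n) : ℕ)) = l := rfl
          rw [this, Finsupp.single_eq_same]
          rfl
        · rw [if_neg h, Finsupp.single_apply, if_neg]
          intro h1
          apply h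
          ext i
          rw [t2_pm_apply]
          exact congrFun h1 i
      rw [Finset.sum_congr rfl e3, Finset.sum_ite_eq', if_pos (Finset.mem_univ _)]
      split_ifs with h
      · rfl
      · rw [Fintype.mem_piFinset, not_forall] at h
        obtain ⟨i, hi⟩ := h
        rw [Finsupp.notMem_support_iff] at hi
        exact (Finset.prod_eq_zero (Finset.mem_univ i) hi).symm
    · rw [Finset.sum_eq_zero, Finset.sum_eq_zero]
      · intro ρ _
        rw [Finsupp.single_apply, if_neg]
        intro h
        apply hl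
        rw [← h]
        exact t2_isPm ρ
      · intro l' _
        rw [t2_mlT_single]
        split_ifs with h
        · rw [Finsupp.single_apply, if_neg]
          rintro rfl
          exact hl h
        · rfl

/-- Maschke's theorem -/
private theorem t2_compl {k : Type} [Field k] {n : ℕ} (hn : ((n.factorial : ℕ) : k) ≠ 0)
    {N : Submodule k (Tn k n)} (hN : InvP N) :
    ∃ C : Submodule k (Tn k n), InvP C ∧ N ⊓ C = ⊥ ∧ N ⊔ C = ML k n := by
  obtain ⟨q, hq⟩ : ∃ q : Tn k n →ₗ[k] N, q ∘ₗ N.subtype = LinearMap.id :=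
    LinearMap.exists_leftInverse_of_injective (K := k) (V := N) (V' := Tn k n) N.subtype N.ker_subtype
  have hq' : ∀ a (ha : a ∈ N), ((q a : N) : Tn k n) = a := by
    intro a ha
    have := congrArg Subtype.val (LinearMap.congr_fun hq ⟨a, ha⟩)
    exact this
  set P : Tn k n →ₗ[k] Tn k n := ((n.factorial : ℕ) : k)⁻¹ •
    ∑ σ : Equiv.Perm (Fin n), (pmT σ) ∘ₗ N.subtype ∘ₗ q ∘ₗ (pmT σ⁻¹) with hP
  have hPa : ∀ a, P a = ((n.factorial : ℕ) : k)⁻¹ •
      ∑ σ : Equiv.Perm (Fin n), pmT σ ((q (pmT σ⁻¹ a) : N) : Tn k n) := by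
    intro a
    rw [hP, LinearMap.smul_apply, LinearMap.sum_apply]
    rfl
  have h1 : ∀ a, P a ∈ N := by
    intro a
    rw [hPa]
    exact N.smul_mem _ (N.sum_mem fun σ _ => hN.2 σ _ (q _).2)
  have h2 : ∀ a ∈ N, P a = a := by
    intro a ha
    rw [hPa]
    have e1 : ∀ σ : Equiv.Perm (Fin n), pmT σ ((q (pmT σ⁻¹ a) : N) : Tn k n) = a := by
      intro σ
      rw [hq' _ (hN.2 σ⁻¹ a ha), t2_pmT_mul _ _ (hN.1 ha), mul_inv_cancel, t2_pmT_one (hN.1 ha)]
    rw [Finset.sum_congr rfl fun σ _ => e1 σ, Finset.sum_const, Finset.card_univ, Fintype.card_perm,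
      Fintype.card_fin, ← Nat.cast_smul_eq_nsmul k, smul_smul, inv_mul_cancel₀ hn, one_smul]
  have h3 : ∀ (τ : Equiv.Perm (Fin n)), ∀ a ∈ ML k n, P (pmT τ a) = pmT τ (P a) := by
    intro τ a ha
    rw [hPa, hPa, map_smul, map_sum]
    congr 1
    rw [← Equiv.sum_comp (Equiv.mulLeft τ)]
    refine Finset.sum_congr rfl fun ρ _ => ?_
    show pmT (τ * ρ) ((q (pmT (τ * ρ)⁻¹ (pmT τ a)) : N) : Tn k n) = pmT τ (pmT ρ _)
    rw [t2_pmT_mul _ _ ha, mul_inv_rev, mul_assoc, inv_mul_cancel, mul_one,
      t2_pmT_mul τ ρ (hN.1 (q _).2)]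
  refine ⟨ML k n ⊓ LinearMap.ker P, ⟨inf_le_left, ?_⟩, ?_, ?_⟩
  · rintro σ a ⟨ha, ha'⟩
    refine ⟨t2_pmT_mem σ ha, ?_⟩
    rw [SetLike.mem_coe, LinearMap.mem_ker] at ha' ⊢
    rw [h3 σ a ha, ha', map_zero]
  · rw [eq_bot_iff]
    rintro a ⟨ha, -, ha'⟩
    rw [SetLike.mem_coe, LinearMap.mem_ker, h2 a ha] at ha'
    rw [ha']
    exact Submodule.zero_mem _
  · refine le_antisymm (sup_le hN.1 inf_le_left) fun a ha => ?_
    have e : a = P a + (a - P a) := by abel
    rw [e]
    refine Submodule.add_mem_sup (h1 a) ⟨Submodule.sub_mem _ ha (hN.1 (h1 a)), ?_⟩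
    rw [SetLike.mem_coe, LinearMap.mem_ker, map_sub, h2 _ (h1 a), sub_self]

/-- The multilinear part of the image of a multilinear tensor under a matrix is a combination of
its images under the permutations.

Proof: check on `e_l`, `IsPm l` (these span `ML`). `mlT (actT g e_l)` is the sum over the tuples `l'` with
`IsPm l'` of `(∏ i, g (l i) (l' i)) e_l'`; `l' = σ ∘ l` for a unique permutation `σ` of
`{0, …, n - 1}`, `e_l' = pmT σ e_l`, and `∏ i, g (l i) (σ (l i)) = ∏ j < n, g j (σ j)` does not depend
on `l`. So `mlT (actT g a) = ∑ σ, (∏ j < n, g j (σ j)) • pmT σ a` for all `a ∈ ML`. -/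
theorem mlT_actT_mem {k : Type} [Field k] {n : ℕ} {N : Submodule k (Tn k n)} (hN : InvP N)
    (g : ℕ → (ℕ →₀ k)) {a : Tn k n} (ha : a ∈ N) : mlT (actT g a) ∈ N := by
  rw [t2_mlact g (hN.1 ha)]
  exact N.sum_mem fun σ _ => N.smul_mem _ (hN.2 σ a ha)

/-- Maschke's theorem for the invariant subspaces of the multilinear tensors: there is a maximal
one which contains a given one and avoids a given vector.

Proof. Let `N₀` be invariant, `u ∈ ML`, `u ∉ N₀`. `ML` is finite dimensional (spanned by the
`e_l` with `IsPm l`). Choose an invariant subspace `N ⊇ N₀` with `u ∉ N` of maximal dimension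
(or by Zorn's lemma). Claim: every invariant `N'` with `N < N'` is `ML`. By the choice of
`N`, `u ∈ N'` for all such `N'`. By Maschke's theorem (`n!` is invertible in `k`; average a
projection over the permutations, or use `MonoidAlgebra.Submodule.exists_isCompl` for
the module `ML` over `MonoidAlgebra k (Equiv.Perm (Fin n))`) there is an invariant `C` with
`N' ⊓ C = ⊥`, `N' ⊔ C = ML`. If `C ≠ ⊥`, then `N < N ⊔ C`, so `u ∈ N ⊔ C`, `u ∈ N'`, and
`N' ⊓ (N ⊔ C) = N ⊔ (N' ⊓ C) = N` by the modular law; so `u ∈ N`, a contradiction. So `C = ⊥` and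
`N' = ML`. -/
theorem exists_maxP {k : Type} [Field k] {n : ℕ} (hn : ((n.factorial : ℕ) : k) ≠ 0)
    {N₀ : Submodule k (Tn k n)} (hN₀ : InvP N₀) {u : Tn k n} (hu : u ∈ ML k n)
    (hu' : u ∉ N₀) :
    ∃ N : Submodule k (Tn k n), InvP N ∧ N₀ ≤ N ∧ u ∉ N ∧
      ∀ N' : Submodule k (Tn k n), InvP N' → N < N' → N' = ML k n := by
  obtain ⟨N, hle, hmax⟩ := zorn_le_nonempty₀ {N : Submodule k (Tn k n) | InvP N ∧ u ∉ N} (by
    intro c hc hch y hy
    have hdir : DirectedOn (· ≤ ·) c := hch.directedOn
    refine ⟨sSup c, ⟨⟨sSup_le fun z hz => (hc hz).1.1, ?_⟩, ?_⟩, fun z hz => le_sSup hz⟩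
    · intro σ a ha
      obtain ⟨z, hz, haz⟩ := (Submodule.mem_sSup_of_directed ⟨y, hy⟩ hdir).1 ha
      exact (Submodule.mem_sSup_of_directed ⟨y, hy⟩ hdir).2 ⟨z, hz, (hc hz).1.2 σ a haz⟩
    · intro hu2
      obtain ⟨z, hz, huz⟩ := (Submodule.mem_sSup_of_directed ⟨y, hy⟩ hdir).1 hu2
      exact (hc hz).2 huz) N₀ ⟨hN₀, hu'⟩
  refine ⟨N, hmax.prop.1, hle, hmax.prop.2, fun N' hN' hlt => ?_⟩
  have huN' : ∀ M : Submodule k (Tn k n), InvP M → N < M → u ∈ M := by
    intro M hM hlt
    by_contra h
    exact absurd (hmax.le_of_ge (show M ∈ {N : Submodule k (Tn k n) | InvP N ∧ u ∉ N} from ⟨hM, h⟩) hlt.le)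
      (not_le_of_gt hlt)
  obtain ⟨C, hC, hinf, hsup⟩ := t2_compl hn hN'
  have hC0 : C = ⊥ := by
    by_contra hne
    have hNC : N < N ⊔ C := by
      refine lt_of_le_of_ne le_sup_left fun h => hne ?_
      have h1 : C ≤ N := by rw [h]; exact le_sup_right
      have h2 : C ≤ N' ⊓ C := le_inf (h1.trans hlt.le) le_rfl
      rw [hinf] at h2
      exact le_bot_iff.1 h2
    have hInv : InvP (N ⊔ C) := by
      refine ⟨sup_le hmax.prop.1.1 hC.1, fun σ a ha => ?_⟩
      obtain ⟨b, hb, c, hc, rfl⟩ := Submodule.mem_sup.1 ha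
      rw [map_add]
      exact Submodule.add_mem_sup (hmax.prop.1.2 σ b hb) (hC.2 σ c hc)
    have h3 := huN' _ hInv hNC
    have h4 := huN' _ hN' hlt
    have h5 : N' ⊓ (N ⊔ C) = N := by
      rw [inf_comm, sup_inf_assoc_of_le C hlt.le, inf_comm C N', hinf, sup_bot_eq]
    have h6 : u ∈ N' ⊓ (N ⊔ C) := ⟨h4, h3⟩
    rw [h5] at h6
    exact hmax.prop.2 h6
  rw [hC0, sup_bot_eq] at hsup
  exact hsup

/-- The main theorem on invariant subspaces.

Proof. Let `R` be invariant under all matrices and `a ∉ R`. By `polT` there is `g₀` with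
`u = mlT (actT g₀ a) ∉ R`. `N₀ = R ⊓ ML` is invariant under permutations (`pmT` is an `actT`, and
it preserves `ML`: `mlT_actT_mem`-like, or `pmT σ e_l = e_(σ l)`). Let `N` be as in `exists_maxP` for `N₀`
and `u`. Put `K = {b | ∀ g, mlT (actT g b) ∈ N}`, a subspace, invariant by `actT_comp`. `R ≤ K`: for
`b ∈ R`, `mlT (actT g b) ∈ R` (`mlT_mem`) and in `ML`. `a ∉ K` since `u ∉ N`. Let `K'` be invariant
with `K < K'`: choose `b ∈ K'`, `b ∉ K` and `g` with `u' = mlT (actT g b) ∉ N`; `u' ∈ K'`
(`mlT_mem`). `N ≤ K` by `mlT_actT_mem`. So `N < K' ⊓ ML` which is invariant under permutations,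
hence `K' ⊓ ML = ML`. In particular `K'` contains `e_l` for the tuple `l i = i`, and then every
`e_l'` (apply `actT` with the matrix `i ↦ single (l' i) 1` for `i < n`), so `K' = ⊤`. -/
theorem exists_maxT {k : Type} [Field k] {n : ℕ} (hn : ((n.factorial : ℕ) : k) ≠ 0)
    {R : Submodule k (Tn k n)} (hR : InvT R) {a : Tn k n} (ha : a ∉ R) :
    ∃ K : Submodule k (Tn k n), InvT K ∧ R ≤ K ∧ a ∉ K ∧
      ∀ K' : Submodule k (Tn k n), InvT K' → K < K' → K' = ⊤ := by
  have h0 : ∃ g₀ : ℕ → (ℕ →₀ k), mlT (actT g₀ a) ∉ R := by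
    by_contra h
    push Not at h
    exact ha (polT hn hR h)
  obtain ⟨g₀, hg₀⟩ := h0
  have hinv : ∀ K : Submodule k (Tn k n), InvT K → InvP (K ⊓ ML k n) := fun K hK =>
    ⟨inf_le_right, fun σ a ha => ⟨hK _ a ha.1, t2_pmT_mem σ ha.2⟩⟩
  obtain ⟨N, hN, hN0, huN, hmax⟩ := exists_maxP hn (hinv R hR) (u := mlT (actT g₀ a)) ⟨_, rfl⟩
    (fun h => hg₀ h.1)
  set K : Submodule k (Tn k n) := ⨅ g : ℕ → (ℕ →₀ k), N.comap (mlT ∘ₗ actT g) with hK
  have hmem : ∀ b, b ∈ K ↔ ∀ g : ℕ → (ℕ →₀ k), mlT (actT g b) ∈ N := by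
    intro b
    rw [hK, Submodule.mem_iInf]
    rfl
  have hKinv : InvT K := by
    intro h b hb
    rw [hmem] at hb ⊢
    intro g
    rw [actT_comp]
    exact hb _
  refine ⟨K, hKinv, ?_, ?_, ?_⟩
  · intro b hb
    rw [hmem]
    exact fun g => hN0 ⟨mlT_mem hR (hR g b hb), ⟨_, rfl⟩⟩
  · rw [hmem]
    exact fun h => huN (h g₀)
  · intro K' hK' hlt
    obtain ⟨b, hb, hbK⟩ := SetLike.exists_of_lt hlt
    rw [hmem] at hbK
    push Not at hbK
    obtain ⟨g, hg⟩ := hbK
    have hu' : mlT (actT g b) ∈ K' := mlT_mem hK' (hK' g b hb)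
    have hNK : N ≤ K := fun c hc => (hmem c).2 fun g => mlT_actT_mem hN g hc
    have h1 : N < K' ⊓ ML k n := by
      refine lt_of_le_of_ne (le_inf (hNK.trans hlt.le) hN.1) fun h => hg ?_
      rw [h]
      exact ⟨hu', ⟨_, rfl⟩⟩
    have h2 := hmax _ (hinv K' hK') h1
    have h3 : ML k n ≤ K' := by rw [← h2]; exact inf_le_left
    rw [eq_top_iff]
    intro c _
    induction c using Finsupp.induction_linear with
    | zero => exact Submodule.zero_mem _
    | add x y hx hy => exact Submodule.add_mem _ (hx trivial) (hy trivial)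
    | single l c =>
      have h4 := hK' (fun i => if h : i < n then Finsupp.single (l ⟨i, h⟩) (1 : k) else 0) _
        (h3 (t2_single_mem (1 : Equiv.Perm (Fin n)) c))
      rw [t2_mono l (fun i => (((1 : Equiv.Perm (Fin n)) i : Fin n) : ℕ)) fun i => i.2] at h4
      exact h4

end Pool.Agent.Lib.MP_4c5e24_al
end

section

set_option autoImplicit false

/-!
RIG3-L1: multilinearity of the left-normed commutator modulo the next term.
-/

namespace Pool.Agent.Lib.MP_4c5e24_al

open scoped commutatorElement

/-- Proof: `lc` only depends on the entries `≤ c`. -/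
theorem lc_congr {G : Type*} [Group G] {g h : ℕ → G} {c : ℕ} (hgh : ∀ i ≤ c, g i = h i) :
    lc g c = lc h c := by
  induction c with
  | zero => exact hgh 0 le_rfl
  | succ n ih =>
    simp only [lc]
    rw [ih (fun i hi => hgh i (Nat.le_succ_of_le hi)), hgh (n + 1) le_rfl]

/-- elements of `gam c` are central modulo `gam (c + 1)` -/
private theorem l1_central {c : ℕ} {z : F} (hz : z ∈ (gam c).1) (t : F) :
    (QuotientGroup.mk' (gam (c + 1)).1 z) * (QuotientGroup.mk' (gam (c + 1)).1 t) =
      (QuotientGroup.mk' (gam (c + 1)).1 t) * (QuotientGroup.mk' (gam (c + 1)).1 z) := by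
  have h1 : ⁅z, t⁆ ∈ (gam (c + 1)).1 := by
    change ⁅z, t⁆ ∈ (⊤ : Subgroup F).lowerCentralSeries (c + 1)
    rw [Subgroup.lowerCentralSeries_succ]
    exact Subgroup.commutator_mem_commutator hz (Subgroup.mem_top t)
  have h2 : QuotientGroup.mk' (gam (c + 1)).1 ⁅z, t⁆ = 1 := (QuotientGroup.eq_one_iff _).2 h1
  rw [map_commutatorElement, commutatorElement_eq_one_iff_mul_comm] at h2
  exact h2

private theorem l1_comm_mem {c : ℕ} {z : F} (hz : z ∈ (gam c).1) (t : F) :
    ⁅z, t⁆ ∈ (gam (c + 1)).1 := by
  change ⁅z, t⁆ ∈ (⊤ : Subgroup F).lowerCentralSeries (c + 1)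
  rw [Subgroup.lowerCentralSeries_succ]
  exact Subgroup.commutator_mem_commutator hz (Subgroup.mem_top t)

private theorem l1_right {c : ℕ} {u : F} (hu : u ∈ (gam c).1) (a b : F) :
    QuotientGroup.mk' (gam (c + 2)).1 ⁅u, a * b⁆ =
      QuotientGroup.mk' (gam (c + 2)).1 ⁅u, a⁆ * QuotientGroup.mk' (gam (c + 2)).1 ⁅u, b⁆ := by
  have h1 : ⁅u, a * b⁆ = ⁅u, a⁆ * (a * ⁅u, b⁆ * a⁻¹) := by
    simp only [commutatorElement_def]
    group
  have h2 := l1_central (l1_comm_mem hu b) a
  rw [h1, map_mul, map_mul, map_mul, ← h2, map_inv, mul_inv_cancel_right]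

private theorem l1_left {c : ℕ} {u v : F} (hv : v ∈ (gam c).1) (hu : u ∈ (gam c).1) (t : F) :
    QuotientGroup.mk' (gam (c + 2)).1 ⁅u * v, t⁆ =
      QuotientGroup.mk' (gam (c + 2)).1 ⁅u, t⁆ * QuotientGroup.mk' (gam (c + 2)).1 ⁅v, t⁆ := by
  have h1 : ⁅u * v, t⁆ = (u * ⁅v, t⁆ * u⁻¹) * ⁅u, t⁆ := by
    simp only [commutatorElement_def]
    group
  have h2 := l1_central (l1_comm_mem hv t) u
  have h3 := l1_central (l1_comm_mem hv t) ⁅u, t⁆
  rw [h1, map_mul, map_mul, map_mul, ← h2, map_inv, mul_inv_cancel_right, h3]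

private theorem l1_left' {c : ℕ} {z : F} (hz : z ∈ (gam (c + 1)).1) (w t : F) :
    QuotientGroup.mk' (gam (c + 2)).1 ⁅z * w, t⁆ = QuotientGroup.mk' (gam (c + 2)).1 ⁅w, t⁆ := by
  have h1 : ⁅z * w, t⁆ = (z * ⁅w, t⁆ * z⁻¹) * ⁅z, t⁆ := by
    simp only [commutatorElement_def]
    group
  have h2 := l1_central hz ⁅w, t⁆
  have h3 : QuotientGroup.mk' (gam (c + 2)).1 ⁅z, t⁆ = 1 :=
    (QuotientGroup.eq_one_iff _).2 (l1_comm_mem hz t)
  rw [h1, map_mul, map_mul, map_mul, h2, map_inv, mul_inv_cancel_right, h3, mul_one]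

private theorem l1_mul {c : ℕ} : ∀ (g : ℕ → F) {i : ℕ} (_ : i ≤ c) (a b : F),
    QuotientGroup.mk' (gam (c + 1)).1 (lc (Function.update g i (a * b)) c) =
      QuotientGroup.mk' (gam (c + 1)).1 (lc (Function.update g i a) c) *
        QuotientGroup.mk' (gam (c + 1)).1 (lc (Function.update g i b) c) := by
  induction c with
  | zero =>
    intro g i hi a b
    obtain rfl : i = 0 := Nat.le_zero.1 hi
    simp [lc]
  | succ c ih =>
    intro g i hi a b
    rcases Nat.lt_or_ge c i with h | h
    · obtain rfl : i = c + 1 := le_antisymm hi h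
      have e : ∀ t : F, lc (Function.update g (c + 1) t) (c + 1) = ⁅lc g c, t⁆ := by
        intro t
        rw [lc, Function.update_self, lc_congr (h := g) (fun j hj =>
          Function.update_of_ne (by omega) _ _)]
      rw [e, e, e]
      exact l1_right (lc_mem g c) a b
    · have e : ∀ t : F, lc (Function.update g i t) (c + 1) =
          ⁅lc (Function.update g i t) c, g (c + 1)⁆ := by
        intro t
        rw [lc, Function.update_of_ne (by omega)]
      rw [e, e, e]
      have h1 := ih g h a b
      have h2 : lc (Function.update g i (a * b)) c *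
          (lc (Function.update g i a) c * lc (Function.update g i b) c)⁻¹ ∈ (gam (c + 1)).1 := by
        rw [← QuotientGroup.eq_one_iff]
        change QuotientGroup.mk' (gam (c + 1)).1 _ = 1
        rw [map_mul, map_inv, map_mul, h1, mul_inv_cancel]
      have h3 : lc (Function.update g i (a * b)) c = (lc (Function.update g i (a * b)) c *
          (lc (Function.update g i a) c * lc (Function.update g i b) c)⁻¹) *
          (lc (Function.update g i a) c * lc (Function.update g i b) c) := by
        rw [inv_mul_cancel_right]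
      rw [h3, l1_left' h2, l1_left (lc_mem _ c) (lc_mem _ c)]

/-- Proof. Induction on `c`; the statement is for all `g`, `i ≤ c`, `a`, `b : F`, modulo
`gam (c + 1)`. `c = 0`: equality. Step from `c` to `c + 1`: if `i = c + 1`: for `u = lc g c ∈ gam c`
(it does not depend on the entry `c + 1`), `⁅u, a * b⁆ = ⁅u, a⁆ * a * ⁅u, b⁆ * a⁻¹` and
`a * ⁅u, b⁆ * a⁻¹ ≡ ⁅u, b⁆` modulo `gam (c + 2)`. If `i ≤ c`: by induction
`lc (update g i (a * b)) c = u * v * z` with `u`, `v ∈ gam c` the two values and `z ∈ gam (c + 1)`;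
`⁅u * v * z, t⁆ ≡ ⁅u, t⁆ * ⁅v, t⁆` modulo `gam (c + 2)`, because
`⁅u * v, t⁆ = u * ⁅v, t⁆ * u⁻¹ * ⁅u, t⁆`, elements of `gam (c + 1)` are central modulo `gam (c + 2)`,
and `⁅z, t⁆ ∈ gam (c + 2)`. -/
theorem lc_mul {c : ℕ} (g : ℕ → F) {i : ℕ} (hi : i ≤ c) (a b : F) :
    lc (Function.update g i (a * b)) c *
      (lc (Function.update g i a) c * lc (Function.update g i b) c)⁻¹ ∈ (gam (c + 1)).1 := by
  rw [← QuotientGroup.eq_one_iff]
  change QuotientGroup.mk' (gam (c + 1)).1 _ = 1
  rw [map_mul, map_inv, map_mul, l1_mul g hi, mul_inv_cancel]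

/-- Proof. Induction on `c`. `c = 0`: `g 0 ∈ commutator F = gam 1`. Step: if `i ≤ c` then
`lc g c ∈ gam (c + 1)`, so `⁅lc g c, g (c + 1)⁆ ∈ gam (c + 2)`. If `i = c + 1`:
`lc g c ∈ gam c` and `g (c + 1) ∈ gam 1`, and `⁅γ_(c+1), γ_2⁆ ≤ γ_(c+3)` (three subgroups lemma; this
is also a special case of `⁅γ_i, γ_j⁆ ≤ γ_(i+j)`, see `WY_lcs` in the file `W1` or prove it: for
`u ∈ gam c` the map `t ↦ ⁅u, t⁆` modulo `gam (c + 2)` is a homomorphism to a central, abelian group,
so it kills commutators; this is the simplest proof). -/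
theorem lc_comm_mem {c : ℕ} (g : ℕ → F) {i : ℕ} (hi : i ≤ c) (h : g i ∈ commutator F) :
    lc g c ∈ (gam (c + 1)).1 := by
  let f : F →* F ⧸ (gam (c + 1)).1 := MonoidHom.mk'
    (fun t => QuotientGroup.mk' (gam (c + 1)).1 (lc (Function.update g i t) c))
    (fun a b => l1_mul g hi a b)
  have h1 : commutator F ≤ f.ker := by
    rw [commutator_def, Subgroup.commutator_le]
    intro a _ b _
    rw [MonoidHom.mem_ker, map_commutatorElement, commutatorElement_eq_one_iff_mul_comm]
    exact l1_central (lc_mem _ c) _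
  have h2 : f (g i) = 1 := MonoidHom.mem_ker.1 (h1 h)
  have h3 : QuotientGroup.mk' (gam (c + 1)).1 (lc (Function.update g i (g i)) c) = 1 := h2
  rw [Function.update_eq_self] at h3
  exact (QuotientGroup.eq_one_iff _).1 h3

/-- `gam c` is generated modulo `gam (c + 1)` by the commutators of the generators.

Proof. Induction on `c`. `c = 0`: `F` is generated by the `x i`. Step: `gam (c + 1) = ⁅gam c, ⊤⁆` is
generated by the `⁅u, t⁆`, `u ∈ gam c`. Modulo `gam (c + 2)` the map `(u, t) ↦ ⁅u, t⁆` is
multiplicative in both arguments and trivial for `u ∈ gam (c + 1)`; so `⁅u, t⁆` is a product of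
elements `⁅lc (x ∘ l) c, x j⁆ ^ (± 1)`, and this is `lc (x ∘ l') (c + 1)` with `l' = update l (c + 1) j`
(`lc_congr`). -/
theorem gam_gen (c : ℕ) :
    (gam c).1 ≤ Subgroup.closure {y | ∃ l : ℕ → ℕ, y = lc (fun i => x (l i)) c} ⊔
      (gam (c + 1)).1 := by
  induction c with
  | zero =>
    refine le_trans le_top (le_trans ?_ le_sup_left)
    rw [← FreeGroup.closure_range_of, Subgroup.closure_le]
    rintro _ ⟨j, rfl⟩
    exact Subgroup.subset_closure ⟨fun _ => j, rfl⟩
  | succ c ih =>
    set S := Subgroup.closure {y | ∃ l : ℕ → ℕ, y = lc (fun i => x (l i)) (c + 1)} ⊔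
      (gam (c + 2)).1 with hS
    set π := QuotientGroup.mk' (gam (c + 2)).1 with hπ
    have hmem : ∀ y : F, π y ∈ S.map π → y ∈ S := by
      intro y hy
      obtain ⟨s, hs, hsy⟩ := hy
      have h1 : s⁻¹ * y ∈ (gam (c + 2)).1 := QuotientGroup.eq.1 hsy
      have h2 : s * (s⁻¹ * y) ∈ S := S.mul_mem hs ((le_sup_right : (gam (c + 2)).1 ≤ S) h1)
      rwa [mul_inv_cancel_left] at h2
    -- generators in the second argument
    have hgen : ∀ j : ℕ, ∀ u ∈ (gam c).1, π ⁅u, x j⁆ ∈ S.map π := by
      intro j u hu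
      have h1 : ∀ u ∈ Subgroup.closure ({y | ∃ l : ℕ → ℕ, y = lc (fun i => x (l i)) c} ∪
          ((gam (c + 1)).1 : Set F)), u ∈ (gam c).1 ∧ π ⁅u, x j⁆ ∈ S.map π := by
        intro u hu
        induction hu using Subgroup.closure_induction with
        | mem y hy =>
          rcases hy with ⟨l, rfl⟩ | hy
          · refine ⟨lc_mem _ c, ?_⟩
            refine ⟨⁅lc (fun i => x (l i)) c, x j⁆, ?_, rfl⟩
            refine (le_sup_left : _ ≤ S) (Subgroup.subset_closure
              ⟨Function.update l (c + 1) j, ?_⟩)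
            rw [lc, Function.update_self]
            congr 1
            refine lc_congr fun i hi => ?_
            rw [Function.update_of_ne (by omega)]
          · refine ⟨Subgroup.lowerCentralSeries_antitone _ (Nat.le_succ c) hy, ?_⟩
            have h2 : π ⁅y, x j⁆ = 1 := (QuotientGroup.eq_one_iff _).2 (l1_comm_mem hy (x j))
            rw [h2]
            exact one_mem _
        | one =>
          refine ⟨one_mem _, ?_⟩
          rw [commutatorElement_one_left, map_one]
          exact one_mem _
        | mul a b _ _ ha hb =>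
          refine ⟨mul_mem ha.1 hb.1, ?_⟩
          rw [hπ, l1_left hb.1 ha.1]
          exact mul_mem ha.2 hb.2
        | inv a _ ha =>
          refine ⟨inv_mem ha.1, ?_⟩
          have h2 := l1_left ha.1 (inv_mem ha.1) (x j)
          rw [inv_mul_cancel, commutatorElement_one_left, map_one] at h2
          have h3 : π ⁅a⁻¹, x j⁆ = (π ⁅a, x j⁆)⁻¹ := eq_inv_of_mul_eq_one_left h2.symm
          rw [h3]
          exact inv_mem ha.2
      have h2 := ih hu
      rw [← Subgroup.closure_eq (gam (c + 1)).1, ← Subgroup.closure_union] at h2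
      exact (h1 u h2).2
    -- all second arguments
    have hall : ∀ u ∈ (gam c).1, ∀ t : F, π ⁅u, t⁆ ∈ S.map π := by
      intro u hu t
      have ht : t ∈ Subgroup.closure (Set.range (FreeGroup.of : ℕ → F)) := by
        rw [FreeGroup.closure_range_of]
        trivial
      induction ht using Subgroup.closure_induction with
      | mem y hy =>
        obtain ⟨j, rfl⟩ := hy
        exact hgen j u hu
      | one =>
        rw [commutatorElement_one_right, map_one]
        exact one_mem _
      | mul a b _ _ ha hb =>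
        rw [hπ, l1_right hu]
        exact mul_mem ha hb
      | inv a _ ha =>
        have h2 := l1_right hu a⁻¹ a
        rw [inv_mul_cancel, commutatorElement_one_right, map_one] at h2
        have h3 : π ⁅u, a⁻¹⁆ = (π ⁅u, a⁆)⁻¹ := eq_inv_of_mul_eq_one_left h2.symm
        rw [h3]
        exact inv_mem ha
    change (⊤ : Subgroup F).lowerCentralSeries (c + 1) ≤ S
    rw [Subgroup.lowerCentralSeries_succ, Subgroup.commutator_le]
    intro u hu t _
    exact hmem _ (hall u hu t)

end Pool.Agent.Lib.MP_4c5e24_al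
end
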