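import Mathlib

section

set_option autoImplicit false

/-!
RIG-LIN: polarisation of vectors of polynomials.
-/

namespace Pool.Agent.Lib.MP_4c5e24_al

open MvPolynomial

/-- The substitution `e_i ↦ ∑ j ∈ B i, e_j`, `X i ↦ ∑ j ∈ B i, X j`. -/
noncomputable def sub (B : ℕ → Finset ℕ) (v : ℕ →₀ MvPolynomial ℕ ℤ) :
    ℕ →₀ MvPolynomial ℕ ℤ :=
  v.sum fun i P => ∑ j ∈ B i, Finsupp.single j (bind₁ (fun k => ∑ l ∈ B k, X l) P)

/-- The multilinear vector with coefficients `α 0, …, α c`:
`∑ j ≤ c, α j • (∏ l ≤ c, l ≠ j, X l) e_j`. -/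
noncomputable def ml (c : ℕ) (α : ℕ → ℤ) : ℕ →₀ MvPolynomial ℕ ℤ :=
  ∑ j ∈ Finset.range (c + 1), Finsupp.single j (C (α j) * ∏ l ∈ (Finset.range (c + 1)).erase j, X l)

/-- Iterated partial derivatives. -/
private noncomputable def linD : List ℕ → MvPolynomial ℕ ℤ → MvPolynomial ℕ ℤ
  | [], P => P
  | i :: s, P => linD s (pderiv i P)

/-- The exponent of the monomial of a list. -/
private noncomputable def linE : List ℕ → (ℕ →₀ ℕ)
  | [] => 0
  | i :: s => linE s + Finsupp.single i 1

private lemma linD_coeff (s : List ℕ) (m : ℕ →₀ ℕ) :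
    ∃ N : ℕ, 0 < N ∧ ∀ P : MvPolynomial ℕ ℤ, coeff m (linD s P) = N * coeff (m + linE s) P := by
  induction s generalizing m with
  | nil => exact ⟨1, one_pos, fun P => by simp [linD, linE]⟩
  | cons i s ih =>
    obtain ⟨N, hN, h⟩ := ih m
    refine ⟨N * ((m + linE s) i + 1), by positivity, fun P => ?_⟩
    show coeff m (linD s (pderiv i P)) = _
    rw [h, coeff_pderiv]
    have e : m + linE (i :: s) = m + linE s + Finsupp.single i 1 := (add_assoc _ _ _).symm
    rw [e]
    push_cast
    ring

private lemma lin_chain (L : ℕ → MvPolynomial ℕ ℤ) {l t : ℕ}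
    (h : ∀ k, pderiv l (L k) = if k = t then 1 else 0) (Q : MvPolynomial ℕ ℤ) :
    pderiv l (bind₁ L Q) = bind₁ L (pderiv t Q) := by
  induction Q using MvPolynomial.induction_on with
  | C a => simp
  | add p q hp hq => simp only [map_add, hp, hq]
  | mul_X p k hp =>
    rw [map_mul, bind₁_X_right, pderiv_mul, hp, h, pderiv_mul, map_add, map_mul, map_mul,
      bind₁_X_right, pderiv_X]
    by_cases hk : k = t
    · subst hk
      simp
    · rw [if_neg hk, Pi.single_eq_of_ne hk]
      simp

private lemma linD_bind (L : ℕ → MvPolynomial ℕ ℤ) (τ : ℕ → ℕ) (s : List ℕ)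
    (h : ∀ l ∈ s, ∀ k, pderiv l (L k) = if k = τ l then 1 else 0) (Q : MvPolynomial ℕ ℤ) :
    linD s (bind₁ L Q) = bind₁ L (linD (s.map τ) Q) := by
  induction s generalizing Q with
  | nil => rfl
  | cons i s ih =>
    show linD s (pderiv i (bind₁ L Q)) = bind₁ L (linD (s.map τ) (pderiv (τ i) Q))
    rw [lin_chain L (h i (by simp)), ih (fun l hl => h l (by simp [hl]))]

private lemma lin_const (L : ℕ → MvPolynomial ℕ ℤ) (h : ∀ k, coeff 0 (L k) = 0)
    (R : MvPolynomial ℕ ℤ) : coeff 0 (bind₁ L R) = coeff 0 R := by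
  have h' : ∀ k, constantCoeff (L k) = 0 := h
  have key : constantCoeff (bind₁ L R) = constantCoeff R := by
    induction R using MvPolynomial.induction_on with
    | C a => simp
    | add p q hp hq => simp only [map_add, hp, hq]
    | mul_X p k hp => rw [map_mul, bind₁_X_right, map_mul, h' k, map_mul]; simp
  exact key

private lemma lin_coeff_ne (L : ℕ → MvPolynomial ℕ ℤ) (τ : ℕ → ℕ) (s : List ℕ)
    (h : ∀ l ∈ s, ∀ k, pderiv l (L k) = if k = τ l then 1 else 0)
    (h0 : ∀ k, coeff 0 (L k) = 0) (Q : MvPolynomial ℕ ℤ) (hQ : coeff (linE (s.map τ)) Q ≠ 0) :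
    coeff (linE s) (bind₁ L Q) ≠ 0 := by
  obtain ⟨N, -, h1⟩ := linD_coeff s 0
  obtain ⟨N', hN', h2⟩ := linD_coeff (s.map τ) 0
  have e1 := h1 (bind₁ L Q)
  rw [linD_bind L τ s h, lin_const L h0, h2, zero_add, zero_add] at e1
  intro h3
  rw [h3, mul_zero] at e1
  rcases mul_eq_zero.1 e1 with h4 | h4
  · exact hN'.ne' (by exact_mod_cast h4)
  · exact hQ h4

private lemma sub_apply (B : ℕ → Finset ℕ) (v : ℕ →₀ MvPolynomial ℕ ℤ) (n : ℕ) :
    sub B v n = v.sum fun i P => if n ∈ B i then bind₁ (fun k => ∑ l ∈ B k, X l) P else 0 := by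
  unfold sub
  rw [Finsupp.sum_apply]
  refine Finsupp.sum_congr fun i _ => ?_
  rw [Finsupp.finsetSum_apply]
  simp only [Finsupp.single_apply]
  rw [Finset.sum_ite_eq']

private lemma sub_apply_one (B : ℕ → Finset ℕ) (v : ℕ →₀ MvPolynomial ℕ ℤ) (n i₀ : ℕ)
    (h : ∀ i, n ∈ B i ↔ i = i₀) :
    sub B v n = bind₁ (fun k => ∑ l ∈ B k, X l) (v i₀) := by
  rw [sub_apply]
  unfold Finsupp.sum
  simp only [h]
  rw [Finset.sum_ite_eq']
  split_ifs with h1
  · rfl
  · rw [Finsupp.notMem_support_iff.1 h1, map_zero]

private lemma sub_apply_zero (B : ℕ → Finset ℕ) (v : ℕ →₀ MvPolynomial ℕ ℤ) (n : ℕ)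
    (h : ∀ i, n ∉ B i) : sub B v n = 0 := by
  rw [sub_apply]
  unfold Finsupp.sum
  simp only [h, if_false]
  exact Finset.sum_const_zero

/-- killing the index `j` -/
private def kil (j : ℕ) : ℕ → Finset ℕ := fun i => if i = j then ∅ else {i}

private lemma kil_coeff (j : ℕ) (P : MvPolynomial ℕ ℤ) (μ : ℕ →₀ ℕ) :
    coeff μ (bind₁ (fun k => ∑ l ∈ kil j k, (X l : MvPolynomial ℕ ℤ)) P) =
      if μ j = 0 then coeff μ P else 0 := by
  have hL : ∀ k, (∑ l ∈ kil j k, (X l : MvPolynomial ℕ ℤ)) = if k = j then 0 else X k := by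
    intro k
    unfold kil
    split_ifs <;> simp
  simp only [hL]
  have hm : ∀ (ν : ℕ →₀ ℕ) (a : ℤ),
      bind₁ (fun k => if k = j then (0 : MvPolynomial ℕ ℤ) else X k) (monomial ν a) =
        if ν j = 0 then monomial ν a else 0 := by
    intro ν a
    rw [bind₁_monomial]
    by_cases hν : ν j = 0
    · rw [if_pos hν, monomial_eq]
      congr 1
      refine Finset.prod_congr rfl fun k hk => ?_
      have hkj : k ≠ j := by
        rintro rfl
        exact (Finsupp.mem_support_iff.1 hk) hν
      rw [if_neg hkj]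
    · rw [if_neg hν]
      have : ∏ k ∈ ν.support, (if k = j then (0 : MvPolynomial ℕ ℤ) else X k) ^ ν k = 0 := by
        refine Finset.prod_eq_zero (Finsupp.mem_support_iff.2 hν) ?_
        rw [if_pos rfl, zero_pow hν]
      rw [this, mul_zero]
  induction P using MvPolynomial.induction_on' with
  | monomial ν a =>
    rw [hm]
    by_cases hν : ν j = 0
    · rw [if_pos hν, coeff_monomial]
      by_cases h1 : ν = μ
      · subst h1
        rw [if_pos hν]
      · rw [if_neg h1]
        split_ifs <;> rfl
    · rw [if_neg hν, coeff_zero, coeff_monomial]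
      by_cases h1 : ν = μ
      · subst h1
        rw [if_neg hν]
      · rw [if_neg h1]
        split_ifs <;> rfl
  | add p q hp hq =>
    rw [map_add, coeff_add, hp, hq, coeff_add]
    split_ifs <;> simp

private lemma kil_apply (j : ℕ) (v : ℕ →₀ MvPolynomial ℕ ℤ) (i : ℕ) (μ : ℕ →₀ ℕ) :
    coeff μ (sub (kil j) v i) = if i = j ∨ μ j ≠ 0 then 0 else coeff μ (v i) := by
  by_cases hi : i = j
  · rw [if_pos (Or.inl hi), sub_apply_zero, coeff_zero]
    intro i'
    unfold kil
    split_ifs with h1
    · simp
    · rw [Finset.mem_singleton, hi]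
      exact fun h => h1 h.symm
  · rw [sub_apply_one (kil j) v i i, kil_coeff]
    · by_cases h1 : μ j = 0
      · rw [if_pos h1, if_neg]
        rintro (h | h)
        · exact hi h
        · exact h h1
      · rw [if_neg h1, if_pos (Or.inr h1)]
    · intro i'
      unfold kil
      split_ifs with h1
      · simp only [Finset.notMem_empty, false_iff]
        rintro rfl
        exact hi h1
      · rw [Finset.mem_singleton]
        exact eq_comm

private lemma lin_kill (K : AddSubgroup (ℕ →₀ MvPolynomial ℕ ℤ))
    (hsub : ∀ v ∈ K, ∀ B : ℕ → Finset ℕ, sub B v ∈ K) {v : ℕ →₀ MvPolynomial ℕ ℤ} (hv : v ∈ K)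
    (n : ℕ) : ∃ u ∈ K, ∀ (i : ℕ) (μ : ℕ →₀ ℕ), coeff μ (u i) =
      if ∀ j < n, i = j ∨ μ j ≠ 0 then coeff μ (v i) else 0 := by
  classical
  induction n with
  | zero => exact ⟨v, hv, fun i μ => by simp⟩
  | succ n ih =>
    obtain ⟨u, hu, h⟩ := ih
    refine ⟨u - sub (kil n) u, K.sub_mem hu (hsub u hu _), fun i μ => ?_⟩
    rw [Finsupp.sub_apply, coeff_sub, kil_apply, h]
    have e : (∀ j < n + 1, i = j ∨ μ j ≠ 0) ↔
        (∀ j < n, i = j ∨ μ j ≠ 0) ∧ (i = n ∨ μ n ≠ 0) := by
      constructor
      · intro h1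
        exact ⟨fun j hj => h1 j (by omega), h1 n (by omega)⟩
      · rintro ⟨h1, h2⟩ j hj
        rcases Nat.lt_succ_iff_lt_or_eq.1 hj with h3 | h3
        · exact h1 j h3
        · rw [h3]
          exact h2
    by_cases h1 : ∀ j < n, i = j ∨ μ j ≠ 0
    · by_cases h2 : i = n ∨ μ n ≠ 0
      · rw [if_pos h1, if_pos h2, if_pos (e.2 ⟨h1, h2⟩), sub_zero]
      · rw [if_pos h1, if_neg h2, if_neg (fun h3 => h2 (e.1 h3).2), sub_self]
    · rw [if_neg h1, if_neg (fun h3 => h1 (e.1 h3).1)]
      split_ifs <;> simp

/-- The exponent of the multilinear monomial. -/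
private noncomputable def mlE (c j : ℕ) : ℕ →₀ ℕ :=
  ∑ l ∈ (Finset.range (c + 1)).erase j, Finsupp.single l 1

private lemma mlE_apply (c j l : ℕ) : mlE c j l = if l ≤ c ∧ l ≠ j then 1 else 0 := by
  unfold mlE
  rw [Finsupp.finsetSum_apply]
  simp only [Finsupp.single_apply]
  rw [Finset.sum_ite_eq']
  simp only [Finset.mem_erase, Finset.mem_range]
  by_cases h : l ≤ c ∧ l ≠ j
  · rw [if_pos h, if_pos ⟨h.2, by omega⟩]
  · rw [if_neg h, if_neg]
    rintro ⟨h1, h2⟩
    exact h ⟨by omega, h1⟩

private lemma mlE_degree (c j : ℕ) (hj : j ≤ c) : (mlE c j).degree = c := by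
  unfold mlE
  rw [map_sum]
  simp only [Finsupp.degree_single]
  rw [Finset.sum_const, Finset.card_erase_of_mem (by simp; omega), Finset.card_range]
  simp

private lemma lin_le_eq {μ ν : ℕ →₀ ℕ} (h : μ ≤ ν) (hd : ν.degree ≤ μ.degree) : μ = ν := by
  obtain ⟨ρ, rfl⟩ := exists_add_of_le h
  rw [map_add] at hd
  have h1 : ρ.degree = 0 := by omega
  rw [Finsupp.degree_eq_zero_iff] at h1
  rw [h1, add_zero]

private lemma mlE_prod (c j : ℕ) :
    (∏ l ∈ (Finset.range (c + 1)).erase j, (X l : MvPolynomial ℕ ℤ)) = monomial (mlE c j) 1 := by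
  unfold mlE
  rw [monomial_sum_one]
  rfl

private lemma ml_coeff (c : ℕ) (α : ℕ → ℤ) (i : ℕ) (μ : ℕ →₀ ℕ) :
    coeff μ (ml c α i) = if i ≤ c ∧ μ = mlE c i then α i else 0 := by
  classical
  unfold ml
  rw [Finsupp.finsetSum_apply]
  simp only [Finsupp.single_apply]
  rw [Finset.sum_ite_eq']
  by_cases hi : i ≤ c
  · rw [if_pos (by simp; omega), mlE_prod, coeff_C_mul, coeff_monomial]
    by_cases h : μ = mlE c i
    · rw [if_pos h.symm, if_pos ⟨hi, h⟩, mul_one]
    · rw [if_neg (fun h1 => h h1.symm), if_neg (fun h1 => h h1.2), mul_zero]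
  · rw [if_neg (by simp; omega), coeff_zero, if_neg (fun h1 => hi h1.1)]

private lemma lin_tau (c : ℕ) : ∀ μ : ℕ →₀ ℕ, μ.degree = c →
    ∃ τ : ℕ → ℕ, linE ((List.range c).map τ) = μ := by
  induction c with
  | zero =>
    intro μ hμ
    rw [Finsupp.degree_eq_zero_iff] at hμ
    exact ⟨id, by rw [hμ]; rfl⟩
  | succ c ih =>
    intro μ hμ
    have hne : μ ≠ 0 := by
      rintro rfl
      simp at hμ
    obtain ⟨i, hi⟩ := Finsupp.ne_iff.1 hne
    have hle : Finsupp.single i 1 ≤ μ := by
      rw [Finsupp.single_le_iff]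
      have : μ i ≠ 0 := hi
      omega
    obtain ⟨ν, rfl⟩ := exists_add_of_le hle
    rw [map_add, Finsupp.degree_single] at hμ
    obtain ⟨τ, hτ⟩ := ih ν (by omega)
    refine ⟨fun l => if l = 0 then i else τ (l - 1), ?_⟩
    rw [List.range_succ_eq_map, List.map_cons, List.map_map]
    show linE _ + Finsupp.single i 1 = _
    have e : (List.range c).map ((fun l => if l = 0 then i else τ (l - 1)) ∘ Nat.succ) =
        (List.range c).map τ := by
      refine List.map_congr_left fun l _ => ?_
      simp
    rw [e, hτ, add_comm]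

private lemma linE_append (s : List ℕ) (i : ℕ) :
    linE (s ++ [i]) = Finsupp.single i 1 + linE s := by
  induction s with
  | nil => simp [linE]
  | cons j s ih =>
    show linE (s ++ [i]) + Finsupp.single j 1 = Finsupp.single i 1 + (linE s + Finsupp.single j 1)
    rw [ih, add_assoc]

private lemma linE_range (c : ℕ) : linE (List.range c) = mlE c c := by
  have h : ∀ n, linE (List.range n) = ∑ l ∈ Finset.range n, Finsupp.single l 1 := by
    intro n
    induction n with
    | zero => rfl
    | succ n ih =>
      rw [List.range_succ, linE_append, ih, Finset.sum_range_succ, add_comm]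
  rw [h]
  unfold mlE
  congr 1
  ext l
  simp only [Finset.mem_range, Finset.mem_erase]
  omega

/-- Multilinearisation.

Proof. Choose `i₀` and a monomial `μ₀` with `(v i₀).coeff μ₀ ≠ 0`; `μ₀.degree = c` by `hhom`. Let
`d = μ₀ + single i₀ 1`, of degree `c + 1`, and choose `τ : ℕ → ℕ` such that for every `i` exactly `d i`
of the numbers `j ≤ c` satisfy `τ j = i` (for instance from the list of the multiset
`Finsupp.toMultiset d`). For a subset `T` of `{0, …, c}` let `B_T i = {j ∈ T | τ j = i}`, and
`u = ∑ T, (-1) ^ (c + 1 - |T|) • sub (B_T) v ∈ K`. Claim: `u = ml c α` with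
`α j = (v (τ j)).coeff (d - single (τ j) 1) * ∏ i, ((d - single (τ j) 1) i)!`.
It suffices to compute the alternating sum for `v = single i (monomial μ 1)` with `μ.degree = c`, by
additivity of `sub` in `v`. Write `monomial μ 1 = ∏ a < c, X (m a)` for a function
`m : Fin c → ℕ` (a list of the multiset of `μ`). Then `sub (B_T) (single i (monomial μ 1))` is the sum
over all functions `(j₀, j_1, …, j_c)` with values in `T`, `τ j₀ = i`, `τ (j_a) = m a`, of
`single j₀ (∏ a, X (j_a))` (`Finset.prod_univ_sum`). In the alternating sum over `T` a function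
contributes `∑ over T ⊇ its image of (-1) ^ (c + 1 - |T|)`, which is `1` if the image is
`{0, …, c}` and `0` otherwise (`Finset.sum_powerset_neg_one_pow_card` and its variants). The functions
with image `{0, …, c}` are the bijections; for them `∏ a, X (j_a) = ∏ l ≠ j₀, X l`, and they exist only
if `μ + single i 1 = d`; the number of those with given `j₀` (`τ j₀ = i`) is
`∏ k, (μ k)!` (bijections between the places `a` with `m a = k` and the `j ≠ j₀` with `τ j = k`).
(For the theorem only the following is needed: this number `N j₀ i μ` is a natural number which is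
zero unless `τ j₀ = i` and `μ + single i 1 = d`, and in this case it is positive.)
Finally `α j ≠ 0` for a `j ≤ c` with `τ j = i₀` (it exists since `d i₀ ≥ 1`). -/
theorem lin1 {c : ℕ} (K : AddSubgroup (ℕ →₀ MvPolynomial ℕ ℤ))
    (hhom : ∀ v ∈ K, ∀ i, (v i).IsHomogeneous c)
    (hsub : ∀ v ∈ K, ∀ B : ℕ → Finset ℕ, sub B v ∈ K)
    {v : ℕ →₀ MvPolynomial ℕ ℤ} (hv : v ∈ K) (hv0 : v ≠ 0) :
    ∃ α : ℕ → ℤ, ml c α ∈ K ∧ ∃ j ≤ c, α j ≠ 0 := by
  classical
  -- the multilinear part
  have step : ∀ v' ∈ K, ml c (fun j => coeff (mlE c j) (v' j)) ∈ K := by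
    intro v' hv'
    obtain ⟨u, hu, h⟩ := lin_kill K hsub hv' (c + 1)
    have e : u = ml c (fun j => coeff (mlE c j) (v' j)) := by
      refine Finsupp.ext fun i => MvPolynomial.ext _ _ fun μ => ?_
      rw [h, ml_coeff]
      by_cases h1 : i ≤ c ∧ μ = mlE c i
      · rw [if_pos h1, if_pos, h1.2]
        intro j hj
        by_cases hij : i = j
        · exact Or.inl hij
        · right
          rw [h1.2, mlE_apply, if_pos ⟨by omega, fun h => hij h.symm⟩]
          exact one_ne_zero
      · rw [if_neg h1]
        split_ifs with h2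
        · by_contra h3
          have hdeg : μ.degree = c := by
            have := hhom v' hv' i h3
            rw [← this, Finsupp.degree_eq_weight_one]
            rfl
          have hle : ∀ j, j ≤ c → j ≠ i → 1 ≤ μ j := by
            intro j hj hji
            rcases h2 j (by omega) with h4 | h4
            · exact absurd h4.symm hji
            · omega
          by_cases hi : i ≤ c
          · apply h1
            refine ⟨hi, (lin_le_eq ?_ (by rw [hdeg, mlE_degree c i hi])).symm⟩
            intro l
            rw [mlE_apply]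
            split_ifs with h5
            · exact hle l h5.1 h5.2
            · exact Nat.zero_le _
          · have h6 : mlE c i ≤ μ := by
              intro l
              rw [mlE_apply]
              split_ifs with h5
              · exact hle l h5.1 h5.2
              · exact Nat.zero_le _
            have h7 : (mlE c i).degree = c + 1 := by
              unfold mlE
              rw [map_sum]
              simp only [Finsupp.degree_single]
              rw [Finset.erase_eq_of_notMem (by simp; omega)]
              simp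
            obtain ⟨ρ, hρ⟩ := exists_add_of_le h6
            rw [hρ, map_add, h7] at hdeg
            omega
        · rfl
    rw [← e]
    exact hu
  -- a nonzero coefficient
  obtain ⟨i₀, hi₀⟩ := Finsupp.ne_iff.1 hv0
  obtain ⟨μ₀, hμ₀⟩ := MvPolynomial.ne_zero_iff.1 (show v i₀ ≠ 0 from hi₀)
  have hdeg : μ₀.degree = c := by
    have := hhom v hv i₀ hμ₀
    rw [← this, Finsupp.degree_eq_weight_one]
    rfl
  obtain ⟨τ, hτ⟩ := lin_tau c μ₀ hdeg
  obtain ⟨σ, hσ⟩ : ∃ σ : ℕ → ℕ, ∀ l, σ l = if l = c then i₀ else τ l := ⟨_, fun l => rfl⟩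
  obtain ⟨B, hB⟩ : ∃ B : ℕ → Finset ℕ, ∀ i, B i = (Finset.range (c + 1)).filter (fun l => σ l = i) :=
    ⟨_, fun i => rfl⟩
  refine ⟨_, step (sub B v) (hsub v hv B), c, le_rfl, ?_⟩
  have e1 : sub B v c = bind₁ (fun k => ∑ l ∈ B k, X l) (v i₀) := by
    apply sub_apply_one
    intro i
    rw [hB, Finset.mem_filter, hσ, if_pos rfl]
    constructor
    · exact fun h => h.2.symm
    · exact fun h => ⟨by simp, h.symm⟩
  show coeff (mlE c c) (sub B v c) ≠ 0
  rw [e1, ← linE_range]
  refine lin_coeff_ne _ σ (List.range c) ?_ ?_ _ ?_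
  · intro l hl k
    rw [List.mem_range] at hl
    rw [map_sum]
    simp only [pderiv_X, Pi.single_apply]
    rw [Finset.sum_ite_eq', hB]
    by_cases h : k = σ l
    · rw [if_pos h, if_pos]
      rw [Finset.mem_filter, Finset.mem_range]
      exact ⟨by omega, h.symm⟩
    · rw [if_neg h, if_neg]
      rw [Finset.mem_filter]
      exact fun h1 => h h1.2.symm
  · intro k
    rw [coeff_sum]
    refine Finset.sum_eq_zero fun l _ => ?_
    exact coeff_zero_X l
  · have e2 : (List.range c).map σ = (List.range c).map τ := by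
      refine List.map_congr_left fun l hl => ?_
      rw [List.mem_range] at hl
      rw [hσ, if_neg (by omega)]
    rw [e2, hτ]
    exact hμ₀

end Pool.Agent.Lib.MP_4c5e24_al
end

section

section

set_option autoImplicit false

/-!
RIG-META: the derived subgroup of a metabelian group as a module.
-/

namespace Pool.Agent.Lib.MP_4c5e24_al

open scoped commutatorElement

/-- A metabelian group. -/
class IsMeta (G : Type) [Group G] : Prop where
  comm : ∀ a ∈ commutator G, ∀ b ∈ commutator G, a * b = b * a

/-- The derived subgroup of a metabelian group, written additively. -/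
def Dm (G : Type) [Group G] := Additive (commutator G)

namespace Dm

variable {G : Type} [Group G]

/-- An element of the derived subgroup as an element of the module. -/
def mk (a : G) (ha : a ∈ commutator G) : Dm G := Additive.ofMul ⟨a, ha⟩

/-- The underlying group element. -/
def val (a : Dm G) : G := ((Additive.toMul a : commutator G) : G)

theorem val_mem (a : Dm G) : a.val ∈ commutator G := (Additive.toMul a : commutator G).2

@[simp] theorem val_mk (a : G) (ha : a ∈ commutator G) : (mk a ha).val = a := rfl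

theorem val_inj {a b : Dm G} (h : a.val = b.val) : a = b := Subtype.ext h

variable [IsMeta G]

instance : AddCommGroup (Dm G) :=
  { (inferInstance : AddGroup (Additive (commutator G))) with
    add_comm := fun a b => by
      apply val_inj
      exact IsMeta.comm _ (val_mem a) _ (val_mem b) }

@[simp] theorem val_zero : (0 : Dm G).val = 1 := rfl
@[simp] theorem val_add (a b : Dm G) : (a + b).val = a.val * b.val := rfl
@[simp] theorem val_neg (a : Dm G) : (-a).val = (a.val)⁻¹ := rfl

theorem val_sub (a b : Dm G) : (a - b).val = a.val * (b.val)⁻¹ := by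
  rw [sub_eq_add_neg, val_add, val_neg]

theorem val_nsmul (n : ℕ) (a : Dm G) : (n • a).val = a.val ^ n := by
  induction n with
  | zero => simp
  | succ n ih => rw [succ_nsmul, val_add, ih, pow_succ]

/-- Conjugation by `g`. -/
def conjM (g : G) : Dm G →+ Dm G where
  toFun a := mk (g * a.val * g⁻¹)
    ((inferInstance : (commutator G).Normal).conj_mem _ (val_mem a) g)
  map_zero' := by
    apply val_inj
    simp
  map_add' a b := by
    apply val_inj
    simp

@[simp] theorem val_conjM (g : G) (a : Dm G) : (conjM g a).val = g * a.val * g⁻¹ := rfl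

/-- Conjugation as a homomorphism to the endomorphisms. -/
def conjH (G : Type) [Group G] [IsMeta G] : G →* AddMonoid.End (Dm G) where
  toFun := fun g => (conjM g : AddMonoid.End (Dm G))
  map_one' := by
    apply AddMonoidHom.ext
    intro a
    apply val_inj
    change 1 * a.val * 1⁻¹ = a.val
    simp
  map_mul' := fun g h => by
    apply AddMonoidHom.ext
    intro a
    apply val_inj
    change (g * h) * a.val * (g * h)⁻¹ = g * (h * a.val * h⁻¹) * g⁻¹
    group

/-- The action of the abelianization on the derived subgroup. -/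
def actM (G : Type) [Group G] [IsMeta G] : Abelianization G →* AddMonoid.End (Dm G) :=
  QuotientGroup.lift (commutator G) (conjH G)
    (by
      intro g hg
      apply AddMonoidHom.ext
      intro a
      apply val_inj
      change g * a.val * g⁻¹ = a.val
      rw [IsMeta.comm g hg _ (val_mem a), mul_assoc, mul_inv_cancel, mul_one])

theorem actM_of (g : G) : actM G (Abelianization.of g) = conjM g := rfl

/-- The integral group ring of the abelianization. -/
abbrev ZG (G : Type) [Group G] := MonoidAlgebra ℤ (Abelianization G)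

/-- The class of `g` in the group ring. -/
noncomputable abbrev gr (g : G) : ZG G := MonoidAlgebra.of ℤ (Abelianization G) (Abelianization.of g)

noncomputable instance : Module (ZG G) (Dm G) :=
  Module.compHom (Dm G)
    ((MonoidAlgebra.lift ℤ (AddMonoid.End (Dm G)) (Abelianization G) (actM G)).toRingHom)

theorem gr_smul (g : G) (a : Dm G) : gr g • a = conjM g a := by
  change (MonoidAlgebra.lift ℤ (AddMonoid.End (Dm G)) (Abelianization G) (actM G)) (gr g) a = _
  rw [MonoidAlgebra.lift_of, actM_of]
  rfl

theorem val_gr_smul (g : G) (a : Dm G) : (gr g • a).val = g * a.val * g⁻¹ := by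
  rw [gr_smul, val_conjM]

theorem val_gr_sub_one_smul (g : G) (a : Dm G) : ((gr g - 1) • a).val = ⁅g, a.val⁆ := by
  rw [sub_smul, one_smul, val_sub, val_gr_smul, commutatorElement_def]

omit [IsMeta G] in
theorem comm_mem (g h : G) : ⁅g, h⁆ ∈ commutator G :=
  Subgroup.commutator_mem_commutator (Subgroup.mem_top g) (Subgroup.mem_top h)

/-- The commutators as elements of the module. -/
def bb (g h : G) : Dm G := mk ⁅g, h⁆ (comm_mem g h)

@[simp] theorem val_bb (g h : G) : (bb g h).val = ⁅g, h⁆ := rfl

theorem bb_self (g : G) : bb g g = 0 := by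
  apply val_inj
  simp

theorem bb_symm (g h : G) : bb g h = - bb h g := by
  apply val_inj
  simp [commutatorElement_inv]

end Dm

end Pool.Agent.Lib.MP_4c5e24_al
end

section

set_option autoImplicit false

/-!
RIG-META2: commutator calculus in a metabelian group.
-/

namespace Pool.Agent.Lib.MP_4c5e24_al

open scoped commutatorElement

namespace Dm

variable {G : Type} [Group G] [IsMeta G]

/-- The Jacobi identity.

Proof. For `g h k : G` compute `⁅g * h, k⁆` in two ways. In every group
`⁅g * h, k⁆ = g * ⁅h, k⁆ * g⁻¹ * ⁅g, k⁆`, that is `gr g • bb h k + bb g k` in the module. On the other hand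
`g * h = ⁅g, h⁆ * (h * g)`, and for `a` in the derived subgroup
`⁅a * g', k⁆ = a * ⁅g', k⁆ * a⁻¹ * ⁅a, k⁆`, which in the module is
`bb g' k - (gr k - 1) • a` (the derived subgroup is abelian and `⁅a, k⁆ = a * (k * a⁻¹ * k⁻¹)`). So
`gr g • bb h k + bb g k = (gr h • bb g k + bb h k) - (gr k - 1) • bb g h`. Rearranging and using
`bb g k = - bb k g` gives the statement. -/
theorem jacobi (g h k : G) :
    (gr k - 1) • bb g h + (gr g - 1) • bb h k + (gr h - 1) • bb k g = 0 := by
  have h1 : gr g • bb h k + bb g k = bb (g * h) k := by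
    apply val_inj
    rw [val_add, val_gr_smul, val_bb, val_bb, val_bb]
    simp only [commutatorElement_def]
    group
  have h2 : gr h • bb g k + bb h k - (gr k - 1) • bb g h = bb (g * h) k := by
    apply val_inj
    rw [val_sub, val_add, val_gr_smul, val_gr_sub_one_smul, val_bb, val_bb, val_bb, val_bb]
    calc h * ⁅g, k⁆ * h⁻¹ * ⁅h, k⁆ * (⁅k, ⁅g, h⁆⁆)⁻¹
        = (⁅h * g, k⁆ * ⁅g, h⁆) * (k * (⁅g, h⁆)⁻¹ * k⁻¹) := by
          simp only [commutatorElement_def]
          group
      _ = (⁅g, h⁆ * ⁅h * g, k⁆) * (k * (⁅g, h⁆)⁻¹ * k⁻¹) := by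
          rw [IsMeta.comm _ (comm_mem (h * g) k) _ (comm_mem g h)]
      _ = ⁅g * h, k⁆ := by
          simp only [commutatorElement_def]
          group
  have h3 := h1.trans h2.symm
  rw [bb_symm k g]
  rw [← sub_eq_zero] at h3
  simp only [sub_smul, one_smul, smul_neg] at h3 ⊢
  rw [← h3]
  abel

/-- Products of `n` differences `gr g - 1` map the derived subgroup to the lower central series.

Proof: induction on the list; `val_gr_sub_one_smul`: `⁅g, a⁆` is in `⁅⊤, γ_j⁆ = γ_(j+1)` for
`a ∈ γ_j` (`Subgroup.commutator_comm`). `(⊤ : Subgroup G).lowerCentralSeries 1 = commutator G`. -/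
theorem prod_smul_mem (l : List G) (a : Dm G) :
    (((l.map (fun g => (gr g - 1 : ZG G))).prod) • a).val ∈
      (⊤ : Subgroup G).lowerCentralSeries (l.length + 1) := by
  induction l with
  | nil =>
    rw [List.map_nil, List.prod_nil, one_smul, List.length_nil, Nat.zero_add,
      Subgroup.top_lowerCentralSeries_one]
    exact val_mem a
  | cons g l ih =>
    rw [List.map_cons, List.prod_cons, mul_smul, val_gr_sub_one_smul, List.length_cons,
      Subgroup.lowerCentralSeries_succ, Subgroup.commutator_comm]
    exact Subgroup.commutator_mem_commutator (Subgroup.mem_top g) ih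

/-- The subgroup of the values of the elements of an additive subgroup. -/
private def m2S (B : AddSubgroup (Dm G)) : Subgroup G where
  carrier := {g | ∃ b ∈ B, b.val = g}
  mul_mem' := by
    rintro _ _ ⟨b, hb, rfl⟩ ⟨b', hb', rfl⟩
    exact ⟨b + b', B.add_mem hb hb', val_add b b'⟩
  one_mem' := ⟨0, B.zero_mem, val_zero⟩
  inv_mem' := by
    rintro _ ⟨b, hb, rfl⟩
    exact ⟨-b, B.neg_mem hb, val_neg b⟩

private lemma m2S_mem {B : AddSubgroup (Dm G)} {g : G} : g ∈ m2S B ↔ ∃ b ∈ B, b.val = g := Iff.rfl

/-- The elements killed by the products of `m` differences. -/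
private def m2K (G : Type) [Group G] [IsMeta G] (m : ℕ) : AddSubgroup (Dm G) where
  carrier := {a | ∀ l : List G, l.length = m → ((l.map (fun g => (gr g - 1 : ZG G))).prod) • a = 0}
  add_mem' := by
    intro a b ha hb l hl
    rw [smul_add, ha l hl, hb l hl, add_zero]
  zero_mem' := by
    intro l _
    rw [smul_zero]
  neg_mem' := by
    intro a ha l hl
    rw [smul_neg, ha l hl, neg_zero]

/-- The converse: if all products of `n` differences `gr g - 1` kill the derived subgroup, then
the group is nilpotent of class at most `n + 1`.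

Proof. Show by induction on `j ≤ n`: every element `a` of
`(⊤ : Subgroup G).lowerCentralSeries (j + 1)` (it is in the derived subgroup,
`Subgroup.lowerCentralSeries_antitone`) satisfies
`(l.map (fun g => gr g - 1)).prod • a = 0` for all lists `l` of length `n - j`. For `j = 0` this is
the hypothesis. Step: the elements with this property (for `j + 1`) form a subgroup, and
`lowerCentralSeries (j + 2)` is generated by the commutators `⁅a, g⁆ = ⁅g, a⁆⁻¹`
with `a ∈ lowerCentralSeries (j + 1)`, which correspond to `- (gr g - 1) • a`. For `j = n` the empty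
list gives `a = 0`. -/
theorem lcs_eq_bot (n : ℕ)
    (h : ∀ l : List G, l.length = n → ∀ a : Dm G,
      ((l.map (fun g => (gr g - 1 : ZG G))).prod) • a = 0) :
    (⊤ : Subgroup G).lowerCentralSeries (n + 1) = ⊥ := by
  have key : ∀ j, j ≤ n → (⊤ : Subgroup G).lowerCentralSeries (j + 1) ≤ m2S (m2K G (n - j)) := by
    intro j
    induction j with
    | zero =>
      intro _ u hu
      rw [Nat.zero_add, Subgroup.top_lowerCentralSeries_one] at hu
      exact ⟨mk u hu, fun l hl => h l hl _, rfl⟩
    | succ j ih =>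
      intro hj
      rw [Subgroup.lowerCentralSeries_succ, Subgroup.commutator_le]
      intro u hu g _
      obtain ⟨a, ha, rfl⟩ := ih (by omega) hu
      refine ⟨-((gr g - 1) • a), ?_, ?_⟩
      · refine (m2K G (n - (j + 1))).neg_mem fun l hl => ?_
        have h1 := ha (l ++ [g]) (by
          rw [List.length_append, hl, List.length_singleton]
          omega)
        rw [List.map_append, List.prod_append, List.map_singleton, List.prod_singleton,
          mul_smul] at h1
        exact h1
      · rw [val_neg, val_gr_sub_one_smul, commutatorElement_inv]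
  rw [eq_bot_iff]
  intro u hu
  obtain ⟨a, ha, rfl⟩ := key n le_rfl hu
  have h1 := ha [] (by simp)
  rw [List.map_nil, List.prod_nil, one_smul] at h1
  rw [h1, Subgroup.mem_bot, val_zero]

private lemma m2_gr_mul (g h : G) : (gr (g * h) : ZG G) = gr g * gr h := by
  rw [gr, map_mul, map_mul]

private lemma m2_gr_one : (gr (1 : G) : ZG G) = 1 := by
  rw [gr, map_one, map_one]

private lemma m2_gr_inv_mul (g : G) : (gr g⁻¹ : ZG G) * gr g = 1 := by
  rw [← m2_gr_mul, inv_mul_cancel, m2_gr_one]

private lemma m2_bb_mul (g h k : G) : bb (g * h) k = gr g • bb h k + bb g k := by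
  apply val_inj
  rw [val_add, val_gr_smul, val_bb, val_bb, val_bb]
  simp only [commutatorElement_def]
  group

private lemma m2_bb_one (k : G) : bb (1 : G) k = 0 := by
  apply val_inj
  simp

/-- The derived subgroup of a nilpotent metabelian group is generated by the commutators of the
generators, as a module over the polynomial ring in the differences `gr (g i) - 1`.

Proof. Let `B` be the additive subgroup of `Dm G` generated by all
`((l.map (fun i => gr (g i) - 1)).prod) • bb (g i) (g j)` (`l` a list of indices). It is closed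
under `gr (g k) - 1`, so under `gr (g k)`. It is also closed under `gr (g k)⁻¹`: on `Dm G` the
operator `t = gr (g k) - 1` is nilpotent (`t ^ n` kills everything for large `n` by `prod_smul_mem`
and `hnil`), and `(1 + t)⁻¹ = ∑ (- t) ^ m`, a finite sum; in detail, for `b ∈ B`,
`gr (g k)⁻¹ • b = ∑ m < n, (- t) ^ m • b` because `(1 + t) * ∑ m < n, (- t) ^ m = 1 - (- t) ^ n`.
Therefore the subgroup `B'` of `G` of the elements `b.val`, `b ∈ B`, is normalised by all `g k` and
their inverses, so it is normal (`hgen`; use `Subgroup.closure_induction`). In `G ⧸ B'` the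
generators `g i` commute with each other (`⁅g i, g j⁆ ∈ B'`, the empty list), so `G ⧸ B'` is
commutative and `commutator G ≤ B'` (for instance `Abelianization.commutator_subset_ker`-like
argument, or: the set of the pairs of commuting elements, `Subgroup.closure_induction₂`). -/
theorem gen {c : ℕ} (hnil : (⊤ : Subgroup G).lowerCentralSeries c = ⊥) (g : ℕ → G)
    (hgen : Subgroup.closure (Set.range g) = ⊤) (a : Dm G) :
    a ∈ AddSubgroup.closure {b : Dm G | ∃ (l : List ℕ) (i j : ℕ),
      b = ((l.map (fun k => (gr (g k) - 1 : ZG G))).prod) • bb (g i) (g j)} := by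
  set B : AddSubgroup (Dm G) := AddSubgroup.closure {b : Dm G | ∃ (l : List ℕ) (i j : ℕ),
      b = ((l.map (fun k => (gr (g k) - 1 : ZG G))).prod) • bb (g i) (g j)} with hB
  -- closed under `gr (g k) - 1`
  have h1 : ∀ k, ∀ b ∈ B, (gr (g k) - 1 : ZG G) • b ∈ B := by
    intro k b hb
    induction hb using AddSubgroup.closure_induction with
    | mem b hb =>
      obtain ⟨l, i, j, rfl⟩ := hb
      refine AddSubgroup.subset_closure ⟨k :: l, i, j, ?_⟩
      rw [List.map_cons, List.prod_cons, mul_smul]
    | zero =>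
      rw [smul_zero]
      exact B.zero_mem
    | add b c _ _ hb hc =>
      rw [smul_add]
      exact B.add_mem hb hc
    | neg b _ hb =>
      rw [smul_neg]
      exact B.neg_mem hb
  have h2 : ∀ k, ∀ b ∈ B, (gr (g k) : ZG G) • b ∈ B := by
    intro k b hb
    have h3 := B.add_mem (h1 k b hb) hb
    rwa [sub_smul, one_smul, sub_add_cancel] at h3
  have h3 : ∀ k, ∀ b ∈ B, (gr (g k)⁻¹ : ZG G) • b ∈ B := by
    intro k b hb
    set t : ZG G := gr (g k) - 1 with ht
    have hpow : ∀ m : ℕ, (-t) ^ m • b ∈ B := by
      intro m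
      induction m with
      | zero =>
        rw [pow_zero, one_smul]
        exact hb
      | succ m ih =>
        rw [pow_succ', mul_smul, neg_smul]
        exact B.neg_mem (h1 k _ ih)
    have hnilp : t ^ c • b = 0 := by
      have h4 := prod_smul_mem (List.replicate c (g k)) b
      rw [List.map_replicate, List.prod_replicate, List.length_replicate] at h4
      have h5 : (t ^ c • b).val ∈ (⊤ : Subgroup G).lowerCentralSeries c :=
        Subgroup.lowerCentralSeries_antitone (⊤ : Subgroup G) (Nat.le_succ c) h4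
      rw [hnil, Subgroup.mem_bot] at h5
      exact val_inj h5
    have hgeom : (gr (g k) : ZG G) * ∑ m ∈ Finset.range c, (-t) ^ m = 1 - (-t) ^ c := by
      have h4 := mul_geom_sum (-t) c
      have h5 : (gr (g k) : ZG G) = -(-t - 1) := by
        rw [ht]
        ring
      rw [h5, neg_mul, h4]
      ring
    have h6 : (gr (g k) : ZG G) • ((∑ m ∈ Finset.range c, (-t) ^ m) • b) = b := by
      rw [← mul_smul, hgeom, sub_smul, one_smul, neg_pow, mul_smul, hnilp, smul_zero, sub_zero]
    have h7 : (gr (g k)⁻¹ : ZG G) • b = (∑ m ∈ Finset.range c, (-t) ^ m) • b := by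
      nth_rewrite 1 [← h6]
      rw [← mul_smul, m2_gr_inv_mul, one_smul]
    rw [h7, Finset.sum_smul]
    exact B.sum_mem fun m _ => hpow m
  have h4 : ∀ y : G, (∀ b ∈ B, (gr y : ZG G) • b ∈ B) ∧ ∀ b ∈ B, (gr y⁻¹ : ZG G) • b ∈ B := by
    intro y
    have hy : y ∈ Subgroup.closure (Set.range g) := by
      rw [hgen]
      exact Subgroup.mem_top y
    induction hy using Subgroup.closure_induction with
    | mem y hy =>
      obtain ⟨k, rfl⟩ := hy
      exact ⟨h2 k, h3 k⟩
    | one =>
      rw [inv_one, m2_gr_one]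
      exact ⟨fun b hb => by rwa [one_smul], fun b hb => by rwa [one_smul]⟩
    | mul y z _ _ hy hz =>
      refine ⟨fun b hb => ?_, fun b hb => ?_⟩
      · rw [m2_gr_mul, mul_smul]
        exact hy.1 _ (hz.1 b hb)
      · rw [mul_inv_rev, m2_gr_mul, mul_smul]
        exact hz.2 _ (hy.2 b hb)
    | inv y _ hy =>
      rw [inv_inv]
      exact ⟨hy.2, hy.1⟩
  -- the commutators with a fixed second argument
  have h5 : ∀ z : G, (∀ k, bb (g k) z ∈ B) → ∀ y : G, bb y z ∈ B := by
    intro z hz y
    have hy : y ∈ Subgroup.closure (Set.range g) := by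
      rw [hgen]
      exact Subgroup.mem_top y
    induction hy using Subgroup.closure_induction with
    | mem y hy =>
      obtain ⟨k, rfl⟩ := hy
      exact hz k
    | one =>
      rw [m2_bb_one]
      exact B.zero_mem
    | mul y w _ _ hy hw =>
      rw [m2_bb_mul]
      exact B.add_mem ((h4 y).1 _ hw) hy
    | inv y _ hy =>
      have h6 := m2_bb_mul y⁻¹ y z
      rw [inv_mul_cancel, m2_bb_one] at h6
      have h7 : bb y⁻¹ z = -(gr y⁻¹ • bb y z) := by
        rw [eq_neg_iff_add_eq_zero, add_comm]
        exact h6.symm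
      rw [h7]
      exact B.neg_mem ((h4 y).2 _ hy)
  have h6 : ∀ i (y : G), bb y (g i) ∈ B := by
    intro i
    refine h5 (g i) fun k => ?_
    refine AddSubgroup.subset_closure ⟨[], k, i, ?_⟩
    rw [List.map_nil, List.prod_nil, one_smul]
  have h7 : ∀ y z : G, bb y z ∈ B := by
    intro y z
    refine h5 z (fun k => ?_) y
    rw [bb_symm]
    exact B.neg_mem (h6 k z)
  have h8 : commutator G ≤ m2S B := by
    rw [commutator_def, Subgroup.commutator_le]
    intro y _ z _
    exact ⟨bb y z, h7 y z, val_bb y z⟩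
  obtain ⟨b, hb, hba⟩ := h8 (val_mem a)
  rw [← val_inj hba]
  exact hb

end Dm

end Pool.Agent.Lib.MP_4c5e24_al
end
end
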