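import Mathlib
import Pool.Agent.Lib.MP_4c5e24_al.Lc
import Pool.Agent.Lib.MP_4c5e24_al.A1
import Pool.Agent.Lib.MP_4c5e24_al.Mtb2
import Pool.Agent.Lib.MP_4c5e24_al.Defs

section

section

set_option autoImplicit false

/-!
RIG-TH: the representation of the free group over a truncated polynomial ring.
-/

namespace Pool.Agent.Lib.MP_4c5e24_al

open scoped commutatorElement
open MvPolynomial

/-- The ideal of the polynomials without constant term. -/
noncomputable def idv (R : Type) [CommRing R] : Ideal (MvPolynomial ℕ R) := Ideal.span (Set.range X)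

/-- The polynomials truncated at degree `c`. -/
abbrev Tr (R : Type) [CommRing R] (c : ℕ) := MvPolynomial ℕ R ⧸ (idv R) ^ c

/-- The ideal of the truncated polynomials without constant term. -/
noncomputable def Jd (R : Type) [CommRing R] (c : ℕ) : Ideal (Tr R c) :=
  (idv R).map (Ideal.Quotient.mk ((idv R) ^ c))

theorem Jd_pow (R : Type) [CommRing R] (c : ℕ) : (Jd R c) ^ c = ⊥ := by
  unfold Jd
  rw [← Ideal.map_pow, Ideal.map_quotient_self]

/-- The variables. -/
noncomputable def tv (R : Type) [CommRing R] (c j : ℕ) : Tr R c := Ideal.Quotient.mk _ (X j)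

theorem tv_mem (R : Type) [CommRing R] (c j : ℕ) : tv R c j ∈ Jd R c :=
  Ideal.mem_map_of_mem _ (Ideal.subset_span ⟨j, rfl⟩)

theorem isUnit_one_add {Λ : Type} [CommRing Λ] {J : Ideal Λ} {c : ℕ} (hJ : J ^ c = ⊥) {s : Λ}
    (hs : s ∈ J) : IsUnit (1 + s) := by
  apply IsNilpotent.isUnit_one_add
  refine ⟨c, ?_⟩
  have h := Ideal.pow_mem_pow hs c
  rw [hJ] at h
  exact h

/-- The unit `1 + s` for `s` in a nilpotent ideal. -/
noncomputable def uu {Λ : Type} [CommRing Λ] {J : Ideal Λ} {c : ℕ} (hJ : J ^ c = ⊥) (s : Λ)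
    (hs : s ∈ J) : UJ J :=
  ⟨(isUnit_one_add hJ hs).unit, by
    change ((isUnit_one_add hJ hs).unit : Λ) - 1 ∈ J
    rw [IsUnit.unit_spec]
    simpa using hs⟩

@[simp] theorem coe_uu {Λ : Type} [CommRing Λ] {J : Ideal Λ} {c : ℕ} (hJ : J ^ c = ⊥) (s : Λ)
    (hs : s ∈ J) : ((uu hJ s hs : Λˣ) : Λ) = 1 + s := rfl

/-- The representation `x j ↦ (e_j, 1 + t_j)`. -/
noncomputable def th (R : Type) [CommRing R] (c : ℕ) : F →* TG (Jd R c) (ℕ →₀ Tr R c) :=
  FreeGroup.lift (fun j => ⟨Finsupp.single j 1, uu (Jd_pow R c) (tv R c j) (tv_mem R c j)⟩)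

theorem th_x (R : Type) [CommRing R] (c j : ℕ) :
    th R c (x j) = ⟨Finsupp.single j 1, uu (Jd_pow R c) (tv R c j) (tv_mem R c j)⟩ := by
  unfold th x
  rw [FreeGroup.lift_apply_of]

/-- Evaluation of truncated polynomials at elements of a nilpotent ideal. -/
noncomputable def ev {R Λ : Type} [CommRing R] [CommRing Λ] [Algebra R Λ] {J : Ideal Λ} {c : ℕ}
    (hJ : J ^ c = ⊥) (s : ℕ → Λ) (hs : ∀ j, s j ∈ J) : Tr R c →+* Λ :=
  Ideal.Quotient.lift _ (aeval s : MvPolynomial ℕ R →ₐ[R] Λ).toRingHom (by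
    intro a ha
    have h1 : (idv R).map (aeval s : MvPolynomial ℕ R →ₐ[R] Λ).toRingHom ≤ J := by
      unfold idv
      rw [Ideal.map_span, Ideal.span_le]
      rintro _ ⟨_, ⟨j, rfl⟩, rfl⟩
      simpa using hs j
    have h2 := Ideal.mem_map_of_mem (aeval s : MvPolynomial ℕ R →ₐ[R] Λ).toRingHom ha
    rw [Ideal.map_pow] at h2
    have h3 := Ideal.pow_right_mono h1 c h2
    rw [hJ] at h3
    exact h3)

theorem ev_mk {R Λ : Type} [CommRing R] [CommRing Λ] [Algebra R Λ] {J : Ideal Λ} {c : ℕ}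
    (hJ : J ^ c = ⊥) (s : ℕ → Λ) (hs : ∀ j, s j ∈ J) (P : MvPolynomial ℕ R) :
    ev (R := R) hJ s hs (Ideal.Quotient.mk _ P) = aeval s P := rfl

private theorem Jd_le_comap {R Λ : Type} [CommRing R] [CommRing Λ] [Algebra R Λ] {J : Ideal Λ}
    {c : ℕ} (hJ : J ^ c = ⊥) (s : ℕ → Λ) (hs : ∀ j, s j ∈ J) :
    Jd R c ≤ J.comap (ev (R := R) hJ s hs) := by
  unfold Jd idv
  rw [Ideal.map_le_iff_le_comap, Ideal.span_le]
  rintro _ ⟨j, rfl⟩
  change ev (R := R) hJ s hs (Ideal.Quotient.mk _ (X j)) ∈ J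
  rw [ev_mk, aeval_X]
  exact hs j

private noncomputable def thα {R Λ : Type} [CommRing R] [CommRing Λ] [Algebra R Λ] {J : Ideal Λ}
    {c : ℕ} (hJ : J ^ c = ⊥) (s : ℕ → Λ) (hs : ∀ j, s j ∈ J) : UJ (Jd R c) →* UJ J :=
  ((Units.map ((ev (R := R) hJ s hs : Tr R c →+* Λ) : Tr R c →* Λ)).comp
    (UJ (Jd R c)).subtype).codRestrict (UJ J) (fun u => by
      change ev (R := R) hJ s hs (((u : (Tr R c)ˣ) : Tr R c)) - 1 ∈ J
      rw [← map_one (ev (R := R) hJ s hs), ← map_sub]
      exact Jd_le_comap hJ s hs u.2)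

private noncomputable def thψ {R Λ M : Type} [CommRing R] [CommRing Λ] [Algebra R Λ]
    [AddCommGroup M] [Module Λ M] {J : Ideal Λ}
    {c : ℕ} (hJ : J ^ c = ⊥) (s : ℕ → Λ) (hs : ∀ j, s j ∈ J) (E : ℕ → M) :
    (ℕ →₀ Tr R c) →+ M :=
  Finsupp.liftAddHom (fun i => ((smulAddHom Λ M).flip (E i)).comp
    (ev (R := R) hJ s hs : Tr R c →+* Λ).toAddMonoidHom)

private theorem thψ_apply {R Λ M : Type} [CommRing R] [CommRing Λ] [Algebra R Λ]
    [AddCommGroup M] [Module Λ M] {J : Ideal Λ}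
    {c : ℕ} (hJ : J ^ c = ⊥) (s : ℕ → Λ) (hs : ∀ j, s j ∈ J) (E : ℕ → M) (v : ℕ →₀ Tr R c) :
    thψ hJ s hs E v = v.sum (fun i P => ev (R := R) hJ s hs P • E i) := by
  unfold thψ
  rw [Finsupp.liftAddHom_apply]
  rfl

private theorem thψ_single {R Λ M : Type} [CommRing R] [CommRing Λ] [Algebra R Λ]
    [AddCommGroup M] [Module Λ M] {J : Ideal Λ}
    {c : ℕ} (hJ : J ^ c = ⊥) (s : ℕ → Λ) (hs : ∀ j, s j ∈ J) (E : ℕ → M) (j : ℕ) (P : Tr R c) :
    thψ hJ s hs E (Finsupp.single j P) = ev (R := R) hJ s hs P • E j := by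
  rw [thψ_apply, Finsupp.sum_single_index]
  rw [map_zero, zero_smul]

private theorem thψ_smul {R Λ M : Type} [CommRing R] [CommRing Λ] [Algebra R Λ]
    [AddCommGroup M] [Module Λ M] {J : Ideal Λ}
    {c : ℕ} (hJ : J ^ c = ⊥) (s : ℕ → Λ) (hs : ∀ j, s j ∈ J) (E : ℕ → M) (u : Tr R c)
    (v : ℕ →₀ Tr R c) :
    thψ hJ s hs E (u • v) = ev (R := R) hJ s hs u • thψ hJ s hs E v := by
  induction v using Finsupp.induction_linear with
  | zero => rw [smul_zero, map_zero, smul_zero]
  | add v w hv hw => rw [smul_add, map_add, map_add, hv, hw, smul_add]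
  | single j P =>
    rw [Finsupp.smul_single, thψ_single, thψ_single, smul_eq_mul, map_mul, mul_smul]

/-- The universal property of the representation.

Proof. The map `(v, u) ↦ (v.sum (fun i P => ev P • E i), ev u)` is a homomorphism from
`TG (Jd R c) (ℕ →₀ Tr R c)` to `TG J M` (it is `Sd.map` with the homomorphism
`UJ (Jd R c) →* UJ J` induced by `ev` on units, `Units.map`: if `u - 1 ∈ Jd R c` then
`ev u - 1 ∈ J`; `Sd.map` needs the compatibility `ψ (u • v) = ev u • ψ v`). Its composition with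
`th R c` agrees with `f` on the generators (`th_x`, `ev (tv j) = s j`), so they are equal
(`FreeGroup.ext_hom`). -/
theorem th_univ {R Λ M : Type} [CommRing R] [CommRing Λ] [Algebra R Λ] [AddCommGroup M]
    [Module Λ M] {J : Ideal Λ} {c : ℕ} (hJ : J ^ c = ⊥) (s : ℕ → Λ) (hs : ∀ j, s j ∈ J)
    (E : ℕ → M) (f : F →* TG J M) (hE : ∀ j, (f (x j)).m = E j)
    (hf : ∀ j, (((f (x j)).f : Λˣ) : Λ) = 1 + s j) (w : F) :
    (f w).m = (th R c w).m.sum (fun i P => ev (R := R) hJ s hs P • E i) ∧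
      (((f w).f : Λˣ) : Λ) = ev (R := R) hJ s hs (((th R c w).f : (Tr R c)ˣ) : Tr R c) := by
  have key : f = (Sd.map (ρ := (UJ (Jd R c)).subtype) (ρ' := (UJ J).subtype)
      (thα (R := R) hJ s hs) (thψ (R := R) hJ s hs E)
      (fun g a => thψ_smul hJ s hs E _ a)).comp (th R c) := by
    apply FreeGroup.ext_hom
    intro j
    have h1 : th R c (FreeGroup.of j) = _ := th_x R c j
    rw [MonoidHom.comp_apply, h1]
    apply Sd.ext
    · rw [Sd.map_m, thψ_single, map_one, one_smul]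
      exact hE j
    · rw [Sd.map_f]
      apply Subtype.ext
      apply Units.ext
      refine (hf j).trans ?_
      change 1 + s j = ev (R := R) hJ s hs (1 + tv R c j)
      rw [map_add, map_one]
      congr 1
      change s j = ev (R := R) hJ s hs (Ideal.Quotient.mk _ (X j))
      rw [ev_mk, aeval_X]
  constructor
  · conv_lhs => rw [key]
    rw [MonoidHom.comp_apply, Sd.map_m, thψ_apply]
  · conv_lhs => rw [key]
    rfl

private theorem ev_self (R : Type) [CommRing R] (c : ℕ) (P : Tr R c) :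
    ev (R := R) (Jd_pow R c) (tv R c) (tv_mem R c) P = P := by
  obtain ⟨Q, rfl⟩ := Ideal.Quotient.mk_surjective P
  rw [ev_mk]
  have h := MvPolynomial.aeval_unique (Ideal.Quotient.mkₐ R ((idv R) ^ c))
  have h2 := congrArg (fun φ : MvPolynomial ℕ R →ₐ[R] Tr R c => φ Q) h
  exact h2.symm

private noncomputable def foxB (R : Type) [CommRing R] (c : ℕ) :
    TG (Jd R c) (ℕ →₀ Tr R c) →* TG (Jd R c) (Tr R c) where
  toFun a := ⟨((a.f : (Tr R c)ˣ) : Tr R c) - 1, a.f⟩
  map_one' := by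
    apply Sd.ext
    · simp
    · rfl
  map_mul' a b := by
    apply Sd.ext
    · rw [Sd.mul_m]
      simp only [Sd.mul_f, Subgroup.coe_mul, Units.val_mul, Subgroup.coe_subtype, smul_eq_mul]
      ring
    · rfl

/-- The fundamental formula of the Fox calculus.

Proof. The set of the `(v, u)` in `TG (Jd R c) (ℕ →₀ Tr R c)` with
`v.sum (fun i P => P * t_i) = u - 1` is a subgroup (it is the equalizer of two homomorphisms into
`TG (Jd R c) (Tr R c)`, or check products and inverses directly) and contains the images of the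
generators. Use `FreeGroup.induction_on`. -/
theorem th_fox (R : Type) [CommRing R] (c : ℕ) (w : F) :
    (th R c w).m.sum (fun i P => P * tv R c i) = (((th R c w).f : (Tr R c)ˣ) : Tr R c) - 1 := by
  have h := (th_univ (R := R) (Jd_pow R c) (tv R c) (tv_mem R c) (fun j => tv R c j)
    ((foxB R c).comp (th R c)) (fun j => by
      rw [MonoidHom.comp_apply, th_x]
      change (1 + tv R c j) - 1 = tv R c j
      ring) (fun j => by
      rw [MonoidHom.comp_apply, th_x]
      rfl) w).1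
  have h2 : (((foxB R c).comp (th R c)) w).m = (((th R c w).f : (Tr R c)ˣ) : Tr R c) - 1 := rfl
  rw [← h2, h]
  refine Finsupp.sum_congr fun i _ => ?_
  rw [ev_self, smul_eq_mul]

/-- The group part of a commutator word is trivial.

Proof: `(th R c).f` is a homomorphism to a commutative group (`Sd.proj`). -/
theorem th_comm (R : Type) [CommRing R] (c : ℕ) {w : F} (hw : w ∈ commutator F) :
    (th R c w).f = 1 := by
  have h := Abelianization.commutator_subset_ker (A := (Tr R c)ˣ)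
    ((UJ (Jd R c)).subtype.comp
      ((Sd.proj : TG (Jd R c) (ℕ →₀ Tr R c) →* UJ (Jd R c)).comp (th R c))) hw
  exact Subtype.ext h

private def exSd (j : ℕ) : F →* TG (⊥ : Ideal ℤ) ℤ where
  toFun w := ⟨ex j w, 1⟩
  map_one' := by
    apply Sd.ext
    · exact ex_one j
    · rfl
  map_mul' a b := by
    apply Sd.ext
    · rw [Sd.mul_m]
      simp [ex_mul]
    · rfl

/-- The sum of the constant terms of the Fox derivatives are the exponent sums, so a word in the
kernel is a commutator word.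

Proof. Let `th R c w = 1` with `1 ≤ c`, `R = ℤ`. Apply `th_univ` with `Λ = ℤ`, `J = ⊥` (`⊥ ^ c = ⊥`),
`s = 0`, `M = (ℕ →₀ ℤ)`, `E j = Finsupp.single j 1` and the homomorphism `f : F →* TG ⊥ (ℕ →₀ ℤ)`,
`x j ↦ (single j 1, 1)`: then `(f w).m j` is the exponent sum of `x j` in `w`
and it vanishes. So `w` is in the commutator subgroup (`Ab0_eq`-like; in this file one can argue: the
abelianization of `F` is free: `FreeAbelianGroup`, `Abelianization`, or import `A1`). -/
theorem mem_commutator_of_th {c : ℕ} (hc : 1 ≤ c) {w : F} (h : th ℤ c w = 1) :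
    w ∈ commutator F := by
  rw [← Ab0_eq, mem_Ab]
  intro j
  have h1 := (th_univ (R := ℤ) (Λ := ℤ) (M := ℤ) (J := (⊥ : Ideal ℤ)) (c := c)
    (by rw [← Ideal.zero_eq_bot, zero_pow (by omega)]) (fun _ => 0) (fun _ => zero_mem _)
    (fun i => ex j (x i)) (exSd j) (fun i => rfl) (fun i => by
      change ((1 : ℤ)) = 1 + 0
      rw [add_zero]) w).1
  rw [h, Sd.one_m, Finsupp.sum_zero_index] at h1
  have h2 : ex j w = 0 := h1
  rw [h2]
  exact dvd_zero _

end Pool.Agent.Lib.MP_4c5e24_al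
end

section

set_option autoImplicit false

/-!
RIG-PSI: a section of the map from the free metabelian Lie-like module to the truncated free
module.
-/

namespace Pool.Agent.Lib.MP_4c5e24_al

open MvPolynomial

/-- An element of `(idv ℤ) ^ c` has no monomials of degree less than `c`.

Proof. Either use the description of the powers of the ideal of the variables in Mathlib
(`MvPolynomial.idealOfVars`, `MvPolynomial.mem_pow_idealOfVars_iff`, if available), or: the
polynomials all of whose monomials have degree at least `c` form an ideal `I c`, `I 1` contains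
the variables, and `I c * I d ≤ I (c + d)`, so `(idv ℤ) ^ c ≤ I c`. -/
theorem coeff_idv_pow {R : Type} [CommRing R] {c : ℕ} {P : MvPolynomial ℕ R}
    (hP : P ∈ (idv R) ^ c) {μ : ℕ →₀ ℕ} (hμ : μ.degree < c) : P.coeff μ = 0 :=
  (MvPolynomial.mem_pow_idealOfVars_iff' c P).1 hP μ hμ

/-- The converse: a polynomial without monomials of degree less than `c` is in `(idv R) ^ c`.

Proof: `P` is the sum of its monomials, and a monomial of degree at least `c` is a product of at
least `c` variables and a constant. -/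
theorem mem_idv_pow {R : Type} [CommRing R] {c : ℕ} {P : MvPolynomial ℕ R}
    (hP : ∀ μ : ℕ →₀ ℕ, μ.degree < c → P.coeff μ = 0) : P ∈ (idv R) ^ c :=
  (MvPolynomial.mem_pow_idealOfVars_iff' c P).2 hP

/-- the least element of the support -/
private noncomputable def lo (κ : ℕ →₀ ℕ) : ℕ := sInf {n | κ n ≠ 0}

private theorem lo_ne {κ : ℕ →₀ ℕ} (h : κ ≠ 0) : κ (lo κ) ≠ 0 := by
  have hne : {n | κ n ≠ 0}.Nonempty := by
    by_contra hcon
    apply h
    ext n
    by_contra hn
    exact hcon ⟨n, hn⟩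
  exact Nat.sInf_mem hne

/-- the values on the monomials -/
private noncomputable def psm {A : Type} [AddCommGroup A] [Module (MvPolynomial ℕ ℤ) A]
    (b : ℕ → ℕ → A) (i : ℕ) (μ : ℕ →₀ ℕ) : A :=
  if lo (μ + Finsupp.single i 1) = i then 0 else
    (monomial (μ - Finsupp.single (lo (μ + Finsupp.single i 1)) 1) 1 : MvPolynomial ℕ ℤ) •
      b (lo (μ + Finsupp.single i 1)) i

/-- the components of the section -/
private noncomputable def psl {A : Type} [AddCommGroup A] [Module (MvPolynomial ℕ ℤ) A]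
    (b : ℕ → ℕ → A) (i : ℕ) : MvPolynomial ℕ ℤ →ₗ[ℤ] A :=
  (basisMonomials ℕ ℤ).constr ℤ (psm b i)

private theorem psl_monomial {A : Type} [AddCommGroup A] [Module (MvPolynomial ℕ ℤ) A]
    (b : ℕ → ℕ → A) (i : ℕ) (μ : ℕ →₀ ℕ) : psl b i (monomial μ 1) = psm b i μ := by
  have h := (basisMonomials ℕ ℤ).constr_basis ℤ (psm b i) μ
  rwa [coe_basisMonomials] at h

private theorem psl_rel {A : Type} [AddCommGroup A] [Module (MvPolynomial ℕ ℤ) A]
    (b : ℕ → ℕ → A) (hb0 : ∀ i, b i i = 0) (hb1 : ∀ i j, b i j = - b j i)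
    (hJac : ∀ i j k, (X k : MvPolynomial ℕ ℤ) • b i j + (X i : MvPolynomial ℕ ℤ) • b j k +
      (X j : MvPolynomial ℕ ℤ) • b k i = 0) (i j : ℕ) (P : MvPolynomial ℕ ℤ) :
    psl b j (P * X i) - psl b i (P * X j) = P • b i j := by
  induction P using MvPolynomial.induction_on' with
  | add p q hp hq =>
    rw [add_mul, add_mul, map_add, map_add, add_smul, ← hp, ← hq]
    abel
  | monomial ν r =>
    have hr : ∀ μ : ℕ →₀ ℕ, (monomial μ r : MvPolynomial ℕ ℤ) = r • monomial μ 1 := by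
      intro μ
      rw [smul_monomial, smul_eq_mul, mul_one]
    have key : psl b j ((monomial ν 1 : MvPolynomial ℕ ℤ) * X i) -
        psl b i ((monomial ν 1 : MvPolynomial ℕ ℤ) * X j) =
        (monomial ν 1 : MvPolynomial ℕ ℤ) • b i j := by
      have hX : ∀ (μ : ℕ →₀ ℕ) (k : ℕ), (monomial μ 1 : MvPolynomial ℕ ℤ) * X k =
          monomial (μ + Finsupp.single k 1) 1 := by
        intro μ k
        rw [X, monomial_mul, mul_one]
      rw [hX, hX, psl_monomial, psl_monomial]
      rcases eq_or_ne i j with rfl | hij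
      · rw [sub_self, hb0, smul_zero]
      unfold psm
      have hκ : ν + Finsupp.single j 1 + Finsupp.single i 1 =
          ν + Finsupp.single i 1 + Finsupp.single j 1 := by abel
      rw [hκ]
      set κ := ν + Finsupp.single i 1 + Finsupp.single j 1 with hκd
      have hκ0 : κ ≠ 0 := by
        intro h0
        have := DFunLike.congr_fun h0 i
        simp [hκd] at this
      have hlo := lo_ne hκ0
      set a := lo κ with ha
      by_cases hai : a = i
      · rw [if_neg (by rw [hai]; exact hij), if_pos hai, hai, sub_zero,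
          add_tsub_cancel_right]
      by_cases haj : a = j
      · rw [if_pos haj, if_neg hai, haj, zero_sub, add_tsub_cancel_right, hb1 i j, smul_neg]
      rw [if_neg haj, if_neg hai]
      have hνa : ν a ≠ 0 := by
        intro h0
        apply hlo
        rw [hκd, Finsupp.add_apply, Finsupp.add_apply, h0, Finsupp.single_eq_of_ne hai,
          Finsupp.single_eq_of_ne haj, add_zero, add_zero]
      obtain ⟨ν', hν'⟩ : ∃ ν', ν = ν' + Finsupp.single a 1 := by
        refine ⟨ν - Finsupp.single a 1, (tsub_add_cancel_of_le ?_).symm⟩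
        rw [Finsupp.single_le_iff]
        omega
      have e1 : ∀ k, ν + Finsupp.single k 1 - Finsupp.single a 1 = ν' + Finsupp.single k 1 := by
        intro k
        rw [hν', add_right_comm, add_tsub_cancel_right]
      rw [e1, e1, ← hX, ← hX, mul_smul, mul_smul, ← smul_sub]
      have e2 : (monomial ν 1 : MvPolynomial ℕ ℤ) = monomial ν' 1 * X a := by rw [hX, hν']
      rw [e2, mul_smul]
      congr 1
      have h3 := hJac i j a
      rw [hb1 j a, smul_neg] at h3
      rw [sub_eq_iff_eq_add, eq_comm, ← sub_eq_zero]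
      rw [← h3]
      abel
    rw [hr ν, smul_mul_assoc, smul_mul_assoc, map_smul, map_smul, ← smul_sub, key, smul_assoc]

private theorem psl_kill {A : Type} [AddCommGroup A] [Module (MvPolynomial ℕ ℤ) A]
    (b : ℕ → ℕ → A) {c : ℕ} (hc : 1 ≤ c)
    (hkill : ∀ μ : ℕ →₀ ℕ, c - 1 ≤ μ.degree → ∀ i j,
      (monomial μ 1 : MvPolynomial ℕ ℤ) • b i j = 0) (l : ℕ) {Q : MvPolynomial ℕ ℤ}
    (hQ : Q ∈ (idv ℤ) ^ c) : psl b l Q = 0 := by
  rw [Q.as_sum, map_sum]
  refine Finset.sum_eq_zero fun μ hμ => ?_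
  have hdeg : c ≤ μ.degree := by
    by_contra hcon
    exact (mem_support_iff.1 hμ) (coeff_idv_pow hQ (by omega))
  have hr : (monomial μ (coeff μ Q) : MvPolynomial ℕ ℤ) = coeff μ Q • monomial μ 1 := by
    rw [smul_monomial, smul_eq_mul, mul_one]
  rw [hr, map_smul, psl_monomial]
  unfold psm
  split_ifs with h
  · rw [smul_zero]
  · rw [hkill _ ?_, smul_zero]
    set a := lo (μ + Finsupp.single l 1) with ha
    have hle : μ.degree ≤ (μ - Finsupp.single a 1 + Finsupp.single a 1).degree :=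
      Finsupp.degree_mono le_tsub_add
    rw [map_add, Finsupp.degree_single] at hle
    omega

/-- Let `b i j` be elements of a module over the polynomial ring which satisfy the relations of
the commutators of the generators of a metabelian group, and which are killed by the monomials of
degree at least `c - 1`. Then the relations between them with polynomial coefficients follow from
the relations modulo degree `c` between the elements `X i * e_j - X j * e_i` of a free module.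

Proof. For a monomial `μ` and an index `i` let `κ = μ + single i 1`, and let `a` be the least element
of the support of `κ`. Define `ψ μ i : A` to be `0` if `i = a`, and
`monomial (κ - single i 1 - single a 1) 1 • b a i` otherwise (then `a` is in the support of `μ`; note
`κ - single i 1 - single a 1 = μ - single a 1`). Let `Ψ : (ℕ →₀ MvPolynomial ℕ ℤ) →+ A` be the
additive map with `Ψ (single i (monomial μ r)) = r • ψ μ i` (`Finsupp.liftAddHom`, twice, or
`Finsupp.sum`).

(1) `Ψ (single j (monomial (ν + single i 1) 1)) - Ψ (single i (monomial (ν + single j 1) 1)) =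
monomial ν 1 • b i j` for all `ν`, `i`, `j`. If `i = j` both sides are `0` (`hb0`). Let `i ≠ j`,
`κ = ν + single i 1 + single j 1` (it is the same for both terms) and `a` its least element. If
`a = i`: the first term is `monomial ν 1 • b i j`, the second is `0`. If `a = j`: the first term is `0`,
the second is `monomial ν 1 • b j i = - monomial ν 1 • b i j` (`hb1`). Otherwise `a` is in the
support of `ν`, `ν = ν' + single a 1`, the first term is `monomial (ν' + single i 1) 1 • b a j`, the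
second is `monomial (ν' + single j 1) 1 • b a i`, and the difference is
`monomial ν' 1 • (X i • b a j - X j • b a i) = monomial ν' 1 • (X a • b i j) = monomial ν 1 • b i j` by
`hJac i j a` and `hb1`: `X a • b i j + X i • b j a + X j • b a i = 0`.

(2) By additivity `Ψ` of the element
`∑ (i, j), f (i, j) * (X i * e_j - X j * e_i)` of `ℕ →₀ MvPolynomial ℕ ℤ` is
`∑ (i, j), f (i, j) • b i j`.

(3) `Ψ v = 0` if all components of `v` are in `(idv ℤ) ^ c`: by `coeff_idv_pow` the component `v i` is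
a sum of monomials of degree at least `c`, and `ψ μ i` for `μ.degree ≥ c` is `0` or
`monomial (μ - single a 1) 1 • b a i` with `(μ - single a 1).degree = μ.degree - 1 ≥ c - 1`, which
vanishes by `hkill`.

The components of the element in (2) are exactly the expressions in `hf`. -/
theorem psi {A : Type} [AddCommGroup A] [Module (MvPolynomial ℕ ℤ) A] (b : ℕ → ℕ → A)
    (hb0 : ∀ i, b i i = 0) (hb1 : ∀ i j, b i j = - b j i)
    (hJac : ∀ i j k, (X k : MvPolynomial ℕ ℤ) • b i j + (X i : MvPolynomial ℕ ℤ) • b j k +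
      (X j : MvPolynomial ℕ ℤ) • b k i = 0)
    {c : ℕ} (hc : 1 ≤ c)
    (hkill : ∀ μ : ℕ →₀ ℕ, c - 1 ≤ μ.degree → ∀ i j,
      (monomial μ 1 : MvPolynomial ℕ ℤ) • b i j = 0)
    (f : ℕ × ℕ →₀ MvPolynomial ℕ ℤ)
    (hf : ∀ l, (f.sum fun ij P => P * ((if ij.2 = l then X ij.1 else 0) -
      (if ij.1 = l then X ij.2 else 0))) ∈ (idv ℤ) ^ c) :
    (f.sum fun ij P => P • b ij.1 ij.2) = 0 := by
  classical
  obtain ⟨S, hS⟩ : ∃ S : Finset ℕ, ∀ ij ∈ f.support, ij.1 ∈ S ∧ ij.2 ∈ S :=
    ⟨f.support.image Prod.fst ∪ f.support.image Prod.snd, fun ij hij =>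
      ⟨Finset.mem_union_left _ (Finset.mem_image_of_mem _ hij),
        Finset.mem_union_right _ (Finset.mem_image_of_mem _ hij)⟩⟩
  have h0 : ∑ l ∈ S, psl b l (f.sum fun ij P => P * ((if ij.2 = l then X ij.1 else 0) -
      (if ij.1 = l then X ij.2 else 0))) = 0 :=
    Finset.sum_eq_zero fun l _ => psl_kill b hc hkill l (hf l)
  rw [← h0]
  simp only [Finsupp.sum, map_sum]
  rw [Finset.sum_comm]
  refine Finset.sum_congr rfl fun ij hij => ?_
  rw [← psl_rel b hb0 hb1 hJac]
  have h1 : ∀ l, psl b l (f ij * ((if ij.2 = l then X ij.1 else 0) -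
      (if ij.1 = l then X ij.2 else 0))) = (if ij.2 = l then psl b l (f ij * X ij.1) else 0) -
      (if ij.1 = l then psl b l (f ij * X ij.2) else 0) := by
    intro l
    rw [mul_sub, map_sub]
    congr 1 <;> split_ifs <;> simp
  simp only [h1]
  rw [Finset.sum_sub_distrib, Finset.sum_ite_eq, Finset.sum_ite_eq, if_pos (hS ij hij).2,
    if_pos (hS ij hij).1]

end Pool.Agent.Lib.MP_4c5e24_al
end

section

set_option autoImplicit false

/-!
RIG-INJ: the kernel of the representation over the truncated polynomial ring.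
-/

namespace Pool.Agent.Lib.MP_4c5e24_al

open scoped commutatorElement
open MvPolynomial

instance isMeta_quot (c : ℕ) : IsMeta (F ⧸ (MN c).1) := by
  constructor
  have h1 : commutator (F ⧸ (MN c).1) = (commutator F).map (QuotientGroup.mk' (MN c).1) := by
    rw [commutator_def, commutator_def, Subgroup.map_commutator,
      Subgroup.map_top_of_surjective _ (QuotientGroup.mk'_surjective _)]
  rw [h1]
  rintro _ ⟨a, ha, rfl⟩ _ ⟨b, hb, rfl⟩
  rw [← commutatorElement_eq_one_iff_mul_comm, ← map_commutatorElement]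
  refine (QuotientGroup.eq_one_iff _).2 ?_
  have h2 : ⁅a, b⁆ ∈ derivedSeries F 2 := Subgroup.commutator_mem_commutator ha hb
  exact (le_sup_right : derivedSeries F 2 ≤ (MN c).1) h2

theorem inj_nil (c : ℕ) : (⊤ : Subgroup (F ⧸ (MN c).1)).lowerCentralSeries c = ⊥ := by
  have h1 : (⊤ : Subgroup (F ⧸ (MN c).1)) = (⊤ : Subgroup F).map (QuotientGroup.mk' (MN c).1) :=
    (Subgroup.map_top_of_surjective _ (QuotientGroup.mk'_surjective _)).symm
  rw [h1, ← Subgroup.map_lowerCentralSeries, Subgroup.map_eq_bot_iff, QuotientGroup.ker_mk']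
  exact (le_sup_left : (⊤ : Subgroup F).lowerCentralSeries c ≤ (MN c).1)

/-- the classes of the generators -/
noncomputable abbrev ig (c k : ℕ) : F ⧸ (MN c).1 := QuotientGroup.mk' (MN c).1 (x k)

theorem inj_gen (c : ℕ) : Subgroup.closure (Set.range (ig c)) = ⊤ := by
  have h1 : Set.range (ig c) =
      (QuotientGroup.mk' (MN c).1) '' Set.range (FreeGroup.of : ℕ → F) := by
    rw [← Set.range_comp]
    rfl
  rw [h1, ← MonoidHom.map_closure, FreeGroup.closure_range_of,
    Subgroup.map_top_of_surjective _ (QuotientGroup.mk'_surjective _)]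

/-- the representation of the quotient -/
noncomputable def injθ {c : ℕ} (hc : 1 ≤ c) : F ⧸ (MN c).1 →* TG (Jd ℤ c) (ℕ →₀ Tr ℤ c) :=
  QuotientGroup.lift (MN c).1 (th ℤ c)
    (fun w hw => MonoidHom.mem_ker.2 (TG_class hc (Jd_pow ℤ c) hw (th ℤ c)))

theorem injθ_mk {c : ℕ} (hc : 1 ≤ c) (w : F) :
    injθ hc (QuotientGroup.mk' (MN c).1 w) = th ℤ c w := rfl

theorem inj_cc {Λ : Type} [CommRing Λ] {J : Ideal Λ} (u v : UJ J) : u * v = v * u :=
  Subtype.ext (mul_comm (u : Λˣ) (v : Λˣ))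

theorem injθ_f {c : ℕ} (hc : 1 ≤ c) {a : F ⧸ (MN c).1} (ha : a ∈ commutator (F ⧸ (MN c).1)) :
    (injθ hc a).f = 1 := by
  have h1 : commutator (F ⧸ (MN c).1) ≤
      ((Sd.proj (ρ := (UJ (Jd ℤ c)).subtype) (M := ℕ →₀ Tr ℤ c)).comp (injθ hc)).ker := by
    rw [commutator_def, Subgroup.commutator_le]
    intro g _ h _
    rw [MonoidHom.mem_ker, map_commutatorElement, commutatorElement_eq_one_iff_mul_comm]
    exact inj_cc _ _
  exact h1 ha

/-- the module part of the representation of the derived subgroup -/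
noncomputable def injΘ {c : ℕ} (hc : 1 ≤ c) : Dm (F ⧸ (MN c).1) →+ (ℕ →₀ Tr ℤ c) where
  toFun a := (injθ hc a.val).m
  map_zero' := by
    rw [Dm.val_zero, map_one]
    rfl
  map_add' a b := by
    rw [Dm.val_add, map_mul, Sd.mul_m, injθ_f hc (Dm.val_mem a), map_one, Units.val_one, one_smul]

theorem injΘ_def {c : ℕ} (hc : 1 ≤ c) (a : Dm (F ⧸ (MN c).1)) :
    injΘ hc a = (injθ hc a.val).m := rfl

theorem injΘ_gr {c : ℕ} (hc : 1 ≤ c) (k : ℕ) (a : Dm (F ⧸ (MN c).1)) :
    injΘ hc ((Dm.gr (ig c k) - 1 : Dm.ZG _) • a) = tv ℤ c k • injΘ hc a := by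
  rw [injΘ_def hc ((Dm.gr (ig c k) - 1 : Dm.ZG _) • a), Dm.val_gr_sub_one_smul,
    map_commutatorElement]
  have h1 : injθ hc a.val = ⟨injΘ hc a, 1⟩ := Sd.ext rfl (injθ_f hc (Dm.val_mem a))
  rw [h1, injθ_mk, th_x, Sd.comm_mk _ _ _ _ (by rw [mul_one, one_mul])]
  simp

theorem injΘ_bb {c : ℕ} (hc : 1 ≤ c) (i j : ℕ) :
    injΘ hc (Dm.bb (ig c i) (ig c j)) =
      tv ℤ c i • Finsupp.single j 1 - tv ℤ c j • Finsupp.single i 1 := by
  rw [injΘ_def, Dm.val_bb, map_commutatorElement, injθ_mk, injθ_mk, th_x, th_x,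
    Sd.comm_mk _ _ _ _ (inj_cc _ _)]
  simp

/-- the action of the polynomials -/
noncomputable def injφ (c : ℕ) : MvPolynomial ℕ ℤ →ₐ[ℤ] Dm.ZG (F ⧸ (MN c).1) :=
  MvPolynomial.aeval (fun k => (Dm.gr (ig c k) - 1 : Dm.ZG (F ⧸ (MN c).1)))

theorem injφ_X (c k : ℕ) : injφ c (X k) = (Dm.gr (ig c k) - 1 : Dm.ZG (F ⧸ (MN c).1)) := by
  unfold injφ
  rw [MvPolynomial.aeval_X]

theorem injφ_list (c : ℕ) (l : List ℕ) : injφ c ((l.map X).prod) =
    ((l.map (fun k => (Dm.gr (ig c k) - 1 : Dm.ZG (F ⧸ (MN c).1)))).prod) := by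
  rw [map_list_prod, List.map_map]
  congr 1
  refine List.map_congr_left fun k _ => ?_
  exact injφ_X c k

theorem injΘ_smul {c : ℕ} (hc : 1 ≤ c) (P : MvPolynomial ℕ ℤ) : ∀ a : Dm (F ⧸ (MN c).1),
    injΘ hc (injφ c P • a) = (Ideal.Quotient.mk ((idv ℤ) ^ c) P) • injΘ hc a := by
  induction P using MvPolynomial.induction_on with
  | C n =>
    intro a
    have h1 : (C n : MvPolynomial ℕ ℤ) = ((n : ℤ) : MvPolynomial ℕ ℤ) := eq_intCast _ n
    rw [h1, map_intCast, map_intCast, Int.cast_smul_eq_zsmul, Int.cast_smul_eq_zsmul, map_zsmul]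
  | add p q hp hq =>
    intro a
    rw [map_add, map_add, add_smul, add_smul, map_add, hp, hq]
  | mul_X p k hp =>
    intro a
    have e1 := mul_smul (Ideal.Quotient.mk ((idv ℤ) ^ c) p : Tr ℤ c) (tv ℤ c k) (injΘ hc a)
    rw [map_mul, mul_smul, hp, injφ_X, injΘ_gr]
    exact e1.symm

theorem inj_mono (μ : ℕ →₀ ℕ) : ∃ l : List ℕ, l.length = μ.degree ∧
    (monomial μ 1 : MvPolynomial ℕ ℤ) = (l.map X).prod := by
  induction μ using Finsupp.induction_linear with
  | zero => exact ⟨[], by simp, by simp⟩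
  | add f g hf hg =>
    obtain ⟨l, hl, hl'⟩ := hf
    obtain ⟨l', hk, hk'⟩ := hg
    refine ⟨l ++ l', ?_, ?_⟩
    · rw [List.length_append, hl, hk, map_add]
    · rw [List.map_append, List.prod_append, ← hl', ← hk', monomial_mul, one_mul]
  | single i n =>
    refine ⟨List.replicate n i, ?_, ?_⟩
    · simp
    · simp [X_pow_eq_monomial]

theorem inj_kill {c : ℕ} {μ : ℕ →₀ ℕ} (hμ : c - 1 ≤ μ.degree) (a : Dm (F ⧸ (MN c).1)) :
    injφ c (monomial μ 1) • a = 0 := by
  obtain ⟨l, hl, hl'⟩ := inj_mono μ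
  rw [hl', injφ_list]
  apply Dm.val_inj
  rw [Dm.val_zero]
  have h1 := Dm.prod_smul_mem (l.map (ig c)) a
  rw [List.map_map, List.length_map] at h1
  have h2 := Subgroup.lowerCentralSeries_antitone (⊤ : Subgroup (F ⧸ (MN c).1))
    (show c ≤ l.length + 1 by omega) h1
  rw [inj_nil, Subgroup.mem_bot] at h2
  exact h2

theorem inj_sum (c : ℕ) (a : Dm (F ⧸ (MN c).1)) : ∃ f : ℕ × ℕ →₀ MvPolynomial ℕ ℤ,
    a = f.sum fun ij P => injφ c P • Dm.bb (ig c ij.1) (ig c ij.2) := by
  have h1 := Dm.gen (inj_nil c) (ig c) (inj_gen c) a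
  induction h1 using AddSubgroup.closure_induction with
  | mem b hb =>
    obtain ⟨l, i, j, rfl⟩ := hb
    refine ⟨Finsupp.single (i, j) ((l.map X).prod), ?_⟩
    rw [Finsupp.sum_single_index, injφ_list]
    rw [map_zero, zero_smul]
  | zero => exact ⟨0, by rw [Finsupp.sum_zero_index]⟩
  | add a b _ _ ha hb =>
    obtain ⟨f, hf⟩ := ha
    obtain ⟨g, hg⟩ := hb
    refine ⟨f + g, ?_⟩
    rw [Finsupp.sum_add_index', ← hf, ← hg]
    · intro ij
      rw [map_zero, zero_smul]
    · intro ij P Q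
      rw [map_add, add_smul]
  | neg a _ ha =>
    obtain ⟨f, hf⟩ := ha
    refine ⟨-f, ?_⟩
    rw [Finsupp.sum_neg_index, hf, Finsupp.sum, Finsupp.sum, ← Finset.sum_neg_distrib]
    · refine Finset.sum_congr rfl fun ij _ => ?_
      rw [map_neg, neg_smul]
    · intro ij
      rw [map_zero, zero_smul]

/-- The kernel of `th ℤ c` is contained in `MN c`.

Proof. Let `1 ≤ c`, `th ℤ c w = 1`. By `mem_commutator_of_th`, `w` is in the commutator subgroup.
Let `G = F ⧸ (MN c).1`, metabelian (`isMeta_quot`) with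
`(⊤ : Subgroup G).lowerCentralSeries c = ⊥` (the image of the lower central series of `F`), generated
by the classes `g i` of the `x i`. Let `A = Dm G`, a module over
`MvPolynomial ℕ ℤ` through `MvPolynomial.aeval (fun k => gr (g k) - 1) : MvPolynomial ℕ ℤ →ₐ[ℤ] ZG G`
(`Module.compHom`), and `b i j = bb (g i) (g j)`. Then `hb0`, `hb1`, `hJac` of `psi` are `bb_self`,
`bb_symm`, `jacobi`, and `hkill` is `prod_smul_mem` (a monomial of degree at least `c - 1` is a
product of at least `c - 1` variables, and `lowerCentralSeries` of index at least `c` is trivial).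
By `TG_class` (`Jd_pow`) the homomorphism `th ℤ c` induces `θ : G →* TG (Jd ℤ c) (ℕ →₀ Tr ℤ c)`.
The map `Θ : A → (ℕ →₀ Tr ℤ c)`, `Θ a = (θ a.val).m`, is additive (the group part of the value of `θ`
on a commutator word is trivial, `th_comm`), `Θ (X k • a) = tv k • Θ a` (`Sd.comm_inl` and
`val_gr_sub_one_smul`: `⁅g k, a⁆ = ⁅a, g k⁆⁻¹`), and `Θ (b i j) = tv i • e_j - tv j • e_i`
(`Sd.comm_mk`). Let `a` be the class of `w` in `A`; `Θ a = 0`. By `gen`, `a` is a
finite sum of `(± monomials) • b i j`, so `a = f.sum (fun ij P => P • b ij.1 ij.2)` for some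
`f : ℕ × ℕ →₀ MvPolynomial ℕ ℤ`. Then
`0 = Θ a = ∑ f (i, j) • (tv i • e_j - tv j • e_i)`; its components are the classes modulo
`(idv ℤ) ^ c` of the polynomials in the hypothesis `hf` of `psi`. So `a = 0` by `psi`, which
means `w ∈ (MN c).1`. -/
theorem th_inj {c : ℕ} (hc : 1 ≤ c) {w : F} (h : th ℤ c w = 1) : w ∈ (MN c).1 := by
  have hw := mem_commutator_of_th hc h
  have hwm : QuotientGroup.mk' (MN c).1 w ∈ commutator (F ⧸ (MN c).1) := by
    have h1 : commutator (F ⧸ (MN c).1) = (commutator F).map (QuotientGroup.mk' (MN c).1) := by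
      rw [commutator_def, commutator_def, Subgroup.map_commutator,
        Subgroup.map_top_of_surjective _ (QuotientGroup.mk'_surjective _)]
    rw [h1]
    exact ⟨w, hw, rfl⟩
  obtain ⟨f, hf⟩ := inj_sum c (Dm.mk _ hwm)
  have h0 : injΘ hc (Dm.mk _ hwm) = 0 := by
    rw [injΘ_def, Dm.val_mk, injθ_mk, h]
    rfl
  rw [hf, Finsupp.sum, map_sum] at h0
  have hfl : ∀ l, (f.sum fun ij P => P * ((if ij.2 = l then X ij.1 else 0) -
      (if ij.1 = l then X ij.2 else 0))) ∈ (idv ℤ) ^ c := by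
    intro l
    have h1 := DFunLike.congr_fun h0 l
    rw [Finsupp.finsetSum_apply] at h1
    rw [← Ideal.Quotient.eq_zero_iff_mem, Finsupp.sum, map_sum]
    refine Eq.trans (Finset.sum_congr rfl fun ij _ => ?_) h1
    rw [injΘ_smul, injΘ_bb, map_mul, map_sub]
    simp only [Finsupp.smul_apply, Finsupp.sub_apply, Finsupp.single_apply, smul_eq_mul,
      mul_ite, mul_one, mul_zero]
    congr 1
    congr 1
    · split_ifs
      · rfl
      · exact map_zero _
    · split_ifs
      · rfl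
      · exact map_zero _
  let _ : Module (MvPolynomial ℕ ℤ) (Dm (F ⧸ (MN c).1)) :=
    Module.compHom (Dm (F ⧸ (MN c).1)) (injφ c).toRingHom
  have hsm : ∀ (P : MvPolynomial ℕ ℤ) (a : Dm (F ⧸ (MN c).1)), P • a = injφ c P • a :=
    fun _ _ => rfl
  have h2 := psi (fun i j => Dm.bb (ig c i) (ig c j)) (fun i => Dm.bb_self _)
    (fun i j => Dm.bb_symm _ _)
    (fun i j k => by
      rw [hsm, hsm, hsm, injφ_X, injφ_X, injφ_X]
      exact Dm.jacobi (ig c i) (ig c j) (ig c k)) hc
    (fun μ hμ i j => inj_kill hμ _) f hfl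
  have h3 : Dm.mk _ hwm = 0 := hf.trans h2
  have h4 := congrArg Dm.val h3
  rw [Dm.val_mk, Dm.val_zero] at h4
  exact (QuotientGroup.eq_one_iff w).1 h4

end Pool.Agent.Lib.MP_4c5e24_al
end
end

section

section

set_option autoImplicit false

/-!
RIG-POL: polarisation of a power.
-/

namespace Pool.Agent.Lib.MP_4c5e24_al

/-- The inclusion-exclusion identity.

Proof. Expand `(y - 1) ^ n = ∑ k ≤ n, (-1) ^ (n - k) * (n.choose k) * y ^ k` with
`y = ∏ i ∈ T, (1 + s i)` and exchange the sums; for fixed `k`,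
`∑ T, (-1) ^ (n - |T|) * ∏ i ∈ T, (1 + s i) ^ k = ∏ i, ((1 + s i) ^ k - 1)`
(`Finset.prod_add`, or `Finset.prod_sub`, applied to `∏ i, ((1 + s i) ^ k + (-1))`). -/
theorem incl_excl {R : Type*} [CommRing R] (n : ℕ) (s : Fin n → R) :
    ∑ T : Finset (Fin n), (-1) ^ (n - T.card) * ((∏ i ∈ T, (1 + s i)) - 1) ^ n =
      ∑ k ∈ Finset.range (n + 1), (-1) ^ (n - k) * (n.choose k : R) *
        ∏ i, ((1 + s i) ^ k - 1) := by
  classical
  have h1 : ∀ T : Finset (Fin n), ((∏ i ∈ T, (1 + s i)) - 1) ^ n =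
      ∑ k ∈ Finset.range (n + 1), (∏ i ∈ T, (1 + s i) ^ k) * (-1) ^ (n - k) * (n.choose k : R) := by
    intro T
    rw [sub_eq_add_neg, add_pow]
    refine Finset.sum_congr rfl fun k _ => ?_
    rw [Finset.prod_pow]
  have h2 : ∀ k : ℕ, ∏ i, ((1 + s i) ^ k - 1) =
      ∑ T : Finset (Fin n), (∏ i ∈ T, (1 + s i) ^ k) * (-1) ^ (n - T.card) := by
    intro k
    have h3 := Finset.prod_add (fun i : Fin n => (1 + s i) ^ k) (fun _ => (-1 : R)) Finset.univ
    rw [Finset.powerset_univ] at h3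
    rw [Finset.prod_congr rfl fun i _ => sub_eq_add_neg ((1 + s i) ^ k) 1, h3]
    refine Finset.sum_congr rfl fun T _ => ?_
    rw [Finset.prod_const, Finset.card_sdiff_of_subset (Finset.subset_univ T), Finset.card_univ,
      Fintype.card_fin]
  simp_rw [h1, h2, Finset.mul_sum]
  rw [Finset.sum_comm]
  refine Finset.sum_congr rfl fun k _ => Finset.sum_congr rfl fun T _ => ?_
  ring

theorem pol_fact {S : Type*} [CommRing S] (n : ℕ) :
    ∑ k ∈ Finset.range (n + 1), (-1) ^ (n - k) * (n.choose k : S) * (k : S) ^ n =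
      ((n.factorial : ℕ) : S) := by
  have h1 := congrFun (fwdDiff_iter_eq_factorial (R := S) (n := n)) 0
  rw [fwdDiff_iter_eq_sum_shift] at h1
  have h2 : ((n.factorial : ℕ) : S → S) 0 = ((n.factorial : ℕ) : S) := by
    simp
  rw [h2] at h1
  rw [← h1]
  refine Finset.sum_congr rfl fun k _ => ?_
  rw [zsmul_eq_mul, zero_add, nsmul_one]
  push_cast
  rfl

/-- Let `n!` be a unit and let the `n`-th powers of all `∏ i ∈ T, (1 + s i) - 1` be in an ideal `I`.
Then `∏ i, s i ∈ I`.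

Proof. Work in `R ⧸ I`, that is, assume `I = ⊥` (or keep `I`). By `incl_excl` the right side of
that identity is in `I`. Now `(1 + s i) ^ k - 1 = s i * (k + s i * r)` for some `r` (depending on `i`
and `k`), so `∏ i, ((1 + s i) ^ k - 1) = (∏ i, s i) * (k ^ n + ε_k)` with `ε_k` in the
ideal generated by the `s i` (`Ideal.Quotient.mk` modulo that ideal, or
`Finset.prod_induction`). Hence the right side is `(∏ i, s i) * (a + ε)` with `ε` in that ideal and
`a = ∑ k ≤ n, (-1) ^ (n - k) * (n.choose k) * k ^ n = n!` (Mathlib: `fwdDiff_iter_eq_factorial` or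
`Finset.sum_...`; the `n`-th difference of `x ^ n`). The `s i` are nilpotent modulo `I` (take
`T = {i}`), so `ε` is nilpotent modulo `I` and `n! + ε` is a unit modulo `I`
(`IsUnit` plus nilpotent: `IsNilpotent.isUnit_add_right_of_commute` or similar). So
`∏ i, s i ∈ I`. (For `n = 0` the hypothesis for `T = ∅` says `0 ^ 0 = 1 ∈ I`.) -/
theorem pol {R : Type*} [CommRing R] (n : ℕ) (hn : IsUnit ((n.factorial : ℕ) : R)) (I : Ideal R)
    (s : Fin n → R)
    (h : ∀ T : Finset (Fin n), ((∏ i ∈ T, (1 + s i)) - 1) ^ n ∈ I) : ∏ i, s i ∈ I := by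
  classical
  obtain ⟨J, hJ⟩ : ∃ J : Ideal R, J = Ideal.span (Set.range s) := ⟨_, rfl⟩
  have hsJ : ∀ i, s i ∈ J := fun i => by rw [hJ]; exact Ideal.subset_span ⟨i, rfl⟩
  obtain ⟨r, hr⟩ : ∃ r : Fin n → ℕ → R, ∀ i k, r i k = ∑ j ∈ Finset.range k, (1 + s i) ^ j :=
    ⟨_, fun _ _ => rfl⟩
  have hr1 : ∀ i k, (1 + s i) ^ k - 1 = s i * r i k := fun i k => by
    rw [hr, ← geom_sum_mul, add_sub_cancel_left, mul_comm]
  have hr2 : ∀ i k, Ideal.Quotient.mk J (r i k) = k := fun i k => by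
    rw [hr, map_sum]
    have h1 : ∀ j ∈ Finset.range k, Ideal.Quotient.mk J ((1 + s i) ^ j) = 1 := fun j _ => by
      rw [map_pow, map_add, map_one, Ideal.Quotient.eq_zero_iff_mem.2 (hsJ i), add_zero, one_pow]
    rw [Finset.sum_congr rfl h1, Finset.sum_const, Finset.card_range, nsmul_one]
  obtain ⟨B, hB⟩ : ∃ B : R, B = ∑ k ∈ Finset.range (n + 1), (-1) ^ (n - k) * (n.choose k : R) *
      ∏ i, r i k := ⟨_, rfl⟩
  have hB1 : Ideal.Quotient.mk J B = ((n.factorial : ℕ) : R ⧸ J) := by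
    rw [hB, ← pol_fact n, map_sum]
    refine Finset.sum_congr rfl fun k _ => ?_
    rw [map_mul, map_mul, map_pow, map_neg, map_one, map_natCast, map_prod]
    congr 1
    rw [Finset.prod_congr rfl fun i _ => hr2 i k, Finset.prod_const, Finset.card_univ,
      Fintype.card_fin]
  have hB2 : B - (n.factorial : ℕ) ∈ J := by
    rw [← Ideal.Quotient.eq_zero_iff_mem, map_sub, hB1, map_natCast, sub_self]
  have hJI : J ≤ I.radical := by
    rw [hJ, Ideal.span_le]
    rintro _ ⟨i, rfl⟩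
    refine ⟨n, ?_⟩
    have h1 := h {i}
    rwa [Finset.prod_singleton, add_sub_cancel_left] at h1
  have hmul : (∏ i, s i) * B ∈ I := by
    have h1 : (∏ i, s i) * B = ∑ k ∈ Finset.range (n + 1), (-1) ^ (n - k) * (n.choose k : R) *
        ∏ i, ((1 + s i) ^ k - 1) := by
      rw [hB, Finset.mul_sum]
      refine Finset.sum_congr rfl fun k _ => ?_
      rw [Finset.prod_congr rfl fun i _ => hr1 i k, Finset.prod_mul_distrib]
      ring
    rw [h1, ← incl_excl]
    exact Ideal.sum_mem _ fun T _ => Ideal.mul_mem_left _ _ (h T)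
  have hnil : IsNilpotent (Ideal.Quotient.mk I (B - (n.factorial : ℕ))) := by
    obtain ⟨k, hk⟩ := hJI hB2
    exact ⟨k, by rw [← map_pow, Ideal.Quotient.eq_zero_iff_mem]; exact hk⟩
  have hunit : IsUnit (Ideal.Quotient.mk I B) := by
    have h1 := IsNilpotent.isUnit_add_left_of_commute hnil (hn.map (Ideal.Quotient.mk I))
      (Commute.all _ _)
    rwa [← map_add, add_sub_cancel] at h1
  rw [← Ideal.Quotient.eq_zero_iff_mem, map_mul] at hmul
  rw [← Ideal.Quotient.eq_zero_iff_mem]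
  exact (hunit.mul_left_eq_zero).1 hmul

end Pool.Agent.Lib.MP_4c5e24_al
end

section

set_option autoImplicit false

/-!
RIG-ME: metabelian groups of prime exponent `p` are nilpotent of class at most `p`.
-/

namespace Pool.Agent.Lib.MP_4c5e24_al

open scoped commutatorElement

private theorem metaExp_poly {p : ℕ} (hp : p.Prime) :
    ∃ Q : Polynomial ℤ, (Polynomial.X - 1 : Polynomial ℤ) ^ (p - 1) =
      ∑ k ∈ Finset.range p, Polynomial.X ^ k + ((p : ℕ) : Polynomial ℤ) * Q := by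
  have : Fact p.Prime := ⟨hp⟩
  have h1 : (Polynomial.X - 1 : Polynomial (ZMod p)) ^ (p - 1) =
      ∑ k ∈ Finset.range p, Polynomial.X ^ k := by
    have hne : (Polynomial.X - 1 : Polynomial (ZMod p)) ≠ 0 := by
      rw [← Polynomial.C_1]
      exact Polynomial.X_sub_C_ne_zero 1
    apply mul_right_cancel₀ hne
    rw [← pow_succ, Nat.sub_add_cancel hp.one_le, geom_sum_mul, sub_pow_char, one_pow]
  have h2 : Polynomial.map (Int.castRingHom (ZMod p))
      ((Polynomial.X - 1 : Polynomial ℤ) ^ (p - 1) - ∑ k ∈ Finset.range p, Polynomial.X ^ k) = 0 := by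
    simp only [Polynomial.map_sub, Polynomial.map_pow, Polynomial.map_X, Polynomial.map_one,
      Polynomial.map_sum]
    rw [h1, sub_self]
  have h3 : Polynomial.C (p : ℤ) ∣
      ((Polynomial.X - 1 : Polynomial ℤ) ^ (p - 1) - ∑ k ∈ Finset.range p, Polynomial.X ^ k) := by
    rw [Polynomial.C_dvd_iff_dvd_coeff]
    intro i
    have h4 := congrArg (fun q => Polynomial.coeff q i) h2
    simp only [Polynomial.coeff_map, Polynomial.coeff_zero] at h4
    exact (ZMod.intCast_zmod_eq_zero_iff_dvd _ p).1 h4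
  obtain ⟨Q, hQ⟩ := h3
  refine ⟨Q, ?_⟩
  have h5 : ((p : ℕ) : Polynomial ℤ) = Polynomial.C (p : ℤ) := by simp
  rw [h5, ← hQ]
  ring

/-- Proof. For `a` in the derived subgroup and `g : G`, `(a * g) ^ p = 1` and `g ^ p = 1` give
`∏ k < p, g ^ k * a * (g ^ k)⁻¹ = 1` (by induction
`(a * g) ^ n = (∏ k < n, g ^ k * a * (g ^ k)⁻¹) * g ^ n`), which in the module `Dm G` is
`(∑ k < p, (gr g) ^ k) • a = 0`. Since `p • a = 0` (`a ^ p = 1`) and
`(X - 1) ^ (p - 1) - ∑ k < p, X ^ k` is `p` times an integral polynomial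
(in `(ZMod p)[X]` both sides multiplied by `X - 1` are `X ^ p - 1`, `sub_pow_char`, `geom_sum_mul`; or
`(-1) ^ (p - 1 - k) * ((p - 1).choose k) ≡ 1` modulo `p`), we get `(gr g - 1) ^ (p - 1) • a = 0`. -/
theorem gr_pow_smul {G : Type} [Group G] [IsMeta G] {p : ℕ} (hp : p.Prime)
    (hexp : ∀ g : G, g ^ p = 1) (g : G) (a : Dm G) : (Dm.gr g - 1) ^ (p - 1) • a = 0 := by
  classical
  -- the norm element kills the module
  have hgr : ∀ k : ℕ, (Dm.gr g) ^ k = Dm.gr (g ^ k) := by
    intro k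
    simp only [Dm.gr, map_pow]
  have hval : ∀ n : ℕ, (a.val * g) ^ n =
      (((∑ k ∈ Finset.range n, (Dm.gr g) ^ k) • a : Dm G)).val * g ^ n := by
    intro n
    induction n with
    | zero => simp
    | succ n ih =>
      rw [pow_succ, ih, Finset.sum_range_succ, add_smul, Dm.val_add, hgr n, Dm.val_gr_smul, pow_succ]
      group
  have hnorm : (∑ k ∈ Finset.range p, (Dm.gr g) ^ k) • a = 0 := by
    apply Dm.val_inj
    have h := hval p
    rw [hexp, hexp, mul_one] at h
    rw [Dm.val_zero, ← h]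
  have hpa : ∀ b : Dm G, ((p : ℕ) : Dm.ZG G) • b = 0 := by
    intro b
    rw [Nat.cast_smul_eq_nsmul]
    apply Dm.val_inj
    rw [Dm.val_nsmul, hexp, Dm.val_zero]
  obtain ⟨Q, hQ⟩ := metaExp_poly hp
  have hev := congrArg (Polynomial.aeval (Dm.gr g)) hQ
  simp only [map_pow, map_sub, map_add, map_mul, map_sum, Polynomial.aeval_X, map_one,
    map_natCast] at hev
  rw [hev, add_smul, hnorm, zero_add, mul_smul, hpa]

/-- Proof. By `Dm.lcs_eq_bot` with `n = p - 1` it suffices that `∏ i, (gr (g i) - 1)` kills `Dm G` for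
all `g : Fin (p - 1) → G`. Let `I` be the annihilator of `Dm G` in the commutative ring
`ZG G`; it contains `p`. Apply `pol` in the ring `ZG G ⧸ Ideal.span {p}` (or: in `ZG G` localised ..):
in detail, let `R = ZG G ⧸ I`, which has `p = 0`, so that `(p - 1)!` is a unit in `R` (it is
coprime to `p`), `n = p - 1`, the ideal `⊥` of `R`, and `s i` the class of `gr (g i) - 1`. For a subset
`T`, `∏ i ∈ T, (1 + s i)` is the class of `gr (∏ i ∈ T, g i)` in some order (`gr` is multiplicative;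
use a product over a list, or note that every element of `Abelianization G` is the class of some `g`),
so the hypothesis of `pol` is `gr_pow_smul`. -/
theorem lcs_exp {G : Type} [Group G] [IsMeta G] {p : ℕ} (hp : p.Prime)
    (hexp : ∀ g : G, g ^ p = 1) : (⊤ : Subgroup G).lowerCentralSeries p = ⊥ := by
  classical
  have hp1 : p - 1 + 1 = p := Nat.sub_add_cancel hp.one_le
  have key := Dm.lcs_eq_bot (G := G) (p - 1) ?_
  · rwa [hp1] at key
  intro l hl a
  let I : Ideal (Dm.ZG G) := Module.annihilator (Dm.ZG G) (Dm G)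
  have hpI : ((p : ℕ) : Dm.ZG G) ∈ I := by
    rw [Module.mem_annihilator]
    intro b
    rw [Nat.cast_smul_eq_nsmul]
    apply Dm.val_inj
    rw [Dm.val_nsmul, hexp, Dm.val_zero]
  have hpR : ((p : ℕ) : Dm.ZG G ⧸ I) = 0 := by
    have h := (Ideal.Quotient.eq_zero_iff_mem).2 hpI
    rwa [map_natCast] at h
  have hunit : IsUnit (((l.length).factorial : ℕ) : Dm.ZG G ⧸ I) := by
    rw [hl]
    have hcop : Nat.Coprime (p - 1).factorial p := by
      rw [Nat.coprime_comm]
      exact (Nat.Prime.coprime_iff_not_dvd hp).2 (by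
        rw [hp.dvd_factorial]
        have := hp.one_le
        omega)
    have hb := Nat.gcd_eq_gcd_ab (p - 1).factorial p
    rw [Nat.Coprime.gcd_eq_one hcop] at hb
    have hb2 := congrArg (Int.cast : ℤ → Dm.ZG G ⧸ I) hb
    push_cast at hb2
    rw [hpR, zero_mul, add_zero] at hb2
    exact IsUnit.of_mul_eq_one _ hb2.symm
  have hpol := pol l.length hunit (⊥ : Ideal (Dm.ZG G ⧸ I))
    (fun i => Ideal.Quotient.mk I (Dm.gr (l.get i) - 1)) ?_
  · rw [← map_prod, Ideal.mem_bot, Ideal.Quotient.eq_zero_iff_mem, Module.mem_annihilator] at hpol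
    have h2 : (l.map (fun g => (Dm.gr g - 1 : Dm.ZG G))).prod =
        ∏ i : Fin l.length, (Dm.gr (l.get i) - 1) := by
      rw [← List.prod_ofFn]
      congr 1
      have h3 : l.map (fun g => (Dm.gr g - 1 : Dm.ZG G)) =
          (List.ofFn l.get).map (fun g => (Dm.gr g - 1 : Dm.ZG G)) := by rw [List.ofFn_get]
      rw [h3, List.map_ofFn]
      rfl
    rw [h2]
    exact hpol a
  · intro T
    obtain ⟨h, hh⟩ : ∃ h : G, (∏ i ∈ T, Dm.gr (l.get i) : Dm.ZG G) = Dm.gr h := by
      obtain ⟨h, h1⟩ : ∃ h : G, (Abelianization.of h : Abelianization G) =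
          ∏ i ∈ T, (Abelianization.of (l.get i) : Abelianization G) := QuotientGroup.mk_surjective _
      refine ⟨h, ?_⟩
      simp only [Dm.gr]
      rw [h1, map_prod]
    have h4 : (∏ i ∈ T, (1 + Ideal.Quotient.mk I (Dm.gr (l.get i) - 1))) =
        Ideal.Quotient.mk I (Dm.gr h) := by
      rw [← hh, map_prod]
      refine Finset.prod_congr rfl fun i _ => ?_
      rw [map_sub, map_one]
      ring
    rw [h4, Ideal.mem_bot, hl, ← map_one (Ideal.Quotient.mk I), ← map_sub, ← map_pow,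
      Ideal.Quotient.eq_zero_iff_mem, Module.mem_annihilator]
    intro b
    exact gr_pow_smul hp hexp h b

/-- Proof. Let `K = der 2 ⊔ Bn p`, `G = F ⧸ K.1`; it is metabelian (as in the instance
`isMeta_quot` of the file `Inj`) of exponent `p`, so `lcs_exp` gives
`(⊤ : Subgroup G).lowerCentralSeries p = ⊥`, and the lower central series of `F` is mapped
into the one of `G` (`Subgroup.map_lowerCentralSeries`), so it is contained in the kernel `K.1` of the
projection. -/
theorem MN_le_exp {p : ℕ} (hp : p.Prime) : MN p ≤ der 2 ⊔ Bn p := by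
  have hmeta : IsMeta (F ⧸ (der 2 ⊔ Bn p : FI).1) := by
    constructor
    have h1 : commutator (F ⧸ (der 2 ⊔ Bn p : FI).1) =
        (commutator F).map (QuotientGroup.mk' (der 2 ⊔ Bn p : FI).1) := by
      rw [commutator_def, commutator_def, Subgroup.map_commutator,
        Subgroup.map_top_of_surjective _ (QuotientGroup.mk'_surjective _)]
    rw [h1]
    rintro _ ⟨a, ha, rfl⟩ _ ⟨b, hb, rfl⟩
    rw [← commutatorElement_eq_one_iff_mul_comm, ← map_commutatorElement]
    refine (QuotientGroup.eq_one_iff _).2 ?_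
    have h2 : ⁅a, b⁆ ∈ derivedSeries F 2 := Subgroup.commutator_mem_commutator ha hb
    exact (le_sup_left : der 2 ≤ der 2 ⊔ Bn p) h2
  have hexp : ∀ g : F ⧸ (der 2 ⊔ Bn p : FI).1, g ^ p = 1 := by
    intro g
    obtain ⟨w, rfl⟩ := QuotientGroup.mk_surjective g
    rw [← QuotientGroup.mk_pow]
    refine (QuotientGroup.eq_one_iff _).2 ?_
    exact (le_sup_right : Bn p ≤ der 2 ⊔ Bn p) (pow_mem_Bn p w)
  have hl := lcs_exp hp hexp
  refine sup_le ?_ le_sup_left
  intro w hw
  have h1 : QuotientGroup.mk' (der 2 ⊔ Bn p : FI).1 w ∈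
      ((⊤ : Subgroup F).lowerCentralSeries p).map (QuotientGroup.mk' (der 2 ⊔ Bn p : FI).1) :=
    ⟨w, hw, rfl⟩
  rw [Subgroup.map_lowerCentralSeries,
    Subgroup.map_top_of_surjective _ (QuotientGroup.mk'_surjective _), hl, Subgroup.mem_bot] at h1
  exact (QuotientGroup.eq_one_iff _).1 h1

end Pool.Agent.Lib.MP_4c5e24_al
end

section

set_option autoImplicit false

/-!
RIG-LEAD: the leading terms of the elements of `MN c`.
-/

namespace Pool.Agent.Lib.MP_4c5e24_al

open scoped commutatorElement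
open MvPolynomial

/-- `L` is the leading term of the word `w` in degree `c`. -/
def IsLead (c : ℕ) (L : ℕ →₀ MvPolynomial ℕ ℤ) (w : F) : Prop :=
  (∀ i, (L i).IsHomogeneous c) ∧ L.sum (fun i P => X i * P) = 0 ∧
    th ℤ (c + 1) w = ⟨L.mapRange (Ideal.Quotient.mk _) (map_zero _), 1⟩

private lemma ld_sum {A B : Type} [AddCommMonoid A] [AddCommMonoid B] (φ : A →+ B) (v : ℕ →₀ A)
    (l : ℕ) : (v.sum (fun i a => Finsupp.single i (φ a))) l = φ (v l) := by
  induction v using Finsupp.induction_linear with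
  | zero => simp
  | add f g hf hg =>
    rw [Finsupp.sum_add_index' (by simp) (by simp)]
    rw [Finsupp.add_apply, hf, hg, Finsupp.add_apply, map_add]
  | single i a =>
    rw [Finsupp.sum_single_index (by simp)]
    by_cases h : i = l
    · subst h
      simp
    · simp [Finsupp.single_eq_of_ne' h]

private lemma ld_aeval (n : ℕ) (P : MvPolynomial ℕ ℤ) :
    aeval (tv ℤ n) P = Ideal.Quotient.mk ((idv ℤ) ^ n) P := by
  have h : (aeval (tv ℤ n) : MvPolynomial ℕ ℤ →ₐ[ℤ] Tr ℤ n) =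
      Ideal.Quotient.mkₐ ℤ ((idv ℤ) ^ n) := by
    apply MvPolynomial.algHom_ext
    intro i
    rw [aeval_X]
    rfl
  rw [h]
  rfl

private lemma ld_Jd_pow {n N : ℕ} (h : n ≤ N) : (Jd ℤ n) ^ N = ⊥ := by
  rw [eq_bot_iff, ← Jd_pow ℤ n]
  exact Ideal.pow_le_pow_right h

/-- transition between the truncations -/
private lemma ld_trans {n N : ℕ} (h : n ≤ N) (w : F) (P : ℕ →₀ MvPolynomial ℕ ℤ)
    (hP : ∀ i, (th ℤ N w).m i = Ideal.Quotient.mk ((idv ℤ) ^ N) (P i)) (i : ℕ) :
    (th ℤ n w).m i = Ideal.Quotient.mk ((idv ℤ) ^ n) (P i) := by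
  obtain ⟨h1, -⟩ := th_univ (R := ℤ) (Λ := Tr ℤ n) (M := ℕ →₀ Tr ℤ n) (J := Jd ℤ n) (c := N)
    (ld_Jd_pow h) (tv ℤ n) (tv_mem ℤ n) (fun j => Finsupp.single j 1) (th ℤ n)
    (fun j => by rw [th_x]) (fun j => by rw [th_x, coe_uu]) w
  rw [h1]
  have h2 : (fun (i : ℕ) (Q : Tr ℤ N) => ev (R := ℤ) (ld_Jd_pow h) (tv ℤ n) (tv_mem ℤ n) Q •
      (Finsupp.single i (1 : Tr ℤ n) : ℕ →₀ Tr ℤ n)) =
      fun (i : ℕ) (Q : Tr ℤ N) => Finsupp.single i
        ((ev (R := ℤ) (ld_Jd_pow h) (tv ℤ n) (tv_mem ℤ n) : Tr ℤ N →+* Tr ℤ n).toAddMonoidHom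
          Q) := by
    funext i Q
    rw [Finsupp.smul_single, smul_eq_mul, mul_one]
    rfl
  rw [h2, ld_sum, hP]
  change ev (R := ℤ) (ld_Jd_pow h) (tv ℤ n) (tv_mem ℤ n) (Ideal.Quotient.mk _ (P i)) = _
  rw [ev_mk, ld_aeval]

private lemma ld_comp_X_mul (c i : ℕ) (Q : MvPolynomial ℕ ℤ) :
    homogeneousComponent (c + 1) (X i * Q) = X i * homogeneousComponent c Q := by
  classical
  ext μ
  rw [coeff_homogeneousComponent, coeff_X_mul', coeff_X_mul']
  by_cases hi : i ∈ μ.support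
  · rw [if_pos hi, if_pos hi, coeff_homogeneousComponent]
    have hle : Finsupp.single i 1 ≤ μ := by
      rw [Finsupp.single_le_iff]
      exact Nat.one_le_iff_ne_zero.mpr (Finsupp.mem_support_iff.mp hi)
    have hdeg : (μ - Finsupp.single i 1).degree + 1 = μ.degree := by
      have h1 : μ - Finsupp.single i 1 + Finsupp.single i 1 = μ := tsub_add_cancel_of_le hle
      have h2 := congrArg Finsupp.degree h1
      rw [map_add, Finsupp.degree_single] at h2
      exact h2
    by_cases hc : μ.degree = c + 1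
    · rw [if_pos hc, if_pos (by omega)]
    · rw [if_neg hc, if_neg (by omega)]
  · rw [if_neg hi, if_neg hi, ite_self]

/-- Every element of `MN c` has a leading term.

Proof. `w` is in the commutator subgroup (`c ≥ 1`: both `lowerCentralSeries c` and
`derivedSeries 2` are contained in it), so the group part of `th ℤ n w` is `1` for all `n`
(`th_comm`). Consider `v = (th ℤ (c + 2) w).m : ℕ →₀ Tr ℤ (c + 2)` and choose representatives
`P : ℕ →₀ MvPolynomial ℕ ℤ` of its components (with `P i = 0` where `v i = 0`). For `n ≤ c + 2` the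
components of `(th ℤ n w).m` are the classes of the `P i` modulo `(idv ℤ) ^ n` (`th_univ` with
`R = Λ-algebra ℤ`, `Λ = Tr ℤ n`, `s = tv ℤ n`, `E j = single j 1`; the ring homomorphism `ev` from
`Tr ℤ (c + 2)` to `Tr ℤ n`, for which one needs `(Jd ℤ n) ^ (c + 2) = ⊥`, maps the class of `P` to the
class of `P`). For `n = c`, by `TG_class` and `w ∈ MN c`, `(th ℤ c w).m = 0`, so `P i ∈ (idv ℤ) ^ c` and
`P i` has no monomials of degree `< c` (`coeff_idv_pow`). Let `L i` be the homogeneous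
component of degree `c` of `P i`; `P i - L i` has only monomials of degree `≥ c + 1`, so it is in
`(idv ℤ) ^ (c + 1)` (`mem_idv_pow`) and the classes of `P i` and `L i` modulo `(idv ℤ) ^ (c + 1)` are equal;
this is the third property. By `th_fox` for `c + 2`, `∑ P i * X i` is in `(idv ℤ) ^ (c + 2)` (the right
side is `1 - 1 = 0`), so its homogeneous component of degree `c + 1`, which is
`∑ L i * X i`, vanishes. -/
theorem exists_lead {c : ℕ} (hc : 1 ≤ c) {w : F} (hw : w ∈ (MN c).1) : ∃ L, IsLead c L w := by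
  classical
  have hcomm : w ∈ commutator F := by
    have h1 : (MN c).1 ≤ commutator F := by
      rw [MN_coe]
      refine sup_le ?_ ?_
      · rw [← Subgroup.top_lowerCentralSeries_one]
        exact Subgroup.lowerCentralSeries_antitone (⊤ : Subgroup F) hc
      · rw [← derivedSeries_one]
        exact derivedSeries_antitone F (by norm_num)
    exact h1 hw
  -- representatives
  obtain ⟨σ, hσ0, hσ⟩ : ∃ σ : Tr ℤ (c + 2) → MvPolynomial ℕ ℤ, σ 0 = 0 ∧
      ∀ t, Ideal.Quotient.mk ((idv ℤ) ^ (c + 2)) (σ t) = t := by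
    refine ⟨fun t => if t = 0 then 0 else
      Function.surjInv (Ideal.Quotient.mk_surjective (I := (idv ℤ) ^ (c + 2))) t, by simp,
      fun t => ?_⟩
    by_cases ht : t = 0
    · simp [ht]
    · simp only [ht, if_false]
      exact Function.surjInv_eq _ t
  obtain ⟨P, hP⟩ : ∃ P : ℕ →₀ MvPolynomial ℕ ℤ, P = (th ℤ (c + 2) w).m.mapRange σ hσ0 :=
    ⟨_, rfl⟩
  have hP2 : ∀ i, (th ℤ (c + 2) w).m i = Ideal.Quotient.mk ((idv ℤ) ^ (c + 2)) (P i) := by
    intro i
    rw [hP, Finsupp.mapRange_apply, hσ]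
  have hPc : ∀ i, ∀ μ : ℕ →₀ ℕ, μ.degree < c → (P i).coeff μ = 0 := by
    intro i μ hμ
    have h1 : th ℤ c w = 1 := TG_class hc (Jd_pow ℤ c) hw (th ℤ c)
    have h2 := ld_trans (show c ≤ c + 2 by omega) w P hP2 i
    rw [h1, Sd.one_m, Finsupp.zero_apply, eq_comm, Ideal.Quotient.eq_zero_iff_mem] at h2
    exact coeff_idv_pow h2 hμ
  obtain ⟨L, hL⟩ : ∃ L : ℕ →₀ MvPolynomial ℕ ℤ,
    L = P.mapRange (homogeneousComponent c) (map_zero _) := ⟨_, rfl⟩
  have hLi : ∀ i, L i = homogeneousComponent c (P i) := fun i => by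
    rw [hL]
    exact Finsupp.mapRange_apply ..
  refine ⟨L, fun i => ?_, ?_, ?_⟩
  · rw [hLi]
    exact homogeneousComponent_isHomogeneous c (P i)
  · -- the Fox formula
    have h1 := th_fox ℤ (c + 2) w
    rw [th_comm ℤ (c + 2) hcomm] at h1
    have h2 : (((1 : UJ (Jd ℤ (c + 2))) : (Tr ℤ (c + 2))ˣ) : Tr ℤ (c + 2)) - 1 = 0 := by simp
    rw [h2] at h1
    have h3 : (th ℤ (c + 2) w).m = P.mapRange (Ideal.Quotient.mk ((idv ℤ) ^ (c + 2)))
        (map_zero _) := by
      ext1 i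
      rw [hP2, Finsupp.mapRange_apply]
    rw [h3, Finsupp.sum_mapRange_index (by simp)] at h1
    have h4 : Ideal.Quotient.mk ((idv ℤ) ^ (c + 2)) (P.sum fun i p => X i * p) = 0 := by
      rw [map_finsuppSum, ← h1]
      refine Finsupp.sum_congr fun i _ => ?_
      rw [map_mul, mul_comm]
      rfl
    rw [Ideal.Quotient.eq_zero_iff_mem] at h4
    have h5 : homogeneousComponent (c + 1) (P.sum fun i p => X i * p) = 0 := by
      ext μ
      rw [coeff_homogeneousComponent, coeff_zero]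
      split_ifs with hμ
      · exact coeff_idv_pow h4 (by omega)
      · rfl
    rw [hL, Finsupp.sum_mapRange_index (by simp), ← h5, map_finsuppSum]
    exact Finsupp.sum_congr fun i _ => (ld_comp_X_mul c i _).symm
  · refine Sd.ext ?_ (th_comm ℤ (c + 1) hcomm)
    change (th ℤ (c + 1) w).m = L.mapRange (Ideal.Quotient.mk _) (map_zero _)
    ext1 i
    rw [ld_trans (show c + 1 ≤ c + 2 by omega) w P hP2 i, Finsupp.mapRange_apply, hLi,
      Ideal.Quotient.eq]
    refine mem_idv_pow fun μ hμ => ?_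
    rw [coeff_sub, coeff_homogeneousComponent]
    by_cases h1 : μ.degree = c
    · rw [if_pos h1, sub_self]
    · rw [if_neg h1, sub_zero]
      exact hPc i μ (by omega)

/-- The leading term of a product.

Proof: the group parts are trivial. -/
theorem IsLead.mul {c : ℕ} {L L' : ℕ →₀ MvPolynomial ℕ ℤ} {w w' : F} (h : IsLead c L w)
    (h' : IsLead c L' w') : IsLead c (L + L') (w * w') := by
  refine ⟨fun i => ?_, ?_, ?_⟩
  · rw [Finsupp.add_apply]
    exact (h.1 i).add (h'.1 i)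
  · rw [Finsupp.sum_add_index' (by simp) (by simp [mul_add]), h.2.1, h'.2.1, add_zero]
  · rw [map_mul, h.2.2, h'.2.2, Sd.mk_mul]
    refine Sd.ext ?_ (one_mul 1)
    simp only [map_one, Units.val_one, one_smul]
    ext1 i
    simp

theorem IsLead.inv {c : ℕ} {L : ℕ →₀ MvPolynomial ℕ ℤ} {w : F} (h : IsLead c L w) :
    IsLead c (-L) w⁻¹ := by
  refine ⟨fun i => ?_, ?_, ?_⟩
  · rw [Finsupp.neg_apply]
    exact (h.1 i).neg
  · rw [Finsupp.sum_neg_index (by simp)]
    have h1 : (L.sum fun i P => X i * -P) = -(L.sum fun i P => X i * P) := by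
      simp only [Finsupp.sum, mul_neg, Finset.sum_neg_distrib]
    rw [h1, h.2.1, neg_zero]
  · rw [map_inv, h.2.2]
    refine Sd.ext ?_ inv_one
    rw [Sd.inv_m]
    simp only [inv_one, map_one, Units.val_one, neg_smul, one_smul]
    ext1 i
    simp

/-- The leading term is unique.

Proof: the difference of the components is a homogeneous polynomial of degree `c` in
`(idv ℤ) ^ (c + 1)`, so it vanishes (`coeff_idv_pow`). -/
theorem IsLead.unique {c : ℕ} {L L' : ℕ →₀ MvPolynomial ℕ ℤ} {w : F} (h : IsLead c L w)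
    (h' : IsLead c L' w) : L = L' := by
  have h1 := congrArg Sd.m (h.2.2.symm.trans h'.2.2)
  ext i μ
  have h2 := DFunLike.congr_fun h1 i
  simp only [Finsupp.mapRange_apply] at h2
  rw [Ideal.Quotient.eq] at h2
  have h3 : (L i - L' i).IsHomogeneous c := (h.1 i).sub (h'.1 i)
  have h4 : (L i - L' i).coeff μ = 0 := by
    by_cases hμ : μ.degree < c + 1
    · exact coeff_idv_pow h2 hμ
    · exact h3.coeff_eq_zero (by omega)
  rw [coeff_sub, sub_eq_zero] at h4
  exact h4

/-- A word with leading term zero in degree `c` is in `MN (c + 1)`. Proof: `th_inj`. -/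
theorem IsLead.mem {c : ℕ} {w : F} (h : IsLead c 0 w) : w ∈ (MN (c + 1)).1 := by
  refine th_inj (Nat.le_add_left 1 c) ?_
  rw [h.2.2]
  refine Sd.ext ?_ rfl
  simp

end Pool.Agent.Lib.MP_4c5e24_al
end

section

set_option autoImplicit false

/-!
RIG-LEAD2: the leading terms and substitutions.
-/

namespace Pool.Agent.Lib.MP_4c5e24_al

open scoped commutatorElement
open MvPolynomial

/-- The endomorphism which maps `x i` to the product of the `x j`, `j ∈ B i`, in increasing
order. -/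
def subE (B : ℕ → Finset ℕ) : F →* F :=
  FreeGroup.lift (fun i => (((B i).sort (· ≤ ·)).map (fun j => x j)).prod)

private lemma l2_mul {Λ : Type} [CommRing Λ] {J : Ideal Λ} {a a' b b' : Λ} {m n : ℕ}
    (h1 : a ∈ J ^ m ∧ a' ∈ J ^ m ∧ a - a' ∈ J ^ (m + 1))
    (h2 : b ∈ J ^ n ∧ b' ∈ J ^ n ∧ b - b' ∈ J ^ (n + 1)) :
    a * b ∈ J ^ (m + n) ∧ a' * b' ∈ J ^ (m + n) ∧ a * b - a' * b' ∈ J ^ (m + n + 1) := by
  obtain ⟨ha, ha', hd⟩ := h1
  obtain ⟨hb, hb', hd'⟩ := h2
  refine ⟨?_, ?_, ?_⟩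
  · rw [pow_add]
    exact Ideal.mul_mem_mul ha hb
  · rw [pow_add]
    exact Ideal.mul_mem_mul ha' hb'
  · have e : a * b - a' * b' = (a - a') * b + a' * (b - b') := by ring
    rw [e]
    refine Ideal.add_mem _ ?_ ?_
    · have h := Ideal.mul_mem_mul hd hb
      rw [← pow_add, add_right_comm] at h
      exact h
    · have h := Ideal.mul_mem_mul ha' hd'
      rw [← pow_add, ← add_assoc] at h
      exact h

private lemma l2_mono {Λ : Type} [CommRing Λ] {J : Ideal Λ} {s s' : ℕ → Λ} (hs : ∀ j, s j ∈ J)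
    (hs' : ∀ j, s' j ∈ J) (hd : ∀ j, s j - s' j ∈ J ^ 2) (μ : ℕ →₀ ℕ) :
    (μ.prod fun j n => s j ^ n) ∈ J ^ μ.degree ∧ (μ.prod fun j n => s' j ^ n) ∈ J ^ μ.degree ∧
      (μ.prod fun j n => s j ^ n) - (μ.prod fun j n => s' j ^ n) ∈ J ^ (μ.degree + 1) := by
  induction μ using Finsupp.induction_linear with
  | zero => simp
  | add μ ν h1 h2 =>
    rw [Finsupp.prod_add_index' (fun _ => pow_zero _) (fun _ _ _ => pow_add _ _ _),
      Finsupp.prod_add_index' (fun _ => pow_zero _) (fun _ _ _ => pow_add _ _ _), map_add]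
    exact l2_mul h1 h2
  | single j n =>
    have e : ∀ t : ℕ → Λ, ((Finsupp.single j n).prod fun j n => t j ^ n) = t j ^ n := fun t =>
      Finsupp.prod_single_index (pow_zero _)
    rw [e s, e s', Finsupp.degree_single]
    clear e
    induction n with
    | zero => simp
    | succ n ih =>
      rw [pow_succ (s j), pow_succ (s' j)]
      refine l2_mul ih ⟨?_, ?_, ?_⟩
      · rw [pow_one]
        exact hs j
      · rw [pow_one]
        exact hs' j
      · exact hd j

private lemma l2_hom {Λ : Type} [CommRing Λ] [Algebra ℤ Λ] {J : Ideal Λ} {s s' : ℕ → Λ} (hs : ∀ j, s j ∈ J)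
    (hs' : ∀ j, s' j ∈ J) (hd : ∀ j, s j - s' j ∈ J ^ 2) {c : ℕ} {P : MvPolynomial ℕ ℤ}
    (hP : P.IsHomogeneous c) :
    aeval s P ∈ J ^ c ∧ aeval s' P ∈ J ^ c ∧ aeval s P - aeval s' P ∈ J ^ (c + 1) := by
  have hdeg : ∀ μ ∈ P.support, μ.degree = c := by
    intro μ hμ
    by_contra hne
    exact (mem_support_iff.1 hμ) (hP.coeff_eq_zero hne)
  rw [aeval_def, aeval_def, eval₂_eq, eval₂_eq]
  refine ⟨Ideal.sum_mem _ fun μ hμ => Ideal.mul_mem_left _ _ ?_,
    Ideal.sum_mem _ fun μ hμ => Ideal.mul_mem_left _ _ ?_, ?_⟩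
  · rw [← hdeg μ hμ]
    exact (l2_mono hs hs' hd μ).1
  · rw [← hdeg μ hμ]
    exact (l2_mono hs hs' hd μ).2.1
  · rw [← Finset.sum_sub_distrib]
    refine Ideal.sum_mem _ fun μ hμ => ?_
    rw [← mul_sub]
    refine Ideal.mul_mem_left _ _ ?_
    rw [← hdeg μ hμ]
    exact (l2_mono hs hs' hd μ).2.2

/-- The value of a product of generators. -/
private lemma l2_prod (n : ℕ) (ls : List ℕ) :
    ((((th ℤ n (ls.map (fun j => x j)).prod).f : (Tr ℤ n)ˣ) : Tr ℤ n) - 1 -
      (ls.map (fun j => tv ℤ n j)).sum ∈ (Jd ℤ n) ^ 2) ∧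
    ((th ℤ n (ls.map (fun j => x j)).prod).m -
      (ls.map (fun j => (Finsupp.single j 1 : ℕ →₀ Tr ℤ n))).sum ∈
        (Jd ℤ n) • (⊤ : Submodule (Tr ℤ n) (ℕ →₀ Tr ℤ n))) := by
  induction ls with
  | nil => simp
  | cons a ls ih =>
    obtain ⟨h1, h2⟩ := ih
    obtain ⟨y, hy⟩ : ∃ y, y = th ℤ n (ls.map (fun j => x j)).prod := ⟨_, rfl⟩
    rw [← hy] at h1 h2
    rw [List.map_cons, List.prod_cons, map_mul, ← hy, th_x, List.map_cons, List.sum_cons,
      List.map_cons, List.sum_cons, Sd.mul_m, Sd.mul_f]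
    have hyJ := mem_UJ y.f
    constructor
    · have e : ((((uu (Jd_pow ℤ n) (tv ℤ n a) (tv_mem ℤ n a)) * y.f : UJ (Jd ℤ n)) : (Tr ℤ n)ˣ) :
          Tr ℤ n) = (1 + tv ℤ n a) * ((y.f : (Tr ℤ n)ˣ) : Tr ℤ n) := by
        rw [Subgroup.coe_mul, Units.val_mul, coe_uu]
      have e2 : (1 + tv ℤ n a) * ((y.f : (Tr ℤ n)ˣ) : Tr ℤ n) - 1 -
          (tv ℤ n a + (ls.map (fun j => tv ℤ n j)).sum) =
          (((y.f : (Tr ℤ n)ˣ) : Tr ℤ n) - 1 - (ls.map (fun j => tv ℤ n j)).sum) +
            tv ℤ n a * (((y.f : (Tr ℤ n)ˣ) : Tr ℤ n) - 1) := by ring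
      simp only at e ⊢
      rw [e, e2]
      refine Ideal.add_mem _ h1 ?_
      rw [pow_two]
      exact Ideal.mul_mem_mul (tv_mem ℤ n a) hyJ
    · have e : ((((UJ (Jd ℤ n)).subtype (uu (Jd_pow ℤ n) (tv ℤ n a) (tv_mem ℤ n a)) :
          (Tr ℤ n)ˣ) : Tr ℤ n)) = 1 + tv ℤ n a := rfl
      simp only at e ⊢
      rw [e]
      have e2 : (Finsupp.single a 1 : ℕ →₀ Tr ℤ n) + (1 + tv ℤ n a) • y.m -
          (Finsupp.single a 1 + (ls.map (fun j => (Finsupp.single j 1 : ℕ →₀ Tr ℤ n))).sum) =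
          (y.m - (ls.map (fun j => (Finsupp.single j 1 : ℕ →₀ Tr ℤ n))).sum) +
            tv ℤ n a • y.m := by
        rw [add_smul, one_smul]
        abel
      rw [e2]
      exact Submodule.add_mem _ h2 (Submodule.smul_mem_smul (tv_mem ℤ n a) Submodule.mem_top)

/-- The value of `subE` at a generator. -/
private lemma l2_gen (n : ℕ) (B : ℕ → Finset ℕ) (i : ℕ) :
    ((((th ℤ n (subE B (x i))).f : (Tr ℤ n)ˣ) : Tr ℤ n) - 1 -
      ∑ l ∈ B i, tv ℤ n l ∈ (Jd ℤ n) ^ 2) ∧
    ((th ℤ n (subE B (x i))).m -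
      ∑ l ∈ B i, (Finsupp.single l 1 : ℕ →₀ Tr ℤ n) ∈
        (Jd ℤ n) • (⊤ : Submodule (Tr ℤ n) (ℕ →₀ Tr ℤ n))) := by
  have h := l2_prod n ((B i).sort (· ≤ ·))
  have e1 : ∀ {A : Type} [AddCommMonoid A] (g : ℕ → A),
      (((B i).sort (· ≤ ·)).map g).sum = ∑ l ∈ B i, g l := by
    intro A _ g
    rw [← List.sum_toFinset g (Finset.sort_nodup (B i) (· ≤ ·)), Finset.sort_toFinset]
  rw [e1, e1] at h
  have e2 : subE B (x i) = (((B i).sort (· ≤ ·)).map (fun j => x j)).prod := by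
    unfold subE
    rw [FreeGroup.lift_apply_of]
  rw [e2]
  exact h

private lemma l2_kill {Λ M : Type} [CommRing Λ] {J : Ideal Λ} [AddCommGroup M] [Module Λ M]
    {c : ℕ} (hJ : J ^ (c + 1) = ⊥) {a : Λ} (ha : a ∈ J ^ c) {v : M}
    (hv : v ∈ J • (⊤ : Submodule Λ M)) : a • v = 0 := by
  refine Submodule.smul_induction_on hv (fun t ht m _ => ?_) (fun y z hy hz => ?_)
  · have h := Ideal.mul_mem_mul ha ht
    rw [← pow_succ, hJ] at h
    rw [smul_smul, (Submodule.mem_bot Λ).1 h, zero_smul]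
  · rw [smul_add, hy, hz, add_zero]

private lemma l2_even {R : Type} [CommRing R] {n : ℕ} (hn : Even n) : (-1 : R) ^ n = 1 :=
  hn.neg_one_pow

private lemma l2_odd {R : Type} [CommRing R] {n : ℕ} (hn : Odd n) : (-1 : R) ^ n = -1 :=
  hn.neg_one_pow

private lemma l2_ml (n : ℕ) :
    ml (n + 1) (fun j => if j = 1 then 1 else if j = 0 then -1 else 0) =
      Finsupp.single 1 (X 0 * ∏ i ∈ Finset.range n, (X (i + 2) : MvPolynomial ℕ ℤ)) -
        Finsupp.single 0 (X 1 * ∏ i ∈ Finset.range n, (X (i + 2) : MvPolynomial ℕ ℤ)) := by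
  have hr : (∏ l ∈ Finset.range (n + 1 + 1), (X l : MvPolynomial ℕ ℤ)) =
      (∏ i ∈ Finset.range n, X (i + 2)) * X 1 * X 0 := by
    rw [Finset.prod_range_succ', Finset.prod_range_succ']
  have h1 : (∏ l ∈ (Finset.range (n + 1 + 1)).erase 1, (X l : MvPolynomial ℕ ℤ)) =
      X 0 * ∏ i ∈ Finset.range n, X (i + 2) := by
    apply mul_left_cancel₀ (X_ne_zero 1)
    rw [Finset.mul_prod_erase (Finset.range (n + 1 + 1)) (fun l => (X l : MvPolynomial ℕ ℤ))
      (Finset.mem_range.2 (by omega)), hr]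
    ring
  have h0 : (∏ l ∈ (Finset.range (n + 1 + 1)).erase 0, (X l : MvPolynomial ℕ ℤ)) =
      X 1 * ∏ i ∈ Finset.range n, X (i + 2) := by
    apply mul_left_cancel₀ (X_ne_zero 0)
    rw [Finset.mul_prod_erase (Finset.range (n + 1 + 1)) (fun l => (X l : MvPolynomial ℕ ℤ))
      (Finset.mem_range.2 (by omega)), hr]
    ring
  unfold ml
  rw [Finset.sum_range_succ', Finset.sum_range_succ']
  have h2 : (∑ k ∈ Finset.range n, (Finsupp.single (k + 1 + 1)
      (C (if k + 1 + 1 = 1 then (1 : ℤ) else if k + 1 + 1 = 0 then -1 else 0) *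
        ∏ l ∈ (Finset.range (n + 1 + 1)).erase (k + 1 + 1), X l) :
          ℕ →₀ MvPolynomial ℕ ℤ)) = 0 := by
    refine Finset.sum_eq_zero fun k _ => ?_
    rw [if_neg (by omega), if_neg (by omega), C_0, zero_mul, Finsupp.single_zero]
  rw [h2, zero_add, zero_add, h1, h0]
  simp [sub_eq_add_neg]

/-- Proof. Let `Λ = Tr ℤ (c + 1)`, `J = Jd ℤ (c + 1)`, `M = (ℕ →₀ Λ)` and
`f = (th ℤ (c + 1)).comp (subE B)`. Put `E j = (f (x j)).m`, `s j = (f (x j)).f - 1 ∈ J`. By `th_univ`
and the hypothesis `IsLead c L w`,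
`(f w).m = ∑ i, ev (class of L i) • E i = ∑ i, (aeval s (L i)) • E i` and `(f w).f = ev 1 = 1`.
For a finite product one has `s j ≡ ∑ l ∈ B j, tv l` modulo `J ^ 2` and
`E j ≡ ∑ l ∈ B j, single l 1` modulo `J • M` (induction on the list: the value of `th` at a product of
generators `x l` over a list is `(∑ over l in the list of (a unit ≡ 1 mod J) • e_l, ∏ (1 + t_l))`). If
`P` is homogeneous of degree `c` and `s j ≡ s' j` modulo `J ^ 2` with `s j, s' j ∈ J`, then
`aeval s P ≡ aeval s' P` modulo `J ^ (c + 1) = ⊥` (for a monomial: telescoping a product of `c`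
factors), and `aeval s' P ∈ J ^ c`; so `(aeval s (L i)) • E i = (aeval s' (L i)) • E' i` where
`s' j = ∑ l ∈ B j, tv l`, `E' i = ∑ l ∈ B i, single l 1`, since `J ^ c • (J • M) = 0`. This is the class
of the component of `sub B L`. The components of `sub B L` are homogeneous of degree `c`
(`MvPolynomial.IsHomogeneous` is preserved by `bind₁` with linear forms), and the boundary of
`sub B L` is `bind₁ (..)` of the boundary of `L`, so it vanishes. -/
theorem IsLead.subE {c : ℕ} {L : ℕ →₀ MvPolynomial ℕ ℤ} {w : F} (h : IsLead c L w)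
    (B : ℕ → Finset ℕ) : IsLead c (sub B L) (subE B w) := by
  obtain ⟨h1, h2, h3⟩ := h
  obtain ⟨G, hG⟩ : ∃ G : F →* F, G = Pool.Agent.Lib.MP_4c5e24_al.subE B := ⟨_, rfl⟩
  rw [← hG]
  obtain ⟨β, hβd⟩ : ∃ β : ℕ → MvPolynomial ℕ ℤ, β = fun k => ∑ l ∈ B k, X l := ⟨_, rfl⟩
  have hsub : sub B L = L.sum fun i P => ∑ j ∈ B i, Finsupp.single j (bind₁ β P) := by
    rw [hβd]
    rfl
  have hβ : ∀ k, (β k).IsHomogeneous 1 := by
    intro k
    rw [hβd]
    exact IsHomogeneous.sum _ _ _ fun l _ => isHomogeneous_X _ _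
  refine ⟨?_, ?_, ?_⟩
  · intro i
    rw [hsub, Finsupp.sum_apply, Finsupp.sum]
    refine IsHomogeneous.sum _ _ _ fun k _ => ?_
    rw [Finsupp.finsetSum_apply]
    refine IsHomogeneous.sum _ _ _ fun j _ => ?_
    rw [Finsupp.single_apply]
    split_ifs
    · have h := (h1 k).aeval β hβ
      rw [one_mul] at h
      exact h
    · exact isHomogeneous_zero _ _ _
  · let D : (ℕ →₀ MvPolynomial ℕ ℤ) →+ MvPolynomial ℕ ℤ :=
      Finsupp.liftAddHom (fun i => AddMonoidHom.mulLeft (X i : MvPolynomial ℕ ℤ))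
    have hD : ∀ v : ℕ →₀ MvPolynomial ℕ ℤ, D v = v.sum fun i P => X i * P := fun v => rfl
    rw [← hD, hsub, map_finsuppSum]
    have h4 : ∀ (i : ℕ) (P : MvPolynomial ℕ ℤ),
        D (∑ j ∈ B i, Finsupp.single j (bind₁ β P)) = bind₁ β (X i * P) := by
      intro i P
      rw [map_sum, map_mul, bind₁_X_right]
      have h5 : ∀ j ∈ B i, D (Finsupp.single j (bind₁ β P)) = X j * bind₁ β P := by
        intro j _
        rw [hD, Finsupp.sum_single_index (mul_zero _)]
      rw [Finset.sum_congr rfl h5, ← Finset.sum_mul, hβd]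
    simp only [h4]
    rw [← map_finsuppSum, h2, map_zero]
  · have hJ : (Jd ℤ (c + 1)) ^ (c + 1) = ⊥ := Jd_pow ℤ (c + 1)
    have hU := th_univ (R := ℤ) hJ
      (fun j => (((th ℤ (c + 1) (G (x j))).f : (Tr ℤ (c + 1))ˣ) : Tr ℤ (c + 1)) - 1)
      (fun j => mem_UJ _) (fun j => (th ℤ (c + 1) (G (x j))).m)
      ((th ℤ (c + 1)).comp G) (fun j => rfl) (fun j => by
        rw [add_sub_cancel]
        rfl) w
    obtain ⟨hU1, hU2⟩ := hU
    rw [h3] at hU1 hU2
    simp only [MonoidHom.comp_apply] at hU1 hU2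
    apply Sd.ext
    · rw [hU1]
      simp only
      rw [Finsupp.sum_mapRange_index (fun a => by rw [map_zero]; exact zero_smul (Tr ℤ (c + 1)) ((th ℤ (c + 1)) (G (x a))).m)]
      have h6 : (sub B L).mapRange (Ideal.Quotient.mk ((idv ℤ) ^ (c + 1))) (map_zero _) =
          L.sum fun i P => ∑ j ∈ B i, Finsupp.single j
            (Ideal.Quotient.mk ((idv ℤ) ^ (c + 1)) (bind₁ β P)) := by
        have h7 : (sub B L).mapRange (Ideal.Quotient.mk ((idv ℤ) ^ (c + 1))) (map_zero _) =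
            Finsupp.mapRange.addMonoidHom
              (Ideal.Quotient.mk ((idv ℤ) ^ (c + 1))).toAddMonoidHom (sub B L) := rfl
        rw [h7, hsub, map_finsuppSum]
        refine Finsupp.sum_congr fun i _ => ?_
        rw [map_sum]
        refine Finset.sum_congr rfl fun j _ => ?_
        rw [Finsupp.mapRange.addMonoidHom_apply, Finsupp.mapRange_single]
        rfl
      rw [h6]
      refine Finsupp.sum_congr fun i _ => ?_
      rw [ev_mk]
      have hg := fun j => l2_gen (c + 1) B j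
      rw [← hG] at hg
      have hs' : ∀ j, ∑ l ∈ B j, tv ℤ (c + 1) l ∈ Jd ℤ (c + 1) := fun j =>
        Ideal.sum_mem _ fun l _ => tv_mem ℤ (c + 1) l
      obtain ⟨hh1, hh2, hh3⟩ := l2_hom (J := Jd ℤ (c + 1))
        (s := fun j => (((th ℤ (c + 1) (G (x j))).f : (Tr ℤ (c + 1))ˣ) : Tr ℤ (c + 1)) - 1)
        (s' := fun j => ∑ l ∈ B j, tv ℤ (c + 1) l) (fun j => mem_UJ _) hs' (fun j => (hg j).1)
        (h1 i)
      rw [hJ, Submodule.mem_bot, sub_eq_zero] at hh3
      rw [hh3]
      have h8 := l2_kill hJ hh2 (hg i).2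
      rw [smul_sub, sub_eq_zero] at h8
      rw [h8, Finset.smul_sum]
      refine Finset.sum_congr rfl fun j _ => ?_
      rw [Finsupp.smul_single, smul_eq_mul, mul_one]
      congr 1
      have h9 : (Ideal.Quotient.mkₐ ℤ ((idv ℤ) ^ (c + 1))) (bind₁ β (L i)) =
          aeval (fun k => (Ideal.Quotient.mkₐ ℤ ((idv ℤ) ^ (c + 1))) (β k)) (L i) :=
        DFunLike.congr_fun (comp_aeval β (Ideal.Quotient.mkₐ ℤ ((idv ℤ) ^ (c + 1)))) (L i)
      have h10 : (fun k => (Ideal.Quotient.mkₐ ℤ ((idv ℤ) ^ (c + 1))) (β k)) =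
          fun j => ∑ l ∈ B j, tv ℤ (c + 1) l := by
        funext k
        rw [hβd, map_sum]
        rfl
      rw [h10] at h9
      exact h9.symm
    · apply Subtype.ext
      apply Units.ext
      rw [hU2]
      simp

/-- The leading term of the left-normed commutator, up to sign.

Proof. By `map_lc`, `th_x` and `lc_Sd` (with `c = n + 1`), `th ℤ (c + 1) (lc x c)` is
`((-1) ^ n * ∏ i < n, tv (i + 2)) • (tv 0 • e_1 - tv 1 • e_0)` with trivial group part. This is
`(-1) ^ n` times the class of `ml c (fun j => if j = 1 then 1 else if j = 0 then -1 else 0)`, because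
`∏ l ≤ c, l ≠ 1, X l = X 0 * ∏ i < n, X (i + 2)` and
`∏ l ≤ c, l ≠ 0, X l = X 1 * ∏ i < n, X (i + 2)`. Homogeneity and boundary are clear. -/
theorem lead_lc {c : ℕ} (hc : 1 ≤ c) :
    IsLead c ((-1 : ℤ) ^ (c - 1) • ml c (fun j => if j = 1 then 1 else if j = 0 then -1 else 0))
      (lc x c) := by
  obtain ⟨n, rfl⟩ : ∃ n, c = n + 1 := ⟨c - 1, by omega⟩
  rw [Nat.add_sub_cancel, l2_ml]
  have hQ : (∏ i ∈ Finset.range n, (X (i + 2) : MvPolynomial ℕ ℤ)).IsHomogeneous n := by
    have h := IsHomogeneous.prod (Finset.range n) (fun i => (X (i + 2) : MvPolynomial ℕ ℤ))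
      (fun _ => 1) (fun i _ => isHomogeneous_X _ _)
    rw [Finset.sum_const, Finset.card_range, smul_eq_mul, mul_one] at h
    exact h
  obtain ⟨Q, hQd⟩ : ∃ Q, Q = ∏ i ∈ Finset.range n, (X (i + 2) : MvPolynomial ℕ ℤ) := ⟨_, rfl⟩
  rw [← hQd] at hQ ⊢
  have hX : ∀ j : ℕ, (X j * Q : MvPolynomial ℕ ℤ).IsHomogeneous (n + 1) := by
    intro j
    have h := (isHomogeneous_X ℤ j).mul hQ
    rw [add_comm] at h
    exact h
  refine ⟨?_, ?_, ?_⟩
  · intro i
    rw [Finsupp.smul_apply, Finsupp.sub_apply, Finsupp.single_apply, Finsupp.single_apply]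
    refine (homogeneousSubmodule ℕ ℤ (n + 1)).smul_mem _ ?_
    refine (homogeneousSubmodule ℕ ℤ (n + 1)).sub_mem ?_ ?_
    · split_ifs
      · exact hX 0
      · exact Submodule.zero_mem _
    · split_ifs
      · exact hX 1
      · exact Submodule.zero_mem _
  · let D : (ℕ →₀ MvPolynomial ℕ ℤ) →+ MvPolynomial ℕ ℤ :=
      Finsupp.liftAddHom (fun i => AddMonoidHom.mulLeft (X i : MvPolynomial ℕ ℤ))
    have hD : ∀ v : ℕ →₀ MvPolynomial ℕ ℤ, D v = v.sum fun i P => X i * P := fun v => rfl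
    rw [← hD, map_zsmul, map_sub, hD, hD, Finsupp.sum_single_index (mul_zero _),
      Finsupp.sum_single_index (mul_zero _)]
    have e : X 1 * (X 0 * Q) - X 0 * (X 1 * Q) = (0 : MvPolynomial ℕ ℤ) := by ring
    rw [e, smul_zero]
  · rw [map_lc]
    have e1 : (fun i => th ℤ (n + 1 + 1) (x i)) = fun i =>
        (⟨Finsupp.single i 1, uu (Jd_pow ℤ (n + 1 + 1)) (tv ℤ (n + 1 + 1) i)
          (tv_mem ℤ (n + 1 + 1) i)⟩ : TG (Jd ℤ (n + 1 + 1)) (ℕ →₀ Tr ℤ (n + 1 + 1))) := by
      funext i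
      exact th_x ℤ (n + 1 + 1) i
    rw [e1]
    have h := lc_Sd (ρ := (UJ (Jd ℤ (n + 1 + 1))).subtype)
      (fun i => (Finsupp.single i 1 : ℕ →₀ Tr ℤ (n + 1 + 1)))
      (fun i => uu (Jd_pow ℤ (n + 1 + 1)) (tv ℤ (n + 1 + 1) i) (tv_mem ℤ (n + 1 + 1) i)) n
    rw [h]
    have e2 : ∀ i : ℕ, (((UJ (Jd ℤ (n + 1 + 1))).subtype (uu (Jd_pow ℤ (n + 1 + 1))
        (tv ℤ (n + 1 + 1) i) (tv_mem ℤ (n + 1 + 1) i)) : (Tr ℤ (n + 1 + 1))ˣ) :
          Tr ℤ (n + 1 + 1)) - 1 = tv ℤ (n + 1 + 1) i := by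
      intro i
      rw [Subgroup.subtype_apply, coe_uu, add_sub_cancel_left]
    simp only [e2]
    congr 1
    have h7 : (((-1 : ℤ) ^ n • (Finsupp.single 1 (X 0 * Q) - Finsupp.single 0 (X 1 * Q)) :
        ℕ →₀ MvPolynomial ℕ ℤ)).mapRange (Ideal.Quotient.mk ((idv ℤ) ^ (n + 1 + 1)))
          (map_zero _) =
        Finsupp.mapRange.addMonoidHom
          (Ideal.Quotient.mk ((idv ℤ) ^ (n + 1 + 1))).toAddMonoidHom
            ((-1 : ℤ) ^ n • (Finsupp.single 1 (X 0 * Q) - Finsupp.single 0 (X 1 * Q))) := rfl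
    rw [h7, map_zsmul, map_sub, Finsupp.mapRange.addMonoidHom_apply,
      Finsupp.mapRange.addMonoidHom_apply, Finsupp.mapRange_single, Finsupp.mapRange_single]
    have e3 : (Ideal.Quotient.mk ((idv ℤ) ^ (n + 1 + 1))) Q =
        ∏ i ∈ Finset.range n, tv ℤ (n + 1 + 1) (i + 2) := by
      rw [hQd, map_prod]
      rfl
    have e4 : ∀ j : ℕ, (Ideal.Quotient.mk ((idv ℤ) ^ (n + 1 + 1))).toAddMonoidHom (X j * Q) =
        tv ℤ (n + 1 + 1) j * ∏ i ∈ Finset.range n, tv ℤ (n + 1 + 1) (i + 2) := by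
      intro j
      rw [← e3]
      exact map_mul (Ideal.Quotient.mk ((idv ℤ) ^ (n + 1 + 1))) (X j) Q
    rw [e4, e4]
    generalize (∏ i ∈ Finset.range n, tv ℤ (n + 1 + 1) (i + 2)) = R
    rw [smul_sub, Finsupp.smul_single, Finsupp.smul_single, Finsupp.smul_single,
      Finsupp.smul_single]
    simp only [smul_eq_mul, mul_one]
    rcases Nat.even_or_odd n with hn | hn
    · have h1 : (-1 : ℤ) ^ n = 1 := hn.neg_one_pow
      have h2 := l2_even (R := Tr ℤ (n + 1 + 1)) hn
      rw [h1, one_smul]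
      congr 1
      · congr 1
        linear_combination (R * tv ℤ (n + 1 + 1) 0) * h2
      · congr 1
        linear_combination (R * tv ℤ (n + 1 + 1) 1) * h2
    · have h1 : (-1 : ℤ) ^ n = -1 := hn.neg_one_pow
      have h2 := l2_odd (R := Tr ℤ (n + 1 + 1)) hn
      have ha : (-1) ^ n * R * tv ℤ (n + 1 + 1) 0 = -(tv ℤ (n + 1 + 1) 0 * R) := by
        linear_combination (R * tv ℤ (n + 1 + 1) 0) * h2
      have hb : (-1) ^ n * R * tv ℤ (n + 1 + 1) 1 = -(tv ℤ (n + 1 + 1) 1 * R) := by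
        linear_combination (R * tv ℤ (n + 1 + 1) 1) * h2
      rw [h1, neg_one_smul, ha, hb, Finsupp.single_neg, Finsupp.single_neg]
      abel

end Pool.Agent.Lib.MP_4c5e24_al
end

section

set_option autoImplicit false

/-!
RIG-LIN2: irreducibility of the multilinear part.
-/

namespace Pool.Agent.Lib.MP_4c5e24_al

open MvPolynomial

private theorem lin2_sub_zero (B : ℕ → Finset ℕ) : sub B 0 = 0 := by
  unfold sub
  exact Finsupp.sum_zero_index

private theorem lin2_sub_add (B : ℕ → Finset ℕ) (v w : ℕ →₀ MvPolynomial ℕ ℤ) :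
    sub B (v + w) = sub B v + sub B w := by
  unfold sub
  apply Finsupp.sum_add_index'
  · intro i
    simp
  · intro i P Q
    rw [← Finset.sum_add_distrib]
    exact Finset.sum_congr rfl fun j _ => by rw [map_add, Finsupp.single_add]

private theorem lin2_sub_sum {κ : Type} (B : ℕ → Finset ℕ) (s : Finset κ)
    (v : κ → ℕ →₀ MvPolynomial ℕ ℤ) : sub B (∑ i ∈ s, v i) = ∑ i ∈ s, sub B (v i) :=
  map_sum ({ toFun := sub B, map_zero' := lin2_sub_zero B, map_add' := lin2_sub_add B } :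
    (ℕ →₀ MvPolynomial ℕ ℤ) →+ (ℕ →₀ MvPolynomial ℕ ℤ)) v s

private theorem lin2_sub_single (B : ℕ → Finset ℕ) (i : ℕ) (P : MvPolynomial ℕ ℤ) :
    sub B (Finsupp.single i P) =
      ∑ j ∈ B i, Finsupp.single j (bind₁ (fun k => ∑ l ∈ B k, X l) P) := by
  unfold sub
  apply Finsupp.sum_single_index
  simp

private theorem lin2_ml_sub (c : ℕ) (α β : ℕ → ℤ) :
    ml c α - ml c β = ml c (fun i => α i - β i) := by
  unfold ml
  rw [← Finset.sum_sub_distrib]
  exact Finset.sum_congr rfl fun j _ => by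
    rw [← Finsupp.single_sub, ← sub_mul, ← C_sub]

private theorem lin2_ml_smul (c : ℕ) (z : ℤ) (α : ℕ → ℤ) :
    z • ml c α = ml c (fun i => z * α i) := by
  unfold ml
  rw [Finset.smul_sum]
  refine Finset.sum_congr rfl fun j _ => ?_
  rw [Finsupp.smul_single, C_mul, mul_assoc]
  congr 1
  rw [zsmul_eq_mul, ← eq_intCast (C : ℤ →+* MvPolynomial ℕ ℤ)]

private theorem lin2_swap {c a b : ℕ} (ha : a ≤ c) (hb : b ≤ c) (j : ℕ) :
    Equiv.swap a b j ≤ c ↔ j ≤ c := by
  rw [Equiv.swap_apply_def]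
  split_ifs with h1 h2
  · rw [h1]; exact iff_of_true hb ha
  · rw [h2]; exact iff_of_true ha hb
  · rfl

/-- Permutations of the variables act on the multilinear vectors.

Proof: `B i = {σ i}` for `i ≤ c`: `sub B (ml c α) = ml c (α ∘ σ⁻¹)`: `sub` is additive in `v`,
`bind₁` maps `∏ l ≠ j, X l` to `∏ l ≠ j, X (σ l) = ∏ l ≠ σ j, X l`. -/
theorem sub_ml {c : ℕ} (α : ℕ → ℤ) (σ : Equiv.Perm ℕ) (hσ : ∀ j, σ j ≤ c ↔ j ≤ c) :
    sub (fun i => {σ i}) (ml c α) = ml c (fun j => α (σ.symm j)) := by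
  have hr : ∀ j, σ j ∈ Finset.range (c + 1) ↔ j ∈ Finset.range (c + 1) := by
    intro j
    rw [Finset.mem_range, Finset.mem_range, Nat.lt_succ_iff, Nat.lt_succ_iff]
    exact hσ j
  unfold ml
  rw [lin2_sub_sum]
  simp only [lin2_sub_single, Finset.sum_singleton]
  refine Finset.sum_equiv σ (fun j => (hr j).symm) fun j _ => ?_
  rw [Equiv.symm_apply_apply, map_mul, bind₁_C_right, map_prod]
  congr 2
  refine Finset.prod_equiv σ (fun l => ?_) fun l _ => ?_
  · rw [Finset.mem_erase, Finset.mem_erase, hr, Ne, Ne, σ.injective.eq_iff]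
  · rw [bind₁_X_right]

/-- The coefficients of a multilinear vector whose boundary vanishes have sum zero.

Proof: `∑ j ≤ c, X j * (C (α j) * ∏ l ≠ j, X l) = C (∑ j ≤ c, α j) * ∏ l ≤ c, X l`, and the
product is not zero. -/
theorem ml_bd {c : ℕ} {α : ℕ → ℤ} (h : (ml c α).sum (fun i P => X i * P) = 0) :
    ∑ j ∈ Finset.range (c + 1), α j = 0 := by
  have h1 : (ml c α).sum (fun i P => X i * P) =
      C (∑ j ∈ Finset.range (c + 1), α j) * ∏ l ∈ Finset.range (c + 1), X l := by
    unfold ml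
    rw [← Finsupp.sum_finsetSum_index (fun i => mul_zero _) (fun i P Q => mul_add _ _ _),
      map_sum, Finset.sum_mul]
    refine Finset.sum_congr rfl fun j hj => ?_
    rw [Finsupp.sum_single_index (mul_zero _), ← Finset.mul_prod_erase _ _ hj]
    ring
  rw [h1, mul_eq_zero] at h
  rcases h with h | h
  · exact (C_eq_zero).1 h
  · rw [Finset.prod_eq_zero_iff] at h
    obtain ⟨l, _, hl⟩ := h
    exact absurd hl (X_ne_zero l)

/-- Proof. By `lin1` there is `ml c α ∈ K` with `α j ≠ 0` for some `j ≤ c`. By `ml_bd` the sum of the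
`α j`, `j ≤ c`, is `0`, so there are `j, k ≤ c` with `α j ≠ α k` (otherwise all are equal to `α j ≠ 0` and the
sum is `(c + 1) α j ≠ 0`). Let `σ` be the transposition of `j` and `k`:
`ml c α - ml c (α ∘ σ) = ml c β ∈ K` (`sub_ml`) with `β j = α j - α k = - β k` and `β = 0` at the other
indices `≤ c`. Applying a permutation of `{0, …, c}` which maps `j` to `1` and `k` to `0` and if
necessary a sign (`K` is a subgroup) we get `N • (e_1 ∏ l ≠ 1, X l - e_0 ∏ l ≠ 0, X l) ∈ K` with
`N = |α j - α k| ≠ 0`. -/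
theorem lin2 {c : ℕ} (hc : 1 ≤ c) (K : AddSubgroup (ℕ →₀ MvPolynomial ℕ ℤ))
    (hhom : ∀ v ∈ K, ∀ i, (v i).IsHomogeneous c)
    (hbd : ∀ v ∈ K, v.sum (fun i P => X i * P) = 0)
    (hsub : ∀ v ∈ K, ∀ B : ℕ → Finset ℕ, sub B v ∈ K)
    {v : ℕ →₀ MvPolynomial ℕ ℤ} (hv : v ∈ K) (hv0 : v ≠ 0) :
    ∃ N : ℕ, N ≠ 0 ∧ N • ml c (fun j => if j = 1 then 1 else if j = 0 then -1 else 0) ∈ K := by
  obtain ⟨α, hα, j, hj, hαj⟩ := lin1 K hhom hsub hv hv0
  have hsum := ml_bd (hbd _ hα)
  have hex : ∃ k ≤ c, α j ≠ α k := by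
    by_contra hcon
    push Not at hcon
    have h1 : ∑ i ∈ Finset.range (c + 1), α i = ∑ i ∈ Finset.range (c + 1), α j :=
      Finset.sum_congr rfl fun i hi => (hcon i (Nat.lt_succ_iff.1 (Finset.mem_range.1 hi))).symm
    rw [h1, Finset.sum_const, Finset.card_range, nsmul_eq_mul, mul_eq_zero] at hsum
    rcases hsum with h | h
    · exact absurd h (by exact_mod_cast Nat.succ_ne_zero c)
    · exact hαj h
  obtain ⟨k, hk, hjk⟩ := hex
  have hne : j ≠ k := fun h => hjk (by rw [h])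
  have h1 : ml c (fun i => α i - α ((Equiv.swap j k).symm i)) ∈ K := by
    rw [← lin2_ml_sub]
    refine K.sub_mem hα ?_
    rw [← sub_ml α (Equiv.swap j k) (lin2_swap hj hk)]
    exact hsub _ hα _
  set k' : ℕ := Equiv.swap j 1 k with hk'
  have hk'c : k' ≤ c := (lin2_swap hj hc k).2 hk
  have hk'1 : k' ≠ 1 := by
    intro h
    have h2 : Equiv.swap j 1 k = Equiv.swap j 1 j := by rw [← hk', h, Equiv.swap_apply_left]
    exact hne ((Equiv.swap j 1).injective h2).symm
  set π : Equiv.Perm ℕ := (Equiv.swap j 1).trans (Equiv.swap k' 0) with hπ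
  have hπj : π j = 1 := by
    rw [hπ, Equiv.trans_apply, Equiv.swap_apply_left,
      Equiv.swap_apply_of_ne_of_ne hk'1.symm one_ne_zero]
  have hπk : π k = 0 := by
    rw [hπ, Equiv.trans_apply, ← hk', Equiv.swap_apply_left]
  have hπc : ∀ i, π i ≤ c ↔ i ≤ c := by
    intro i
    rw [hπ, Equiv.trans_apply, lin2_swap hk'c (Nat.zero_le c), lin2_swap hj hc]
  have h2 : ml c (fun i => α (π.symm i) - α ((Equiv.swap j k).symm (π.symm i))) ∈ K := by
    rw [← sub_ml (fun i => α i - α ((Equiv.swap j k).symm i)) π hπc]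
    exact hsub _ h1 _
  have h3 : (fun i => α (π.symm i) - α ((Equiv.swap j k).symm (π.symm i))) =
      fun i => (α j - α k) * (if i = 1 then 1 else if i = 0 then -1 else 0) := by
    funext i
    rw [Equiv.symm_swap]
    by_cases hi1 : i = 1
    · have : π.symm i = j := by rw [Equiv.symm_apply_eq, hπj, hi1]
      rw [this, if_pos hi1, Equiv.swap_apply_left, mul_one]
    · by_cases hi0 : i = 0
      · have : π.symm i = k := by rw [Equiv.symm_apply_eq, hπk, hi0]
        rw [this, if_neg hi1, if_pos hi0, Equiv.swap_apply_right]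
        ring
      · rw [if_neg hi1, if_neg hi0, Equiv.swap_apply_of_ne_of_ne, sub_self, mul_zero]
        · intro h
          rw [Equiv.symm_apply_eq, hπj] at h
          exact hi1 h
        · intro h
          rw [Equiv.symm_apply_eq, hπk] at h
          exact hi0 h
  rw [h3, ← lin2_ml_smul] at h2
  refine ⟨(α j - α k).natAbs, ?_, ?_⟩
  · rw [Int.natAbs_ne_zero]
    exact sub_ne_zero.2 hjk
  · rcases Int.natAbs_eq (α j - α k) with h | h
    · rw [← natCast_zsmul, ← h]
      exact h2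
    · rw [← natCast_zsmul]
      have h4 : (((α j - α k).natAbs : ℕ) : ℤ) = -(α j - α k) := by rw [h]; simp
      rw [h4, neg_smul]
      exact K.neg_mem h2

end Pool.Agent.Lib.MP_4c5e24_al
end
end
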