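import Pool.Agent.Lib.MP_4c5e24_al.Fin

set_option autoImplicit false

/-!
RIG2-Pr1: the product of two varieties.
-/

namespace Pool.Agent.Lib.MP_4c5e24_al

open scoped commutatorElement

/-- The laws of the product variety `U X` (the groups with a normal subgroup in `U` whose quotient is
in `X`): the fully invariant subgroup generated by the values of the words of `U` at elements
of `X`. -/
def prd (U X : FI) : FI :=
  ⟨Subgroup.closure {y | ∃ u ∈ U.1, ∃ φ : F →* F, (∀ g, φ g ∈ X.1) ∧ y = φ u}, fun ψ => by
    rw [MonoidHom.map_closure, Subgroup.closure_le]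
    rintro _ ⟨_, ⟨u, hu, φ, hφ, rfl⟩, rfl⟩
    exact Subgroup.subset_closure ⟨u, hu, ψ.comp φ, fun g => X.map_mem ψ (hφ g), rfl⟩⟩

theorem mem_prd {U X : FI} {u : F} (hu : u ∈ U.1) (φ : F →* F) (hφ : ∀ g, φ g ∈ X.1) :
    φ u ∈ (prd U X).1 := Subgroup.subset_closure ⟨u, hu, φ, hφ, rfl⟩

theorem prd_le {U X K : FI} :
    prd U X ≤ K ↔ ∀ u ∈ U.1, ∀ φ : F →* F, (∀ g, φ g ∈ X.1) → φ u ∈ K.1 := by
  constructor
  · intro h u hu φ hφ
    exact h (mem_prd hu φ hφ)
  · intro h
    refine (Subgroup.closure_le _).2 ?_
    rintro _ ⟨u, hu, φ, hφ, rfl⟩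
    exact h u hu φ hφ

/-- An extension of a group in `U` by a group in `X` satisfies the laws `prd U X`.

Proof. Let `f : F →* G`, `u ∈ U`, `φ : F →* F` with values in `X`. Then `f ∘ φ` has values in the
kernel of `π` (`X ≤ Laws Q`), so it is a homomorphism `F →* π.ker` followed by the inclusion
(`MonoidHom.codRestrict`), and `u` is a law of `π.ker`. -/
theorem prd_le_Laws {G Q : Type} [Group G] [Group Q] {U X : FI} (π : G →* Q) (hX : X ≤ Laws Q)
    (hU : U ≤ Laws π.ker) : prd U X ≤ Laws G := by
  rw [prd_le]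
  intro u hu φ hφ f
  have h1 : ∀ y : F, f (φ y) ∈ π.ker := fun y => by
    rw [MonoidHom.mem_ker]
    exact hX (hφ y) (π.comp f)
  have h2 : (f.comp φ).codRestrict π.ker h1 u = 1 := hU hu _
  exact congrArg Subtype.val h2

private theorem pr1_lift_mem {H : Subgroup F} (c : ℕ → F) (hc : ∀ i, c i ∈ H) (g : F) :
    FreeGroup.lift c g ∈ H := by
  refine FreeGroup.induction_on (C := fun g => FreeGroup.lift c g ∈ H) g ?_ ?_ ?_ ?_
  · rw [map_one]
    exact H.one_mem
  · intro j
    rw [FreeGroup.lift_apply_of]
    exact hc j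
  · intro j hj
    rw [map_inv]
    exact H.inv_mem hj
  · intro a b ha hb
    rw [map_mul]
    exact H.mul_mem ha hb

/-- Proof. `≥`: `AP_le`: for `h ∈ X`, `h ^ n` is the image of `x 0 ^ n ∈ Ab n` (`mem_Ab`) under the
endomorphism which maps all generators to `h` (its values are powers of `h`, in `X`); for
`h, k ∈ X`, `⁅h, k⁆` is the image of `⁅x 0, x 1⁆` under `x 0 ↦ h`, `x i ↦ k` (`i ≥ 1`). `≤`: let
`u ∈ Ab n` and `φ` with values in `X`. The group `X.1 ⧸ (AP n X)` is abelian of exponent dividing `n`, so
it satisfies `Ab n` (`Ab_le_Laws_comm` in `Dq1b`): more precisely apply this to the commutative group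
`(X.1).map (QuotientGroup.mk' (AP n X).1)`, a subgroup of `F ⧸ (AP n X).1` whose elements commute and
have trivial `n`-th power. -/
theorem prd_Ab (n : ℕ) (X : FI) : prd (Ab n) X = AP n X := by
  apply le_antisymm
  · rw [prd_le]
    intro u hu φ hφ
    obtain ⟨N, hN⟩ : ∃ N : FI, N = AP n X := ⟨_, rfl⟩
    have hNn : N.1.Normal := N.normal
    obtain ⟨A, hA⟩ : ∃ A : Subgroup (F ⧸ N.1), A = X.1.map (QuotientGroup.mk' N.1) := ⟨_, rfl⟩
    have hmem : ∀ a ∈ A, ∃ y ∈ X.1, QuotientGroup.mk' N.1 y = a := fun a ha => by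
      rw [hA] at ha
      exact ha
    have hcomm : ∀ a b : A, a * b = b * a := by
      rintro ⟨a, ha⟩ ⟨b, hb⟩
      obtain ⟨y, hy, rfl⟩ := hmem a ha
      obtain ⟨z, hz, rfl⟩ := hmem b hb
      apply Subtype.ext
      show QuotientGroup.mk' N.1 y * QuotientGroup.mk' N.1 z =
        QuotientGroup.mk' N.1 z * QuotientGroup.mk' N.1 y
      rw [← commutatorElement_eq_one_iff_mul_comm, ← map_commutatorElement,
        QuotientGroup.mk'_apply, QuotientGroup.eq_one_iff, hN]
      exact comm_mem_AP hy hz
    let _ : CommGroup A := { (inferInstance : Group A) with mul_comm := hcomm }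
    have hpow : ∀ a : A, a ^ n = 1 := by
      rintro ⟨a, ha⟩
      obtain ⟨y, hy, rfl⟩ := hmem a ha
      apply Subtype.ext
      show QuotientGroup.mk' N.1 y ^ n = 1
      rw [← map_pow, QuotientGroup.mk'_apply, QuotientGroup.eq_one_iff, hN]
      exact pow_mem_AP hy
    have h1 : Ab n ≤ Laws A := Ab_le_Laws_comm hpow
    have h2 : ∀ y : F, QuotientGroup.mk' N.1 (φ y) ∈ A := fun y => by
      rw [hA]
      exact ⟨φ y, hφ y, rfl⟩
    have h3 : ((QuotientGroup.mk' N.1).comp φ).codRestrict A h2 u = 1 := h1 hu _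
    have h4 : QuotientGroup.mk' N.1 (φ u) = 1 := congrArg Subtype.val h3
    rw [QuotientGroup.mk'_apply, QuotientGroup.eq_one_iff, hN] at h4
    exact h4
  · rw [AP_le]
    constructor
    · intro h hh
      have h1 : x 0 ^ n ∈ (Ab n).1 := Bn_le_Ab n (pow_mem_Bn n _)
      have h2 := mem_prd (X := X) h1 (FreeGroup.lift fun _ => h)
        (pr1_lift_mem _ fun _ => hh)
      rwa [map_pow, FreeGroup.lift_apply_of] at h2
    · intro h hh k hk
      have h1 : ⁅x 0, x 1⁆ ∈ (Ab n).1 := fun f => by
        rw [map_commutatorElement, commutatorElement_eq_one_iff_mul_comm, mul_comm]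
      have h2 := mem_prd (X := X) h1 (FreeGroup.lift fun i => if i = 0 then h else k)
        (pr1_lift_mem _ fun i => by split <;> assumption)
      rwa [map_commutatorElement, FreeGroup.lift_apply_of, FreeGroup.lift_apply_of, if_pos rfl,
        if_neg (by norm_num)] at h2

/-- Proof: if `U ≤ U'`, `X ≤ X'` use `prd_le`, `mem_prd`. -/
theorem prd_mono {U U' X X' : FI} (hU : U ≤ U') (hX : X ≤ X') : prd U X ≤ prd U' X' := by
  rw [prd_le]
  intro u hu φ hφ
  exact mem_prd (hU hu) φ fun g => hX (hφ g)

private theorem pr1_derived (t s : ℕ) : derivedSeries F (t + s) =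
    (derivedSeries (derivedSeries F t) s).map (derivedSeries F t).subtype := by
  induction s with
  | zero =>
    rw [derivedSeries_zero, ← MonoidHom.range_eq_map, Subgroup.range_subtype, add_zero]
  | succ s ih =>
    rw [← add_assoc, derivedSeries_succ, derivedSeries_succ, ih, Subgroup.map_commutator]

/-- The product of solvable varieties is solvable.

Proof. By induction on `s` show for every `s`: if `K` is a subgroup of `F` contained in `X.1`, then every
element of the `s`-th derived subgroup of `K` (as a subgroup of `F`: define `D 0 = K`,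
`D (s + 1) = ⁅D s, D s⁆`) is of the form `φ u` with `u ∈ derivedSeries F s` and `φ : F →* F` with
values in `X.1`; only for generated elements: more convenient is the following. Let
`G = F ⧸ (prd U X).1`, `N` the image of `X.1`, a normal subgroup which satisfies the laws `U`:
for `f : F →* N` and `u ∈ U`, `f` lifts to `φ : F →* F` with values in `X.1` (choose preimages of the
`f (x i)` in `X.1`), and `φ u ∈ prd U X`. So `derivedSeries N s = ⊥` (apply the law: every element of
`derivedSeries N s` is the image of an element of `derivedSeries F s` under some homomorphism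
`F →* N`? this holds because `N` is countable and hence a quotient of `F`, `N = f(F)`;
`map_derivedSeries_eq`). And `G ⧸ N` is a quotient of `F ⧸ X.1`, so `derivedSeries G t ≤ N`. Then
`derivedSeries G (t + s) = ⊥` (the derived series of `G` from step `t` on is contained in the derived
series of `N`, mapped to `G`), that is `der (s + t) ≤ prd U X`. -/
theorem der_le_prd {U X : FI} {s t : ℕ} (hU : der s ≤ U) (hX : der t ≤ X) :
    der (s + t) ≤ prd U X := by
  refine le_trans ?_ (prd_mono hU hX)
  intro w hw
  have hw' : w ∈ derivedSeries F (t + s) := by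
    rw [add_comm]
    exact hw
  rw [pr1_derived] at hw'
  obtain ⟨v, hv, rfl⟩ := hw'
  have hc : Countable F := by
    have : Function.Surjective (FreeGroup.mk : List (ℕ × Bool) → F) := fun g =>
      ⟨g.toWord, FreeGroup.mk_toWord⟩
    exact this.countable
  obtain ⟨e, he⟩ := exists_surjective_nat (derivedSeries F t)
  have hf : Function.Surjective (FreeGroup.lift e : F →* derivedSeries F t) := fun y => by
    obtain ⟨i, hi⟩ := he y
    exact ⟨x i, by rw [FreeGroup.lift_apply_of, hi]⟩
  have hv' : v ∈ derivedSeries (derivedSeries F t) s := hv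
  rw [← map_derivedSeries_eq hf] at hv'
  obtain ⟨u, hu, rfl⟩ := hv'
  exact mem_prd (U := der s) (X := der t) hu ((derivedSeries F t).subtype.comp (FreeGroup.lift e))
    fun g => (FreeGroup.lift e g : derivedSeries F t).2

end Pool.Agent.Lib.MP_4c5e24_al
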