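import Mathlib
import Pool.Agent.Lib.MP_4c5e24_al.Fin
import Pool.Agent.Lib.MP_4c5e24_al.Dq2
import Pool.Agent.Lib.MP_4c5e24_al.Pr1

section

section

set_option autoImplicit false

/-!
RIG2-Ps2: the minimal nonabelian metabelian varieties of exponent `p q`.
-/

namespace Pool.Agent.Lib.MP_4c5e24_al

open scoped commutatorElement

/-- The laws of the nonabelian metabelian varieties of exponent `p q` in which the groups of exponents
`p` and `q` are abelian. -/
structure Sm (p q : ℕ) (H : FI) : Prop where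
  met : der 2 ≤ H
  ab : H ⊔ Ab 0 = Ab (p * q)
  bp : H ⊔ Bn p = Ab p
  bq : H ⊔ Bn q = Ab q
  ne : H ≠ Ab (p * q)

/-- Proof: `p * q = q * p`. -/
theorem Sm.swap {p q : ℕ} {H : FI} (h : Sm p q H) : Sm q p H where
  met := h.met
  ab := by rw [mul_comm]; exact h.ab
  bp := h.bq
  bq := h.bp
  ne := by rw [mul_comm]; exact h.ne

/-- Proof. `der 2 = AP 0 (der 1) = AP 0 (Ab 0) ≤ AP p (Ab q)` (`der_succ`, `der_one`, `AP_mono`).
`AP_Ab_sup_Ab0`, `AP_sup_Bn`, `AP_Ab_sup_Bn` (file `Dq1`; `Bn_le_Ab`). If `AP p (Ab q) = Ab (p * q)`,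
then `AP 0 (Ab p) ≤ Ab 0 ≤ AP p (Ab q)`, against `not_AP0_le`. -/
theorem Sm_AP {p q : ℕ} (hp : p.Prime) (hq : q.Prime) (hpq : p ≠ q) : Sm p q (AP p (Ab q)) where
  met := by
    rw [der_succ, der_one]
    refine AP_le.2 ⟨fun h _ => ?_, fun h hh k hk =>
      comm_mem_AP (Ab0_le_Ab q hh) (Ab0_le_Ab q hk)⟩
    rw [pow_zero]
    exact one_mem _
  ab := AP_Ab_sup_Ab0 p q
  bp := AP_sup_Bn ((Nat.coprime_primes hp hq).2 hpq) (Bn_le_Ab q)
  bq := AP_Ab_sup_Bn ((Nat.coprime_primes hp hq).2 hpq)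
  ne := by
    intro h
    have h4 : Ab 0 ≤ AP p (Ab q) := by
      rw [h]
      exact Ab0_le_Ab _
    refine not_AP0_le hp hq hpq (le_trans ?_ h4)
    refine AP_le.2 ⟨fun h _ => ?_, fun h _ k _ => ?_⟩
    · rw [pow_zero]
      exact one_mem _
    · rw [mem_Ab]
      intro i
      rw [ex_comm]
      exact dvd_zero _

section Ps2aux

variable {G : Type} [Group G]

private theorem ps2_pow {r t : ℕ} (hrt : Nat.Coprime r t) (hexp : ∀ g : G, g ^ (r * t) = 1)
    (N : Subgroup G) (hN : ∀ n ∈ N, n ^ r = 1) {s : G} (hs : s ^ r ∈ N) : s ^ r = 1 := by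
  have h1 : (s ^ r) ^ r = 1 := hN _ hs
  have h2 : (s ^ r) ^ t = 1 := by rw [← pow_mul]; exact hexp s
  have h3 := pow_gcd_eq_one.2 ⟨h1, h2⟩
  rwa [hrt.gcd_eq_one, pow_one] at h3

private theorem ps2_comm {r t : ℕ} (hrt : Nat.Coprime r t) (hexp : ∀ g : G, g ^ (r * t) = 1)
    (h1 : ∀ S : Subgroup G, (∀ s ∈ S, s ^ r = 1) → ∀ a ∈ S, ∀ b ∈ S, a * b = b * a)
    (N : Subgroup G) [N.Normal] (hN : ∀ n ∈ N, n ^ r = 1) {g h : G} (hg : g ^ r ∈ N)
    (hh : h ^ r ∈ N) (hc : ⁅g, h⁆ ∈ N) : g * h = h * g := by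
  refine h1 (Subgroup.closure {g, h}) ?_ g (Subgroup.subset_closure (by simp)) h
    (Subgroup.subset_closure (by simp))
  have hcom : Commute (QuotientGroup.mk' N g) (QuotientGroup.mk' N h) := by
    rw [← commutatorElement_eq_one_iff_commute, ← map_commutatorElement]
    exact (QuotientGroup.eq_one_iff _).2 hc
  have hgr : (QuotientGroup.mk' N g) ^ r = 1 := by
    rw [← map_pow]
    exact (QuotientGroup.eq_one_iff _).2 hg
  have hhr : (QuotientGroup.mk' N h) ^ r = 1 := by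
    rw [← map_pow]
    exact (QuotientGroup.eq_one_iff _).2 hh
  have key : ∀ s ∈ Subgroup.closure {g, h}, ∃ i j : ℤ,
      QuotientGroup.mk' N s = (QuotientGroup.mk' N g) ^ i * (QuotientGroup.mk' N h) ^ j := by
    intro s hs
    induction hs using Subgroup.closure_induction with
    | mem y hy =>
      rcases hy with rfl | hy
      · exact ⟨1, 0, by rw [zpow_one, zpow_zero, mul_one]⟩
      · rw [Set.mem_singleton_iff] at hy
        subst hy
        exact ⟨0, 1, by rw [zpow_one, zpow_zero, one_mul]⟩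
    | one => exact ⟨0, 0, by rw [map_one, zpow_zero, zpow_zero, mul_one]⟩
    | mul a b _ _ iha ihb =>
      obtain ⟨i, j, hij⟩ := iha
      obtain ⟨k, l, hkl⟩ := ihb
      refine ⟨i + k, j + l, ?_⟩
      rw [map_mul, hij, hkl, zpow_add, zpow_add]
      have h5 : (QuotientGroup.mk' N h) ^ j * (QuotientGroup.mk' N g) ^ k =
          (QuotientGroup.mk' N g) ^ k * (QuotientGroup.mk' N h) ^ j :=
        (hcom.zpow_zpow k j).symm
      rw [mul_assoc, ← mul_assoc ((QuotientGroup.mk' N h) ^ j), h5]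
      simp only [mul_assoc]
    | inv a _ iha =>
      obtain ⟨i, j, hij⟩ := iha
      refine ⟨-i, -j, ?_⟩
      rw [map_inv, hij, mul_inv_rev, zpow_neg, zpow_neg, ← mul_inv_rev, ← mul_inv_rev,
        (hcom.zpow_zpow i j)]
  intro s hs
  obtain ⟨i, j, hij⟩ := key s hs
  refine ps2_pow hrt hexp N hN ?_
  rw [← QuotientGroup.eq_one_iff]
  change QuotientGroup.mk' N (s ^ r) = 1
  rw [map_pow, hij, (hcom.zpow_zpow i j).mul_pow, ← zpow_natCast, ← zpow_natCast, ← zpow_mul,
    ← zpow_mul, mul_comm i, mul_comm j, zpow_mul, zpow_mul, zpow_natCast, zpow_natCast, hgr, hhr,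
    one_zpow, one_zpow, mul_one]

private def ps2N (hm : ∀ a ∈ commutator G, ∀ b ∈ commutator G, a * b = b * a) (r : ℕ) :
    Subgroup G where
  carrier := {a | a ∈ commutator G ∧ a ^ r = 1}
  mul_mem' := by
    rintro a b ⟨ha, ha'⟩ ⟨hb, hb'⟩
    refine ⟨mul_mem ha hb, ?_⟩
    have hc : Commute a b := hm a ha b hb
    rw [hc.mul_pow, ha', hb', mul_one]
  one_mem' := ⟨one_mem _, one_pow _⟩
  inv_mem' := by
    rintro a ⟨ha, ha'⟩
    exact ⟨inv_mem ha, by rw [inv_pow, ha', inv_one]⟩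

private theorem ps2_mem_N (hm : ∀ a ∈ commutator G, ∀ b ∈ commutator G, a * b = b * a) (r : ℕ)
    (a : G) : a ∈ ps2N hm r ↔ a ∈ commutator G ∧ a ^ r = 1 := Iff.rfl

private theorem ps2_N_normal (hm : ∀ a ∈ commutator G, ∀ b ∈ commutator G, a * b = b * a)
    (r : ℕ) : (ps2N hm r).Normal := by
  constructor
  intro a ha g
  rw [ps2_mem_N] at ha ⊢
  refine ⟨Subgroup.Normal.conj_mem inferInstance a ha.1 g, ?_⟩
  rw [conj_pow, ha.2, mul_one, mul_inv_cancel]

/-- elements of exponent `r` centralise the `r`-part of the derived subgroup -/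
private theorem ps2_claim1 {r t : ℕ} (hrt : Nat.Coprime r t) (hexp : ∀ g : G, g ^ (r * t) = 1)
    (hm : ∀ a ∈ commutator G, ∀ b ∈ commutator G, a * b = b * a)
    (h1 : ∀ S : Subgroup G, (∀ s ∈ S, s ^ r = 1) → ∀ a ∈ S, ∀ b ∈ S, a * b = b * a)
    {g a : G} (hg : g ^ r = 1) (ha : a ∈ commutator G) (har : a ^ r = 1) : g * a = a * g := by
  have := ps2_N_normal hm r
  have haN : a ∈ ps2N hm r := ⟨ha, har⟩
  refine ps2_comm hrt hexp h1 (ps2N hm r) (fun n hn => hn.2) ?_ ?_ ?_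
  · rw [hg]; exact one_mem _
  · rw [har]; exact one_mem _
  · rw [commutatorElement_def]
    exact mul_mem (this.conj_mem a haN g) (inv_mem haN)

private theorem ps2_split {r t : ℕ} (hrt : Nat.Coprime r t) (hexp : ∀ g : G, g ^ (r * t) = 1)
    (g : G) : ∃ i j : ℤ, g = g ^ i * g ^ j ∧ (g ^ i) ^ r = 1 ∧ (g ^ j) ^ t = 1 := by
  have h1 := Nat.gcd_eq_gcd_ab r t
  rw [hrt.gcd_eq_one] at h1
  refine ⟨(t : ℤ) * r.gcdB t, (r : ℤ) * r.gcdA t, ?_, ?_, ?_⟩
  · rw [← zpow_add, add_comm, ← h1]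
    simp
  · rw [← zpow_natCast, ← zpow_mul]
    have : (t : ℤ) * r.gcdB t * (r : ℤ) = ((r * t : ℕ) : ℤ) * r.gcdB t := by push_cast; ring
    rw [this, zpow_mul, zpow_natCast, hexp, one_zpow]
  · rw [← zpow_natCast, ← zpow_mul]
    have : (r : ℤ) * r.gcdA t * (t : ℤ) = ((r * t : ℕ) : ℤ) * r.gcdA t := by push_cast; ring
    rw [this, zpow_mul, zpow_natCast, hexp, one_zpow]

/-- the `r`-part of the derived subgroup is central if elements of exponent `t` centralise it -/
private theorem ps2_central {r t : ℕ} (hrt : Nat.Coprime r t) (hexp : ∀ g : G, g ^ (r * t) = 1)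
    (hm : ∀ a ∈ commutator G, ∀ b ∈ commutator G, a * b = b * a)
    (h1 : ∀ S : Subgroup G, (∀ s ∈ S, s ^ r = 1) → ∀ a ∈ S, ∀ b ∈ S, a * b = b * a)
    (h2 : ∀ y a : G, y ^ t = 1 → a ∈ commutator G → a ^ r = 1 → y * a = a * y)
    {a : G} (ha : a ∈ commutator G) (har : a ^ r = 1) (g : G) : Commute g a := by
  obtain ⟨i, j, hg, hi, hj⟩ := ps2_split hrt hexp g
  rw [hg]
  exact Commute.mul_left (ps2_claim1 hrt hexp hm h1 hi ha har) (h2 _ a hj ha har)

/-- in class two, elements of exponent `r` commute -/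
private theorem ps2_class2 {r t : ℕ} (hrt : Nat.Coprime r t) (hexp : ∀ g : G, g ^ (r * t) = 1)
    (hm : ∀ a ∈ commutator G, ∀ b ∈ commutator G, a * b = b * a)
    (h1 : ∀ S : Subgroup G, (∀ s ∈ S, s ^ r = 1) → ∀ a ∈ S, ∀ b ∈ S, a * b = b * a)
    (hcen : ∀ a ∈ commutator G, ∀ g : G, Commute g a)
    {g h : G} (hg : g ^ r = 1) (hh : h ^ r = 1) : g * h = h * g := by
  have := ps2_N_normal hm r
  have hc : ⁅g, h⁆ ∈ commutator G :=
    Subgroup.commutator_mem_commutator (Subgroup.mem_top g) (Subgroup.mem_top h)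
  refine ps2_comm hrt hexp h1 (ps2N hm r) (fun n hn => hn.2) ?_ ?_ ⟨hc, ?_⟩
  · rw [hg]; exact one_mem _
  · rw [hh]; exact one_mem _
  · have h3 : h * g⁻¹ * h⁻¹ = g⁻¹ * ⁅g, h⁆ := by
      rw [commutatorElement_def]; group
    have h4 := congrArg (fun z => z ^ r) h3
    rw [conj_pow, inv_pow, hg, (hcen _ hc _).mul_pow, inv_pow, hg, inv_one, mul_one, one_mul,
      mul_inv_cancel] at h4
    exact h4.symm

private theorem ps2_class2' {r t : ℕ} (hrt : Nat.Coprime r t)
    (hcen : ∀ a ∈ commutator G, ∀ g : G, Commute g a)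
    {g h : G} (hg : g ^ r = 1) (hh : h ^ t = 1) : g * h = h * g := by
  have hc : ⁅g, h⁆ ∈ commutator G :=
    Subgroup.commutator_mem_commutator (Subgroup.mem_top g) (Subgroup.mem_top h)
  have e1 : ⁅g, h⁆ ^ r = 1 := by
    have h3 : h * g⁻¹ * h⁻¹ = g⁻¹ * ⁅g, h⁆ := by
      rw [commutatorElement_def]; group
    have h4 := congrArg (fun z => z ^ r) h3
    rw [conj_pow, inv_pow, hg, (hcen _ hc _).mul_pow, inv_pow, hg, inv_one, mul_one, one_mul,
      mul_inv_cancel] at h4
    exact h4.symm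
  have e2 : ⁅g, h⁆ ^ t = 1 := by
    have h3 : g * h * g⁻¹ = h * ⁅g, h⁆ := by
      rw [(hcen _ hc h).eq, commutatorElement_def]; group
    have h4 := congrArg (fun z => z ^ t) h3
    rw [conj_pow, hh, (hcen _ hc _).mul_pow, hh, mul_one, one_mul, mul_inv_cancel] at h4
    exact h4.symm
  have h6 := pow_gcd_eq_one.2 ⟨e1, e2⟩
  rw [hrt.gcd_eq_one, pow_one, commutatorElement_eq_one_iff_mul_comm] at h6
  exact h6

end Ps2aux

/-- An element of order `q` acts nontrivially on the `p`-part of the derived subgroup, or the other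
way round.

Let `G` be a nonabelian metabelian group of exponent `p q` (`p ≠ q` primes) in which any two
elements `g`, `h` for which all elements of the generated subgroup have `p`-th power `1` commute, and
the same for `q`. Proof. Let `A = commutator G`, abelian; `A_p = {a ∈ A | a ^ p = 1}`,
`A_q = {a ∈ A | a ^ q = 1}`, normal subgroups with `A = A_p A_q` (every `a` is a product of a power
whose `p`-th power is `1` and one whose `q`-th power is `1`, by Bezout, since `a ^ (p q) = 1`).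
(1) Elements `g` with `g ^ p = 1` centralise `A_p`: the elements of the subgroup generated by
`g` and `a ∈ A_p` have the form `b * g ^ i` with `b ∈ A_p`; `(b * g ^ i) ^ p ∈ A_p`, so its
`p`-th power is `1`; and its `q`-th power is `1`, as the exponent of `G` is `p q`; so
`(b * g ^ i) ^ p = 1`, and by hypothesis `g` and `a` commute. (2) Suppose the conclusion fails; then
elements with `g ^ q = 1` centralise `A_p`, and since every element of `G` is a product of powers
`g ^ (..)` with trivial `p`-th and `q`-th power, `A_p` is central, in the same way `A_q` is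
central; so `A` is central in `G`. (3) Then `G` is commutative: let `g`, `h` be elements with
`g ^ p = 1` and `h ^ q = 1`: `⁅g, h⁆ ^ p = ⁅g ^ p, h⁆ = 1` (central commutators) and
`⁅g, h⁆ ^ q = 1`, so `⁅g, h⁆ = 1`. If `g ^ p = h ^ p = 1`: every element of the generated
subgroup is a product of powers of `g`, `h` and the central element `⁅g, h⁆` with
`⁅g, h⁆ ^ p = 1`; its `p`-th power is trivial: `(g ^ i h ^ j c ^ k) ^ (p * p) = 1` is clear in class
two, and the exponent `p q` gives `p`-th power `1`. By hypothesis `g` and `h` commute. The same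
for `q`. Since `G` is generated by the elements with trivial `p`-th or `q`-th power, it is
commutative, a contradiction. -/
theorem exists_action {p q : ℕ} (hp : p.Prime) (hq : q.Prime) (hpq : p ≠ q) {G : Type} [Group G]
    (hm : ∀ a ∈ commutator G, ∀ b ∈ commutator G, a * b = b * a)
    (hexp : ∀ g : G, g ^ (p * q) = 1)
    (h1 : ∀ S : Subgroup G, (∀ s ∈ S, s ^ p = 1) → ∀ a ∈ S, ∀ b ∈ S, a * b = b * a)
    (h2 : ∀ S : Subgroup G, (∀ s ∈ S, s ^ q = 1) → ∀ a ∈ S, ∀ b ∈ S, a * b = b * a)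
    (hne : ∃ g h : G, g * h ≠ h * g) :
    (∃ y a : G, y ^ q = 1 ∧ a ∈ commutator G ∧ a ^ p = 1 ∧ y * a ≠ a * y) ∨
      (∃ y a : G, y ^ p = 1 ∧ a ∈ commutator G ∧ a ^ q = 1 ∧ y * a ≠ a * y) := by
  by_contra hcon
  push Not at hcon
  obtain ⟨c1, c2⟩ := hcon
  have hcop : Nat.Coprime p q := (Nat.coprime_primes hp hq).2 hpq
  have hexp' : ∀ g : G, g ^ (q * p) = 1 := fun g => by rw [mul_comm]; exact hexp g
  have hcen : ∀ a ∈ commutator G, ∀ g : G, Commute g a := by
    intro a ha g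
    obtain ⟨i, j, h, hi, hj⟩ := ps2_split hcop hexp a
    rw [h]
    exact Commute.mul_right (ps2_central hcop hexp hm h1 c1 (zpow_mem ha i) hi g)
      (ps2_central hcop.symm hexp' hm h2 c2 (zpow_mem ha j) hj g)
  obtain ⟨g, h, hgh⟩ := hne
  apply hgh
  obtain ⟨i, j, hg, hi, hj⟩ := ps2_split hcop hexp g
  obtain ⟨k, l, hh, hk, hl⟩ := ps2_split hcop hexp h
  have e1 : Commute (g ^ i) (h ^ k) := ps2_class2 hcop hexp hm h1 hcen hi hk
  have e2 : Commute (g ^ j) (h ^ l) := ps2_class2 hcop.symm hexp' hm h2 hcen hj hl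
  have e3 : Commute (g ^ i) (h ^ l) := ps2_class2' hcop hcen hi hl
  have e4 : Commute (g ^ j) (h ^ k) := ps2_class2' hcop.symm hcen hj hk
  have e5 : Commute (g ^ i * g ^ j) (h ^ k * h ^ l) :=
    Commute.mul_left (e1.mul_right e3) (e4.mul_right e2)
  rw [← hg, ← hh] at e5
  exact e5

/-- Proof. Let `G = F ⧸ H.1`, `Laws G = H` (`Laws_quot`). The hypotheses of `exists_action` hold:
`der 2 ≤ H`; `Bn (p * q) ≤ H` by `Bn_le_iff`; a subgroup `S` of `G` with `s ^ p = 1` for all `s ∈ S`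
satisfies `H ⊔ Bn p = Ab p ≥ Ab 0 ∋ ⁅x 0, x 1⁆`; and `G` is not commutative because otherwise
`Ab 0 ≤ H` and `H = H ⊔ Ab 0 = Ab (p * q)`. In the first case apply `hig` (with `p`, `q`) to the
subgroup `E = {a ∈ commutator G | a ^ p = 1}` (normal, so invariant under `y`); in the second
case the same with `p` and `q` exchanged. -/
theorem Sm_le {p q : ℕ} (hp : p.Prime) (hq : q.Prime) (hpq : p ≠ q) {H : FI} (h : Sm p q H) :
    H ≤ AP p (Ab q) ∨ H ≤ AP q (Ab p) := by
  have hm : ∀ a ∈ commutator (F ⧸ H.1), ∀ b ∈ commutator (F ⧸ H.1), a * b = b * a := by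
    have h1 : commutator (F ⧸ H.1) = (commutator F).map (QuotientGroup.mk' H.1) := by
      rw [commutator_def, commutator_def, Subgroup.map_commutator,
        Subgroup.map_top_of_surjective _ (QuotientGroup.mk'_surjective _)]
    rw [h1]
    rintro _ ⟨a, ha, rfl⟩ _ ⟨b, hb, rfl⟩
    rw [← commutatorElement_eq_one_iff_mul_comm, ← map_commutatorElement]
    refine (QuotientGroup.eq_one_iff _).2 ?_
    have h2 : ⁅a, b⁆ ∈ derivedSeries F 2 := Subgroup.commutator_mem_commutator ha hb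
    exact h.met h2
  have hexp : ∀ g : F ⧸ H.1, g ^ (p * q) = 1 := by
    intro g
    obtain ⟨w, rfl⟩ := QuotientGroup.mk'_surjective H.1 g
    rw [← map_pow]
    exact (QuotientGroup.eq_one_iff _).2 (Bn_le'.1 (Bn_le_iff.2 h.ab.ge) w)
  have hsub : ∀ r : ℕ, H ⊔ Bn r = Ab r → ∀ S : Subgroup (F ⧸ H.1), (∀ s ∈ S, s ^ r = 1) →
      ∀ a ∈ S, ∀ b ∈ S, a * b = b * a := by
    intro r hr S hS a ha b hb
    have hw : ⁅x 0, x 1⁆ ∈ (H ⊔ Bn r).1 := by
      rw [hr, mem_Ab]
      intro i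
      rw [ex_comm]
      exact dvd_zero _
    have hle : H ⊔ Bn r ≤ Laws S := by
      refine sup_le ?_ (Bn_le.2 fun f => ?_)
      · intro w hw' f
        have h3 : w ∈ (Laws (F ⧸ H.1)).1 := by
          rw [Laws_quot H]
          exact hw'
        have h4 := h3 (S.subtype.comp f)
        exact S.subtype_injective (by rw [map_one]; exact h4)
      · rw [map_pow]
        exact Subtype.ext (hS _ (f (x 0)).2)
    have h3 := hle hw (FreeGroup.lift fun i => if i = 0 then (⟨a, ha⟩ : S) else ⟨b, hb⟩)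
    rw [map_commutatorElement, FreeGroup.lift_apply_of, FreeGroup.lift_apply_of, if_pos rfl,
      if_neg (by norm_num), commutatorElement_eq_one_iff_mul_comm] at h3
    exact congrArg (fun z : S => (z : F ⧸ H.1)) h3
  have hne : ∃ g k : F ⧸ H.1, g * k ≠ k * g := by
    by_contra hcon
    push Not at hcon
    apply h.ne
    have h0 : Ab 0 ≤ H := by
      show (Ab 0).1 ≤ H.1
      rw [Ab0_eq, _root_.commutator_def, Subgroup.commutator_le]
      intro a _ b _
      rw [← QuotientGroup.eq_one_iff]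
      have h5 : (QuotientGroup.mk' H.1) ⁅a, b⁆ = 1 := by
        rw [map_commutatorElement, commutatorElement_eq_one_iff_mul_comm]
        exact hcon _ _
      exact h5
    rw [← h.ab]
    exact (sup_eq_left.2 h0).symm
  have hfin : ∀ r t : ℕ, r.Prime → t.Prime → r ≠ t →
      (∃ y a : F ⧸ H.1, y ^ t = 1 ∧ a ∈ commutator (F ⧸ H.1) ∧ a ^ r = 1 ∧ y * a ≠ a * y) →
      H ≤ AP r (Ab t) := by
    rintro r t hr ht hrt ⟨y, a, hy, ha, har, hya⟩
    have hn := ps2_N_normal hm r
    have h5 := hig hr ht hrt (ps2N hm r) (fun a ha b hb => hm a ha.1 b hb.1)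
      (fun a ha => ha.2) y (fun a ha => hn.conj_mem a ha y) hy a ⟨ha, har⟩ hya
    rwa [Laws_quot H] at h5
  rcases exists_action hp hq hpq hm hexp (hsub p h.bp) (hsub q h.bq) hne with h6 | h6
  · exact Or.inl (hfin p q hp hq hpq h6)
  · exact Or.inr (hfin q p hq hp hpq.symm h6)

/-- Proof: `e` is an order isomorphism; `Fx`, `map_Ab0`. -/
theorem Sm_map {e : FI ≃o FI} (he : Fx e) {p q : ℕ} {H : FI} : Sm p q (e H) ↔ Sm p q H := by
  have h1 : der 2 ≤ e H ↔ der 2 ≤ H := by
    rw [← he.der 2, e.le_iff_le, he.der 2]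
  have h2 : ∀ K L : FI, e K = K → e L = L → (e H ⊔ K = L ↔ H ⊔ K = L) := by
    intro K L hK hL
    have h3 : e H ⊔ K = e (H ⊔ K) := by rw [e.map_sup, hK]
    rw [h3]
    constructor
    · intro h4
      apply e.injective
      rw [h4, hL]
    · intro h4
      rw [h4, hL]
  have h4 : ∀ L : FI, e L = L → (e H ≠ L ↔ H ≠ L) := by
    intro L hL
    rw [← e.injective.ne_iff (x := H), hL]
  constructor
  · intro h
    exact ⟨h1.1 h.met, (h2 _ _ (he.ab 0) (he.ab _)).1 h.ab, (h2 _ _ (he.bn p) (he.ab p)).1 h.bp,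
      (h2 _ _ (he.bn q) (he.ab q)).1 h.bq, (h4 _ (he.ab _)).1 h.ne⟩
  · intro h
    exact ⟨h1.2 h.met, (h2 _ _ (he.ab 0) (he.ab _)).2 h.ab, (h2 _ _ (he.bn p) (he.ab p)).2 h.bp,
      (h2 _ _ (he.bn q) (he.ab q)).2 h.bq, (h4 _ (he.ab _)).2 h.ne⟩

/-- Proof. As `map_D_or` in `Dq2b`: `D = AP p (Ab q)`, `U = AP q (Ab p)`. `e D` satisfies
`Sm p q`, so `e D ≤ T` with `T = D` or `T = U` (`Sm_le`). `e.symm T` satisfies `Sm p q` (both `D` and
`U` do, `Sm_AP`, `Sm.swap`), and `D ≤ e.symm T`; `e.symm T ≤ D` or `e.symm T ≤ U`. In the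
first case `e.symm T = D`. In the second case `D ≤ U`, impossible: `AP 0 (Ab q) ≤ D` would be
contained in `AP q (Ab p)`, against `not_AP0_le`. -/
theorem map_or {e : FI ≃o FI} (he : Fx e) {p q : ℕ} (hp : p.Prime) (hq : q.Prime) (hpq : p ≠ q) :
    e (AP p (Ab q)) = AP p (Ab q) ∨ e (AP p (Ab q)) = AP q (Ab p) := by
  have key : ∀ T : FI, Sm p q T → e (AP p (Ab q)) ≤ T → e (AP p (Ab q)) = T := by
    intro T hT hle
    have h3 : AP p (Ab q) ≤ e.symm T := by
      rw [← e.le_iff_le, OrderIso.apply_symm_apply]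
      exact hle
    have h4 : Sm p q (e.symm T) := by
      rw [← Sm_map he, OrderIso.apply_symm_apply]
      exact hT
    rcases Sm_le hp hq hpq h4 with h5 | h5
    · rw [le_antisymm h3 h5, OrderIso.apply_symm_apply]
    · exfalso
      refine not_AP0_le hq hp hpq.symm (le_trans ?_ (h3.trans h5))
      refine AP_le.2 ⟨fun w _ => ?_, fun w hw k hk => comm_mem_AP hw hk⟩
      rw [pow_zero]
      exact one_mem _
  have h6 : Sm p q (e (AP p (Ab q))) := (Sm_map he).2 (Sm_AP hp hq hpq)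
  rcases Sm_le hp hq hpq h6 with h7 | h7
  · exact Or.inl (key _ (Sm_AP hp hq hpq) h7)
  · exact Or.inr (key _ (Sm_AP hq hp hpq.symm).swap h7)

end Pool.Agent.Lib.MP_4c5e24_al
end

section

set_option autoImplicit false

/-!
RIG2-Ps3: the property which distinguishes `A A_q` from `A_q A`.
-/

namespace Pool.Agent.Lib.MP_4c5e24_al

open scoped commutatorElement

/-- The property which distinguishes `A A_q` and `A_q A`. -/
def PWq (q : ℕ) (W : FI) : Prop := ∀ r s : ℕ, r.Prime → s.Prime → r ≠ q → s ≠ q → r ≠ s →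
  (W ⊔ Bn (q * r)) ⊓ (W ⊔ Bn (q * s)) ≤ W ⊔ Bn (q * (r * s))

private theorem ps3_pow_mem_Ab (q : ℕ) (g : F) : g ^ q ∈ (Ab q).1 := by
  rw [mem_Ab]
  intro i
  rw [ex_pow]
  exact dvd_mul_right _ _

private theorem ps3_Bn_le_Ab (q : ℕ) : Bn q ≤ Ab q := Bn_le'.2 fun g => ps3_pow_mem_Ab q g

private theorem ps3_comm {q : ℕ} {H : FI} (hH : AP 0 (Ab q) ≤ H) {b c : F} (hb : b ∈ (Ab q).1)
    (hc : c ∈ (Ab q).1) : Commute (QuotientGroup.mk' H.1 b) (QuotientGroup.mk' H.1 c) := by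
  have h1 : ⁅b, c⁆ ∈ H.1 := hH (comm_mem_AP hb hc)
  have h2 : QuotientGroup.mk' H.1 ⁅b, c⁆ = 1 := (QuotientGroup.eq_one_iff _).2 h1
  rw [map_commutatorElement] at h2
  exact commutatorElement_eq_one_iff_mul_comm.1 h2

private theorem ps3_A (q n : ℕ) {w : F} (hw : w ∈ (AP 0 (Ab q) ⊔ Bn (q * n)).1) :
    ∃ b ∈ (Bn q).1, QuotientGroup.mk' (AP 0 (Ab q)).1 w =
      (QuotientGroup.mk' (AP 0 (Ab q)).1 b) ^ n := by
  let S : Subgroup F :=
    { carrier := {w | ∃ b ∈ (Bn q).1, QuotientGroup.mk' (AP 0 (Ab q)).1 w =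
        (QuotientGroup.mk' (AP 0 (Ab q)).1 b) ^ n}
      mul_mem' := by
        rintro w w' ⟨b, hb, h⟩ ⟨b', hb', h'⟩
        refine ⟨b * b', mul_mem hb hb', ?_⟩
        rw [map_mul, map_mul, h, h']
        exact ((ps3_comm (H := AP 0 (Ab q)) le_rfl (ps3_Bn_le_Ab q hb)
          (ps3_Bn_le_Ab q hb')).mul_pow n).symm
      one_mem' := ⟨1, one_mem _, by rw [map_one, one_pow]⟩
      inv_mem' := by
        rintro w ⟨b, hb, h⟩
        refine ⟨b⁻¹, inv_mem hb, ?_⟩
        rw [map_inv, map_inv, h, inv_pow] }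
  have h1 : (AP 0 (Ab q)).1 ≤ S := by
    intro z hz
    refine ⟨1, one_mem _, ?_⟩
    rw [map_one, one_pow]
    exact (QuotientGroup.eq_one_iff _).2 hz
  have h2 : (Bn (q * n)).1 ≤ S := by
    change Subgroup.closure _ ≤ S
    rw [Subgroup.closure_le]
    rintro _ ⟨z, hz, φ, rfl⟩
    rw [Set.mem_singleton_iff] at hz
    subst hz
    refine ⟨(φ (x 0)) ^ q, pow_mem_Bn q _, ?_⟩
    rw [map_pow, map_pow, map_pow, pow_mul]
  have h3 : (AP 0 (Ab q) ⊔ Bn (q * n)).1 ≤ S := by
    rw [coe_sup]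
    exact sup_le h1 h2
  exact h3 hw

private theorem ps3_B (q n : ℕ) {b : F} (hb : b ∈ (Bn q).1) :
    b ^ n ∈ (AP 0 (Ab q) ⊔ Bn (q * n)).1 := by
  set H : FI := AP 0 (Ab q) ⊔ Bn (q * n) with hH
  have hle : AP 0 (Ab q) ≤ H := le_sup_left
  let S : Subgroup F :=
    { carrier := {w | w ∈ (Ab q).1 ∧ (QuotientGroup.mk' H.1 w) ^ n = 1}
      mul_mem' := by
        rintro w w' ⟨h1, h2⟩ ⟨h1', h2'⟩
        refine ⟨mul_mem h1 h1', ?_⟩
        rw [map_mul, (ps3_comm hle h1 h1').mul_pow, h2, h2', one_mul]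
      one_mem' := ⟨one_mem _, by rw [map_one, one_pow]⟩
      inv_mem' := by
        rintro w ⟨h1, h2⟩
        refine ⟨inv_mem h1, ?_⟩
        rw [map_inv, inv_pow, h2, inv_one] }
  have h2 : (Bn q).1 ≤ S := by
    change Subgroup.closure _ ≤ S
    rw [Subgroup.closure_le]
    rintro _ ⟨z, hz, φ, rfl⟩
    rw [Set.mem_singleton_iff] at hz
    subst hz
    rw [map_pow]
    refine ⟨ps3_pow_mem_Ab q _, ?_⟩
    rw [← map_pow, ← pow_mul]
    refine (QuotientGroup.eq_one_iff _).2 ?_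
    have h3 : Bn (q * n) ≤ H := le_sup_right
    exact h3 (pow_mem_Bn (q * n) _)
  have h4 := (h2 hb).2
  rw [← map_pow] at h4
  exact (QuotientGroup.eq_one_iff _).1 h4

/-- Proof. Work in `G = F ⧸ W.1`, `W = AP 0 (Ab q)`. Let `B` be the subgroup of `G` generated by
all `q`-th powers; it is abelian because `g ^ q ∈ Ab q` and commutators of elements of `Ab q` are in
`W`. For every `n` the image of `W ⊔ Bn (q * n)` in `G` is `{b ^ n | b ∈ B}`: this set is a subgroup
(`B` is abelian), it contains `g ^ (q * n) = (g ^ q) ^ n`; conversely the set of the `b ∈ B` such that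
`b ^ n` is in the image of `Bn (q * n)` is a subgroup which contains all `g ^ q`. Let `w` be in both
subgroups of the statement: `w = b ^ r = c ^ s` with `b, c ∈ B`. With `u * r + v * s = 1`:
`w = w ^ (u * r) * w ^ (v * s) = (c ^ s) ^ (u * r) * (b ^ r) ^ (v * s) = (c ^ u * b ^ v) ^ (r * s)`. -/
theorem PWq_true (q : ℕ) : PWq q (AP 0 (Ab q)) := by
  intro r s hr hs _ _ hrs w hw
  rw [mem_inf] at hw
  obtain ⟨b, hb, h1⟩ := ps3_A q r hw.1
  obtain ⟨c, hc, h2⟩ := ps3_A q s hw.2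
  have hco : Nat.Coprime r s := (Nat.coprime_primes hr hs).2 hrs
  have hco' : IsCoprime (r : ℤ) (s : ℤ) := Nat.isCoprime_iff_coprime.2 hco
  obtain ⟨u, v, huv⟩ := hco'
  have hcomm : Commute (QuotientGroup.mk' (AP 0 (Ab q)).1 c) (QuotientGroup.mk' (AP 0 (Ab q)).1 b) :=
    ps3_comm (H := AP 0 (Ab q)) le_rfl (ps3_Bn_le_Ab q hc) (ps3_Bn_le_Ab q hb)
  set d : F := c ^ u * b ^ v with hd
  have hdm : d ∈ (Bn q).1 := mul_mem (zpow_mem hc u) (zpow_mem hb v)
  have h3 : QuotientGroup.mk' (AP 0 (Ab q)).1 w =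
      (QuotientGroup.mk' (AP 0 (Ab q)).1 d) ^ (r * s) := by
    have e1 : QuotientGroup.mk' (AP 0 (Ab q)).1 w =
        (QuotientGroup.mk' (AP 0 (Ab q)).1 w) ^ (u * r) *
          (QuotientGroup.mk' (AP 0 (Ab q)).1 w) ^ (v * s) := by
      rw [← zpow_add, huv, zpow_one]
    have e2 : (QuotientGroup.mk' (AP 0 (Ab q)).1 w) ^ (u * (r : ℤ)) =
        (QuotientGroup.mk' (AP 0 (Ab q)).1 c) ^ (u * ((r * s : ℕ) : ℤ)) := by
      rw [h2, ← zpow_natCast, ← zpow_mul]
      congr 1
      push_cast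
      ring
    have e3 : (QuotientGroup.mk' (AP 0 (Ab q)).1 w) ^ (v * (s : ℤ)) =
        (QuotientGroup.mk' (AP 0 (Ab q)).1 b) ^ (v * ((r * s : ℕ) : ℤ)) := by
      rw [h1, ← zpow_natCast, ← zpow_mul]
      congr 1
      push_cast
      ring
    rw [e1, e2, e3, hd, map_mul, map_zpow, map_zpow, ← zpow_natCast,
      ((hcomm.zpow_zpow u v)).mul_zpow, ← zpow_mul, ← zpow_mul]
  have h4 := ps3_B q (r * s) hdm
  have h5 : w * (d ^ (r * s))⁻¹ ∈ (AP 0 (Ab q)).1 := by
    refine (QuotientGroup.eq_one_iff _).1 ?_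
    change QuotientGroup.mk' (AP 0 (Ab q)).1 (w * (d ^ (r * s))⁻¹) = 1
    rw [map_mul, map_inv, map_pow, h3, mul_inv_cancel]
  have h6 : AP 0 (Ab q) ≤ AP 0 (Ab q) ⊔ Bn (q * (r * s)) := le_sup_left
  have h7 := mul_mem (h6 h5) h4
  rwa [inv_mul_cancel_right] at h7

/-- A commutator with many equal entries. -/
def cpow {G : Type*} [Group G] (a t : G) : ℕ → G
  | 0 => a
  | n + 1 => ⁅cpow a t n, t⁆

private theorem ps3_map_cpow {G G' : Type*} [Group G] [Group G'] (f : G →* G') (a t : G) (n : ℕ) :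
    f (cpow a t n) = cpow (f a) (f t) n := by
  induction n with
  | zero => rfl
  | succ n ih => simp only [cpow, map_commutatorElement, ih]

private theorem ps3_poly {q : ℕ} (hq : q.Prime) :
    (Polynomial.X - 1 : Polynomial (ZMod q)) ^ (q - 1) =
      ∑ k ∈ Finset.range q, (Polynomial.X : Polynomial (ZMod q)) ^ k := by
  haveI : Fact q.Prime := ⟨hq⟩
  have h1 : (Polynomial.X - 1 : Polynomial (ZMod q)) ≠ 0 := by
    have := Polynomial.X_sub_C_ne_zero (1 : ZMod q)
    rwa [map_one] at this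
  apply mul_right_cancel₀ h1
  rw [geom_sum_mul, ← pow_succ, Nat.sub_add_cancel hq.one_le, sub_pow_char, one_pow]

private theorem ps3_lin0 {q : ℕ} (hq : q.Prime) {V : Type*} [AddCommGroup V] [Module (ZMod q) V]
    (T : V →ₗ[ZMod q] V) (v : V) (h : ∑ k ∈ Finset.range q, (T ^ k) v = 0) (m : ℕ) (z : V)
    (hm : m = q - 1) (hz : z = v) : (fun z => z - T z)^[m] z = 0 := by
  have h1 := congrArg (fun P : Polynomial (ZMod q) =>
    ((Polynomial.aeval (T : Module.End (ZMod q) V) P : Module.End (ZMod q) V) : V →ₗ[ZMod q] V) v)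
    (ps3_poly hq)
  simp only [map_pow, map_sub, map_sum, Polynomial.aeval_X, map_one, LinearMap.sum_apply] at h1
  rw [h] at h1
  have h2 : ∀ m z, (fun z => z - T z)^[m] z = (-1 : ZMod q) ^ m • ((T - 1) ^ m) z := by
    intro m
    induction m with
    | zero => intro z; simp
    | succ m ih =>
      intro z
      rw [Function.iterate_succ_apply', ih, pow_succ' (T - 1) m, Module.End.mul_apply,
        LinearMap.sub_apply, Module.End.one_apply, pow_succ, mul_neg_one, neg_smul, smul_sub,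
        map_smul]
      abel
  rw [h2, hm, hz, h1, smul_zero]

private theorem ps3_lin {q : ℕ} (hq : q.Prime) {V : Type*} [AddCommGroup V]
    (hV : ∀ v : V, q • v = 0) (T : V →+ V) (v : V)
    (h : ∑ k ∈ Finset.range q, T^[k] v = 0) : (fun z => z - T z)^[q - 1] v = 0 := by
  letI : Module (ZMod q) V := AddCommGroup.zmodModule hV
  let T' : V →ₗ[ZMod q] V := T.toZModLinearMap q
  refine ps3_lin0 hq T' v ?_ (q - 1) v rfl rfl
  rw [← h]
  refine Finset.sum_congr rfl fun k _ => ?_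
  rw [Module.End.pow_apply]
  rfl

private theorem ps3_group {G : Type*} [Group G] {E : Subgroup G} [hEn : E.Normal] {q n : ℕ}
    (hq : q.Prime) (hn : Nat.Coprime q n) (hE : ∀ a ∈ E, ∀ b ∈ E, a * b = b * a)
    (hEq : ∀ a ∈ E, a ^ q = 1) {b t : G} (hb : b ∈ E) (ht : t ^ q = 1)
    (hbt : (b * t) ^ (q * n) = 1) : cpow b t (q - 1) = 1 := by
  letI : CommGroup E :=
    { (inferInstance : Group E) with
      mul_comm := fun a b => Subtype.ext (hE a.1 a.2 b.1 b.2) }
  let T : Additive E →+ Additive E := (MulAut.conjNormal (H := E) t).toMonoidHom.toAdditive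
  have hTc : ∀ z : Additive E, ((T z).toMul : G) = t * (z.toMul : G) * t⁻¹ := fun z => rfl
  let b' : Additive E := Additive.ofMul ⟨b, hb⟩
  have hTk : ∀ (k : ℕ) (z : Additive E), (((T^[k] z).toMul : E) : G) =
      t ^ k * (z.toMul : G) * (t ^ k)⁻¹ := by
    intro k
    induction k with
    | zero => intro z; simp
    | succ k ih =>
      intro z
      rw [Function.iterate_succ_apply', hTc, ih, pow_succ']
      group
  have h1 : ∀ m : ℕ, (b * t) ^ m =
      (((∑ k ∈ Finset.range m, T^[k] b').toMul : E) : G) * t ^ m := by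
    intro m
    induction m with
    | zero => simp
    | succ m ih =>
      rw [Finset.sum_range_succ, toMul_add, Subgroup.coe_mul, hTk, pow_succ, ih]
      change _ = _ * (t ^ m * b * (t ^ m)⁻¹) * t ^ (m + 1)
      rw [pow_succ]
      group
  set N : Additive E := ∑ k ∈ Finset.range q, T^[k] b' with hN
  have h2 : (b * t) ^ q = ((N.toMul : E) : G) := by rw [h1 q, ht, mul_one]
  have h3 : ((N.toMul : E) : G) ^ q = 1 := hEq _ N.toMul.2
  have h4 : ((N.toMul : E) : G) ^ n = 1 := by rw [← h2, ← pow_mul, hbt]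
  have h5 : ((N.toMul : E) : G) = 1 := by
    have h6 := orderOf_dvd_of_pow_eq_one h3
    have h7 := orderOf_dvd_of_pow_eq_one h4
    have h8 := Nat.dvd_gcd h6 h7
    rw [hn.gcd_eq_one, Nat.dvd_one] at h8
    exact orderOf_eq_one_iff.1 h8
  have h9 : N = 0 := by
    apply Additive.toMul.injective
    exact Subtype.ext h5
  have hV : ∀ v : Additive E, q • v = 0 := by
    intro v
    apply Additive.toMul.injective
    rw [toMul_nsmul]
    exact Subtype.ext (hEq _ v.toMul.2)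
  have h10 := ps3_lin hq hV T b' h9
  have h11 : ∀ m : ℕ, cpow b t m = ((((fun z => z - T z)^[m] b').toMul : E) : G) := by
    intro m
    induction m with
    | zero => rfl
    | succ m ih =>
      rw [Function.iterate_succ_apply', toMul_sub, Subgroup.coe_div, hTc, ← ih]
      change ⁅cpow b t m, t⁆ = _
      rw [commutatorElement_def]
      simp only [div_eq_mul_inv, mul_inv_rev, inv_inv, mul_assoc]
  rw [h11, h10]
  rfl

/-- Proof. Let `q` be a prime, `n` coprime to `q`, `W = AP q (Ab 0)`, `a ∈ Ab 0`, `g : F`. In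
`G = F ⧸ (W ⊔ Bn (q * n)).1` the image `E` of `Ab 0` is an elementary abelian `q`-group, normal
in `G`. Let `t` be the image of `g ^ n`; `t ^ q = 1`. For `b ∈ E`:
`(b * t) ^ q = (∏ k < q, t ^ k * b * (t ^ k)⁻¹) * t ^ q`, an element `N` of `E`, `N ^ q = 1`, and
`(b * t) ^ (q * n) = 1` gives `N ^ n = 1`; so `N = 1`. In additive notation for `E` (a vector space over
`ZMod q` on which `t` acts by conjugation) this says `(∑ k < q, t ^ k) b = 0`, that is
`(t - 1) ^ (q - 1) b = 0` (`∑ k < q, X ^ k = (X - 1) ^ (q - 1)` in `(ZMod q)[X]`). Since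
`⁅b, t⁆ = b * (t * b⁻¹ * t⁻¹)` is `- (t - 1) b`, `cpow b t (q - 1) = 1`. -/
theorem cpow_mem {q n : ℕ} (hq : q.Prime) (hn : Nat.Coprime q n) {a : F} (ha : a ∈ (Ab 0).1)
    (g : F) : cpow a (g ^ n) (q - 1) ∈ (AP q (Ab 0) ⊔ Bn (q * n)).1 := by
  set H : FI := AP q (Ab 0) ⊔ Bn (q * n) with hH
  have hle : AP q (Ab 0) ≤ H := le_sup_left
  have hle2 : Bn (q * n) ≤ H := le_sup_right
  refine (QuotientGroup.eq_one_iff _).1 ?_
  change QuotientGroup.mk' H.1 (cpow a (g ^ n) (q - 1)) = 1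
  rw [ps3_map_cpow]
  haveI : ((Ab 0).1.map (QuotientGroup.mk' H.1)).Normal :=
    Subgroup.Normal.map inferInstance _ (QuotientGroup.mk'_surjective _)
  have hlaw : ∀ z : F ⧸ H.1, z ^ (q * n) = 1 := by
    intro z
    obtain ⟨y, rfl⟩ := QuotientGroup.mk'_surjective H.1 z
    rw [← map_pow]
    exact (QuotientGroup.eq_one_iff _).2 (hle2 (pow_mem_Bn (q * n) y))
  refine ps3_group (E := (Ab 0).1.map (QuotientGroup.mk' H.1)) hq hn ?_ ?_ ⟨a, ha, rfl⟩ ?_
    (hlaw _)
  · rintro _ ⟨y, hy, rfl⟩ _ ⟨z, hz, rfl⟩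
    have h1 : ⁅y, z⁆ ∈ H.1 := hle (comm_mem_AP hy hz)
    have h2 : QuotientGroup.mk' H.1 ⁅y, z⁆ = 1 := (QuotientGroup.eq_one_iff _).2 h1
    rw [map_commutatorElement] at h2
    exact commutatorElement_eq_one_iff_mul_comm.1 h2
  · rintro _ ⟨y, hy, rfl⟩
    rw [← map_pow]
    exact (QuotientGroup.eq_one_iff _).2 (hle (pow_mem_AP hy))
  · rw [map_pow, ← pow_mul, mul_comm n q]
    exact hlaw _

private theorem ps3_cpow_mem {G : Type*} [Group G] {N : Subgroup G} (hN : N.Normal) {a : G}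
    (ha : a ∈ N) (t : G) (n : ℕ) : cpow a t n ∈ N := by
  induction n with
  | zero => exact ha
  | succ n ih =>
    change ⁅cpow a t n, t⁆ ∈ N
    rw [commutatorElement_def, mul_assoc, mul_assoc]
    refine mul_mem ih ?_
    rw [← mul_assoc]
    exact hN.conj_mem _ (inv_mem ih) t

private theorem ps3_cpow_Sd {Q Λ M : Type} [Group Q] [Ring Λ] {ρ : Q →* Λˣ} [AddCommGroup M]
    [Module Λ M] (a b : M) (h : Q) (n : ℕ) :
    cpow (⟨a, 1⟩ : Sd ρ M) (⟨b, h⟩ : Sd ρ M) n = (⟨((1 - (ρ h : Λ)) ^ n) • a, 1⟩ : Sd ρ M) := by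
  induction n with
  | zero => simp [cpow]
  | succ n ih =>
    change ⁅cpow (⟨a, 1⟩ : Sd ρ M) (⟨b, h⟩ : Sd ρ M) n, (⟨b, h⟩ : Sd ρ M)⁆ = _
    rw [ih, Sd.comm_inl, ← neg_smul, neg_sub, smul_smul, ← pow_succ']

/-- Proof. Let `W = AP q (Ab 0)`. Choose primes `r ≠ s` different from `q` and
`u = cpow (cpow ⁅x 0, x 1⁆ (x 0 ^ r) (q - 1)) (x 0 ^ s) (q - 1)`. By `cpow_mem`,
`cpow ⁅x 0, x 1⁆ (x 0 ^ r) (q - 1) ∈ W ⊔ Bn (q * r)`, a normal subgroup, so `u` is in it (`cpow` of an
element of a normal subgroup is in it). The element `cpow ⁅x 0, x 1⁆ (x 0 ^ r) (q - 1)` is in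
`Ab 0`, so `u ∈ W ⊔ Bn (q * s)` by `cpow_mem`. But `u` is not in `W ⊔ Bn (q * (r * s))`: let `K`, `ζ`
be as in `exists_field` for `p := q` and `n := r * s`, and `G = Sd (Subgroup.zpowers u').subtype K`
with `u'` the unit `ζ`. It satisfies `AP q (Ab 0)` (`test_laws` gives `AP q (Ab (r * s))`, and
`AP_mono`) and `Bn (q * (r * s))`: `(b, g) ^ (r * s) = (b', 1)` and `(b', 1) ^ q = (q • b', 1) = 1`
(`Sd.mk_pow`). At `x 0 ↦ (0, g)`, `x 1 ↦ (1, 1)` (`ρ g = ζ`) the value of `⁅x 0, x 1⁆` is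
`(ζ - 1, 1)` and by `Sd.comm_inl` the value of `u` is
`(± (ζ ^ s - 1) ^ (q - 1) * (ζ ^ r - 1) ^ (q - 1) * (ζ - 1), 1)`, which is not trivial because `ζ` is a
primitive `r s`-th root of unity. -/
theorem PWq_false {q : ℕ} (hq : q.Prime) : ¬ PWq q (AP q (Ab 0)) := by
  intro hP
  obtain ⟨r, hqr, hr⟩ := Nat.exists_infinite_primes (q + 1)
  obtain ⟨s, hrs, hs⟩ := Nat.exists_infinite_primes (r + 1)
  have hrq : r ≠ q := by omega
  have hsq : s ≠ q := by omega
  have hrs' : r ≠ s := by omega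
  set c1 : F := cpow ⁅x 0, x 1⁆ (x 0 ^ r) (q - 1) with hc1
  set u : F := cpow c1 (x 0 ^ s) (q - 1) with hu
  have hcm : ⁅x 0, x 1⁆ ∈ (Ab 0).1 := by
    rw [mem_Ab]
    intro i
    rw [ex_comm]
    exact dvd_zero _
  have h1 : c1 ∈ (AP q (Ab 0) ⊔ Bn (q * r)).1 :=
    cpow_mem hq ((Nat.coprime_primes hq hr).2 hrq.symm) hcm (x 0)
  have h2 : u ∈ (AP q (Ab 0) ⊔ Bn (q * r)).1 := ps3_cpow_mem (FI.normal _) h1 _ _
  have h3 : c1 ∈ (Ab 0).1 := ps3_cpow_mem (FI.normal _) hcm _ _
  have h4 : u ∈ (AP q (Ab 0) ⊔ Bn (q * s)).1 :=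
    cpow_mem hq ((Nat.coprime_primes hq hs).2 hsq.symm) h3 (x 0)
  have h5 : u ∈ (AP q (Ab 0) ⊔ Bn (q * (r * s))).1 :=
    hP r s hr hs hrq hsq hrs' (mem_inf.2 ⟨h2, h4⟩)
  have hrs0 : 0 < r * s := Nat.mul_pos hr.pos hs.pos
  obtain ⟨K, _, ζ, hK, hζ⟩ := exists_field (n := r * s) hq hrs0
    (Nat.Coprime.mul_right ((Nat.coprime_primes hq hr).2 hrq.symm)
      ((Nat.coprime_primes hq hs).2 hsq.symm))
  have hζ0 : ζ ≠ 0 := hζ.ne_zero hrs0.ne'
  set u' : Kˣ := Units.mk0 ζ hζ0 with hu'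
  have hu1 : u' ^ (r * s) = 1 := by
    apply Units.ext
    rw [Units.val_pow_eq_pow_val, Units.val_mk0, Units.val_one]
    exact hζ.pow_eq_one
  have hg : ∀ g : Subgroup.zpowers u', g ^ (r * s) = 1 := by
    rintro ⟨g, k, rfl⟩
    apply Subtype.ext
    change (u' ^ k) ^ (r * s) = 1
    rw [← zpow_natCast, ← zpow_mul, mul_comm, zpow_mul, zpow_natCast, hu1, one_zpow]
  have hlaw : ∀ z : Sd (Subgroup.zpowers u').subtype K, z ^ (q * (r * s)) = 1 := by
    rintro ⟨b, g⟩
    have e0 := Sd.mk_pow (ρ := (Subgroup.zpowers u').subtype) b g (r * s)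
    rw [hg] at e0
    rw [mul_comm, pow_mul, e0, Sd.mk_pow, one_pow]
    apply Sd.ext
    · simp only [map_one, Units.val_one, one_pow, Finset.sum_const, Finset.card_range, nsmul_eq_mul,
        mul_one, CharP.cast_eq_zero, zero_smul, Sd.one_m]
    · rfl
  have hle : AP q (Ab 0) ⊔ Bn (q * (r * s)) ≤ Laws (Sd (Subgroup.zpowers u').subtype K) := by
    refine sup_le ?_ ?_
    · exact (AP_mono dvd_rfl (Ab_le_Ab.2 (dvd_zero _))).trans (test_laws hu1)
    · refine Bn_le.2 fun f => ?_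
      rw [map_pow]
      exact hlaw _
  set g : Subgroup.zpowers u' := ⟨u', Subgroup.mem_zpowers u'⟩ with hgd
  let f : F →* Sd (Subgroup.zpowers u').subtype K :=
    FreeGroup.lift (fun i => if i = 0 then ⟨0, g⟩ else ⟨1, 1⟩)
  have hf0 : f (x 0) = ⟨0, g⟩ := by
    change FreeGroup.lift _ (FreeGroup.of 0) = _
    rw [FreeGroup.lift_apply_of]
    rfl
  have hf1 : f (x 1) = ⟨1, 1⟩ := by
    change FreeGroup.lift _ (FreeGroup.of 1) = _
    rw [FreeGroup.lift_apply_of]
    rfl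
  have h6 : f u = 1 := hle h5 f
  have hρ : ∀ m : ℕ, (((Subgroup.zpowers u').subtype (g ^ m) : Kˣ) : K) = ζ ^ m := by
    intro m
    rw [map_pow, Units.val_pow_eq_pow_val]
    rfl
  have hcomm : ⁅(⟨0, g⟩ : Sd (Subgroup.zpowers u').subtype K),
      (⟨1, 1⟩ : Sd (Subgroup.zpowers u').subtype K)⁆ =
      (⟨ζ - 1, 1⟩ : Sd (Subgroup.zpowers u').subtype K) := by
    rw [Sd.comm_mk _ _ _ _ (by rw [mul_one, one_mul])]
    apply Sd.ext
    · have h7 := hρ 1
      rw [pow_one, pow_one] at h7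
      simp only [h7, mul_zero, sub_zero, smul_eq_mul, mul_one]
    · rfl
  rw [hu, ps3_map_cpow, hc1, ps3_map_cpow, map_commutatorElement, map_pow, map_pow, hf0, hf1, hcomm,
    Sd.mk_pow, Sd.mk_pow, smul_zero, smul_zero, ps3_cpow_Sd, ps3_cpow_Sd, hρ, hρ] at h6
  have h7 := congrArg Sd.m h6
  simp only [Sd.one_m, smul_eq_mul] at h7
  have hr1 : ζ ^ r ≠ 1 := hζ.pow_ne_one_of_pos_of_lt hr.ne_zero (by nlinarith [hs.two_le, hr.pos])
  have hs1 : ζ ^ s ≠ 1 := hζ.pow_ne_one_of_pos_of_lt hs.ne_zero (by nlinarith [hr.two_le, hs.pos])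
  have h11 : ζ ≠ 1 := by
    intro h8
    exact hr1 (by rw [h8, one_pow])
  have e1 : (1 - ζ ^ s) ^ (q - 1) ≠ 0 := pow_ne_zero _ (sub_ne_zero.2 hs1.symm)
  have e2 : (1 - ζ ^ r) ^ (q - 1) ≠ 0 := pow_ne_zero _ (sub_ne_zero.2 hr1.symm)
  exact mul_ne_zero e1 (mul_ne_zero e2 (sub_ne_zero.2 h11)) h7

/-- Proof: `e` preserves joins and meets and fixes all `Bn n`. -/
theorem PWq_map {e : FI ≃o FI} (he : Fx e) {q : ℕ} {W : FI} : PWq q (e W) ↔ PWq q W := by
  have key : ∀ a b c : ℕ, ((e W ⊔ Bn a) ⊓ (e W ⊔ Bn b) ≤ e W ⊔ Bn c) ↔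
      ((W ⊔ Bn a) ⊓ (W ⊔ Bn b) ≤ W ⊔ Bn c) := by
    intro a b c
    rw [← e.le_iff_le (x := (W ⊔ Bn a) ⊓ (W ⊔ Bn b)), map_inf, map_sup, map_sup, map_sup, he.bn,
      he.bn, he.bn]
  constructor
  · intro h r s hr hs h1 h2 h3
    exact (key _ _ _).1 (h r s hr hs h1 h2 h3)
  · intro h r s hr hs h1 h2 h3
    exact (key _ _ _).2 (h r s hr hs h1 h2 h3)

end Pool.Agent.Lib.MP_4c5e24_al
end

section

set_option autoImplicit false

/-!
RIG2-Ps4: the product varieties `A_p A_q` are fixed.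
-/

namespace Pool.Agent.Lib.MP_4c5e24_al

open scoped commutatorElement

private theorem ps4_D {e : FI ≃o FI} {q : ℕ} {S : Set ℕ} (hS : S.Infinite)
    (h : ∀ r ∈ S, e (AP r (Ab q)) = AP r (Ab q)) : e (AP 0 (Ab q)) = AP 0 (Ab q) := by
  have h2 : e (AP 0 (Ab q)) = ⨅ r : S, e (AP r (Ab q)) := by
    rw [← iInf_D' hS (Ab q), OrderIso.map_iInf]
  rw [h2, ← iInf_D' hS (Ab q)]
  exact iInf_congr fun r => h r r.2

private theorem ps4_U {e : FI ≃o FI} {q : ℕ} {S : Set ℕ} (hS : S.Infinite)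
    (h : ∀ r ∈ S, e (AP r (Ab q)) = AP q (Ab r)) : e (AP 0 (Ab q)) = AP q (Ab 0) := by
  have h2 : e (AP 0 (Ab q)) = ⨅ r : S, e (AP r (Ab q)) := by
    rw [← iInf_D' hS (Ab q), OrderIso.map_iInf]
  rw [h2, ← iInf_U' hS q]
  exact iInf_congr fun r => h r r.2

/-- Proof. As `map_D` in `Dq3c`. Fix the prime `q`. Let `S` be the set of the primes `r ≠ q` with
`e (AP r (Ab q)) = AP r (Ab q)` and `S'` the set of the primes `r ≠ q` with
`e (AP r (Ab q)) = AP q (Ab r)`; by `map_or` their union is the set of all primes `r ≠ q`, which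
is infinite. If `S'` is infinite, then `e (AP 0 (Ab q)) = AP q (Ab 0)` by `iInf_D'`, `iInf_U'` and
`OrderIso.map_iInf`, against `PWq_true`, `PWq_false`, `PWq_map`. So `S` is infinite and
`e (AP 0 (Ab q)) = AP 0 (Ab q)` (`iInf_D'`). If `p ∈ S'`, then `AP 0 (Ab q) ≤ AP p (Ab q)` (`AP_mono`)
gives `AP 0 (Ab q) ≤ AP q (Ab p)`, against `not_AP0_le`. So `p ∈ S`. -/
theorem map_split {e : FI ≃o FI} (he : Fx e) {p q : ℕ} (hp : p.Prime) (hq : q.Prime)
    (hpq : p ≠ q) : e (AP p (Ab q)) = AP p (Ab q) := by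
  have hS' : ¬ {r : ℕ | (r.Prime ∧ r ≠ q) ∧ e (AP r (Ab q)) = AP q (Ab r)}.Infinite := by
    intro hinf
    have h1 := ps4_U hinf fun r hr => hr.2
    have h2 := (PWq_map he).2 (PWq_true q)
    rw [h1] at h2
    exact PWq_false hq h2
  have hS : {r : ℕ | (r.Prime ∧ r ≠ q) ∧ e (AP r (Ab q)) = AP r (Ab q)}.Infinite := by
    intro hfin
    rw [Set.not_infinite] at hS'
    apply Nat.infinite_setOfPred_prime
    refine ((hfin.union hS').union (Set.finite_singleton q)).subset ?_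
    intro r hr
    by_cases h3 : r = q
    · exact Or.inr h3
    · left
      rcases map_or he hr hq h3 with h4 | h4
      · exact Or.inl ⟨⟨hr, h3⟩, h4⟩
      · exact Or.inr ⟨⟨hr, h3⟩, h4⟩
  have h0 := ps4_D hS fun r hr => hr.2
  rcases map_or he hp hq hpq with h4 | h4
  · exact h4
  · exfalso
    apply not_AP0_le hq hp hpq.symm
    rw [← h4, ← h0, e.le_iff_le]
    exact AP_mono (dvd_zero p) le_rfl

end Pool.Agent.Lib.MP_4c5e24_al
end
end

section

section

set_option autoImplicit false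

/-!
RIG2-Pr3: finitely generated solvable groups of finite exponent are finite.
-/

namespace Pool.Agent.Lib.MP_4c5e24_al

open scoped commutatorElement

/-- Proof. Induction on the derived length (`IsSolvable`; use
`Group.IsSolvable`/`derivedSeries` with bottom at step `s`, for all groups `G`). For `s = 0` the group is
trivial. Step: `A = derivedSeries G s` is an abelian normal subgroup, `G ⧸ A` is finitely generated,
solvable of smaller derived length and of finite exponent, so it is finite by induction. So `A` has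
finite index in `G`, hence it is finitely generated (`Subgroup.fg_of_index_ne_zero`), and a finitely
generated abelian group of finite exponent is finite (`CommGroup.finite_of_fg_torsion`). So `G`
is finite. -/
theorem finite_of_solvable {G : Type} [Group G] (hfg : Group.FG G) (s : ℕ)
    (hs : derivedSeries G s = ⊥) {n : ℕ} (hn : 0 < n) (hexp : ∀ g : G, g ^ n = 1) : Finite G := by
  induction s generalizing G with
  | zero =>
    rw [derivedSeries_zero] at hs
    have : Subsingleton G := by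
      rw [← Subgroup.subsingleton_iff]
      exact ⟨fun a b => by rw [eq_bot_iff.2 (hs ▸ le_top : a ≤ ⊥), eq_bot_iff.2 (hs ▸ le_top : b ≤ ⊥)]⟩
    infer_instance
  | succ s ih =>
    set A : Subgroup G := derivedSeries G s with hA
    have hmap : derivedSeries (G ⧸ A) s = ⊥ := by
      have h1 := map_derivedSeries_eq (f := QuotientGroup.mk' A) (QuotientGroup.mk'_surjective A) s
      rw [← h1, ← hA]
      rw [Subgroup.map_eq_bot_iff, QuotientGroup.ker_mk']
    have hq : Finite (G ⧸ A) := by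
      apply ih
      · infer_instance
      · exact hmap
      · intro g
        obtain ⟨g, rfl⟩ := QuotientGroup.mk_surjective g
        rw [← QuotientGroup.mk_pow, hexp, QuotientGroup.mk_one]
    have hfi : A.FiniteIndex := Subgroup.finiteIndex_of_finite_quotient
    have hAfg : Group.FG A := Subgroup.fg_of_index_ne_zero A
    have hcomm : ∀ a b : A, a * b = b * a := by
      intro a b
      have h2 : ⁅(a : G), (b : G)⁆ ∈ (⊥ : Subgroup G) := by
        rw [← hs, derivedSeries_succ]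
        exact Subgroup.commutator_mem_commutator a.2 b.2
      rw [Subgroup.mem_bot, commutatorElement_eq_one_iff_mul_comm] at h2
      exact Subtype.ext h2
    let _ : CommGroup A := { (inferInstance : Group A) with mul_comm := hcomm }
    have hAfin : Finite A := by
      apply CommGroup.finite_of_fg_isMulTorsion
      intro a
      rw [isOfFinOrder_iff_pow_eq_one]
      exact ⟨n, hn, Subtype.ext (by rw [Subgroup.coe_pow, hexp, Subgroup.coe_one])⟩
    exact Finite.of_subgroup_quotient A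

end Pool.Agent.Lib.MP_4c5e24_al
end

section

set_option autoImplicit false

/-!
RIG2-Pr4: elements of `p`-power order which act nontrivially on an elementary abelian `q`-group.
-/

namespace Pool.Agent.Lib.MP_4c5e24_al

open scoped commutatorElement

private theorem pr4_aux {p q : ℕ} (hp : p.Prime) (hq : q.Prime) (hpq : p ≠ q) {G : Type} [Group G]
    (E : Subgroup G) (hE : ∀ a ∈ E, ∀ b ∈ E, a * b = b * a) (hEq : ∀ a ∈ E, a ^ q = 1)
    (y : G) (hyE : ∀ a ∈ E, y * a * y⁻¹ ∈ E) (i : ℕ)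
    (hy : y ^ (p ^ i) = 1) (hyc : ∀ b ∈ E, y ^ p * b = b * y ^ p) (a : G) (ha : a ∈ E)
    (hne : y * a ≠ a * y) : Laws G ≤ AP q (Ab p) := by
  let S : Subgroup G := Subgroup.closure ((E : Set G) ∪ {y})
  have hyS : y ∈ S := Subgroup.subset_closure (Or.inr rfl)
  have hES : ∀ b ∈ E, b ∈ S := fun b hb => Subgroup.subset_closure (Or.inl hb)
  let yS : S := ⟨y, hyS⟩
  have hcen : ∀ s ∈ S, s * y ^ p = y ^ p * s := by
    intro s hs
    have h1 : S ≤ Subgroup.centralizer {y ^ p} := by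
      rw [Subgroup.closure_le]
      rintro b (hb | hb)
      · rw [SetLike.mem_coe, Subgroup.mem_centralizer_iff]
        rintro _ rfl
        exact hyc b hb
      · rw [SetLike.mem_coe, Subgroup.mem_centralizer_iff]
        rintro _ rfl
        rw [Set.mem_singleton_iff.1 hb]
        exact (Commute.self_pow y p).eq.symm
    exact (Subgroup.mem_centralizer_iff.1 (h1 hs) _ rfl).symm
  let Z : Subgroup S := Subgroup.zpowers (yS ^ p)
  have hZc : ∀ z ∈ Z, ∀ s : S, s * z = z * s := by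
    intro z hz s
    obtain ⟨k, rfl⟩ := Subgroup.mem_zpowers_iff.1 hz
    have h1 : Commute s (yS ^ p) := Subtype.ext (hcen s s.2)
    exact (h1.zpow_right k).eq
  have hZn : Z.Normal := ⟨fun z hz s => by rw [hZc z hz s, mul_inv_cancel_right]; exact hz⟩
  let mk : S →* S ⧸ Z := QuotientGroup.mk' Z
  have hmk : Function.Surjective mk := QuotientGroup.mk'_surjective Z
  have hlaws : Laws G ≤ Laws (S ⧸ Z) := by
    intro w hw f
    have h1 : ∃ g : F →* S, mk.comp g = f := by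
      refine ⟨FreeGroup.lift fun j => (hmk (f (FreeGroup.of j))).choose, ?_⟩
      ext j
      simp only [MonoidHom.comp_apply, FreeGroup.lift_apply_of]
      exact (hmk (f (FreeGroup.of j))).choose_spec
    obtain ⟨g, rfl⟩ := h1
    have h2 : S.subtype (g w) = 1 := hw (S.subtype.comp g)
    have h3 : g w = 1 := Subtype.ext h2
    rw [MonoidHom.comp_apply, h3, map_one]
  refine hlaws.trans ?_
  let E' : Subgroup (S ⧸ Z) := (E.subgroupOf S).map mk
  have hE' : ∀ b ∈ E', ∃ c : S, (c : G) ∈ E ∧ mk c = b := by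
    intro b hb
    obtain ⟨c, hc, hcb⟩ := Subgroup.mem_map.1 hb
    exact ⟨c, Subgroup.mem_subgroupOf.1 hc, hcb⟩
  have hE'' : ∀ c : S, (c : G) ∈ E → mk c ∈ E' := fun c hc =>
    Subgroup.mem_map.2 ⟨c, Subgroup.mem_subgroupOf.2 hc, rfl⟩
  refine hig (p := q) (q := p) hq hp hpq.symm E' ?_ ?_ (mk yS) ?_ ?_ (mk ⟨a, hES a ha⟩)
    (hE'' _ ha) ?_
  · intro b hb c hc
    obtain ⟨b, hb1, rfl⟩ := hE' b hb
    obtain ⟨c, hc1, rfl⟩ := hE' c hc
    rw [← map_mul, ← map_mul]
    exact congrArg mk (Subtype.ext (hE _ hb1 _ hc1))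
  · intro b hb
    obtain ⟨b, hb1, rfl⟩ := hE' b hb
    rw [← map_pow]
    have : b ^ q = 1 := Subtype.ext (hEq _ hb1)
    rw [this, map_one]
  · intro b hb
    obtain ⟨b, hb1, rfl⟩ := hE' b hb
    rw [← map_inv, ← map_mul, ← map_mul]
    exact hE'' _ (hyE _ hb1)
  · rw [← map_pow]
    exact (QuotientGroup.eq_one_iff _).2 (Subgroup.mem_zpowers _)
  · intro hcon
    apply hne
    set aS : S := ⟨a, hES a ha⟩
    have h1 : yS * aS * yS⁻¹ * aS⁻¹ ∈ Z := by
      rw [← QuotientGroup.eq_one_iff]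
      change mk (yS * aS * yS⁻¹ * aS⁻¹) = 1
      rw [map_mul, map_mul, map_mul, map_inv, map_inv, hcon]
      group
    obtain ⟨k, hk⟩ := Subgroup.mem_zpowers_iff.1 h1
    have h2 : y * a * y⁻¹ * a⁻¹ = (y ^ p) ^ k := by
      have := congrArg (fun z : S => (z : G)) hk
      simpa using this.symm
    have hcE : y * a * y⁻¹ * a⁻¹ ∈ E := E.mul_mem (hyE a ha) (E.inv_mem ha)
    have h3 : (y * a * y⁻¹ * a⁻¹) ^ q = 1 := hEq _ hcE
    have h4 : (y * a * y⁻¹ * a⁻¹) ^ (p ^ i) = 1 := by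
      rw [h2, ← zpow_natCast, ← zpow_mul, mul_comm, zpow_mul, zpow_natCast, ← pow_mul, mul_comm p,
        pow_mul, hy, one_pow, one_zpow]
    have h5 : y * a * y⁻¹ * a⁻¹ = 1 := by
      have hcop : Nat.Coprime q (p ^ i) :=
        Nat.Coprime.pow_right i ((Nat.coprime_primes hq hp).2 hpq.symm)
      have h6 := orderOf_dvd_of_pow_eq_one h3
      have h7 := orderOf_dvd_of_pow_eq_one h4
      have h8 : orderOf (y * a * y⁻¹ * a⁻¹) ∣ 1 := by
        rw [← hcop.gcd_eq_one]
        exact Nat.dvd_gcd h6 h7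
      exact orderOf_eq_one_iff.1 (Nat.dvd_one.1 h8)
    calc y * a = (y * a * y⁻¹ * a⁻¹) * (a * y) := by group
      _ = a * y := by rw [h5, one_mul]

/-- Let `p ≠ q` be primes, `E` an abelian subgroup of exponent `q` and `y` an element of `p`-power
order which normalises but does not centralise `E`. Then all laws of `G` are laws of `A_q A_p`.

Proof. Replace `y` by a power `y ^ (p ^ l)` which does not centralise `E` while
`y ^ (p ^ (l + 1))` does (`l` exists because `y ^ (p ^ i) = 1` centralises; it normalises `E`). So we may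
assume that `y ^ p` centralises `E`. Let `S` be the subgroup generated by `E` and `y`
(or `{a * y ^ j | a ∈ E, j : ℤ}`), and `Z = Subgroup.zpowers (y ^ p)`, which is central in `S`; in
`Q = S ⧸ Z` the image `E'` of `E` is an abelian subgroup of exponent `q`, the image `y'` of `y`
satisfies `y' ^ p = 1` and normalises `E'`, and it does not centralise `E'`: choose `a ∈ E` with
`y * a ≠ a * y`; the element `c = ⁅y, a⁆ ∈ E` satisfies `c ^ q = 1`, `c ≠ 1`; if `c ∈ Z` then `c` has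
`p`-power order as well, so `c = 1`. Now `hig` (with `p := q`, `q := p`) gives
`Laws Q ≤ AP q (Ab p)`, and `Laws G ≤ Laws S ≤ Laws Q` (a homomorphism `F →* Q` lifts to
`F →* S`). -/
theorem hig2 {p q : ℕ} (hp : p.Prime) (hq : q.Prime) (hpq : p ≠ q) {G : Type} [Group G]
    (E : Subgroup G) (hE : ∀ a ∈ E, ∀ b ∈ E, a * b = b * a) (hEq : ∀ a ∈ E, a ^ q = 1)
    (y : G) (hyE : ∀ a ∈ E, y * a * y⁻¹ ∈ E) (hyE' : ∀ a ∈ E, y⁻¹ * a * y ∈ E) (i : ℕ)
    (hy : y ^ (p ^ i) = 1) (a : G) (ha : a ∈ E) (hne : y * a ≠ a * y) :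
    Laws G ≤ AP q (Ab p) := by
  classical
  have hex : ∃ l : ℕ, ∀ b ∈ E, y ^ (p ^ l) * b = b * y ^ (p ^ l) :=
    ⟨i, fun b _ => by rw [hy, one_mul, mul_one]⟩
  have hl := Nat.find_spec hex
  have hmin := fun m => Nat.find_min hex (m := m)
  set l := Nat.find hex
  have hl0 : l ≠ 0 := by
    intro h0
    rw [h0, pow_zero, pow_one] at hl
    exact hne (hl a ha)
  obtain ⟨m, hm⟩ := Nat.exists_eq_succ_of_ne_zero hl0
  have h1 := hmin m (by omega)
  push Not at h1
  obtain ⟨b, hb, hbne⟩ := h1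
  refine pr4_aux hp hq hpq E hE hEq (y ^ (p ^ m)) ?_ i ?_ ?_ b hb hbne
  · have hpow : ∀ n : ℕ, ∀ c ∈ E, y ^ n * c * (y ^ n)⁻¹ ∈ E := by
      intro n
      induction n with
      | zero => intro c hc; simpa using hc
      | succ n ih =>
        intro c hc
        have h2 := hyE _ (ih c hc)
        have h3 : y ^ (n + 1) * c * (y ^ (n + 1))⁻¹ = y * (y ^ n * c * (y ^ n)⁻¹) * y⁻¹ := by
          rw [pow_succ']
          group
        rw [h3]
        exact h2
    exact hpow _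
  · rw [← pow_mul, mul_comm, pow_mul, hy, one_pow]
  · intro c hc
    have h2 := hl c hc
    rw [hm, Nat.succ_eq_add_one, pow_succ, pow_mul] at h2
    exact h2

end Pool.Agent.Lib.MP_4c5e24_al
end

section

set_option autoImplicit false

/-!
RIG2-Pr2: the conditions of which the product of solvable varieties of coprime exponents is the
least solution.
-/

namespace Pool.Agent.Lib.MP_4c5e24_al

open scoped commutatorElement

private theorem pr2_lift_mem {H : Subgroup F} (c : ℕ → F) (hc : ∀ i, c i ∈ H) (g : F) :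
    FreeGroup.lift c g ∈ H := by
  refine FreeGroup.induction_on (C := fun g => FreeGroup.lift c g ∈ H) g ?_ ?_ ?_ ?_
  · rw [map_one]
    exact H.one_mem
  · intro j
    rw [FreeGroup.lift_apply_of]
    exact hc j
  · intro j hj
    rw [map_inv]
    exact H.inv_mem hj
  · intro a b ha hb
    rw [map_mul]
    exact H.mul_mem ha hb

private theorem pr2_pow_mem {n : ℕ} {U X : FI} (hU : Bn n ≤ U) {c : F} (hc : c ∈ X.1) :
    c ^ n ∈ (prd U X).1 := by
  have h := mem_prd (X := X) (hU (pow_mem_Bn n (x 0))) (FreeGroup.lift fun _ => c)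
    (pr2_lift_mem _ fun _ => hc)
  rwa [map_pow, FreeGroup.lift_apply_of] at h

/-- The conditions of which `prd U X` is the least solution. -/
structure KP (n m : ℕ) (U X H : FI) : Prop where
  a : Bn (n * m) ≤ H
  b : U ≤ H ⊔ Bn n
  c : X ≤ H ⊔ Bn m
  d : ∀ p q : ℕ, p.Prime → q.Prime → p ∣ n → q ∣ m → ¬ H ≤ AP q (Ab p)
  e : ∃ s, der s ≤ H

/-- Proof: `x 0 ^ (n * m) = (x 0 ^ m) ^ n` is the image of `x 0 ^ n ∈ U` under the endomorphism which
maps all generators to `x 0 ^ m`. -/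
theorem KP_a {n m : ℕ} {U X : FI} (hU : Bn n ≤ U) (hX : Bn m ≤ X) : Bn (n * m) ≤ prd U X := by
  rw [Bn_le, mul_comm, pow_mul]
  exact pr2_pow_mem hU (hX (pow_mem_Bn m (x 0)))

/-- Proof. Let `n`, `m` be coprime and `u ∈ U`. Choose `m' : ℕ` with `m ∣ m'` and `m' ≡ 1` modulo `n`
(`Nat.chineseRemainder` or Bezout; for `n = 0` we have `m = 1` and `m' = 1`, the congruence means
`x ^ m' = x` up to `n`-th powers: `m' = 1 + n * l` for some `l : ℕ`; choose `m'` large). Let `φ` be the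
endomorphism `x i ↦ (x i) ^ m'`; its values are in
`X` (`pow_mem_Bn`; `X` is a subgroup), so `φ u ∈ prd U X`. Modulo `Bn n` we have `φ (x i) = x i`, so
`φ u ≡ u` modulo `Bn n` (compare the two homomorphisms `F →* F ⧸ (Bn n).1`). -/
theorem KP_b {n m : ℕ} (hnm : Nat.Coprime n m) (hn : 0 < n) {U X : FI} (hX : Bn m ≤ X) :
    U ≤ prd U X ⊔ Bn n := by
  intro u hu
  rcases Nat.lt_or_ge 1 n with h1 | h1
  · obtain ⟨k, -, hk⟩ := Nat.exists_mul_mod_eq_one_of_coprime hnm.symm h1
    obtain ⟨l, hl⟩ : ∃ l, m * k = 1 + n * l := ⟨m * k / n, by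
      have := Nat.mod_add_div (m * k) n
      rw [hk] at this
      exact this.symm⟩
    obtain ⟨φ, hφ⟩ : ∃ φ : F →* F, φ = FreeGroup.lift fun i => x i ^ (m * k) := ⟨_, rfl⟩
    have hφX : ∀ g, φ g ∈ X.1 := fun g => by
      rw [hφ]
      refine pr2_lift_mem _ (fun i => ?_) g
      rw [mul_comm m k, pow_mul]
      exact hX (pow_mem_Bn m _)
    have hφi : ∀ i, φ (x i) = x i ^ (m * k) := fun i => by
      rw [hφ, FreeGroup.lift_apply_of]
    have heq : (QuotientGroup.mk' (Bn n).1).comp φ = QuotientGroup.mk' (Bn n).1 := by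
      refine FreeGroup.ext_hom _ _ fun i => ?_
      show QuotientGroup.mk' (Bn n).1 (φ (x i)) = QuotientGroup.mk' (Bn n).1 (x i)
      have h2 : QuotientGroup.mk' (Bn n).1 ((x i ^ l) ^ n) = 1 := by
        rw [QuotientGroup.mk'_apply, QuotientGroup.eq_one_iff]
        exact pow_mem_Bn n _
      rw [hφi, hl, pow_add, pow_one, mul_comm n l, pow_mul, map_mul, h2, mul_one]
    have h3 : QuotientGroup.mk' (Bn n).1 (φ u) = QuotientGroup.mk' (Bn n).1 u :=
      DFunLike.congr_fun heq u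
    rw [QuotientGroup.mk'_apply, QuotientGroup.mk'_apply, QuotientGroup.eq] at h3
    exact mem_sup.2 ⟨φ u, mem_prd hu φ hφX, (φ u)⁻¹ * u, h3, by group⟩
  · have h2 : n = 1 := by omega
    subst h2
    refine mem_sup.2 ⟨1, Subgroup.one_mem _, u, ?_, one_mul u⟩
    have h3 := pow_mem_Bn 1 u
    rwa [pow_one] at h3

/-- Proof. Let `v ∈ X`. `v ^ n` is the image of `x 0 ^ n ∈ Bn n ≤ U` under the endomorphism which
maps all generators to `v`, so `v ^ n ∈ prd U X`; and `v ^ m ∈ Bn m`; `mem_of_pow`. -/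
theorem KP_c {n m : ℕ} (hnm : Nat.Coprime n m) {U X : FI} (hU : Bn n ≤ U) :
    X ≤ prd U X ⊔ Bn m := by
  intro v hv
  have h1 : v ^ n ∈ (prd U X ⊔ Bn m).1 := by
    rw [coe_sup]
    exact Subgroup.mem_sup_left (pr2_pow_mem hU hv)
  have h2 : v ^ m ∈ (prd U X ⊔ Bn m).1 := by
    rw [coe_sup]
    exact Subgroup.mem_sup_right (pow_mem_Bn m v)
  obtain ⟨N, hN⟩ : ∃ N : Subgroup F, N = (prd U X ⊔ Bn m).1 := ⟨_, rfl⟩
  show v ∈ (prd U X ⊔ Bn m).1
  rw [← hN] at h1 h2 ⊢
  have h3 : (n : ℤ) * n.gcdA m + m * n.gcdB m = 1 := by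
    rw [← Nat.gcd_eq_gcd_ab, hnm]
    rfl
  have h4 : v = (v ^ n) ^ n.gcdA m * (v ^ m) ^ n.gcdB m := by
    rw [← zpow_natCast, ← zpow_natCast, ← zpow_mul, ← zpow_mul, ← zpow_add, h3, zpow_one]
  rw [h4]
  exact N.mul_mem (N.zpow_mem h1 _) (N.zpow_mem h2 _)

/-- Proof. Let `p ∣ n`, `q ∣ m` be primes, `n`, `m` coprime, so `p ≠ q`. The word
`((x 0) ^ m * (x 1) ^ m) ^ n` is in `prd U X`: it is the image of `x 0 ^ n ∈ Bn n ≤ U` under the
endomorphism which maps all generators to `(x 0) ^ m * (x 1) ^ m ∈ X`. It is not in `AP q (Ab p)`: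
let `K`, `ζ` be as in `exists_field` for the characteristic `q` and `n := p`, `u` the unit `ζ`,
`G = Sd (Subgroup.zpowers u).subtype K`, which satisfies `AP q (Ab p)` (`test_laws`). Let
`g = ⟨u, _⟩`, `x 0 ↦ (1 - ζ, g)` (the conjugate of `(0, g)` by `(1, 1)`),
`x 1 ↦ (0, g⁻¹)`. Then `(x 0) ^ m ↦ (1 - ζ ^ m, g ^ m)` (`Sd.mk_pow`, `geom_sum_mul`), the product is
`(1 - ζ ^ m, 1)` and its `n`-th power is `(n (1 - ζ ^ m), 1)`, which is not trivial: `p` does not
divide `m`, and `q` does not divide `n`. -/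
theorem KP_d {n m : ℕ} (hnm : Nat.Coprime n m) {U X : FI} (hU : Bn n ≤ U) (hX : Bn m ≤ X)
    {p q : ℕ} (hp : p.Prime) (hq : q.Prime) (hpn : p ∣ n) (hqm : q ∣ m) :
    ¬ prd U X ≤ AP q (Ab p) := by
  intro hle
  have hpm : ¬ p ∣ m := fun h => hp.one_lt.ne' (Nat.dvd_one.1 (by
    rw [← Nat.Coprime.gcd_eq_one hnm]
    exact Nat.dvd_gcd hpn h))
  have hqn : ¬ q ∣ n := fun h => hq.one_lt.ne' (Nat.dvd_one.1 (by
    rw [← Nat.Coprime.gcd_eq_one hnm]
    exact Nat.dvd_gcd h hqm))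
  have hqp : Nat.Coprime q p := (Nat.coprime_primes hq hp).2 fun h => hpm (h ▸ hqm)
  obtain ⟨K, _, ζ, _, hζ⟩ := exists_field hq hp.pos hqp
  obtain ⟨u, hu⟩ : ∃ u : Kˣ, (u : K) = ζ := ⟨(hζ.isUnit hp.ne_zero).unit, rfl⟩
  have hup : u ^ p = 1 := by
    apply Units.ext
    rw [Units.val_pow_eq_pow_val, hu, hζ.pow_eq_one, Units.val_one]
  have hlaw := test_laws (p := q) (n := p) (K := K) hup
  obtain ⟨g, hg⟩ : ∃ g : Subgroup.zpowers u, (g : Kˣ) = u := ⟨⟨u, Subgroup.mem_zpowers u⟩, rfl⟩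
  have hρ : (((Subgroup.zpowers u).subtype g : Kˣ) : K) = ζ := by
    rw [Subgroup.coe_subtype, hg, hu]
  have hcX : x 0 ^ m * x 1 ^ m ∈ X.1 :=
    X.1.mul_mem (hX (pow_mem_Bn m _)) (hX (pow_mem_Bn m _))
  obtain ⟨ρ, hρd⟩ : ∃ ρ : Subgroup.zpowers u →* Kˣ, ρ = (Subgroup.zpowers u).subtype := ⟨_, rfl⟩
  rw [← hρd] at hρ hlaw
  have h3 : (∑ k ∈ Finset.range m, ζ ^ k) * (1 - ζ) = 1 - ζ ^ m := by
    have := geom_sum_mul ζ m
    linear_combination -this
  have e1 : (⟨1 - ζ, g⟩ : Sd ρ K) ^ m = ⟨1 - ζ ^ m, g ^ m⟩ := by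
    rw [Sd.mk_pow, hρ, smul_eq_mul, h3]
  have e2 : (⟨0, g⁻¹⟩ : Sd ρ K) ^ m = ⟨0, g⁻¹ ^ m⟩ := by
    rw [Sd.mk_pow, smul_zero]
  have e3 : (⟨1 - ζ, g⟩ : Sd ρ K) ^ m * (⟨0, g⁻¹⟩ : Sd ρ K) ^ m = ⟨1 - ζ ^ m, 1⟩ := by
    rw [e1, e2, Sd.mk_mul, smul_zero, add_zero, inv_pow, mul_inv_cancel]
  have e4 : ((⟨1 - ζ, g⟩ : Sd ρ K) ^ m * (⟨0, g⁻¹⟩ : Sd ρ K) ^ m) ^ n =
      ⟨(n : K) * (1 - ζ ^ m), 1⟩ := by
    rw [e3, Sd.mk_pow, map_one, Units.val_one]
    simp only [one_pow, Finset.sum_const, Finset.card_range, nsmul_eq_mul, mul_one, smul_eq_mul]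
  have h1 := hlaw (hle (pr2_pow_mem hU hcX))
    (FreeGroup.lift fun i => if i = 0 then (⟨1 - ζ, g⟩ : Sd ρ K) else ⟨0, g⁻¹⟩)
  rw [map_pow, map_mul, map_pow, map_pow, FreeGroup.lift_apply_of, FreeGroup.lift_apply_of,
    if_pos rfl, if_neg (by norm_num), e4] at h1
  have h2 : (n : K) * (1 - ζ ^ m) = 0 := congrArg Sd.m h1
  rcases mul_eq_zero.1 h2 with h4 | h4
  · exact hqn ((CharP.cast_eq_zero_iff K q n).1 h4)
  · exact hpm ((hζ.pow_eq_one_iff_dvd m).1 (sub_eq_zero.1 h4).symm)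

theorem KP_prd {n m : ℕ} (hnm : Nat.Coprime n m) (hn : 0 < n) {U X : FI} (hU : Bn n ≤ U)
    (hX : Bn m ≤ X) (hs : ∃ s, der s ≤ U) (ht : ∃ t, der t ≤ X) : KP n m U X (prd U X) := by
  obtain ⟨s, hs⟩ := hs
  obtain ⟨t, ht⟩ := ht
  exact ⟨KP_a hU hX, KP_b hnm hn hX, KP_c hnm hU,
    fun p q hp hq hpn hqm => KP_d hnm hU hX hp hq hpn hqm, ⟨s + t, der_le_prd hs ht⟩⟩

end Pool.Agent.Lib.MP_4c5e24_al
end

section

set_option autoImplicit false

/-!
RIG2-Pr5: normal Hall subgroups.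
-/

namespace Pool.Agent.Lib.MP_4c5e24_al

open scoped commutatorElement

private theorem pr5_quot {H : FI} {G Q : Type} [Group G] [Group Q] (π : G →* Q)
    (hπ : Function.Surjective π) (hG : H ≤ Laws G) : H ≤ Laws Q := by
  intro w hw f
  choose s hs using fun i : ℕ => hπ (f (x i))
  have h1 : π.comp (FreeGroup.lift s) = f := by
    ext i
    simp only [MonoidHom.comp_apply, FreeGroup.lift_apply_of]
    exact hs i
  rw [← h1, MonoidHom.comp_apply, hG hw, map_one]

private theorem pr5_sub {H : FI} {G S : Type} [Group G] [Group S] (ι : S →* G)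
    (hι : Function.Injective ι) (hG : H ≤ Laws G) : H ≤ Laws S := by
  intro w hw f
  apply hι
  rw [map_one]
  exact hG hw (ι.comp f)

/-- elements of order prime to `q` centralise -/
private theorem pr5_cent {G : Type} [Group G] (N : Subgroup G) (n : ℕ) (hn : 0 < n)
    (h : ∀ p : ℕ, p.Prime → p ∣ n → ∀ (y : G) (i : ℕ), y ^ (p ^ i) = 1 → ∀ a ∈ N, y * a = a * y) :
    ∀ c : G, c ^ n = 1 → ∀ a ∈ N, c * a = a * c := by
  induction n using Nat.recOnPosPrimePosCoprime with
  | zero => exact absurd hn (lt_irrefl 0)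
  | one =>
    intro c hc a _
    rw [pow_one] at hc
    rw [hc, one_mul, mul_one]
  | prime_pow p k hp hk =>
    intro c hc a ha
    exact h p hp (dvd_pow_self p hk.ne') c k hc a ha
  | coprime a b ha hb hab iha ihb =>
    intro c hc z hz
    have h1 := iha (by omega) fun p hp hpa => h p hp (hpa.mul_right b)
    have h2 := ihb (by omega) fun p hp hpb => h p hp (hpb.mul_left a)
    have h3 : (c ^ b) * z = z * c ^ b := by
      apply h1 _ _ z hz
      rw [← pow_mul, mul_comm, hc]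
    have h4 : (c ^ a) * z = z * c ^ a := by
      apply h2 _ _ z hz
      rw [← pow_mul, hc]
    have h5 : Commute (c ^ (a : ℤ)) z := by rw [zpow_natCast]; exact h4
    have h6 : Commute (c ^ (b : ℤ)) z := by rw [zpow_natCast]; exact h3
    have h7 : c = (c ^ (a : ℤ)) ^ (a.gcdA b) * (c ^ (b : ℤ)) ^ (a.gcdB b) := by
      rw [← zpow_mul, ← zpow_mul, ← zpow_add, ← Nat.gcd_eq_gcd_ab, hab]
      simp
    rw [h7]
    exact (h5.zpow_left _).mul_left (h6.zpow_left _)

private theorem pr5_coprime {G : Type} [Group G] {n m : ℕ} (h : Nat.Coprime n m) {g : G}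
    (h1 : g ^ n = 1) (h2 : g ^ m = 1) : g = 1 := by
  rw [← orderOf_eq_one_iff]
  have h3 := orderOf_dvd_of_pow_eq_one h1
  have h4 := orderOf_dvd_of_pow_eq_one h2
  have h5 := Nat.dvd_gcd h3 h4
  rw [h] at h5
  exact Nat.dvd_one.1 h5

/-- a minimal abelian subgroup -/
private theorem pr5_min {G : Type} [Group G] [Finite G] (s : ℕ) (hs : derivedSeries G s = ⊥)
    (hG : ∃ g : G, g ≠ 1) : ∃ (N : Subgroup G) (q : ℕ), N.Normal ∧ q.Prime ∧
      (∀ a ∈ N, a ^ q = 1) ∧ (∀ a ∈ N, ∀ b ∈ N, a * b = b * a) ∧ ∃ y ∈ N, y ≠ 1 := by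
  classical
  have hex : ∃ s, derivedSeries G s = ⊥ := ⟨s, hs⟩
  have h1 := Nat.find_spec hex
  have h2 : Nat.find hex ≠ 0 := by
    intro h0
    rw [h0, derivedSeries_zero] at h1
    obtain ⟨g, hg⟩ := hG
    have : g ∈ (⊤ : Subgroup G) := Subgroup.mem_top g
    rw [h1, Subgroup.mem_bot] at this
    exact hg this
  obtain ⟨t, ht⟩ := Nat.exists_eq_succ_of_ne_zero h2
  have h3 : derivedSeries G t ≠ ⊥ := Nat.find_min hex (by omega)
  rw [ht] at h1
  set A := derivedSeries G t with hA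
  have hAA : ⁅A, A⁆ = ⊥ := by
    rw [← h1, Nat.succ_eq_add_one, derivedSeries_succ]
  have hcomm : ∀ a ∈ A, ∀ b ∈ A, a * b = b * a := by
    intro a ha b hb
    have h4 : ⁅a, b⁆ ∈ ⁅A, A⁆ := Subgroup.commutator_mem_commutator ha hb
    rw [hAA, Subgroup.mem_bot, commutatorElement_eq_one_iff_mul_comm] at h4
    exact h4
  have hAn : A.Normal := by
    rw [hA]
    infer_instance
  have hcard : Nat.card A ≠ 1 := by
    intro h5
    exact h3 (Subgroup.card_eq_one.1 h5)
  have hq : (Nat.card A).minFac.Prime := Nat.minFac_prime hcard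
  have : Fact (Nat.card A).minFac.Prime := ⟨hq⟩
  obtain ⟨y, hy⟩ := exists_prime_orderOf_dvd_card' (G := A) (Nat.card A).minFac
    (Nat.minFac_dvd _)
  set q := (Nat.card A).minFac with hqdef
  let N : Subgroup G :=
    { carrier := {a | a ∈ A ∧ a ^ q = 1}
      mul_mem' := by
        rintro a b ⟨ha, ha'⟩ ⟨hb, hb'⟩
        refine ⟨mul_mem ha hb, ?_⟩
        have hc : Commute a b := hcomm a ha b hb
        rw [hc.mul_pow, ha', hb', one_mul]
      one_mem' := ⟨one_mem A, one_pow q⟩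
      inv_mem' := by
        rintro a ⟨ha, ha'⟩
        exact ⟨inv_mem ha, by rw [inv_pow, ha', inv_one]⟩ }
  refine ⟨N, q, ⟨?_⟩, hq, fun a ha => ha.2, fun a ha b hb => hcomm a ha.1 b hb.1, y, ⟨y.2, ?_⟩, ?_⟩
  · rintro a ⟨ha, ha'⟩ g
    exact ⟨hAn.conj_mem a ha g, by rw [conj_pow, ha', mul_one, mul_inv_cancel]⟩
  · have h5 : y ^ q = 1 := by rw [← hy, pow_orderOf_eq_one]
    exact_mod_cast congrArg Subtype.val h5
  · intro h6
    have h7 : y = 1 := Subtype.ext h6
    rw [h7, orderOf_one] at hy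
    exact hq.one_lt.ne hy

/-- the transfer into the center -/
private theorem pr5_transfer {K : Type} [Group K] [Finite K] {n q : ℕ} (hq : q.Prime)
    (hqn : Nat.Coprime n q) (hc : ∀ y a : K, y ^ n * a = a * y ^ n) (g h : K) (hg : g ^ n = 1)
    (hh : h ^ n = 1) (hgh : ((g * h) ^ n) ^ q = 1) : (g * h) ^ n = 1 := by
  have h1 : ∀ y : K, y ^ n ∈ Subgroup.center K := by
    intro y
    rw [Subgroup.mem_center_iff]
    intro a
    exact (hc y a).symm
  have h2 : ((g * h) ^ (Subgroup.center K).index) ^ n = 1 := by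
    have h3 : ((MonoidHom.transferCenterPow K (g * h) : Subgroup.center K) : K) ^ n = 1 := by
      rw [map_mul]
      have h4 : Commute (MonoidHom.transferCenterPow K g : K) (MonoidHom.transferCenterPow K h) :=
        ((Subgroup.mem_center_iff.1 (MonoidHom.transferCenterPow K g).2) _).symm
      rw [Subgroup.coe_mul, h4.mul_pow, MonoidHom.transferCenterPow_apply,
        MonoidHom.transferCenterPow_apply, ← pow_mul, ← pow_mul, mul_comm, pow_mul, pow_mul,
        hg, hh, one_pow, one_mul]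
    rwa [MonoidHom.transferCenterPow_apply] at h3
  have h5 : Nat.Coprime (Subgroup.center K).index q := by
    rw [Nat.coprime_comm, Nat.Prime.coprime_iff_not_dvd hq]
    intro hdvd
    have : Fact q.Prime := ⟨hq⟩
    rw [Subgroup.index_eq_card] at hdvd
    obtain ⟨y, hy⟩ := exists_prime_orderOf_dvd_card' (G := K ⧸ Subgroup.center K) q hdvd
    have h6 : y ^ n = 1 := by
      obtain ⟨z, rfl⟩ := QuotientGroup.mk_surjective y
      rw [← QuotientGroup.mk_pow, QuotientGroup.eq_one_iff]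
      exact h1 z
    have h7 : y ^ q = 1 := by rw [← hy, pow_orderOf_eq_one]
    have h8 := pr5_coprime hqn h6 h7
    rw [h8, orderOf_one] at hy
    exact hq.one_lt.ne hy
  refine pr5_coprime h5 ?_ hgh
  rw [← pow_mul, mul_comm, pow_mul, h2]

/-- In a finite solvable group of exponent `n m`, `n` and `m` coprime, in which no variety
`A_q A_p` (`p ∣ n`, `q ∣ m` primes) occurs, the elements with `g ^ n = 1` form a subgroup.

Proof. Strong induction on `Nat.card G`, for all groups. If `G` is trivial there is nothing to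
prove. Otherwise let `N` be a minimal normal subgroup of `G` (or any nontrivial normal abelian
subgroup of prime exponent: the last nontrivial term `A` of the derived series is abelian, choose a
prime `q` dividing its order and `N = {a ∈ A | a ^ q = 1}`), so `N ≠ ⊥` is normal, abelian and
`a ^ q = 1` for `a ∈ N`. Since `N ≠ ⊥` and `a ^ (n * m) = 1`, `q` divides `n` or `m`. `G ⧸ N` is
solvable, satisfies `H` and has smaller order, so `(g * h) ^ n ∈ N` by induction, and more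
generally `K = {x | x ^ n ∈ N}` is a subgroup (closed under products by the induction hypothesis,
normal). Let `b = (g * h) ^ n ∈ N`.
Case `q ∣ n`: `b ^ q = 1` and `b ^ m = (g * h) ^ (n * m) = 1` with `q`, `m` coprime, so `b = 1`.
Case `q ∣ m`: every element of `K` centralises `N`: an element `y` of order a power of `p`,
`p ∣ n`, centralises `N` by `hig2` (`p ≠ q` because `n`, `m` are coprime) and the hypothesis `hd`
(`H ≤ Laws G`), hence so do the elements `c` with `c ^ n = 1`, and every element of `K` is a product of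
such an element and an element of `N`. So `x ^ n` is central in `K` for `x ∈ K`, the index `k` of the
center of `K` is coprime to `q`, and the transfer `x ↦ x ^ k` is a homomorphism from `K` to its center:
`((g * h) ^ k) ^ n = (g ^ k * h ^ k) ^ n = 1`, so `b ^ k = 1 = b ^ q` and `b = 1`. -/
theorem fin_hall {n m : ℕ} (hnm : Nat.Coprime n m) {H : FI}
    (hd : ∀ p q : ℕ, p.Prime → q.Prime → p ∣ n → q ∣ m → ¬ H ≤ AP q (Ab p))
    {G : Type} [Group G] [Finite G] (s : ℕ) (hs : derivedSeries G s = ⊥) (hG : H ≤ Laws G)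
    (hexp : ∀ g : G, g ^ (n * m) = 1) (g h : G) (hg : g ^ n = 1) (hh : h ^ n = 1) :
    (g * h) ^ n = 1 := by
  obtain ⟨c, hc⟩ : ∃ c, Nat.card G = c := ⟨_, rfl⟩
  induction c using Nat.strong_induction_on generalizing G with
  | _ c ih =>
    by_cases htriv : ∃ g : G, g ≠ 1
    swap
    · push Not at htriv
      exact htriv _
    obtain ⟨N, q, hN, hq, hNq, hNc, y, hyN, hy1⟩ := pr5_min s hs htriv
    have hmul : ∀ a b : G, a ^ n ∈ N → b ^ n ∈ N → (a * b) ^ n ∈ N := by
      intro a b ha hb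
      have hcard : Nat.card (G ⧸ N) < c := by
        rw [← hc, N.card_eq_card_quotient_mul_card_subgroup]
        have h1 : 1 < Nat.card N := by
          rw [Subgroup.one_lt_card_iff_ne_bot]
          rintro rfl
          exact hy1 (Subgroup.mem_bot.1 hyN)
        have h2 : 0 < Nat.card (G ⧸ N) := Nat.card_pos
        nlinarith
      have h3 : derivedSeries (G ⧸ N) s = ⊥ := by
        rw [← map_derivedSeries_eq (QuotientGroup.mk'_surjective N) s, hs, Subgroup.map_bot]
      have h4 := ih _ hcard (G := G ⧸ N) h3 (pr5_quot _ (QuotientGroup.mk'_surjective N) hG)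
        (fun z => by
          obtain ⟨z, rfl⟩ := QuotientGroup.mk_surjective z
          rw [← QuotientGroup.mk_pow, hexp, QuotientGroup.mk_one])
        (QuotientGroup.mk a) (QuotientGroup.mk b)
        (by rw [← QuotientGroup.mk_pow, QuotientGroup.eq_one_iff]; exact ha)
        (by rw [← QuotientGroup.mk_pow, QuotientGroup.eq_one_iff]; exact hb) rfl
      rw [← QuotientGroup.mk_mul, ← QuotientGroup.mk_pow, QuotientGroup.eq_one_iff] at h4
      exact h4
    have hbN : (g * h) ^ n ∈ N := hmul g h (by rw [hg]; exact one_mem N) (by rw [hh]; exact one_mem N)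
    have hqf : Fact q.Prime := ⟨hq⟩
    have hyo : orderOf y = q := orderOf_eq_prime (hNq y hyN) hy1
    have hqnm : q ∣ n * m := by
      rw [← hyo]
      exact orderOf_dvd_of_pow_eq_one (hexp y)
    rcases (Nat.Prime.dvd_mul hq).1 hqnm with hqn | hqm
    · refine pr5_coprime (Nat.Coprime.coprime_dvd_left hqn hnm) (hNq _ hbN) ?_
      rw [← pow_mul, hexp]
    · have hnq : Nat.Coprime n q := Nat.Coprime.coprime_dvd_right hqm hnm
      have hn0 : 0 < n := by
        rcases Nat.eq_zero_or_pos n with h0 | h0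
        · rw [h0, Nat.coprime_zero_left] at hnq
          exact absurd hnq hq.one_lt.ne'
        · exact h0
      have hcent : ∀ z : G, z ^ n = 1 → ∀ a ∈ N, z * a = a * z := by
        apply pr5_cent N n hn0
        intro p hp hpn y i hy a ha
        by_contra hne
        have hpq : p ≠ q := by
          rintro rfl
          have h5 := Nat.dvd_gcd hpn hqm
          rw [hnm] at h5
          exact hp.one_lt.ne' (Nat.dvd_one.1 h5)
        exact hd p q hp hq hpn hqm (hG.trans (hig2 hp hq hpq N hNc hNq y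
          (fun a ha => hN.conj_mem a ha y)
          (fun a ha => by simpa using hN.conj_mem a ha y⁻¹) i hy a ha hne))
      let K : Subgroup G :=
        { carrier := {z | z ^ n ∈ N}
          mul_mem' := fun {a b} ha hb => hmul a b ha hb
          one_mem' := by
            show (1 : G) ^ n ∈ N
            rw [one_pow]
            exact one_mem N
          inv_mem' := by
            intro a ha
            show (a⁻¹) ^ n ∈ N
            rw [inv_pow]
            exact inv_mem ha }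
      have hK : ∀ z : K, ∀ a ∈ N, (z : G) * a = a * (z : G) := by
        intro z a ha
        have hz : (z : G) ^ n ∈ N := z.2
        have h5 : Commute ((z : G) ^ (n : ℤ)) a := by
          rw [zpow_natCast]
          exact hNc _ hz a ha
        have h6 : Commute ((z : G) ^ (q : ℤ)) a := by
          rw [zpow_natCast]
          apply hcent _ _ a ha
          rw [← pow_mul, mul_comm, pow_mul]
          exact hNq _ hz
        have h7 : (z : G) = ((z : G) ^ (n : ℤ)) ^ (n.gcdA q) * ((z : G) ^ (q : ℤ)) ^ (n.gcdB q) := by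
          rw [← zpow_mul, ← zpow_mul, ← zpow_add, ← Nat.gcd_eq_gcd_ab, hnq]
          simp
        rw [h7]
        exact (h5.zpow_left _).mul_left (h6.zpow_left _)
      have hgK : g ∈ K := by
        show g ^ n ∈ N
        rw [hg]
        exact one_mem N
      have hhK : h ∈ K := by
        show h ^ n ∈ N
        rw [hh]
        exact one_mem N
      have h8 := pr5_transfer (K := K) hq hnq
        (fun y a => Subtype.ext (by
          push_cast
          exact (hK a _ y.2).symm)) ⟨g, hgK⟩ ⟨h, hhK⟩ (Subtype.ext (by push_cast; exact hg))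
        (Subtype.ext (by push_cast; exact hh)) (Subtype.ext (by push_cast; exact hNq _ hbN))
      exact congrArg Subtype.val h8

/-- Proof. Let `G = F ⧸ H.1`, `Laws G = H` (`Laws_quot`). For `g`, `h : G` with `g ^ n = h ^ n = 1` the
subgroup generated by `g` and `h` is finite by `finite_of_solvable` (`0 < n * m`; `der s ≤ H`), and
`fin_hall` gives `(g * h) ^ n = 1`. So `T = {g | g ^ n = 1}` is a subgroup of `G`, normal. It satisfies
`H` and `Bn n`, so `U ≤ H ⊔ Bn n ≤ Laws T`. `G ⧸ T` satisfies `H` and `Bn m`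
(`(g ^ m) ^ n = 1`), so `X ≤ H ⊔ Bn m ≤ Laws (G ⧸ T)`. By `prd_le_Laws`, `prd U X ≤ Laws G = H`. -/
theorem KP_le {n m : ℕ} (hnm : Nat.Coprime n m) (hn : 0 < n) (hm : 0 < m) {U X H : FI}
    (h : KP n m U X H) : prd U X ≤ H := by
  obtain ⟨s, hs⟩ := h.e
  have hL := Laws_quot H
  have hexp : ∀ g : F ⧸ H.1, g ^ (n * m) = 1 := by
    intro g
    obtain ⟨g, rfl⟩ := QuotientGroup.mk_surjective g
    rw [← QuotientGroup.mk_pow, QuotientGroup.eq_one_iff]
    exact (Bn_le'.1 h.a) g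
  have hder : derivedSeries (F ⧸ H.1) s = ⊥ := by
    rw [← map_derivedSeries_eq (QuotientGroup.mk'_surjective H.1) s, Subgroup.map_eq_bot_iff,
      QuotientGroup.ker_mk']
    exact hs
  have hmul : ∀ g k : F ⧸ H.1, g ^ n = 1 → k ^ n = 1 → (g * k) ^ n = 1 := by
    intro g k hg hk
    let S := Subgroup.closure ({g, k} : Set (F ⧸ H.1))
    have hgS : g ∈ S := Subgroup.subset_closure (by simp)
    have hkS : k ∈ S := Subgroup.subset_closure (by simp)
    have hSd : derivedSeries S s = ⊥ := by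
      have h1 := map_derivedSeries_le_derivedSeries S.subtype s
      rw [hder, le_bot_iff, Subgroup.map_eq_bot_iff_of_injective _ S.subtype_injective] at h1
      exact h1
    have hSexp : ∀ z : S, z ^ (n * m) = 1 := fun z => Subtype.ext (by push_cast; exact hexp z)
    have hfg : Group.FG S := by
      rw [Group.fg_iff_subgroup_fg, Subgroup.fg_iff]
      exact ⟨{g, k}, rfl, Set.toFinite _⟩
    have hfin : Finite S := finite_of_solvable hfg s hSd (Nat.mul_pos hn hm) hSexp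
    have h2 := fin_hall hnm h.d s hSd (pr5_sub S.subtype S.subtype_injective hL.ge) hSexp
      ⟨g, hgS⟩ ⟨k, hkS⟩ (Subtype.ext (by push_cast; exact hg)) (Subtype.ext (by push_cast; exact hk))
    exact congrArg Subtype.val h2
  let T : Subgroup (F ⧸ H.1) :=
    { carrier := {z | z ^ n = 1}
      mul_mem' := fun {a b} ha hb => hmul a b ha hb
      one_mem' := one_pow n
      inv_mem' := by
        intro a ha
        show (a⁻¹) ^ n = 1
        have ha' : a ^ n = 1 := ha
        rw [inv_pow, ha', inv_one] }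
  have hTm : ∀ z, z ∈ T ↔ z ^ n = 1 := fun z => Iff.rfl
  have hT : T.Normal := by
    refine ⟨fun z hz g => ?_⟩
    rw [hTm] at hz ⊢
    rw [conj_pow, hz, mul_one, mul_inv_cancel]
  rw [← hL]
  refine prd_le_Laws (QuotientGroup.mk' T) (h.c.trans (sup_le ?_ ?_)) (h.b.trans (sup_le ?_ ?_))
  · exact pr5_quot _ (QuotientGroup.mk'_surjective T) hL.ge
  · rw [Bn_le]
    intro f
    rw [map_pow]
    obtain ⟨z, hz⟩ := QuotientGroup.mk_surjective (f (x 0))
    rw [← hz, ← QuotientGroup.mk_pow, QuotientGroup.eq_one_iff, hTm, ← pow_mul, mul_comm]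
    exact hexp z
  · exact pr5_sub (MonoidHom.ker (QuotientGroup.mk' T)).subtype (Subgroup.subtype_injective _) hL.ge
  · rw [Bn_le]
    intro f
    rw [map_pow]
    apply Subtype.ext
    push_cast
    have h3 := (f (x 0)).2
    rw [MonoidHom.mem_ker, QuotientGroup.mk'_apply, QuotientGroup.eq_one_iff, hTm] at h3
    exact h3

end Pool.Agent.Lib.MP_4c5e24_al
end
end
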