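import Pool.Agent.Lib.MP_4c5e24_al.Pr5

set_option autoImplicit false

/-!
RIG2-Pr6: automorphisms are multiplicative on solvable varieties of coprime exponents.
-/

namespace Pool.Agent.Lib.MP_4c5e24_al

open scoped commutatorElement

private theorem pr6_le {e : FI ≃o FI} {A H : FI} (hA : e A = A) : A ≤ e H ↔ A ≤ H := by
  conv_lhs => rw [← hA]
  exact e.le_iff_le

private theorem pr6_ge {e : FI ≃o FI} {A H : FI} (hA : e A = A) : e H ≤ A ↔ H ≤ A := by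
  conv_lhs => rw [← hA]
  exact e.le_iff_le

/-- Proof: `Fx`, `map_split`. -/
theorem KP_map {e : FI ≃o FI} (he : Fx e) {n m : ℕ} (hnm : Nat.Coprime n m) {U X H : FI} :
    KP n m (e U) (e X) (e H) ↔ KP n m U X H := by
  have hb : ∀ (U : FI) (k : ℕ), e U ≤ e H ⊔ Bn k ↔ U ≤ H ⊔ Bn k := by
    intro U k
    have h1 : e (H ⊔ Bn k) = e H ⊔ Bn k := by rw [map_sup, he.bn]
    rw [← h1, e.le_iff_le]
  constructor
  · intro h
    refine ⟨(pr6_le (he.bn _)).1 h.a, (hb U n).1 h.b, (hb X m).1 h.c, ?_, ?_⟩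
    · intro p q hp hq hpn hqm hle
      refine h.d p q hp hq hpn hqm ((pr6_ge (map_split he hq hp ?_)).2 hle)
      rintro rfl
      exact hp.one_lt.ne' (Nat.dvd_one.1 (hnm.gcd_eq_one ▸ Nat.dvd_gcd hpn hqm))
    · obtain ⟨s, hs⟩ := h.e
      exact ⟨s, (pr6_le (he.der s)).1 hs⟩
  · intro h
    refine ⟨(pr6_le (he.bn _)).2 h.a, (hb U n).2 h.b, (hb X m).2 h.c, ?_, ?_⟩
    · intro p q hp hq hpn hqm hle
      refine h.d p q hp hq hpn hqm ((pr6_ge (map_split he hq hp ?_)).1 hle)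
      rintro rfl
      exact hp.one_lt.ne' (Nat.dvd_one.1 (hnm.gcd_eq_one ▸ Nat.dvd_gcd hpn hqm))
    · obtain ⟨s, hs⟩ := h.e
      exact ⟨s, (pr6_le (he.der s)).2 hs⟩

/-- Proof. `prd U X` is the least `H` with `KP n m U X H` (`KP_prd`, `KP_le`), and
`prd (e U) (e X)` the least `H'` with `KP n m (e U) (e X) H'` (`Bn n = e (Bn n) ≤ e U`, and so on).
By `KP_map`, `e` maps the solutions of the first problem onto the solutions of the second. -/
theorem map_prd (e : FI ≃o FI) {n m : ℕ} (hnm : Nat.Coprime n m) (hn : 0 < n) (hm : 0 < m)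
    {U X : FI} (hU : Bn n ≤ U) (hX : Bn m ≤ X) (hs : ∃ s, der s ≤ U) (ht : ∃ t, der t ≤ X) :
    e (prd U X) = prd (e U) (e X) := by
  have he := fx e
  apply le_antisymm
  · have h1 : KP n m (e U) (e X) (prd (e U) (e X)) := by
      obtain ⟨s, hs⟩ := hs
      obtain ⟨t, ht⟩ := ht
      exact KP_prd hnm hn ((pr6_le (he.bn n)).2 hU) ((pr6_le (he.bn m)).2 hX)
        ⟨s, (pr6_le (he.der s)).2 hs⟩ ⟨t, (pr6_le (he.der t)).2 ht⟩
    rw [← e.apply_symm_apply (prd (e U) (e X)), KP_map he hnm] at h1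
    have h2 := e.monotone (KP_le hnm hn hm h1)
    rwa [OrderIso.apply_symm_apply] at h2
  · exact KP_le hnm hn hm ((KP_map he hnm).2 (KP_prd hnm hn hU hX hs ht))

/-- `X` is the join of its solvable subvarieties whose exponent is finite and prime to `n`. -/
def Rs (n : ℕ) (X : FI) : Prop :=
  ∀ w : F, (∀ m s : ℕ, 0 < m → Nat.Coprime n m → w ∈ (X ⊔ (Bn m ⊔ der s)).1) → w ∈ X.1

/-- Proof: as `Res.sep` in `MagCor`: for `t ∈ T` choose `m t`, `s t` with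
`t ∉ X ⊔ (Bn (m t) ⊔ der (s t))`, and take the product of the `m t` and the maximum of the `s t`
(`Bn_le_Bn`, `derivedSeries_antitone`). -/
theorem Rs.sep {n : ℕ} {X : FI} (h : Rs n X) (T : Finset F) (hT : ∀ t ∈ T, t ∉ X.1) :
    ∃ m s : ℕ, 0 < m ∧ Nat.Coprime n m ∧ ∀ t ∈ T, t ∉ (X ⊔ (Bn m ⊔ der s)).1 := by
  classical
  have h1 : ∀ t : F, ∃ m s : ℕ, 0 < m ∧ Nat.Coprime n m ∧
      (t ∈ T → t ∉ (X ⊔ (Bn m ⊔ der s)).1) := by
    intro t
    by_cases ht : t ∈ T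
    · by_contra hall
      push Not at hall
      exact hT t ht (h t fun m s hm hc => (hall m s hm hc).2)
    · exact ⟨1, 0, one_pos, Nat.coprime_one_right n, fun h => absurd h ht⟩
  choose m s hm hc hmt using h1
  refine ⟨∏ t ∈ T, m t, ∑ t ∈ T, s t, Finset.prod_pos fun t _ => hm t,
    Nat.Coprime.prod_right fun t _ => hc t, fun t ht hmem => hmt t ht ?_⟩
  have h2 : Bn (∏ t ∈ T, m t) ≤ Bn (m t) := Bn_le_Bn.2 (Finset.dvd_prod_of_mem m ht)
  have h3 : der (∑ t ∈ T, s t) ≤ der (s t) :=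
    derivedSeries_antitone F (Finset.single_le_sum (f := s) (fun _ _ => Nat.zero_le _) ht)
  exact (sup_le_sup_left (sup_le_sup h2 h3) X :
    X ⊔ (Bn (∏ t ∈ T, m t) ⊔ der (∑ t ∈ T, s t)) ≤ X ⊔ (Bn (m t) ⊔ der (s t))) hmem

/-- the index set of the exponents prime to `n` and derived lengths -/
private abbrev Ix (n : ℕ) := {p : ℕ × ℕ // 0 < p.1 ∧ Nat.Coprime n p.1}

private theorem Rs_iff {n : ℕ} {X : FI} :
    Rs n X ↔ (⨅ i : Ix n, (X ⊔ (Bn i.1.1 ⊔ der i.1.2))) ≤ X := by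
  unfold Rs
  rw [le_def]
  refine forall_congr' fun w => ?_
  rw [mem_iInf]
  constructor
  · exact fun h hw => h fun m s hm hc => hw ⟨(m, s), hm, hc⟩
  · exact fun h hw => h fun i => hw i.1.1 i.1.2 i.2.1 i.2.2

private theorem pr6_map {e : FI ≃o FI} (he : Fx e) (X : FI) (m s : ℕ) :
    e (X ⊔ (Bn m ⊔ der s)) = e X ⊔ (Bn m ⊔ der s) := by
  rw [map_sup, map_sup, he.bn, he.der]

/-- Proof: `e (X ⊔ (Bn m ⊔ der s)) = e X ⊔ (Bn m ⊔ der s)`, `OrderIso.map_iInf`. -/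
theorem Rs.map {e : FI ≃o FI} (he : Fx e) {n : ℕ} {X : FI} (h : Rs n X) : Rs n (e X) := by
  rw [Rs_iff] at h ⊢
  refine le_trans ?_ (e.monotone h)
  rw [e.map_iInf]
  refine le_iInf fun i => ?_
  rw [pr6_map he]
  exact iInf_le (fun i : Ix n => e X ⊔ (Bn i.1.1 ⊔ der i.1.2)) i

private theorem AP_Rs_eq {n : ℕ} {X : FI} (hX : Rs n X) :
    AP n X = ⨅ i : Ix n, AP n (X ⊔ (Bn i.1.1 ⊔ der i.1.2)) := by
  apply le_antisymm
  · exact le_iInf fun i => AP_mono dvd_rfl le_sup_left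
  · rw [le_def]
    intro w hw
    rw [mem_iInf] at hw
    refine mag_inf (ι := Ix n) (κ := Unit) n X.1 (fun i => (X ⊔ (Bn i.1.1 ⊔ der i.1.2)).1)
      (fun _ => n) (fun i => (le_sup_left : X ≤ X ⊔ (Bn i.1.1 ⊔ der i.1.2))) ?_ (fun _ => dvd_rfl)
      (fun a ha => ha ()) w (fun i _ => hw i)
    intro T hT
    obtain ⟨m, s, hm, hc, h⟩ := hX.sep T hT
    exact ⟨⟨(m, s), hm, hc⟩, h⟩

/-- Proof. Let `n > 0`. `AP n X` is the infimum of the `AP n (X ⊔ (Bn m ⊔ der s))` over all `m > 0`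
coprime to `n` and all `s` (`mag_inf` with `m := n`, `κ = Unit`, and `Rs.sep`; `AP_mono`). For each
of them `AP n Y = prd (Ab n) Y` (`prd_Ab`) and `e (prd (Ab n) Y) = prd (e (Ab n)) (e Y) = AP n (e Y)`
by `map_prd` (`Bn n ≤ Ab n`, `der 1 = Ab 0 ≤ Ab n`). Use `OrderIso.map_iInf` and `Rs.map`. -/
theorem map_AP_Rs (e : FI ≃o FI) {n : ℕ} (hn : 0 < n) {X : FI} (hX : Rs n X) :
    e (AP n X) = AP n (e X) := by
  have he := fx e
  rw [AP_Rs_eq hX, AP_Rs_eq (hX.map he), e.map_iInf]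
  refine iInf_congr fun i => ?_
  have h1 := map_prd e (n := n) (m := i.1.1) i.2.2 hn i.2.1 (U := Ab n)
    (X := X ⊔ (Bn i.1.1 ⊔ der i.1.2)) (Bn_le_Ab n) (le_sup_left.trans le_sup_right)
    ⟨1, by rw [der_one]; exact Ab0_le_Ab n⟩ ⟨i.1.2, le_sup_right.trans le_sup_right⟩
  rw [prd_Ab, he.ab, prd_Ab, pr6_map he] at h1
  exact h1

private theorem AP0_pow_eq {p : ℕ} (hp : p.Prime) (X : FI) :
    AP 0 X = ⨅ k : ℕ, AP (p ^ k) X := by
  apply le_antisymm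
  · exact le_iInf fun k => AP_mono (dvd_zero _) le_rfl
  · rw [le_def]
    intro w hw
    rw [mem_iInf] at hw
    refine mag_inf (ι := Unit) (κ := ℕ) 0 X.1 (fun _ => X.1)
      (fun k => p ^ k) (fun _ => le_refl _) (fun T hT => ⟨(), hT⟩) (fun _ => dvd_zero _) ?_ w
      (fun _ k => hw k)
    intro a ha
    have h0 : a = 0 := by
      by_contra hne
      have h1 : (((p ^ a.natAbs : ℕ) : ℕ) : ℤ) ∣ a := ha a.natAbs
      have h2 : p ^ a.natAbs ∣ a.natAbs := Int.natCast_dvd.1 h1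
      have h3 := Nat.le_of_dvd (Int.natAbs_pos.2 hne) h2
      have h4 : a.natAbs < p ^ a.natAbs := Nat.lt_pow_self hp.one_lt
      omega
    rw [h0]
    exact dvd_zero _

/-- Proof. `AP 0 X = ⨅ k, AP (p ^ k) X` by `mag_inf` (with `m = 0`, `ι = Unit`, `ms k = p ^ k`) and
`AP_mono`; `Rs p X` implies `Rs (p ^ k) X` (`Nat.Coprime.pow_left`); `map_AP_Rs`. -/
theorem map_AP0_Rs (e : FI ≃o FI) {p : ℕ} (hp : p.Prime) {X : FI} (hX : Rs p X) :
    e (AP 0 X) = AP 0 (e X) := by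
  rw [AP0_pow_eq hp X, AP0_pow_eq hp (e X), e.map_iInf]
  refine iInf_congr fun k => map_AP_Rs e (pow_pos hp.pos k) ?_
  intro w hw
  exact hX w fun m s hm hc => hw m s hm (Nat.Coprime.pow_left k hc)

end Pool.Agent.Lib.MP_4c5e24_al
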