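import Mathlib

section

set_option autoImplicit false

/-!
RIG3-W1: weighted central filtrations.
-/

namespace Pool.Agent.Lib.MP_4c5e24_al

open scoped commutatorElement

/-- The weighted filtration of a group `G` generated by elements with weights: `A k g` means that `g`
is a generator of weight `k`. -/
inductive Wf {G : Type} [Group G] (A : ℕ → G → Prop) : ℕ → G → Prop
  | gen {k : ℕ} {g : G} (h : A k g) : Wf A k g
  | one (k : ℕ) : Wf A k 1
  | mul {k : ℕ} {a b : G} (ha : Wf A k a) (hb : Wf A k b) : Wf A k (a * b)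
  | inv {k : ℕ} {a : G} (ha : Wf A k a) : Wf A k a⁻¹
  | comm {i j : ℕ} {a b : G} (ha : Wf A i a) (hb : Wf A j b) : Wf A (i + j) ⁅a, b⁆
  | mono {i j : ℕ} {a : G} (hij : i ≤ j) (ha : Wf A j a) : Wf A i a

/-- The members of the weighted filtration. -/
def Ws {G : Type} [Group G] (A : ℕ → G → Prop) (k : ℕ) : Subgroup G where
  carrier := {g | Wf A k g}
  mul_mem' := fun ha hb => Wf.mul ha hb
  one_mem' := Wf.one k
  inv_mem' := fun ha => Wf.inv ha

theorem mem_Ws {G : Type} [Group G] {A : ℕ → G → Prop} {k : ℕ} {g : G} :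
    g ∈ Ws A k ↔ Wf A k g := Iff.rfl

/-- A descending series of subgroups with `⁅S i, S j⁆ ≤ S (i + j)`. -/
structure NSer {G : Type} [Group G] (S : ℕ → Subgroup G) : Prop where
  anti : Antitone S
  comm : ∀ i j, ∀ a ∈ S i, ∀ b ∈ S j, ⁅a, b⁆ ∈ S (i + j)

theorem NSer_Ws {G : Type} [Group G] (A : ℕ → G → Prop) : NSer (Ws A) where
  anti := fun _ _ h _ hg => Wf.mono h hg
  comm := fun _ _ _ ha _ hb => Wf.comm ha hb

/-- The universal property. -/
theorem Wf.map {G G' : Type} [Group G] [Group G'] {A : ℕ → G → Prop} {S : ℕ → Subgroup G'}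
    (hS : NSer S) (f : G →* G') (hA : ∀ k g, A k g → f g ∈ S k) {k : ℕ} {g : G}
    (hg : Wf A k g) : f g ∈ S k := by
  induction hg with
  | gen h => exact hA _ _ h
  | one k => simp
  | mul _ _ iha ihb => rw [map_mul]; exact Subgroup.mul_mem _ iha ihb
  | inv _ ih => rw [map_inv]; exact Subgroup.inv_mem _ ih
  | comm _ _ iha ihb => rw [map_commutatorElement]; exact hS.comm _ _ _ iha _ ihb
  | mono h _ ih => exact hS.anti h ih

/-- If `S 1` is the whole group, the members of an `N`-series are normal.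

Proof: `g * a * g⁻¹ = ⁅g, a⁆ * a` and `⁅g, a⁆ ∈ S (1 + k) ≤ S k`. -/
theorem NSer.normal {G : Type} [Group G] {S : ℕ → Subgroup G} (hS : NSer S) (h1 : S 1 = ⊤)
    (k : ℕ) : (S k).Normal := by
  refine ⟨fun a ha g => ?_⟩
  have h2 : ⁅g, a⁆ ∈ S k := by
    have h3 := hS.comm 1 k g (h1 ▸ Subgroup.mem_top g) a ha
    exact hS.anti (Nat.le_add_left k 1) h3
  have h4 : g * a * g⁻¹ = ⁅g, a⁆ * a := by
    rw [commutatorElement_def]
    group
  rw [h4]
  exact (S k).mul_mem h2 ha

/-- The generators of a free group with weights. -/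
def fgen {Y : Type} (wt : Y → ℕ) (k : ℕ) (g : FreeGroup Y) : Prop :=
  ∃ y, wt y = k ∧ g = FreeGroup.of y

/-- The weighted filtration of a free group. -/
def WY {Y : Type} (wt : Y → ℕ) (k : ℕ) : Subgroup (FreeGroup Y) := Ws (fgen wt) k

theorem of_mem_WY {Y : Type} (wt : Y → ℕ) (y : Y) : FreeGroup.of y ∈ WY wt (wt y) :=
  Wf.gen ⟨y, rfl, rfl⟩

theorem NSer_WY {Y : Type} (wt : Y → ℕ) : NSer (WY wt) := NSer_Ws _

/-- Proof: all generators are in `WY wt 1` (`Wf.mono`); `FreeGroup.induction_on`. -/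
theorem WY_one {Y : Type} {wt : Y → ℕ} (hwt : ∀ y, 1 ≤ wt y) : WY wt 1 = ⊤ := by
  rw [eq_top_iff]
  intro g _
  induction g using FreeGroup.induction_on with
  | C1 => exact Subgroup.one_mem _
  | of y => exact Wf.mono (hwt y) (of_mem_WY wt y)
  | inv_of y _ => exact Subgroup.inv_mem _ (Wf.mono (hwt y) (of_mem_WY wt y))
  | mul a b ha hb =>
    exact Subgroup.mul_mem _ (ha (Subgroup.mem_top a)) (hb (Subgroup.mem_top b))

theorem WY_normal {Y : Type} {wt : Y → ℕ} (hwt : ∀ y, 1 ≤ wt y) (k : ℕ) : (WY wt k).Normal :=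
  (NSer_WY wt).normal (WY_one hwt) k

/-- The three subgroups lemma modulo a normal subgroup. -/
private theorem w1_three {G : Type} [Group G] (N H₁ H₂ H₃ : Subgroup G) [N.Normal]
    (h1 : ⁅⁅H₂, H₃⁆, H₁⁆ ≤ N) (h2 : ⁅⁅H₃, H₁⁆, H₂⁆ ≤ N) : ⁅⁅H₁, H₂⁆, H₃⁆ ≤ N := by
  have key : ∀ H : Subgroup G, H ≤ N ↔ H.map (QuotientGroup.mk' N) = ⊥ := by
    intro H
    rw [Subgroup.map_eq_bot_iff, QuotientGroup.ker_mk']
  rw [key, Subgroup.map_commutator, Subgroup.map_commutator] at h1 h2 ⊢
  exact Subgroup.commutator_commutator_eq_bot_of_rotate h1 h2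

/-- Commutators of the terms of the lower central series. -/
private theorem w1_lcs {G : Type} [Group G] (j : ℕ) : ∀ i : ℕ,
    ⁅(⊤ : Subgroup G).lowerCentralSeries i, (⊤ : Subgroup G).lowerCentralSeries j⁆ ≤
      (⊤ : Subgroup G).lowerCentralSeries (i + j + 1) := by
  induction j with
  | zero =>
    intro i
    exact le_rfl
  | succ j ih =>
    intro i
    rw [Subgroup.commutator_comm, Subgroup.lowerCentralSeries_succ]
    refine w1_three _ _ _ _ ?_ ?_
    · rw [Subgroup.commutator_comm ⊤, ← Subgroup.lowerCentralSeries_succ]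
      refine (ih (i + 1)).trans ?_
      rw [show i + 1 + j + 1 = i + (j + 1) + 1 by omega]
    · refine (Subgroup.commutator_mono (ih i) le_rfl).trans ?_
      rw [← Subgroup.lowerCentralSeries_succ, show i + j + 1 + 1 = i + (j + 1) + 1 by omega]

private theorem w1_nser (G : Type) [Group G] :
    NSer fun k => (⊤ : Subgroup G).lowerCentralSeries (k - 1) where
  anti := fun i j h => Subgroup.lowerCentralSeries_antitone _ (Nat.sub_le_sub_right h 1)
  comm := by
    intro i j a ha b hb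
    have hn : ∀ m, ((⊤ : Subgroup G).lowerCentralSeries m).Normal := fun m => inferInstance
    rcases Nat.eq_zero_or_pos i with rfl | hi
    · rw [zero_add]
      rw [commutatorElement_def]
      exact Subgroup.mul_mem _ ((hn _).conj_mem _ hb _) (Subgroup.inv_mem _ hb)
    rcases Nat.eq_zero_or_pos j with rfl | hj
    · rw [add_zero]
      have h2 : ⁅a, b⁆ = a * (b * a⁻¹ * b⁻¹) := by
        rw [commutatorElement_def]
        group
      rw [h2]
      exact Subgroup.mul_mem _ ha ((hn _).conj_mem _ (Subgroup.inv_mem _ ha) _)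
    · have h2 := w1_lcs (j - 1) (i - 1) (Subgroup.commutator_mem_commutator ha hb)
      rwa [show i - 1 + (j - 1) + 1 = i + j - 1 by omega] at h2

/-- If all weights are `1`, the filtration is the lower central series.

Proof. `≥`: induction on `k` (`WY_one`, `Subgroup.commutator_le`). `≤`: the lower central series
`S k = (⊤ : Subgroup _).lowerCentralSeries (k - 1)` is an `N`-series: `⁅γ_i, γ_j⁆ ≤ γ_(i+j)` (three
subgroups lemma; maybe in Mathlib as `Subgroup.commutator_lowerCentralSeries..`; otherwise by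
induction on `j` with `Subgroup.commutator_commutator_eq_bot_of_rotate` applied in the
quotient), where for `i = 0` one uses `S 0 = ⊤`. Apply `Wf.map` to the identity. -/
theorem WY_lcs {Y : Type} (k : ℕ) :
    WY (fun _ : Y => 1) (k + 1) = (⊤ : Subgroup (FreeGroup Y)).lowerCentralSeries k := by
  apply le_antisymm
  · intro g hg
    have h1 := Wf.map (w1_nser (FreeGroup Y)) (MonoidHom.id (FreeGroup Y)) (fun m g' hg' => by
      obtain ⟨y, hy, rfl⟩ := hg'
      subst hy
      exact Subgroup.mem_top _) (A := fgen fun _ : Y => 1) hg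
    exact h1
  · induction k with
    | zero =>
      rw [WY_one fun _ => le_rfl]
      exact le_top
    | succ k ih =>
      rw [Subgroup.lowerCentralSeries_succ, Subgroup.commutator_le]
      intro g₁ h₁ g₂ _
      refine (NSer_WY fun _ : Y => 1).comm (k + 1) 1 g₁ (ih h₁) g₂ ?_
      rw [WY_one fun _ => le_rfl]
      exact Subgroup.mem_top _

/-- The standard congruence in an `N`-series with `S 1 = ⊤`.

Proof. `⁅a' * a, b' * b⁆` modulo the normal subgroup `S (i + j + w)`: use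
`⁅a' * a, u⁆ = a' * ⁅a, u⁆ * a'⁻¹ * ⁅a', u⁆` with `⁅a', u⁆ ∈ S (i + w + j)` for `u ∈ S j` and
`a' * c * a'⁻¹ = ⁅a', c⁆ * c` with `⁅a', c⁆ ∈ S (i + w + (i + j)) ≤ S (i + j + w)` for
`c ∈ S (i + j)`, and the same in the second argument. -/
theorem NSer.comm_congr {G : Type} [Group G] {S : ℕ → Subgroup G} (hS : NSer S) (h1 : S 1 = ⊤)
    {i j w : ℕ} {a a' b b' : G} (ha : a ∈ S i) (hb : b ∈ S j) (ha' : a' ∈ S (i + w))
    (hb' : b' ∈ S (j + w)) : ⁅a' * a, b' * b⁆ * ⁅a, b⁆⁻¹ ∈ S (i + j + w) := by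
  have hn := hS.normal h1 (i + j + w)
  have hy : b' * b ∈ S j := (S j).mul_mem (hS.anti (Nat.le_add_right j w) hb') hb
  have e1 : ⁅a', b' * b⁆ ∈ S (i + j + w) := by
    have h := hS.comm _ _ _ ha' _ hy
    exact hS.anti (by omega) h
  have e2 : ⁅a', ⁅a, b' * b⁆⁆ ∈ S (i + j + w) := by
    have h := hS.comm _ _ _ ha' _ (hS.comm _ _ _ ha _ hy)
    exact hS.anti (by omega) h
  have e3 : ⁅a, b'⁆ ∈ S (i + j + w) := by
    have h := hS.comm _ _ _ ha _ hb'
    exact hS.anti (by omega) h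
  have e4 : ⁅b', ⁅a, b⁆⁆ ∈ S (i + j + w) := by
    have h := hS.comm _ _ _ hb' _ (hS.comm _ _ _ ha _ hb)
    exact hS.anti (by omega) h
  have h5 : ⁅a' * a, b' * b⁆ * ⁅a, b⁆⁻¹ = (⁅a', ⁅a, b' * b⁆⁆ *
      (⁅a, b' * b⁆ * ⁅a', b' * b⁆ * ⁅a, b' * b⁆⁻¹)) * (⁅a, b'⁆ * ⁅b', ⁅a, b⁆⁆) := by
    simp only [commutatorElement_def]
    group
  rw [h5]
  exact (S (i + j + w)).mul_mem ((S (i + j + w)).mul_mem e2 (hn.conj_mem _ e1 _))
    ((S (i + j + w)).mul_mem e3 e4)

/-- Endomorphisms which shift the generators shift the filtration.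

Proof: induction on `hg` (`Wf`). `gen`: hypothesis. `one`, `mono`: clear. `mul`:
`f (a * b) * (a * b)⁻¹ = (f a) * (f b * b⁻¹) * (f a)⁻¹ * (f a * a⁻¹)` and normality. `inv`:
`f a⁻¹ * a = (a⁻¹ * (f a * a⁻¹)⁻¹ * a)`, up to a conjugation of `(f a * a⁻¹)⁻¹`. `comm`: `f a = a' * a`
with `a' = f a * a⁻¹`, the same for `b`, and `NSer.comm_congr`. -/
theorem Wf.shift {G : Type} [Group G] {A : ℕ → G → Prop} (h1 : Ws A 1 = ⊤) (f : G →* G) (w : ℕ)
    (hA : ∀ k g, A k g → f g * g⁻¹ ∈ Ws A (k + w)) {k : ℕ} {g : G} (hg : Wf A k g) :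
    f g * g⁻¹ ∈ Ws A (k + w) := by
  have hS := NSer_Ws A
  have hn : ∀ m, (Ws A m).Normal := fun m => hS.normal h1 m
  induction hg with
  | gen h => exact hA _ _ h
  | one k =>
    rw [map_one, inv_one, mul_one]
    exact Subgroup.one_mem _
  | @mul k a b _ _ iha ihb =>
    have h2 : f (a * b) * (a * b)⁻¹ = f a * (f b * b⁻¹) * (f a)⁻¹ * (f a * a⁻¹) := by
      rw [map_mul]
      group
    rw [h2]
    exact Subgroup.mul_mem _ ((hn _).conj_mem _ ihb _) iha
  | @inv k a _ ih =>
    have h2 : f a⁻¹ * a⁻¹⁻¹ = a⁻¹ * (f a * a⁻¹)⁻¹ * a⁻¹⁻¹ := by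
      rw [map_inv]
      group
    rw [h2]
    exact (hn _).conj_mem _ (Subgroup.inv_mem _ ih) _
  | @comm i j a b ha hb iha ihb =>
    have h2 := hS.comm_congr h1 (show a ∈ Ws A i from ha) (show b ∈ Ws A j from hb) iha ihb
    rw [inv_mul_cancel_right, inv_mul_cancel_right] at h2
    rw [map_commutatorElement]
    exact h2
  | mono hij _ ih => exact hS.anti (Nat.add_le_add_right hij w) ih

end Pool.Agent.Lib.MP_4c5e24_al
end

section

set_option autoImplicit false

/-!
RIG3-W2: unipotent endomorphisms of a group with a finite `N`-series.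
-/

namespace Pool.Agent.Lib.MP_4c5e24_al

open scoped commutatorElement

/-- Proof. Injective: if `f a = 1` and `a ∈ S i`, then `a⁻¹ = f a * a⁻¹ ∈ S (i + 1)`; so
`a ∈ S i` for all `i` (start with `S 1 = ⊤`), `a = 1`. Surjective: show by downward induction on `i`
(from `k`, that is by induction on `k - i`) that `S i` is contained in the range: for `a ∈ S i`,
`1 ≤ i`, the element `c = f a * a⁻¹` is in `S (i + 1)`, so in the range, and `a = c⁻¹ * f a`. -/
theorem bij_of_shift {B : Type} [Group B] {S : ℕ → Subgroup B} (hS : NSer S) (h1 : S 1 = ⊤)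
    {k : ℕ} (hk : S k = ⊥) (f : B →* B)
    (hf : ∀ i, 1 ≤ i → ∀ a ∈ S i, f a * a⁻¹ ∈ S (i + 1)) : Function.Bijective f := by
  constructor
  · rw [injective_iff_map_eq_one]
    intro a ha
    have h : ∀ i, a ∈ S (i + 1) := by
      intro i
      induction i with
      | zero => rw [h1]; exact Subgroup.mem_top _
      | succ i ih =>
        have h2 := hf (i + 1) (by omega) a ih
        rw [ha, one_mul] at h2
        exact (Subgroup.inv_mem_iff _).1 h2
    have h2 : a ∈ S k := hS.anti (Nat.le_succ k) (h k)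
    rw [hk, Subgroup.mem_bot] at h2
    exact h2
  · have h : ∀ n i, 1 ≤ i → k ≤ i + n → S i ≤ f.range := by
      intro n
      induction n with
      | zero =>
        intro i _ hi
        have h2 : S i ≤ S k := hS.anti (by omega)
        rw [hk] at h2
        exact h2.trans bot_le
      | succ n ih =>
        intro i hi hki a ha
        have h2 := ih (i + 1) (by omega) (by omega) (hf i hi a ha)
        have h3 : f a ∈ f.range := ⟨a, rfl⟩
        have h4 := f.range.mul_mem (f.range.inv_mem h2) h3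
        have h5 : (f a * a⁻¹)⁻¹ * f a = a := by group
        rwa [h5] at h4
    intro b
    have h2 := h k 1 le_rfl (by omega)
    rw [h1] at h2
    exact h2 (Subgroup.mem_top b)

/-- shift of the powers -/
private theorem w2_pow {B : Type} [Group B] {S : ℕ → Subgroup B} (hS : NSer S)
    {s : ℕ} (g : MulAut B)
    (hg : ∀ i, 1 ≤ i → ∀ a ∈ S i, g a * a⁻¹ ∈ S (i + s)) (r : ℕ) :
    ∀ i, 1 ≤ i → ∀ a ∈ S i, (g ^ r) a * a⁻¹ ∈ S (i + s) := by
  induction r with
  | zero => intro i _ a _; simp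
  | succ r ih =>
    intro i hi a ha
    set c := g a * a⁻¹ with hc
    have h2 : c ∈ S (i + s) := hg i hi a ha
    have h3 : g a = c * a := by rw [hc]; group
    have h4 : (g ^ (r + 1)) a * a⁻¹ = (g ^ r) c * c⁻¹ * c * ((g ^ r) a * a⁻¹) := by
      rw [pow_succ, MulAut.mul_apply, h3, map_mul]
      group
    rw [h4]
    have h5 : (g ^ r) c * c⁻¹ ∈ S (i + s) :=
      hS.anti (Nat.le_add_right _ _) (ih (i + s) (by omega) c h2)
    exact Subgroup.mul_mem _ (Subgroup.mul_mem _ h5 h2) (ih i hi a ha)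

/-- the powers of a shifting automorphism, to the second order -/
private theorem w2_pow2 {B : Type} [Group B] {S : ℕ → Subgroup B} (hS : NSer S) (h1 : S 1 = ⊤)
    {s : ℕ} (g : MulAut B)
    (hg : ∀ i, 1 ≤ i → ∀ a ∈ S i, g a * a⁻¹ ∈ S (i + s)) {i : ℕ} (hi : 1 ≤ i) {a : B}
    (ha : a ∈ S i) (r : ℕ) :
    (g ^ r) a * a⁻¹ * ((g a * a⁻¹) ^ r)⁻¹ ∈ S (i + 2 * s) := by
  have hn : (S (i + 2 * s)).Normal := hS.normal h1 _
  induction r with
  | zero => simp
  | succ r ih =>
    set c := g a * a⁻¹ with hc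
    have h2 : c ∈ S (i + s) := hg i hi a ha
    have h3 : g a = c * a := by rw [hc]; group
    have h5 : (g ^ r) c * c⁻¹ ∈ S (i + 2 * s) := by
      have h6 := w2_pow hS g hg r (i + s) (by omega) c h2
      rwa [show i + s + s = i + 2 * s by ring] at h6
    have h4 : (g ^ (r + 1)) a * a⁻¹ * (c ^ (r + 1))⁻¹ =
        ((g ^ r) c * c⁻¹) * (c * ((g ^ r) a * a⁻¹ * (c ^ r)⁻¹) * c⁻¹) := by
      rw [pow_succ g, MulAut.mul_apply, h3, map_mul, pow_succ' c]
      have h7 : (c * c ^ r)⁻¹ = (c ^ r)⁻¹ * c⁻¹ := mul_inv_rev _ _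
      rw [h7]
      group
    rw [h4]
    exact Subgroup.mul_mem _ h5 (hn.conj_mem _ ih c)

/-- A unipotent automorphism of a group of exponent `p ^ j` has `p`-power order.

Proof. For `s ≥ 1` say that an automorphism `g` has shift `s` if `g a * a⁻¹ ∈ S (i + s)` for all
`i ≥ 1`, `a ∈ S i`. Claim: if `g` has shift `s ≥ 1`, then `g ^ (p ^ j)` has shift `s + 1`. Let
`a ∈ S i`, `c = g a * a⁻¹ ∈ S (i + s)`. Then `g a = c * a` and by induction on `r`,
`(g ^ r) a * a⁻¹ ≡ c ^ r` modulo `S (i + 2 * s)` (the elements `(g ^ u) c` are congruent to `c` modulo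
`S (i + 2 * s)`, a normal subgroup, `NSer.normal`), and `c ^ (p ^ j) = 1`, `i + 2 s ≥ i + s + 1`. So
`f ^ ((p ^ j) ^ t) = f ^ (p ^ (j * t))` has shift `t + 1`; for `t = k` this is the identity, because
`S (1 + k + 1) ≤ S k = ⊥`. -/
theorem unipotent_order {B : Type} [Group B] {S : ℕ → Subgroup B} (hS : NSer S) (h1 : S 1 = ⊤)
    {k : ℕ} (hk : S k = ⊥) {p j : ℕ} (hexp : ∀ b : B, b ^ (p ^ j) = 1) (f : MulAut B)
    (hf : ∀ i, 1 ≤ i → ∀ a ∈ S i, f a * a⁻¹ ∈ S (i + 1)) : f ^ (p ^ (j * k)) = 1 := by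
  have hstep : ∀ (s : ℕ) (g : MulAut B), 1 ≤ s →
      (∀ i, 1 ≤ i → ∀ a ∈ S i, g a * a⁻¹ ∈ S (i + s)) →
      ∀ i, 1 ≤ i → ∀ a ∈ S i, (g ^ (p ^ j)) a * a⁻¹ ∈ S (i + (s + 1)) := by
    intro s g hs hg i hi a ha
    have h2 := w2_pow2 hS h1 g hg hi ha (p ^ j)
    rw [hexp, inv_one, mul_one] at h2
    exact hS.anti (by omega) h2
  have hall : ∀ t, ∀ i, 1 ≤ i → ∀ a ∈ S i, (f ^ ((p ^ j) ^ t)) a * a⁻¹ ∈ S (i + (t + 1)) := by
    intro t
    induction t with
    | zero => simpa using hf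
    | succ t ih =>
      have h2 := hstep (t + 1) _ (by omega) ih
      intro i hi a ha
      have h3 := h2 i hi a ha
      rwa [← pow_mul, ← pow_succ] at h3
  ext a
  have h2 := hall k 1 le_rfl a (by rw [h1]; exact Subgroup.mem_top _)
  have h3 : (f ^ ((p ^ j) ^ k)) a * a⁻¹ ∈ S k := hS.anti (by omega) h2
  rw [hk, Subgroup.mem_bot, mul_inv_eq_one] at h3
  rw [pow_mul, h3]
  rfl

/-- The group `B ⋊ ℤ` for an automorphism of `B`. -/
abbrev Bz {B : Type} [Group B] (f : MulAut B) := B ⋊[zpowersHom (MulAut B) f] Multiplicative ℤ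

/-- The series of `B ⋊ ℤ`: the generator of `ℤ` has weight `w`. -/
def Sz {B : Type} [Group B] (S : ℕ → Subgroup B) (f : MulAut B) (w : ℕ)
    (hinv : ∀ i, ∀ a ∈ S i, ∀ n : ℤ, (f ^ n) a ∈ S i) (i : ℕ) : Subgroup (Bz f) where
  carrier := {g | g.left ∈ S i ∧ (i ≤ w ∨ g.right = 1)}
  mul_mem' := by
    rintro a b ⟨ha, ha'⟩ ⟨hb, hb'⟩
    refine ⟨?_, ?_⟩
    · rw [SemidirectProduct.mul_left]
      refine Subgroup.mul_mem _ ha ?_
      exact hinv i _ hb (Multiplicative.toAdd a.right)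
    · rcases ha' with h | h
      · exact Or.inl h
      · rcases hb' with h' | h'
        · exact Or.inl h'
        · right
          rw [SemidirectProduct.mul_right, h, h', one_mul]
  one_mem' := ⟨Subgroup.one_mem _, Or.inr rfl⟩
  inv_mem' := by
    rintro a ⟨ha, ha'⟩
    refine ⟨?_, ?_⟩
    · rw [SemidirectProduct.inv_left]
      exact hinv i _ (Subgroup.inv_mem _ ha) (Multiplicative.toAdd (a.right)⁻¹)
    · rcases ha' with h | h
      · exact Or.inl h
      · right
        rw [SemidirectProduct.inv_right, h, inv_one]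

/-- all powers shift -/
private theorem w2_zpow {B : Type} [Group B] {S : ℕ → Subgroup B}
    (f : MulAut B) {w : ℕ} (hinv : ∀ i, ∀ a ∈ S i, ∀ n : ℤ, (f ^ n) a ∈ S i)
    (hf : ∀ i, ∀ a ∈ S i, f a * a⁻¹ ∈ S (i + w)) (n : ℤ) :
    ∀ i, ∀ a ∈ S i, (f ^ n) a * a⁻¹ ∈ S (i + w) := by
  induction n using Int.induction_on with
  | zero => intro i a _; simp
  | succ n ih =>
    intro i a ha
    have h1 : f a ∈ S i := by
      have h2 := hinv i a ha 1
      rwa [zpow_one] at h2
    have h2 : (f ^ ((n : ℤ) + 1)) a * a⁻¹ = ((f ^ (n : ℤ)) (f a) * (f a)⁻¹) * (f a * a⁻¹) := by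
      rw [zpow_add_one, MulAut.mul_apply]
      group
    rw [h2]
    exact Subgroup.mul_mem _ (ih i _ h1) (hf i a ha)
  | pred n ih =>
    intro i a ha
    have h1 : f⁻¹ a ∈ S i := by
      have h2 := hinv i a ha (-1)
      rwa [zpow_neg_one] at h2
    have h3 : f (f⁻¹ a) = a := MulAut.apply_inv_self _ f a
    have h2 : (f ^ (-(n : ℤ) - 1)) a * a⁻¹ =
        ((f ^ (-(n : ℤ))) (f⁻¹ a) * (f⁻¹ a)⁻¹) * (f (f⁻¹ a) * (f⁻¹ a)⁻¹)⁻¹ := by
      rw [zpow_sub_one, MulAut.mul_apply, h3]
      group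
    rw [h2]
    exact Subgroup.mul_mem _ (ih i _ h1) (Subgroup.inv_mem _ (hf i _ h1))

/-- `B ⋊ ℤ` has an `N`-series if `f` shifts the series of `B` by `w`.

Proof. Antitone: clear. Commutators: let `g = (a, m) ∈ Sz i`, `h = (b, n) ∈ Sz j`. The second
component of `⁅g, h⁆` is `1`. Write `g = a * x ^ m`, `h = b * x ^ n` (`x` the generator of `ℤ`; conjugation by
`x` is `f`). Every power `f ^ n` shifts the series by `w` as well (for negative `n` too:
`f⁻¹ a * a⁻¹ = f⁻¹ (f (a)⁻¹ ...)`; use `hinv`). Then `⁅g, h⁆` is a product of conjugates (by elements of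
`B ⋊ ℤ`; the subgroups `S i` of `B` are normal in `B` and invariant under `f`) of `⁅a, b⁆`,
`⁅x ^ m, b⁆` and `⁅a, x ^ n⁆` and of their inverses (`⁅x ^ m, x ^ n⁆ = 1`). Here
`⁅a, b⁆ ∈ S (i + j)`; if `m ≠ 0` then `i ≤ w` and `⁅x ^ m, b⁆ = (f ^ m) b * b⁻¹ ∈ S (j + w) ≤ S (i + j)`;
if `n ≠ 0` the same with `j ≤ w`. Direct formula:
`⁅(a, m), (b, n)⁆` has first component `a * (f ^ m) b * (f ^ n) a⁻¹ * b⁻¹` (check:
`(a,m)(b,n) = (a f^m(b), m+n)`, `(b,n)(a,m) = (b f^n(a), n+m)`, and the commutator is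
`(a f^m(b), m+n) (b f^n(a), m+n)⁻¹ = (a * f^m(b) * (f^n(a))⁻¹ * b⁻¹, 0)`), and this is
`⁅a, b⁆` modulo `S (i + j)`-corrections, so it is in `S (i + j)` because
`f ^ m b ∈ S (i + j) * b`, `f ^ n a ∈ S (i + j) * a`. -/
theorem NSer_Sz {B : Type} [Group B] {S : ℕ → Subgroup B} (hS : NSer S) (h1 : S 1 = ⊤)
    (f : MulAut B) {w : ℕ} (hinv : ∀ i, ∀ a ∈ S i, ∀ n : ℤ, (f ^ n) a ∈ S i)
    (hf : ∀ i, ∀ a ∈ S i, f a * a⁻¹ ∈ S (i + w)) : NSer (Sz S f w hinv) := by
  constructor
  · rintro i j hij g ⟨h2, h3⟩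
    exact ⟨hS.anti hij h2, h3.imp (fun h => hij.trans h) id⟩
  · rintro i j g ⟨hg, hg'⟩ h ⟨hh, hh'⟩
    have hr : ⁅g, h⁆.right = 1 := by
      rw [commutatorElement_def, SemidirectProduct.mul_right, SemidirectProduct.mul_right,
        SemidirectProduct.mul_right, SemidirectProduct.inv_right, SemidirectProduct.inv_right,
        mul_comm g.right h.right, mul_inv_cancel_right, mul_inv_cancel]
    have hl : ⁅g, h⁆.left = g.left * (f ^ (Multiplicative.toAdd g.right)) h.left *
        ((f ^ (Multiplicative.toAdd h.right)) g.left)⁻¹ * h.left⁻¹ := by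
      have h2 : ⁅g, h⁆ = (g * h) * (h * g)⁻¹ := by
        rw [commutatorElement_def, mul_inv_rev]; group
      have h3 : (h * g).right = (g * h).right := by
        rw [SemidirectProduct.mul_right, SemidirectProduct.mul_right, mul_comm]
      have h5 : ∀ (r : Multiplicative ℤ) (y : B), (zpowersHom (MulAut B) f r)
          ((zpowersHom (MulAut B) f r⁻¹) y) = y := by
        intro r y
        rw [← MulAut.mul_apply, ← map_mul, mul_inv_cancel, map_one]
        rfl
      rw [h2, SemidirectProduct.mul_left, SemidirectProduct.inv_left, h3, h5,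
        SemidirectProduct.mul_left, SemidirectProduct.mul_left,
        zpowersHom_apply, zpowersHom_apply, mul_inv_rev]
      group
    have hn : (S (i + j)).Normal := hS.normal h1 _
    refine ⟨?_, Or.inr hr⟩
    rw [hl]
    set u := (f ^ (Multiplicative.toAdd g.right)) h.left * h.left⁻¹ with hu
    set v := (f ^ (Multiplicative.toAdd h.right)) g.left * g.left⁻¹ with hv
    have huS : u ∈ S (i + j) := by
      rcases hg' with h2 | h2
      · exact hS.anti (by omega) (w2_zpow f hinv hf (Multiplicative.toAdd g.right) j h.left hh)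
      · rw [hu, h2]
        simp
    have hvS : v ∈ S (i + j) := by
      rcases hh' with h2 | h2
      · exact hS.anti (by omega) (w2_zpow f hinv hf (Multiplicative.toAdd h.right) i g.left hg)
      · rw [hv, h2]
        simp
    have h4 : g.left * (f ^ (Multiplicative.toAdd g.right)) h.left *
        ((f ^ (Multiplicative.toAdd h.right)) g.left)⁻¹ * h.left⁻¹ =
        (g.left * u * g.left⁻¹) * ⁅g.left, h.left⁆ * (h.left * v⁻¹ * h.left⁻¹) := by
      rw [hu, hv, commutatorElement_def]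
      group
    rw [h4]
    exact Subgroup.mul_mem _ (Subgroup.mul_mem _ (hn.conj_mem _ huS _) (hS.comm i j _ hg _ hh))
      (hn.conj_mem _ (Subgroup.inv_mem _ hvS) _)

end Pool.Agent.Lib.MP_4c5e24_al
end

section

set_option autoImplicit false

/-!
RIG3-W3: the elimination of a generator (Lazard), definitions and first properties.
-/

namespace Pool.Agent.Lib.MP_4c5e24_al

open scoped commutatorElement

/-- The generators after the elimination of `x`, up to weight `k`: the pair `(y, j)` stands for the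
commutator `⁅x, ⁅x, … ⁅x, y⁆⁆⁆` with `j` entries `x`. -/
abbrev Yn {Y : Type} (wt : Y → ℕ) (x : Y) (k : ℕ) : Type :=
  {z : {y : Y // y ≠ x} × Fin k // wt z.1.1 + z.2 * wt x < k}

/-- Their weights. -/
def wtn {Y : Type} (wt : Y → ℕ) (x : Y) (k : ℕ) (z : Yn wt x k) : ℕ :=
  wt z.1.1.1 + z.1.2 * wt x

/-- The generator `(y, j)`, or `1` if its weight is at least `k`. -/
def zz {Y : Type} (wt : Y → ℕ) (x : Y) (k : ℕ) (y : {y : Y // y ≠ x}) (j : ℕ) :
    FreeGroup (Yn wt x k) :=
  if h : j < k ∧ wt y.1 + j * wt x < k then FreeGroup.of ⟨(y, ⟨j, h.1⟩), h.2⟩ else 1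

/-- The action of `x` on the new generators. -/
def alph {Y : Type} (wt : Y → ℕ) (x : Y) (k : ℕ) :
    FreeGroup (Yn wt x k) →* FreeGroup (Yn wt x k) :=
  FreeGroup.lift (fun z => zz wt x k z.1.1 (z.1.2 + 1) * zz wt x k z.1.1 z.1.2)

/-- The iterated commutators. -/
def cj {Y : Type} (x y : Y) : ℕ → FreeGroup Y
  | 0 => FreeGroup.of y
  | j + 1 => ⁅FreeGroup.of x, cj x y j⁆

/-- The new generators as elements of the old free group. -/
def iot {Y : Type} (wt : Y → ℕ) (x : Y) (k : ℕ) : FreeGroup (Yn wt x k) →* FreeGroup Y :=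
  FreeGroup.lift (fun z => cj x z.1.1.1 z.1.2)

theorem wtn_pos {Y : Type} {wt : Y → ℕ} (hwt : ∀ y, 1 ≤ wt y) (x : Y) (k : ℕ)
    (z : Yn wt x k) : 1 ≤ wtn wt x k z :=
  (hwt _).trans (Nat.le_add_right _ _)

/-- Proof: induction on `j`, `Wf.comm`, `Wf.gen`; `wt x + (wt y + j * wt x) = wt y + (j + 1) * wt x`. -/
theorem cj_mem {Y : Type} (wt : Y → ℕ) (x y : Y) (j : ℕ) :
    cj x y j ∈ WY wt (wt y + j * wt x) := by
  induction j with
  | zero =>
    rw [zero_mul, add_zero]
    exact of_mem_WY wt y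
  | succ j ih =>
    have h1 := (NSer_WY wt).comm _ _ _ (of_mem_WY wt x) _ ih
    have h2 : wt x + (wt y + j * wt x) = wt y + (j + 1) * wt x := by ring
    rw [h2] at h1
    exact h1

/-- Proof: `Wf.map` with the `N`-series `WY wt` (`NSer_WY`) and `cj_mem`. -/
theorem iot_mem {Y : Type} (wt : Y → ℕ) (x : Y) (k : ℕ) {i : ℕ} {g : FreeGroup (Yn wt x k)}
    (hg : g ∈ WY (wtn wt x k) i) : iot wt x k g ∈ WY wt i := by
  refine Wf.map (NSer_WY wt) (iot wt x k) ?_ hg
  rintro _ _ ⟨z, rfl, rfl⟩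
  have h1 : iot wt x k (FreeGroup.of z) = cj x z.1.1.1 z.1.2 := by simp [iot]
  rw [h1]
  exact cj_mem wt x z.1.1.1 z.1.2

/-- Proof: if `(y, j)` is a generator it has weight `wt y + j * wt x`; otherwise `zz = 1`. -/
theorem zz_mem {Y : Type} (wt : Y → ℕ) (x : Y) (k : ℕ) (y : {y : Y // y ≠ x}) (j : ℕ) :
    zz wt x k y j ∈ WY (wtn wt x k) (wt y.1 + j * wt x) := by
  unfold zz
  split_ifs with h
  · exact of_mem_WY (wtn wt x k) ⟨(y, ⟨j, h.1⟩), h.2⟩
  · exact Subgroup.one_mem _

private theorem W3_zz_gen {Y : Type} (wt : Y → ℕ) (x : Y) (k : ℕ) (z : Yn wt x k) :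
    zz wt x k z.1.1 z.1.2 = FreeGroup.of z := by
  unfold zz
  rw [dif_pos ⟨z.1.2.2, z.2⟩]

private theorem W3_alph_of {Y : Type} (wt : Y → ℕ) (x : Y) (k : ℕ) (z : Yn wt x k) :
    alph wt x k (FreeGroup.of z) =
      zz wt x k z.1.1 (z.1.2 + 1) * zz wt x k z.1.1 z.1.2 := by
  simp [alph]

/-- Proof: `Wf.shift` (with `WY_one` for the weights `wtn`, `wtn_pos`): for a generator `z = (y, j)`,
`alph z * z⁻¹ = zz y (j + 1)` (since `zz y j = of z` for a generator), which has weight
`wt y + (j + 1) * wt x` (`zz_mem`). -/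
theorem alph_shift {Y : Type} {wt : Y → ℕ} (hwt : ∀ y, 1 ≤ wt y) (x : Y) (k : ℕ) {i : ℕ}
    {g : FreeGroup (Yn wt x k)} (hg : g ∈ WY (wtn wt x k) i) :
    alph wt x k g * g⁻¹ ∈ WY (wtn wt x k) (i + wt x) := by
  refine Wf.shift (WY_one (wtn_pos hwt x k)) (alph wt x k) (wt x) ?_ hg
  rintro _ _ ⟨z, rfl, rfl⟩
  rw [W3_alph_of, W3_zz_gen, mul_inv_cancel_right]
  have h1 := zz_mem wt x k z.1.1 (z.1.2 + 1)
  have h2 : wt z.1.1.1 + (z.1.2 + 1) * wt x = wtn wt x k z + wt x := by
    unfold wtn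
    ring
  rw [h2] at h1
  exact h1

/-- Proof: from `alph_shift` and `anti`: `alph g = (alph g * g⁻¹) * g`. -/
theorem alph_mem {Y : Type} {wt : Y → ℕ} (hwt : ∀ y, 1 ≤ wt y) (x : Y) (k : ℕ) {i : ℕ}
    {g : FreeGroup (Yn wt x k)} (hg : g ∈ WY (wtn wt x k) i) :
    alph wt x k g ∈ WY (wtn wt x k) i := by
  have h1 := (NSer_WY (wtn wt x k)).anti (Nat.le_add_right i (wt x)) (alph_shift hwt x k hg)
  have h2 := Subgroup.mul_mem _ h1 hg
  rwa [inv_mul_cancel_right] at h2

/-- `iot (zz y j)` is `cj x y j` modulo weight `k`.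

Proof: if `(y, j)` is a generator this is an equality; otherwise `zz = 1` and `cj x y j` has weight
`wt y + j * wt x ≥ k` (`cj_mem`; if `j ≥ k` then `j * wt x ≥ k` because `1 ≤ wt x`). -/
theorem iot_zz {Y : Type} {wt : Y → ℕ} (hwt : ∀ y, 1 ≤ wt y) (x : Y) (k : ℕ)
    (y : {y : Y // y ≠ x}) (j : ℕ) :
    iot wt x k (zz wt x k y j) * (cj x y.1 j)⁻¹ ∈ WY wt k := by
  by_cases h : j < k ∧ wt y.1 + j * wt x < k
  · have h1 : zz wt x k y j = FreeGroup.of ⟨(y, ⟨j, h.1⟩), h.2⟩ := by
      unfold zz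
      rw [dif_pos h]
    have h2 : iot wt x k (zz wt x k y j) = cj x y.1 j := by
      rw [h1]
      simp [iot]
    rw [h2, mul_inv_cancel]
    exact Subgroup.one_mem _
  · have h1 : zz wt x k y j = 1 := by
      unfold zz
      rw [dif_neg h]
    rw [h1, map_one, one_mul]
    refine Subgroup.inv_mem _ ((NSer_WY wt).anti ?_ (cj_mem wt x y.1 j))
    by_contra hlt
    push Not at hlt
    refine h ⟨?_, hlt⟩
    have h3 : j * 1 ≤ j * wt x := Nat.mul_le_mul_left j (hwt x)
    omega

/-- The endomorphism `alph` corresponds to the conjugation by `x`, modulo weight `k`.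

Proof. Both `g ↦ mk (iot (alph g))` and `g ↦ mk (x * iot g * x⁻¹)` are homomorphisms to
`FreeGroup Y ⧸ WY wt k` (`WY_normal`); on a generator `z = (y, j)` the first is
`cj x y (j + 1) * cj x y j` (`iot_zz`) and the second is `x * cj x y j * x⁻¹`, and
`⁅x, c⁆ * c = x * c * x⁻¹`. -/
theorem iot_alph {Y : Type} {wt : Y → ℕ} (hwt : ∀ y, 1 ≤ wt y) (x : Y) (k : ℕ)
    (g : FreeGroup (Yn wt x k)) :
    iot wt x k (alph wt x k g) * (FreeGroup.of x * iot wt x k g * (FreeGroup.of x)⁻¹)⁻¹ ∈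
      WY wt k := by
  have hN : (WY wt k).Normal := WY_normal hwt k
  obtain ⟨q, hq⟩ : ∃ q : FreeGroup Y →* FreeGroup Y ⧸ WY wt k,
      q = QuotientGroup.mk' (WY wt k) := ⟨_, rfl⟩
  have hq1 : ∀ a b : FreeGroup Y, a * b⁻¹ ∈ WY wt k ↔ q a = q b := by
    intro a b
    rw [hq, ← mul_inv_eq_one, ← map_inv, ← map_mul, QuotientGroup.mk'_apply,
      QuotientGroup.eq_one_iff]
  have key : q.comp ((iot wt x k).comp (alph wt x k)) =
      q.comp ((MulAut.conj (FreeGroup.of x)).toMonoidHom.comp (iot wt x k)) := by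
    apply FreeGroup.ext_hom
    intro z
    have h1 : q (iot wt x k (zz wt x k z.1.1 (z.1.2 + 1))) = q (cj x z.1.1.1 (z.1.2 + 1)) :=
      (hq1 _ _).1 (iot_zz hwt x k z.1.1 (z.1.2 + 1))
    have h2 : q (iot wt x k (zz wt x k z.1.1 z.1.2)) = q (cj x z.1.1.1 z.1.2) :=
      (hq1 _ _).1 (iot_zz hwt x k z.1.1 z.1.2)
    have h3 : iot wt x k (FreeGroup.of z) = cj x z.1.1.1 z.1.2 := by simp [iot]
    have h4 : (MulAut.conj (FreeGroup.of x)).toMonoidHom (cj x z.1.1.1 z.1.2) =
        cj x z.1.1.1 (z.1.2 + 1) * cj x z.1.1.1 z.1.2 := by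
      show FreeGroup.of x * cj x z.1.1.1 z.1.2 * (FreeGroup.of x)⁻¹ =
        ⁅FreeGroup.of x, cj x z.1.1.1 z.1.2⁆ * cj x z.1.1.1 z.1.2
      rw [commutatorElement_def]
      group
    rw [MonoidHom.comp_apply, MonoidHom.comp_apply, MonoidHom.comp_apply, MonoidHom.comp_apply,
      W3_alph_of, map_mul, map_mul, h1, h2, h3, h4, map_mul]
  rw [hq1]
  exact DFunLike.congr_fun key g

end Pool.Agent.Lib.MP_4c5e24_al
end

section

set_option autoImplicit false

/-!
RIG3-W4: the elimination theorem.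
-/

namespace Pool.Agent.Lib.MP_4c5e24_al

open scoped commutatorElement

private theorem w4_inv {B : Type} [Group B] {S : ℕ → Subgroup B} (hS : NSer S) (h1 : S 1 = ⊤)
    (f : MulAut B) {w : ℕ} (hw : 1 ≤ w) (hf : ∀ i, ∀ a ∈ S i, f a * a⁻¹ ∈ S (i + w)) :
    ∀ i, ∀ a ∈ S i, ∀ n : ℤ, (f ^ n) a ∈ S i := by
  have hfw : ∀ i, ∀ a ∈ S i, f a ∈ S i := by
    intro i a ha
    have h2 := Subgroup.mul_mem _ (hS.anti (Nat.le_add_right i w) (hf i a ha)) ha
    rwa [inv_mul_cancel_right] at h2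
  have hbw : ∀ i, ∀ a ∈ S i, f⁻¹ a ∈ S i := by
    intro i a ha
    have key : ∀ j, j ≤ i → f⁻¹ a ∈ S j := by
      intro j
      induction j with
      | zero =>
        intro _
        exact hS.anti (Nat.zero_le 1) (by rw [h1]; exact Subgroup.mem_top _)
      | succ j ih =>
        intro hj
        have h2 := hf j _ (ih (by omega))
        have h3 : f (f⁻¹ a) = a := MulAut.apply_inv_self B f a
        rw [h3] at h2
        have h4 : a * (f⁻¹ a)⁻¹ ∈ S (j + 1) := hS.anti (by omega) h2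
        have h5 := Subgroup.mul_mem _ (Subgroup.inv_mem _ h4) (hS.anti hj ha)
        have h6 : (a * (f⁻¹ a)⁻¹)⁻¹ * a = f⁻¹ a := by group
        rwa [h6] at h5
    exact key i le_rfl
  intro i a ha n
  induction n using Int.induction_on generalizing a with
  | zero => simpa using ha
  | succ n ih =>
    have h2 : (f ^ ((n : ℤ) + 1)) a = (f ^ (n : ℤ)) (f a) := by
      rw [zpow_add_one]
      rfl
    rw [h2]
    exact ih _ (hfw i a ha)
  | pred n ih =>
    have h2 : (f ^ (-(n : ℤ) - 1)) a = (f ^ (-(n : ℤ))) (f⁻¹ a) := by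
      rw [zpow_sub_one]
      rfl
    rw [h2]
    exact ih _ (hbw i a ha)

private theorem w4_conj {B R : Type} [Group B] [Group R] (f : MulAut B) (fn : B →* R) (c : R)
    (h : ∀ b, fn (f b) = c * fn b * c⁻¹) (n : ℤ) :
    ∀ b, fn ((f ^ n) b) = c ^ n * fn b * (c ^ n)⁻¹ := by
  induction n using Int.induction_on with
  | zero => intro b; simp
  | succ n ih =>
    intro b
    have h2 : (f ^ ((n : ℤ) + 1)) b = (f ^ (n : ℤ)) (f b) := by
      rw [zpow_add_one]
      rfl
    rw [h2, ih, h, zpow_add_one]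
    group
  | pred n ih =>
    intro b
    have h2 : (f ^ (-(n : ℤ) - 1)) b = (f ^ (-(n : ℤ))) (f⁻¹ b) := by
      rw [zpow_sub_one]
      rfl
    have h3 : fn (f⁻¹ b) = c⁻¹ * fn b * c := by
      have h4 := h (f⁻¹ b)
      have h5 : f (f⁻¹ b) = b := MulAut.apply_inv_self B f b
      rw [h5] at h4
      rw [h4]
      group
    rw [h2, ih, h3, zpow_sub_one]
    group

/-- The quotient of the free group on `Y` by the weight `k` part is an extension of `ℤ`
by the corresponding quotient for the new generators.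

Proof. Let `N = FreeGroup (Yn wt x k)`, `V i = WY (wtn wt x k) i`, `B = N ⧸ V k` (normal by
`WY_normal`, `wtn_pos`), `π` the projection and `S i = (V i).map π`, an `N`-series with
`S 1 = ⊤` (`WY_one`) and `S k = ⊥`. By `alph_mem`, `alph` induces an endomorphism `f₀` of `B`, with
`f₀ a * a⁻¹ ∈ S (i + wt x)` for `a ∈ S i` (`alph_shift`), so it is bijective (`bij_of_shift`,
`1 ≤ wt x`); let `f : MulAut B` be the automorphism. All powers of `f` preserve the `S i`: `f` does, and
`f (S i) = S i`: for `f⁻¹` use that the restriction of `f₀` to `S i` is surjective: in detail, for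
`a ∈ S i` let `b = f⁻¹ a`, and show `b ∈ S i` by: if `b ∈ S j` with `j < i` then
`a * b⁻¹ = f b * b⁻¹ ∈ S (j + 1)`, `a ∈ S i ≤ S (j + 1)`, so `b ∈ S (j + 1)`; start from `S 1 = ⊤`.
Let `G = Bz f`, with the series `Sz S f (wt x) _` (`NSer_Sz`), `Sz .. k` is trivial because
`wt x < k` and `S k = ⊥`. Let `Θ : FreeGroup Y →* G` map `x` to the generator
`SemidirectProduct.inr (Multiplicative.ofAdd 1)` and `y ≠ x` to
`SemidirectProduct.inl (π (zz y 0))`. Then `Θ` maps `WY wt i` into `Sz .. i` (`Wf.map`, `zz_mem`), so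
`Θ g = 1` for `g ∈ WY wt k`. Conversely, let `Ξ : G →* FreeGroup Y ⧸ WY wt k` be defined by
`SemidirectProduct.lift` from the homomorphism `B → FreeGroup Y ⧸ WY wt k` induced by `iot`
(`iot_mem`) and the powers of the class of `x`; the compatibility is `iot_alph` (for all powers of
`f`, by induction). On the generators `Ξ ∘ Θ` is the projection: for `y ≠ x` by `iot_zz` with `j = 0`
(`cj x y 0 = of y`). So `Ξ (Θ g)` is the class of `g`, and `Θ g = 1` implies `g ∈ WY wt k`. -/
theorem elim {Y : Type} [DecidableEq Y] {wt : Y → ℕ} (hwt : ∀ y, 1 ≤ wt y) {k : ℕ} (x : Y)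
    (hx : wt x < k) :
    ∃ (B : Type) (_ : Group B) (π : FreeGroup (Yn wt x k) →* B) (S : ℕ → Subgroup B)
      (f : MulAut B) (Θ : FreeGroup Y →* Bz f), Function.Surjective π ∧
      (∀ g, π g = 1 ↔ g ∈ WY (wtn wt x k) k) ∧ NSer S ∧ S 1 = ⊤ ∧ S k = ⊥ ∧
      (∀ i, 1 ≤ i → ∀ a ∈ S i, f a * a⁻¹ ∈ S (i + 1)) ∧ ∀ g, Θ g = 1 ↔ g ∈ WY wt k := by
  have hx1 : 1 ≤ wt x := hwt x
  haveI hVn : (WY (wtn wt x k) k).Normal := WY_normal (wtn_pos hwt x k) k
  haveI hWn : (WY wt k).Normal := WY_normal hwt k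
  set π : FreeGroup (Yn wt x k) →* FreeGroup (Yn wt x k) ⧸ WY (wtn wt x k) k :=
    QuotientGroup.mk' (WY (wtn wt x k) k) with hπ
  have hπs : Function.Surjective π := QuotientGroup.mk'_surjective _
  have hπ1 : ∀ g, π g = 1 ↔ g ∈ WY (wtn wt x k) k := fun g => QuotientGroup.eq_one_iff g
  set S : ℕ → Subgroup (FreeGroup (Yn wt x k) ⧸ WY (wtn wt x k) k) :=
    fun i => (WY (wtn wt x k) i).map π with hSdef
  have hS : NSer S := by
    refine ⟨fun i j hij => Subgroup.map_mono ((NSer_WY _).anti hij), ?_⟩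
    rintro i j _ ⟨a, ha, rfl⟩ _ ⟨b, hb, rfl⟩
    rw [← map_commutatorElement]
    exact Subgroup.mem_map_of_mem _ ((NSer_WY _).comm i j a ha b hb)
  have hS1 : S 1 = ⊤ := by
    show (WY (wtn wt x k) 1).map π = ⊤
    rw [WY_one (wtn_pos hwt x k)]
    exact Subgroup.map_top_of_surjective _ hπs
  have hSk : S k = ⊥ := by
    rw [eq_bot_iff]
    rintro _ ⟨a, ha, rfl⟩
    rw [Subgroup.mem_bot]
    exact (hπ1 a).2 ha
  -- the endomorphism
  let f₀ : (FreeGroup (Yn wt x k) ⧸ WY (wtn wt x k) k) →*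
      (FreeGroup (Yn wt x k) ⧸ WY (wtn wt x k) k) :=
    QuotientGroup.map _ _ (alph wt x k) (fun g hg => alph_mem hwt x k hg)
  have hf₀π : ∀ g, f₀ (π g) = π (alph wt x k g) := fun g => rfl
  have hf₀ : ∀ i, ∀ a ∈ S i, f₀ a * a⁻¹ ∈ S (i + wt x) := by
    rintro i _ ⟨a, ha, rfl⟩
    rw [hf₀π, ← map_inv, ← map_mul]
    exact Subgroup.mem_map_of_mem _ (alph_shift hwt x k ha)
  have hf₀1 : ∀ i, 1 ≤ i → ∀ a ∈ S i, f₀ a * a⁻¹ ∈ S (i + 1) :=
    fun i _ a ha => hS.anti (by omega) (hf₀ i a ha)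
  have hbij := bij_of_shift hS hS1 hSk f₀ hf₀1
  let f : MulAut (FreeGroup (Yn wt x k) ⧸ WY (wtn wt x k) k) := MulEquiv.ofBijective f₀ hbij
  have hff : ∀ a, f a = f₀ a := fun a => rfl
  have hf : ∀ i, ∀ a ∈ S i, f a * a⁻¹ ∈ S (i + wt x) := hf₀
  have hinv := w4_inv hS hS1 f hx1 hf
  have hNS := NSer_Sz hS hS1 f hinv hf
  let Θ : FreeGroup Y →* Bz f := FreeGroup.lift (fun y =>
    if h : y = x then SemidirectProduct.inr (Multiplicative.ofAdd 1)
    else SemidirectProduct.inl (π (zz wt x k ⟨y, h⟩ 0)))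
  have hΘx : Θ (FreeGroup.of x) = SemidirectProduct.inr (Multiplicative.ofAdd 1) := by
    show FreeGroup.lift _ _ = _
    rw [FreeGroup.lift_apply_of, dif_pos rfl]
  have hΘy : ∀ (y : Y) (h : y ≠ x),
      Θ (FreeGroup.of y) = SemidirectProduct.inl (π (zz wt x k ⟨y, h⟩ 0)) := by
    intro y h
    show FreeGroup.lift _ _ = _
    rw [FreeGroup.lift_apply_of, dif_neg h]
  refine ⟨_, inferInstance, π, S, f, Θ, hπs, hπ1, hS, hS1, hSk, hf₀1, fun g => ⟨?_, ?_⟩⟩
  · -- the inverse
    intro hg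
    let ι' : (FreeGroup (Yn wt x k) ⧸ WY (wtn wt x k) k) →* (FreeGroup Y ⧸ WY wt k) :=
      QuotientGroup.map _ _ (iot wt x k) (fun g hg => iot_mem wt x k hg)
    have hι' : ∀ g, ι' (π g) = QuotientGroup.mk' (WY wt k) (iot wt x k g) := fun g => rfl
    have hbase : ∀ b, ι' (f b) = QuotientGroup.mk' (WY wt k) (FreeGroup.of x) * ι' b *
        (QuotientGroup.mk' (WY wt k) (FreeGroup.of x))⁻¹ := by
      intro b
      obtain ⟨a, rfl⟩ := hπs b
      rw [hff, hf₀π, hι', hι', ← map_inv, ← map_mul, ← map_mul]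
      have h2 := (QuotientGroup.eq_one_iff _).2 (iot_alph hwt x k a)
      have h3 : QuotientGroup.mk' (WY wt k) (iot wt x k (alph wt x k a)) *
          (QuotientGroup.mk' (WY wt k)
            (FreeGroup.of x * iot wt x k a * (FreeGroup.of x)⁻¹))⁻¹ = 1 := by
        rw [← map_inv, ← map_mul]
        exact h2
      exact mul_inv_eq_one.1 h3
    let Ξ : Bz f →* (FreeGroup Y ⧸ WY wt k) :=
      SemidirectProduct.lift ι' (zpowersHom _ (QuotientGroup.mk' (WY wt k) (FreeGroup.of x)))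
        (fun n => by
          refine MonoidHom.ext (fun b => ?_)
          exact w4_conj f ι' _ hbase (Multiplicative.toAdd n) b)
    have hΞΘ : Ξ.comp Θ = QuotientGroup.mk' (WY wt k) := by
      refine FreeGroup.ext_hom _ _ (fun y => ?_)
      rw [MonoidHom.comp_apply]
      by_cases hy : y = x
      · subst hy
        rw [hΘx]
        show SemidirectProduct.lift _ _ _ _ = _
        rw [SemidirectProduct.lift_inr, zpowersHom_apply, toAdd_ofAdd, zpow_one]
      · rw [hΘy y hy]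
        show SemidirectProduct.lift _ _ _ _ = _
        rw [SemidirectProduct.lift_inl, hι']
        have h2 := (QuotientGroup.eq_one_iff _).2 (iot_zz hwt x k ⟨y, hy⟩ 0)
        have h3 : QuotientGroup.mk' (WY wt k) (iot wt x k (zz wt x k ⟨y, hy⟩ 0)) *
          (QuotientGroup.mk' (WY wt k) (FreeGroup.of y))⁻¹ = 1 := by
          rw [← map_inv, ← map_mul]
          exact h2
        exact mul_inv_eq_one.1 h3
    have h4 : QuotientGroup.mk' (WY wt k) g = 1 := by
      rw [← hΞΘ, MonoidHom.comp_apply, hg, map_one]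
    exact (QuotientGroup.eq_one_iff g).1 h4
  · intro hg
    have h2 : Θ g ∈ Sz S f (wt x) hinv k := by
      refine Wf.map hNS Θ ?_ hg
      rintro j _ ⟨y, hy, rfl⟩
      by_cases hyx : y = x
      · subst hyx
        rw [hΘx]
        refine ⟨?_, Or.inl hy.symm.le⟩
        rw [SemidirectProduct.left_inr]
        exact Subgroup.one_mem _
      · rw [hΘy y hyx]
        refine ⟨?_, Or.inr ?_⟩
        · rw [SemidirectProduct.left_inl]
          have h3 := zz_mem wt x k ⟨y, hyx⟩ 0
          rw [zero_mul, add_zero] at h3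
          rw [← hy]
          exact Subgroup.mem_map_of_mem _ h3
        · rw [SemidirectProduct.right_inl]
    obtain ⟨h3, h4⟩ := h2
    rw [hSk, Subgroup.mem_bot] at h3
    refine SemidirectProduct.ext ?_ ?_
    · rw [h3, SemidirectProduct.one_left]
    · rcases h4 with h5 | h5
      · omega
      · rw [h5, SemidirectProduct.one_right]

end Pool.Agent.Lib.MP_4c5e24_al
end

section

set_option autoImplicit false

/-!
RIG3-W5: free nilpotent groups (with weights) are torsion-free and residually of exponent a power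
of `p`.
-/

namespace Pool.Agent.Lib.MP_4c5e24_al

open scoped commutatorElement

/-- The quotient by the weight `k` part is torsion-free. -/
def TFp {Y : Type} (wt : Y → ℕ) (k : ℕ) : Prop :=
  ∀ (g : FreeGroup Y) (n : ℕ), 1 ≤ n → g ^ n ∈ WY wt k → g ∈ WY wt k

/-- The quotient by the weight `k` part is residually of `p`-power exponent. -/
def REp (p : ℕ) {Y : Type} (wt : Y → ℕ) (k : ℕ) : Prop :=
  ∀ g : FreeGroup Y, g ∉ WY wt k → ∃ (Q : Type) (_ : Group Q) (f : FreeGroup Y →* Q) (j : ℕ),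
    (∀ a : Q, a ^ (p ^ j) = 1) ∧ (∀ h ∈ WY wt k, f h = 1) ∧ f g ≠ 1

private theorem w5_right {B : Type} [Group B] {f : MulAut B} (a : Bz f) (n : ℕ) :
    (a ^ n).right = a.right ^ n := by
  have h := map_pow (SemidirectProduct.rightHom : Bz f →* Multiplicative ℤ) a n
  exact h

private theorem w5_inl_pow {B : Type} [Group B] {f : MulAut B} (b : B) (n : ℕ) :
    (SemidirectProduct.inl b : Bz f) ^ n = SemidirectProduct.inl (b ^ n) := by
  rw [map_pow]

private theorem w5_eq_inl {B : Type} [Group B] {f : MulAut B} (a : Bz f) (h : a.right = 1) :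
    a = SemidirectProduct.inl a.left := by
  refine SemidirectProduct.ext ?_ ?_
  · rw [SemidirectProduct.left_inl]
  · rw [SemidirectProduct.right_inl, h]

private theorem w5_act {B : Type} [Group B] (f : MulAut B) (n : Multiplicative ℤ) (b : B) :
    (zpowersHom (MulAut B) f n) b = (f ^ (Multiplicative.toAdd n)) b := rfl

/-- the quotient of `B ⋊ ℤ` -/
private theorem w5_quot {B : Type} [Group B] (f : MulAut B) (V : Subgroup B) [hV : V.Normal]
    (hVf : ∀ v ∈ V, ∀ n : ℤ, (f ^ n) v ∈ V) {p j q : ℕ}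
    (hexp : ∀ a : B, a ^ (p ^ j) ∈ V) (hq : ∀ a : B, (f ^ (p ^ q)) a * a⁻¹ ∈ V) {b : B}
    (hb : b ∉ V) :
    ∃ (Q : Type) (_ : Group Q) (F : Bz f →* Q), (∀ a : Q, a ^ (p ^ (q + j)) = 1) ∧
      F (SemidirectProduct.inl b) ≠ 1 := by
  have hqz : ∀ t : ℤ, ∀ a : B, (f ^ ((p ^ q : ℕ) * t)) a * a⁻¹ ∈ V := by
    intro t
    induction t using Int.induction_on with
    | zero => intro a; simp
    | succ t ih =>
      intro a
      have h2 : (f ^ (((p ^ q : ℕ) : ℤ) * ((t : ℤ) + 1))) a =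
          (f ^ (((p ^ q : ℕ) : ℤ) * (t : ℤ))) ((f ^ (p ^ q)) a) := by
        rw [mul_add, mul_one, zpow_add, zpow_natCast f (p ^ q)]
        rfl
      rw [h2]
      have h3 := V.mul_mem (ih ((f ^ (p ^ q)) a)) (hq a)
      have h4 : (f ^ (((p ^ q : ℕ) : ℤ) * (t : ℤ))) ((f ^ (p ^ q)) a) * ((f ^ (p ^ q)) a)⁻¹ *
          ((f ^ (p ^ q)) a * a⁻¹) =
          (f ^ (((p ^ q : ℕ) : ℤ) * (t : ℤ))) ((f ^ (p ^ q)) a) * a⁻¹ := by group
      rwa [h4] at h3
    | pred t ih =>
      intro a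
      have h2 : (f ^ (((p ^ q : ℕ) : ℤ) * (-(t : ℤ) - 1))) ((f ^ (p ^ q)) a) =
          (f ^ (((p ^ q : ℕ) : ℤ) * (-(t : ℤ)))) a := by
        rw [← MulAut.mul_apply, ← zpow_natCast f (p ^ q), ← zpow_add]
        congr 2
        ring
      -- apply to the preimage
      obtain ⟨c, hc⟩ : ∃ c, (f ^ (p ^ q)) c = a := (f ^ (p ^ q)).surjective a
      have h5 : (f ^ (((p ^ q : ℕ) : ℤ) * (-(t : ℤ) - 1))) a =
          (f ^ (((p ^ q : ℕ) : ℤ) * (-(t : ℤ)))) c := by
        rw [← hc, ← MulAut.mul_apply, ← zpow_natCast f (p ^ q), ← zpow_add]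
        congr 2
        ring
      rw [h5]
      have h6 := hq c
      rw [hc] at h6
      have h7 := V.mul_mem (ih c) (V.inv_mem h6)
      have h8 : (f ^ (((p ^ q : ℕ) : ℤ) * (-(t : ℤ)))) c * c⁻¹ * (a * c⁻¹)⁻¹ =
          (f ^ (((p ^ q : ℕ) : ℤ) * (-(t : ℤ)))) c * a⁻¹ := by group
      rwa [h8] at h7
  let K : Subgroup (Bz f) :=
    { carrier := {g | g.left ∈ V ∧ ∃ t : ℤ, Multiplicative.toAdd g.right = (p ^ q : ℕ) * t}
      mul_mem' := by
        rintro a c ⟨ha, t, ht⟩ ⟨hc, s, hs⟩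
        refine ⟨?_, t + s, ?_⟩
        · rw [SemidirectProduct.mul_left, w5_act]
          exact V.mul_mem ha (hVf _ hc _)
        · rw [SemidirectProduct.mul_right, toAdd_mul, ht, hs, mul_add]
      one_mem' := ⟨V.one_mem, 0, by rw [SemidirectProduct.one_right, toAdd_one, mul_zero]⟩
      inv_mem' := by
        rintro a ⟨ha, t, ht⟩
        refine ⟨?_, -t, ?_⟩
        · rw [SemidirectProduct.inv_left, w5_act]
          exact hVf _ (V.inv_mem ha) _
        · rw [SemidirectProduct.inv_right, toAdd_inv, ht, mul_neg] }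
  have hK : ∀ g : Bz f, g ∈ K ↔ g.left ∈ V ∧
      ∃ t : ℤ, Multiplicative.toAdd g.right = (p ^ q : ℕ) * t := fun g => Iff.rfl
  haveI hKn : K.Normal := by
    refine ⟨fun n hn g => ?_⟩
    obtain ⟨hn1, t, ht⟩ := (hK n).1 hn
    rw [hK]
    refine ⟨?_, t, ?_⟩
    · rw [SemidirectProduct.mul_left, SemidirectProduct.mul_left, SemidirectProduct.mul_right,
        SemidirectProduct.inv_left, w5_act, w5_act, w5_act, toAdd_mul, toAdd_inv,
        ← MulAut.mul_apply, ← zpow_add]
      have e1 : Multiplicative.toAdd g.right + Multiplicative.toAdd n.right +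
          -Multiplicative.toAdd g.right = (p ^ q : ℕ) * t := by rw [ht]; ring
      rw [e1]
      have h2 := hqz t g.left⁻¹
      rw [inv_inv] at h2
      have h3 : g.left * (f ^ Multiplicative.toAdd g.right) n.left *
          (f ^ (((p ^ q : ℕ) : ℤ) * t)) g.left⁻¹ =
          (g.left * (f ^ Multiplicative.toAdd g.right) n.left * g.left⁻¹) *
          (g.left * ((f ^ (((p ^ q : ℕ) : ℤ) * t)) g.left⁻¹ * g.left) * g.left⁻¹) := by group
      rw [h3]
      exact V.mul_mem (hV.conj_mem _ (hVf _ hn1 _) _) (hV.conj_mem _ h2 _)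
    · rw [SemidirectProduct.mul_right, SemidirectProduct.mul_right, SemidirectProduct.inv_right,
        toAdd_mul, toAdd_mul, toAdd_inv, ht]
      ring
  refine ⟨Bz f ⧸ K, inferInstance, QuotientGroup.mk' K, ?_, ?_⟩
  · intro a
    obtain ⟨g, rfl⟩ := QuotientGroup.mk'_surjective K a
    rw [← map_pow]
    refine (QuotientGroup.eq_one_iff _).2 ?_
    rw [pow_add, pow_mul]
    -- `g ^ (p ^ q)` is congruent to `inl c`
    set c : Bz f := g ^ (p ^ q) with hc
    have hcr : ∃ t : ℤ, Multiplicative.toAdd c.right = (p ^ q : ℕ) * t := by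
      refine ⟨Multiplicative.toAdd g.right, ?_⟩
      rw [hc, w5_right, toAdd_pow, nsmul_eq_mul]
    have h1 : (QuotientGroup.mk' K) c = (QuotientGroup.mk' K) (SemidirectProduct.inl c.left) := by
      have h2 : c = SemidirectProduct.inl c.left * SemidirectProduct.inr c.right :=
        (SemidirectProduct.inl_left_mul_inr_right c).symm
      have h3 : (QuotientGroup.mk' K) (SemidirectProduct.inr c.right : Bz f) = 1 := by
        refine (QuotientGroup.eq_one_iff _).2 ?_
        rw [hK, SemidirectProduct.left_inr, SemidirectProduct.right_inr]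
        exact ⟨V.one_mem, hcr⟩
      conv_lhs => rw [h2]
      rw [map_mul, h3, mul_one]
    have h4 : (QuotientGroup.mk' K) (c ^ (p ^ j)) = 1 := by
      rw [map_pow, h1, ← map_pow, w5_inl_pow]
      refine (QuotientGroup.eq_one_iff _).2 ?_
      rw [hK, SemidirectProduct.left_inl, SemidirectProduct.right_inl]
      exact ⟨hexp _, 0, by rw [toAdd_one, mul_zero]⟩
    exact (QuotientGroup.eq_one_iff _).1 h4
  · intro h0
    have h1 := (QuotientGroup.eq_one_iff _).1 h0
    rw [hK, SemidirectProduct.left_inl] at h1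
    exact hb h1.1

private theorem w5_card {Y : Type} [Finite Y] {wt : Y → ℕ} (hwt : ∀ y, 1 ≤ wt y) {k d : ℕ}
    (hd : ∀ y, d ≤ wt y) (x : Y) (hx : wt x = d) :
    Nat.card {z : Yn wt x k // wtn wt x k z = d} < Nat.card {y : Y // wt y = d} := by
  classical
  haveI : Fintype {z : Yn wt x k // wtn wt x k z = d} := Fintype.ofFinite _
  haveI : Fintype {y : Y // wt y = d} := Fintype.ofFinite _
  rw [Nat.card_eq_fintype_card, Nat.card_eq_fintype_card]
  have h1x := hwt x
  have key : ∀ z : Yn wt x k, wtn wt x k z = d → wt z.1.1.1 = d ∧ (z.1.2 : ℕ) = 0 := by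
    intro z hz
    unfold wtn at hz
    have h2 := hd z.1.1.1
    have h3 : (z.1.2 : ℕ) * wt x = 0 := by omega
    rcases Nat.mul_eq_zero.1 h3 with h4 | h4
    · refine ⟨?_, h4⟩
      rw [h4, zero_mul, add_zero] at hz
      exact hz
    · omega
  refine Fintype.card_lt_of_injective_of_notMem
    (fun z : {z : Yn wt x k // wtn wt x k z = d} =>
      (⟨z.1.1.1.1, (key z.1 z.2).1⟩ : {y : Y // wt y = d})) ?_ (b := ⟨x, hx⟩) ?_
  · rintro ⟨⟨⟨y, i⟩, hz⟩, hzd⟩ ⟨⟨⟨y', i'⟩, hz'⟩, hzd'⟩ h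
    have h2 := (key _ hzd).2
    have h3 := (key _ hzd').2
    simp only [Subtype.mk.injEq] at h
    simp only at h2 h3
    have h4 : y = y' := Subtype.ext h
    have h5 : i = i' := Fin.ext (by rw [h2, h3])
    subst h4
    subst h5
    rfl
  · rintro ⟨z, hz⟩
    simp only [Subtype.mk.injEq] at hz
    exact z.1.1.1.2 hz

/-- Proof. Use `elim`. Let `g ^ n ∈ WY wt k`, `n ≥ 1`. Then `Θ g ^ n = 1` in `B ⋊ ℤ`; the second
component `m` of `Θ g` satisfies `n * m = 0`, so `m = 0`, `Θ g = (b, 0)` with `b ^ n = 1`; `b = π h` and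
`h ^ n ∈ WY (wtn wt x k) k`, so `h ∈ WY (wtn wt x k) k`, `b = 1`. -/
theorem TFp_step {Y : Type} [DecidableEq Y] {wt : Y → ℕ} (hwt : ∀ y, 1 ≤ wt y) {k : ℕ} (x : Y)
    (hx : wt x < k) (h : TFp (wtn wt x k) k) : TFp wt k := by
  obtain ⟨B, _, π, S, f, Θ, hπs, hπ1, hS, hS1, hSk, hf1, hΘ⟩ := elim hwt x hx
  intro g n hn hg
  rw [← hΘ] at hg ⊢
  rw [map_pow] at hg
  have h1 : (Θ g).right = 1 := by
    have h2 := congrArg (fun a => Multiplicative.toAdd (SemidirectProduct.right a)) hg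
    simp only [w5_right, toAdd_pow, SemidirectProduct.one_right, toAdd_one, nsmul_eq_mul] at h2
    have h3 : Multiplicative.toAdd (Θ g).right = 0 := by
      rcases mul_eq_zero.1 h2 with h4 | h4
      · have : n = 0 := by exact_mod_cast h4
        omega
      · exact h4
    exact Multiplicative.toAdd.injective (by rw [h3, toAdd_one])
  have h2 := w5_eq_inl _ h1
  obtain ⟨a, ha⟩ := hπs (Θ g).left
  rw [← ha] at h2
  rw [h2] at hg ⊢
  rw [w5_inl_pow, ← map_one SemidirectProduct.inl, SemidirectProduct.inl_inj, ← map_pow,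
    hπ1] at hg
  rw [(hπ1 a).2 (h a n hn hg), map_one]

/-- Proof. Use `elim`. Let `g ∉ WY wt k`, `Θ g = (b, m) ≠ 1`. If `m ≠ 0`, choose `j` with `p ^ j` not
dividing `m` (`p` prime) and take `Q = Multiplicative (ZMod (p ^ j))` and the composition of `Θ` with
the projection to `ℤ` and to `Q`. If `m = 0`, then `b = π h ≠ 1`, `h ∉ WY (wtn wt x k) k`, so there are
`Q₀`, `f₀ : FreeGroup (Yn wt x k) →* Q₀` and `j` as in `REp`; `f₀` induces `f₁ : B →* Q₀` with
`f₁ b ≠ 1`. Let `V` be the subgroup of `B` generated by all `a ^ (p ^ j)`, `a ∈ B`; it is invariant under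
all automorphisms, normal, and `f₁` is trivial on `V`, so `b ∉ V`. Let `B₁ = B ⧸ V`, of exponent
`p ^ j`, `S₁ i` the image of `S i`, and `f̄ : MulAut B₁` the automorphism induced by `f`. By
`unipotent_order`, `f̄ ^ (p ^ (j * k)) = 1`. So there is a homomorphism from `B ⋊ ℤ` to
`B₁ ⋊ ZMod (p ^ (j * k))` (or: the quotient of `B ⋊ ℤ` by the normal subgroup
`{(v, m) | v ∈ V, p ^ (j k) ∣ m}`), a group of exponent dividing `p ^ (j * k + j)`: the
`p ^ (j k)`-th power of an element lies in `B₁`. The image of `(b, 0)` is not trivial. -/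
theorem REp_step {p : ℕ} (hp : p.Prime) {Y : Type} [DecidableEq Y] {wt : Y → ℕ}
    (hwt : ∀ y, 1 ≤ wt y) {k : ℕ} (x : Y) (hx : wt x < k) (h : REp p (wtn wt x k) k) :
    REp p wt k := by
  classical
  obtain ⟨B, _, π, S, f, Θ, hπs, hπ1, hS, hS1, hSk, hf1, hΘ⟩ := elim hwt x hx
  intro g hg
  rw [← hΘ] at hg
  by_cases hm : (Θ g).right = 1
  · have h2 := w5_eq_inl _ hm
    obtain ⟨a, ha⟩ := hπs (Θ g).left
    rw [← ha] at h2
    have ha1 : a ∉ WY (wtn wt x k) k := by
      intro h3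
      apply hg
      rw [h2, (hπ1 a).2 h3, map_one]
    obtain ⟨Q₀, _, f₀, j, hexp, hker, hne⟩ := h a ha1
    -- the induced homomorphism
    have hf₁ : ∀ c d : FreeGroup (Yn wt x k), π c = π d → f₀ c = f₀ d := by
      intro c d hcd
      have h3 : π (c * d⁻¹) = 1 := by rw [map_mul, map_inv, hcd, mul_inv_cancel]
      have h4 := hker _ ((hπ1 _).1 h3)
      rw [map_mul, map_inv] at h4
      exact mul_inv_eq_one.1 h4
    let f₁ : B →* Q₀ :=
      { toFun := fun b => f₀ (Classical.choose (hπs b))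
        map_one' := by
          rw [← map_one f₀]
          exact hf₁ _ _ (by rw [Classical.choose_spec (hπs 1), map_one])
        map_mul' := fun b c => by
          rw [← map_mul]
          refine hf₁ _ _ ?_
          rw [Classical.choose_spec (hπs (b * c)), map_mul, Classical.choose_spec (hπs b),
            Classical.choose_spec (hπs c)] }
    have hf₁π : ∀ c, f₁ (π c) = f₀ c := fun c => hf₁ _ _ (Classical.choose_spec (hπs (π c)))
    -- the subgroup generated by the powers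
    let V : Subgroup B := Subgroup.closure (Set.range fun b : B => b ^ (p ^ j))
    have hVpow : ∀ b : B, b ^ (p ^ j) ∈ V := fun b => Subgroup.subset_closure ⟨b, rfl⟩
    have hVhom : ∀ ψ : B →* B, ∀ v ∈ V, ψ v ∈ V := by
      intro ψ v hv
      have h3 : V ≤ V.comap ψ := by
        refine (Subgroup.closure_le _).2 ?_
        rintro _ ⟨b, rfl⟩
        show ψ (b ^ (p ^ j)) ∈ V
        rw [map_pow]
        exact hVpow _
      exact h3 hv
    haveI hVn : V.Normal := by
      refine ⟨fun v hv b => ?_⟩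
      exact hVhom (MulAut.conj b).toMonoidHom v hv
    have hVf : ∀ v ∈ V, ∀ n : ℤ, (f ^ n) v ∈ V := fun v hv n => hVhom (f ^ n).toMonoidHom v hv
    have hf₁V : ∀ v ∈ V, f₁ v = 1 := by
      intro v hv
      have h3 : V ≤ f₁.ker := by
        refine (Subgroup.closure_le _).2 ?_
        rintro _ ⟨b, rfl⟩
        show f₁ (b ^ (p ^ j)) = 1
        rw [map_pow]
        exact hexp _
      exact h3 hv
    have haV : π a ∉ V := by
      intro h3
      apply hne
      rw [← hf₁π]
      exact hf₁V _ h3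
    -- the automorphism of the quotient
    have hmap : V.map (f : B →* B) = V := by
      refine le_antisymm ?_ ?_
      · rintro _ ⟨v, hv, rfl⟩
        exact hVhom (f : B →* B) v hv
      · intro v hv
        refine ⟨f⁻¹ v, hVhom (f⁻¹ : MulAut B).toMonoidHom v hv, ?_⟩
        exact MulAut.apply_inv_self B f v
    let fb : MulAut (B ⧸ V) := QuotientGroup.congr V V f hmap
    have hfb : ∀ b : B, fb (QuotientGroup.mk' V b) = QuotientGroup.mk' V (f b) := fun b => rfl
    have hfbn : ∀ n : ℕ, ∀ b : B, (fb ^ n) (QuotientGroup.mk' V b) =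
        QuotientGroup.mk' V ((f ^ n) b) := by
      intro n
      induction n with
      | zero => intro b; simp
      | succ n ih =>
        intro b
        have h3 : (fb ^ (n + 1)) (QuotientGroup.mk' V b) =
          (fb ^ n) (fb (QuotientGroup.mk' V b)) := by
          rw [pow_succ]
          rfl
        have h4 : (f ^ (n + 1)) b = (f ^ n) (f b) := by
          rw [pow_succ]
          rfl
        rw [h3, h4, hfb, ih]
    have hfbord : fb ^ (p ^ (j * k)) = 1 := by
      refine unipotent_order (S := fun i => (S i).map (QuotientGroup.mk' V)) ?_ ?_ (k := k) ?_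
        ?_ fb ?_
      · refine ⟨fun i i' hi => Subgroup.map_mono (hS.anti hi), ?_⟩
        rintro i i' _ ⟨c, hc, rfl⟩ _ ⟨d, hd, rfl⟩
        rw [← map_commutatorElement]
        exact Subgroup.mem_map_of_mem _ (hS.comm i i' c hc d hd)
      · show (S 1).map (QuotientGroup.mk' V) = ⊤
        rw [hS1]
        exact Subgroup.map_top_of_surjective _ (QuotientGroup.mk'_surjective V)
      · show (S k).map (QuotientGroup.mk' V) = ⊥
        rw [hSk, Subgroup.map_bot]
      · intro b
        obtain ⟨c, rfl⟩ := QuotientGroup.mk'_surjective V b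
        rw [← map_pow]
        exact (QuotientGroup.eq_one_iff _).2 (hVpow c)
      · rintro i hi _ ⟨c, hc, rfl⟩
        rw [hfb, ← map_inv, ← map_mul]
        exact Subgroup.mem_map_of_mem _ (hf1 i hi c hc)
    have hq : ∀ b : B, (f ^ (p ^ (j * k))) b * b⁻¹ ∈ V := by
      intro b
      have h3 := hfbn (p ^ (j * k)) b
      rw [hfbord, MulAut.one_apply] at h3
      have h4 : QuotientGroup.mk' V ((f ^ (p ^ (j * k))) b * b⁻¹) = 1 := by
        rw [map_mul, map_inv, ← h3, mul_inv_cancel]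
      exact (QuotientGroup.eq_one_iff _).1 h4
    obtain ⟨Q, _, F, hF1, hF2⟩ := w5_quot f V hVf hVpow hq haV
    refine ⟨Q, inferInstance, F.comp Θ, j * k + j, hF1, ?_, ?_⟩
    · intro c hc
      rw [MonoidHom.comp_apply, (hΘ c).2 hc, map_one]
    · rw [MonoidHom.comp_apply, h2]
      exact hF2
  · -- the second component is not trivial
    have hm0 : Multiplicative.toAdd (Θ g).right ≠ 0 := by
      intro h0
      apply hm
      exact Multiplicative.toAdd.injective (by rw [h0, toAdd_one])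
    set m : ℤ := Multiplicative.toAdd (Θ g).right with hmdef
    obtain ⟨j, hj⟩ : ∃ j : ℕ, ¬ ((p ^ j : ℕ) : ℤ) ∣ m := by
      refine ⟨m.natAbs, fun hdvd => ?_⟩
      have h3 : p ^ m.natAbs ∣ m.natAbs := Int.natCast_dvd.1 hdvd
      have h4 := Nat.le_of_dvd (Int.natAbs_pos.2 hm0) h3
      exact absurd h4 (not_le.2 (Nat.lt_pow_self hp.one_lt))
    let F : Bz f →* Multiplicative (ZMod (p ^ j)) :=
      (AddMonoidHom.toMultiplicative (Int.castAddHom (ZMod (p ^ j)))).comp
        SemidirectProduct.rightHom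
    refine ⟨Multiplicative (ZMod (p ^ j)), inferInstance, F.comp Θ, j, ?_, ?_, ?_⟩
    · intro a
      apply Multiplicative.toAdd.injective
      rw [toAdd_pow, toAdd_one, nsmul_eq_mul]
      have h3 : ((p ^ j : ℕ) : ZMod (p ^ j)) = 0 := ZMod.natCast_self _
      rw [h3, zero_mul]
    · intro c hc
      rw [MonoidHom.comp_apply, (hΘ c).2 hc, map_one]
    · intro h0
      have h3 : ((m : ℤ) : ZMod (p ^ j)) = 0 := congrArg Multiplicative.toAdd h0
      rw [ZMod.intCast_zmod_eq_zero_iff_dvd] at h3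
      exact hj (by exact_mod_cast h3)

/-- Proof. Fix `k`. Downward induction on `d`, from `d = k` to `d = 1` (induction on `k - d`): the
statement for all finite `Y` and `wt` with `d ≤ wt y` for all `y`. If `d ≥ k`: all
generators are in `WY wt k` (`anti`), so `WY wt k = ⊤` and both claims are trivial. Step from
`d + 1` to `d` (`1 ≤ d < k`): induction on the number `r` of the `y` with `wt y = d`, for all finite `Y`.
If `r = 0`, all weights are `≥ d + 1`. Otherwise choose `x` with `wt x = d < k`; the weights of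
`Yn wt x k` are `wt y + j * d ≥ d`, and those which are equal to `d` are the `(y, 0)` with `y ≠ x`,
`wt y = d`, whose number is `r - 1`; `Yn wt x k` is finite. Apply `TFp_step` and `REp_step`. -/
theorem all_TFp_REp {p : ℕ} (hp : p.Prime) (k : ℕ) {Y : Type} [Finite Y] {wt : Y → ℕ}
    (hwt : ∀ y, 1 ≤ wt y) : TFp wt k ∧ REp p wt k := by
  classical
  have main : ∀ e d : ℕ, k ≤ d + e → ∀ (Y : Type) [Finite Y] (wt : Y → ℕ), (∀ y, 1 ≤ wt y) →
      (∀ y, d ≤ wt y) → TFp wt k ∧ REp p wt k := by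
    intro e
    induction e with
    | zero =>
      intro d hd Y _ wt hwt hdw
      have htop : ∀ g, g ∈ WY wt k := by
        intro g
        induction g using FreeGroup.induction_on with
        | C1 => exact Subgroup.one_mem _
        | of y => exact (NSer_WY wt).anti (by have := hdw y; omega) (of_mem_WY wt y)
        | inv_of y ih => exact Subgroup.inv_mem _ ih
        | mul a b iha ihb => exact Subgroup.mul_mem _ iha ihb
      exact ⟨fun g _ _ _ => htop g, fun g hg => absurd (htop g) hg⟩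
    | succ e ih =>
      intro d hd
      rcases Nat.lt_or_ge d k with hdk | hdk
      · have hin : ∀ r : ℕ, ∀ (Y : Type) [Finite Y] (wt : Y → ℕ), (∀ y, 1 ≤ wt y) →
            (∀ y, d ≤ wt y) → Nat.card {y : Y // wt y = d} < r → TFp wt k ∧ REp p wt k := by
          intro r
          induction r with
          | zero =>
            intro Y _ wt _ _ hr
            exact absurd hr (Nat.not_lt_zero _)
          | succ r ihr =>
            intro Y _ wt hwt hdw hr
            by_cases hex : ∃ x, wt x = d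
            · obtain ⟨x, hx⟩ := hex
              have h2 := ihr (Yn wt x k) (wtn wt x k) (wtn_pos hwt x k)
                (fun z => (hdw _).trans (Nat.le_add_right _ _))
                (lt_of_lt_of_le (w5_card hwt hdw x hx) (Nat.le_of_lt_succ hr))
              have hxk : wt x < k := by omega
              exact ⟨TFp_step hwt x hxk h2.1, REp_step hp hwt x hxk h2.2⟩
            · refine ih (d + 1) (by omega) Y wt hwt (fun y => ?_)
              have h2 := hdw y
              have h3 : wt y ≠ d := fun h => hex ⟨y, h⟩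
              omega
        intro Y _ wt hwt hdw
        exact hin _ Y wt hwt hdw (Nat.lt_succ_self _)
      · intro Y _ wt hwt hdw
        exact ih d (by omega) Y wt hwt hdw
  exact main k 0 (by omega) Y wt hwt (fun y => Nat.zero_le _)

end Pool.Agent.Lib.MP_4c5e24_al
end
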