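import Pool.Agent.Lib.MP_4c5e24_al.L1
import Pool.Agent.Lib.MP_4c5e24_al.W5
import Pool.Agent.Lib.MP_4c5e24_al.Lc
import Pool.Agent.Lib.MP_4c5e24_al.Dq2
import Pool.Agent.Lib.MP_4c5e24_al.Pr6

section

set_option autoImplicit false

/-!
RIG3-Y1: maximal fully invariant subgroups between `gam (c + 1)` and `gam c`.
-/

namespace Pool.Agent.Lib.MP_4c5e24_al

open scoped commutatorElement

/-- The laws `(gam c) ^ p * gam (c + 1)`. -/
noncomputable def Qp (p c : ℕ) : FI := AP p (gam c) ⊔ gam (c + 1)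

/-- Proof: `AP p (gam c) ≤ gam c` (`AP_le`), `gam` is antitone. -/
theorem Qp_le (p c : ℕ) : Qp p c ≤ gam c := by
  refine sup_le (AP_le.2 ⟨fun h hh => (gam c).1.pow_mem hh p, fun h hh k hk => ?_⟩) ?_
  · rw [commutatorElement_def]
    exact (gam c).1.mul_mem ((gam c).1.mul_mem ((gam c).1.mul_mem hh hk) ((gam c).1.inv_mem hh))
      ((gam c).1.inv_mem hk)
  · exact Subgroup.lowerCentralSeries_antitone _ (Nat.le_succ c)

private theorem y1_gam_le (p c : ℕ) : gam (c + 1) ≤ Qp p c := le_sup_right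

private theorem y1_pow (p c : ℕ) {h : F} (hh : h ∈ (gam c).1) : h ^ p ∈ (Qp p c).1 :=
  (le_sup_left : AP p (gam c) ≤ Qp p c) (pow_mem_AP hh)

private theorem y1_comm (p c : ℕ) {h k : F} (hh : h ∈ (gam c).1) (hk : k ∈ (gam c).1) :
    ⁅h, k⁆ ∈ (Qp p c).1 :=
  (le_sup_left : AP p (gam c) ≤ Qp p c) (comm_mem_AP hh hk)

/-- the quotient `gam c / Qp p c` as a vector space -/
private theorem y1_space (p : ℕ) [Fact p.Prime] (c : ℕ) :
    ∃ (A : Type) (_ : AddCommGroup A) (_ : Module (ZMod p) A) (cl : F → A),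
      (∀ v ∈ (gam c).1, ∀ w ∈ (gam c).1, cl (v * w) = cl v + cl w) ∧
      (∀ v ∈ (gam c).1, cl v = 0 ↔ v ∈ (Qp p c).1) ∧ (∀ a, ∃ v ∈ (gam c).1, cl v = a) := by
  classical
  set N := (gam c).1 with hN
  set Q : Subgroup N := (Qp p c).1.subgroupOf N with hQ
  have hQn : Q.Normal := by rw [hQ]; infer_instance
  let instC : CommGroup (N ⧸ Q) :=
    { (inferInstance : Group (N ⧸ Q)) with
      mul_comm := by
        intro a b
        induction a using QuotientGroup.induction_on with
        | H a =>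
        induction b using QuotientGroup.induction_on with
        | H b =>
        rw [← QuotientGroup.mk_mul, ← QuotientGroup.mk_mul, QuotientGroup.eq, hQ,
          Subgroup.mem_subgroupOf]
        have e : (((a * b)⁻¹ * (b * a) : N) : F) = ⁅(b : F)⁻¹, (a : F)⁻¹⁆ := by
          rw [commutatorElement_def]
          push_cast
          group
        rw [e]
        exact y1_comm p c (N.inv_mem b.2) (N.inv_mem a.2) }
  have hp0 : ∀ x : Additive (N ⧸ Q), p • x = 0 := by
    intro x
    obtain ⟨a, ha⟩ := QuotientGroup.mk_surjective (Additive.toMul x)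
    apply Additive.toMul.injective
    rw [toMul_nsmul, toMul_zero, ← ha, ← QuotientGroup.mk_pow, QuotientGroup.eq_one_iff, hQ,
      Subgroup.mem_subgroupOf]
    exact y1_pow p c a.2
  let instM : Module (ZMod p) (Additive (N ⧸ Q)) := AddCommGroup.zmodModule hp0
  refine ⟨Additive (N ⧸ Q), inferInstance, instM,
    fun v => if h : v ∈ N then Additive.ofMul (QuotientGroup.mk ⟨v, h⟩ : N ⧸ Q) else 0, ?_, ?_, ?_⟩
  · intro v hv w hw
    beta_reduce
    rw [dif_pos hv, dif_pos hw, dif_pos (N.mul_mem hv hw)]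
    rfl
  · intro v hv
    beta_reduce
    rw [dif_pos hv]
    change (QuotientGroup.mk ⟨v, hv⟩ : N ⧸ Q) = 1 ↔ _
    rw [QuotientGroup.eq_one_iff, hQ, Subgroup.mem_subgroupOf]
  · intro a
    obtain ⟨v, hv⟩ := QuotientGroup.mk_surjective (Additive.toMul a)
    refine ⟨v, v.2, ?_⟩
    beta_reduce
    rw [dif_pos v.2]
    change Additive.ofMul (QuotientGroup.mk v : N ⧸ Q) = a
    rw [hv]
    rfl


section Rel

variable {p c : ℕ} [Fact p.Prime] {A : Type} [AddCommGroup A] [Module (ZMod p) A] {cl : F → A}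

private theorem y1_cl_one
    (h1 : ∀ v ∈ (gam c).1, ∀ w ∈ (gam c).1, cl (v * w) = cl v + cl w) : cl 1 = 0 := by
  have h := h1 1 (gam c).1.one_mem 1 (gam c).1.one_mem
  rw [mul_one] at h
  exact (add_left_cancel ((add_zero (cl 1)).trans h)).symm

private theorem y1_cl_inv
    (h1 : ∀ v ∈ (gam c).1, ∀ w ∈ (gam c).1, cl (v * w) = cl v + cl w) {v : F}
    (hv : v ∈ (gam c).1) : cl v⁻¹ = -cl v := by
  have h := h1 v hv v⁻¹ ((gam c).1.inv_mem hv)
  rw [mul_inv_cancel, y1_cl_one h1] at h
  exact (neg_eq_of_add_eq_zero_right h.symm).symm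

private theorem y1_cl_div
    (h1 : ∀ v ∈ (gam c).1, ∀ w ∈ (gam c).1, cl (v * w) = cl v + cl w) {v w : F}
    (hv : v ∈ (gam c).1) (hw : w ∈ (gam c).1) : cl (v * w⁻¹) = cl v - cl w := by
  rw [h1 v hv _ ((gam c).1.inv_mem hw), y1_cl_inv h1 hw, sub_eq_add_neg]

omit [Fact p.Prime] [Module (ZMod p) A] in
private theorem y1_cl_eq
    (h1 : ∀ v ∈ (gam c).1, ∀ w ∈ (gam c).1, cl (v * w) = cl v + cl w)
    (h2 : ∀ v ∈ (gam c).1, cl v = 0 ↔ v ∈ (Qp p c).1) {v w : F}
    (hv : v ∈ (gam c).1) (hw : w ∈ (gam c).1) : cl v = cl w ↔ v * w⁻¹ ∈ (Qp p c).1 := by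
  rw [← h2 _ ((gam c).1.mul_mem hv ((gam c).1.inv_mem hw)), y1_cl_div h1 hv hw, sub_eq_zero]

private theorem y1_cl_pow
    (h1 : ∀ v ∈ (gam c).1, ∀ w ∈ (gam c).1, cl (v * w) = cl v + cl w) {v : F}
    (hv : v ∈ (gam c).1) (n : ℕ) : cl (v ^ n) = (n : ZMod p) • cl v := by
  rw [Nat.cast_smul_eq_nsmul]
  induction n with
  | zero => rw [pow_zero, y1_cl_one h1, zero_smul]
  | succ n ih => rw [pow_succ, h1 _ ((gam c).1.pow_mem hv n) v hv, ih, succ_nsmul]

private theorem y1_cl_val
    (h1 : ∀ v ∈ (gam c).1, ∀ w ∈ (gam c).1, cl (v * w) = cl v + cl w) {v : F}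
    (hv : v ∈ (gam c).1) (r : ZMod p) : cl (v ^ r.val) = r • cl v := by
  rw [y1_cl_pow (p := p) h1 hv, ZMod.natCast_zmod_val]

/-- the exponents modulo `p` -/
private noncomputable def yEE (p : ℕ) : F →* Multiplicative (ℕ →₀ ZMod p) :=
  FreeGroup.lift (fun j => Multiplicative.ofAdd (Finsupp.single j 1))

private noncomputable def yE (p : ℕ) (w : F) : ℕ →₀ ZMod p := Multiplicative.toAdd (yEE p w)

private theorem yE_x (j : ℕ) : yE p (x j) = Finsupp.single j 1 := by
  unfold yE yEE
  rw [FreeGroup.lift_apply_of]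
  rfl

private noncomputable def yW (u : ℕ →₀ ZMod p) : F :=
  (u.support.toList.map (fun j => x j ^ (u j).val)).prod

private theorem yE_W (u : ℕ →₀ ZMod p) : yE p (yW u) = u := by
  unfold yE yW
  rw [map_list_prod, List.map_map, Finset.prod_map_toList, toAdd_prod]
  have h : ∀ j ∈ u.support, Multiplicative.toAdd (((yEE p : F → _) ∘ fun j => x j ^ (u j).val) j) =
      Finsupp.single j (u j) := by
    intro j _
    have h1 := yE_x (p := p) j
    unfold yE at h1
    rw [Function.comp_apply, map_pow, toAdd_pow, h1, Finsupp.smul_single, nsmul_eq_mul, mul_one,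
      ZMod.natCast_zmod_val]
  rw [Finset.sum_congr rfl h]
  exact Finsupp.sum_single u

private theorem y1_slot
    (h1 : ∀ v ∈ (gam c).1, ∀ w ∈ (gam c).1, cl (v * w) = cl v + cl w)
    (h2 : ∀ v ∈ (gam c).1, cl v = 0 ↔ v ∈ (Qp p c).1) (h : ℕ → F) {i : ℕ} (hi : i ≤ c) (w : F) :
    cl (lc (Function.update h i w) c) =
      Finsupp.linearCombination (ZMod p) (fun j => cl (lc (Function.update h i (x j)) c))
        (yE p w) := by
  have hmul : ∀ a b : F, cl (lc (Function.update h i (a * b)) c) =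
      cl (lc (Function.update h i a) c) + cl (lc (Function.update h i b) c) := by
    intro a b
    rw [← h1 _ (lc_mem _ c) _ (lc_mem _ c)]
    exact (y1_cl_eq h1 h2 (lc_mem _ c) ((gam c).1.mul_mem (lc_mem _ c) (lc_mem _ c))).2
      (y1_gam_le p c (lc_mul h hi a b))
  let Ψ : F →* Multiplicative A := MonoidHom.mk'
    (fun w => Multiplicative.ofAdd (cl (lc (Function.update h i w) c)))
    (fun a b => by rw [hmul]; rfl)
  let Θ : F →* Multiplicative A := (AddMonoidHom.toMultiplicative
    (Finsupp.linearCombination (ZMod p)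
      (fun j => cl (lc (Function.update h i (x j)) c))).toAddMonoidHom).comp (yEE p)
  have h3 : Ψ = Θ := by
    apply FreeGroup.ext_hom
    intro j
    change Multiplicative.ofAdd (cl (lc (Function.update h i (x j)) c)) = Multiplicative.ofAdd
      (Finsupp.linearCombination (ZMod p) (fun j => cl (lc (Function.update h i (x j)) c))
        (yE p (x j)))
    rw [yE_x, Finsupp.linearCombination_single, one_smul]
  exact congrArg Multiplicative.toAdd (DFunLike.congr_fun h3 w)

private theorem y1_congr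
    (h1 : ∀ v ∈ (gam c).1, ∀ w ∈ (gam c).1, cl (v * w) = cl v + cl w)
    (h2 : ∀ v ∈ (gam c).1, cl v = 0 ↔ v ∈ (Qp p c).1) {h h' : ℕ → F}
    (hh : ∀ i ≤ c, yE p (h i) = yE p (h' i)) : cl (lc h c) = cl (lc h' c) := by
  have h3 : ∀ k ≤ c + 1, cl (lc (fun i => if i < k then h' i else h i) c) = cl (lc h c) := by
    intro k
    induction k with
    | zero => intro _; simp
    | succ k ih =>
      intro hk
      rw [← ih (by omega)]
      set b : ℕ → F := fun i => if i < k then h' i else h i with hb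
      have e1 : (fun i => if i < k + 1 then h' i else h i) = Function.update b k (h' k) := by
        funext i
        rcases eq_or_ne i k with rfl | hik
        · simp
        · rw [Function.update_of_ne hik]
          simp only [hb]
          by_cases h4 : i < k
          · rw [if_pos h4, if_pos (by omega)]
          · rw [if_neg h4, if_neg (by omega)]
      have e2 : b = Function.update b k (h k) := by
        funext i
        rcases eq_or_ne i k with rfl | hik
        · simp [hb]
        · rw [Function.update_of_ne hik]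
      rw [e1]
      conv_rhs => rw [e2]
      rw [y1_slot h1 h2 b (by omega) (h' k), y1_slot h1 h2 b (by omega) (h k),
        hh k (by omega)]
  rw [← h3 (c + 1) le_rfl]
  congr 1
  exact lc_congr fun i hi => if_pos (by omega)

/-- a tuple as a sequence of words -/
private noncomputable def yx (l : Fin (c + 1) → ℕ) (n : ℕ) : F :=
  if hn : n < c + 1 then x (l ⟨n, hn⟩) else 1

private theorem yW_update [DecidableEq (Fin (c + 1))] (u : Fin (c + 1) → (ℕ →₀ ZMod p))
    (i : Fin (c + 1)) (y : ℕ →₀ ZMod p) :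
    (fun n => if hn : n < c + 1 then yW (Function.update u i y ⟨n, hn⟩) else (1 : F)) =
      Function.update (fun n => if hn : n < c + 1 then yW (u ⟨n, hn⟩) else (1 : F)) i (yW y) := by
  funext n
  by_cases hn : n < c + 1
  · rcases eq_or_ne n (i : ℕ) with h | h
    · subst h
      have h4 : (⟨(i : ℕ), hn⟩ : Fin (c + 1)) = i := rfl
      rw [Function.update_self, dif_pos hn, h4, Function.update_self]
    · rw [Function.update_of_ne h, dif_pos hn, dif_pos hn, Function.update_of_ne]
      intro h3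
      exact h (congrArg Fin.val h3)
  · rw [dif_neg hn, Function.update_of_ne, dif_neg hn]
    intro h3
    exact hn (h3 ▸ i.2)

private noncomputable def yMM
    (h1 : ∀ v ∈ (gam c).1, ∀ w ∈ (gam c).1, cl (v * w) = cl v + cl w)
    (h2 : ∀ v ∈ (gam c).1, cl v = 0 ↔ v ∈ (Qp p c).1) :
    MultilinearMap (ZMod p) (fun _ : Fin (c + 1) => ℕ →₀ ZMod p) A where
  toFun u := cl (lc (fun n => if hn : n < c + 1 then yW (u ⟨n, hn⟩) else (1 : F)) c)
  map_update_add' u i y z := by
    rw [yW_update, yW_update, yW_update, y1_slot h1 h2 _ (Nat.le_of_lt_succ i.2),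
      y1_slot h1 h2 _ (Nat.le_of_lt_succ i.2), y1_slot h1 h2 _ (Nat.le_of_lt_succ i.2), yE_W, yE_W,
      yE_W, map_add]
  map_update_smul' u i r y := by
    rw [yW_update, yW_update, y1_slot h1 h2 _ (Nat.le_of_lt_succ i.2),
      y1_slot h1 h2 _ (Nat.le_of_lt_succ i.2), yE_W, yE_W, map_smul]

private theorem y1_expand
    (h1 : ∀ v ∈ (gam c).1, ∀ w ∈ (gam c).1, cl (v * w) = cl v + cl w)
    (h2 : ∀ v ∈ (gam c).1, cl v = 0 ↔ v ∈ (Qp p c).1) (h : ℕ → F) :
    cl (lc h c) = ∑ r ∈ Fintype.piFinset (fun i : Fin (c + 1) => (yE p (h i)).support),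
      (∏ i : Fin (c + 1), yE p (h i) (r i)) • cl (lc (yx r) c) := by
  have e1 : cl (lc h c) = yMM h1 h2 (fun i => yE p (h i)) := by
    change _ = cl (lc (fun n => if hn : n < c + 1 then yW (yE p (h (⟨n, hn⟩ : Fin (c + 1))))
      else (1 : F)) c)
    refine y1_congr h1 h2 fun i hi => ?_
    rw [dif_pos (Nat.lt_succ_of_le hi), yE_W]
  have e2 : (fun i : Fin (c + 1) => yE p (h i)) = fun i : Fin (c + 1) =>
      ∑ j ∈ (yE p (h i)).support, yE p (h i) j • Finsupp.single j (1 : ZMod p) := by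
    funext i
    have h3 := Finsupp.sum_single (yE p (h i))
    conv_lhs => rw [← h3]
    unfold Finsupp.sum
    refine Finset.sum_congr rfl fun j _ => ?_
    rw [Finsupp.smul_single, smul_eq_mul, mul_one]
  rw [e1, e2, MultilinearMap.map_sum_finset]
  refine Finset.sum_congr rfl fun r _ => ?_
  rw [MultilinearMap.map_smul_univ]
  congr 1
  change cl (lc (fun n => if hn : n < c + 1 then yW (Finsupp.single (r ⟨n, hn⟩) (1 : ZMod p))
      else (1 : F)) c) = _
  refine y1_congr h1 h2 fun i hi => ?_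
  unfold yx
  rw [dif_pos (Nat.lt_succ_of_le hi), dif_pos (Nat.lt_succ_of_le hi), yE_W, yE_x]

/-- the map of the tensors -/
private noncomputable def yχ (cl : F → A) : Tn (ZMod p) (c + 1) →ₗ[ZMod p] A :=
  Finsupp.linearCombination (ZMod p) (fun l : Fin (c + 1) → ℕ => cl (lc (yx l) c))

private theorem yχ_single (l : Fin (c + 1) → ℕ) (r : ZMod p) :
    yχ cl (Finsupp.single l r) = r • cl (lc (yx l) c) := by
  unfold yχ
  rw [Finsupp.linearCombination_single]

private theorem y1_act (g : ℕ → (ℕ →₀ ZMod p)) (l : Fin (c + 1) → ℕ) (r : ZMod p) :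
    yχ cl (actT g (Finsupp.single l r)) = r • ∑ l' ∈ Fintype.piFinset (fun i => (g (l i)).support),
      (∏ i, g (l i) (l' i)) • cl (lc (yx l') c) := by
  unfold actT
  rw [Finsupp.lift_apply, Finsupp.sum_single_index (by rw [zero_smul]), map_smul, map_sum]
  congr 1
  refine Finset.sum_congr rfl fun l' _ => ?_
  rw [yχ_single]

private theorem y1_phi
    (h1 : ∀ v ∈ (gam c).1, ∀ w ∈ (gam c).1, cl (v * w) = cl v + cl w)
    (h2 : ∀ v ∈ (gam c).1, cl v = 0 ↔ v ∈ (Qp p c).1)
    (h3 : ∀ a, ∃ v ∈ (gam c).1, cl v = a) (φ : F →* F) (t : Tn (ZMod p) (c + 1)) :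
    ∀ v ∈ (gam c).1, cl v = yχ cl t →
      cl (φ v) = yχ cl (actT (fun i => yE p (φ (x i))) t) := by
  induction t using Finsupp.induction_linear with
  | zero =>
    intro v hv h
    rw [map_zero] at h
    rw [map_zero, map_zero, h2 _ ((gam c).map_mem φ hv)]
    exact (Qp p c).map_mem φ ((h2 v hv).1 h)
  | add t₁ t₂ ih₁ ih₂ =>
    intro v hv h
    obtain ⟨v₁, hv₁, hv₁'⟩ := h3 (yχ cl t₁)
    have hv₂ : v₁⁻¹ * v ∈ (gam c).1 := (gam c).1.mul_mem ((gam c).1.inv_mem hv₁) hv
    have e1 : cl (v₁⁻¹ * v) = yχ cl t₂ := by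
      rw [h1 _ ((gam c).1.inv_mem hv₁) v hv, y1_cl_inv h1 hv₁, h, hv₁', map_add]
      abel
    have e2 := ih₁ v₁ hv₁ hv₁'
    have e3 := ih₂ _ hv₂ e1
    have e4 : φ v = φ v₁ * φ (v₁⁻¹ * v) := by rw [← map_mul, mul_inv_cancel_left]
    rw [e4, h1 _ ((gam c).map_mem φ hv₁) _ ((gam c).map_mem φ hv₂), e2, e3, map_add, map_add]
  | single l r =>
    intro v hv h
    set b : F := lc (yx l) c with hb
    have hbm : b ∈ (gam c).1 := lc_mem _ c
    rw [yχ_single, ← y1_cl_val h1 hbm r] at h
    have hbp : b ^ r.val ∈ (gam c).1 := (gam c).1.pow_mem hbm _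
    have e1 := (Qp p c).map_mem φ ((y1_cl_eq h1 h2 hv hbp).1 h)
    rw [map_mul, map_inv] at e1
    rw [(y1_cl_eq h1 h2 ((gam c).map_mem φ hv) ((gam c).map_mem φ hbp)).2 e1, map_pow,
      y1_cl_val h1 ((gam c).map_mem φ hbm), y1_act]
    congr 1
    rw [hb, map_lc, y1_expand h1 h2]
    have e2 : ∀ i : Fin (c + 1), φ (yx l (i : ℕ)) = φ (x (l i)) := by
      intro i
      unfold yx
      rw [dif_pos i.2]
    simp only [e2]

private theorem y1_surj
    (h1 : ∀ v ∈ (gam c).1, ∀ w ∈ (gam c).1, cl (v * w) = cl v + cl w)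
    (h2 : ∀ v ∈ (gam c).1, cl v = 0 ↔ v ∈ (Qp p c).1) :
    ∀ v ∈ (gam c).1, ∃ t : Tn (ZMod p) (c + 1), cl v = yχ cl t := by
  let R : Subgroup F :=
    { carrier := {v | v ∈ (gam c).1 ∧ ∃ t : Tn (ZMod p) (c + 1), cl v = yχ cl t}
      mul_mem' := by
        rintro a b ⟨ha, t, ht⟩ ⟨hb, t', ht'⟩
        exact ⟨(gam c).1.mul_mem ha hb, t + t', by rw [h1 a ha b hb, ht, ht', map_add]⟩
      one_mem' := ⟨(gam c).1.one_mem, 0, by rw [y1_cl_one h1, map_zero]⟩
      inv_mem' := by
        rintro a ⟨ha, t, ht⟩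
        exact ⟨(gam c).1.inv_mem ha, -t, by rw [y1_cl_inv h1 ha, ht, map_neg]⟩ }
  have hR : (gam c).1 ≤ R := by
    refine (gam_gen c).trans (sup_le ?_ ?_)
    · rw [Subgroup.closure_le]
      rintro _ ⟨l, rfl⟩
      refine ⟨lc_mem _ c, Finsupp.single (fun i => l i) 1, ?_⟩
      rw [yχ_single, one_smul]
      congr 1
      refine lc_congr fun i hi => ?_
      unfold yx
      rw [dif_pos (Nat.lt_succ_of_le hi)]
    · intro v hv
      have hv' : v ∈ (gam c).1 := Subgroup.lowerCentralSeries_antitone _ (Nat.le_succ c) hv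
      exact ⟨hv', 0, by rw [map_zero]; exact (h2 v hv').2 (y1_gam_le p c hv)⟩
  exact fun v hv => (hR hv).2

end Rel

/-- The tensors map onto `gam c` modulo `Qp p c`: there is a surjective map, given on the basis by
the left-normed commutators of the generators, which is compatible with endomorphisms.

Proof. Let `Q = Qp p c`, `n = c + 1`, `G = F ⧸ Q.1` and `V` the image of `gam c` in `G`, a
commutative group of exponent `p` (`comm_mem_AP`, `pow_mem_AP`). `Additive V` is a module over
`ZMod p`. Let `χ : Tn (ZMod p) n →ₗ[ZMod p] Additive V` be the linear map with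
`χ (single l 1) = ` the class of `lc (fun i => x (l i)) c` (extend `l : Fin n → ℕ` by
`l i = 0` for `i ≥ n`; the value does not depend on it, `lc_congr`). It is surjective by `gam_gen`. Put
`rel v t ↔` the class of `v` is `χ t` (and `v ∈ gam c`). All properties except the last two are clear. The eighth: let `φ` be an
endomorphism and `g i = ∑ j, (ex j (φ (x i)) : ZMod p)` as a finitely supported function of `j`
(`ex_finite`). For the tuple `l`, `φ (lc (x ∘ l) c) = lc (φ ∘ x ∘ l) c` (`map_lc`), and by `lc_mul`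
(all entries), `lc_comm_mem` and `x ^ n`-rules (each `φ (x i)` is congruent modulo `commutator F` to the
product of the `x j ^ ex j (φ (x i))`, a finite product; multilinearity extends to integral powers)
it is congruent modulo `gam (c + 1)` to the product of the
`lc (x ∘ l') c ^ (∏ i, ex (l' i) (φ (x (l i))))` over the finitely many tuples `l'` where the exponent is
not zero; so `χ (actT g e_l)` is the class of `φ (lc (x ∘ l) c)`, and by linearity the same
holds for all tensors. The ninth: for a matrix `g` choose integers `m i j` with `(m i j : ZMod p) = g i j`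
and `m i j = 0` if `g i j = 0`, and `φ (x i) = ∏ j, x j ^ (m i j)` (over the support, in increasing
order); then `ex j (φ (x i)) = m i j` and the eighth property applies. -/
theorem exists_rel {p : ℕ} [Fact p.Prime] (c : ℕ) :
    ∃ rel : F → Tn (ZMod p) (c + 1) → Prop,
      (∀ v t, rel v t → v ∈ (gam c).1) ∧
      (∀ v ∈ (gam c).1, ∃ t, rel v t) ∧
      (∀ t, ∃ v, rel v t) ∧
      (∀ v v' t t', rel v t → rel v' t' → rel (v * v'⁻¹) (t - t')) ∧
      (∀ v, rel v 0 ↔ v ∈ (Qp p c).1) ∧
      (∀ v t z, rel v t → z ∈ (Qp p c).1 → rel (z * v) t) ∧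
      (∀ v t (r : ZMod p), rel v t → ∃ v', rel v' (r • t) ∧ ∀ H : FI, v ∈ H.1 → v' ∈ H.1) ∧
      (∀ (φ : F →* F), ∃ g : ℕ → (ℕ →₀ ZMod p), ∀ v t, rel v t → rel (φ v) (actT g t)) ∧
      (∀ (g : ℕ → (ℕ →₀ ZMod p)), ∃ φ : F →* F, ∀ v t, rel v t → rel (φ v) (actT g t)) := by
  obtain ⟨A, instA, instM, cl, h1, h2, h3⟩ := y1_space p c
  have hphi : ∀ (φ : F →* F) (v : F) (t : Tn (ZMod p) (c + 1)),
      (v ∈ (gam c).1 ∧ cl v = yχ cl t) →
      (φ v ∈ (gam c).1 ∧ cl (φ v) = yχ cl (actT (fun i => yE p (φ (x i))) t)) := by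
    intro φ v t h
    exact ⟨(gam c).map_mem φ h.1, y1_phi h1 h2 h3 φ t v h.1 h.2⟩
  refine ⟨fun v t => v ∈ (gam c).1 ∧ cl v = yχ cl t, fun v t h => h.1, ?_, ?_, ?_, ?_, ?_, ?_,
    ?_, ?_⟩
  · intro v hv
    obtain ⟨t, ht⟩ := y1_surj h1 h2 v hv
    exact ⟨t, hv, ht⟩
  · intro t
    obtain ⟨v, hv, hv'⟩ := h3 (yχ cl t)
    exact ⟨v, hv, hv'⟩
  · rintro v v' t t' ⟨hv, ht⟩ ⟨hv', ht'⟩
    exact ⟨(gam c).1.mul_mem hv ((gam c).1.inv_mem hv'),
      by rw [y1_cl_div h1 hv hv', ht, ht', map_sub]⟩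
  · intro v
    change (v ∈ (gam c).1 ∧ cl v = yχ cl 0) ↔ _
    rw [map_zero]
    constructor
    · rintro ⟨hv, h⟩
      exact (h2 v hv).1 h
    · intro hv
      have hv' := Qp_le p c hv
      exact ⟨hv', (h2 v hv').2 hv⟩
  · rintro v t z ⟨hv, ht⟩ hz
    have hz' := Qp_le p c hz
    exact ⟨(gam c).1.mul_mem hz' hv, by rw [h1 z hz' v hv, (h2 z hz').2 hz, zero_add, ht]⟩
  · rintro v t r ⟨hv, ht⟩
    exact ⟨v ^ r.val, ⟨(gam c).1.pow_mem hv _, by rw [y1_cl_val h1 hv r, ht, map_smul]⟩,
      fun H hH => H.1.pow_mem hH _⟩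
  · intro φ
    exact ⟨fun i => yE p (φ (x i)), fun v t h => hphi φ v t h⟩
  · intro g
    refine ⟨FreeGroup.lift (fun i => yW (g i)), fun v t h => ?_⟩
    have h4 := hphi (FreeGroup.lift (fun i => yW (g i))) v t h
    have h5 : (fun i => yE p ((FreeGroup.lift (fun i => yW (g i)) : F →* F) (x i))) = g := by
      funext i
      rw [x, FreeGroup.lift_apply_of, yE_W]
    rw [h5] at h4
    exact h4

/-- Proof. Use `exists_rel`. Note: `rel v t` and `v * v'⁻¹ ∈ Qp p c` imply `rel v' t` (by the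
sixth property with `z = (v * v'⁻¹)⁻¹`), and if
`rel v t`, `rel v t'` then `rel 1 (t - t')`. Let `R = {t | rel 1 t}`, a subspace (it is the set of the
`t` with `rel v t` for some `v ∈ Qp p c`), invariant. Let `w ∈ gam c`, `w ∉ Qp p c`, `rel w a`; then
`a ∉ R` (otherwise `rel w a`, `rel 1 a` give `rel w 0`, `w ∈ Qp p c`). The factorial of `c + 1` is not
zero in `ZMod p` because `c + 1 < p`. Let `K` be as in `exists_maxT`. Put
`H = {v | ∃ t ∈ K, rel v t}`: a subgroup between `Qp p c` (`0 ∈ K`) and `gam c`, fully invariant by the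
eighth property; `w ∉ H`: if `rel w t` with `t ∈ K`, then `a - t ∈ R ≤ K`, `a ∈ K`, a
contradiction. Let `H < K₁ ≤ gam c`, `K₁ : FI`. Then `K' = {t | ∃ v ∈ K₁, rel v t}` is an
invariant subspace (the seventh and the ninth property; for sums the fourth), `K ≤ K'` (for `t ∈ K`
choose `v` with `rel v t`; `v ∈ H ≤ K₁`), and `K ≠ K'` (choose `v ∈ K₁`, `v ∉ H` and `t` with
`rel v t`: `t ∈ K'`, and `t ∉ K` as `v ∉ H`). So `K' = ⊤` and `K₁ = gam c`: for `v ∈ gam c` with
`rel v t` there is `v' ∈ K₁` with `rel v' t`, so `v * v'⁻¹ ∈ Qp p c ≤ H ≤ K₁`. -/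
theorem exists_max {p c : ℕ} (hp : p.Prime) (hcp : c + 1 < p) {w : F} (hw : w ∈ (gam c).1)
    (hw' : w ∉ (Qp p c).1) :
    ∃ H : FI, Qp p c ≤ H ∧ H < gam c ∧ w ∉ H.1 ∧ ∀ K : FI, H < K → K ≤ gam c → K = gam c := by
  have _hp : Fact p.Prime := ⟨hp⟩
  obtain ⟨rel, r1, r2, r3, r4, r5, r6, r7, r8, r9⟩ := exists_rel (p := p) c
  have r10 : rel 1 0 := (r5 1).2 (Qp p c).1.one_mem
  have rinv : ∀ v t, rel v t → rel v⁻¹ (-t) := by
    intro v t h
    have h1 := r4 1 v 0 t r10 h
    rwa [one_mul, zero_sub] at h1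
  have rmul : ∀ v v' t t', rel v t → rel v' t' → rel (v * v') (t + t') := by
    intro v v' t t' h h'
    have h1 := r4 v v'⁻¹ t (-t') h (rinv _ _ h')
    rwa [inv_inv, sub_neg_eq_add] at h1
  have rcongr : ∀ v v' t, rel v t → v * v'⁻¹ ∈ (Qp p c).1 → rel v' t := by
    intro v v' t h h'
    have h1 := r6 v t _ h ((Qp p c).1.inv_mem h')
    rwa [mul_inv_rev, inv_inv, inv_mul_cancel_right] at h1
  let R : Submodule (ZMod p) (Tn (ZMod p) (c + 1)) :=
    { carrier := {t | rel 1 t}
      add_mem' := by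
        intro a b ha hb
        have h1 := rmul 1 1 a b ha hb
        rwa [mul_one] at h1
      zero_mem' := r10
      smul_mem' := by
        intro r t ht
        obtain ⟨v', h1, h2⟩ := r7 1 t r ht
        exact rcongr v' 1 _ h1 (by rw [inv_one, mul_one]; exact h2 (Qp p c) (Qp p c).1.one_mem) }
  have hRinv : InvT R := by
    intro g a ha
    obtain ⟨φ, hφ⟩ := r9 g
    have h1 := hφ 1 a ha
    rw [map_one] at h1
    exact h1
  obtain ⟨a, ha⟩ := r2 w hw
  have haR : a ∉ R := by
    intro h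
    have h1 := r4 w 1 a a ha h
    rw [inv_one, mul_one, sub_self] at h1
    exact hw' ((r5 w).1 h1)
  have hn : (((c + 1).factorial : ℕ) : ZMod p) ≠ 0 := by
    intro h
    rw [ZMod.natCast_eq_zero_iff, hp.dvd_factorial] at h
    omega
  obtain ⟨K, hK, hRK, haK, hmax⟩ := exists_maxT hn hRinv haR
  let H : FI := ⟨
    { carrier := {v | ∃ t ∈ K, rel v t}
      mul_mem' := by
        rintro v v' ⟨t, ht, h⟩ ⟨t', ht', h'⟩
        exact ⟨t + t', K.add_mem ht ht', rmul _ _ _ _ h h'⟩
      one_mem' := ⟨0, K.zero_mem, r10⟩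
      inv_mem' := by
        rintro v ⟨t, ht, h⟩
        exact ⟨-t, K.neg_mem ht, rinv _ _ h⟩ },
    fi_of (by
      rintro φ v ⟨t, ht, h⟩
      obtain ⟨g, hg⟩ := r8 φ
      exact ⟨actT g t, hK g t ht, hg v t h⟩)⟩
  have hHm : ∀ v, v ∈ H.1 ↔ ∃ t ∈ K, rel v t := fun _ => Iff.rfl
  have hQH : Qp p c ≤ H := fun v hv => ⟨0, K.zero_mem, (r5 v).2 hv⟩
  have hHg : H ≤ gam c := by
    rintro v ⟨t, _, h⟩
    exact r1 v t h
  have hwH : w ∉ H.1 := by
    rintro ⟨t, ht, h⟩
    have h1 := r4 w w a t ha h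
    rw [mul_inv_cancel] at h1
    have h2 : a - t ∈ K := hRK h1
    have h3 := K.add_mem h2 ht
    rw [sub_add_cancel] at h3
    exact haK h3
  refine ⟨H, hQH, lt_of_le_of_ne hHg ?_, hwH, ?_⟩
  · intro h
    exact hwH (by rw [h]; exact hw)
  · intro K₁ hlt hle
    let K' : Submodule (ZMod p) (Tn (ZMod p) (c + 1)) :=
      { carrier := {t | ∃ v ∈ K₁.1, rel v t}
        add_mem' := by
          rintro t t' ⟨v, hv, h⟩ ⟨v', hv', h'⟩
          exact ⟨v * v', K₁.1.mul_mem hv hv', rmul _ _ _ _ h h'⟩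
        zero_mem' := ⟨1, K₁.1.one_mem, r10⟩
        smul_mem' := by
          rintro r t ⟨v, hv, h⟩
          obtain ⟨v', h1, h2⟩ := r7 v t r h
          exact ⟨v', h2 K₁ hv, h1⟩ }
    have hK' : InvT K' := by
      rintro g t ⟨v, hv, h⟩
      obtain ⟨φ, hφ⟩ := r9 g
      exact ⟨φ v, K₁.map_mem φ hv, hφ v t h⟩
    have hKK' : K < K' := by
      refine lt_of_le_of_ne ?_ ?_
      · intro t ht
        obtain ⟨v, hv⟩ := r3 t
        exact ⟨v, hlt.le ((hHm v).2 ⟨t, ht, hv⟩), hv⟩
      · intro heq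
        apply hlt.not_ge
        intro v hv
        obtain ⟨t, ht⟩ := r2 v (hle hv)
        have h1 : t ∈ K' := ⟨v, hv, ht⟩
        rw [← heq] at h1
        exact (hHm v).2 ⟨t, h1, ht⟩
    have htop := hmax K' hK' hKK'
    refine le_antisymm hle ?_
    intro v hv
    obtain ⟨t, ht⟩ := r2 v hv
    have h1 : t ∈ K' := by rw [htop]; exact Submodule.mem_top
    obtain ⟨v', hv', h'⟩ := h1
    have h2 := r4 v v' t t ht h'
    rw [sub_self] at h2
    have h3 : v * v'⁻¹ ∈ K₁.1 := hlt.le (hQH ((r5 _).1 h2))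
    have h4 := K₁.1.mul_mem h3 hv'
    rwa [inv_mul_cancel_right] at h4

end Pool.Agent.Lib.MP_4c5e24_al
end

section

set_option autoImplicit false

/-!
RIG3-W6: the free nilpotent groups of countable rank are torsion-free and residually of
`p`-power exponent.
-/

namespace Pool.Agent.Lib.MP_4c5e24_al

open scoped commutatorElement

/-- The inclusion of the free group of rank `m`. -/
private def w6i (m : ℕ) : FreeGroup (Fin m) →* F := FreeGroup.map Fin.val

/-- The retraction to the free group of rank `m`. -/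
private def w6r (m : ℕ) : F →* FreeGroup (Fin m) :=
  FreeGroup.lift (fun i => if h : i < m then FreeGroup.of ⟨i, h⟩ else 1)

private theorem w6_ex (w : F) : ∃ m : ℕ, ∀ m' ≥ m, w6i m' (w6r m' w) = w := by
  induction w using FreeGroup.induction_on with
  | C1 => exact ⟨0, fun m' _ => by rw [map_one, map_one]⟩
  | of i =>
    refine ⟨i + 1, fun m' hm' => ?_⟩
    have h : i < m' := by omega
    change w6i m' (w6r m' (FreeGroup.of i)) = FreeGroup.of i
    rw [w6r, FreeGroup.lift_apply_of, dif_pos h, w6i, FreeGroup.map.of]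
  | inv_of i ih =>
    obtain ⟨m, hm⟩ := ih
    refine ⟨m, fun m' hm' => ?_⟩
    rw [map_inv, map_inv, hm m' hm']
  | mul a b iha ihb =>
    obtain ⟨m, hm⟩ := iha
    obtain ⟨n, hn⟩ := ihb
    refine ⟨max m n, fun m' hm' => ?_⟩
    rw [map_mul, map_mul, hm m' ((le_max_left _ _).trans hm'), hn m' ((le_max_right _ _).trans hm')]

private theorem w6_map {G G' : Type*} [Group G] [Group G'] (f : G →* G') {c : ℕ} {g : G}
    (hg : g ∈ (⊤ : Subgroup G).lowerCentralSeries c) :
    f g ∈ (⊤ : Subgroup G').lowerCentralSeries c := by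
  have h : ((⊤ : Subgroup G).lowerCentralSeries c).map f ≤
      (⊤ : Subgroup G').lowerCentralSeries c := by
    rw [Subgroup.map_lowerCentralSeries]
    exact Subgroup.lowerCentralSeries_mono c le_top
  exact h ⟨g, hg, rfl⟩

/-- Proof. Let `w ^ n ∈ gam c`. Choose `m` such that `w` is a word in `x 0, …, x (m - 1)`: there is
`v : FreeGroup (Fin m)` with `w = ι v`, `ι = FreeGroup.map Fin.val` (`FreeGroup.induction_on`).
The retraction `ρ : F →* FreeGroup (Fin m)`, `x i ↦ of i` for `i < m` and `1` otherwise, satisfies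
`ρ (ι v) = v`. So `v ^ n = ρ (w ^ n)` is in the lower central series of `FreeGroup (Fin m)`
(`Subgroup.map_lowerCentralSeries`), which is `WY (fun _ => 1) (c + 1)` (`WY_lcs`). By
`all_TFp_REp`, `v` is in it, so `w = ι v ∈ gam c`. -/
theorem tf_gam {c : ℕ} {w : F} {n : ℕ} (hn : 1 ≤ n) (h : w ^ n ∈ (gam c).1) : w ∈ (gam c).1 := by
  obtain ⟨m, hm⟩ := w6_ex w
  have h1 := hm m le_rfl
  have h2 : (w6r m w) ^ n ∈ WY (fun _ : Fin m => 1) (c + 1) := by
    rw [WY_lcs, ← map_pow]
    exact w6_map (w6r m) h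
  have h3 := (all_TFp_REp Nat.prime_two (c + 1) (Y := Fin m) (wt := fun _ => 1)
    (fun _ => le_rfl)).1 _ n hn h2
  rw [WY_lcs] at h3
  rw [← h1]
  exact w6_map (w6i m) h3

/-- Proof. Let `w ∉ gam c`, `w = ι v` as in `tf_gam`; `v ∉ WY (fun _ => 1) (c + 1)`. Let `Q`, `f`, `j` be
as in `REp`. The homomorphism `f' = f ∘ ρ : F →* Q` has `f' w = f v ≠ 1`; its range (a group)
satisfies the laws `Bn (p ^ j)` and `gam c` (it is a quotient of `FreeGroup (Fin m)` by a
subgroup which contains the lower central series term: the lower central series of the range is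
the image). So it satisfies `gam c ⊔ Bn (p ^ j)`, and `w` is not a law of it. -/
theorem re_gam {p : ℕ} (hp : p.Prime) {c : ℕ} {w : F}
    (h : ∀ j : ℕ, w ∈ (gam c ⊔ Bn (p ^ j)).1) : w ∈ (gam c).1 := by
  by_contra hw
  obtain ⟨m, hm⟩ := w6_ex w
  have h1 := hm m le_rfl
  have h2 : w6r m w ∉ WY (fun _ : Fin m => 1) (c + 1) := by
    intro h3
    rw [WY_lcs] at h3
    apply hw
    rw [← h1]
    exact w6_map (w6i m) h3
  obtain ⟨Q, hQ, f, j, hj, hf, hne⟩ := (all_TFp_REp hp (c + 1) (Y := Fin m) (wt := fun _ => 1)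
    (fun _ => le_rfl)).2 _ h2
  apply hne
  obtain ⟨a, ha, b, hb, hab⟩ := mem_sup.1 (h j)
  have h4 : Bn (p ^ j) ≤ Laws Q := by
    rw [Bn_le]
    intro g
    rw [map_pow]
    exact hj _
  have h5 : f (w6r m a) = 1 := by
    apply hf
    rw [WY_lcs]
    exact w6_map (w6r m) ha
  have h6 : f (w6r m b) = 1 := h4 hb (f.comp (w6r m))
  rw [← hab, map_mul, map_mul, h5, h6, one_mul]

end Pool.Agent.Lib.MP_4c5e24_al
end

section

set_option autoImplicit false

/-!
RIG3-H1: P. Hall's criterion of nilpotency, and solvable varieties whose metabelian groups are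
nilpotent.
-/

namespace Pool.Agent.Lib.MP_4c5e24_al

open scoped commutatorElement

private theorem h1_three {G : Type} [Group G] (N A B C : Subgroup G) [N.Normal]
    (h1 : ⁅⁅B, C⁆, A⁆ ≤ N) (h2 : ⁅⁅C, A⁆, B⁆ ≤ N) : ⁅⁅A, B⁆, C⁆ ≤ N := by
  have key : ∀ X : Subgroup G, X.map (QuotientGroup.mk' N) = ⊥ ↔ X ≤ N := by
    intro X
    rw [Subgroup.map_eq_bot_iff, QuotientGroup.ker_mk']
  rw [← key, Subgroup.map_commutator, Subgroup.map_commutator] at h1 h2 ⊢
  exact Subgroup.commutator_commutator_eq_bot_of_rotate h1 h2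

/-- Commutation of a commutator of normal subgroups with `G`.

Proof: the three subgroups lemma (`Subgroup.commutator_commutator_eq_bot_of_rotate` in the quotient
by the right side, or elementwise with the Hall-Witt identity). -/
theorem comm3 {G : Type} [Group G] (A B C : Subgroup G) [A.Normal] [B.Normal] [C.Normal] :
    ⁅⁅A, B⁆, C⁆ ≤ ⁅⁅A, C⁆, B⁆ ⊔ ⁅A, ⁅B, C⁆⁆ := by
  apply h1_three
  · rw [Subgroup.commutator_comm ⁅B, C⁆ A]
    exact le_sup_right
  · rw [Subgroup.commutator_comm C A]
    exact le_sup_left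

/-- The iterated commutators of a normal subgroup with `G`. -/
def itc {G : Type} [Group G] (N : Subgroup G) : ℕ → Subgroup G
  | 0 => N
  | n + 1 => ⁅itc N n, (⊤ : Subgroup G)⁆

private theorem h1_itc_normal {G : Type} [Group G] (N : Subgroup G) [N.Normal] (n : ℕ) :
    (itc N n).Normal := by
  induction n with
  | zero => assumption
  | succ n ih => exact Subgroup.commutator_normal _ _

private theorem h1_lcs_normal {G : Type} [Group G] (N : Subgroup G) [N.Normal] (n : ℕ) :
    (N.lowerCentralSeries n).Normal := by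
  induction n with
  | zero => assumption
  | succ n ih => exact Subgroup.commutator_normal _ _

private theorem h1_itc_anti {G : Type} [Group G] (N : Subgroup G) [N.Normal] :
    Antitone (itc N) := by
  refine antitone_nat_of_succ_le fun n => ?_
  have := h1_itc_normal N n
  exact Subgroup.commutator_le_left _ _

/-- the relative upper central series -/
private def h1Z {G : Type} [Group G] (K : Subgroup G) [K.Normal] (n : ℕ) : Subgroup G :=
  (Subgroup.upperCentralSeries (G ⧸ K) n).comap (QuotientGroup.mk' K)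

private theorem h1Z_zero {G : Type} [Group G] (K : Subgroup G) [K.Normal] : h1Z K 0 = K := by
  rw [h1Z, Subgroup.upperCentralSeries_zero, MonoidHom.comap_bot, QuotientGroup.ker_mk']

private theorem h1Z_succ {G : Type} [Group G] (K : Subgroup G) [K.Normal] (n : ℕ)
    (X : Subgroup G) : ⁅X, (⊤ : Subgroup G)⁆ ≤ h1Z K n ↔ X ≤ h1Z K (n + 1) := by
  rw [Subgroup.commutator_le]
  constructor
  · intro h x hx
    rw [h1Z, Subgroup.mem_comap, Subgroup.mem_upperCentralSeries_succ_iff]
    intro y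
    obtain ⟨y, rfl⟩ := QuotientGroup.mk'_surjective K y
    have h1 := h x hx y (Subgroup.mem_top y)
    rw [h1Z, Subgroup.mem_comap, map_commutatorElement] at h1
    exact h1
  · intro h x hx y _
    have h1 := h hx
    rw [h1Z, Subgroup.mem_comap, Subgroup.mem_upperCentralSeries_succ_iff] at h1
    rw [h1Z, Subgroup.mem_comap, map_commutatorElement]
    exact h1 (QuotientGroup.mk' K y)

private theorem h1_itc_le {G : Type} [Group G] (K : Subgroup G) [K.Normal] (X : Subgroup G)
    (n : ℕ) : ∀ j, itc X n ≤ h1Z K j ↔ X ≤ h1Z K (n + j) := by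
  induction n with
  | zero => intro j; rw [zero_add]; rfl
  | succ n ih =>
    intro j
    rw [itc, h1Z_succ, ih, show n + (j + 1) = n + 1 + j by omega]

/-- Proof. Let `N` be normal with `itc N b ≤ ⁅N, N⁆`. Claim: for every `i` there is `m` with
`itc (N.lowerCentralSeries i) m ≤ N.lowerCentralSeries (i + 1)`. Here
`N.lowerCentralSeries 0 = N`, `N.lowerCentralSeries (i + 1) = ⁅N.lowerCentralSeries i, N⁆`. For `i = 0`,
`m = b`. Step from `i` to `i + 1`: let `A = N.lowerCentralSeries i`, `itc A m ≤ ⁅A, N⁆`. By `comm3`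
and induction on `n`, `itc ⁅A, N⁆ n ≤ ⨆ (r + s = n) ⁅itc A r, itc N s⁆`. For `n = m + b` each term has
`r ≥ m` or `s ≥ b`. If `r ≥ m`: `⁅itc A r, itc N s⁆ ≤ ⁅⁅A, N⁆, N⁆ = N.lowerCentralSeries (i + 2)`
(`itc` is decreasing for normal subgroups). If `s ≥ b`: `⁅A, ⁅N, N⁆⁆ ≤ ⁅⁅A, N⁆, N⁆` by the three
subgroups lemma. -/
theorem itc_lcs {G : Type} [Group G] (N : Subgroup G) [N.Normal] {b : ℕ}
    (hb : itc N b ≤ ⁅N, N⁆) (i : ℕ) :
    ∃ m, itc (N.lowerCentralSeries i) m ≤ N.lowerCentralSeries (i + 1) := by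
  induction i with
  | zero => exact ⟨b, hb⟩
  | succ i ih =>
    obtain ⟨m, hm⟩ := ih
    have hAn := h1_lcs_normal N i
    have hKn := h1_lcs_normal N (i + 1 + 1)
    set A := N.lowerCentralSeries i with hA
    have e1 : N.lowerCentralSeries (i + 1) = ⁅A, N⁆ := rfl
    have e2 : N.lowerCentralSeries (i + 1 + 1) = ⁅⁅A, N⁆, N⁆ := rfl
    rw [e1] at hm ⊢
    set K := N.lowerCentralSeries (i + 1 + 1) with hK
    have hk1 : ⁅itc A m, N⁆ ≤ K := by
      rw [e2]
      exact Subgroup.commutator_mono hm le_rfl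
    have hk2 : ⁅A, itc N b⁆ ≤ K := by
      refine (Subgroup.commutator_mono le_rfl hb).trans ?_
      rw [Subgroup.commutator_comm]
      apply h1_three
      · rw [Subgroup.commutator_comm N A, ← e2]
      · rw [← e2]
    have claim : ∀ t r s, m + b ≤ r + s + t → ⁅itc A r, itc N s⁆ ≤ h1Z K t := by
      intro t
      induction t with
      | zero =>
        intro r s h
        rw [h1Z_zero]
        rcases le_or_gt m r with h1 | h1
        · exact (Subgroup.commutator_mono (h1_itc_anti A h1)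
            (h1_itc_anti N (Nat.zero_le s))).trans hk1
        · exact (Subgroup.commutator_mono (h1_itc_anti A (Nat.zero_le r))
            (h1_itc_anti N (show b ≤ s by omega))).trans hk2
      | succ t ih =>
        intro r s h
        rw [← h1Z_succ]
        have := h1_itc_normal A r
        have := h1_itc_normal N s
        refine (comm3 (itc A r) (itc N s) ⊤).trans (sup_le ?_ ?_)
        · exact ih (r + 1) s (by omega)
        · exact ih r (s + 1) (by omega)
    refine ⟨m + b, ?_⟩
    have h1 := claim (m + b) 0 0 (by omega)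
    have h2 := (h1_itc_le K ⁅A, N⁆ (m + b) 0).2 h1
    rwa [h1Z_zero] at h2

/-- P. Hall's criterion.

Proof. Let `N` be normal, `N.lowerCentralSeries a = ⊥` and
`(⊤ : Subgroup G).lowerCentralSeries b ≤ ⁅N, N⁆`. Then `itc N b ≤ lowerCentralSeries b ≤ ⁅N, N⁆` (as
`N ≤ ⊤`). By `itc_lcs` there is for every `i ≤ a` an `M` with
`(⊤ : Subgroup G).lowerCentralSeries M ≤ N.lowerCentralSeries i`: for `i = 1` it is the hypothesis
(`N.lowerCentralSeries 1 = ⁅N, N⁆`), and if it holds for `i` then
`lowerCentralSeries (M + m) ≤ itc (N.lowerCentralSeries i) m ≤ N.lowerCentralSeries (i + 1)`. For `i = a`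
(if `a = 0` then `N = ⊥` and `lowerCentralSeries b ≤ ⊥`) the group is nilpotent. -/
theorem hall {G : Type} [Group G] (N : Subgroup G) [N.Normal] {a b : ℕ}
    (ha : N.lowerCentralSeries a = ⊥)
    (hb : (⊤ : Subgroup G).lowerCentralSeries b ≤ ⁅N, N⁆) :
    ∃ c, (⊤ : Subgroup G).lowerCentralSeries c = ⊥ := by
  have h1 : ∀ n, itc N n ≤ (⊤ : Subgroup G).lowerCentralSeries n := by
    intro n
    induction n with
    | zero => exact le_top
    | succ n ih => exact Subgroup.commutator_mono ih le_rfl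
  have h2 : itc N b ≤ ⁅N, N⁆ := (h1 b).trans hb
  have h3 : ∀ i, ∃ M, (⊤ : Subgroup G).lowerCentralSeries M ≤ N.lowerCentralSeries (i + 1) := by
    intro i
    induction i with
    | zero => exact ⟨b, hb⟩
    | succ i ih =>
      obtain ⟨M, hM⟩ := ih
      obtain ⟨m, hm⟩ := itc_lcs N h2 (i + 1)
      refine ⟨M + m, le_trans ?_ hm⟩
      clear hm
      induction m with
      | zero => exact hM
      | succ m ih => exact Subgroup.commutator_mono ih le_rfl
  obtain ⟨M, hM⟩ := h3 a
  refine ⟨M, ?_⟩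
  rw [eq_bot_iff, ← ha]
  exact hM.trans (N.lowerCentralSeries_antitone (Nat.le_succ a))

/-- an element of the lower central series of `G` is a value of an element of that of `F` -/
private theorem h1_val {G : Type} [Group G] (d : ℕ) :
    ∀ g ∈ (⊤ : Subgroup G).lowerCentralSeries d,
      ∃ f : F →* G, ∃ w ∈ (⊤ : Subgroup F).lowerCentralSeries d, f w = g := by
  have hcomb : ∀ f1 f2 : F →* G, ∃ (f : F →* G) (a1 a2 : F →* F),
      (∀ w, f (a1 w) = f1 w) ∧ ∀ w, f (a2 w) = f2 w := by
    intro f1 f2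
    refine ⟨FreeGroup.lift fun n => if n % 2 = 0 then f1 (x (n / 2)) else f2 (x (n / 2)),
      FreeGroup.lift fun n => x (2 * n), FreeGroup.lift fun n => x (2 * n + 1), ?_, ?_⟩
    · intro w
      rw [← MonoidHom.comp_apply]
      congr 1
      apply FreeGroup.ext_hom
      intro n
      rw [MonoidHom.comp_apply, FreeGroup.lift_apply_of, FreeGroup.lift_apply_of,
        if_pos (by omega), show 2 * n / 2 = n by omega]
    · intro w
      rw [← MonoidHom.comp_apply]
      congr 1
      apply FreeGroup.ext_hom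
      intro n
      rw [MonoidHom.comp_apply, FreeGroup.lift_apply_of, FreeGroup.lift_apply_of,
        if_neg (by omega), show (2 * n + 1) / 2 = n by omega]
  have hmap : ∀ (a : F →* F) (d : ℕ), ∀ w ∈ (⊤ : Subgroup F).lowerCentralSeries d,
      a w ∈ (⊤ : Subgroup F).lowerCentralSeries d := by
    intro a d w hw
    exact (gam d).map_mem a hw
  induction d with
  | zero =>
    intro g _
    exact ⟨FreeGroup.lift fun _ => g, x 0, Subgroup.mem_top _, FreeGroup.lift_apply_of⟩
  | succ d ih =>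
    intro g hg
    rw [Subgroup.mem_lowerCentralSeries_succ_iff] at hg
    induction hg using Subgroup.closure_induction with
    | mem g hg =>
      obtain ⟨p, hp, q, -, rfl⟩ := hg
      obtain ⟨f1, w1, hw1, rfl⟩ := ih p hp
      obtain ⟨f, a1, a2, h1, h2⟩ := hcomb f1 (FreeGroup.lift fun _ => q)
      refine ⟨f, ⁅a1 w1, a2 (x 0)⁆, Subgroup.commutator_mem_commutator (hmap a1 d w1 hw1)
        (Subgroup.mem_top _), ?_⟩
      rw [map_commutatorElement, h1, h2, FreeGroup.lift_apply_of]
    | one => exact ⟨1, 1, one_mem _, rfl⟩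
    | mul g h _ _ hg hh =>
      obtain ⟨f1, w1, hw1, rfl⟩ := hg
      obtain ⟨f2, w2, hw2, rfl⟩ := hh
      obtain ⟨f, a1, a2, h1, h2⟩ := hcomb f1 f2
      exact ⟨f, a1 w1 * a2 w2, mul_mem (hmap a1 _ w1 hw1) (hmap a2 _ w2 hw2), by
        rw [map_mul, h1, h2]⟩
    | inv g _ hg =>
      obtain ⟨f1, w1, hw1, rfl⟩ := hg
      exact ⟨f1, w1⁻¹, inv_mem hw1, map_inv _ _⟩

/-- the metabelian case -/
private theorem h1_two {H : FI} {d : ℕ} (hd : MN d ≤ H ⊔ der 2) (G : Type) [Group G]
    (hG : H ≤ Laws G) (hk : derivedSeries G 2 = ⊥) :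
    (⊤ : Subgroup G).lowerCentralSeries d = ⊥ := by
  have h1 : der 2 ≤ Laws G := by
    intro w hw f
    have h2 := map_derivedSeries_le_derivedSeries f 2 (Subgroup.mem_map_of_mem f hw)
    rwa [hk, Subgroup.mem_bot] at h2
  have h2 : gam d ≤ Laws G := (le_sup_left : gam d ≤ MN d).trans (hd.trans (sup_le hG h1))
  rw [eq_bot_iff]
  intro g hg
  obtain ⟨f, w, hw, rfl⟩ := h1_val d g hg
  exact h2 hw f

/-- Proof. Induction on `k`, for all groups `G` which satisfy `H`. `k ≤ 2`: `G` satisfies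
`H ⊔ der 2` (`derivedSeries G 2 = ⊥`), so it satisfies `MN d` and is nilpotent: every element of
`(⊤ : Subgroup G).lowerCentralSeries d` is trivial. (For uncountable `G` use: a value of
the lower central series of `G` at elements of `G` is contained in the image of
a homomorphism `F →* G`: the lower central series is generated by the values of left-normed
commutators `lc g d`, or: apply the statement to `f : F →* G` with suitable countably many values; an
element of `lowerCentralSeries d` of `G` is in the image of `lowerCentralSeries d` of `F` under some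
`f : F →* G`: prove this by induction on `d`.) Step, `k ≥ 3`: `N = commutator G` (as a group) satisfies
`H` and has `derivedSeries N (k - 1) = ⊥`, so it is nilpotent by induction,
`N.lowerCentralSeries a = ⊥` for some `a` (`Subgroup.top_subtype_lowerCentralSeries`). `G ⧸ ⁅N, N⁆`
satisfies `H` and is metabelian, so it is nilpotent by the case `k = 2`,
`(⊤ : Subgroup G).lowerCentralSeries b ≤ ⁅N, N⁆` for some `b`. Apply `hall`. -/
theorem nil_of_met {H : FI} {d : ℕ} (hd : MN d ≤ H ⊔ der 2) (k : ℕ) (G : Type) [Group G]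
    (hG : H ≤ Laws G) (hk : derivedSeries G k = ⊥) :
    ∃ c, (⊤ : Subgroup G).lowerCentralSeries c = ⊥ := by
  induction k generalizing G with
  | zero =>
    exact ⟨d, h1_two hd G hG (eq_bot_iff.2 ((derivedSeries_antitone G (Nat.zero_le 2)).trans
      hk.le))⟩
  | succ k ih =>
    rcases Nat.lt_or_ge k 2 with hk2 | hk2
    · exact ⟨d, h1_two hd G hG (eq_bot_iff.2 ((derivedSeries_antitone G
        (show k + 1 ≤ 2 by omega)).trans hk.le))⟩
    · have hN1 : H ≤ Laws (commutator G) := by
        refine hG.trans ?_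
        intro w hw f
        have h1 : ((commutator G).subtype.comp f) w = 1 := hw _
        exact Subtype.ext h1
      have hN2 : derivedSeries (commutator G) k = ⊥ := by
        have h1 : ∀ j, (derivedSeries (commutator G) j).map (commutator G).subtype ≤
            derivedSeries G (j + 1) := by
          intro j
          induction j with
          | zero =>
            rw [derivedSeries_zero, ← MonoidHom.range_eq_map, Subgroup.range_subtype]
            exact (derivedSeries_one G).ge
          | succ j ihj =>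
            rw [derivedSeries_succ, Subgroup.map_commutator, derivedSeries_succ G (j + 1)]
            exact Subgroup.commutator_mono ihj ihj
        have h2 := h1 k
        rw [hk, le_bot_iff] at h2
        exact (Subgroup.map_eq_bot_iff_of_injective _ (Subgroup.subtype_injective _)).1 h2
      obtain ⟨a, ha⟩ := ih (commutator G) hN1 hN2
      have ha' : (commutator G).lowerCentralSeries a = ⊥ := by
        rw [← Subgroup.top_subtype_lowerCentralSeries, ha, Subgroup.map_bot]
      have hQ1 : H ≤ Laws (G ⧸ ⁅commutator G, commutator G⁆) := by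
        refine hG.trans ?_
        intro w hw f
        let φ : F →* G := FreeGroup.lift fun i => (f (x i)).out
        have h1 : (QuotientGroup.mk' ⁅commutator G, commutator G⁆).comp φ = f := by
          apply FreeGroup.ext_hom
          intro i
          rw [MonoidHom.comp_apply, FreeGroup.lift_apply_of, QuotientGroup.mk'_apply]
          exact QuotientGroup.out_eq' _
        rw [← h1, MonoidHom.comp_apply, hw φ, map_one]
      have hQ2 : derivedSeries (G ⧸ ⁅commutator G, commutator G⁆) 2 = ⊥ := by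
        rw [← map_derivedSeries_eq (QuotientGroup.mk'_surjective ⁅commutator G, commutator G⁆) 2,
          Subgroup.map_eq_bot_iff, QuotientGroup.ker_mk', derivedSeries_succ, derivedSeries_one]
      have hc := h1_two hd _ hQ1 hQ2
      refine hall (commutator G) (b := d) ha' ?_
      have h3 : ((⊤ : Subgroup G).lowerCentralSeries d).map
          (QuotientGroup.mk' ⁅commutator G, commutator G⁆) = ⊥ := by
        rw [Subgroup.map_lowerCentralSeries, Subgroup.map_top_of_surjective _
          (QuotientGroup.mk'_surjective _), hc]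
      rwa [Subgroup.map_eq_bot_iff, QuotientGroup.ker_mk'] at h3

/-- Proof: `nil_of_met` for `G = F ⧸ H.1`. -/
theorem nil_FI {H : FI} {d k : ℕ} (hd : MN d ≤ H ⊔ der 2) (hk : der k ≤ H) :
    ∃ c, gam c ≤ H := by
  have h1 : derivedSeries (F ⧸ H.1) k = ⊥ := by
    rw [← map_derivedSeries_eq (QuotientGroup.mk'_surjective H.1) k, Subgroup.map_eq_bot_iff,
      QuotientGroup.ker_mk']
    exact hk
  obtain ⟨c, hc⟩ := nil_of_met hd k (F ⧸ H.1) (Laws_quot H).ge h1
  refine ⟨c, ?_⟩
  have h3 : ((⊤ : Subgroup F).lowerCentralSeries c).map (QuotientGroup.mk' H.1) = ⊥ := by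
    rw [Subgroup.map_lowerCentralSeries, Subgroup.map_top_of_surjective _
      (QuotientGroup.mk'_surjective _), hc]
  rw [Subgroup.map_eq_bot_iff, QuotientGroup.ker_mk'] at h3
  exact h3

end Pool.Agent.Lib.MP_4c5e24_al
end

section

set_option autoImplicit false

/-!
RIG3-X1: an element of `gam c` outside `gam (c + 1)` is not divisible by all large primes.
-/

namespace Pool.Agent.Lib.MP_4c5e24_al

open scoped commutatorElement

/-- In a finitely generated torsion-free abelian group an element which is divisible by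
infinitely many primes is trivial.

Proof: the group is free of finite rank (`Module.free_of_finite_type_torsion_free'`); look at the
coordinates. -/
theorem eq_zero_of_dvd {A : Type} [AddCommGroup A] [AddGroup.FG A]
    (htf : ∀ (a : A) (n : ℕ), 1 ≤ n → n • a = 0 → a = 0) {S : Set ℕ} (hS : S.Infinite) {a : A}
    (ha : ∀ p ∈ S, ∃ b : A, a = p • b) : a = 0 := by
  have hfg : Module.Finite ℤ A := Module.Finite.iff_addGroup_fg.2 inferInstance
  have htf' : Module.IsTorsionFree ℤ A := by
    rw [Module.isTorsionFree_iff_smul_eq_zero]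
    intro z b h
    by_contra hcon
    push Not at hcon
    obtain ⟨hz, hb⟩ := hcon
    apply hb
    apply htf b z.natAbs (Nat.one_le_iff_ne_zero.2 (Int.natAbs_ne_zero.2 hz))
    rcases Int.natAbs_eq z with h1 | h1
    · rw [h1, natCast_zsmul] at h
      exact h
    · rw [h1, neg_smul, natCast_zsmul, neg_eq_zero] at h
      exact h
  have hfree : Module.Free ℤ A := Module.free_of_finite_type_torsion_free'
  let B := Module.Free.chooseBasis ℤ A
  apply B.repr.injective
  rw [map_zero]
  ext i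
  by_contra hne
  change B.repr a i ≠ 0 at hne
  obtain ⟨p, hpS, hp⟩ := hS.exists_gt (B.repr a i).natAbs
  obtain ⟨b, hb⟩ := ha p hpS
  have h2 : B.repr a i = p * B.repr b i := by
    rw [hb, map_nsmul, Finsupp.smul_apply, nsmul_eq_mul]
  have h3 : (p : ℤ) ∣ B.repr a i := ⟨_, h2⟩
  have h4 : p ∣ (B.repr a i).natAbs := Int.natCast_dvd.1 h3
  have h5 := Nat.le_of_dvd (Nat.pos_of_ne_zero (Int.natAbs_ne_zero.2 hne)) h4
  omega

/-- The retraction onto the words in the first `m` generators. -/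
private def xRho (m : ℕ) : F →* F := FreeGroup.lift (fun i => if i < m then x i else 1)

private theorem xRho_of (m i : ℕ) : xRho m (x i) = if i < m then x i else 1 := by
  unfold xRho
  rw [x, FreeGroup.lift_apply_of]

private theorem exists_xRho (w : F) : ∃ m : ℕ, ∀ m' : ℕ, m ≤ m' → xRho m' w = w := by
  induction w using FreeGroup.induction_on with
  | C1 => exact ⟨0, fun m' _ => map_one _⟩
  | of i =>
    refine ⟨i + 1, fun m' hm' => ?_⟩
    have := xRho_of m' i
    rw [if_pos (by omega)] at this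
    exact this
  | inv_of i ih =>
    obtain ⟨m, hm⟩ := ih
    exact ⟨m, fun m' hm' => by rw [map_inv, hm m' hm']⟩
  | mul a b iha ihb =>
    obtain ⟨m1, h1⟩ := iha
    obtain ⟨m2, h2⟩ := ihb
    exact ⟨max m1 m2, fun m' hm' => by
      rw [map_mul, h1 m' (le_trans (le_max_left _ _) hm'),
        h2 m' (le_trans (le_max_right _ _) hm')]⟩

private theorem finite_xRho (m c : ℕ) :
    (xRho m '' {y | ∃ l : ℕ → ℕ, y = lc (fun i => x (l i)) c}).Finite := by
  refine Set.Finite.subset (Set.finite_range (fun f : Fin (c + 1) → Option (Fin m) =>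
    lc (fun i => if h : i < c + 1 then
      (match f ⟨i, h⟩ with
        | none => (1 : F)
        | some j => x j) else 1) c)) ?_
  rintro _ ⟨_, ⟨l, rfl⟩, rfl⟩
  refine ⟨fun i => if h : l i < m then some ⟨l i, h⟩ else none, ?_⟩
  rw [map_lc]
  apply lc_congr
  intro i hi
  rw [xRho_of]
  have h1 : i < c + 1 := by omega
  rw [dif_pos h1]
  by_cases h2 : l i < m
  · simp only [dif_pos h2, if_pos h2]
  · simp only [dif_neg h2, if_neg h2]

private theorem comm_gam {c : ℕ} {a b : F} (ha : a ∈ (gam c).1) : ⁅a, b⁆ ∈ (gam (c + 1)).1 := by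
  change _ ∈ (⊤ : Subgroup F).lowerCentralSeries (c + 1)
  rw [Subgroup.lowerCentralSeries_succ]
  exact Subgroup.commutator_mem_commutator ha (Subgroup.mem_top _)

/-- Proof. Suppose `w ∈ gam c`, `w ∉ gam (c + 1)` and `w ∈ Qp p c` for all primes `p > n`. Choose `m`
such that `w` is a word in `x 0, …, x (m - 1)`, and let `ρ : F →* F` be the endomorphism with
`ρ (x i) = x i` for `i < m` and `1` otherwise; `ρ w = w`. Let `A` be the image of
`(gam c).1.map ρ` in `F ⧸ (gam (c + 1)).1`, an abelian group (`⁅γ_(c+1), γ_(c+1)⁆ ≤ γ_(c+2)`), written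
additively. It is finitely generated: by `gam_gen` it is generated by the classes of
the `ρ (lc (x ∘ l) c)`, which are trivial if some `l i ≥ m` (`i ≤ c`), and there are only finitely many
tuples `(l 0, …, l c)` with entries `< m`. It is torsion-free by `tf_gam` (for `c + 1`). For a prime
`p > n`, `w = ρ w ∈ ρ (Qp p c)`; `Qp p c` is generated by the `v ^ p` (`v ∈ gam c`), commutators of
elements of `gam c` and `gam (c + 1)`, so the class of `w` in `A` is `p` times an element
of `A` (the set of the words whose `ρ`-image has this property is a subgroup which contains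
the generators). By `eq_zero_of_dvd` the class of `w` is trivial, that is `w ∈ gam (c + 1)`, a
contradiction. -/
theorem exists_prime_Qp {c : ℕ} {w : F} (hw : w ∈ (gam c).1) (hw' : w ∉ (gam (c + 1)).1) (n : ℕ) :
    ∃ p : ℕ, p.Prime ∧ n < p ∧ w ∉ (Qp p c).1 := by
  by_contra hcon
  push Not at hcon
  obtain ⟨m, hm⟩ := exists_xRho w
  have hρw : xRho m w = w := hm m le_rfl
  let π : F →* F ⧸ (gam (c + 1)).1 := QuotientGroup.mk' _
  have hπ : ∀ v : F, π v = 1 ↔ v ∈ (gam (c + 1)).1 := fun v => QuotientGroup.eq_one_iff v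
  let B : Subgroup (F ⧸ (gam (c + 1)).1) := (gam c).1.map (π.comp (xRho m))
  have hρ : ∀ v ∈ (gam c).1, xRho m v ∈ (gam c).1 := fun v hv => (gam c).map_mem _ hv
  have hcomm : ∀ a b : B, a * b = b * a := by
    rintro ⟨_, a, ha, rfl⟩ ⟨_, b, hb, rfl⟩
    apply Subtype.ext
    change (π.comp (xRho m)) a * (π.comp (xRho m)) b = (π.comp (xRho m)) b * (π.comp (xRho m)) a
    rw [← commutatorElement_eq_one_iff_mul_comm, ← map_commutatorElement]
    change π (xRho m ⁅a, b⁆) = 1
    rw [hπ]
    exact (gam (c + 1)).map_mem _ (comm_gam ha)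
  let _ : CommGroup B := { (inferInstance : Group B) with mul_comm := hcomm }
  have hBfg : B.FG := by
    have h1 : B = Subgroup.closure (π '' (xRho m '' {y | ∃ l : ℕ → ℕ, y = lc (fun i => x (l i)) c})) := by
      apply le_antisymm
      · have h2 := Subgroup.map_mono (f := π.comp (xRho m)) (gam_gen c)
        refine h2.trans ?_
        rw [Subgroup.map_sup, MonoidHom.map_closure, sup_le_iff]
        constructor
        · rw [Set.image_image]
          exact le_rfl
        · rintro _ ⟨v, hv, rfl⟩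
          have : (π.comp (xRho m)) v = 1 := (hπ _).2 ((gam (c + 1)).map_mem _ hv)
          rw [this]
          exact one_mem _
      · rw [Subgroup.closure_le]
        rintro _ ⟨_, ⟨_, ⟨l, rfl⟩, rfl⟩, rfl⟩
        exact ⟨_, lc_mem (fun i => x (l i)) c, rfl⟩
    rw [h1]
    exact ⟨((finite_xRho m c).image π).toFinset, by rw [Set.Finite.coe_toFinset]⟩
  have hfg : AddGroup.FG (Additive B) := by
    have : Group.FG B := (Group.fg_iff_subgroup_fg B).2 hBfg
    infer_instance
  have hdvd : ∀ p : ℕ, p.Prime → n < p → ∃ b : B, b ^ p = (⟨π w, w, hw, by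
      change π (xRho m w) = _
      rw [hρw]⟩ : B) := by
    intro p hp hnp
    let T : Subgroup F := ((powMonoidHom p : B →* B).range.map B.subtype).comap (π.comp (xRho m))
    have hT : (Qp p c).1 ≤ T := by
      have h1 : (AP p (gam c)).1 ≤ T := by
        refine apow_le.2 ⟨fun h hh => ?_, fun h hh k hk => ?_⟩
        · refine ⟨⟨π (xRho m h), h, hh, rfl⟩ ^ p, ⟨_, rfl⟩, ?_⟩
          rw [map_pow, map_pow]
          rfl
        · have h2 : (π.comp (xRho m)) ⁅h, k⁆ = 1 :=
            (hπ _).2 ((gam (c + 1)).map_mem _ (comm_gam hh))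
          change (π.comp (xRho m)) ⁅h, k⁆ ∈ (powMonoidHom p : B →* B).range.map B.subtype
          rw [h2]
          exact one_mem _
      have h3 : (gam (c + 1)).1 ≤ T := by
        intro v hv
        have h2 : (π.comp (xRho m)) v = 1 := (hπ _).2 ((gam (c + 1)).map_mem _ hv)
        change (π.comp (xRho m)) v ∈ (powMonoidHom p : B →* B).range.map B.subtype
        rw [h2]
        exact one_mem _
      exact sup_le h1 h3
    obtain ⟨_, ⟨b, rfl⟩, hb⟩ := hT (hcon p hp hnp)
    refine ⟨b, Subtype.ext ?_⟩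
    change B.subtype (b ^ p) = π w
    have h4 : (π.comp (xRho m)) w = π w := by
      change π (xRho m w) = _
      rw [hρw]
    rw [← h4, ← hb]
    rfl
  have h0 : (Additive.ofMul (⟨π w, w, hw, by
      change π (xRho m w) = _
      rw [hρw]⟩ : B)) = (0 : Additive B) := by
    refine eq_zero_of_dvd (A := Additive B) (S := {p : ℕ | p.Prime ∧ n < p}) ?_ ?_ ?_
    · intro a k hk hak
      obtain ⟨⟨_, v, hv, rfl⟩, rfl⟩ := Additive.ofMul.surjective a
      have h1 : (π (xRho m v)) ^ k = 1 := by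
        have := congrArg (fun t : Additive B => ((Additive.toMul t : B) : F ⧸ (gam (c + 1)).1)) hak
        exact this
      rw [← map_pow, hπ] at h1
      have h2 := tf_gam hk h1
      have h3 : π (xRho m v) = 1 := (hπ _).2 h2
      apply congrArg Additive.ofMul
      apply Subtype.ext
      exact h3
    · refine Set.infinite_of_forall_exists_gt fun a => ?_
      obtain ⟨p, hp1, hp2⟩ := Nat.exists_infinite_primes (max a n + 1)
      exact ⟨p, ⟨hp2, by omega⟩, by omega⟩
    · rintro p ⟨hp, hnp⟩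
      obtain ⟨b, hb⟩ := hdvd p hp hnp
      exact ⟨Additive.ofMul b, by rw [← hb]; rfl⟩
  apply hw'
  rw [← hπ]
  have := congrArg (fun t : Additive B => ((Additive.toMul t : B) : F ⧸ (gam (c + 1)).1)) h0
  exact this

end Pool.Agent.Lib.MP_4c5e24_al
end

section

set_option autoImplicit false

/-!
RIG3-Z1: the varieties of nilpotent groups of class at most `c` are fixed.
-/

namespace Pool.Agent.Lib.MP_4c5e24_al

open scoped commutatorElement

/-- The minimal nilpotent varieties above `N_c`, in terms of laws. -/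
def Acl (c : ℕ) : Set FI :=
  {H | H < gam c ∧ (∀ K : FI, H < K → K ≤ gam c → K = gam c) ∧ (∃ k, der k ≤ H) ∧
    ∃ d, MN d ≤ H ⊔ der 2}

private theorem z1_cm {G : Type*} [Group G] (k b h : G) :
    ⁅k * b, h⁆ = k * ⁅b, h⁆ * k⁻¹ * ⁅k, h⁆ := by
  simp only [commutatorElement_def]
  group

private theorem z1_step {K : FI} {m : ℕ} (hm : gam m ≤ K ⊔ gam (m + 1)) :
    gam (m + 1) ≤ K ⊔ gam (m + 2) := by
  change (⊤ : Subgroup F).lowerCentralSeries (m + 1) ≤ (K ⊔ gam (m + 2)).1
  rw [Subgroup.lowerCentralSeries_succ, Subgroup.commutator_le]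
  intro a ha h _
  obtain ⟨k, hk, b, hb, hkb⟩ := mem_sup.mp (hm ha)
  rw [← hkb, z1_cm]
  apply (K ⊔ gam (m + 2)).1.mul_mem
  · have h1 : ⁅b, h⁆ ∈ (gam (m + 2)).1 := by
      change _ ∈ (⊤ : Subgroup F).lowerCentralSeries (m + 1 + 1)
      rw [Subgroup.lowerCentralSeries_succ]
      exact Subgroup.commutator_mem_commutator hb (Subgroup.mem_top _)
    have h2 : ⁅b, h⁆ ∈ (K ⊔ gam (m + 2)).1 := (le_sup_right : gam (m + 2) ≤ K ⊔ gam (m + 2)) h1
    exact (FI.normal (K ⊔ gam (m + 2))).conj_mem _ h2 k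
  · have h1 : ⁅k, h⁆ ∈ K.1 := by
      rw [commutatorElement_def, mul_assoc, mul_assoc, ← mul_assoc h]
      exact K.1.mul_mem hk ((FI.normal K).conj_mem _ (K.1.inv_mem hk) h)
    exact (le_sup_left : K ≤ K ⊔ gam (m + 2)) h1

private theorem z1_all {K : FI} {c : ℕ} (h : gam c ≤ K ⊔ gam (c + 1)) (n : ℕ) :
    gam c ≤ K ⊔ gam (c + n) := by
  have all : ∀ n, gam (c + n) ≤ K ⊔ gam (c + n + 1) := by
    intro n
    induction n with
    | zero => exact h
    | succ n ih => exact z1_step ih
  induction n with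
  | zero => exact le_sup_right
  | succ n ih => exact ih.trans (sup_le le_sup_left (all n))

private theorem gam_anti {a b : ℕ} (h : a ≤ b) : gam b ≤ gam a :=
  (Subgroup.lowerCentralSeries_antitone (⊤ : Subgroup F)) h

private theorem der_le_gam (n : ℕ) : der n ≤ gam n := by
  induction n with
  | zero => exact le_top
  | succ n ih =>
    change derivedSeries F (n + 1) ≤ (⊤ : Subgroup F).lowerCentralSeries (n + 1)
    rw [derivedSeries_succ, Subgroup.lowerCentralSeries_succ]
    exact Subgroup.commutator_mono ih le_top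

/-- Proof. Let `H ∈ Acl c`. By `nil_FI`, `gam d' ≤ H` for some `d'`. If `H ⊔ gam (c + 1) = gam c`, then
`gam c ≤ H ⊔ gam (c + 1)`, and by induction on `n`, `gam (c + n) ≤ H ⊔ gam (c + n + 1)` (as in
`MN_le_of_step`), so `gam c ≤ H ⊔ gam d' = H`, a contradiction. So `H ⊔ gam (c + 1) ≠ gam c`, and since
`H ≤ H ⊔ gam (c + 1) ≤ gam c`, the maximality of `H` gives `H ⊔ gam (c + 1) = H`. -/
theorem gam_le_of_Acl {c : ℕ} {H : FI} (h : H ∈ Acl c) : gam (c + 1) ≤ H := by
  obtain ⟨hlt, hmax, ⟨k, hk⟩, d, hd⟩ := h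
  obtain ⟨d', hd'⟩ := nil_FI hd hk
  have h1 : H ⊔ gam (c + 1) ≤ gam c := sup_le hlt.le (gam_anti (Nat.le_succ c))
  have h2 : H ⊔ gam (c + 1) ≠ gam c := by
    intro h2
    have h3 := z1_all h2.ge d'
    have h4 : gam (c + d') ≤ H := (gam_anti (Nat.le_add_left d' c)).trans hd'
    exact absurd (h3.trans (sup_le le_rfl h4)) (not_le_of_gt hlt)
  have h3 : H = H ⊔ gam (c + 1) := by
    by_contra h3
    exact h2 (hmax _ (lt_of_le_of_ne le_sup_left h3) h1)
  rw [h3]
  exact le_sup_right

private theorem exists_Acl {c : ℕ} {w : F} (hw : w ∈ (gam c).1) (hw' : w ∉ (gam (c + 1)).1) :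
    ∃ H ∈ Acl c, w ∉ H.1 := by
  obtain ⟨p, hp, hcp, hwp⟩ := exists_prime_Qp hw hw' (c + 1)
  obtain ⟨H, hQH, hlt, hwH, hmax⟩ := exists_max hp hcp hw hwp
  have hg : gam (c + 1) ≤ H := (le_sup_right : gam (c + 1) ≤ Qp p c).trans hQH
  exact ⟨H, ⟨hlt, hmax, ⟨c + 1, (der_le_gam _).trans hg⟩, c + 1,
    sup_le (hg.trans le_sup_left) le_sup_right⟩, hwH⟩

private theorem lc_not_mem (c : ℕ) : lc x c ∉ (gam (c + 1)).1 := by
  intro h
  rcases Nat.eq_zero_or_pos c with rfl | hc
  · have h1 : (gam (0 + 1)).1 = (Ab 0).1 := by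
      rw [Ab0_eq]
      change (⊤ : Subgroup F).lowerCentralSeries (0 + 1) = commutator F
      rw [Subgroup.lowerCentralSeries_succ, Subgroup.lowerCentralSeries_zero]
      rfl
    rw [h1, mem_Ab] at h
    have h2 := h 0
    change ((0 : ℕ) : ℤ) ∣ ex 0 (x 0) at h2
    rw [ex_x, if_pos rfl] at h2
    norm_num at h2
  · refine MN_strict hc ((MN_le_iff (c := c) (le_sup_right : der 2 ≤ MN (c + 1))).2 ?_)
    exact (le_sup_left : gam (c + 1) ≤ MN (c + 1)) h

/-- Proof. `≥`: `gam_le_of_Acl`. `≤`: let `w` be in all `H ∈ Acl c`. Note: if `Qp p c ≤ H` (so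
`gam (c + 1) ≤ H`), `H < gam c` and `H` is maximal in the sense of `exists_max`, then `H ∈ Acl c`: a
term of the derived series is contained in `gam (c + 1)` (`der k ≤ gam (k)` in general: by induction,
`derivedSeries k ≤ lowerCentralSeries k`), and `MN (c + 1) = gam (c + 1) ⊔ der 2 ≤ H ⊔ der 2`. First,
`w ∈ gam c`: `Acl c` is not empty, because `lc x c ∈ gam c`, `lc x c ∉ gam (c + 1)` (for `c ≥ 1` because
`MN_strict`: otherwise `MN c ≤ MN (c + 1)` by `MN_le_iff`; for `c = 0`: `x 0` is not in the commutator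
subgroup), so `exists_prime_Qp` and `exists_max` give an element of `Acl c`, which is contained in `gam c`.
If `w ∉ gam (c + 1)`, then by `exists_prime_Qp` there is a prime `p > c + 1` with `w ∉ Qp p c`, and by
`exists_max` there is `H ∈ Acl c` with `w ∉ H`, a contradiction. -/
theorem sInf_Acl (c : ℕ) : sInf (Acl c) = gam (c + 1) := by
  apply le_antisymm
  · rw [le_def]
    intro w hw
    rw [mem_sInf] at hw
    obtain ⟨H₀, hH₀, -⟩ := exists_Acl (c := c) (w := lc x c) (lc_mem x c) (lc_not_mem c)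
    have hwc : w ∈ (gam c).1 := hH₀.1.le (hw H₀ hH₀)
    by_contra hw'
    obtain ⟨H, hH, hwH⟩ := exists_Acl hwc hw'
    exact hwH (hw H hH)
  · exact le_sInf fun H hH => gam_le_of_Acl hH

/-- Every automorphism fixes all `N_c`.

Proof. Induction on `c` (for all automorphisms simultaneously, or for `e` and `e.symm`). `gam 0 = ⊤`. Let
`e (gam c) = gam c`. Then `e` maps `Acl c` onto `Acl c`: `e` is an order isomorphism which fixes
`gam c`, `der k` (`map_der`), `MN d` (`map_MN` for `d ≥ 1` with `exists_adm`; `MN 0 = ⊤`); use also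
`e.symm`. So `e (gam (c + 1)) = e (sInf (Acl c)) = sInf (Acl c)` (`sInf_Acl`, `OrderIso.map_sInf`). -/
theorem map_gam (e : FI ≃o FI) (c : ℕ) : e (gam c) = gam c := by
  induction c generalizing e with
  | zero =>
    have h0 : gam 0 = ⊤ := rfl
    rw [h0, map_top]
  | succ c ih =>
    have hA : ∀ (e : FI ≃o FI) {H : FI}, H ∈ Acl c → e H ∈ Acl c := by
      rintro e H ⟨hlt, hmax, ⟨k, hk⟩, d, hd⟩
      refine ⟨?_, ?_, ⟨k, ?_⟩, d, ?_⟩
      · rw [← ih e, e.lt_iff_lt]
        exact hlt
      · intro K h1 h2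
        have h3 : H < e.symm K := by rwa [← e.lt_iff_lt, e.apply_symm_apply]
        have h4 : e.symm K ≤ gam c := by
          rw [← e.le_iff_le, e.apply_symm_apply, ih e]
          exact h2
        have h5 := hmax _ h3 h4
        rw [← ih e, ← h5, e.apply_symm_apply]
      · rw [← map_der (e := e) k, e.le_iff_le]
        exact hk
      · have h1 : e (MN d) = MN d := by
          rcases Nat.eq_zero_or_pos d with rfl | hd0
          · have h2 : MN 0 = ⊤ := top_le_iff.1 (le_sup_left : gam 0 ≤ gam 0 ⊔ der 2)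
            rw [h2, map_top]
          · obtain ⟨π, hπ⟩ := exists_adm e
            exact map_MN hπ hd0
        have h2 := e.monotone hd
        rwa [h1, map_sup, map_der] at h2
    have key : ∀ e : FI ≃o FI, e (gam (c + 1)) ≤ gam (c + 1) := by
      intro e
      rw [← sInf_Acl c]
      refine le_sInf fun H hH => ?_
      have h1 : sInf (Acl c) ≤ e.symm H := sInf_le (hA e.symm hH)
      have h2 := e.monotone h1
      rwa [e.apply_symm_apply] at h2
    apply le_antisymm (key e)
    have h1 := e.monotone (key e.symm)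
    rwa [e.apply_symm_apply] at h1

/-- `N_c` is the join of its subvarieties of exponent a power of `p`, so `Rs n (gam c)` for all
`n ≥ 1`.

Proof. Choose a prime `p` which does not divide `n`. If `w` is in all
`gam c ⊔ (Bn m ⊔ der s)`, `m` coprime to `n`, take `m = p ^ j` and `s` with
`der s ≤ gam c`: `w ∈ gam c ⊔ Bn (p ^ j)` for all `j`; `re_gam`. -/
theorem Rs_gam {n : ℕ} (hn : 1 ≤ n) (c : ℕ) : Rs n (gam c) := by
  obtain ⟨p, hpn, hp⟩ := Nat.exists_infinite_primes (n + 1)
  intro w hw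
  refine re_gam hp fun j => ?_
  have hnd : ¬ p ∣ n := fun h => by
    have h1 := Nat.le_of_dvd hn h
    omega
  have h1 := hw (p ^ j) c (pow_pos hp.pos j)
    (Nat.Coprime.pow_right j ((Nat.Prime.coprime_iff_not_dvd hp).2 hnd).symm)
  have h2 : gam c ⊔ (Bn (p ^ j) ⊔ der c) ≤ gam c ⊔ Bn (p ^ j) :=
    sup_le le_sup_left (sup_le le_sup_right ((der_le_gam c).trans le_sup_left))
  exact h2 h1

/-- Proof: as `Rs_gam` with `p = 3`. -/
theorem Res_gam (c : ℕ) : Res (gam c) := by
  intro w hw
  refine re_gam Nat.prime_three fun j => hw (3 ^ j) ?_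
  exact Odd.pow (by decide)

end Pool.Agent.Lib.MP_4c5e24_al
end
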